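import Mathlib

/-! Taylor series of analytic functions as formal power series. -/

namespace Pool.Agent.Lib.MP_5591bc_ag.G

open Filter Topology Metric Asymptotics

noncomputable section

/-- The Taylor series of `g` at `p`. -/
def tay (g : ℂ → ℂ) (p : ℂ) : PowerSeries ℂ :=
  PowerSeries.mk fun k => iteratedDeriv k g p / (k.factorial : ℂ)

variable {g h : ℂ → ℂ} {p : ℂ}

lemma coeff_tay (k : ℕ) :
    PowerSeries.coeff k (tay g p) = iteratedDeriv k g p / (k.factorial : ℂ) := by
  simp [tay]

@[simp] lemma coeff_zero_tay : PowerSeries.coeff 0 (tay g p) = g p := by simp [tay]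

@[simp] lemma constantCoeff_tay : PowerSeries.constantCoeff (tay g p) = g p := by
  rw [← PowerSeries.coeff_zero_eq_constantCoeff_apply, coeff_zero_tay]

lemma tay_congr (e : g =ᶠ[𝓝 p] h) : tay g p = tay h p := by
  ext k; rw [coeff_tay, coeff_tay, e.iteratedDeriv_eq]

lemma tay_add (hg : AnalyticAt ℂ g p) (hh : AnalyticAt ℂ h p) :
    tay (fun t => g t + h t) p = tay g p + tay h p := by
  ext k
  rw [map_add, coeff_tay, coeff_tay, coeff_tay,
    iteratedDeriv_fun_add hg.contDiffAt hh.contDiffAt, add_div]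

lemma tay_mul (hg : AnalyticAt ℂ g p) (hh : AnalyticAt ℂ h p) :
    tay (fun t => g t * h t) p = tay g p * tay h p := by
  ext k
  rw [PowerSeries.coeff_mul, Finset.Nat.sum_antidiagonal_eq_sum_range_succ
    (fun i j => PowerSeries.coeff i (tay g p) * PowerSeries.coeff j (tay h p)), coeff_tay,
    show (fun t => g t * h t) = g * h from rfl, iteratedDeriv_mul hg.contDiffAt hh.contDiffAt,
    Finset.sum_div]
  refine Finset.sum_congr rfl fun i hi => ?_
  have hi' : i ≤ k := Nat.lt_succ_iff.1 (Finset.mem_range.1 hi)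
  rw [coeff_tay, coeff_tay, Nat.cast_choose ℂ hi']
  have h1 : (k.factorial : ℂ) ≠ 0 := by exact_mod_cast k.factorial_ne_zero
  have h2 : (i.factorial : ℂ) ≠ 0 := by exact_mod_cast i.factorial_ne_zero
  have h3 : ((k - i).factorial : ℂ) ≠ 0 := by exact_mod_cast (k - i).factorial_ne_zero
  field_simp

lemma tay_const (c : ℂ) : tay (fun _ => c) p = PowerSeries.C c := by
  ext k
  rw [coeff_tay, iteratedDeriv_const, PowerSeries.coeff_C]
  split_ifs with hk
  · subst hk; simp
  · simp

lemma tay_deriv : tay (deriv g) p = PowerSeries.derivative ℂ (tay g p) := by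
  ext k
  rw [PowerSeries.coeff_derivative, coeff_tay, coeff_tay, iteratedDeriv_succ', Nat.factorial_succ]
  have h1 : (k.factorial : ℂ) ≠ 0 := by exact_mod_cast k.factorial_ne_zero
  have h2 : ((k : ℂ) + 1) ≠ 0 := by exact_mod_cast k.succ_ne_zero
  push_cast
  field_simp

lemma tay_sum {ι : Type*} (s : Finset ι) {G : ι → ℂ → ℂ} (hG : ∀ i ∈ s, AnalyticAt ℂ (G i) p) :
    tay (fun t => ∑ i ∈ s, G i t) p = ∑ i ∈ s, tay (G i) p := by
  classical
  induction s using Finset.induction_on with
  | empty => simpa using tay_const (p := p) 0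
  | insert a s ha ih =>
    simp only [Finset.sum_insert ha]
    rw [tay_add (hG a (by simp)) (Finset.analyticAt_fun_sum s fun i hi => hG i (by simp [hi])),
      ih fun i hi => hG i (by simp [hi])]

lemma tay_prod {ι : Type*} (s : Finset ι) {G : ι → ℂ → ℂ} (hG : ∀ i ∈ s, AnalyticAt ℂ (G i) p) :
    tay (fun t => ∏ i ∈ s, G i t) p = ∏ i ∈ s, tay (G i) p := by
  classical
  induction s using Finset.induction_on with
  | empty => simpa using tay_const (p := p) 1
  | insert a s ha ih =>
    simp only [Finset.prod_insert ha]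
    rw [tay_mul (hG a (by simp)) (Finset.analyticAt_fun_prod s fun i hi => hG i (by simp [hi])),
      ih fun i hi => hG i (by simp [hi])]

lemma tay_pow (hg : AnalyticAt ℂ g p) (n : ℕ) : tay (fun t => g t ^ n) p = tay g p ^ n := by
  have := tay_prod (p := p) (Finset.range n) (G := fun _ => g) fun _ _ => hg
  simpa using this

lemma tay_cmul (hg : AnalyticAt ℂ g p) (c : ℂ) :
    tay (fun t => c * g t) p = PowerSeries.C c * tay g p := by
  rw [tay_mul analyticAt_const hg, tay_const]

lemma tay_sub (hg : AnalyticAt ℂ g p) (hh : AnalyticAt ℂ h p) :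
    tay (fun t => g t - h t) p = tay g p - tay h p := by
  have := tay_add (hg.fun_sub hh) hh
  simp only [sub_add_cancel] at this
  rw [eq_sub_iff_add_eq, ← this]

lemma tay_id : tay (fun t => t - p) p = PowerSeries.X := by
  apply PowerSeries.derivative.ext
  · rw [← tay_deriv, PowerSeries.derivative_X]
    have : deriv (fun t : ℂ => t - p) = fun _ => 1 := by ext t; simp
    rw [this, tay_const]; simp
  · simp

lemma tay_shift (a : ℂ) : tay (fun t => g (t + a)) p = tay g (p + a) := by
  ext k; rw [coeff_tay, coeff_tay, iteratedDeriv_comp_add_const]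

lemma tay_poly (q : Polynomial ℂ) :
    tay (fun t => q.eval t) p = (Polynomial.taylor p q : Polynomial ℂ) := by
  induction q using Polynomial.induction_on' with
  | add a b ha hb =>
    simp only [Polynomial.eval_add, map_add, Polynomial.coe_add]
    rw [tay_add (a.differentiable.analyticAt p) (b.differentiable.analyticAt p), ha, hb]
  | monomial n c =>
    have e : (fun t : ℂ => (Polynomial.monomial n c).eval t) = fun t => c * ((t - p) + p) ^ n := by
      ext t; simp
    have a1 : AnalyticAt ℂ (fun t : ℂ => t - p) p := by fun_prop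
    rw [e, tay_cmul (by fun_prop), tay_pow (by fun_prop), tay_add a1 analyticAt_const, tay_id,
      tay_const, Polynomial.taylor_monomial]
    simp

lemma tay_pow_mul (hh : AnalyticAt ℂ h p) (n : ℕ) :
    tay (fun t => (t - p) ^ n * h t) p = PowerSeries.X ^ n * tay h p := by
  rw [tay_mul (by fun_prop) hh, tay_pow (by fun_prop), tay_id]

lemma eventually_zero_of_tay (hg : AnalyticAt ℂ g p) (h0 : tay g p = 0) :
    ∀ᶠ t in 𝓝 p, g t = 0 := by
  by_contra hn
  obtain ⟨n, u, hu, hu0, e⟩ := hg.exists_eventuallyEq_pow_smul_nonzero_iff.mpr hn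
  rw [tay_congr (h := fun t => (t - p) ^ n * u t) e, tay_pow_mul hu] at h0
  have := (mul_eq_zero.1 h0).resolve_left (pow_ne_zero _ PowerSeries.X_ne_zero)
  exact hu0 (by rw [← constantCoeff_tay (g := u), this, map_zero])

lemma dvd_tay_of_isBigO (hg : AnalyticAt ℂ g p) {k : ℕ}
    (hO : g =O[𝓝[≠] p] fun t => (t - p) ^ k) : PowerSeries.X ^ k ∣ tay g p := by
  by_cases hn : ∀ᶠ t in 𝓝 p, g t = 0
  · rw [tay_congr (h := fun _ => 0) hn, tay_const]; simp
  obtain ⟨n, u, hu, hu0, e⟩ := hg.exists_eventuallyEq_pow_smul_nonzero_iff.mpr hn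
  rw [tay_congr (h := fun t => (t - p) ^ n * u t) e, tay_pow_mul hu]
  refine Dvd.dvd.mul_right (pow_dvd_pow _ ?_) _
  by_contra hlt
  obtain ⟨j, rfl⟩ : ∃ j, k = n + (j + 1) := ⟨k - n - 1, by omega⟩
  apply hu0
  have h1 : u =O[𝓝[≠] p] fun t => (t - p) ^ (j + 1) := by
    have h2 := hO.mul (isBigO_refl (fun t : ℂ => ((t - p) ^ n)⁻¹) (𝓝[≠] p))
    refine h2.congr' ?_ ?_
    · filter_upwards [self_mem_nhdsWithin, nhdsWithin_le_nhds e] with t ht et
      have : (t - p) ^ n ≠ 0 := pow_ne_zero _ (sub_ne_zero.2 ht)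
      rw [et, smul_eq_mul]; field_simp
    · filter_upwards [self_mem_nhdsWithin] with t ht
      have : (t - p) ^ n ≠ 0 := pow_ne_zero _ (sub_ne_zero.2 ht)
      rw [pow_add]; field_simp
  have h3 : Tendsto (fun t : ℂ => (t - p) ^ (j + 1)) (𝓝[≠] p) (𝓝 0) := by
    have : Continuous fun t : ℂ => (t - p) ^ (j + 1) := by fun_prop
    simpa using (this.tendsto p).mono_left nhdsWithin_le_nhds
  exact tendsto_nhds_unique (hu.continuousAt.tendsto.mono_left nhdsWithin_le_nhds)
    (h1.trans_tendsto h3)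

lemma dcc {R r : ℝ} (hg : DifferentiableOn ℂ g (ball p R)) (hr : r < R) :
    DiffContOnCl ℂ g (ball p r) :=
  ⟨hg.mono (ball_subset_ball hr.le),
    hg.continuousOn.mono (closure_ball_subset_closedBall.trans (closedBall_subset_ball hr))⟩

lemma cauchy {R r S : ℝ} (hg : DifferentiableOn ℂ g (ball p R)) (h0 : 0 < r) (hr : r < R)
    (hS : ∀ t ∈ sphere p r, ‖g t‖ ≤ S) (k : ℕ) :
    ‖PowerSeries.coeff k (tay g p)‖ ≤ S / r ^ k := by
  have := Complex.norm_iteratedDeriv_le_of_forall_mem_sphere_norm_le k h0 (dcc hg hr) hS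
  rw [coeff_tay, norm_div, Complex.norm_natCast, div_le_iff₀ (by positivity)]
  refine this.trans (le_of_eq ?_)
  ring

lemma schwarz {R r : ℝ} (h0 : 0 < r) (hr : r < R) (k : ℕ) : ∀ {g : ℂ → ℂ} {S : ℝ},
    DifferentiableOn ℂ g (ball p R) → (∀ t ∈ sphere p r, ‖g t‖ ≤ S) →
    PowerSeries.X ^ k ∣ tay g p → ∀ t ∈ closedBall p r, ‖g t‖ ≤ S * (‖t - p‖ / r) ^ k := by
  induction k with
  | zero =>
    intro g S hg hS _ t ht
    rw [pow_zero, mul_one]
    refine Complex.norm_le_of_forall_mem_frontier_norm_le isBounded_ball (dcc hg hr) ?_ ?_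
    · rwa [frontier_ball p h0.ne']
    · rwa [closure_ball p h0.ne']
  | succ k ih =>
    intro g S hg hS hd t ht
    have hn : ball p R ∈ 𝓝 p := ball_mem_nhds p (h0.trans hr)
    have g0 : g p = 0 := by
      rw [← coeff_zero_tay (g := g)]
      exact PowerSeries.X_pow_dvd_iff.1 hd 0 (by omega)
    have hd1 : DifferentiableOn ℂ (dslope g p) (ball p R) :=
      (Complex.differentiableOn_dslope hn).2 hg
    have e : ∀ t, g t = (t - p) ^ 1 * dslope g p t := fun t => by
      have := sub_smul_dslope g p t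
      rw [g0, sub_zero, smul_eq_mul] at this
      rw [pow_one, this]
    have hd2 : PowerSeries.X ^ k ∣ tay (dslope g p) p := by
      rw [funext e, tay_pow_mul (hd1.analyticAt hn), pow_one, pow_succ'] at hd
      exact (mul_dvd_mul_iff_left PowerSeries.X_ne_zero).1 hd
    have := ih (S := S / r) hd1 (fun t ht => by
      have h1 := hS t ht
      rw [e t, pow_one, norm_mul, mem_sphere_iff_norm.1 ht] at h1
      rwa [le_div_iff₀ h0, mul_comm]) hd2 t ht
    rw [e t, pow_one, norm_mul]
    refine (mul_le_mul_of_nonneg_left this (norm_nonneg _)).trans (le_of_eq ?_)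
    rw [pow_succ]; field_simp

/-- A family of analytic germs vanishing at `p` and stable under a derivation is zero. -/
lemma iov {F : Set (ℂ → ℂ)} {T : ℂ → ℂ} (hT : AnalyticAt ℂ T p) (hT0 : T p ≠ 0)
    (ha : ∀ g ∈ F, AnalyticAt ℂ g p) (h0 : ∀ g ∈ F, g p = 0)
    (hd : ∀ g ∈ F, ∃ g1 ∈ F, ∀ᶠ t in 𝓝 p, T t * deriv g t = g1 t) :
    ∀ g ∈ F, ∀ᶠ t in 𝓝 p, g t = 0 := by
  have key : ∀ k, ∀ g ∈ F, PowerSeries.X ^ k ∣ tay g p := by
    intro k
    induction k with
    | zero => simp
    | succ k ih =>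
      intro g hg
      obtain ⟨g1, h1, e⟩ := hd g hg
      have h2 := ih g1 h1
      rw [← tay_congr e, tay_mul hT (ha g hg).deriv, tay_deriv] at h2
      have hu : IsUnit (tay T p) :=
        PowerSeries.isUnit_iff_constantCoeff.2 (by simpa using hT0)
      rw [hu.dvd_mul_left, PowerSeries.X_pow_dvd_iff] at h2
      rw [PowerSeries.X_pow_dvd_iff]
      intro m hm
      rcases m with _ | m
      · simpa using h0 g hg
      · have := h2 m (by omega)
        rw [PowerSeries.coeff_derivative] at this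
        exact (mul_eq_zero.1 this).resolve_right (by exact_mod_cast m.succ_ne_zero)
  intro g hg
  refine eventually_zero_of_tay (ha g hg) ?_
  ext m
  simpa using PowerSeries.X_pow_dvd_iff.1 (key (m + 1) g hg) m (by omega)

end

end Pool.Agent.Lib.MP_5591bc_ag.G
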