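import Mathlib

/-! Period matrices of the family `y^2 = f(x)(x - t)`. -/

namespace Pool.Agent.Lib.MP_5591bc_ag.G

open Filter Topology Set

noncomputable section

/-- For `t ∈ V`, `u ↦ (x u, y t u)`, `0 ≤ u ≤ 1`, is a loop on the curve `y^2 = f(x)(x - t)` that
avoids the branch points and moves continuously with `t`. -/
def IsLoop (f : Polynomial ℚ) (V : Set ℂ) (x : ℝ → ℂ) (y : ℂ → ℝ → ℂ) : Prop :=
  ContDiff ℝ 1 x ∧ x 0 = x 1 ∧ ContinuousOn (fun p : ℂ × ℝ => y p.1 p.2) (V ×ˢ Icc 0 1) ∧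
    ∀ t ∈ V, y t 0 = y t 1 ∧
      ∀ u ∈ Icc (0 : ℝ) 1, y t u ≠ 0 ∧ y t u ^ 2 = Polynomial.aeval (x u) f * (x u - t)

/-- `P` is a branch over `U` of the period matrix: it is invertible and, near every point of `U`,
its `j`-th column consists of the integrals of `x^i dx / y` over one continuous family of loops. -/
def IsPeriodMatrix (f : Polynomial ℚ) {n : ℕ} (U : Set ℂ) (P : ℂ → Matrix (Fin n) (Fin n) ℂ) :
    Prop :=
  ∀ s ∈ U, (P s).det ≠ 0 ∧ ∀ j, ∃ V ∈ 𝓝 s, ∃ x y, IsLoop f V x y ∧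
    ∀ t ∈ V, ∀ i : Fin n, P t i j = ∫ u in (0 : ℝ)..1, x u ^ (i : ℕ) * deriv x u / y t u

/-- analytic continuations of `P₀` on `U₀` along chains of domains -/
inductive Continuation {n : ℕ} (U₀ : Set ℂ) (P₀ : ℂ → Matrix (Fin n) (Fin n) ℂ) :
    Set ℂ → (ℂ → Matrix (Fin n) (Fin n) ℂ) → Prop
  | base : Continuation U₀ P₀ U₀ P₀
  | step (U U' : Set ℂ) (P P' : ℂ → Matrix (Fin n) (Fin n) ℂ) (s : ℂ) :
      Continuation U₀ P₀ U P → IsOpen U' → IsPreconnected U' →
      (∀ i j, DifferentiableOn ℂ (fun t => P' t i j) U') → s ∈ U → s ∈ U' →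
      (∀ᶠ t in 𝓝 s, P t = P' t) → Continuation U₀ P₀ U' P'

/-- The degree `δ` property at `s`: every rational polynomial `F` of degree at most `δ` vanishing at
`P s` is the specialisation at `t = s` of a rational polynomial `H(t, X)` vanishing on the graph of
the multivalued function obtained from `P` on `U` by analytic continuation. -/
def Good {n : ℕ} (U : Set ℂ) (P : ℂ → Matrix (Fin n) (Fin n) ℂ) (δ : ℕ) (s : ℕ) : Prop :=
  ∀ F : MvPolynomial (Fin n × Fin n) ℚ, F.totalDegree ≤ δ →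
    MvPolynomial.aeval (fun a => P s a.1 a.2) F = 0 →
    ∃ H : MvPolynomial (Option (Fin n × Fin n)) ℚ,
      (∀ U' P', Continuation U P U' P' → ∀ t ∈ U',
        MvPolynomial.aeval (fun o => o.elim t fun a => P' t a.1 a.2) H = 0) ∧
      MvPolynomial.aeval (fun o => o.elim (MvPolynomial.C (s : ℚ)) MvPolynomial.X) H = F

end

end Pool.Agent.Lib.MP_5591bc_ag.G
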