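import Pool.Agent.Lib.MP_5591bc_ag.GTay

/-! Linear holomorphic differential systems on convex domains. -/

namespace Pool.Agent.Lib.MP_5591bc_ag.G

open Filter Topology Metric Matrix Set

noncomputable section

variable {ι κ : Type*} [Fintype ι]

/-- entrywise holomorphic matrix function -/
def Hol {α β : Type*} (S : Set ℂ) (A : ℂ → Matrix α β ℂ) : Prop :=
  ∀ i j, DifferentiableOn ℂ (fun t => A t i j) S

/-- vector solution at a point -/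
def VSol (A : ℂ → Matrix ι ι ℂ) (y : ℂ → ι → ℂ) (t : ℂ) : Prop :=
  HasDerivAt y (A t *ᵥ y t) t

/-- matrix solution at a point -/
def MSol (A : ℂ → Matrix ι ι ℂ) (Φ : ℂ → Matrix ι κ ℂ) (t : ℂ) : Prop :=
  ∀ i j, HasDerivAt (fun s => Φ s i j) ((A t * Φ t) i j) t

/-- solution of the adjoint system -/
def RSol (A : ℂ → Matrix ι ι ℂ) (Ψ : ℂ → Matrix κ ι ℂ) (t : ℂ) : Prop :=
  ∀ i j, HasDerivAt (fun s => Ψ s i j) (-(Ψ t * A t) i j) t

lemma hasDerivAt_dot {v y : ℂ → ι → ℂ} {v' y' : ι → ℂ} {t : ℂ} (hv : HasDerivAt v v' t)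
    (hy : HasDerivAt y y' t) :
    HasDerivAt (fun s => v s ⬝ᵥ y s) (v' ⬝ᵥ y t + v t ⬝ᵥ y') t := by
  have := HasDerivAt.fun_sum (u := Finset.univ) fun i _ =>
    (hasDerivAt_pi.1 hv i).fun_mul (hasDerivAt_pi.1 hy i)
  simpa only [dotProduct, Finset.sum_add_distrib] using this

lemma norm_mulVec_le {M : Matrix κ ι ℂ} [Fintype κ] {c : ℝ} (hc : 0 ≤ c) (h : ∀ i j, ‖M i j‖ ≤ c)
    (x : ι → ℂ) : ‖M *ᵥ x‖ ≤ Fintype.card ι * c * ‖x‖ := by
  refine (pi_norm_le_iff_of_nonneg (by positivity)).2 fun i => ?_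
  refine (norm_sum_le _ _).trans ?_
  refine (Finset.sum_le_card_nsmul _ _ (c * ‖x‖) fun j _ => ?_).trans (le_of_eq ?_)
  · rw [norm_mul]
    exact mul_le_mul (h i j) (norm_le_pi_norm x j) (norm_nonneg _) hc
  · simp [mul_assoc]

lemma Hol.mulVec {S : Set ℂ} {A : ℂ → Matrix κ ι ℂ} [Finite κ] (hA : Hol S A) {g : ℂ → ι → ℂ}
    (hg : DifferentiableOn ℂ g S) : DifferentiableOn ℂ (fun t => A t *ᵥ g t) S := by
  cases nonempty_fintype κ
  refine differentiableOn_pi.2 fun i => ?_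
  exact DifferentiableOn.fun_sum fun j _ => (hA i j).fun_mul (differentiableOn_pi.1 hg j)

lemma Hol.vecMul {S : Set ℂ} {A : ℂ → Matrix ι κ ℂ} [Finite κ] (hA : Hol S A) {g : ℂ → ι → ℂ}
    (hg : DifferentiableOn ℂ g S) : DifferentiableOn ℂ (fun t => g t ᵥ* A t) S := by
  cases nonempty_fintype κ
  refine differentiableOn_pi.2 fun i => ?_
  exact DifferentiableOn.fun_sum fun j _ => (differentiableOn_pi.1 hg j).fun_mul (hA j i)

lemma Hol.mul {α : Type*} {S : Set ℂ} {A : ℂ → Matrix κ ι ℂ} {B : ℂ → Matrix ι α ℂ} (hA : Hol S A)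
    (hB : Hol S B) : Hol S (fun t => A t * B t) := fun i k =>
  DifferentiableOn.fun_sum fun j _ => (hA i j).fun_mul (hB j k)

lemma Hol.mono {α β : Type*} {S S' : Set ℂ} {A : ℂ → Matrix α β ℂ} (hA : Hol S A) (h : S' ⊆ S) :
    Hol S' A := fun i j => (hA i j).mono h

lemma Hol.const {α β : Type*} {S : Set ℂ} (M : Matrix α β ℂ) : Hol S fun _ => M :=
  fun _ _ => differentiableOn_const _

lemma Hol.det {S : Set ℂ} [DecidableEq ι] {A : ℂ → Matrix ι ι ℂ} (hA : Hol S A) :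
    DifferentiableOn ℂ (fun t => (A t).det) S := by
  simp only [det_apply']
  exact DifferentiableOn.fun_sum fun σ _ => (differentiableOn_const _).fun_mul
    (DifferentiableOn.fun_finsetProd fun i _ => hA _ _)

lemma picard_step {S : Set ℂ} (hS : Convex ℝ S) (ho : IsOpen S) {t0 : ℂ} (h0 : t0 ∈ S)
    {A : ℂ → Matrix ι ι ℂ} (hA : Hol S A) {C a : ℝ} (hC : 0 ≤ C)
    (hb : ∀ t ∈ S, ∀ x, ‖A t *ᵥ x‖ ≤ C * ‖x‖) (k : ℕ) (g : ℂ → ι → ℂ)
    (hg : DifferentiableOn ℂ g S ∧ ∀ t ∈ S, ‖g t‖ ≤ a * ((C * ‖t - t0‖) ^ k / k.factorial)) :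
    ∃ g1 : ℂ → ι → ℂ, (DifferentiableOn ℂ g1 S ∧
      ∀ t ∈ S, ‖g1 t‖ ≤ a * ((C * ‖t - t0‖) ^ (k + 1) / (k + 1).factorial)) ∧
      ∀ t ∈ S, HasDerivAt g1 (A t *ᵥ g t) t := by
  obtain ⟨G, hG⟩ := hS.exists_forall_hasDerivWithinAt (hA.mulVec hg.1)
  have hd : ∀ t ∈ S, HasDerivAt (fun s => G s - G t0) (A t *ᵥ g t) t := fun t ht =>
    ((hG t ht).hasDerivAt (ho.mem_nhds ht)).sub_const _
  refine ⟨_, ⟨fun t ht => (hd t ht).differentiableAt.differentiableWithinAt, fun t ht => ?_⟩, hd⟩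
  have hm : ∀ s ∈ Icc (0 : ℝ) 1, t0 + (s : ℂ) * (t - t0) ∈ S := fun s hs => by
    have := hS.add_smul_sub_mem h0 ht hs
    simpa using this
  have hγ : ∀ s : ℝ, HasDerivAt (fun s : ℝ => t0 + (s : ℂ) * (t - t0)) (t - t0) s := fun s => by
    simpa using ((Complex.ofRealCLM.hasDerivAt (x := s)).mul_const (t - t0)).const_add t0
  have hf : ∀ s ∈ Icc (0 : ℝ) 1, HasDerivAt (fun s : ℝ => G (t0 + (s : ℂ) * (t - t0)) - G t0)
      ((t - t0) • (A (t0 + (s : ℂ) * (t - t0)) *ᵥ g (t0 + (s : ℂ) * (t - t0)))) s := fun s hs =>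
    HasDerivAt.scomp (g₁ := fun s => G s - G t0) s (hd _ (hm s hs)) (hγ s)
  have hB : ∀ s : ℝ, HasDerivAt
      (fun s : ℝ => a * ((C * ‖t - t0‖) ^ (k + 1) / (k + 1).factorial) * s ^ (k + 1))
      (a * ((C * ‖t - t0‖) ^ (k + 1) / (k + 1).factorial) * ((k + 1 : ℕ) * s ^ k)) s := fun s => by
    simpa using (hasDerivAt_pow (k + 1) s).const_mul _
  have := image_norm_le_of_norm_deriv_right_le_deriv_boundary (a := 0) (b := 1)
    (fun s hs => (hf s hs).continuousAt.continuousWithinAt)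
    (fun s hs => (hf s (Ico_subset_Icc_self hs)).hasDerivWithinAt) (by simp) hB
    (fun s hs => by
      have hs' := hm s (Ico_subset_Icc_self hs)
      rw [norm_smul]
      refine (mul_le_mul_of_nonneg_left ((hb _ hs' _).trans
        (mul_le_mul_of_nonneg_left (hg.2 _ hs') hC)) (norm_nonneg _)).trans (le_of_eq ?_)
      rw [add_sub_cancel_left, norm_mul, Complex.norm_real, Real.norm_of_nonneg hs.1,
        Nat.factorial_succ]
      push_cast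
      field_simp
      ring) (x := 1) (by simp)
  simpa using this

/-- Existence of solutions on a convex domain, with an exponential bound. -/
lemma exists_vsol {S : Set ℂ} (hS : Convex ℝ S) (ho : IsOpen S) {t0 : ℂ} (h0 : t0 ∈ S)
    {A : ℂ → Matrix ι ι ℂ} (hA : Hol S A) {c : ℝ} (hb : ∀ t ∈ S, ∀ i j, ‖A t i j‖ ≤ c)
    (hc : 0 ≤ c) (y0 : ι → ℂ) : ∃ y : ℂ → ι → ℂ, y t0 = y0 ∧ ∀ t ∈ S, VSol A y t ∧
      ‖y t‖ ≤ ‖y0‖ * Real.exp (Fintype.card ι * c * ‖t - t0‖) := by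
  set C : ℝ := Fintype.card ι * c with hCd
  have hC : 0 ≤ C := by positivity
  have hb' : ∀ t ∈ S, ∀ x, ‖A t *ᵥ x‖ ≤ C * ‖x‖ := fun t ht x => norm_mulVec_le hc (hb t ht) x
  choose nx hnx hder using picard_step hS ho h0 hA (a := ‖y0‖) hC hb'
  let u : (k : ℕ) → {g : ℂ → ι → ℂ // DifferentiableOn ℂ g S ∧
      ∀ t ∈ S, ‖g t‖ ≤ ‖y0‖ * ((C * ‖t - t0‖) ^ k / k.factorial)} := fun k =>
    Nat.rec ⟨fun _ => y0, differentiableOn_const _, by simp⟩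
      (fun k g => ⟨nx k g.1 g.2, hnx k g.1 g.2⟩) k
  have u0 : ∀ t, (u 0).1 t = y0 := fun _ => rfl
  have ud : ∀ k, ∀ t ∈ S, HasDerivAt (u (k + 1)).1 (A t *ᵥ (u k).1 t) t := fun k =>
    hder k (u k).1 (u k).2
  have hsum : ∀ r : ℝ, HasSum (fun k : ℕ => ‖y0‖ * ((C * r) ^ k / k.factorial))
      (‖y0‖ * Real.exp (C * r)) := fun r => by
    rw [Real.exp_eq_exp_ℝ]
    exact (NormedSpace.expSeries_div_hasSum_exp (C * r)).mul_left _
  have us : ∀ t ∈ S, Summable fun k => (u k).1 t := fun t ht =>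
    Summable.of_norm_bounded (hsum _).summable fun k => (u k).2.2 t ht
  have e : ∀ t ∈ S, ∑' k, (u k).1 t = y0 + ∑' k, (u (k + 1)).1 t := fun t ht => by
    rw [(us t ht).tsum_eq_zero_add, u0]
  refine ⟨fun t => y0 + ∑' k, (u (k + 1)).1 t, ?_, fun t ht => ⟨?_, ?_⟩⟩
  · have : ∀ k, (u (k + 1)).1 t0 = 0 := fun k => by simpa using (u (k + 1)).2.2 t0 h0
    simp [this]
  · set r := ‖t - t0‖ + 1
    have hr : 0 < r := by positivity
    have ht' : t ∈ S ∩ ball t0 r := ⟨ht, by simp [r, dist_eq_norm]⟩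
    have := hasDerivAt_tsum_of_isPreconnected ((hsum r).summable.mul_left C)
      (ho.inter isOpen_ball) (hS.inter (convex_ball t0 r)).isPreconnected
      (g := fun k => (u (k + 1)).1) (g' := fun k t => A t *ᵥ (u k).1 t)
      (fun k y hy => ud k y hy.1) (fun k y hy => by
        refine (hb' y hy.1 _).trans (mul_le_mul_of_nonneg_left (((u k).2.2 y hy.1).trans ?_) hC)
        have : ‖y - t0‖ ≤ r := by simpa [dist_eq_norm] using (mem_ball.1 hy.2).le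
        gcongr) ht' ((summable_nat_add_iff 1).2 (us t ht)) ht'
    unfold VSol
    beta_reduce
    rw [← e t ht]
    have h2 := (LinearMap.toContinuousLinearMap (A t).mulVecLin).map_tsum (us t ht)
    simp only [LinearMap.coe_toContinuousLinearMap', mulVecLin_apply] at h2
    rw [h2]
    exact this.const_add y0
  · beta_reduce
    rw [← e t ht]
    exact tsum_of_norm_bounded (hsum _) fun k => (u k).2.2 t ht

lemma MSol.vsol {A : ℂ → Matrix ι ι ℂ} {Φ : ℂ → Matrix ι κ ℂ} [Fintype κ] {t : ℂ}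
    (h : MSol A Φ t) (x : κ → ℂ) : VSol A (fun s => Φ s *ᵥ x) t := by
  refine hasDerivAt_pi.2 fun i => ?_
  rw [mulVec_mulVec]
  exact HasDerivAt.fun_sum fun j _ => (h i j).mul_const (x j)

lemma MSol.col {A : ℂ → Matrix ι ι ℂ} {Φ : ℂ → Matrix ι κ ℂ} {t : ℂ}
    (h : MSol A Φ t) (j : κ) : VSol A (fun s i => Φ s i j) t :=
  hasDerivAt_pi.2 fun i => h i j

lemma msol_of_col {A : ℂ → Matrix ι ι ℂ} {Φ : ℂ → Matrix ι κ ℂ} {t : ℂ}
    (h : ∀ j, VSol A (fun s i => Φ s i j) t) : MSol A Φ t :=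
  fun i j => hasDerivAt_pi.1 (h j) i

lemma MSol.mul_const {α : Type*} {A : ℂ → Matrix ι ι ℂ} {Φ : ℂ → Matrix ι κ ℂ} [Fintype κ] {t : ℂ}
    (h : MSol A Φ t) (M : Matrix κ α ℂ) : MSol A (fun s => Φ s * M) t := fun i j => by
  rw [← Matrix.mul_assoc]
  exact HasDerivAt.fun_sum fun k _ => (h i k).mul_const (M k j)

lemma RSol.const_mul {α : Type*} {A : ℂ → Matrix ι ι ℂ} {Ψ : ℂ → Matrix κ ι ℂ} [Fintype κ] {t : ℂ}
    (h : RSol A Ψ t) (M : Matrix α κ ℂ) : RSol A (fun s => M * Ψ s) t := fun i j => by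
  have := HasDerivAt.fun_sum (u := Finset.univ) fun k _ => (h k j).const_mul (M i k)
  rw [Matrix.mul_assoc]
  simpa only [mul_apply (M := M), mul_neg, Finset.sum_neg_distrib] using this

lemma rsol_iff {A : ℂ → Matrix ι ι ℂ} {Ψ : ℂ → Matrix κ ι ℂ} {t : ℂ} :
    RSol A Ψ t ↔ MSol (fun s => -(A s)ᵀ) (fun s => (Ψ s)ᵀ) t := by
  have : ∀ i j, (-(A t)ᵀ * (Ψ t)ᵀ) j i = -(Ψ t * A t) i j := fun i j => by
    rw [Matrix.neg_mul, ← transpose_mul]; rfl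
  exact ⟨fun h j i => by rw [this]; exact h i j, fun h i j => by rw [← this]; exact h j i⟩

lemma hol_of_msol {S : Set ℂ} {A : ℂ → Matrix ι ι ℂ} {Φ : ℂ → Matrix ι κ ℂ}
    (h : ∀ t ∈ S, MSol A Φ t) : Hol S Φ :=
  fun i j t ht => (h t ht i j).differentiableAt.differentiableWithinAt

lemma hol_of_rsol {S : Set ℂ} {A : ℂ → Matrix ι ι ℂ} {Ψ : ℂ → Matrix κ ι ℂ}
    (h : ∀ t ∈ S, RSol A Ψ t) : Hol S Ψ :=
  fun i j t ht => (h t ht i j).differentiableAt.differentiableWithinAt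

lemma deriv_rsol_msol {α : Type*} {A : ℂ → Matrix ι ι ℂ} {Ψ : ℂ → Matrix κ ι ℂ}
    {Φ : ℂ → Matrix ι α ℂ} {t : ℂ} (h1 : RSol A Ψ t) (h2 : MSol A Φ t) (i : κ) (j : α) :
    HasDerivAt (fun s => (Ψ s * Φ s) i j) 0 t := by
  have := HasDerivAt.fun_sum (u := Finset.univ) fun k _ => (h1 i k).fun_mul (h2 k j)
  have e : ((Ψ t * A t) * Φ t) i j = (Ψ t * (A t * Φ t)) i j := by rw [Matrix.mul_assoc]
  rw [mul_apply, mul_apply] at e
  simp only [Finset.sum_add_distrib, neg_mul, Finset.sum_neg_distrib, e, neg_add_cancel] at this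
  exact this

lemma rsol_msol_const {α : Type*} {S : Set ℂ} (ho : IsOpen S) (hS : IsPreconnected S)
    {A : ℂ → Matrix ι ι ℂ} {Ψ : ℂ → Matrix κ ι ℂ} {Φ : ℂ → Matrix ι α ℂ}
    (h1 : ∀ t ∈ S, RSol A Ψ t) (h2 : ∀ t ∈ S, MSol A Φ t) {s t : ℂ} (hs : s ∈ S) (ht : t ∈ S) :
    Ψ s * Φ s = Ψ t * Φ t := by
  ext i j
  exact ho.is_const_of_deriv_eq_zero hS (f := fun s => (Ψ s * Φ s) i j)
    (fun t ht => (deriv_rsol_msol (h1 t ht) (h2 t ht) i j).differentiableAt.differentiableWithinAt)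
    (fun t ht => (deriv_rsol_msol (h1 t ht) (h2 t ht) i j).deriv) hs ht

lemma exists_msol [DecidableEq ι] {S : Set ℂ} (hS : Convex ℝ S) (ho : IsOpen S) {t0 : ℂ}
    (h0 : t0 ∈ S) {A : ℂ → Matrix ι ι ℂ} (hA : Hol S A) {c : ℝ}
    (hb : ∀ t ∈ S, ∀ i j, ‖A t i j‖ ≤ c) (hc : 0 ≤ c) :
    ∃ Φ : ℂ → Matrix ι ι ℂ, Φ t0 = 1 ∧ ∀ t ∈ S, MSol A Φ t ∧
      ∀ i j, ‖Φ t i j‖ ≤ Real.exp (Fintype.card ι * c * ‖t - t0‖) := by
  choose y y0 hy using fun j : ι => exists_vsol hS ho h0 hA hb hc (Pi.single j 1)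
  refine ⟨fun t => of fun i j => y j t i, ?_, fun t ht => ⟨msol_of_col fun j => (hy j t ht).1,
    fun i j => ?_⟩⟩
  · ext i j; simp [y0, one_apply, Pi.single_apply]
  · have := (norm_le_pi_norm (y j t) i).trans (hy j t ht).2
    simpa [Pi.norm_single] using this

/-- Fundamental matrix and its inverse on a convex domain. -/
lemma exists_fund [DecidableEq ι] {S : Set ℂ} (hS : Convex ℝ S) (ho : IsOpen S) {t0 : ℂ}
    (h0 : t0 ∈ S) {A : ℂ → Matrix ι ι ℂ} (hA : Hol S A) {c : ℝ}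
    (hb : ∀ t ∈ S, ∀ i j, ‖A t i j‖ ≤ c) (hc : 0 ≤ c) :
    ∃ Φ Ψ : ℂ → Matrix ι ι ℂ, Φ t0 = 1 ∧ Ψ t0 = 1 ∧ ∀ t ∈ S, MSol A Φ t ∧ RSol A Ψ t ∧
      Ψ t * Φ t = 1 ∧ (∀ i j, ‖Φ t i j‖ ≤ Real.exp (Fintype.card ι * c * ‖t - t0‖)) ∧
      ∀ i j, ‖Ψ t i j‖ ≤ Real.exp (Fintype.card ι * c * ‖t - t0‖) := by
  obtain ⟨Φ, Φ0, hΦ⟩ := exists_msol hS ho h0 hA hb hc
  obtain ⟨Ψ, Ψ0, hΨ⟩ := exists_msol hS ho h0 (A := fun s => -(A s)ᵀ)
    (fun i j => (hA j i).neg) (fun t ht i j => by simpa using hb t ht j i) hc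
  have hR : ∀ t ∈ S, RSol A (fun s => (Ψ s)ᵀ) t := fun t ht => rsol_iff.2 (hΨ t ht).1
  refine ⟨Φ, fun s => (Ψ s)ᵀ, Φ0, by simp [Ψ0], fun t ht => ⟨(hΦ t ht).1, hR t ht, ?_,
    (hΦ t ht).2, fun i j => (hΨ t ht).2 j i⟩⟩
  rw [rsol_msol_const ho hS.isPreconnected hR (fun t ht => (hΦ t ht).1) ht h0]
  simp [Φ0, Ψ0]

lemma analyticAt_of_eventually {E : Type*} [NormedAddCommGroup E] [NormedSpace ℂ E]
    [CompleteSpace E] {y : ℂ → E} {p : ℂ} (h : ∀ᶠ t in 𝓝 p, DifferentiableAt ℂ y t) :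
    AnalyticAt ℂ y p := Complex.analyticAt_iff_eventually_differentiableAt.2 h

/-- Orthogonality to a solution propagates for a stable family of row vectors. -/
lemma iov2 {A : ℂ → Matrix ι ι ℂ} {y : ℂ → ι → ℂ} {p : ℂ} (hy : ∀ᶠ t in 𝓝 p, VSol A y t)
    {F : Set (ℂ → ι → ℂ)} {T : ℂ → ℂ} (hT : AnalyticAt ℂ T p) (hT0 : T p ≠ 0)
    (ha : ∀ v ∈ F, AnalyticAt ℂ v p) (h0 : ∀ v ∈ F, v p ⬝ᵥ y p = 0)
    (hd : ∀ v ∈ F, ∃ v1 ∈ F, ∀ᶠ t in 𝓝 p, T t • (deriv v t + v t ᵥ* A t) = v1 t) :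
    ∀ v ∈ F, ∀ᶠ t in 𝓝 p, v t ⬝ᵥ y t = 0 := by
  have hya : AnalyticAt ℂ y p := analyticAt_of_eventually (hy.mono fun t h => h.differentiableAt)
  have key := iov (F := (fun v t => v t ⬝ᵥ y t) '' F) (p := p) hT hT0 ?_ ?_ ?_
  · exact fun v hv => key _ ⟨v, hv, rfl⟩
  · rintro _ ⟨v, hv, rfl⟩
    exact Finset.analyticAt_fun_sum _ fun i _ =>
      (analyticAt_pi_iff.1 (ha v hv) i).fun_mul (analyticAt_pi_iff.1 hya i)
  · rintro _ ⟨v, hv, rfl⟩; exact h0 v hv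
  · rintro _ ⟨v, hv, rfl⟩
    obtain ⟨v1, h1, e⟩ := hd v hv
    refine ⟨_, ⟨v1, h1, rfl⟩, ?_⟩
    filter_upwards [e, hy, (ha v hv).eventually_analyticAt] with t e1 e2 e3
    rw [(hasDerivAt_dot e3.differentiableAt.hasDerivAt e2).deriv, ← e1, smul_dotProduct,
      add_dotProduct, dotProduct_mulVec, smul_eq_mul]

lemma VSol.sub {A : ℂ → Matrix ι ι ℂ} {y z : ℂ → ι → ℂ} {t : ℂ} (hy : VSol A y t)
    (hz : VSol A z t) : VSol A (fun s => y s - z s) t := by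
  unfold VSol; rw [mulVec_sub]; exact HasDerivAt.fun_sub hy hz

/-- Local uniqueness. -/
lemma uniq_loc {A : ℂ → Matrix ι ι ℂ} {y z : ℂ → ι → ℂ} {p : ℂ}
    (hA : ∀ i j, AnalyticAt ℂ (fun t => A t i j) p) (hy : ∀ᶠ t in 𝓝 p, VSol A y t)
    (hz : ∀ᶠ t in 𝓝 p, VSol A z t) (h0 : y p = z p) : y =ᶠ[𝓝 p] z := by
  classical
  have hw : ∀ᶠ t in 𝓝 p, VSol A (fun s => y s - z s) t := (hy.and hz).mono fun t h => h.1.sub h.2
  have := iov2 hw (F := {v | AnalyticAt ℂ v p}) (T := fun _ => 1) analyticAt_const one_ne_zero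
    (fun _ h => h) (fun v _ => by simp [h0]) (fun v hv => by
      refine ⟨fun t => deriv v t + v t ᵥ* A t, ?_, by simp⟩
      refine hv.deriv.fun_add (analyticAt_pi_iff.2 fun j => ?_)
      exact Finset.analyticAt_fun_sum _ fun i _ => (analyticAt_pi_iff.1 hv i).fun_mul (hA i j))
  have h2 : ∀ᶠ t in 𝓝 p, ∀ i, y t i - z t i = 0 := eventually_all.2 fun i => by
    simpa using this (fun _ => Pi.single i 1) analyticAt_const
  filter_upwards [h2] with t ht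
  ext i; exact sub_eq_zero.1 (ht i)

lemma ident {E : Type*} [NormedAddCommGroup E] [NormedSpace ℂ E] [CompleteSpace E] {S : Set ℂ}
    (ho : IsOpen S) (hS : IsPreconnected S) {y z : ℂ → E} (hy : DifferentiableOn ℂ y S)
    (hz : DifferentiableOn ℂ z S) {p : ℂ} (hp : p ∈ S) (h : y =ᶠ[𝓝 p] z) : EqOn y z S :=
  (hy.analyticOnNhd ho).eqOn_of_preconnected_of_eventuallyEq (hz.analyticOnNhd ho) hS hp h

lemma uniq {S : Set ℂ} (ho : IsOpen S) (hS : IsPreconnected S) {A : ℂ → Matrix ι ι ℂ}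
    (hA : Hol S A) {y z : ℂ → ι → ℂ} (hy : ∀ t ∈ S, VSol A y t) (hz : ∀ t ∈ S, VSol A z t)
    {p : ℂ} (hp : p ∈ S) (h0 : y p = z p) : EqOn y z S :=
  ident ho hS (fun t ht => (hy t ht).differentiableAt.differentiableWithinAt)
    (fun t ht => (hz t ht).differentiableAt.differentiableWithinAt) hp
    (uniq_loc (fun i j => (hA i j).analyticAt (ho.mem_nhds hp))
      (mem_of_superset (ho.mem_nhds hp) hy) (mem_of_superset (ho.mem_nhds hp) hz) h0)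

lemma muniq {S : Set ℂ} (ho : IsOpen S) (hS : IsPreconnected S) {A : ℂ → Matrix ι ι ℂ}
    (hA : Hol S A) {Φ Ψ : ℂ → Matrix ι κ ℂ} (hy : ∀ t ∈ S, MSol A Φ t) (hz : ∀ t ∈ S, MSol A Ψ t)
    {p : ℂ} (hp : p ∈ S) (h0 : Φ p = Ψ p) : EqOn Φ Ψ S := fun t ht => by
  ext i j
  exact congrFun (uniq ho hS hA (fun t ht => (hy t ht).col j) (fun t ht => (hz t ht).col j) hp
    (by simp [h0]) ht) i

lemma muniq_loc [Finite κ] {A : ℂ → Matrix ι ι ℂ} {Φ Ψ : ℂ → Matrix ι κ ℂ} {p : ℂ}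
    (hA : ∀ i j, AnalyticAt ℂ (fun t => A t i j) p) (hy : ∀ᶠ t in 𝓝 p, MSol A Φ t)
    (hz : ∀ᶠ t in 𝓝 p, MSol A Ψ t) (h0 : Φ p = Ψ p) : Φ =ᶠ[𝓝 p] Ψ := by
  have := eventually_all.2 fun j => uniq_loc hA (hy.mono fun t h => h.col j)
    (hz.mono fun t h => h.col j) (by simp [h0])
  filter_upwards [this] with t ht
  ext i j; exact congrFun (ht j) i

lemma MSol.congr {A : ℂ → Matrix ι ι ℂ} {Φ Ψ : ℂ → Matrix ι κ ℂ} {t : ℂ} (h : MSol A Φ t)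
    (e : Ψ =ᶠ[𝓝 t] Φ) : MSol A Ψ t := fun i j => by
  rw [e.eq_of_nhds]
  exact (h i j).congr_of_eventuallyEq (e.mono fun s hs => by simp only [hs])

/-- A solution on `G` extends to `G ∪ D` when both are convex and meet. -/
lemma glue [DecidableEq ι] {G D : Set ℂ} (hG : Convex ℝ G) (oG : IsOpen G) (hD : Convex ℝ D)
    (oD : IsOpen D) {p : ℂ} (pG : p ∈ G) (pD : p ∈ D) {A : ℂ → Matrix ι ι ℂ} (hA : Hol D A)
    {c : ℝ} (hb : ∀ t ∈ D, ∀ i j, ‖A t i j‖ ≤ c) (hc : 0 ≤ c) {Φ : ℂ → Matrix ι κ ℂ}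
    (hΦ : ∀ t ∈ G, MSol A Φ t) :
    ∃ Φ1 : ℂ → Matrix ι κ ℂ, EqOn Φ1 Φ G ∧ Hol (G ∪ D) Φ1 := by
  classical
  obtain ⟨W, W0, hW⟩ := exists_msol hD oD pD hA hb hc
  have h1 : ∀ t ∈ D, MSol A (fun s => W s * Φ p) t := fun t ht => (hW t ht).1.mul_const _
  have e := muniq (oG.inter oD) (hG.inter hD).isPreconnected (hA.mono inter_subset_right)
    (fun t ht => hΦ t ht.1) (fun t ht => h1 t ht.2) ⟨pG, pD⟩ (by simp [W0])
  refine ⟨fun t => if t ∈ G then Φ t else W t * Φ p, fun t ht => by simp [ht], hol_of_msol (A := A) ?_⟩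
  rintro t (ht | ht)
  · exact (hΦ t ht).congr (mem_of_superset (oG.mem_nhds ht) fun s hs => by simp [hs])
  · refine (h1 t ht).congr (mem_of_superset (oD.mem_nhds ht) fun s hs => ?_)
    by_cases h : s ∈ G
    · simpa [h] using e ⟨h, hs⟩
    · simp [h]

end

end Pool.Agent.Lib.MP_5591bc_ag.G
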