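import Mathlib

/-! Frames with dual vectors and the fibre lemma for connection-stable modules. -/

namespace Pool.Agent.Lib.MP_5591bc_ag.G

open Matrix Polynomial

noncomputable section

lemma exists_frame {K α ι : Type*} [Field K] [Fintype ι] (v : α → ι → K) :
    ∃ (r : ℕ) (x : Fin r → α) (η : Fin r → ι → K),
      (∀ i j, v (x i) ⬝ᵥ η j = if i = j then 1 else 0) ∧
      ∀ a, v a = ∑ j, (v a ⬝ᵥ η j) • v (x j) := by
  classical
  obtain ⟨κ, a, -, hs, hi⟩ := exists_linearIndependent' K v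
  have : Finite κ := hi.finite
  obtain ⟨r, ⟨e⟩⟩ := Finite.exists_equiv_fin κ
  have hi' : LinearIndependent K fun i : Fin r => v (a (e.symm i)) := hi.comp _ e.symm.injective
  let f : (Fin r → K) →ₗ[K] (ι → K) := Fintype.linearCombination K fun i => v (a (e.symm i))
  obtain ⟨g, hg⟩ := f.exists_leftInverse_of_injective
    (LinearMap.ker_eq_bot.2 hi'.fintypeLinearCombination_injective)
  have hd : ∀ w : ι → K, ∀ j, w ⬝ᵥ (fun i => g (Pi.single i 1) j) = g w j := fun w j => by
    conv_rhs => rw [pi_eq_sum_univ' w]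
    simp [dotProduct]
  have hgf : ∀ c, g (f c) = c := fun c => LinearMap.congr_fun hg c
  refine ⟨r, fun i => a (e.symm i), fun j i => g (Pi.single i 1) j, fun i j => ?_, fun b => ?_⟩
  · have : v (a (e.symm i)) = f (Pi.single i 1) := by simp [f]
    rw [hd, this, hgf, Pi.single_apply]
    simp [eq_comm]
  · have : v b ∈ LinearMap.range f := by
      rw [Fintype.range_linearCombination]
      have h2 : Set.range (fun i : Fin r => v (a (e.symm i))) = Set.range (v ∘ a) :=
        e.symm.surjective.range_comp (v ∘ a)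
      rw [h2, hs]
      exact Submodule.subset_span ⟨b, rfl⟩
    obtain ⟨c, hc⟩ := this
    simp only [hd]
    rw [← hc, hgf]
    simp [f, Fintype.linearCombination_apply]

variable {k ι : Type*} [Field k] [Fintype ι]

/-- evaluation of a polynomial vector -/
def ev (s : k) (x : ι → k[X]) : ι → k := fun i => (x i).eval s

/-- the connection `x ↦ T x' + B x` on polynomial vectors -/
def Dc (T : k[X]) (B : Matrix ι ι k[X]) (x : ι → k[X]) : ι → k[X] :=
  T • (fun i => derivative (x i)) + B *ᵥ x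

lemma eval_dot (s : k) (x y : ι → k[X]) : (x ⬝ᵥ y).eval s = ev s x ⬝ᵥ ev s y := by
  simp [dotProduct, ev, eval_finsetSum]

omit [Fintype ι] in
lemma eq_zero_of_all_dvd {s : k} {x : ι → k[X]} (h : ∀ n i, (X - C s) ^ n ∣ x i) : x = 0 := by
  ext1 i
  by_contra h0
  have := natDegree_le_of_dvd (h ((x i).natDegree + 1) i) h0
  rw [natDegree_pow, natDegree_X_sub_C] at this
  omega

theorem fibre [CharZero k] (S : Submodule k[X] (ι → k[X])) {T : k[X]} {B : Matrix ι ι k[X]}
    (hD : ∀ x ∈ S, Dc T B x ∈ S) {s : k} (hT : T.eval s ≠ 0) {F : ι → k}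
    (hF : ∀ x ∈ S, ev s x ⬝ᵥ F = 0) :
    ∃ H : ι → k[X], (∀ x ∈ S, x ⬝ᵥ H = 0) ∧ ev s H = F := by
  classical
  obtain ⟨r, x, η, h1, h2⟩ := exists_frame fun y : S => ev s y.1
  let E : Fin r → ι → k[X] := fun j i => C (η j i)
  have hE : ∀ j, ev s (E j) = η j := fun j => by ext i; simp [ev, E]
  obtain ⟨M, hM0⟩ : ∃ M : Matrix (Fin r) (Fin r) k[X], ∀ i j, M i j = (x i).1 ⬝ᵥ E j :=
    ⟨of fun i j => (x i).1 ⬝ᵥ E j, fun _ _ => rfl⟩
  have hM : (evalRingHom s).mapMatrix M = 1 := by
    ext i j; simp [hM0, eval_dot, hE, h1, one_apply]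
  have hd : M.det.eval s = 1 := by
    rw [← coe_evalRingHom, RingHom.map_det, hM, det_one]
  obtain ⟨fl, hfl⟩ : ∃ fl : (ι → k[X]) → ι → k[X], ∀ y, fl y =
      M.det • y - ∑ i, ((fun j => y ⬝ᵥ E j) ᵥ* M.adjugate) i • (x i).1 := ⟨_, fun _ => rfl⟩
  have fl1 : ∀ y ∈ S, fl y ∈ S := fun y hy => hfl y ▸
    S.sub_mem (S.smul_mem _ hy) (S.sum_mem fun i _ => S.smul_mem _ (x i).2)
  have fl2 : ∀ y j, fl y ⬝ᵥ E j = 0 := fun y j => by
    have : ((fun j => y ⬝ᵥ E j) ᵥ* M.adjugate ᵥ* M) j = M.det * (y ⬝ᵥ E j) := by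
      rw [vecMul_vecMul, adjugate_mul, vecMul_smul, vecMul_one]; rfl
    simp only [hfl, sub_dotProduct, smul_dotProduct, sum_dotProduct, smul_eq_mul]
    rw [← this, sub_eq_zero]
    simp only [← hM0]
    rfl
  have van : ∀ y ∈ S, (∀ j, y ⬝ᵥ E j = 0) → ∀ i, X - C s ∣ y i := fun y hy h i => by
    have := congrFun (h2 ⟨y, hy⟩) i
    simp only [← hE, ← eval_dot, h] at this
    exact dvd_iff_isRoot.2 (by simpa [ev] using this)
  have key : ∀ n, ∀ y ∈ S, (∀ j, y ⬝ᵥ E j = 0) → ∀ i, (X - C s) ^ n ∣ y i := by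
    intro n
    induction n with
    | zero => simp
    | succ n ih =>
      intro y hy h i
      rcases n with _ | n
      · simpa using van y hy h i
      have hB : ∀ i, (X - C s) ^ (n + 1) ∣ (B *ᵥ y) i := fun i =>
        Finset.dvd_sum fun j _ => (ih y hy h j).mul_left _
      have h3 : ∀ j, (X - C s) ^ (n + 1) ∣ Dc T B y ⬝ᵥ E j := fun j => by
        have : (fun i => derivative (y i)) ⬝ᵥ E j = derivative (y ⬝ᵥ E j) := by
          simp [dotProduct, E]
        rw [Dc, add_dotProduct, smul_dotProduct, this, h j, derivative_zero, smul_zero, zero_add]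
        exact Finset.dvd_sum fun i _ => (hB i).mul_right _
      have h4 := ih _ (fl1 _ (hD y hy)) (fl2 _) i
      have h5 : (X - C s) ^ (n + 1) ∣ M.det * (T * derivative (y i)) := by
        have e : M.det * (T * derivative (y i)) = fl (Dc T B y) i - M.det * (B *ᵥ y) i +
            ∑ l, ((fun j => Dc T B y ⬝ᵥ E j) ᵥ* M.adjugate) l * (x l).1 i := by
          simp only [hfl, Pi.sub_apply, Pi.smul_apply, Finset.sum_apply, smul_eq_mul]
          simp only [Dc, Pi.add_apply, Pi.smul_apply, smul_eq_mul]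
          ring
        rw [e]
        refine dvd_add (dvd_sub h4 ((hB i).mul_left _)) (Finset.dvd_sum fun l _ => ?_)
        refine Dvd.dvd.mul_right ?_ _
        simp only [vecMul]
        rw [dotProduct]
        exact Finset.dvd_sum fun j _ => (h3 j).mul_right _
      obtain ⟨z, hz⟩ := ih y hy h i
      rw [hz, derivative_mul, derivative_X_sub_C_pow] at h5
      have h6 : (X - C s) ^ n * (X - C s) ∣ (X - C s) ^ n * (M.det * T * (((n : k[X]) + 1) * z)) := by
        have := (dvd_add_left (Dvd.intro (M.det * T * derivative z) rfl)).1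
          (show (X - C s) ^ (n + 1) ∣ (X - C s) ^ n * (M.det * T * (((n : k[X]) + 1) * z)) +
            (X - C s) ^ (n + 1) * (M.det * T * derivative z) by
              convert h5 using 1; simp; ring)
        rwa [pow_succ] at this
      have h7 := dvd_iff_isRoot.1
        ((mul_dvd_mul_iff_left (pow_ne_zero _ (X_sub_C_ne_zero s))).1 h6)
      have h8 : z.eval s = 0 := by
        have hn : ((n : k) + 1) ≠ 0 := by exact_mod_cast n.succ_ne_zero
        simpa [hd, hT, hn] using h7
      rw [hz, pow_succ _ (n + 1)]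
      exact mul_dvd_mul_left _ (dvd_iff_isRoot.2 h8)
  let Fc : ι → k[X] := fun i => C (F i)
  have hFc : ev s Fc = F := by ext i; simp [ev, Fc]
  let w : Fin r → k[X] := M.adjugate *ᵥ fun i => (x i).1 ⬝ᵥ Fc
  have hx : ∀ i, (x i).1 ⬝ᵥ (M.det • Fc - ∑ j, w j • E j) = 0 := fun i => by
    have : (M *ᵥ w) i = M.det * ((x i).1 ⬝ᵥ Fc) := by
      simp only [w]; rw [mulVec_mulVec, mul_adjugate, smul_mulVec, one_mulVec]; rfl
    simp only [dotProduct_sub, dotProduct_smul, dotProduct_sum, smul_eq_mul]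
    rw [← this, sub_eq_zero]
    simp only [← hM0, mul_comm (w _)]
    rfl
  refine ⟨M.det • Fc - ∑ j, w j • E j, fun y hy => ?_, ?_⟩
  · have h0 : fl y = 0 := eq_zero_of_all_dvd fun n => key n _ (fl1 y hy) (fl2 y)
    rw [hfl] at h0
    have := congrArg (· ⬝ᵥ (M.det • Fc - ∑ j, w j • E j)) (sub_eq_zero.1 h0)
    simp only [smul_dotProduct, sum_dotProduct, hx, smul_zero, Finset.sum_const_zero] at this
    exact (mul_eq_zero.1 this).resolve_left fun h => by simp [h] at hd
  · have hw : ∀ j, (w j).eval s = 0 := fun j => by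
      have : ∀ i, ((x i).1 ⬝ᵥ Fc).eval s = 0 := fun i => by rw [eval_dot, hFc, hF _ (x i).2]
      simp only [w, mulVec]
      rw [dotProduct]
      simp [eval_finsetSum, this]
    ext i
    simp [ev, hd, Fc, eval_finsetSum, hw]

end

end Pool.Agent.Lib.MP_5591bc_ag.G
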