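import Pool.Agent.Lib.MP_5591bc_ag.GOde
import Pool.Agent.Lib.MP_5591bc_ag.GFib

/-! Tensor powers of vectors, matrices and differential systems; polynomial functions. -/

namespace Pool.Agent.Lib.MP_5591bc_ag.G

open Matrix Function

noncomputable section

section alg

variable {R L α β : Type*} [CommRing R] [Fintype L] [DecidableEq L]

/-- pure tensor -/
def tens (x : L → α → R) : (L → α) → R := fun μ => ∏ j, x j (μ j)

/-- tensor product of matrices -/
def piM (M : L → Matrix α β R) : Matrix (L → α) (L → β) R := of fun μ ν => ∏ j, M j (μ j) (ν j)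

lemma piM_mulVec [Fintype β] (M : L → Matrix α β R) (x : L → β → R) :
    piM M *ᵥ tens x = tens fun j => M j *ᵥ x j := by
  ext μ
  simp only [tens, piM, mulVec, dotProduct, of_apply, ← Finset.prod_mul_distrib]
  rw [Finset.prod_univ_sum, Fintype.piFinset_univ]

omit [DecidableEq L] in
lemma piM_one [DecidableEq α] [DecidableEq (L → α)] :
    piM (fun _ : L => (1 : Matrix α α R)) = 1 := by
  ext μ ν
  simp only [piM, of_apply, one_apply, Finset.prod_boole, funext_iff, Finset.mem_univ, true_imp_iff]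

omit [DecidableEq L] in
lemma piM_col [DecidableEq β] [Fintype β] (M : L → Matrix α β R) (ν : L → β) :
    (fun μ => piM M μ ν) = tens fun j i => M j i (ν j) := rfl

/-- the system satisfied by tensor products of solutions -/
def tB (L : Type*) [Fintype L] [DecidableEq L] [DecidableEq α] (B : Matrix α α R) :
    Matrix (L → α) (L → α) R := ∑ l, piM (update (fun _ : L => (1 : Matrix α α R)) l B)

variable [DecidableEq α]

lemma tB_mulVec [Fintype α] (B : Matrix α α R) (x : L → α → R) :
    tB L B *ᵥ tens x = ∑ l, tens (update x l (B *ᵥ x l)) := by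
  rw [tB, sum_mulVec]
  refine Finset.sum_congr rfl fun l _ => ?_
  rw [piM_mulVec]
  congr 1
  ext j i
  by_cases h : j = l
  · subst h; simp
  · simp [h]

omit [DecidableEq α] in
lemma tens_update (x : L → α → R) (l : L) (y : α → R) (μ : L → α) :
    tens (update x l y) μ = (∏ j ∈ Finset.univ.erase l, x j (μ j)) * y (μ l) := by
  rw [tens, ← Finset.prod_erase_mul _ _ (Finset.mem_univ l), update_self]
  congr 1
  exact Finset.prod_congr rfl fun j hj => by rw [update_of_ne (Finset.ne_of_mem_erase hj)]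

lemma tB_apply (B : Matrix α α R) (μ ν : L → α) : tB L B μ ν =
    ∑ l, (∏ j ∈ Finset.univ.erase l, if μ j = ν j then 1 else 0) * B (μ l) (ν l) := by
  rw [tB, Matrix.sum_apply]
  refine Finset.sum_congr rfl fun l _ => ?_
  rw [piM, of_apply, ← Finset.prod_erase_mul _ _ (Finset.mem_univ l), update_self]
  congr 1
  exact Finset.prod_congr rfl fun j hj => by
    rw [update_of_ne (Finset.ne_of_mem_erase hj), one_apply]

end alg

section an

variable {L α : Type*} [Fintype L] [DecidableEq L] [Fintype α] [DecidableEq α]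

lemma vsol_tens {A : ℂ → Matrix α α ℂ} {y : L → ℂ → α → ℂ} {t : ℂ} (h : ∀ j, VSol A (y j) t) :
    VSol (fun s => tB L (A s)) (fun s => tens fun j => y j s) t := by
  refine hasDerivAt_pi.2 fun μ => ?_
  have := HasDerivAt.fun_finsetProd (u := Finset.univ) fun j _ => hasDerivAt_pi.1 (h j) (μ j)
  rw [tB_mulVec, Finset.sum_apply]
  simp only [tens_update]
  exact this

lemma msol_piM {β : Type*} {A : ℂ → Matrix α α ℂ} {W : ℂ → Matrix α β ℂ} {t : ℂ}
    (h : MSol A W t) : MSol (fun s => tB L (A s)) (fun s => piM fun _ : L => W s) t :=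
  msol_of_col fun ν => vsol_tens (y := fun j s i => W s i (ν j)) fun j => h.col (ν j)

omit [Fintype α] in
lemma norm_tB_le {A : Matrix α α ℂ} {c : ℝ} (h : ∀ i j, ‖A i j‖ ≤ c) (μ ν : L → α) :
    ‖tB L A μ ν‖ ≤ Fintype.card L * c := by
  rw [tB_apply]
  refine (norm_sum_le _ _).trans ((Finset.sum_le_card_nsmul _ _ c fun l _ => ?_).trans (by simp))
  rw [norm_mul, norm_prod]
  refine (mul_le_of_le_one_left (norm_nonneg _) ?_).trans (h _ _)
  exact Finset.prod_le_one (fun _ _ => norm_nonneg _) fun j _ => by split_ifs <;> simp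

omit [DecidableEq L] [Fintype α] [DecidableEq α] in
lemma Hol.piM {β : Type*} {S : Set ℂ} {W : ℂ → Matrix α β ℂ} (h : Hol S W) :
    Hol S fun s => piM fun _ : L => W s := fun μ ν =>
  DifferentiableOn.fun_finsetProd fun j _ => h (μ j) (ν j)

omit [Fintype α] in
lemma Hol.tB {S : Set ℂ} {A : ℂ → Matrix α α ℂ} (h : Hol S A) :
    Hol S fun s => tB L (A s) := fun μ ν => by
  simp only [tB_apply]
  exact DifferentiableOn.fun_sum fun l _ => (differentiableOn_const _).fun_mul (h _ _)

open Polynomial in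
lemma Dc_tens {k : Type*} [Field k] (T : k[X]) (B : Matrix α α k[X]) (x : L → α → k[X]) :
    Dc T (tB L B) (tens x) = ∑ l, tens (update x l (Dc T B (x l))) := by
  ext1 μ
  rw [Dc, tB_mulVec]
  simp only [Pi.add_apply, Pi.smul_apply, Finset.sum_apply, tens_update, smul_eq_mul, Dc]
  rw [tens, derivative_prod_finset, Finset.mul_sum, ← Finset.sum_add_distrib]
  exact Finset.sum_congr rfl fun l _ => by ring

end an

section poly

variable {σ τ : Type*}

/-- a vector with an extra coordinate `1` -/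
def hat (x : σ → ℂ) : Option σ → ℂ := fun o => o.elim 1 x

/-- all products of `d` coordinates of `hat x` -/
def mon (d : ℕ) (x : σ → ℂ) : (Fin d → Option σ) → ℂ := tens fun _ => hat x

/-- functions given by a rational polynomial of degree at most `d` -/
def PF (d : ℕ) (g : (σ → ℂ) → ℂ) : Prop :=
  ∃ p : MvPolynomial σ ℚ, p.totalDegree ≤ d ∧ ∀ x, g x = MvPolynomial.aeval x p

lemma PF.mono {d e : ℕ} {g : (σ → ℂ) → ℂ} (h : PF d g) (he : d ≤ e) : PF e g :=
  let ⟨p, h1, h2⟩ := h; ⟨p, h1.trans he, h2⟩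

lemma PF.const (d : ℕ) (q : ℚ) : PF d fun _ : σ → ℂ => (q : ℂ) :=
  ⟨MvPolynomial.C q, by simp, fun x => by simp⟩

lemma PF.zero (d : ℕ) : PF d fun _ : σ → ℂ => 0 := by simpa using PF.const (σ := σ) d 0

lemma PF.one (d : ℕ) : PF d fun _ : σ → ℂ => 1 := by simpa using PF.const (σ := σ) d 1

lemma PF.var (i : σ) : PF 1 fun x : σ → ℂ => x i :=
  ⟨MvPolynomial.X i, by simp, fun x => by simp⟩

lemma PF.add {d : ℕ} {g h : (σ → ℂ) → ℂ} (hg : PF d g) (hh : PF d h) :
    PF d fun x => g x + h x :=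
  let ⟨p, h1, h2⟩ := hg
  let ⟨q, h3, h4⟩ := hh
  ⟨p + q, (MvPolynomial.totalDegree_add p q).trans (max_le h1 h3), fun x => by simp [h2, h4]⟩

lemma PF.mul {d e : ℕ} {g h : (σ → ℂ) → ℂ} (hg : PF d g) (hh : PF e h) :
    PF (d + e) fun x => g x * h x :=
  let ⟨p, h1, h2⟩ := hg
  let ⟨q, h3, h4⟩ := hh
  ⟨p * q, (MvPolynomial.totalDegree_mul p q).trans (add_le_add h1 h3), fun x => by simp [h2, h4]⟩

lemma PF.cmul {d : ℕ} {g : (σ → ℂ) → ℂ} (hg : PF d g) (q : ℚ) : PF d fun x => q * g x := by
  simpa using (PF.const 0 q).mul hg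

lemma PF.sum {ι : Type*} {d : ℕ} (s : Finset ι) {g : ι → (σ → ℂ) → ℂ} (h : ∀ i ∈ s, PF d (g i)) :
    PF d fun x => ∑ i ∈ s, g i x := by
  classical
  induction s using Finset.induction_on with
  | empty => simpa using PF.zero d
  | insert a s ha ih =>
    simp only [Finset.sum_insert ha]
    exact (h a (by simp)).add (ih fun i hi => h i (by simp [hi]))

lemma PF.prod {ι : Type*} {d : ℕ} (s : Finset ι) {g : ι → (σ → ℂ) → ℂ} (h : ∀ i ∈ s, PF d (g i)) :
    PF (s.card * d) fun x => ∏ i ∈ s, g i x := by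
  classical
  induction s using Finset.induction_on with
  | empty => simpa using PF.one 0
  | insert a s ha ih =>
    simp only [Finset.prod_insert ha, Finset.card_insert_of_notMem ha]
    exact ((h a (by simp)).mul (ih fun i hi => h i (by simp [hi]))).mono (le_of_eq (by ring))

lemma exists_mon (d : ℕ) : ∀ s : σ →₀ ℕ, s.sum (fun _ e => e) ≤ d →
    ∃ μ : Fin d → Option σ, ∀ x : σ → ℂ, mon d x μ = s.prod fun i e => x i ^ e := by
  classical
  induction d with
  | zero =>
    intro s hs
    have : s = 0 := by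
      ext i
      by_contra h
      have := Finset.single_le_sum (f := fun i => s i) (fun _ _ => Nat.zero_le _)
        (Finsupp.mem_support_iff.2 h)
      exact h (by simpa using this.trans hs)
    exact ⟨fun _ => none, fun x => by simp [mon, tens, this]⟩
  | succ d ih =>
    intro s hs
    by_cases h0 : s = 0
    · exact ⟨fun _ => none, fun x => by simp [mon, tens, h0, hat]⟩
    obtain ⟨i, hi⟩ := Finsupp.ne_iff.1 h0
    obtain ⟨s', rfl⟩ : ∃ s', s = Finsupp.single i 1 + s' := by
      refine ⟨s - Finsupp.single i 1, (add_tsub_cancel_of_le ?_).symm⟩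
      exact Finsupp.single_le_iff.2 (Nat.one_le_iff_ne_zero.2 hi)
    rw [Finsupp.sum_add_index' (fun _ => rfl) (fun _ _ _ => rfl), Finsupp.sum_single_index rfl]
      at hs
    obtain ⟨μ, hμ⟩ := ih s' (by omega)
    refine ⟨Fin.cons (some i) μ, fun x => ?_⟩
    rw [Finsupp.prod_add_index' (fun _ => pow_zero _) (fun _ _ _ => pow_add _ _ _),
      Finsupp.prod_single_index (h := fun i => HPow.hPow (x i)) (pow_zero _)]
    erw [← hμ]
    simp [mon, tens, Fin.prod_univ_succ, hat]

lemma PF.lin [Fintype σ] {d : ℕ} {g : (σ → ℂ) → ℂ} (h : PF d g) :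
    ∃ c : (Fin d → Option σ) → ℚ, ∀ x, g x = (fun μ => (c μ : ℂ)) ⬝ᵥ mon d x := by
  classical
  obtain ⟨p, h1, h2⟩ := h
  have : ∀ s : p.support, ∃ μ : Fin d → Option σ, ∀ x : σ → ℂ,
      mon d x μ = s.1.prod fun i e => x i ^ e := fun s =>
    exists_mon d s.1 ((MvPolynomial.le_totalDegree s.2).trans h1)
  choose μ hμ using this
  refine ⟨∑ s : p.support, Pi.single (μ s) (p.coeff s.1), fun x => ?_⟩
  have e : (fun ν => (((∑ s : p.support, Pi.single (μ s) (p.coeff s.1) :
      (Fin d → Option σ) → ℚ) ν : ℚ) : ℂ)) = ∑ s : p.support, Pi.single (μ s) ((p.coeff s.1 : ℚ) : ℂ) := by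
    ext ν
    simp only [Finset.sum_apply, Pi.single_apply]
    push_cast
    exact Finset.sum_congr rfl fun s _ => by split_ifs <;> simp
  rw [e, sum_dotProduct, h2, MvPolynomial.aeval_def, MvPolynomial.eval₂_eq, ← Finset.sum_coe_sort]
  refine Finset.sum_congr rfl fun s _ => ?_
  rw [single_dotProduct, hμ]
  rfl

lemma PF.comp [Fintype σ] {d : ℕ} {g : (σ → ℂ) → ℂ} (h : PF d g) {ψ : (τ → ℂ) → σ → ℂ}
    (hψ : ∀ i, PF 1 fun x => ψ x i) : PF d fun x => g (ψ x) := by
  obtain ⟨c, hc⟩ := h.lin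
  simp only [hc, dotProduct]
  refine PF.sum _ fun μ _ => PF.cmul ?_ _
  have := PF.prod (d := 1) (Finset.univ : Finset (Fin d))
    (g := fun j x => hat (ψ x) (μ j)) fun j _ => by
      rcases μ j with _ | i
      · exact PF.one 1
      · exact hψ i
  rw [Finset.card_univ, Fintype.card_fin, mul_one] at this
  exact this

end poly

end

end Pool.Agent.Lib.MP_5591bc_ag.G
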