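import Pool.Agent.Lib.MP_5591bc_ag.RZero
import Pool.Agent.Lib.MP_5591bc_ag.GTens

/-! Tensor products of one variable systems, series of geometric growth. -/

namespace Pool.Agent.Lib.MP_5591bc_ag.R

open Matrix Finset Function G PowerSeries

noncomputable section

variable {σ : Type*} [Fintype σ] [DecidableEq σ]

/-- a power series in the variable `i` -/
def emb (i : σ) : ℚ⟦X⟧ →ₐ[ℚ] MvPowerSeries σ ℚ := MvPowerSeries.rename fun _ : Unit => i

omit [Fintype σ] [DecidableEq σ] in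
theorem coeff_emb (i : σ) (g : ℚ⟦X⟧) (k : ℕ) :
    MvPowerSeries.coeff (Finsupp.single i k) (emb i g) = coeff k g := by
  have := MvPowerSeries.coeff_embDomain_rename (⟨fun _ : Unit => i, fun _ _ _ => rfl⟩ : Unit ↪ σ) g
    (Finsupp.single () k)
  rw [Finsupp.embDomain_single] at this
  exact this

omit [Fintype σ] [DecidableEq σ] in
theorem coeff_emb_ne {i : σ} {g : ℚ⟦X⟧} {d : σ →₀ ℕ} (h : MvPowerSeries.coeff d (emb i g) ≠ 0) :
    d = Finsupp.single i (d i) := by
  by_contra e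
  refine h (MvPowerSeries.coeff_rename_eq_zero _ _ fun ⟨x, hx⟩ => e ?_)
  rw [← hx, Finsupp.unique_single x, Finsupp.mapDomain_single, Finsupp.single_eq_same]

theorem coeff_prod_emb (g : σ → ℚ⟦X⟧) (d : σ →₀ ℕ) :
    MvPowerSeries.coeff d (∏ i, emb i (g i)) = ∏ i, coeff (d i) (g i) := by
  rw [MvPowerSeries.coeff_prod, sum_eq_single_of_mem
    (Finsupp.equivFunOnFinite.symm fun i => Finsupp.single i (d i))]
  · simp [coeff_emb]
  · simp [Finsupp.univ_sum_single]
  · intro l hl h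
    by_contra h0
    have h1 := fun i => coeff_emb_ne (prod_ne_zero_iff.1 h0 i (mem_univ i))
    refine h (Finsupp.ext fun i => ?_)
    rw [← (mem_finsuppAntidiag.1 hl).1, Finsupp.coe_equivFunOnFinite_symm, Finsupp.finset_sum_apply,
      sum_eq_single i (fun j _ hj => by rw [h1 j, Finsupp.single_eq_of_ne hj.symm]) (by simp)]
    exact h1 i

theorem pderiv_prod_emb (g : σ → ℚ⟦X⟧) (i : σ) : MvPowerSeries.pderiv ℚ i (∏ j, emb j (g j)) =
    ∏ j, emb j (update g i (d⁄dX ℚ (g i)) j) := by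
  ext d
  rw [MvPowerSeries.coeff_pderiv, coeff_prod_emb, coeff_prod_emb,
    ← prod_erase_mul _ _ (mem_univ i), ← prod_erase_mul _ _ (mem_univ i), update_self,
    coeff_derivative, mul_assoc]
  congr 1
  · exact prod_congr rfl fun j hj => by simp [ne_of_mem_erase hj]
  · simp

/-- a polynomial in the variable `i` -/
def toMv (i : σ) : Polynomial ℚ →ₐ[ℚ] MvPolynomial σ ℚ := Polynomial.aeval (MvPolynomial.X i)

/-- expansion at a point -/
def τs (ξ : σ → ℚ) : MvPolynomial σ ℚ →+* MvPowerSeries σ ℚ :=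
  MvPolynomial.coeToMvPowerSeries.ringHom.comp (sh ξ).toRingHom

/-- expansion at a point -/
def τ1 (x : ℚ) : Polynomial ℚ →+* ℚ⟦X⟧ :=
  Polynomial.coeToPowerSeries.ringHom.comp (Polynomial.taylorAlgHom x).toRingHom

theorem coeff_τ1 (x : ℚ) (p : Polynomial ℚ) (k : ℕ) :
    coeff k (τ1 x p) = (Polynomial.taylor x p).coeff k := Polynomial.coeff_coe _ _

omit [Fintype σ] [DecidableEq σ] in
theorem τs_toMv (ξ : σ → ℚ) (i : σ) (p : Polynomial ℚ) : τs ξ (toMv i p) = emb i (τ1 (ξ i) p) := by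
  have hC : ∀ a : ℚ, emb i (C a) = MvPowerSeries.C a := fun a => MvPowerSeries.rename_C _ a
  have hX : emb i X = MvPowerSeries.X i := MvPowerSeries.rename_X _ ()
  induction p using Polynomial.induction_on with
  | C a => simp [τs, toMv, τ1, sh, hC]
  | add p q hp hq => simp only [map_add, hp, hq]
  | monomial n a h =>
    rw [pow_succ, ← mul_assoc, map_mul, map_mul, h, map_mul (τ1 _) _ Polynomial.X, map_mul (emb i)]
    simp [τs, toMv, τ1, sh, hC, hX]

omit [Fintype σ] [DecidableEq σ] in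
theorem sh_sh (ξ : σ → ℚ) (p : MvPolynomial σ ℚ) : sh (-ξ) (sh ξ p) = p := by
  rw [← AlgHom.comp_apply, show (sh (-ξ)).comp (sh ξ) = AlgHom.id ℚ _ from by ext1 i; simp [sh]]
  rfl

omit [Fintype σ] [DecidableEq σ] in
theorem τs_zero (p : MvPolynomial σ ℚ) : τs 0 p = p := by
  rw [τs, show sh (0 : σ → ℚ) = AlgHom.id ℚ _ from by ext1 i; simp [sh]]
  rfl

section ten
variable {R α β γ : Type*} [CommRing R]

theorem piM_mul [Fintype β] (M : σ → Matrix α β R) (N : σ → Matrix β γ R) :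
    piM M * piM N = piM fun i => M i * N i := by
  ext μ ν
  simp only [piM, mul_apply, of_apply, ← prod_mul_distrib]
  rw [prod_univ_sum, Fintype.piFinset_univ]

theorem mrep [Fintype α] [DecidableEq α] {S S' : σ → Set (α → R)}
    (h : ∀ i (b : α → R), (∀ x ∈ S i, b ⬝ᵥ x = 0) → ∀ x ∈ S' i, b ⬝ᵥ x = 0) {a : (σ → α) → R}
    (ha : ∀ x : σ → α → R, (∀ i, x i ∈ S i) → a ⬝ᵥ tens x = 0) {x : σ → α → R}
    (hx : ∀ i, x i ∈ S' i) : a ⬝ᵥ tens x = 0 := by
  have key : ∀ s : Finset σ, ∀ x : σ → α → R, (∀ i ∈ s, x i ∈ S' i) → (∀ i ∉ s, x i ∈ S i) →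
      a ⬝ᵥ tens x = 0 := fun s => by
    induction s using Finset.induction_on with
    | empty => exact fun x _ h2 => ha x fun i => h2 i (by simp)
    | insert l s hl ih =>
      intro x h1 h2
      have e : ∀ y, a ⬝ᵥ tens (update x l y) =
          (fun k => a ⬝ᵥ tens (update x l (Pi.single k 1))) ⬝ᵥ y := fun y => by
        simp only [dotProduct, tens_update, sum_mul]
        rw [sum_comm]
        exact sum_congr rfl fun μ _ => by simp [Pi.single_apply, mul_assoc]
      rw [← update_eq_self l x, e]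
      refine h l _ (fun y hy => ?_) _ (h1 l (mem_insert_self _ _))
      rw [← e]
      refine ih _ (fun i hi => ?_) fun i hi => ?_
      · rw [update_of_ne (ne_of_mem_of_not_mem hi hl)]
        exact h1 i (mem_insert_of_mem hi)
      · by_cases e : i = l
        · subst e; rwa [update_self]
        · rw [update_of_ne e]; exact h2 i (by simp [e, hi])
  exact key univ x (fun i _ => hx i) fun i hi => absurd (mem_univ i) hi

end ten

variable {A : Type*} [Fintype A] [DecidableEq A]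

/-- the tensor product of matrices of series in separate variables -/
def tM (M : σ → Matrix A A ℚ⟦X⟧) : Matrix (σ → A) (σ → A) (MvPowerSeries σ ℚ) :=
  piM fun i => (M i).map (emb i)

omit [DecidableEq A] in
theorem tM_mul (M N : σ → Matrix A A ℚ⟦X⟧) : tM M * tM N = tM fun i => M i * N i := by
  rw [tM, tM, piM_mul, tM]
  congr 1
  ext1 i
  exact Matrix.map_mul.symm

omit [Fintype A] in
theorem tM_one : tM (fun _ : σ => (1 : Matrix A A ℚ⟦X⟧)) = 1 := by
  rw [tM, ← piM_one]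
  congr 1
  ext1 i
  exact Matrix.map_one _ (map_zero _) (map_one _)

omit [Fintype A] [DecidableEq A] [DecidableEq σ] in
theorem tM_smul (a : σ → ℚ⟦X⟧) (M : σ → Matrix A A ℚ⟦X⟧) :
    tM (fun i => a i • M i) = (∏ i, emb i (a i)) • tM M := by
  ext1 μ ν
  simp [tM, piM, prod_mul_distrib]

omit [Fintype A] [DecidableEq A] in
theorem coeff_tM (M : σ → Matrix A A ℚ⟦X⟧) (μ ν : σ → A) (d : σ →₀ ℕ) :
    MvPowerSeries.coeff d (tM M μ ν) = ∏ i, coeff (d i) (M i (μ i) (ν i)) :=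
  coeff_prod_emb (fun i => M i (μ i) (ν i)) d

theorem fr_tM {T : Polynomial ℚ} {B : Matrix A A (Polynomial ℚ)} {ξ : σ → ℚ}
    {M : σ → Matrix A A ℚ⟦X⟧} (h0 : ∀ i, (M i).map constantCoeff = 1)
    (h : ∀ i, τ1 (ξ i) T • (M i).map (d⁄dX ℚ) = B.map (τ1 (ξ i)) * M i) :
    Fr (fun i => toMv i T) (fun i => piM (update (fun _ => 1) i (B.map (toMv i)))) (τs ξ) (tM M)
      (tM fun i => (M i)⁻¹) := by
  refine ⟨fun i p => ?_, fun p q e => ?_, ?_, fun i => ?_⟩
  · exact (congrArg _ (pderiv_sh ξ i p).symm).trans (MvPowerSeries.pderiv_coe _).symm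
  · rw [← sh_sh ξ p, ← sh_sh ξ q]
    exact congrArg _ (MvPolynomial.coe_injective σ ℚ e)
  · rw [tM_mul, ← tM_one]
    congr 1
    ext1 i
    refine mul_nonsing_inv _ (isUnit_iff_constantCoeff.2 ?_)
    rw [RingHom.map_det, RingHom.mapMatrix_apply, h0, det_one]
    exact isUnit_one
  · have e1 : (tM M).map (MvPowerSeries.pderiv ℚ i) = tM (update M i ((M i).map (d⁄dX ℚ))) := by
      ext1 μ ν
      refine (pderiv_prod_emb (fun i => M i (μ i) (ν i)) i).trans (prod_congr rfl fun j _ => ?_)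
      by_cases e : j = i
      · subst e; simp
      · simp [e]
    have e2 : (piM (update (fun _ => 1) i (B.map (toMv i)))).map (τs ξ) =
        tM (update (fun _ => 1) i (B.map (τ1 (ξ i)))) := by
      ext1 μ ν
      simp only [piM, tM, map_apply, of_apply, map_prod]
      refine prod_congr rfl fun j _ => ?_
      by_cases e : j = i
      · subst e; simp [τs_toMv]
      · simp [e, one_apply, apply_ite]
    have e3 : τs ξ (toMv i T) = ∏ j, emb j (update (fun _ => (1 : ℚ⟦X⟧)) i (τ1 (ξ i) T) j) := by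
      rw [τs_toMv, prod_eq_single i (fun j _ e => by simp [e]) (by simp), update_self]
    rw [e1, e2, e3, tM_mul, ← tM_smul]
    congr 1
    ext1 j
    by_cases e : j = i
    · subst e; simp only [update_self, h]
    · simp [e]

/-- coefficients and denominators of at most geometric growth -/
def GF {α : Type*} (a : ℕ) (g : α → ℚ⟦X⟧) : Prop :=
  ∀ k, (∀ x, |((coeff k (g x) : ℚ) : ℝ)| ≤ (a : ℝ) ^ (k + 1)) ∧
    ∃ d : ℕ, 0 < d ∧ d ≤ a ^ (k + 1) ∧ ∀ x, ∀ j ≤ k, ∃ z : ℤ, (d : ℚ) * coeff j (g x) = z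

section gf
variable {α β : Type*} {a b : ℕ} {g : α → ℚ⟦X⟧} {h : β → ℚ⟦X⟧}

theorem GF.pos (hg : GF a g) : 0 < a := by
  obtain ⟨-, d, h1, h2, -⟩ := hg 0
  simpa using h1.trans_le h2

theorem GF.mono (hg : GF a g) (hb : a ≤ b) : GF b g := fun k =>
  let ⟨h0, d, h1, h2, h3⟩ := hg k
  ⟨fun x => (h0 x).trans (by gcongr), d, h1, h2.trans (by gcongr), h3⟩

theorem GF.comp (hg : GF a g) (f : β → α) : GF a fun y => g (f y) := fun k =>
  let ⟨h0, d, h1, h2, h3⟩ := hg k
  ⟨fun _ => h0 _, d, h1, h2, fun _ => h3 _⟩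

theorem GF.pi [Fintype α] (ha : 0 < a) (hg : ∀ x, GF a fun _ : Unit => g x) :
    GF (a ^ (Fintype.card α + 1)) g := fun k => by
  choose h0 d h1 h2 h3 using fun x => hg x k
  refine ⟨fun x => (h0 x ()).trans ?_, ∏ x, d x, prod_pos fun x _ => h1 x,
    (prod_le_pow_card _ _ _ fun x _ => h2 x).trans ?_, fun x j hj => ?_⟩
  · gcongr
    exact Nat.le_self_pow (by omega) a
  · rw [← pow_mul, ← pow_mul, mul_comm]
    exact Nat.pow_le_pow_right ha (by simp [add_mul])
  · classical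
    obtain ⟨z, hz⟩ := h3 x () j hj
    exact ⟨(∏ y ∈ univ.erase x, d y : ℕ) * z, by
      rw [← prod_erase_mul _ _ (mem_univ x), Nat.cast_mul, mul_assoc, hz]; simp⟩

theorem GF.two {h : α → ℚ⟦X⟧} (hg : GF a g) (hh : GF b h) :
    GF (2 * a * b) (fun x => g x + h x) ∧ GF (2 * a * b) fun x => g x * h x := by
  have ha : (1 : ℝ) ≤ a := by exact_mod_cast hg.pos
  have hb : (1 : ℝ) ≤ b := by exact_mod_cast hh.pos
  constructor <;> intro k <;> obtain ⟨a0, d, a1, a2, a3⟩ := hg k <;>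
    obtain ⟨b0, e, b1, b2, b3⟩ := hh k <;>
    refine ⟨fun x => ?_, d * e, by positivity, (Nat.mul_le_mul a2 b2).trans (by
      rw [← mul_pow]; gcongr; omega), fun x j hj => ?_⟩
  · have c1 := one_le_pow₀ (n := k + 1) ha
    have c2 := one_le_pow₀ (n := k + 1) hb
    have c3 : (2 : ℝ) ≤ 2 ^ (k + 1) := le_self_pow₀ one_le_two (by omega)
    simp only [map_add, Rat.cast_add, Nat.cast_mul, mul_pow, Nat.cast_ofNat]
    refine (abs_add_le _ _).trans ((add_le_add (a0 x) (b0 x)).trans ?_)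
    nlinarith [mul_nonneg (sub_nonneg.2 c1) (sub_nonneg.2 c2),
      mul_nonneg (sub_nonneg.2 c3) (by positivity : (0 : ℝ) ≤ a ^ (k + 1) * b ^ (k + 1))]
  · obtain ⟨z, hz⟩ := a3 x j hj
    obtain ⟨y, hy⟩ := b3 x j hj
    exact ⟨e * z + d * y, by push_cast; rw [← hz, ← hy, map_add]; ring⟩
  · simp only [coeff_mul, Rat.cast_sum, Rat.cast_mul, Nat.cast_mul, mul_pow, Nat.cast_ofNat]
    refine (abs_sum_le_sum_abs _ _).trans ((sum_le_card_nsmul _ _
      ((a : ℝ) ^ (k + 1) * b ^ (k + 1)) fun p hp => ?_).trans ?_)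
    · have := mem_antidiagonal.1 hp
      rw [abs_mul]
      exact mul_le_mul (((hg _).1 x).trans (pow_le_pow_right₀ ha (by omega)))
        (((hh _).1 x).trans (pow_le_pow_right₀ hb (by omega))) (abs_nonneg _) (by positivity)
    · rw [Nat.card_antidiagonal, nsmul_eq_mul, mul_assoc]
      gcongr
      exact_mod_cast Nat.lt_two_pow_self.le
  · have : ∀ p ∈ antidiagonal j, ∃ z : ℤ,
        ((d * e : ℕ) : ℚ) * (coeff p.1 (g x) * coeff p.2 (h x)) = z := fun p hp => by
      have := mem_antidiagonal.1 hp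
      obtain ⟨z, hz⟩ := a3 x p.1 (by omega)
      obtain ⟨y, hy⟩ := b3 x p.2 (by omega)
      exact ⟨z * y, by push_cast; rw [← hz, ← hy]; ring⟩
    choose! z hz using this
    exact ⟨∑ p ∈ antidiagonal j, z p, by
      rw [coeff_mul, mul_sum, Int.cast_sum]; exact sum_congr rfl hz⟩

theorem GF.int (z : α → ℤ) (hz : ∀ x, |z x| ≤ 1) : GF 1 fun x => (z x : ℚ⟦X⟧) := fun k => by
  refine ⟨fun x => ?_, 1, one_pos, by simp, fun x j _ => ⟨if j = 0 then z x else 0, ?_⟩⟩
  · simp only [← map_intCast (C : ℚ →+* ℚ⟦X⟧), coeff_C]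
    split_ifs
    · exact_mod_cast (hz x).trans (by simp)
    · simp
  · simp only [← map_intCast (C : ℚ →+* ℚ⟦X⟧), coeff_C]
    split_ifs <;> simp

/-- families of series with uniform growth -/
def UF {Ω : Type*} (b : Ω → ℕ) (hb : ∀ x, 2 ≤ b x) : Subring (Ω → ℚ⟦X⟧) where
  carrier := {g | ∃ e, ∀ x, GF (b x ^ e) fun _ : Unit => g x}
  add_mem' := fun ⟨e, h⟩ ⟨e', h'⟩ => ⟨e + e' + 1, fun x => ((h x).two (h' x)).1.mono (by
    rw [pow_succ', pow_add, mul_assoc]; gcongr; exact hb x)⟩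
  mul_mem' := fun ⟨e, h⟩ ⟨e', h'⟩ => ⟨e + e' + 1, fun x => ((h x).two (h' x)).2.mono (by
    rw [pow_succ', pow_add, mul_assoc]; gcongr; exact hb x)⟩
  one_mem' := ⟨0, fun x => by simpa using GF.int (fun _ : Unit => 1) (by simp)⟩
  zero_mem' := ⟨0, fun x => by simpa using GF.int (fun _ : Unit => 0) (by simp)⟩
  neg_mem' := fun ⟨e, h⟩ => ⟨e + 1, fun x => by
    simpa [pow_succ', mul_comm] using
      ((GF.int (fun _ : Unit => -1) (by simp)).two (h x)).2.mono (b := b x * b x ^ e) (by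
        rw [mul_one]; gcongr; exact hb x)⟩

theorem UF.pi {Ω : Type*} {b : Ω → ℕ} {hb : ∀ x, 2 ≤ b x} [Fintype α] {g : α → Ω → ℚ⟦X⟧}
    (h : ∀ y, g y ∈ UF b hb) : ∃ e, ∀ x, GF (b x ^ e) fun y => g y x := by
  choose e he using h
  refine ⟨univ.sup e * (Fintype.card α + 1), fun x => ?_⟩
  have := hb x
  rw [pow_mul]
  exact GF.pi (by positivity) fun y =>
    (he y x).mono (Nat.pow_le_pow_right (by omega) (le_sup (f := e) (mem_univ y)))

theorem UF.adj {Ω : Type*} {b : Ω → ℕ} {hb : ∀ x, 2 ≤ b x} {M : Ω → Matrix A A ℚ⟦X⟧}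
    (h : ∀ i j, (fun x => M x i j) ∈ UF b hb) (i j : A) :
    (fun x => (M x).adjugate i j) ∈ UF b hb := by
  have : (fun x => (M x).adjugate i j) = (of fun i j x => M x i j).adjugate i j := by
    ext1 x
    exact (congrFun₂ ((Pi.evalRingHom _ x).map_adjugate (of fun i j x => M x i j)) i j).symm
  rw [this, adjugate_apply, det_apply']
  refine sum_mem fun π _ => mul_mem (intCast_mem _ _) (prod_mem fun k _ => ?_)
  rw [updateRow_apply, Pi.single_apply]
  split_ifs
  exacts [one_mem _, zero_mem _, h _ _]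

end gf

end

end Pool.Agent.Lib.MP_5591bc_ag.R
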