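import Mathlib

/-! Abstract theory of primitives along continuous maps. -/

namespace Pool.Agent.Lib.MP_5591bc_ag

open unitInterval Topology Filter

noncomputable section

/-- An atlas of local primitives. -/
structure Atlas (X : Type) [TopologicalSpace X] (ι : Type) where
  N : ι → Set X
  G : ι → X → ℂ
  isOpen : ∀ i, IsOpen (N i)
  cover : ∀ p, ∃ i, p ∈ N i
  diff : ∀ i j p, p ∈ N i → p ∈ N j → ∀ᶠ q in 𝓝 p, G i q - G j q = G i p - G j p
  add : ∀ i (c : ℂ), ∃ j, N j = N i ∧ ∀ q, G j q = G i q + c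

variable {X : Type} [TopologicalSpace X] {ι : Type} (A : Atlas X ι)

def Atlas.IsPrim {Y : Type} [TopologicalSpace Y] (h : Y → X) (F : Y → ℂ) : Prop :=
  ∀ y, ∃ i, h y ∈ A.N i ∧ ∀ᶠ v in 𝓝 y, F v = A.G i (h v)

theorem Atlas.IsPrim.comp {A : Atlas X ι} {Y Z : Type} [TopologicalSpace Y] [TopologicalSpace Z]
    {h : Y → X} {F : Y → ℂ} (hF : A.IsPrim h F) {φ : Z → Y} (hφ : Continuous φ) :
    A.IsPrim (fun z => h (φ z)) (fun z => F (φ z)) := by
  intro z
  obtain ⟨i, hi, hv⟩ := hF (φ z)
  exact ⟨i, hi, hφ.continuousAt.eventually hv⟩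

theorem Atlas.IsPrim.unique {A : Atlas X ι} {Y : Type} [TopologicalSpace Y] [PreconnectedSpace Y]
    {h : Y → X} (hh : Continuous h) {F F' : Y → ℂ} (hF : A.IsPrim h F) (hF' : A.IsPrim h F')
    (a b : Y) : F a - F b = F' a - F' b := by
  have hlc : IsLocallyConstant (fun y => F y - F' y) := by
    rw [IsLocallyConstant.iff_eventually_eq]
    intro y
    obtain ⟨i, hi, hv⟩ := hF y
    obtain ⟨j, hj, hw⟩ := hF' y
    have h3 := hh.continuousAt.eventually (A.diff i j (h y) hi hj)
    filter_upwards [hv, hw, h3] with v h1 h2 h3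
    rw [h1, h2, h3, hv.self_of_nhds, hw.self_of_nhds]
  have := hlc.apply_eq_of_preconnectedSpace a b
  linear_combination this

theorem Atlas.isPrim_const {Y : Type} [TopologicalSpace Y] (p : X) :
    ∃ c : ℂ, A.IsPrim (fun _ : Y => p) (fun _ => c) := by
  obtain ⟨i, hi⟩ := A.cover p
  exact ⟨A.G i p, fun y => ⟨i, hi, Eventually.of_forall fun _ => rfl⟩⟩

/-- The complex numbers with the discrete topology. -/
def DC : Type := ℂ

instance : TopologicalSpace DC := ⊥
instance : DiscreteTopology DC := ⟨rfl⟩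

def DC.val (x : DC) : ℂ := x
def DC.of (x : ℂ) : DC := x

def Atlas.core : FiberBundleCore ι X DC where
  baseSet := A.N
  isOpen_baseSet := A.isOpen
  indexAt p := (A.cover p).choose
  mem_baseSet_at p := (A.cover p).choose_spec
  coordChange i j p v := DC.of (v.val + (A.G i p - A.G j p))
  coordChange_self i p _ v := by simp [DC.of, DC.val]
  continuousOn_coordChange i j := by
    rintro ⟨p, v⟩ ⟨⟨hi, hj⟩, -⟩
    apply ContinuousAt.continuousWithinAt
    have h1 : ∀ᶠ q : X × DC in 𝓝 (p, v), q.2 = v := by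
      have : ∀ᶠ w : DC in 𝓝 v, w = v := by simp
      exact (continuous_snd.continuousAt (x := (p, v))).eventually this
    have h2 : ∀ᶠ q : X × DC in 𝓝 (p, v), A.G i q.1 - A.G j q.1 = A.G i p - A.G j p :=
      (continuous_fst.continuousAt (x := (p, v))).eventually (A.diff i j p hi hj)
    refine (continuousAt_const (y := DC.of (v.val + (A.G i p - A.G j p)))).congr ?_
    filter_upwards [h1, h2] with q h1 h2
    rw [h1, h2]
  coordChange_comp i j k p _ v := by
    apply congrArg DC.of
    change v.val + _ + _ = _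
    ring

theorem Atlas.exists_prim {Y : Type} [TopologicalSpace Y] [SimplyConnectedSpace Y]
    [LocallyPathConnectedSpace Y] {h : Y → X} (hh : Continuous h) : ∃ F, A.IsPrim h F := by
  have cov : IsCoveringMap (A.core.proj) := FiberBundle.isCoveringMap (F := DC) (E := A.core.Fiber)
  obtain ⟨y0⟩ : Nonempty Y := inferInstance
  obtain ⟨L, ⟨-, hL⟩, -⟩ := cov.existsUnique_continuousMap_lifts ⟨h, hh⟩ y0
    ⟨h y0, DC.of 0⟩ rfl
  have hL1 : ∀ y, (L y).1 = h y := fun y => congrFun hL y
  refine ⟨fun y => DC.val (L y).2 + A.G (A.core.indexAt (L y).1) (L y).1, fun y => ?_⟩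
  obtain ⟨i, hi⟩ := A.cover (h y)
  have hc : ContinuousAt (fun v => ((A.core.localTriv i) (L v)).2) y := by
    refine continuous_snd.continuousAt.comp (ContinuousAt.comp ?_ L.continuous.continuousAt)
    apply (A.core.localTriv i).continuousAt
    rw [FiberBundleCore.mem_localTriv_source, hL1]
    exact hi
  have hev : ∀ᶠ v in 𝓝 y, ((A.core.localTriv i) (L v)).2 = ((A.core.localTriv i) (L y)).2 := by
    have : ∀ᶠ w : DC in 𝓝 ((A.core.localTriv i) (L y)).2, w = ((A.core.localTriv i) (L y)).2 := by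
      simp
    exact hc.eventually this
  obtain ⟨j, hj, hG⟩ := A.add i (DC.val ((A.core.localTriv i) (L y)).2)
  refine ⟨j, hj ▸ hi, ?_⟩
  filter_upwards [hev] with v hv
  rw [hG, ← hv, ← hL1 v, FiberBundleCore.localTriv_apply]
  simp only [Atlas.core, DC.of, DC.val]
  ring

instance contractibleI : ContractibleSpace I :=
  (convex_Icc (0 : ℝ) 1).contractibleSpace ⟨0, by simp⟩

instance locPathI : LocallyPathConnectedSpace I := (convex_Icc (0 : ℝ) 1).locallyPathConnectedSpace

/-- The integral along a path. -/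
def Atlas.per {a b : X} (γ : Path a b) : ℂ :=
  (A.exists_prim γ.continuous).choose 1 - (A.exists_prim γ.continuous).choose 0

theorem Atlas.IsPrim.per_eq {A : Atlas X ι} {a b : X} {γ : Path a b} {F : I → ℂ}
    (hF : A.IsPrim γ F) : A.per γ = F 1 - F 0 :=
  (A.exists_prim γ.continuous).choose_spec.unique γ.continuous hF 1 0

/-- The integral along the image of a path under a map with a primitive. -/
theorem Atlas.IsPrim.per_eq' {A : Atlas X ι} {Y : Type} [TopologicalSpace Y] {h : Y → X}
    {F : Y → ℂ} (hF : A.IsPrim h F) {a b : X} (γ : Path a b) (φ : I → Y) (hφ : Continuous φ)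
    (he : ∀ u, γ u = h (φ u)) : A.per γ = F (φ 1) - F (φ 0) := by
  have := hF.comp hφ
  have e : (fun z => h (φ z)) = γ := by funext u; exact (he u).symm
  rw [e] at this
  exact this.per_eq

theorem Atlas.per_congr {a b a' b' : X} (γ : Path a b) (γ' : Path a' b') (he : ∀ u, γ u = γ' u) :
    A.per γ = A.per γ' := by
  obtain ⟨F, hF⟩ := A.exists_prim γ'.continuous
  rw [hF.per_eq, hF.per_eq' γ id continuous_id he]; rfl

theorem Atlas.per_const {a b : X} (γ : Path a b) (p : X) (he : ∀ u, γ u = p) : A.per γ = 0 := by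
  obtain ⟨c, hc⟩ := A.isPrim_const (Y := I) p
  rw [hc.per_eq' γ id continuous_id he, sub_self]

theorem Atlas.per_trans {a b c : X} (γ : Path a b) (γ' : Path b c) :
    A.per (γ.trans γ') = A.per γ + A.per γ' := by
  obtain ⟨F, hF⟩ := A.exists_prim (γ.trans γ').continuous
  let φ : I → I := fun u => ⟨u / 2, by constructor <;> linarith [u.2.1, u.2.2]⟩
  let ψ : I → I := fun u => ⟨(u + 1) / 2, by constructor <;> linarith [u.2.1, u.2.2]⟩
  have hφ : Continuous φ := by fun_prop
  have hψ : Continuous ψ := by fun_prop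
  rw [hF.per_eq, hF.per_eq' γ φ hφ, hF.per_eq' γ' ψ hψ]
  · have e1 : φ 1 = ψ 0 := by ext; simp [φ, ψ]
    have e2 : φ 0 = 0 := by ext; simp [φ]
    have e3 : ψ 1 = 1 := by ext; simp [ψ]
    rw [e1, e2, e3]; ring
  · intro u
    rw [Path.trans_apply]
    split_ifs with h
    · have : (u : ℝ) = 0 := by
        simp only [ψ] at h
        linarith [u.2.1]
      have hu : u = 0 := Subtype.ext this
      subst hu
      simp [ψ]
    · congr 1; ext; simp [ψ]; ring
  · intro u
    rw [Path.trans_apply]
    split_ifs with h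
    · congr 1; ext; simp [φ]; ring
    · exfalso; apply h; simp only [φ]; linarith [u.2.2]

theorem Atlas.per_symm {a b : X} (γ : Path a b) : A.per γ.symm = - A.per γ := by
  obtain ⟨F, hF⟩ := A.exists_prim γ.continuous
  rw [hF.per_eq, hF.per_eq' γ.symm unitInterval.symm continuous_symm (fun u => rfl)]
  simp

/-- Invariance under a homotopy whose ends are fixed. -/
theorem Atlas.per_homotopy {a b : X} (H : I × I → X) (hH : Continuous H) (h0 : ∀ s, H (s, 0) = a)
    (h1 : ∀ s, H (s, 1) = b) (γ γ' : Path a b) (e0 : ∀ u, γ u = H (0, u))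
    (e1 : ∀ u, γ' u = H (1, u)) : A.per γ = A.per γ' := by
  obtain ⟨F, hF⟩ := A.exists_prim hH
  rw [hF.per_eq' γ (fun u => (0, u)) (by fun_prop) e0,
    hF.per_eq' γ' (fun u => (1, u)) (by fun_prop) e1]
  have a0 := hF.per_eq' (Path.refl a) (fun s => (s, 0)) (by fun_prop) (fun s => (h0 s).symm)
  have a1 := hF.per_eq' (Path.refl b) (fun s => (s, 1)) (by fun_prop) (fun s => (h1 s).symm)
  rw [A.per_const _ a (fun _ => rfl)] at a0
  rw [A.per_const _ b (fun _ => rfl)] at a1
  linear_combination a1 - a0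

theorem Atlas.per_homotopic {a b : X} {γ γ' : Path a b} (h : γ.Homotopic γ') :
    A.per γ = A.per γ' := by
  obtain ⟨H⟩ := h
  exact A.per_homotopy H H.continuous H.source H.target γ γ' (fun u => by simp)
    (fun u => by simp)

/-- The period homomorphism on the fundamental group. -/
def Atlas.perHom (a : X) : FundamentalGroup X a →* Multiplicative ℂ :=
  MonoidHom.mk' (fun g => Multiplicative.ofAdd
    (Quotient.lift (fun γ : Path a a => A.per γ) (fun _ _ h => A.per_homotopic h)
      (FundamentalGroup.toPath g))) (by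
    rintro ⟨γ⟩ ⟨γ'⟩
    rw [← ofAdd_add, add_comm]
    exact congrArg _ (A.per_trans γ' γ))

/-- The period homomorphism on first homology. -/
def Atlas.perH (a : X) : Additive (Abelianization (FundamentalGroup X a)) →+ ℂ :=
  MonoidHom.toAdditiveLeft (Abelianization.lift (A.perHom a))

theorem Atlas.perH_mk (a : X) (γ : Path a a) :
    A.perH a (Additive.ofMul (Abelianization.of
      (FundamentalGroup.fromPath (Path.Homotopic.Quotient.mk γ)))) = A.per γ := rfl

end

end Pool.Agent.Lib.MP_5591bc_ag
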