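import Pool.Agent.Lib.MP_5591bc_ag.Defs
import Pool.Agent.Lib.MP_5591bc_ag.Prim

/-! Local primitives on the curve form an atlas; scaling. -/

namespace Pool.Agent.Lib.MP_5591bc_ag

open unitInterval Topology Filter

noncomputable section

theorem exists_localInv {g : ℂ → ℂ} {a : ℂ} (hg : AnalyticAt ℂ g a) (hd : deriv g a ≠ 0) :
    ∃ s : ℂ → ℂ, AnalyticAt ℂ s (g a) ∧ (∀ᶠ x in 𝓝 a, s (g x) = x) ∧
      ∀ᶠ w in 𝓝 (g a), g (s w) = w :=
  ⟨_, hg.analyticAt_localInverse hd, HasStrictDerivAt.eventually_left_inverse _ hd,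
    HasStrictDerivAt.eventually_right_inverse _ hd⟩

theorem deriv_ne_of_root {t x : ℂ} (ht : t ≠ 0) (h : x ^ 5 - t * x = 0) : 5 * x ^ 4 - t ≠ 0 := by
  intro h2
  have hx : x = 0 := by
    have : 4 * t * x = 0 := by linear_combination x * h2 - 5 * h
    simpa [ht] using this
  subst hx
  apply ht
  linear_combination -h2

theorem hasDerivAt_f (t x : ℂ) : HasDerivAt (fun x : ℂ => x ^ 5 - t * x) (5 * x ^ 4 - t) x := by
  have := ((hasDerivAt_id' x).fun_pow 5).fun_sub ((hasDerivAt_id' x).const_mul t)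
  refine this.congr_deriv ?_
  simp

theorem exists_prim_aux {t : ℂ} {k : ℕ} (p : ℂ × ℂ) (L : ℂ × ℂ →L[ℂ] ℂ) (w : ℂ → ℂ)
    (hw : AnalyticAt ℂ w (L p))
    (h : ∀ᶠ q in 𝓝 p, q.2 ^ 2 = q.1 ^ 5 - t * q.1 → ∀ v : ℂ × ℂ,
      2 * q.2 * v.2 = (5 * q.1 ^ 4 - t) * v.1 → q.2 * (w (L q) * L v) = q.1 ^ k * v.1) :
    ∃ N G, IsLocalPrimitive t k N G ∧ p ∈ N := by
  obtain ⟨r, hr, hball⟩ := Metric.eventually_nhds_iff_ball.1 hw.eventually_analyticAt
  have hdiff : DifferentiableOn ℂ w (Metric.ball (L p) r) :=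
    fun z hz => (hball z hz).differentiableAt.differentiableWithinAt
  obtain ⟨g, hg⟩ := hdiff.isExactOn_ball
  obtain ⟨V, hV, hVo, hpV⟩ := eventually_nhds_iff.1 h
  have hfd : ∀ q, L q ∈ Metric.ball (L p) r →
      HasFDerivAt (fun q => g (L q)) ((w (L q)) • L) q := by
    intro q hq
    have := (hg _ hq).hasFDerivAt.comp q L.hasFDerivAt
    refine this.congr_fderiv ?_
    ext <;> simp [mul_comm]
  refine ⟨V ∩ L ⁻¹' Metric.ball (L p) r, fun q => g (L q), ⟨?_, ?_, ?_⟩, hpV, by simp [hr]⟩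
  · exact hVo.inter (Metric.isOpen_ball.preimage L.continuous)
  · exact fun q hq => (hfd q hq.2).differentiableAt.differentiableWithinAt
  · intro q hq v hv
    rw [(hfd q hq.2).fderiv]
    simpa using hV q hq.1 q.2 v hv

/-- A local parametrisation of the curve. -/
theorem exists_chart {t : ℂ} (ht : t ≠ 0) (p : ℂ × ℂ) (hp : p.2 ^ 2 = p.1 ^ 5 - t * p.1) :
    ∃ (L : ℂ × ℂ →L[ℂ] ℂ) (φ : ℂ → ℂ × ℂ), AnalyticAt ℂ φ (L p) ∧
      (∀ᶠ z in 𝓝 (L p), (φ z).2 ^ 2 = (φ z).1 ^ 5 - t * (φ z).1) ∧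
      (∀ᶠ q in 𝓝 p, q.2 ^ 2 = q.1 ^ 5 - t * q.1 → φ (L q) = q) ∧
      (∀ᶠ z in 𝓝[≠] (L p), (φ z).2 ≠ 0) ∧
      ∀ k : ℕ, ∃ N G, IsLocalPrimitive t k N G ∧ p ∈ N := by
  have hfa : ∀ x : ℂ, AnalyticAt ℂ (fun x : ℂ => x ^ 5 - t * x) x := fun x => by fun_prop
  by_cases hy : p.2 = 0
  · have hroot : p.1 ^ 5 - t * p.1 = 0 := by rw [← hp, hy]; simp
    have hd : deriv (fun x : ℂ => x ^ 5 - t * x) p.1 ≠ 0 := by
      rw [(hasDerivAt_f t p.1).deriv]; exact deriv_ne_of_root ht hroot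
    obtain ⟨s, hs, hl, hr⟩ := exists_localInv (hfa p.1) hd
    simp only [← hp] at hs hr
    have hsq : AnalyticAt ℂ (fun y : ℂ => s (y ^ 2)) p.2 :=
      AnalyticAt.comp (g := s) (f := fun y : ℂ => y ^ 2) hs (by fun_prop)
    have hl' : ∀ᶠ q : ℂ × ℂ in 𝓝 p, q.2 ^ 2 = q.1 ^ 5 - t * q.1 → s (q.2 ^ 2) = q.1 := by
      filter_upwards [continuous_fst.continuousAt.eventually hl] with q hq h
      rw [h, hq]
    have hs0 : s (p.2 ^ 2) = p.1 := hl'.self_of_nhds hp
    refine ⟨ContinuousLinearMap.snd ℂ ℂ ℂ, fun y => (s (y ^ 2), y), ?_, ?_, ?_, ?_, ?_⟩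
    · exact hsq.prod analyticAt_id
    · have hc : ContinuousAt (fun y : ℂ => y ^ 2) p.2 := by fun_prop
      filter_upwards [hc.eventually hr] with z hz
      exact hz.symm
    · filter_upwards [hl'] with q hq h
      simp [hq h]
    · simp only [ContinuousLinearMap.coe_snd', hy]
      exact self_mem_nhdsWithin
    · intro k
      have hne : 5 * s (p.2 ^ 2) ^ 4 - t ≠ 0 := by rw [hs0]; exact deriv_ne_of_root ht hroot
      refine exists_prim_aux p (ContinuousLinearMap.snd ℂ ℂ ℂ)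
        (fun y => 2 * s (y ^ 2) ^ k / (5 * s (y ^ 2) ^ 4 - t)) ?_ ?_
      · exact (analyticAt_const.mul (hsq.pow k)).div
          ((analyticAt_const.mul (hsq.pow 4)).sub analyticAt_const) hne
      · have hc : ContinuousAt (fun q : ℂ × ℂ => 5 * q.1 ^ 4 - t) p := by fun_prop
        filter_upwards [hl', hc.eventually_ne (deriv_ne_of_root ht hroot)] with q hq hq2 h v hv
        simp only [ContinuousLinearMap.coe_snd', hq h]
        field_simp
        linear_combination q.1 ^ k * hv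
  · have hd : deriv (fun y : ℂ => y ^ 2) p.2 ≠ 0 := by simpa using hy
    obtain ⟨s, hs, hl, hr⟩ := exists_localInv (g := fun y : ℂ => y ^ 2) (by fun_prop) hd
    simp only [hp] at hs hr
    have hsq : AnalyticAt ℂ (fun x : ℂ => s (x ^ 5 - t * x)) p.1 :=
      AnalyticAt.comp (g := s) (f := fun x : ℂ => x ^ 5 - t * x) hs (hfa _)
    have hl' : ∀ᶠ q : ℂ × ℂ in 𝓝 p, q.2 ^ 2 = q.1 ^ 5 - t * q.1 →
        s (q.1 ^ 5 - t * q.1) = q.2 := by
      filter_upwards [continuous_snd.continuousAt.eventually hl] with q hq h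
      rw [← h, hq]
    have hs0 : s (p.1 ^ 5 - t * p.1) = p.2 := hl'.self_of_nhds hp
    refine ⟨ContinuousLinearMap.fst ℂ ℂ ℂ, fun x => (x, s (x ^ 5 - t * x)), ?_, ?_, ?_, ?_, ?_⟩
    · exact analyticAt_id.prod hsq
    · filter_upwards [(hfa p.1).continuousAt.eventually hr] with z hz
      exact hz
    · filter_upwards [hl'] with q hq h
      simp [hq h]
    · apply Filter.Eventually.filter_mono nhdsWithin_le_nhds
      exact hsq.continuousAt.eventually_ne (by simpa [hs0] using hy)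
    · intro k
      refine exists_prim_aux p (ContinuousLinearMap.fst ℂ ℂ ℂ)
        (fun x => x ^ k / s (x ^ 5 - t * x)) ?_ ?_
      · exact (analyticAt_id.pow k).div hsq (by simpa [hs0] using hy)
      · filter_upwards [hl', continuous_snd.continuousAt.eventually_ne hy] with q hq hq2 h v _
        simp only [ContinuousLinearMap.coe_fst', hq h]
        field_simp

theorem eventually_const_of_deriv {g : ℂ → ℂ} {z0 : ℂ} (hg : AnalyticAt ℂ g z0)
    (h : ∀ᶠ z in 𝓝[≠] z0, deriv g z = 0) : ∀ᶠ z in 𝓝 z0, g z = g z0 := by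
  have h0 : ∀ᶠ z in 𝓝 z0, deriv g z = 0 :=
    hg.deriv.frequently_zero_iff_eventually_zero.1 h.frequently
  obtain ⟨r, hr, hball⟩ := Metric.eventually_nhds_iff_ball.1 (hg.eventually_analyticAt.and h0)
  filter_upwards [Metric.ball_mem_nhds z0 hr] with z hz
  exact Metric.isOpen_ball.is_const_of_deriv_eq_zero (convex_ball z0 r).isPreconnected
    (fun w hw => (hball w hw).1.differentiableAt.differentiableWithinAt)
    (fun w hw => (hball w hw).2) hz (Metric.mem_ball_self hr)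

/-- Differentiating the equation of the curve along a parametrised curve. -/
theorem tangent_of_hasDerivAt {t : ℂ} {φ : ℂ → ℂ × ℂ} {z : ℂ} {v : ℂ × ℂ} (hφ : HasDerivAt φ v z)
    (h : ∀ᶠ w in 𝓝 z, (φ w).2 ^ 2 = (φ w).1 ^ 5 - t * (φ w).1) :
    2 * (φ z).2 * v.2 = (5 * (φ z).1 ^ 4 - t) * v.1 := by
  have h1 : HasDerivAt (fun w => (φ w).1) v.1 z :=
    (ContinuousLinearMap.fst ℂ ℂ ℂ).hasFDerivAt.comp_hasDerivAt z hφ
  have h2 : HasDerivAt (fun w => (φ w).2) v.2 z :=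
    (ContinuousLinearMap.snd ℂ ℂ ℂ).hasFDerivAt.comp_hasDerivAt z hφ
  have a := h2.pow 2
  have b := (hasDerivAt_f t (φ z).1).comp z h1
  have := a.unique (b.congr_of_eventuallyEq h)
  simpa using this

theorem locPrim_diff {t : ℂ} (ht : t ≠ 0) {k : ℕ} {N N' : Set (ℂ × ℂ)} {G G' : ℂ × ℂ → ℂ}
    (h : IsLocalPrimitive t k N G) (h' : IsLocalPrimitive t k N' G') (p : Curve t)
    (hp : p.1 ∈ N) (hp' : p.1 ∈ N') :
    ∀ᶠ q : Curve t in 𝓝 p, G q.1 - G' q.1 = G p.1 - G' p.1 := by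
  obtain ⟨L, φ, hφ, hc, hinv, hne, -⟩ := exists_chart ht p.1 p.2
  have hp0 : φ (L p.1) = p.1 := hinv.self_of_nhds p.2
  have hN : ∀ᶠ z in 𝓝 (L p.1), φ z ∈ N ∩ N' := by
    apply hφ.continuousAt.eventually
    rw [hp0]
    exact (h.1.inter h'.1).mem_nhds ⟨hp, hp'⟩
  have hder : ∀ᶠ z in 𝓝 (L p.1), HasDerivAt (fun z => G (φ z) - G' (φ z))
      (fderiv ℂ G (φ z) (deriv φ z) - fderiv ℂ G' (φ z) (deriv φ z)) z ∧
      (φ z).2 * (fderiv ℂ G (φ z) (deriv φ z) - fderiv ℂ G' (φ z) (deriv φ z)) = 0 := by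
    filter_upwards [hN, hφ.eventually_analyticAt, hc.eventually_nhds] with z hz ha hcz
    have hd := ha.differentiableAt.hasDerivAt
    refine ⟨?_, ?_⟩
    · exact (((h.2.1.differentiableAt (h.1.mem_nhds hz.1)).hasFDerivAt.comp_hasDerivAt z hd).sub
        ((h'.2.1.differentiableAt (h'.1.mem_nhds hz.2)).hasFDerivAt.comp_hasDerivAt z hd))
    · have ht := tangent_of_hasDerivAt hd hcz
      have e1 := h.2.2 ⟨φ z, hcz.self_of_nhds⟩ hz.1 _ ht
      have e2 := h'.2.2 ⟨φ z, hcz.self_of_nhds⟩ hz.2 _ ht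
      simp only at e1 e2
      linear_combination e1 - e2
  have han : AnalyticAt ℂ (fun z => G (φ z) - G' (φ z)) (L p.1) :=
    Complex.analyticAt_iff_eventually_differentiableAt.2 (hder.mono fun z hz => hz.1.differentiableAt)
  have hconst := eventually_const_of_deriv han (by
    filter_upwards [hne, hder.filter_mono nhdsWithin_le_nhds] with z h1 h2
    rw [h2.1.deriv]
    exact (mul_eq_zero.1 h2.2).resolve_left h1)
  have hc1 : ContinuousAt (fun q : Curve t => L q.1) p := by fun_prop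
  filter_upwards [hc1.eventually hconst,
    continuous_subtype_val.continuousAt.eventually hinv] with q h1 h2
  rw [h2 q.2, hp0] at h1
  exact h1

/-- The atlas of local primitives of `x^k dx / y`. -/
def atlas {t : ℂ} (ht : t ≠ 0) (k : ℕ) :
    Atlas (Curve t) {a : Set (ℂ × ℂ) × (ℂ × ℂ → ℂ) // IsLocalPrimitive t k a.1 a.2} where
  N a := Subtype.val ⁻¹' a.1.1
  G a q := a.1.2 q.1
  isOpen a := a.2.1.preimage continuous_subtype_val
  cover p := by
    obtain ⟨L, φ, -, -, -, -, h⟩ := exists_chart ht p.1 p.2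
    obtain ⟨N, G, h1, h2⟩ := h k
    exact ⟨⟨(N, G), h1⟩, h2⟩
  diff i j p hi hj := locPrim_diff ht i.2 j.2 p hi hj
  add i c := by
    refine ⟨⟨(i.1.1, fun q => i.1.2 q + c), i.2.1, i.2.2.1.add_const c, ?_⟩, rfl, fun _ => rfl⟩
    intro p hp v hv
    simp only [fderiv_add_const]
    exact i.2.2.2 p hp v hv

theorem isIntegral_iff {t : ℂ} (ht : t ≠ 0) (k : ℕ) {a b : Curve t} (γ : Path a b) (c : ℂ) :
    IsIntegral t k γ c ↔ c = (atlas ht k).per γ := by
  constructor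
  · rintro ⟨F, hF, rfl⟩
    refine (Atlas.IsPrim.per_eq (fun u => ?_)).symm
    obtain ⟨N, G, h1, h2, h3⟩ := hF u
    exact ⟨⟨(N, G), h1⟩, h2, h3⟩
  · rintro rfl
    obtain ⟨F, hF⟩ := (atlas ht k).exists_prim γ.continuous
    refine ⟨F, fun u => ?_, hF.per_eq⟩
    obtain ⟨i, h2, h3⟩ := hF u
    exact ⟨i.1.1, i.1.2, i.2, h2, h3⟩

/-- The scaling map `(x, y) ↦ (u^2 x, u^5 y)`. -/
def scale (u : ℂ) {t t' : ℂ} (h : t' = u ^ 8 * t) (p : Curve t) : Curve t' :=
  ⟨(u ^ 2 * p.1.1, u ^ 5 * p.1.2), by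
    have := p.2
    simp only [h]
    linear_combination u ^ 10 * this⟩

theorem continuous_scale (u : ℂ) {t t' : ℂ} (h : t' = u ^ 8 * t) : Continuous (scale u h) := by
  unfold scale; fun_prop

theorem scale_origin (u : ℂ) {t t' : ℂ} (h : t' = u ^ 8 * t) :
    scale u h (origin t) = origin t' := by
  simp [scale, origin]

theorem per_scale {u : ℂ} (hu : u ≠ 0) {t t' : ℂ} (ht : t ≠ 0) (ht' : t' ≠ 0)
    (h : t' = u ^ 8 * t) (k : ℕ) {a b : Curve t} {a' b' : Curve t'} (γ : Path a b)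
    (γ' : Path a' b') (he : ∀ s, γ' s = scale u h (γ s)) :
    (atlas ht' k).per γ' = u ^ (2 * k) / u ^ 3 * (atlas ht k).per γ := by
  obtain ⟨F, hF⟩ := (atlas ht' k).exists_prim γ'.continuous
  let S : ℂ × ℂ →L[ℂ] ℂ × ℂ :=
    ((u ^ 2) • ContinuousLinearMap.fst ℂ ℂ ℂ).prod ((u ^ 5) • ContinuousLinearMap.snd ℂ ℂ ℂ)
  have hS : ∀ q, S q = (u ^ 2 * q.1, u ^ 5 * q.2) := fun q => rfl
  have hP : (atlas ht k).IsPrim γ (fun s => u ^ 3 / u ^ (2 * k) * F s) := by
    intro s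
    obtain ⟨⟨⟨N, G⟩, h1, h2, h3⟩, hi, hv⟩ := hF s
    refine ⟨⟨(S ⁻¹' N, fun q => u ^ 3 / u ^ (2 * k) * G (S q)), h1.preimage S.continuous, ?_, ?_⟩,
      ?_, ?_⟩
    · exact (h2.comp S.differentiable.differentiableOn (fun q hq => hq)).const_mul _
    · intro p hp v hv
      have hd : HasFDerivAt (fun q => u ^ 3 / u ^ (2 * k) * G (S q))
          ((u ^ 3 / u ^ (2 * k)) • (fderiv ℂ G (S p.1)).comp S) p.1 :=
        ((h2.differentiableAt (h1.mem_nhds hp)).hasFDerivAt.comp p.1 S.hasFDerivAt).const_mul _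
      simp only
      rw [hd.fderiv]
      have := h3 (scale u h p) hp (S v) (by
        simp only [scale, hS, h]
        linear_combination u ^ 10 * hv)
      simp only [scale, hS] at this
      simp only [smul_apply, ContinuousLinearMap.comp_apply, hS, smul_eq_mul]
      generalize (fderiv ℂ G (u ^ 2 * p.1.1, u ^ 5 * p.1.2)) (u ^ 2 * v.1, u ^ 5 * v.2) = D at this
      field_simp
      apply mul_left_cancel₀ (pow_ne_zero 2 hu)
      rw [mul_pow, ← pow_mul] at this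
      linear_combination this
    · change S (γ s).1 ∈ N
      have : (γ' s).1 ∈ N := hi
      rw [he] at this
      exact this
    · filter_upwards [hv] with v hv
      change _ = u ^ 3 / u ^ (2 * k) * G (S (γ v).1)
      rw [hv]
      change _ * G (γ' v).1 = _
      rw [he]
      rfl
  rw [hF.per_eq, hP.per_eq]
  field_simp

end

end Pool.Agent.Lib.MP_5591bc_ag
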