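import Pool.Agent.Lib.MP_5591bc_ag.RRoth

/-! The zero estimate for the vectors derived from a Pade approximant of the second kind. -/

namespace Pool.Agent.Lib.MP_5591bc_ag.R

open Matrix Finset

noncomputable section

theorem lam_sum {R J : Type*} [CommRing R] [Fintype J] [DecidableEq J] {r : ℕ} {v : Fin r → J → R}
    (I : Fin r → J) {x : J → R} (hx : ∀ l, x ⬝ᵥ v l = 0) (γ : J) :
    ∑ β, x β * lam v I β γ = mnr v I * x γ := by
  obtain ⟨c, hc⟩ := bord_col v I (Pi.single γ 1)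
  simp only [lam, hc, mul_add, sum_add_distrib, mul_sum]
  rw [sum_comm, sum_eq_zero (s := univ) (f := fun l => ∑ β, x β * (c l * v l β)) fun l _ => by
    simpa only [dotProduct, mul_sum, mul_zero, mul_left_comm] using congrArg (c l * ·) (hx l)]
  simp [Pi.single_apply, mul_comm]

theorem map_lam {R S J : Type*} [CommRing R] [CommRing S] [DecidableEq J] {r : ℕ}
    (v : Fin r → J → R) (I : Fin r → J) (τ : R →+* S) (β γ : J) :
    τ (lam v I β γ) = lam (fun l j => τ (v l j)) I β γ := by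
  rw [lam, map_bord, lam]
  congr 1
  ext j
  simp [Pi.single_apply, apply_ite τ]

variable {σ J : Type*} [Fintype J] [DecidableEq J] (T : σ → MvPolynomial σ ℚ)
  (B : σ → Matrix J J (MvPolynomial σ ℚ))

/-- the connection -/
def Dp (i : σ) (v : J → MvPolynomial σ ℚ) : J → MvPolynomial σ ℚ :=
  T i • (fun j => MvPolynomial.pderiv i (v j)) - B i *ᵥ v

/-- iterated connection -/
def DL (L : List σ) (v : J → MvPolynomial σ ℚ) : J → MvPolynomial σ ℚ :=
  L.foldr (fun i u => Dp T B i u) v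

/-- a formal fundamental matrix with its inverse -/
structure Fr (τ : MvPolynomial σ ℚ →+* MvPowerSeries σ ℚ) (Y X : Matrix J J (MvPowerSeries σ ℚ)) :
    Prop where
  der : ∀ i p, τ (MvPolynomial.pderiv i p) = MvPowerSeries.pderiv ℚ i (τ p)
  inj : Function.Injective τ
  inv : Y * X = 1
  ode : ∀ i, τ (T i) • Y.map (MvPowerSeries.pderiv ℚ i) = (B i).map τ * Y

variable {T B} {τ : MvPolynomial σ ℚ →+* MvPowerSeries σ ℚ} {Y X : Matrix J J (MvPowerSeries σ ℚ)}

theorem Fr.tr (h : Fr T B τ Y X) (i : σ) (x : J → MvPowerSeries σ ℚ) :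
    τ (T i) • pd i (Y *ᵥ x) - (B i).map τ *ᵥ (Y *ᵥ x) = τ (T i) • (Y *ᵥ pd i x) := by
  have : pd i (Y *ᵥ x) = Y *ᵥ pd i x + Y.map (MvPowerSeries.pderiv ℚ i) *ᵥ x :=
    funext fun j => pd_dot i (Y j) x
  rw [this, smul_add, mulVec_mulVec, ← h.ode, smul_mulVec, add_sub_cancel_right]

theorem map_Dp (h : ∀ i p, τ (MvPolynomial.pderiv i p) = MvPowerSeries.pderiv ℚ i (τ p)) (i : σ)
    (v : J → MvPolynomial σ ℚ) : (fun j => τ (Dp T B i v j)) =
      τ (T i) • pd i (fun j => τ (v j)) - (B i).map τ *ᵥ fun j => τ (v j) := by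
  ext1 j
  simp [Dp, pd, h, mulVec, dotProduct]

theorem Fr.vn (h : Fr T B τ Y X) {w : σ → ℕ} {n W : ℕ} (hW : ∀ i, w i ≤ W) (c : J → ℚ)
    {ρ : J → MvPolynomial σ ℚ}
    (hv : Vn w n ((fun j => MvPowerSeries.C (c j)) ⬝ᵥ (X *ᵥ fun j => τ (ρ j)))) (L : List σ) :
    Vn w (n - L.length * W)
      ((fun j => MvPowerSeries.C (c j)) ⬝ᵥ (X *ᵥ fun j => τ (DL T B L ρ j))) := by
  induction L with
  | nil => exact hv.mono (Nat.sub_le _ _)
  | cons i L ih =>
    have e := h.tr i (X *ᵥ fun j => τ (DL T B L ρ j))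
    rw [mulVec_mulVec _ Y, h.inv, one_mulVec, ← map_Dp h.der] at e
    have h1 := (ih.pderiv i).left (τ (T i))
    rw [pd_dot, show pd i (fun j => (MvPowerSeries.C (c j) : MvPowerSeries σ ℚ)) = 0 from
      funext fun j => by simp [pd], zero_dotProduct, add_zero] at h1
    change Vn _ _ (_ ⬝ᵥ (X *ᵥ fun j => τ (Dp T B i (DL T B L ρ) j)))
    rw [e, mulVec_smul, mulVec_mulVec, mul_eq_one_comm.1 h.inv, one_mulVec, dotProduct_smul]
    refine h1.mono ?_
    have := hW i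
    simp only [List.length_cons, add_mul]
    omega

/-- the operator `X_i ∂_i - M - c` -/
def th (M : Matrix J J ℚ) (i : σ) (c : ℚ) (x : J → MvPowerSeries σ ℚ) : J → MvPowerSeries σ ℚ :=
  (MvPowerSeries.X i : MvPowerSeries σ ℚ) • pd i x - M.map MvPowerSeries.C *ᵥ x - c • x

omit [DecidableEq J] in
theorem coeff_th (M : Matrix J J ℚ) (i : σ) (c : ℚ) (x : J → MvPowerSeries σ ℚ) (μ : σ →₀ ℕ) :
    (fun j => MvPowerSeries.coeff μ (th M i c x j)) =
      ((μ i : ℚ) - c) • (fun j => MvPowerSeries.coeff μ (x j)) -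
        M *ᵥ fun j => MvPowerSeries.coeff μ (x j) := by
  classical
  ext1 j
  have : MvPowerSeries.coeff μ (MvPowerSeries.X i * MvPowerSeries.pderiv ℚ i (x j)) =
      μ i * MvPowerSeries.coeff μ (x j) := by
    rw [MvPowerSeries.X_def, MvPowerSeries.coeff_monomial_mul]
    split_ifs with h
    · rw [MvPowerSeries.coeff_pderiv, tsub_add_cancel_of_le h, one_mul, mul_comm]
      have := Finsupp.single_le_iff.1 h
      simp [Nat.cast_sub this]
    · rw [show μ i = 0 by simpa [Finsupp.single_le_iff] using h]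
      simp
  simp [th, pd, this, mulVec, dotProduct, MvPowerSeries.coeff_C_mul]
  ring

theorem dual2 {M : σ → Matrix J J ℚ} (hM : ∀ i, IsNilpotent (M i)) {e : J → ℚ}
    (he : ∀ i, M i *ᵥ e = 0) {S : Set (J → MvPowerSeries σ ℚ)}
    (hS : ∀ z ∈ S, ∀ i c, th (M i) i c z ∈ S) {y z : J → MvPowerSeries σ ℚ}
    (hy : ∀ z ∈ S, y ⬝ᵥ z = 0) (hz : z ∈ S) {μ : σ →₀ ℕ} {q : ℚ} (q0 : q ≠ 0)
    (hq : (fun j => MvPowerSeries.coeff μ (z j)) = q • e) (ν : σ →₀ ℕ) :
    ∑ j, MvPowerSeries.coeff ν (y j) * e j = 0 := by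
  classical
  have key : ∀ Φ : Finset (σ →₀ ℕ), μ ∉ Φ → ∃ z ∈ S, ∃ q : ℚ, q ≠ 0 ∧
      (fun j => MvPowerSeries.coeff μ (z j)) = q • e ∧
      ∀ κ ∈ Φ, (fun j => MvPowerSeries.coeff κ (z j)) = 0 := fun Φ => by
    induction Φ using Finset.induction_on with
    | empty => exact fun _ => ⟨z, hz, q, q0, hq, by simp⟩
    | insert κ Φ _ ih =>
      intro h
      rw [mem_insert, not_or] at h
      obtain ⟨z, a1, q, a2, a3, a4⟩ := ih h.2
      obtain ⟨i, hi⟩ : ∃ i, μ i ≠ κ i := by simpa [Finsupp.ext_iff] using h.1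
      obtain ⟨N, hN⟩ := (hM i).neg
      have : ∀ N : ℕ, ∃ z' ∈ S, ∃ q : ℚ, q ≠ 0 ∧ (fun j => MvPowerSeries.coeff μ (z' j)) = q • e ∧
          (∀ κ ∈ Φ, (fun j => MvPowerSeries.coeff κ (z' j)) = 0) ∧
          (fun j => MvPowerSeries.coeff κ (z' j)) =
            (-M i) ^ N *ᵥ fun j => MvPowerSeries.coeff κ (z j) := fun N => by
        induction N with
        | zero => exact ⟨z, a1, q, a2, a3, a4, by simp⟩
        | succ N ih =>
          obtain ⟨z', b1, q', b2, b3, b4, b5⟩ := ih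
          refine ⟨_, hS z' b1 i (κ i), ((μ i : ℚ) - κ i) * q', mul_ne_zero (sub_ne_zero.2
            (by exact_mod_cast hi)) b2, ?_, fun κ' h => ?_, ?_⟩
          · rw [coeff_th, b3, mulVec_smul, he, smul_zero, sub_zero, smul_smul]
          · rw [coeff_th, b4 κ' h, mulVec_zero, smul_zero, sub_zero]
          · rw [coeff_th, b5, sub_self, zero_smul, zero_sub, pow_succ', ← mulVec_mulVec, neg_mulVec]
      obtain ⟨z', b1, q', b2, b3, b4, b5⟩ := this N
      rw [hN, zero_mulVec] at b5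
      exact ⟨z', b1, q', b2, b3, fun κ' h => (mem_insert.1 h).elim (fun e => e ▸ b5) (b4 κ')⟩
  obtain ⟨z, a1, q, a2, a3, a4⟩ := key (((antidiagonal (ν + μ)).image Prod.snd).erase μ) (by simp)
  have := congrArg (MvPowerSeries.coeff (ν + μ)) (hy z a1)
  simp only [dotProduct, map_sum, MvPowerSeries.coeff_mul, map_zero] at this
  rw [sum_comm, sum_eq_single (ν, μ) (fun p hp h => sum_eq_zero fun j _ => by
    rw [congrFun (a4 p.2 (mem_erase.2 ⟨fun e => h (Prod.ext (add_right_cancel (b := μ)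
      (by rw [← mem_antidiagonal.1 hp, e])) e), mem_image_of_mem _ hp⟩)) j, Pi.zero_apply,
      mul_zero]) (by simp)] at this
  simp only [congrFun a3, Pi.smul_apply, smul_eq_mul, mul_left_comm _ q, ← mul_sum] at this
  exact (mul_eq_zero.1 this).resolve_left a2

variable (T B) in
/-- a formal frame at an ordinary point or at a regular singular point with nilpotent residue -/
structure Fz (τ : MvPolynomial σ ℚ →+* MvPowerSeries σ ℚ) (Y X : Matrix J J (MvPowerSeries σ ℚ))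
    (M : σ → Matrix J J ℚ) : Prop where
  der : ∀ i p, τ (MvPolynomial.pderiv i p) = MvPowerSeries.pderiv ℚ i (τ p)
  inj : Function.Injective τ
  inv : Y * X = 1
  nil : ∀ i, IsNilpotent (M i)
  tr : ∀ i, ∃ a b : MvPowerSeries σ ℚ, b ≠ 0 ∧ ∀ x,
    a • (τ (T i) • pd i (Y *ᵥ x) - (B i).map τ *ᵥ (Y *ᵥ x)) = b • (Y *ᵥ th (M i) i 0 x)

theorem zero_est {τ' : MvPolynomial σ ℚ →+* MvPowerSeries σ ℚ} {M : σ → Matrix J J ℚ}
    {Y' X' : Matrix J J (MvPowerSeries σ ℚ)} (h : Fz T B τ Y X M) (h' : Fr T B τ' Y' X')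
    {w : σ → ℕ} {n k D W : ℕ} (hW : ∀ i, w i ≤ W) {c e : J → ℚ} (he : ∀ i, M i *ᵥ e = 0)
    {ρ : J → MvPolynomial σ ℚ} {Q : MvPowerSeries σ ℚ} {μ : σ →₀ ℕ}
    (hQ : MvPowerSeries.coeff μ Q ≠ 0) (hμ : Finsupp.weight w μ < D)
    (hρ : ∀ j, Vn w D (τ (ρ j) - Q * (Y *ᵥ fun j => MvPowerSeries.C (e j)) j))
    (hv : Vn w n ((fun j => MvPowerSeries.C (c j)) ⬝ᵥ (X' *ᵥ fun j => τ' (ρ j))))
    (hk : k + 1 + Fintype.card J * W ≤ n)
    (hR : ∀ r ≤ Fintype.card J, ∀ (v : Fin r → J → MvPolynomial σ ℚ) (I : Fin r → J),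
      (∀ l, ∃ L : List σ, L.length ≤ Fintype.card J ∧ v l = DL T B L ρ) → mnr v I ≠ 0 →
      ¬ Vn w (k + 1) (τ' (mnr v I)))
    {u : J → MvPolynomial σ ℚ} (hu : ∀ a : J → MvPolynomial σ ℚ,
      (fun j => τ (a j)) ⬝ᵥ (Y *ᵥ fun j => MvPowerSeries.C (e j)) = 0 → a ⬝ᵥ u = 0) :
    MvPowerSeries.constantCoeff
      ((fun j => MvPowerSeries.C (c j)) ⬝ᵥ (X' *ᵥ fun j => τ' (u j))) = 0 := by
  obtain ⟨r, hr, v, I, a1, a2, a3⟩ :=
    greedy fun k v => ∃ L : List σ, L.length ≤ k ∧ v = DL T B L ρ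
  have a4 : ∀ l, ∃ L : List σ, L.length ≤ Fintype.card J ∧ v l = DL T B L ρ := fun l =>
    (a1 l).imp fun L hL => ⟨hL.1.trans (l.rev.2.le.trans hr), hL.2⟩
  let S : Set (J → MvPowerSeries σ ℚ) := {x | ∀ β, bord (fun l j => τ (v l j)) I (Y *ᵥ x) β = 0}
  have hS : ∀ x ∈ S, ∀ i c, th (M i) i c x ∈ S := fun x hx i c β => by
    have := sat_closed (by rw [← map_mnr]; exact (map_ne_zero_iff τ h.inj).2 a2)
      ⟨⟨fun z => τ (T i) • pd i z - (B i).map τ *ᵥ z, by ext1; simp [pd]⟩, fun x y => by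
        ext1; simp [pd, mulVec_add]; ring⟩ (fun a => τ (T i) * MvPowerSeries.pderiv ℚ i a)
      (fun a u => by ext1 j; simp [pd, mulVec_smul]; ring) (fun l β => by
        obtain ⟨L, b1, b2⟩ := a1 l
        change bord _ _ (τ (T i) • pd i _ - _) _ = _
        rw [← map_Dp h.der, ← map_bord, a3 _ ⟨i :: L, Nat.succ_le_of_lt (b1.trans_lt l.rev.2), by
          rw [b2]; rfl⟩, map_zero]) hx β
    change bord _ _ (τ (T i) • pd i _ - _) _ = _ at this
    obtain ⟨a, b, b0, hb⟩ := h.tr i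
    have b1 := (bord_lin (fun l j => τ (v l j)) I β).map_smul a
      (τ (T i) • pd i (Y *ᵥ x) - (B i).map τ *ᵥ (Y *ᵥ x))
    rw [this, hb, (bord_lin _ I β).map_smul, smul_zero, smul_eq_mul, mul_eq_zero] at b1
    rw [show th (M i) i c x = th (M i) i 0 x - (MvPowerSeries.C c : MvPowerSeries σ ℚ) • x by
      ext1 j; simp [th, MvPowerSeries.smul_eq_C_mul], mulVec_sub, mulVec_smul]
    rw [sub_eq_add_neg, ← neg_smul, (bord_lin _ I β).map_add, (bord_lin _ I β).map_smul,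
      b1.resolve_left b0, hx β, smul_zero, add_zero]
  have h1 : ∀ β, bord v I u β = 0 := fun β => by
    rw [bord_eq]
    refine hu _ (MvPowerSeries.ext fun ν => ?_)
    have b1 := dual2 h.nil he hS (y := (fun j => τ (lam v I β j)) ᵥ* Y) (fun z hz => by
      rw [← dotProduct_mulVec, funext (map_lam v I τ β), ← bord_eq, hz])
      (z := X *ᵥ fun j => τ (ρ j)) (fun β => by
        rw [mulVec_mulVec, h.inv, one_mulVec, ← map_bord, a3 ρ ⟨[], r.zero_le, rfl⟩, map_zero])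
      hQ (funext fun j => by
        have b3 : (fun j => τ (ρ j)) = (fun j => τ (ρ j) - Q *
            (Y *ᵥ fun j => MvPowerSeries.C (e j)) j) + Q • (Y *ᵥ fun j => MvPowerSeries.C (e j)) := by
          ext1; simp
        rw [b3, mulVec_add, mulVec_smul, mulVec_mulVec, mul_eq_one_comm.1 h.inv, one_mulVec,
          Pi.add_apply, map_add, Pi.smul_apply, smul_eq_mul, MvPowerSeries.coeff_mul_C,
          Pi.smul_apply, smul_eq_mul, add_eq_right]
        exact Vn.sum (fun j' _ => (hρ j').left (X j j')) μ hμ) ν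
    rw [dotProduct_mulVec, dotProduct, map_sum, map_zero]
    simpa only [MvPowerSeries.coeff_mul_C] using b1
  obtain ⟨g, hg⟩ := sat_eq h1
  have h2 : (fun j => τ' ((mnr v I • u) j)) = fun j => τ' ((∑ l, g l • v l) j) := by rw [hg]
  have h3 : τ' (mnr v I) • (fun j => τ' (u j)) = ∑ l, τ' (g l) • fun j => τ' (v l j) := by
    ext1 j
    simpa [Finset.sum_apply] using congrFun h2 j
  have h4 := congrArg (fun z => (fun j => MvPowerSeries.C (c j)) ⬝ᵥ (X' *ᵥ z)) h3
  simp only [mulVec_smul, mulVec_sum, dotProduct_smul, dotProduct_sum, smul_eq_mul] at h4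
  have h5 : Vn w (k + 1) (τ' (mnr v I) *
      ((fun j => MvPowerSeries.C (c j)) ⬝ᵥ (X' *ᵥ fun j => τ' (u j)))) := by
    rw [h4]
    refine Vn.sum fun l _ => Vn.left ?_ _
    obtain ⟨L, b1, b2⟩ := a4 l
    rw [b2]
    exact (h'.vn hW c hv L).mono (by have := Nat.mul_le_mul_right W b1; omega)
  simpa using h5.cancel (hR r hr v I a4 a2) 0 (by simp)

section bd
open MvPolynomial
variable [Fintype σ]

/-- integral polynomials with bounded degrees and height -/
def Bd (d : σ → ℕ) (h : ℕ) (p : MvPolynomial σ ℚ) : Prop :=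
  p ∈ ZP σ ∧ (∀ i, degreeOf i p ≤ d i) ∧ nr 1 p ≤ 2 ^ h

theorem Bd.mono {d d' : σ → ℕ} {h h' : ℕ} {p : MvPolynomial σ ℚ} (a : Bd d h p)
    (hd : ∀ i, d i ≤ d' i) (hh : h ≤ h') : Bd d' h' p :=
  ⟨a.1, fun i => (a.2.1 i).trans (hd i), a.2.2.trans (pow_le_pow_right₀ one_le_two hh)⟩

theorem Bd.mul {d d' : σ → ℕ} {h h' : ℕ} {p q : MvPolynomial σ ℚ} (a : Bd d h p) (b : Bd d' h' q) :
    Bd (fun i => d i + d' i) (h + h') (p * q) :=
  ⟨mul_mem a.1 b.1, fun i => (degreeOf_mul_le _ _ _).trans (add_le_add (a.2.1 i) (b.2.1 i)),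
    (nr_mul (fun _ => zero_le_one) _ _).trans (by
      rw [pow_add]; exact mul_le_mul a.2.2 b.2.2 (nr_nonneg (fun _ => zero_le_one) _) (by positivity))⟩

theorem Bd.sum {α : Type*} [Fintype α] {d : σ → ℕ} {h : ℕ} {p : α → MvPolynomial σ ℚ}
    (a : ∀ x, Bd d h (p x)) : Bd d (Fintype.card α + h) (∑ x, p x) :=
  ⟨sum_mem fun x _ => (a x).1,
    fun i => (degreeOf_sum_le _ _ _).trans (Finset.sup_le fun x _ => (a x).2.1 i),
    (nr_sum (fun _ => zero_le_one) _ _).trans ((sum_le_card_nsmul _ _ _ fun x _ => (a x).2.2).trans (by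
      rw [nsmul_eq_mul, pow_add]
      gcongr
      exact_mod_cast (Nat.lt_two_pow_self (n := Fintype.card α)).le))⟩

theorem Bd.sub {d : σ → ℕ} {h : ℕ} {p q : MvPolynomial σ ℚ} (a : Bd d h p) (b : Bd d h q) :
    Bd d (h + 1) (p - q) :=
  ⟨sub_mem a.1 b.1, fun i => (degreeOf_sub_le _ _ _).trans (max_le (a.2.1 i) (b.2.1 i)),
    (nr_sub (ρ := 1) (fun _ => zero_le_one) _ _).trans (by rw [pow_succ]; linarith [a.2.2, b.2.2])⟩

theorem Bd.pderiv {d : σ → ℕ} {h t : ℕ} {p : MvPolynomial σ ℚ} (a : Bd d h p) (ht : ∀ i, d i ≤ t)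
    (i : σ) : Bd d (Fintype.card σ * t + h) (pderiv i p) := by
  have e : MvPolynomial.pderiv i p = hs (Finsupp.single i 1) p := by
    have h0 : hs 0 p = p := by
      clear a
      induction p using MvPolynomial.induction_on' with
      | add p q hp hq => rw [map_add, hp, hq]
      | monomial ν a => simp [hs_monomial]
    simpa [h0] using pderiv_hs 0 i p
  rw [e]
  exact ⟨hs_mem _ a.1, fun j => (hs_deg _ _ j).trans (a.2.1 j),
    (hs_nr _ _ fun j => (a.2.1 j).trans (ht j)).trans (by rw [pow_add]; gcongr; exact a.2.2)⟩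

omit [DecidableEq J] in
theorem Bd.dL {b t h N : ℕ} {d : σ → ℕ} (hT : ∀ i, Bd (fun _ => b) b (T i))
    (hB : ∀ i j k, Bd (fun _ => b) b (B i j k)) {ρ : J → MvPolynomial σ ℚ} (hρ : ∀ j, Bd d h (ρ j))
    (ht : ∀ i, d i + N * b ≤ t) (L : List σ) (hL : L.length ≤ N) (j : J) :
    Bd (fun i => d i + L.length * b) (h + L.length * (Fintype.card σ * t + Fintype.card J + b + 1))
      (DL T B L ρ j) := by
  induction L generalizing j with
  | nil => exact (hρ j).mono (fun _ => Nat.le_add_right _ _) (Nat.le_add_right _ _)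
  | cons i L ih =>
    have h1 := ih (Nat.le_of_succ_le hL)
    have h2 := Nat.mul_le_mul_right b (Nat.le_of_succ_le hL)
    have a1 := (hT i).mul ((h1 j).pderiv (t := t) (fun i => by have := ht i; omega) i)
    have a2 := Bd.sum fun k => (hB i j k).mul (h1 k)
    refine ((a1.mono (fun _ => le_rfl) ?_).sub (a2.mono (fun _ => le_rfl) (h' := h + L.length *
      (Fintype.card σ * t + Fintype.card J + b + 1) + (Fintype.card σ * t + Fintype.card J + b))
      ?_)).mono (fun i => ?_) ?_ <;> (try simp only [List.length_cons, add_mul, one_mul]) <;> omega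

omit [Fintype J] [DecidableEq J] in
theorem Bd.mnr {h r : ℕ} {d : σ → ℕ} {v : Fin r → J → MvPolynomial σ ℚ}
    (a : ∀ l j, Bd d h (v l j)) (I : Fin r → J) : Bd (fun i => r * d i) (r * (r + h)) (mnr v I) :=
  ⟨ZP.det fun l _ => (a l _).1, fun i => degreeOf_det fun l _ => (a l _).2.1 i,
    (nr_det (fun _ => zero_le_one) _ fun l _ => (a l _).2.2).trans (by
      rw [mul_comm r, pow_mul, pow_add, mul_pow]
      gcongr
      exact_mod_cast (Nat.factorial_le_pow r).trans (Nat.pow_le_pow_left Nat.lt_two_pow_self.le r))⟩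

end bd

end

end Pool.Agent.Lib.MP_5591bc_ag.R
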