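import Pool.Agent.Lib.MP_5591bc_ag.SNewt

/-! The uniform part of the formal solution at a regular singular point is a `G`-matrix. -/

namespace Pool.Agent.Lib.MP_5591bc_ag.R

open Matrix Finset PowerSeries

noncomputable section

variable {ν : Type*} [Fintype ν] [DecidableEq ν]

/-- the operator `Z ↦ X Z' + Z M` -/
def Th (M : Matrix ν ν ℚ) : Module.End ℚ (Matrix ν ν ℚ⟦X⟧) where
  toFun Z := Z.map ((X : ℚ⟦X⟧) • d⁄dX ℚ) + Z * M.map C
  map_add' Z W := by ext1; simp [Matrix.add_mul]; ring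
  map_smul' a Z := by ext1; simp

theorem Th_mul (M : Matrix ν ν ℚ) (N Z : Matrix ν ν ℚ⟦X⟧) :
    Th M (N * Z) = N.map ((X : ℚ⟦X⟧) • d⁄dX ℚ) * Z + N * Th M Z := by
  ext1 i j
  simp [Th, Matrix.mul_add, Matrix.mul_assoc, mul_apply (M := N) (N := Z), mul_sum, mul_add,
    sum_add_distrib, mul_apply (N := Z), mul_apply (M := N) (N := Z.map _)]
  simp only [mul_comm, mul_left_comm]
  ring

omit [DecidableEq ν] in
theorem cf_mul (N Z : Matrix ν ν ℚ⟦X⟧) (k : ℕ) : (N * Z).map (coeff k) =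
    ∑ b ∈ range (k + 1), N.map (coeff (k - b)) * Z.map (coeff b) := by
  ext i j
  simp only [map_apply, mul_apply, map_sum, Matrix.sum_apply]
  rw [sum_comm]
  refine sum_congr rfl fun l _ => ?_
  rw [mul_comm, coeff_mul, Nat.sum_antidiagonal_eq_sum_range_succ_mk]
  exact sum_congr rfl fun b _ => mul_comm _ _

theorem cf_Th (M : Matrix ν ν ℚ) (Z : Matrix ν ν ℚ⟦X⟧) (k : ℕ) :
    (Th M Z).map (coeff k) = Z.map (coeff k) * ((k : Matrix ν ν ℚ) + M) := by
  rw [Matrix.mul_add, ← nsmul_eq_mul', ← Nat.cast_smul_eq_nsmul ℚ]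
  ext i j
  rcases k with _ | k <;> simp [Th, mul_apply, coeff_succ_X_mul, coeff_derivative, mul_comm]

theorem cf_aeval (M : Matrix ν ν ℚ) (R : Polynomial ℚ) (k : ℕ) (Z : Matrix ν ν ℚ⟦X⟧) :
    (Polynomial.aeval (Th M) R Z).map (coeff k) =
      Z.map (coeff k) * Polynomial.aeval ((k : Matrix ν ν ℚ) + M) R := by
  induction R using Polynomial.induction_on generalizing Z with
  | C a => ext; simp [Algebra.algebraMap_eq_smul_one]
  | add p q hp hq => rw [map_add, map_add, Matrix.mul_add, ← hp, ← hq]; ext; simp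
  | monomial n a h =>
    rw [pow_succ, ← mul_assoc, map_mul, map_mul (Polynomial.aeval _) _ Polynomial.X,
      Module.End.mul_apply, h, Polynomial.aeval_X, Polynomial.aeval_X, cf_Th, Matrix.mul_assoc]
    have := congrArg (Polynomial.aeval ((k : Matrix ν ν ℚ) + M))
      (mul_comm Polynomial.X (Polynomial.C a * Polynomial.X ^ n))
    rw [map_mul, map_mul _ _ Polynomial.X, Polynomial.aeval_X] at this
    rw [this]

open scoped Matrix.Norms.Operator in
theorem exists_formal {T : Polynomial ℚ} {B : Matrix ν ν (Polynomial ℚ)} {M : Matrix ν ν ℚ}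
    (T0 : T.coeff 0 ≠ 0) (hB : B.map (·.coeff 0) = T.coeff 0 • M) (hM : IsNilpotent M) :
    ∃ (Y : Matrix ν ν ℚ⟦X⟧) (a : ℝ), Y.map (coeff 0) = 1 ∧ τ1 0 T • Th M Y = B.map (τ1 0) * Y ∧
      ∀ i j k, |((coeff k (Y i j) : ℚ) : ℝ)| ≤ a ^ (k + 1) := by
  let φ : Module.End ℚ (Matrix ν ν ℚ) := LinearMap.mulLeft ℚ M - LinearMap.mulRight ℚ M
  obtain ⟨N, hN⟩ : IsNilpotent φ := (LinearMap.commute_mulLeft_right M M).isNilpotent_sub
    ((LinearMap.isNilpotent_mulLeft_iff _ _).2 hM) ((LinearMap.isNilpotent_mulRight_iff _ _).2 hM)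
  have h1 : ∀ r W, ‖(φ ^ r) W‖ ≤ (2 * ‖M‖) ^ r * ‖W‖ := fun r W => by
    induction r with
    | zero => simp
    | succ r ih =>
      rw [pow_succ', Module.End.mul_apply, pow_succ', mul_assoc]
      refine (norm_sub_le _ _).trans ((add_le_add (norm_mul_le _ _) (norm_mul_le _ _)).trans ?_)
      nlinarith [norm_nonneg M]
  have h2 : ∀ (k : ℕ) W, ∃ V, k ≠ 0 → V * ((k : Matrix ν ν ℚ) + M) - M * V = W ∧
      k * ‖V‖ ≤ (∑ r ∈ range N, (2 * ‖M‖) ^ r) * ‖W‖ := fun k W => by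
    refine ⟨∑ r ∈ range N, ((k : ℚ)⁻¹) ^ (r + 1) • (φ ^ r) W, fun k0 => ⟨?_, ?_⟩⟩
    · have k1 : (k : ℚ) ≠ 0 := by exact_mod_cast k0
      have := sum_range_sub' (fun r => ((k : ℚ)⁻¹) ^ r • (φ ^ r) W) N
      simp only [hN, pow_zero, one_smul, Module.End.one_apply, LinearMap.zero_apply, smul_zero,
        sub_zero] at this
      refine Eq.trans ?_ this
      rw [Finset.sum_mul, Finset.mul_sum, ← sum_sub_distrib]
      refine sum_congr rfl fun r _ => ?_
      rw [Matrix.mul_add, ← nsmul_eq_mul', ← Nat.cast_smul_eq_nsmul ℚ, smul_smul, pow_succ' φ,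
        Module.End.mul_apply, pow_succ', mul_inv_cancel_left₀ k1]
      generalize (φ ^ r) W = V
      simp only [φ, smul_sub, LinearMap.sub_apply, LinearMap.mulLeft_apply,
        LinearMap.mulRight_apply, smul_mul_assoc, mul_smul_comm]
      abel
    · have k1 : (1 : ℝ) ≤ k := by exact_mod_cast Nat.pos_of_ne_zero k0
      rw [Finset.sum_mul]
      refine (mul_le_mul_of_nonneg_left (norm_sum_le _ _) (by positivity)).trans ?_
      rw [Finset.mul_sum]
      refine sum_le_sum fun r _ => ?_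
      rw [norm_smul, norm_pow, norm_inv, ← Rat.norm_cast_real, Rat.cast_natCast, Real.norm_natCast,
        ← mul_assoc, pow_succ', mul_inv_cancel_left₀ (by linarith)]
      exact (mul_le_of_le_one_left (norm_nonneg _)
        (pow_le_one₀ (by positivity) (inv_le_one_of_one_le₀ k1))).trans (h1 r W)
  choose g hg using h2
  let F : ℕ → ℕ → Matrix ν ν ℚ → Matrix ν ν ℚ := fun k b W =>
    B.map (·.coeff (k - b)) * W - T.coeff (k - b) • (W * ((b : Matrix ν ν ℚ) + M))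
  obtain ⟨y, hy⟩ : ∃ y : ℕ → Matrix ν ν ℚ, ∀ k, y k =
      if k = 0 then 1 else g k ((T.coeff 0)⁻¹ • ∑ b : Fin k, F k b (y b)) :=
    ⟨fun k => Nat.strongRec (fun k ih => if k = 0 then 1 else
      g k ((T.coeff 0)⁻¹ • ∑ b : Fin k, F k b (ih b b.2))) k, fun k => Nat.strongRec_eq _ _⟩
  replace hy : ∀ k, y k = if k = 0 then 1 else
      g k ((T.coeff 0)⁻¹ • ∑ b ∈ range k, F k b (y b)) := fun k => by
    rw [hy, Fin.sum_univ_eq_sum_range fun b => F k b (y b)]
  have y0 : y 0 = 1 := by rw [hy, if_pos rfl]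
  obtain ⟨d, d1, d2⟩ := exists_deg T B
  obtain ⟨s, hs⟩ : ∃ s : ℝ, ∀ j, ‖B.map (·.coeff j)‖ + ‖T.coeff j‖ * (‖(1 : Matrix ν ν ℚ)‖ + ‖M‖)
      ≤ s := by
    refine ⟨∑ j ∈ range (d + 1), _, fun j => (le_or_gt j d).elim (fun h => single_le_sum
      (f := fun j => ‖B.map (·.coeff j)‖ + ‖T.coeff j‖ * (‖(1 : Matrix ν ν ℚ)‖ + ‖M‖))
      (fun _ _ => by positivity) (mem_range.2 (by omega))) fun h => ?_⟩
    rw [show B.map (·.coeff j) = 0 from Matrix.ext fun a b =>
      Polynomial.coeff_eq_zero_of_natDegree_lt ((d2 a b).trans_lt h),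
      Polynomial.coeff_eq_zero_of_natDegree_lt (d1.trans_lt h)]
    simp only [norm_zero, zero_mul, add_zero]
    positivity
  obtain ⟨u, hu⟩ : ∃ u : ℝ, u = (∑ r ∈ range N, (2 * ‖M‖) ^ r) * (‖(T.coeff 0)⁻¹‖ * s) := ⟨_, rfl⟩
  have s0 : 0 ≤ s := le_trans (by positivity) (hs 0)
  have u0 : 0 ≤ u := by rw [hu]; positivity
  have h3 : ∀ k, ‖y k‖ ≤ ‖y 0‖ * (1 + u) ^ k := fun k => by
    induction k using Nat.strong_induction_on with
    | h k ih =>
    rcases eq_or_ne k 0 with rfl | k0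
    · simp
    have k1 : (1 : ℝ) ≤ k := by exact_mod_cast Nat.pos_of_ne_zero k0
    have b1 : ∀ b ∈ range k, ‖F k b (y b)‖ ≤ k * s * (‖y 0‖ * (1 + u) ^ b) := fun b hb => by
      have c1 : ‖(b : Matrix ν ν ℚ) + M‖ ≤ k * (‖(1 : Matrix ν ν ℚ)‖ + ‖M‖) := by
        have : (b : ℝ) ≤ k := by exact_mod_cast (mem_range.1 hb).le
        refine (norm_add_le _ _).trans ((add_le_add (Nat.norm_cast_le _) le_rfl).trans ?_)
        nlinarith [norm_nonneg M, norm_nonneg (1 : Matrix ν ν ℚ)]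
      refine (norm_sub_le _ _).trans ((add_le_add (norm_mul_le _ _) ((norm_smul_le _ _).trans
        (mul_le_mul_of_nonneg_left ((norm_mul_le _ _).trans (mul_le_mul_of_nonneg_left c1
          (norm_nonneg _))) (norm_nonneg _)))).trans (le_trans ?_ (mul_le_mul (mul_le_mul_of_nonneg_left
            (hs (k - b)) (by positivity)) (ih b (mem_range.1 hb)) (norm_nonneg _) (by positivity))))
      nlinarith [mul_nonneg (norm_nonneg (B.map (·.coeff (k - b)))) (norm_nonneg (y b))]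
    have b2 := (hg k ((T.coeff 0)⁻¹ • ∑ b ∈ range k, F k b (y b)) k0).2
    rw [← if_neg k0 (t := 1) (e := g k _), ← hy] at b2
    refine le_of_mul_le_mul_left (b2.trans ((mul_le_mul_of_nonneg_left ((norm_smul_le _ _).trans
      (mul_le_mul_of_nonneg_left ((norm_sum_le _ _).trans (sum_le_sum b1)) (norm_nonneg _)))
      (by positivity)).trans ?_)) (by linarith)
    have b3 := mul_geom_sum (1 + u) k
    rw [add_sub_cancel_left] at b3
    rw [← Finset.mul_sum, ← Finset.mul_sum, show ∀ a b c : ℝ, a * (b * (k * s * (‖y 0‖ * c))) =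
      k * (‖y 0‖ * (a * (b * s) * c)) by intros; ring, ← hu, b3]
    gcongr
    linarith
  refine ⟨of fun i j => PowerSeries.mk fun k => y k i j, ‖y 0‖ + 1 + u, by ext; simp [y0], ?_,
    fun i j k => ?_⟩
  · have e : ∀ k, (of fun i j => PowerSeries.mk fun k => y k i j).map (coeff k) = y k :=
      fun k => by ext; simp
    have e2 : ∀ k (Z : Matrix ν ν ℚ⟦X⟧), (τ1 0 T • Z).map (coeff k) =
        ∑ b ∈ range (k + 1), T.coeff (k - b) • Z.map (coeff b) := fun k Z => by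
      rw [← Matrix.one_mul Z, ← smul_mul_assoc, cf_mul, Matrix.one_mul]
      refine sum_congr rfl fun b _ => ?_
      rw [← Matrix.one_mul (Z.map (coeff b)), ← smul_mul_assoc, Matrix.one_mul]
      congr 1
      ext i j
      by_cases h : i = j <;> simp [one_apply, h, τ1_zero]
    have e3 : ∀ k, (B.map (τ1 0)).map (coeff k) = B.map (·.coeff k) := fun k => by
      ext; simp [τ1_zero]
    suffices ∀ k, (τ1 0 T • Th M (of fun i j => PowerSeries.mk fun k => y k i j)).map (coeff k) =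
      (B.map (τ1 0) * of fun i j => PowerSeries.mk fun k => y k i j).map (coeff k) from
        Matrix.ext fun i j => PowerSeries.ext fun k => congrFun₂ (this k) i j
    intro k
    simp only [e2, cf_mul, cf_Th, e, e3, sum_range_succ, tsub_self, hB]
    rcases eq_or_ne k 0 with rfl | k0
    · simp [y0]
    have b2 := congrArg (T.coeff 0 • ·) (hg k ((T.coeff 0)⁻¹ • ∑ b ∈ range k, F k b (y b)) k0).1
    rw [← if_neg k0 (t := 1) (e := g k _), ← hy] at b2
    simp only [smul_inv_smul₀ T0, F, sum_sub_distrib, smul_sub] at b2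
    rw [smul_mul_assoc]
    linear_combination (norm := abel) b2
  · have : ‖y k i j‖₊ ≤ ‖y k‖₊ := by
      rw [linfty_opNNNorm_def]
      exact (single_le_sum (f := fun j => ‖y k i j‖₊) (fun _ _ => zero_le) (mem_univ j)).trans
        (le_sup (f := fun i => ∑ j, ‖y k i j‖₊) (mem_univ i))
    rw [of_apply, coeff_mk, ← Real.norm_eq_abs, Rat.norm_cast_real, pow_succ']
    refine (NNReal.coe_le_coe.2 this).trans ((h3 k).trans ?_)
    gcongr <;> linarith [norm_nonneg (y 0)]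

/-- series with `c^j a_j` integral -/
def Dn (c : ℤ) : Subring ℚ⟦X⟧ where
  carrier := {F | ∀ j, ∃ z : ℤ, (c : ℚ) ^ j * coeff j F = z}
  add_mem' h h' j := let ⟨a, ha⟩ := h j; let ⟨b, hb⟩ := h' j
    ⟨a + b, by rw [map_add, mul_add, ha, hb, Int.cast_add]⟩
  mul_mem' h h' j := by
    choose a ha using h
    choose b hb using h'
    refine ⟨∑ p ∈ antidiagonal j, a p.1 * b p.2, ?_⟩
    rw [coeff_mul, mul_sum, Int.cast_sum]
    exact sum_congr rfl fun p hp => by
      rw [Int.cast_mul, ← ha, ← hb, ← mem_antidiagonal.1 hp, pow_add]; ring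
  one_mem' j := ⟨if j = 0 then 1 else 0, by by_cases e : j = 0 <;> simp [coeff_one, e]⟩
  zero_mem' _ := ⟨0, by simp⟩
  neg_mem' h j := let ⟨a, ha⟩ := h j; ⟨-a, by rw [map_neg, mul_neg, ha, Int.cast_neg]⟩

theorem exists_den1 (T : Polynomial ℚ) : ∃ a : ℕ, 0 < a ∧ ∀ l, ∃ z : ℤ, (a : ℚ) * T.coeff l = z := by
  refine ⟨∏ l ∈ T.support, (T.coeff l).den, by positivity, fun l => ?_⟩
  by_cases h : l ∈ T.support
  · exact ⟨(∏ l ∈ T.support.erase l, (T.coeff l).den : ℕ) * (T.coeff l).num, by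
      rw [← prod_erase_mul _ _ h, Nat.cast_mul, mul_assoc]; simp⟩
  · exact ⟨0, by simp [Polynomial.notMem_support_iff.1 h]⟩

theorem exists_inv {T : Polynomial ℚ} (T0 : T.coeff 0 ≠ 0) :
    ∃ (c : ℤ) (u : ℚ⟦X⟧), c ≠ 0 ∧ u * τ1 0 T = 1 ∧ (c : ℚ⟦X⟧) * u ∈ Dn c := by
  obtain ⟨a, a0, ha⟩ := exists_den1 T
  choose z hz using ha
  have h1 : (τ1 0 T)⁻¹ * τ1 0 T = 1 := PowerSeries.inv_mul_cancel _ (by simpa [τ1_zero] using T0)
  refine ⟨z 0, _, fun e => T0 (by simpa [e, a0.ne'] using hz 0), h1, fun j => ?_⟩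
  induction j using Nat.strong_induction_on with
  | h j ih =>
  choose! y hy using ih
  have h2 := congrArg (fun F => (a : ℚ) * (z 0 : ℚ) ^ j * coeff j F) h1
  simp only [← map_intCast (C : ℚ →+* ℚ⟦X⟧), coeff_C_mul, τ1_zero] at hy ⊢
  simp only [coeff_mul, Nat.sum_antidiagonal_eq_sum_range_succ_mk, sum_range_succ, tsub_self,
    τ1_zero, Polynomial.coeff_coe, mul_add, mul_sum] at h2
  refine ⟨(if j = 0 then a else 0) - ∑ i ∈ range j, z (j - i) * z 0 ^ (j - i - 1) * y i, ?_⟩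
  push_cast
  rw [sum_congr rfl (g := fun i => (z (j - i) : ℚ) * z 0 ^ (j - i - 1) * y i) fun i hi => by
    obtain ⟨m, rfl⟩ := Nat.exists_eq_add_of_lt (mem_range.1 hi)
    rw [← hy i (mem_range.1 hi), ← hz (i + m + 1 - i), show i + m + 1 - i - 1 = m by omega]
    ring, show (a : ℚ) * (z 0 : ℚ) ^ j * coeff j (1 : ℚ⟦X⟧) = if j = 0 then (a : ℚ) else 0 by
      by_cases e : j = 0 <;> simp [coeff_one, e]] at h2
  rw [← h2, ← hz 0]
  ring

theorem aeval_nil {M : Matrix ν ν ℚ} {N : ℕ} (hN : M ^ N = 0) {p : Polynomial ℚ} {b : ℕ}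
    (h : p.eval (b : ℚ) = 0) : Polynomial.aeval ((b : Matrix ν ν ℚ) + M) p ^ N = 0 := by
  obtain ⟨q, rfl⟩ := Polynomial.dvd_iff_isRoot.2 h
  rw [← map_pow, mul_pow, map_mul, map_pow, map_sub, Polynomial.aeval_X, Polynomial.aeval_C,
    map_natCast, add_sub_cancel_left, hN, Matrix.zero_mul]

theorem formal_gf {T : Polynomial ℚ} {B : Matrix ν ν (Polynomial ℚ)} {M : Matrix ν ν ℚ}
    (T0 : T.coeff 0 ≠ 0) (hM : IsNilpotent M) (h : GalK (Polynomial.X * T) B)
    {Y : Matrix ν ν ℚ⟦X⟧} {a : ℝ} (Y0 : Y.map (coeff 0) = 1)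
    (hY : τ1 0 T • Th M Y = B.map (τ1 0) * Y)
    (ha : ∀ i j k, |((coeff k (Y i j) : ℚ) : ℝ)| ≤ a ^ (k + 1)) :
    ∃ a, GF a fun p : ν × ν => Y p.1 p.2 := by
  obtain ⟨N, hN⟩ := hM
  replace hN := pow_eq_zero_of_le N.le_succ hN
  obtain ⟨C0, hC⟩ := h
  obtain ⟨c, u, c0, hu, hc⟩ := exists_inv T0
  have h1 := iter_theta ((X : ℚ⟦X⟧) • d⁄dX ℚ) (τ1 0) (fun p => by
    simp [τ1_zero, derivative_coe]) (Th M) (Th_mul M) hY
  have key : ∀ j : ℕ, ∃ l : ℕ → ℤ, Y.map (coeff j) = (∑ k ∈ range (j * (N + 1) * (N + 1) + 1),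
      ((l k : ℚ) / k.factorial) • u ^ k • (iterK (Polynomial.X * T) B k).map (τ1 0)).map
        (coeff j) := fun j => by
    obtain ⟨l, hl⟩ := newton (R := 1 - (1 - bp j ^ (N + 1)) ^ (N + 1)) (N := j * (N + 1) * (N + 1))
      (by
        have := bp_deg j
        compute_degree
        nlinarith [Nat.mul_le_mul_left ((N + 1) * (N + 1)) this])
      fun i => ⟨1 - (1 - i.choose j ^ (N + 1)) ^ (N + 1), by simp [bp_nat]⟩
    refine ⟨l, ?_⟩
    generalize hΦ : (∑ k ∈ range (j * (N + 1) * (N + 1) + 1), ((l k : ℚ) / k.factorial) • u ^ k •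
      (iterK (Polynomial.X * T) B k).map (τ1 0)) = Φ
    have b1 : Φ * Y = Polynomial.aeval (Th M) (1 - (1 - bp j ^ (N + 1)) ^ (N + 1)) Y := by
      rw [hl, ← hΦ, Finset.sum_mul, map_sum, LinearMap.sum_apply]
      refine sum_congr rfl fun k _ => ?_
      rw [smul_mul_assoc, smul_mul_assoc, ← h1, smul_smul (u ^ k), ← mul_pow, hu, one_pow, one_smul,
        bp, smul_smul, map_smul, LinearMap.smul_apply, div_eq_mul_inv]
    have b2 : ∀ b < j, (Φ * Y).map (coeff b) = 0 := fun b hb => by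
      rw [b1, cf_aeval]
      simp [aeval_nil hN ((bp_nat j b).trans (by simp [Nat.choose_eq_zero_of_lt hb]))]
    have b3 : ∀ b, (∀ i < b, Φ.map (coeff i) = 0) → (Φ * Y).map (coeff b) = Φ.map (coeff b) :=
      fun b hb => by
        rw [cf_mul, sum_range_succ', Y0, sum_eq_zero fun i hi => by
          rw [hb _ (by have := mem_range.1 hi; omega), Matrix.zero_mul]]
        simp
    have b4 : ∀ b < j, Φ.map (coeff b) = 0 := fun b => by
      induction b using Nat.strong_induction_on with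
      | h b ih => exact fun hb => (b3 b fun i hi => ih i hi (hi.trans hb)).symm.trans (b2 b hb)
    rw [← b3 j b4, b1, cf_aeval, map_sub, map_pow, aeval_nil hN (by simp [bp_nat])]
    simp
  obtain ⟨A, hA⟩ := exists_nat_ge (|a| + (max |C0| 1 * c.natAbs) ^ ((N + 1) * (N + 1) + 1))
  have c1 : (1 : ℝ) ≤ c.natAbs := by exact_mod_cast Int.natAbs_pos.2 c0
  refine ⟨A, fun k => ⟨fun p => (ha _ _ _).trans ((le_abs_self _).trans ?_), ?_⟩⟩
  · rw [abs_pow]
    gcongr
    exact le_trans (le_add_of_nonneg_right (by positivity)) hA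
  obtain ⟨d, d0, d1, d2⟩ := hC (k * (N + 1) * (N + 1))
  refine ⟨d * c.natAbs ^ (k * (N + 1) * (N + 1) + k), by have := Int.natAbs_pos.2 c0; positivity,
    ?_, fun p j hj => ?_⟩
  · have e1 : (d : ℝ) ≤ max |C0| 1 ^ (((N + 1) * (N + 1) + 1) * (k + 1)) :=
      d1.trans ((le_abs_self _).trans ((abs_pow _ _).trans_le ((pow_le_pow_left₀ (abs_nonneg _)
        (le_max_left _ _) _).trans (pow_le_pow_right₀ (le_max_right _ _) (by nlinarith)))))
    have e2 := mul_le_mul e1 (pow_le_pow_right₀ c1 (show k * (N + 1) * (N + 1) + k ≤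
      ((N + 1) * (N + 1) + 1) * (k + 1) by nlinarith)) (by positivity) (by positivity)
    rw [← mul_pow, pow_mul] at e2
    exact_mod_cast e2.trans (pow_le_pow_left₀ (by positivity)
      (le_trans (le_add_of_nonneg_left (abs_nonneg _)) hA) _)
  obtain ⟨l, hl⟩ := key j
  have hjk : j * (N + 1) * (N + 1) ≤ k * (N + 1) * (N + 1) := by gcongr
  obtain ⟨z, hz⟩ := (show ((d * (c : ℚ) ^ (k * (N + 1) * (N + 1))) •
      ∑ m ∈ range (j * (N + 1) * (N + 1) + 1), ((l m : ℚ) / m.factorial) • u ^ m •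
        (iterK (Polynomial.X * T) B m).map (τ1 0)) p.1 p.2 ∈ Dn c by
    rw [smul_sum, Matrix.sum_apply]
    refine sum_mem fun m hm => ?_
    have m1 := (Nat.le_of_lt_succ (mem_range.1 hm)).trans hjk
    have : ((d : ℚ) / m.factorial) • τ1 0 (iterK (Polynomial.X * T) B m p.1 p.2) ∈ Dn c := fun i => by
      obtain ⟨y, hy⟩ := IsIntegrallyClosed.isIntegral_iff.1 (d2 m m1 p.1 p.2 i)
      refine ⟨c ^ i * y, ?_⟩
      rw [Int.cast_mul, ← eq_intCast (algebraMap ℤ ℚ) y, hy]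
      simp [τ1_zero, div_mul_eq_mul_div]
    convert mul_mem (mul_mem (intCast_mem _ (c ^ (k * (N + 1) * (N + 1) - m) * l m))
      (pow_mem hc m)) this using 1
    obtain ⟨r, hr⟩ := Nat.exists_eq_add_of_le m1
    simp only [hr, add_tsub_cancel_left, Matrix.smul_apply, map_apply, smul_eq_mul, smul_eq_C_mul,
      div_eq_mul_inv, map_mul, map_pow, map_intCast, Int.cast_mul, Int.cast_pow]
    ring) j
  obtain ⟨y, hy⟩ : c ^ (k * (N + 1) * (N + 1) + j) ∣ (c.natAbs : ℤ) ^ (k * (N + 1) * (N + 1) + k) :=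
    (pow_dvd_pow c (by omega)).trans (pow_dvd_pow_of_dvd (Int.dvd_natAbs.2 dvd_rfl) _)
  have c2 := congrArg (Int.cast : ℤ → ℚ) hy
  refine ⟨y * z, ?_⟩
  have c3 := congrFun₂ hl p.1 p.2
  simp only [map_apply] at c3
  simp only [Int.cast_pow, Int.cast_natCast, Int.cast_mul] at c2
  push_cast
  rw [c3, ← hz, Matrix.smul_apply, coeff_smul, smul_eq_mul, c2]
  ring

end

end Pool.Agent.Lib.MP_5591bc_ag.R
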