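import Mathlib

/-! Definitions: periods of the genus two curves `y^2 = x^5 - t x`. -/

namespace Pool.Agent.Lib.MP_5591bc_ag

open unitInterval Topology Filter

noncomputable section

/-- The complex points of the curve `y^2 = x^5 - t x` (minus its single point at infinity). -/
abbrev Curve (t : ℂ) : Type := {p : ℂ × ℂ // p.2 ^ 2 = p.1 ^ 5 - t * p.1}

/-- The base point `(0,0)`. -/
def origin (t : ℂ) : Curve t := ⟨(0, 0), by simp⟩

/-- `G` is holomorphic on the open set `N` of `ℂ²` and its restriction to the curve is a primitive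
of `x^k dx / y`: `y dG(v) = x^k dx(v)` for all tangent vectors `v` of the curve. -/
def IsLocalPrimitive (t : ℂ) (k : ℕ) (N : Set (ℂ × ℂ)) (G : ℂ × ℂ → ℂ) : Prop :=
  IsOpen N ∧ DifferentiableOn ℂ G N ∧ ∀ p : Curve t, p.1 ∈ N → ∀ v : ℂ × ℂ,
    2 * p.1.2 * v.2 = (5 * p.1.1 ^ 4 - t) * v.1 → p.1.2 * fderiv ℂ G p.1 v = p.1.1 ^ k * v.1

/-- `c` is the integral of `x^k dx / y` along the continuous path `γ` (primitive along a path). -/
def IsIntegral (t : ℂ) (k : ℕ) {a b : Curve t} (γ : Path a b) (c : ℂ) : Prop :=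
  ∃ F : I → ℂ, (∀ u : I, ∃ N G, IsLocalPrimitive t k N G ∧ (γ u).1 ∈ N ∧
    ∀ᶠ v in 𝓝 u, F v = G (γ v).1) ∧ c = F 1 - F 0

/-- The class of a loop in `H_1(X, ℤ)`, the abelianised fundamental group. -/
def homologyClass {X : Type} [TopologicalSpace X] {a : X} (γ : Path a a) :
    Additive (Abelianization (FundamentalGroup X a)) :=
  Additive.ofMul (Abelianization.of (FundamentalGroup.fromPath (Path.Homotopic.Quotient.mk γ)))

/-- Four elements form a `ℤ`-basis of an abelian group. -/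
def IsIntBasis {A : Type} [AddCommGroup A] (v : Fin 4 → A) : Prop :=
  LinearIndependent ℤ v ∧ Submodule.span ℤ (Set.range v) = ⊤

/-- Four loops form a `ℤ`-basis of `H_1(X, ℤ)`. -/
def IsHomologyBasis {X : Type} [TopologicalSpace X] {a : X} (γ : Fin 4 → Path a a) : Prop :=
  IsIntBasis fun j => homologyClass (γ j)

/-- `Γ` is a continuous family over the connected open set `U ⊆ ℂ ∖ {0}` of four loops, which form
a `ℤ`-basis of `H_1` at `s`, and `P t` is the matrix of periods of `x^k dx / y`, `k = 0,..,3`. -/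
def IsPeriodMatrix (U : Set ℂ) (s : U) (Γ : Fin 4 → (t : U) → Path (origin t) (origin t))
    (P : U → Matrix (Fin 4) (Fin 4) ℂ) : Prop :=
  IsOpen U ∧ IsConnected U ∧ 0 ∉ U ∧
    (∀ j, Continuous fun q : U × I => (Γ j q.1 q.2).1) ∧
    IsHomologyBasis (fun j => Γ j s) ∧
    ∀ (t : U) (k j : Fin 4), IsIntegral t k (Γ j t) (P t k j)

/-- The smallest closed subvariety defined over `K` containing `A` (its complex points). -/
def zariskiClosure (K : Type) [Field K] [Algebra K ℂ] {ι : Type} (A : Set (ι → ℂ)) :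
    Set (ι → ℂ) :=
  MvPolynomial.zeroLocus ℂ (MvPolynomial.vanishingIdeal K A)

/-- Coordinates of a matrix. -/
def coords (g : Matrix (Fin 4) (Fin 4) ℂ) : Fin 4 × Fin 4 → ℂ := fun a => g a.1 a.2

/-- Coordinates of a point of `S × GL_4`. -/
def coords' (t : ℂ) (g : Matrix (Fin 4) (Fin 4) ℂ) : Option (Fin 4 × Fin 4) → ℂ :=
  fun a => a.elim t (coords g)

/-- The Mumford-Tate group of the weight one Hodge structure on `ℚ^4` whose `H^{1,0}` is spanned by
the first two rows of `M`: the `ℚ`-Zariski closure in `GL_4` of the maps acting by `z` on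
`H^{1,0}` and by the conjugate of `z` on `H^{0,1}`. -/
def mumfordTate (M : Matrix (Fin 4) (Fin 4) ℂ) : Set (Matrix (Fin 4) (Fin 4) ℂ) :=
  {g | g.det ≠ 0 ∧ coords g ∈ zariskiClosure ℚ (coords '' {h | ∃ z : ℂ, z ≠ 0 ∧
    ∀ k : Fin 4, k.1 < 2 → h.mulVec (M k) = z • M k ∧
      h.mulVec (star (M k)) = star z • star (M k)})}

end

end Pool.Agent.Lib.MP_5591bc_ag
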