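import Pool.Agent.Lib.MP_5591bc_ag.GGal
import Pool.Agent.Lib.MP_5591bc_ag.GDefs

/-! Periods satisfy the Picard-Fuchs system. -/

namespace Pool.Agent.Lib.MP_5591bc_ag.G

open Filter Topology Polynomial Matrix Set Metric MeasureTheory

noncomputable section

lemma hasDerivAt_sqrt {K : Type*} [NontriviallyNormedField K] [NormedAlgebra K ℂ] {y g : K → ℂ}
    {a : K} {g' : ℂ} (hy : ContinuousAt y a) (h0 : y a ≠ 0) (h : ∀ᶠ x in 𝓝 a, y x ^ 2 = g x)
    (hg : HasDerivAt g g' a) : HasDerivAt y (g' / (2 * y a)) a := by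
  have h1 : Tendsto (fun x => y x + y a) (𝓝[≠] a) (𝓝 (2 * y a)) := by
    rw [two_mul]; exact (hy.tendsto.mono_left nhdsWithin_le_nhds).add_const _
  have h2 : 2 * y a ≠ 0 := mul_ne_zero two_ne_zero h0
  refine hasDerivAt_iff_tendsto_slope.2 ((hg.tendsto_slope.div h1 h2).congr' ?_)
  filter_upwards [h1.eventually_ne h2, h.filter_mono nhdsWithin_le_nhds] with x h3 hx
  rw [Pi.div_apply, div_eq_iff h3, slope, slope, smul_mul_assoc, ← hx, ← h.self_of_nhds,
    vsub_eq_sub, vsub_eq_sub]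
  congr 1
  ring

lemma hasDerivAt_int {V : Set ℂ} {s : ℂ} (hV : V ∈ 𝓝 s) {F F' : ℂ → ℝ → ℂ}
    (hF : ContinuousOn (fun p : ℂ × ℝ => F p.1 p.2) (V ×ˢ Icc 0 1))
    (hF' : ContinuousOn (fun p : ℂ × ℝ => F' p.1 p.2) (V ×ˢ Icc 0 1))
    (hd : ∀ t ∈ interior V, ∀ u ∈ Icc (0 : ℝ) 1, HasDerivAt (F · u) (F' t u) t) :
    HasDerivAt (fun t => ∫ u in (0 : ℝ)..1, F t u) (∫ u in (0 : ℝ)..1, F' s u) s := by
  obtain ⟨r, hr, hb⟩ := nhds_basis_closedBall.mem_iff.1 (interior_mem_nhds.2 hV)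
  have hb' := hb.trans interior_subset
  obtain ⟨C, hC⟩ := ((isCompact_closedBall s r).prod isCompact_Icc).exists_bound_of_continuousOn
    (hF'.mono (prod_mono hb' subset_rfl))
  have hi : ∀ {G : ℂ → ℝ → ℂ}, ContinuousOn (fun p : ℂ × ℝ => G p.1 p.2) (V ×ˢ Icc 0 1) →
      ∀ t ∈ V, IntervalIntegrable (G t) volume 0 1 := fun hG t ht =>
    (hG.comp (f := fun u => (t, u)) (by fun_prop) fun u hu => ⟨ht, hu⟩).intervalIntegrable_of_Icc
      zero_le_one
  have hs := mem_of_mem_nhds hV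
  have hI : Set.uIoc (0 : ℝ) 1 ⊆ Icc 0 1 := by rw [uIoc_of_le zero_le_one]; exact Ioc_subset_Icc_self
  exact (intervalIntegral.hasDerivAt_integral_of_dominated_loc_of_deriv_le (bound := fun _ => C)
    (closedBall_mem_nhds s hr) (mem_of_superset hV fun t ht => (hi hF t ht).def'.1) (hi hF s hs)
    (hi hF' s hs).def'.1 (ae_of_all _ fun u hu t ht => hC (t, u) ⟨ht, hI hu⟩)
    intervalIntegrable_const (ae_of_all _ fun u hu t ht => hd t (hb ht) u (hI hu))).2

lemma sum_fl {f : ℤ[X]} {n : ℕ} (hf : f.natDegree ≤ n) (x t : ℂ) :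
    aeval x f = ∑ l ∈ Finset.range (n + 1), fl f l t * (x - t) ^ l := by
  have h := taylor_eval t (f.map (algebraMap ℤ ℂ)) (x - t)
  rw [sub_add_cancel, eval_map_algebraMap, eval_eq_sum_range' (n := n + 1) (by
    rw [natDegree_taylor]; exact Nat.lt_succ_of_le (natDegree_map_le.trans hf))] at h
  rw [← h]
  refine Finset.sum_congr rfl fun l _ => ?_
  rw [taylor_coeff, fl, ← eval_map_algebraMap]
  congr 2
  ext i
  simp [hasseDeriv_coeff]

/-- the integrand `(x - t)^(m-1) dx / y` -/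
def ig (x : ℝ → ℂ) (y : ℂ → ℝ → ℂ) (m : ℕ) (t : ℂ) (u : ℝ) : ℂ :=
  deriv x u * (x u - t) ^ m / ((x u - t) * y t u)

variable {f : ℚ[X]} {V : Set ℂ} {x : ℝ → ℂ} {y : ℂ → ℝ → ℂ}

lemma IsLoop.ne (h : IsLoop f V x y) {t : ℂ} (ht : t ∈ V) {u : ℝ} (hu : u ∈ Icc (0 : ℝ) 1) :
    x u - t ≠ 0 := fun h0 => by
  obtain ⟨h1, h2⟩ := (h.2.2.2 t ht).2 u hu
  exact pow_ne_zero 2 h1 (by rw [h2, h0, mul_zero])

lemma IsLoop.cont (h : IsLoop f V x y) (m : ℕ) :
    ContinuousOn (fun p : ℂ × ℝ => ig x y m p.1 p.2) (V ×ˢ Icc 0 1) := by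
  have h1 := h.1.continuous
  have h2 := h.1.continuous_deriv le_rfl
  exact ContinuousOn.div (by fun_prop) (ContinuousOn.mul (by fun_prop) h.2.2.1) fun p hp =>
    mul_ne_zero (h.ne hp.1 hp.2) ((h.2.2.2 _ hp.1).2 _ hp.2).1

lemma IsLoop.conty (h : IsLoop f V x y) {t : ℂ} (ht : t ∈ V) : ContinuousOn (y t) (Icc 0 1) :=
  h.2.2.1.comp (f := fun u => (t, u)) (by fun_prop) fun _ hu => ⟨ht, hu⟩

lemma IsLoop.intg (h : IsLoop f V x y) (m : ℕ) {t : ℂ} (ht : t ∈ V) :
    IntervalIntegrable (ig x y m t) volume 0 1 :=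
  ((h.cont m).comp (f := fun u => (t, u)) (by fun_prop)
    fun _ hu => ⟨ht, hu⟩).intervalIntegrable_of_Icc zero_le_one

lemma IsLoop.deriv_y (h : IsLoop f V x y) {t : ℂ} (ht : t ∈ interior V) {u : ℝ}
    (hu : u ∈ Icc (0 : ℝ) 1) : HasDerivAt (y · u) (-y t u / (2 * (x u - t))) t := by
  have hV' := mem_interior_iff_mem_nhds.1 ht
  obtain ⟨h1, h2⟩ := (h.2.2.2 t (interior_subset ht)).2 u hu
  have h3 := h.ne (interior_subset ht) hu
  refine (hasDerivAt_sqrt (y := (y · u)) ((h.2.2.1.comp (f := fun t => (t, u)) (by fun_prop)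
    fun _ ht => ⟨ht, hu⟩).continuousAt hV') h1 (mem_of_superset hV' fun t ht =>
      ((h.2.2.2 t ht).2 u hu).2) (((hasDerivAt_id t).const_sub _).const_mul _)).congr_deriv ?_
  rw [← div_eq_iff h3] at h2
  rw [← h2]
  field_simp

lemma IsLoop.deriv_ig (h : IsLoop f V x y) {s : ℂ} (hV : V ∈ 𝓝 s) (m : ℕ) :
    HasDerivAt (fun t => ∫ u in (0 : ℝ)..1, ig x y (m + 1) t u)
      ((1 / 2 - m) * ∫ u in (0 : ℝ)..1, ig x y m s u) s := by
  rw [← intervalIntegral.integral_const_mul]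
  refine hasDerivAt_int hV (h.cont _) (F' := fun t u => (1 / 2 - m) * ig x y m t u)
    (continuousOn_const.mul (h.cont _)) fun t ht u hu => ?_
  have h1 := ((h.2.2.2 t (interior_subset ht)).2 u hu).1
  have h3 := h.ne (interior_subset ht) hu
  have h4 : HasDerivAt (fun t => x u - t) (-1) t := (hasDerivAt_id t).const_sub _
  refine (((h4.fun_pow (m + 1)).const_mul _).fun_div (h4.fun_mul (h.deriv_y ht hu))
    (mul_ne_zero h3 h1)).congr_deriv ?_
  rw [ig, add_tsub_cancel_right]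
  push_cast
  field_simp
  ring

lemma IsLoop.exact (h : IsLoop f V x y) {fz : ℤ[X]} {κ : ℂ} (hκ : κ ≠ 0)
    (hf : ∀ z : ℂ, aeval z f = κ * aeval z fz) {n : ℕ} (hn : fz.natDegree ≤ n) {t : ℂ}
    (ht : t ∈ V) : Erel fz n 0 (fun k => ∫ u in (0 : ℝ)..1, ig x y (n - k) t u) t = 0 := by
  have h1 := h.1.continuous
  have h2 := intervalIntegral.integral_eq_sub_of_hasDerivAt_of_le zero_le_one
    (f := fun u => y t u / (x u - t)) (f' := fun u => ∑ l ∈ Finset.range (n + 1),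
      κ / 2 * (((l : ℂ) - 1) * fl fz l t) * ig x y l t u)
    ((h.conty ht).div (by fun_prop) fun u hu => h.ne ht hu) (fun u hu => by
      have hu' := Ioo_subset_Icc_self hu
      have hI := Icc_mem_nhds hu.1 hu.2
      obtain ⟨h3, h4⟩ := (h.2.2.2 t ht).2 u hu'
      have h5 := h.ne ht hu'
      have h6 := ((h.1.differentiable one_ne_zero u).hasDerivAt).sub_const t
      have e : ∀ u ∈ Icc (0 : ℝ) 1, y t u ^ 2 = ∑ l ∈ Finset.range (n + 1),
          κ * fl fz l t * (x u - t) ^ (l + 1) := fun u hu => by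
        rw [((h.2.2.2 t ht).2 u hu).2, hf, sum_fl hn _ t, Finset.mul_sum, Finset.sum_mul]
        exact Finset.sum_congr rfl fun l _ => by ring
      have h7 := hasDerivAt_sqrt ((h.conty ht).continuousAt hI) h3 (mem_of_superset hI e)
        (HasDerivAt.fun_sum fun l _ => (h6.fun_pow (l + 1)).const_mul _)
      refine (h7.fun_div h6 h5).congr_deriv ?_
      have e2 : y t u = y t u ^ 2 / y t u := by field_simp
      rw [congrArg (· * deriv x u) e2, e u hu', Finset.sum_div, Finset.sum_div, Finset.sum_mul,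
        Finset.sum_mul, ← Finset.sum_sub_distrib, Finset.sum_div]
      refine Finset.sum_congr rfl fun l _ => ?_
      rw [ig, add_tsub_cancel_right]
      push_cast
      field_simp
      ring) (by
        simpa only [Finset.sum_fn] using IntervalIntegrable.sum (Finset.range (n + 1))
          fun l _ => (h.intg l ht).const_mul (κ / 2 * (((l : ℂ) - 1) * fl fz l t)))
  rw [← h.2.1, ← (h.2.2.2 t ht).1, sub_self, intervalIntegral.integral_finsetSum
    fun l _ => (h.intg l ht).const_mul _] at h2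
  apply mul_left_cancel₀ (div_ne_zero hκ two_ne_zero)
  rw [mul_zero, ← h2, Erel, Finset.mul_sum]
  refine Finset.sum_congr rfl fun l hl => ?_
  rw [intervalIntegral.integral_const_mul, add_zero,
    Nat.sub_sub_self (Nat.lt_succ_iff.1 (Finset.mem_range.1 hl))]
  push_cast
  ring

/-- change of the de Rham basis -/
def gP (n : ℕ) : Matrix (Fin n) (Fin n) ℚ[X] := of fun k i =>
  X ^ (k : ℕ) * ((-X) ^ (n - (k + 1) - i) * ((n - (k + 1)).choose i : ℚ[X]))

lemma det_gP (n : ℕ) {t : ℂ} (ht : t ≠ 0) : ((gP n).map (aeval t)).det ≠ 0 := fun h => by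
  have h1 := det_permute Fin.revPerm ((gP n).map (aeval t))
  have e : ∀ k : Fin n, n - (n - (k + 1) + 1) = k := fun k => by omega
  rw [h, mul_zero, det_of_isLowerTriangular _ fun i j hij => by
    simp [gP, e, Nat.choose_eq_zero_of_lt (show (i : ℕ) < j from hij)]] at h1
  exact Finset.prod_ne_zero_iff.2 (fun i _ => by simp [gP, e, ht]) h1

lemma IsLoop.gP_mul (h : IsLoop f V x y) {n : ℕ} (k : Fin n) {t : ℂ} (ht : t ∈ V) :
    ∑ i, aeval t (gP n k i) * ∫ u in (0 : ℝ)..1, x u ^ (i : ℕ) * deriv x u / y t u =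
      t ^ (k : ℕ) * ∫ u in (0 : ℝ)..1, ig x y (n - k) t u := by
  have h1 := h.1.continuous
  have h2 := h.1.continuous_deriv le_rfl
  simp only [← intervalIntegral.integral_const_mul]
  rw [← intervalIntegral.integral_finsetSum fun i _ => IntervalIntegrable.const_mul
    (ContinuousOn.intervalIntegrable_of_Icc zero_le_one (ContinuousOn.div₀ (by fun_prop)
      (h.conty ht) fun u hu => ((h.2.2.2 t ht).2 u hu).1)) _]
  refine intervalIntegral.integral_congr fun u hu => ?_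
  rw [uIcc_of_le zero_le_one] at hu
  have h3 := h.ne ht hu
  have e : (x u - t) ^ (n - (k + 1)) = ∑ i : Fin n, x u ^ (i : ℕ) * (-t) ^ (n - (k + 1) - i) *
      (n - (k + 1)).choose i := by
    rw [sub_eq_add_neg, add_pow, Fin.sum_univ_eq_sum_range fun i => x u ^ i *
      (-t) ^ (n - (k + 1) - i) * (n - (k + 1)).choose i]
    refine Finset.sum_subset (Finset.range_subset_range.2 (by omega)) fun i _ hi => ?_
    rw [Nat.choose_eq_zero_of_lt (by simpa using hi), Nat.cast_zero, mul_zero]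
  simp only [ig]
  rw [show n - k = n - (k + 1) + 1 by omega, pow_succ, ← mul_assoc, mul_comm (x u - t),
    mul_div_mul_right _ _ h3, e, Finset.mul_sum, Finset.sum_div, Finset.mul_sum]
  refine Finset.sum_congr rfl fun i _ => ?_
  simp only [gP, of_apply, map_mul, map_pow, map_neg, aeval_X, map_natCast]
  ring

lemma IsPeriodMatrix.msol {n : ℕ} {U : Set ℂ} {P : ℂ → Matrix (Fin n) (Fin n) ℂ}
    (h : IsPeriodMatrix f U P) {fz : ℤ[X]} {κ : ℂ} (hκ : κ ≠ 0)
    (hf : ∀ z : ℂ, aeval z f = κ * aeval z fz) (hn : fz.natDegree ≤ n) {s : ℂ} (hs : s ∈ U)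
    (hT : aeval s (hT fz) ≠ 0) : MSol (hA fz n) (fun t => (gP n).map (aeval t) * P t) s := by
  intro k j
  obtain ⟨V, hV, x, y, hL, hP⟩ := (h s hs).2 j
  have e : ∀ t ∈ V, ∀ k, ((gP n).map (aeval t) * P t) k j =
      t ^ (k : ℕ) * ∫ u in (0 : ℝ)..1, ig x y (n - k) t u := fun t ht k => by
    simp only [mul_apply, map_apply, hP t ht, hL.gP_mul k ht]
  have h1 := hA_mulVec hT (hL.exact hκ hf hn (mem_of_mem_nhds hV)) k
  have h2 := (hasDerivAt_pow k s).fun_mul (hL.deriv_ig hV (n - (k + 1)))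
  rw [show n - (k + 1) + 1 = n - k by omega, Nat.cast_sub k.2] at h2
  refine (h2.congr_of_eventuallyEq (mem_of_superset hV fun t ht => e t ht k)).congr_deriv ?_
  rw [mul_apply]
  simp only [e s (mem_of_mem_nhds hV)]
  refine Eq.trans ?_ h1.symm
  push_cast
  ring

lemma IsPeriodMatrix.hol {n : ℕ} {U : Set ℂ} {P : ℂ → Matrix (Fin n) (Fin n) ℂ}
    (h : IsPeriodMatrix f U P) : Hol U P := fun i j s hs => by
  obtain ⟨V, hV, x, y, hL, hP⟩ := (h s hs).2 j
  have h1 := hL.1.continuous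
  have h2 := hL.1.continuous_deriv le_rfl
  refine ((hasDerivAt_int hV (F' := fun t u => x u ^ (i : ℕ) / 2 * ig x y 0 t u)
    (ContinuousOn.div₀ (by fun_prop) hL.2.2.1 fun p hp => ((hL.2.2.2 _ hp.1).2 _ hp.2).1)
    (ContinuousOn.mul (by fun_prop) (hL.cont 0)) fun t ht u hu => ?_).congr_of_eventuallyEq
      (mem_of_superset hV fun t ht => hP t ht i)).differentiableAt.differentiableWithinAt
  have h3 := ((hL.2.2.2 t (interior_subset ht)).2 u hu).1
  have h4 := hL.ne (interior_subset ht) hu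
  refine ((hasDerivAt_const t _).fun_div (hL.deriv_y ht hu) h3).congr_deriv ?_
  rw [ig]
  field_simp
  ring

end

end Pool.Agent.Lib.MP_5591bc_ag.G
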