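import Pool.Agent.Lib.MP_5591bc_ag.J.Fin

namespace Pool.Agent.Lib.MP_5591bc_ag.FewExceptionsOld

open MvPolynomial Pool.Agent.Lib.MP_5591bc_ag.M Pool.Agent.Lib.MP_5591bc_ag.N
  Pool.Agent.Lib.MP_5591bc_ag.Z Pool.Agent.Lib.MP_5591bc_ag.J

/-- Fundamental matrices of a system `T ∂_l P = B l * P` in `k` variables over a number field,
satisfying Galochkin's condition; `P * C1` parametrises a variety finite over the space of the
variables, `C0` projects on one sheet and `P * C0` is the matrix of periods. Among the points of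
height at most `H` through which the monodromy drops on no algebraic curve, at most
`(C (δ+r+1) d log H)^(C (δ+1)^(k n^2))` fail the degree `δ` property over a field of degree at most `d`. -/
theorem result (K : Type) [Field K] [NumberField K] [Algebra K ℂ] (k n : ℕ)
    (T : MvPolynomial (Fin k) K) (hT : T ≠ 0)
    (B : Fin k → Matrix (Fin n) (Fin n) (MvPolynomial (Fin k) K)) (h : GalM T B) :
    ∃ C : ℕ, ∀ (δ r : ℕ) (U : Set (Fin k → ℂ)) (P : (Fin k → ℂ) → Matrix (Fin n) (Fin n) ℂ)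
      (C1 C0 : Matrix (Fin n) (Fin n) ℂ), IsOpen U → IsPreconnected U → FundM T B U P →
      (ConnRM U P fun t => P t * C1) → Proj T U P C1 C0 → FinMon K U P C1 C0 r →
      ∀ (d : ℕ) (H : ℝ), 2 ≤ H → ∀ S : Finset (Fin k → ℂ), (∀ t ∈ S, aeval t T ≠ 0 ∧
        (∀ j, ∃ q : Polynomial ℤ, q ≠ 0 ∧ (∀ i, |(q.coeff i : ℝ)| ≤ H) ∧
          Polynomial.aeval (t j) q = 0) ∧
        ∃ U' P', ContM U P U' P' ∧ t ∈ U' ∧ FullP P' C1 C0 t ∧
          ∃ (E : IntermediateField K ℂ) (x : Fin k → E) (z : Matrix (Fin n) (Fin n) E),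
            (∀ j, (x j : ℂ) = t j) ∧ (∀ i j, (z i j : ℂ) = (P' t * C1) i j) ∧
            FiniteDimensional ℚ E ∧ Module.finrank ℚ E ≤ d ∧ ¬ GoodRM U' P' C1 C0 δ x z) →
        (S.card : ℝ) ≤ (C * (δ + r + 1) * d * Real.log H) ^ (C * (δ + 1) ^ (k * n ^ 2)) := by
  simpa only [Fintype.card_fin] using cntR hT h

end Pool.Agent.Lib.MP_5591bc_ag.FewExceptionsOld
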