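import Pool.Agent.Lib.MP_5591bc_ag.K.Fin

namespace Pool.Agent.Lib.MP_5591bc_ag.FewExceptionsOld2

open MvPolynomial Pool.Agent.Lib.MP_5591bc_ag.M Pool.Agent.Lib.MP_5591bc_ag.N
  Pool.Agent.Lib.MP_5591bc_ag.J Pool.Agent.Lib.MP_5591bc_ag.B Pool.Agent.Lib.MP_5591bc_ag.K

/-- Fundamental matrices of a system `T ∂_l P = B l * P` in `k` variables over a number field,
satisfying Galochkin's condition; `(t, P * C1)` parametrises a variety finite over the space of
the variables, and the top left block of `P` is the period matrix of a polarised variation of Hodge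
structure on it. A set of points of height at most `H` and degree at most `d`, whose
Mumford-Tate group contains the monodromy group, which fail the degree `δ` property, and none of
which is joined to another one inside a weakly special locus, has at most
`(C (δ+r+1) d log H)^(C (δ+1)^(k n^2))` elements. -/
theorem result (K : Type) [Field K] [NumberField K] [Algebra K ℂ] (k n : ℕ)
    (T : MvPolynomial (Fin k) K) (hT : T ≠ 0)
    (B : Fin k → Matrix (Fin n) (Fin n) (MvPolynomial (Fin k) K)) (h : GalM T B) :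
    ∃ C : ℕ, ∀ (δ r m j : ℕ) (hm : m ≤ n) (w : Fin m → ℕ) (J : Matrix (Fin m) (Fin m) ℝ)
      (U : Set (Fin k → ℂ)) (P : (Fin k → ℂ) → Matrix (Fin n) (Fin n) ℂ)
      (C1 C0 : Matrix (Fin n) (Fin n) ℂ),
      (C0 = Matrix.diagonal fun i : Fin n => if (i : ℕ) < m then 1 else 0) →
      IsOpen U → IsPreconnected U → FundM T B U P → (ConnRM U P fun t => P t * C1) →
      Proj T U P C1 C0 → VHS T U P C1 (Fin.castLE hm) J j w r →
      ∀ (d : ℕ) (H : ℝ), 2 ≤ H → ∀ S : Finset ((Fin k → ℂ) × Matrix (Fin n) (Fin n) ℂ),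
        (∀ s ∈ S, aeval s.1 T ≠ 0 ∧
          (∀ l, ∃ q : Polynomial ℤ, q ≠ 0 ∧ (∀ i, |(q.coeff i : ℝ)| ≤ H) ∧
            Polynomial.aeval (s.1 l) q = 0) ∧
          ∃ U' P', ContM U P U' P' ∧ s.1 ∈ U' ∧ P' s.1 * C1 = s.2 ∧
            Mf P' C1 (Fin.castLE hm) s.1 ⊆
              MTH j w ((P' s.1).submatrix (Fin.castLE hm) (Fin.castLE hm)) ∧
            (∀ s' ∈ S, WS T U P C1 (Fin.castLE hm) j w P' s.1 s' → s' = s) ∧
            ∃ (E : IntermediateField K ℂ) (x : Fin k → E) (z : Matrix (Fin n) (Fin n) E),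
              (∀ l, (x l : ℂ) = s.1 l) ∧ (∀ a b, (z a b : ℂ) = s.2 a b) ∧
              FiniteDimensional ℚ E ∧ Module.finrank ℚ E ≤ d ∧ ¬ GoodRM U' P' C1 C0 δ x z) →
        (S.card : ℝ) ≤ (C * (δ + r + 1) * d * Real.log H) ^ (C * (δ + 1) ^ (k * n ^ 2)) := by
  simpa only [Fintype.card_fin] using cntW hT h

end Pool.Agent.Lib.MP_5591bc_ag.FewExceptionsOld2
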