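import Pool.Agent.Lib.MP_5591bc_ag.GBlk

/-! Among sufficiently many well spaced points of a short window one has no exceptional relation. -/

namespace Pool.Agent.Lib.MP_5591bc_ag.G

open Filter Topology Metric Polynomial Matrix

noncomputable section

lemma det_mul_expand {n α : Type*} [Fintype n] [DecidableEq n] [Fintype α] (L : Matrix n α ℂ)
    (H : Matrix α n ℂ) : (L * H).det = ∑ J : n → α, (∏ o, H (J o) o) * (L.submatrix id J).det := by
  simp only [det_apply', mul_apply, Finset.prod_univ_sum, Finset.mul_sum, Fintype.piFinset_univ]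
  rw [Finset.sum_comm]
  refine Finset.sum_congr rfl fun J _ => Finset.sum_congr rfl fun σ _ => ?_
  simp only [submatrix_apply, id, Finset.prod_mul_distrib]
  ring

lemma ext_sol {ι κ : Type*} [Fintype ι] [DecidableEq ι] {G D : Set ℂ} (hG : Convex ℝ G)
    (oG : IsOpen G) (hD : Convex ℝ D) (oD : IsOpen D) {p s0 : ℂ} (pG : p ∈ G) (pD : p ∈ D)
    (h0 : s0 ∈ G) {A : ℂ → Matrix ι ι ℂ} (hA : Hol (G ∪ D) A) {c : ℝ}
    (hb : ∀ t ∈ G ∪ D, ∀ i j, ‖A t i j‖ ≤ c) (hc : 0 ≤ c) (M : Matrix ι κ ℂ) :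
    ∃ Ψ : ℂ → Matrix ι κ ℂ, Hol (G ∪ D) Ψ ∧ Ψ s0 = M ∧ ∀ s ∈ G, MSol A Ψ s := by
  obtain ⟨W, W0, hW⟩ := exists_msol hG oG h0 (hA.mono Set.subset_union_left)
    (fun t ht => hb t (Or.inl ht)) hc
  obtain ⟨Ψ, h1, h2⟩ := glue hG oG hD oD pG pD (hA.mono Set.subset_union_right)
    (fun t ht => hb t (Or.inr ht)) hc (Φ := fun s => W s * M) fun t ht => (hW t ht).1.mul_const M
  exact ⟨Ψ, h2, by rw [h1 h0]; simp [W0], fun s hs =>
    ((hW s hs).1.mul_const M).congr (h1.eventuallyEq_of_mem (oG.mem_nhds hs))⟩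

variable {ν : Type*} [Fintype ν] [DecidableEq ν]

/-- entries of a matrix -/
def ent (M : Matrix ν ν ℂ) : ν × ν → ℂ := fun x => M x.1 x.2

/-- the matrix of `(ε', X) ↦ (ε ε', Y X)` -/
def ex (ε : ℂ) (Y : Matrix ν ν ℂ) : Matrix (Option (ν × ν)) (Option (ν × ν)) ℂ := of fun o o' =>
  o.elim (o'.elim ε fun _ => 0) fun x => o'.elim 0 fun y => if x.2 = y.2 then Y x.1 y.1 else 0

lemma ex_mulVec (ε : ℂ) (Y X : Matrix ν ν ℂ) :
    ex ε Y *ᵥ hat (ent X) = fun o => o.elim ε (ent (Y * X)) := by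
  ext o
  rcases o with _ | ⟨p, q⟩ <;>
    simp [ex, hat, ent, mulVec, dotProduct, Fintype.sum_option, Fintype.sum_prod_type, mul_apply]

omit [Fintype ν] in
lemma ex_ind {α : Type*} {P : (α → ℂ) → Prop} {ε : ℂ} {Y : α → Matrix ν ν ℂ} (h0 : P fun _ => 0)
    (h1 : P fun _ => ε) (h : ∀ p q, P fun t => Y t p q) (o o' : Option (ν × ν)) :
    P fun t => ex ε (Y t) o o' := by
  rcases o with _ | x <;> rcases o' with _ | y
  · exact h1
  · exact h0
  · exact h0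
  · by_cases hxy : x.2 = y.2
    · simpa [ex, hxy] using h x.1 y.1
    · simpa [ex, hxy] using h0

lemma vsol_hat {A Ψ : ℂ → Matrix ν ν ℂ} {t : ℂ} (h : MSol A Ψ t) :
    VSol (fun s => ex 0 (A s)) (fun s => hat (ent (Ψ s))) t := by
  refine hasDerivAt_pi.2 fun o => ?_
  rw [ex_mulVec]
  rcases o with _ | x
  · exact hasDerivAt_const t 1
  · exact h x.1 x.2

/-- every rational relation of degree at most `δ` at `s` specialises from a functional one -/
def AGood (Q : ℂ → Matrix ν ν ℂ) (δ : ℕ) (s : ℤ) : Prop :=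
  ∀ g : (ν × ν → ℂ) → ℂ, PF δ g → g (ent (Q s)) = 0 → ∃ p : MvPolynomial (Option (ν × ν)) ℚ,
    (∀ᶠ t in 𝓝 (s : ℂ), MvPolynomial.aeval (fun o => o.elim t (ent (Q t))) p = 0) ∧
    ∀ X, MvPolynomial.aeval (fun o => o.elim (s : ℂ) X) p = g X

variable {T : ℚ[X]} {B : Matrix ν ν ℚ[X]} {R c : ℝ} {Tz : ℤ[X]} {e : ℕ} {D : ℕ → ℤ} {Cg : ℝ}
  {S0 : ℝ} {tr tri : ℂ → ℂ → Matrix ν ν ℂ}

/-- the functional step: a relation between transport matrices with disjoint singular discs -/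
lemma Std.descend (H : Std T B R c Tz e D Cg) (h : IsTr (Az T B) R S0 tr tri) {κ : Type*}
    [Fintype κ] [DecidableEq κ] {a : κ → ℤ} {b : ℤ} {ρ : ℝ} (h1 : 4 * R ≤ ρ)
    (h2 : ∀ i, 8 * |(a i : ℝ)| ≤ ρ) (hb : ρ ≤ b - 1) (hb' : 2 * R * (ρ + 1) < b)
    (h3 : ∀ i, 3 * R + 3 ≤ a i) (h4 : ∀ i j, i ≠ j → 3 * R + 3 ≤ |(a i - a j : ℝ)|)
    {Q : ℂ → Matrix ν ν ℂ} (hQ : ∀ t ∈ ball (b : ℂ) (‖(b : ℂ)‖ / 2), MSol (Az T B) Q t)
    (hd : (Q b).det ≠ 0) {Δ : ℕ} {w : ℂ → (Fin Δ → Option (κ × ν × ν)) → ℂ}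
    (hw : DifferentiableOn ℂ w (Ext R))
    (hw0 : ∀ t ∈ Ext (ρ / 2), w t ⬝ᵥ (tens fun _ => vec 1 fun i => tr t (t + a i)) = 0) (j : κ)
    {g : (ν × ν → ℂ) → ℂ} (hg : PF Δ g) (hwb : ∀ X, w b ⬝ᵥ (tens fun _ => vec 1
      (Function.update (fun i => tr b (b + a i)) j (X * (Q b)⁻¹))) = g (ent X)) :
    ∃ p : MvPolynomial (Option (ν × ν)) ℚ,
      (∀ᶠ t in 𝓝 ((b + a j : ℤ) : ℂ), MvPolynomial.aeval (fun o => o.elim t (ent (Q t))) p = 0) ∧
      ∀ X, MvPolynomial.aeval (fun o => o.elim ((b + a j : ℤ) : ℂ) X) p = g X := by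
  have hR := H.hR
  have hc := H.hc
  have hρ : 0 < ρ + 1 := by linarith
  have nb : ‖(b : ℂ)‖ = b := by rw [Complex.norm_intCast, abs_of_nonneg (by linarith)]
  have bE : (b : ℂ) ∈ Ext (2 * R) := by simp only [Ext, Set.mem_ofPred_eq, nb]; linarith
  have bE2 : (b : ℂ) ∈ Ext (ρ / 2) := by simp only [Ext, Set.mem_ofPred_eq, nb]; linarith
  obtain ⟨G, hG⟩ : ∃ G : Set ℂ, ∀ s, s ∈ G ↔ 2 * R * (ρ + 1) + a j < (ρ + 1) * s.im + s.re :=
    ⟨{s | _}, fun _ => Iff.rfl⟩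
  have cG : Convex ℝ G := by
    rw [Set.ext hG]
    exact convex_halfSpace_gt (f := fun s : ℂ => (ρ + 1) * s.im + s.re)
      ⟨fun x y => by simp; ring, fun r x => by simp; ring⟩ _
  have oG : IsOpen G := by
    rw [Set.ext hG]
    exact isOpen_lt (f := fun _ : ℂ => 2 * R * (ρ + 1) + a j)
      (g := fun s : ℂ => (ρ + 1) * s.im + s.re) continuous_const (by fun_prop)
  have hp0 : ((2 * R + 1 : ℝ) * Complex.I : ℂ) ∈ G := by
    rw [hG]; simp; nlinarith [h2 j, le_abs_self (a j : ℝ)]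
  have hp1 : ((2 * R + 1 : ℝ) * Complex.I : ℂ) ∈ ball (0 : ℂ) (2 * R + 2) := by
    rw [mem_ball_zero_iff, norm_mul, Complex.norm_I, Complex.norm_real, Real.norm_of_nonneg] <;>
      linarith
  have hs0 : ((b + a j : ℤ) : ℂ) ∈ G := by rw [hG]; simp; linarith
  have hGE : ∀ d : ℤ, -a j ≤ d → ∀ s ∈ G, s + d ∈ Ext R := fun d hd s hs => by
    by_contra hn
    have a1 : ‖s + d‖ ≤ R := not_lt.1 hn
    have a2 := (Complex.re_le_norm _).trans a1
    have a3 := (Complex.im_le_norm _).trans a1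
    have a4 : (-a j : ℝ) ≤ d := by exact_mod_cast hd
    rw [hG] at hs
    simp at a2 a3
    nlinarith
  have hΩ : ∀ d : ℤ, -a j ≤ d → 3 * R + 3 ≤ |(d : ℝ)| → ∀ s ∈ G ∪ ball (0 : ℂ) (2 * R + 2),
      s + d ∈ Ext R := by
    rintro d d1 d2 s (hs | hs)
    · exact hGE d d1 s hs
    · have := norm_sub_norm_le (d : ℂ) (-s)
      rw [sub_neg_eq_add, norm_neg, Complex.norm_intCast, add_comm] at this
      have := mem_ball_zero_iff.1 hs
      simp only [Ext, Set.mem_ofPred_eq]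
      linarith
  have hAb : ∀ t ∈ Ext R, ∀ p q, ‖Az T B t p q‖ ≤ c := fun t ht p q =>
    (le_mul_of_one_le_left (norm_nonneg _) (hR.trans (le_of_lt ht))).trans (H.hb t ht p q)
  have hAh : ∀ (d : ℂ) (S : Set ℂ), (∀ s ∈ S, s + d ∈ Ext R) → Hol S fun s => Az T B (s + d) :=
    fun d S hS p q => (Hol.Az H.hT p q).comp (by fun_prop) hS
  have ha0 : ∀ i, 0 ≤ a i := fun i => by exact_mod_cast (show (0 : ℝ) ≤ a i by linarith [h3 i])
  have hbj := hΩ (-a j) le_rfl (by push_cast; rw [abs_neg]; exact (h3 j).trans (le_abs_self _))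
  obtain ⟨Zt, Z1, Z2, Z3⟩ := ext_sol cG oG (convex_ball _ _) isOpen_ball hp0 hp1 hs0
    (A := fun s => -(Az T B (s + (-a j : ℤ)))ᵀ) (fun p q => (hAh _ _ hbj q p).neg)
    (fun t ht p q => by simpa using hAb _ (hbj t ht) q p) hc ((Q b)⁻¹)ᵀ
  have hΨ : ∀ i, ∃ Ψ : ℂ → Matrix ν ν ℂ, (i ≠ j → Hol (G ∪ ball 0 (2 * R + 2)) Ψ) ∧
      Ψ (b + a j : ℤ) = Q (b + a i) ∧
      ∀ s ∈ G, MSol (fun s => Az T B (s + (a i - a j : ℤ))) Ψ s := fun i => by
    have i0 : -a j ≤ a i - a j := by linarith [ha0 i]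
    by_cases hij : i = j
    · obtain ⟨W, W0, hW⟩ := exists_msol cG oG hs0 (hAh _ _ (hGE _ i0))
        (fun t ht => hAb _ (hGE _ i0 t ht)) hc
      exact ⟨fun s => W s * Q (b + a i), fun h => absurd hij h, by simp only [W0, Matrix.one_mul],
        fun s hs => (hW s hs).1.mul_const _⟩
    · have i1 := hΩ _ i0 (by push_cast; exact h4 i j hij)
      obtain ⟨Ψ, a1, a2, a3⟩ := ext_sol cG oG (convex_ball _ _) isOpen_ball hp0 hp1 hs0
        (hAh _ _ i1) (fun t ht => hAb _ (i1 t ht)) hc (Q (b + a i))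
      exact ⟨Ψ, fun _ => a1, a2, a3⟩
  choose Ψ Ψ1 Ψ2 Ψ3 using hΨ
  have hnG := oG.mem_nhds hs0
  have hbb : (b : ℂ) ∈ ball (b : ℂ) (‖(b : ℂ)‖ / 2) := mem_ball_self (by rw [nb]; linarith)
  have hba : ∀ i, (b : ℂ) + a i ∈ ball (b : ℂ) (‖(b : ℂ)‖ / 2) := fun i => by
    rw [mem_ball_iff_norm, add_sub_cancel_left, Complex.norm_intCast, nb]; linarith [h2 i]
  have hQtr : ∀ t ∈ ball (b : ℂ) (‖(b : ℂ)‖ / 2), Q t = tr b t * Q b :=
    muniq isOpen_ball (convex_ball _ _).isPreconnected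
      (Hol.Az fun s hs => H.hT s (ball_sub_Ext bE hs)) hQ
      (fun s hs => ((h _ bE).2.2 s hs).1.mul_const _) hbb (by rw [(h _ bE).1, Matrix.one_mul])
  have hQi : Q b * (Q b)⁻¹ = 1 := mul_nonsing_inv _ (isUnit_iff_ne_zero.2 hd)
  have near : ∀ {d x : ℂ} {S : Set ℂ}, ((b + a j : ℤ) : ℂ) + d = x → S ∈ 𝓝 x →
      ∀ᶠ s in 𝓝 ((b + a j : ℤ) : ℂ), s + d ∈ S := fun hx hS =>
    ContinuousAt.eventually_mem (by fun_prop) (hx ▸ hS)
  have e1 : ∀ i, ((b + a j : ℤ) : ℂ) + (a i - a j : ℤ) = b + a i := fun i => by push_cast; ring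
  have e2 : ((b + a j : ℤ) : ℂ) + (-a j : ℤ) = b := by push_cast; ring
  have nΨ : ∀ i, Ψ i =ᶠ[𝓝 ((b + a j : ℤ) : ℂ)] fun s => Q (s + (a i - a j : ℤ)) := fun i =>
    muniq_loc (fun p q => (hAh _ _ (hGE _ (by linarith [ha0 i])) p q).analyticAt hnG)
      (mem_of_superset hnG (Ψ3 i)) ((near (e1 i) (isOpen_ball.mem_nhds (hba i))).mono fun s hs =>
        (hQ _ hs).comp_add) (by rw [Ψ2, e1])
  have nZ : Zt =ᶠ[𝓝 ((b + a j : ℤ) : ℂ)] fun s => ((Q b)⁻¹ * tri b (s + (-a j : ℤ)))ᵀ :=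
    muniq_loc (fun p q => ((hAh _ _ (hGE _ le_rfl) q p).analyticAt hnG).neg)
      (mem_of_superset hnG Z3) ((near e2 (isOpen_ball.mem_nhds hbb)).mono fun s hs =>
        (rsol_iff.1 (((h _ bE).2.2 _ hs).2.1.const_mul (Q b)⁻¹)).comp_add)
      (by rw [Z2, e2, (h _ bE).2.1, Matrix.mul_one])
  obtain ⟨E, hE⟩ : ∃ E : ℂ → Matrix (Option (κ × ν × ν)) (Option (ν × ν)) ℂ, ∀ s o o', E s o o' =
      o.elim (o'.elim 1 fun _ => 0) fun x => o'.elim
        (if x.1 = j then 0 else (Ψ x.1 s * (Zt s)ᵀ) x.2.1 x.2.2)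
        fun y => if x.1 = j ∧ x.2.1 = y.1 then Zt s x.2.2 y.2 else 0 :=
    ⟨fun s => of fun o o' => _, fun _ _ _ => rfl⟩
  have hEh : Hol (G ∪ ball 0 (2 * R + 2)) E := fun o o' => by
    simp only [hE]
    rcases o with _ | x <;> rcases o' with _ | y
    · exact differentiableOn_const _
    · exact differentiableOn_const _
    · by_cases hx : x.1 = j
      · simp [hx]
      · simpa only [Option.elim_some, Option.elim_none, if_neg hx] using
          (Ψ1 _ hx).mul (B := fun s => (Zt s)ᵀ) (fun p q => Z1 q p) x.2.1 x.2.2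
    · by_cases hx : x.1 = j ∧ x.2.1 = y.1
      · simpa only [Option.elim_some, if_pos hx] using Z1 x.2.2 y.2
      · simp only [Option.elim_some, if_neg hx]; exact differentiableOn_const _
  have hEv : ∀ s X, E s *ᵥ hat (ent X) =
      vec 1 (Function.update (fun i => Ψ i s * (Zt s)ᵀ) j (X * (Zt s)ᵀ)) := fun s X => by
    ext o
    rcases o with _ | ⟨i, p, q⟩
    · simp [hE, hat, vec, mulVec, dotProduct, Fintype.sum_option]
    · by_cases hi : i = j
      · simp [hE, hat, ent, vec, mulVec, dotProduct, Fintype.sum_option, Fintype.sum_prod_type, hi,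
          mul_apply, mul_comm]
      · simp [hE, hat, vec, mulVec, dotProduct, Fintype.sum_option, hi]
  obtain ⟨v, hv⟩ : ∃ v : ℂ → (Fin Δ → Option (ν × ν)) → ℂ, ∀ s, v s =
    w (s + (-a j : ℤ)) ᵥ* piM fun _ => E s := ⟨_, fun _ => rfl⟩
  have hvm : ∀ s X, v s ⬝ᵥ mon Δ (ent X) = w (s + (-a j : ℤ)) ⬝ᵥ tens fun _ =>
      vec 1 (Function.update (fun i => Ψ i s * (Zt s)ᵀ) j (X * (Zt s)ᵀ)) := fun s X => by
    rw [hv, ← dotProduct_mulVec, mon, piM_mulVec, hEv]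
  have hvd : DifferentiableOn ℂ v (G ∪ ball 0 (2 * R + 2)) := by
    rw [funext hv]
    exact hEh.piM.vecMul (hw.comp (by fun_prop) hbj)
  obtain ⟨T', B', hTB⟩ := RF.matrix (S := Ext R) (A := fun s => tB (Fin Δ) (ex 0 (Az T B s)))
    fun μ μ' => by
      simp only [tB_apply]
      refine RF.sum _ fun l => RF.mul ?_ (ex_ind RF.zero RF.zero (fun p q => ?_) (μ l) (μ' l))
      · rw [Finset.prod_boole]
        split_ifs
        exacts [RF.one, RF.zero]
      · exact ⟨B p q, T, fun z hz => ⟨H.hT z hz, rfl⟩⟩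
  have hGR : G ⊆ Ext R := fun s hs => by simpa using hGE 0 (by linarith [ha0 j]) s hs
  have hx : ∀ s ∈ G, VSol (Az T' B') (fun s => mon Δ (ent (Ψ j s))) s := fun s hs =>
    (vsol_tens fun _ => vsol_hat (Ψ3 j s hs)).congr EventuallyEq.rfl
      (by rw [(hTB s (hGR hs)).2]; simp)
  have hvx : ∀ s ∈ G, v s ⬝ᵥ mon Δ (ent (Ψ j s)) = 0 := by
    refine ident oG cG.isPreconnected (DifferentiableOn.fun_sum fun μ _ =>
      (differentiableOn_pi.1 (hvd.mono Set.subset_union_left) μ).fun_mul (differentiableOn_pi.1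
        (fun s hs => (hx s hs).differentiableAt.differentiableWithinAt) μ))
      (differentiableOn_const 0) hs0 ?_
    filter_upwards [eventually_all.2 nΨ, nZ, near e2 (isOpen_ball.mem_nhds hbb),
      eventually_all.2 fun i => near (e1 i) (isOpen_ball.mem_nhds (hba i)),
      near e2 ((isOpen_Ext _).mem_nhds bE2)] with s b1 b2 b3 b4 b5
    refine (hvm s _).trans (Eq.trans ?_ (hw0 _ b5))
    rw [Function.update_eq_self j fun i => Ψ i s * (Zt s)ᵀ]
    congr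
    ext1 _
    congr
    ext1 i
    have b6 : ρ / 2 < ‖s + (-a j : ℤ)‖ := b5
    have b7 : s + (-a j : ℤ) + a i = s + (a i - a j : ℤ) := by push_cast; ring
    rw [b1, b2, transpose_transpose, hQtr _ (b4 i), H.cocycle h (lt_of_le_of_lt (by linarith) b6) bE
      b3 (by rw [mem_ball_iff_norm, add_sub_cancel_left, Complex.norm_intCast]; linarith [h2 i])
      (b7 ▸ b4 i), b7, Matrix.mul_assoc, ← Matrix.mul_assoc (Q b), hQi, Matrix.one_mul]
  obtain ⟨c', hc'⟩ := hg.lin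
  have hv0 : ∀ X, (v (b + a j : ℤ) - fun μ => (c' μ : ℂ)) ⬝ᵥ mon Δ (ent X) = 0 := fun X => by
    rw [sub_dotProduct, ← hc', hvm, e2, Z2, transpose_transpose, ← hwb X, sub_eq_zero]
    congr
    ext1 _
    congr
    ext1 i
    rw [Ψ2, hQtr _ (hba i), Matrix.mul_assoc, hQi, Matrix.mul_one]
  obtain ⟨Hp, H1, H2⟩ := glift (R1 := 2 * R + 2) (c := Fintype.card (Fin Δ) * c) (by linarith)
    (by positivity) (fun t ht => (hTB t ht).1) (fun t ht μ μ' => by
      have h0 : 0 < ‖t‖ := lt_trans (by linarith) ht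
      rw [(hTB t ht).2, mul_comm, ← le_div_iff₀ h0, mul_div_assoc]
      refine norm_tB_le (fun o o' => ?_) μ μ'
      exact ex_ind (α := Unit) (P := fun f => ‖f ()‖ ≤ c / ‖t‖) (Y := fun _ => Az T B t)
        (by simp only [norm_zero]; positivity) (by simp only [norm_zero]; positivity)
        (fun p q => by rw [le_div_iff₀ h0, mul_comm]; exact H.hb t ht p q) o o')
    oG cG.isPreconnected hGR hp0 hp1 hx
    (v := fun s => v s - (v (b + a j : ℤ) - fun μ => (c' μ : ℂ))) (hvd.sub_const _)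
    (fun s hs => by rw [sub_dotProduct, hvx s hs, hv0, sub_zero]) (s := (b + a j : ℤ))
    (by simpa using hs0) (F := c') (by simp)
  have hp : ∀ (t : ℂ) (X : ν × ν → ℂ), MvPolynomial.aeval (fun o : Option (ν × ν) => o.elim t X)
      (∑ μ, aeval (MvPolynomial.X none) (Hp μ) * ∏ l, (μ l).elim 1 fun y =>
        (MvPolynomial.X (some y) : MvPolynomial (Option (ν × ν)) ℚ)) =
      (fun μ => aeval t (Hp μ)) ⬝ᵥ mon Δ X := fun t X => by
    rw [map_sum]
    refine Finset.sum_congr rfl fun μ _ => ?_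
    rw [map_mul, ← aeval_algHom_apply, map_prod]
    congr 1
    · simp
    · exact Finset.prod_congr rfl fun l _ => by cases μ l <;> simp [hat]
  refine ⟨_, ?_, fun X => (hp _ X).trans ?_⟩
  · filter_upwards [nΨ j, hnG] with s b1 b2
    rw [hp, ← H2 s b2, b1]
    simp
  · rw [hc', ← H1]
    congr 1
    ext μ
    exact aeval_algebraMap_apply_eq_algebraMap_eval ((b + a j : ℤ) : ℚ) (Hp μ)

theorem Std.core (H : Std T B R c Tz e D Cg) (δ : ℕ) {a : (Fin δ → Option (ν × ν)) → ℤ} {b : ℤ}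
    {Δ Λ : ℕ} (hΔ : (Fintype.card (Fin δ → Option (ν × ν)) + 1) * δ ≤ Δ) {ρ θ : ℝ}
    (h1 : 4 * R ≤ ρ) (h2 : ∀ i, 8 * |(a i : ℝ)| ≤ ρ) (hb : ρ ≤ b - 1) (hb' : 2 * R * (ρ + 1) < b)
    (h3 : ∀ i, 3 * R + 3 ≤ a i) (h4 : ∀ i j, i ≠ j → 3 * R + 3 ≤ |(a i - a j : ℝ)|)
    (hθ : |((Tz.eval b * ∏ i, Tz.eval (b + a i) : ℤ) : ℝ)| ≤ θ) (hΛ : 2 ≤ Λ) {m : ℕ}
    (hm : m = Fintype.card (Fin Δ → Option ((Fin δ → Option (ν × ν)) × ν × ν)))
    (cond : ((Cg ^ 2 * θ) ^ Δ * θ) ^ m *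
      (2 * ((Cg * |(Tz.leadingCoeff : ℝ)|) ^ Δ * |(Tz.leadingCoeff : ℝ)|) * ρ) ^
        (5 * m ^ 3 * Λ ^ 2) < ((b : ℝ) - 1) ^ (Λ - 1))
    {Q : ℂ → Matrix ν ν ℂ} (hQ : ∀ t ∈ ball (b : ℂ) (‖(b : ℂ)‖ / 2), MSol (Az T B) Q t)
    (hd : (Q b).det ≠ 0) : ∃ i, AGood Q δ (b + a i) := by
  by_contra hn
  simp only [AGood, not_exists, not_forall] at hn
  choose g g1 g2 g3 using hn
  obtain ⟨S0, tr, tri, h⟩ := H.exists_tr
  subst hm
  have hR := H.hR
  have nb : ‖(b : ℂ)‖ = b := by rw [Complex.norm_intCast, abs_of_nonneg (by linarith)]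
  have bE : (b : ℂ) ∈ Ext (2 * R) := by simp only [Ext, Set.mem_ofPred_eq, nb]; linarith
  have hQtr : ∀ i, tr b (b + a i) * Q b = Q (b + a i : ℤ) := fun i => by
    push_cast
    exact muniq isOpen_ball (convex_ball _ _).isPreconnected
      (Hol.Az fun s hs => H.hT s (ball_sub_Ext bE hs))
      (fun s hs => ((h _ bE).2.2 s hs).1.mul_const _) hQ (mem_ball_self (by rw [nb]; linarith))
      (by rw [(h _ bE).1, Matrix.one_mul]) (by
        rw [mem_ball_iff_norm, add_sub_cancel_left, Complex.norm_intCast, nb]; linarith [h2 i])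
  choose cf hcf using fun i => (g1 i).lin
  obtain ⟨ℓ, hℓ⟩ : ∃ ℓ : _ → Matrix ν ν ℂ → (Fin δ → Option (ν × ν)) → ℂ, ∀ i Y, ℓ i Y =
    (fun μ => (cf i μ : ℂ)) ᵥ* piM fun _ => ex 1 Y := ⟨_, fun _ _ => rfl⟩
  have hℓu : ∀ i Y, ℓ i Y ⬝ᵥ mon δ (ent (Q b)) = g i (ent (Y * Q b)) := fun i Y => by
    rw [hℓ, ← dotProduct_mulVec, mon, piM_mulVec, ex_mulVec, hcf]; rfl
  obtain ⟨r, x, η, f1, f2⟩ := exists_frame fun i => ℓ i (tr b (b + a i))
  have hxi : Function.Injective x := fun i j hij => by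
    by_contra hne
    have h5 := f1 i j
    rw [hij, f1, if_pos rfl, if_neg hne] at h5
    exact one_ne_zero h5
  obtain ⟨j, hj⟩ : ∃ j, ∀ k, x k ≠ j := by
    by_contra hs
    push Not at hs
    choose y hy using hs
    have a1 : (of fun i => ℓ i (tr b (b + a i))) * (of fun θ i => η (y i) θ) = 1 := by
      ext i i'
      have := f1 (y i) (y i')
      rw [hy] at this
      refine this.trans ?_
      rw [one_apply]
      exact if_congr ⟨fun h => by rw [← hy i, h, hy], fun h => by rw [h]⟩ rfl rfl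
    have a2 : (of fun i => ℓ i (tr b (b + a i))) *ᵥ mon δ (ent (Q b)) = 0 := funext fun i => by
      refine (hℓu i _).trans ?_
      rw [hQtr, g2]; rfl
    have a3 := congrArg ((of fun θ i => η (y i) θ) *ᵥ ·) a2
    simp only [mulVec_mulVec, mul_eq_one_comm.1 a1, one_mulVec, mulVec_zero] at a3
    simpa [mon, tens, hat] using congrFun a3 fun _ => none
  obtain ⟨L, hL⟩ : ∃ L : (_ → Matrix ν ν ℂ) → Matrix (Fin (r + 1)) (Fin δ → Option (ν × ν)) ℂ,
      ∀ Y o, L Y o = ℓ (Fin.cons (α := fun _ => _) j x o) (Y (Fin.cons (α := fun _ => _) j x o)) :=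
    ⟨fun Y => of fun o => _, fun _ _ => rfl⟩
  have hPF : ∀ J : Fin (r + 1) → Fin δ → Option (ν × ν), PF Δ
      fun y : (Fin δ → Option (ν × ν)) × ν × ν → ℂ =>
        ((L fun i => of fun p q => y (i, p, q)).submatrix id J).det := fun J => by
    simp only [det_apply', submatrix_apply, id, hL, hℓ, vecMul, dotProduct, piM, of_apply]
    refine PF.sum _ fun σ _ => ?_
    have := (PF.prod (σ := (Fin δ → Option (ν × ν)) × ν × ν) (d := δ) Finset.univ
      (g := fun o y => ∑ μ, (cf (Fin.cons (α := fun _ => _) j x (σ o)) μ : ℂ) * ∏ l,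
        ex 1 (of fun p q => y (Fin.cons (α := fun _ => _) j x (σ o), p, q)) (μ l) (J o l))
      fun o _ => PF.sum _ fun μ _ => PF.cmul ((PF.prod (d := 1) Finset.univ fun l _ =>
        ex_ind (PF.zero 1) (PF.one 1) (fun p q => PF.var _) (μ l) (J o l)).mono (by simp)) _).cmul
      ((Equiv.Perm.sign σ : ℤˣ) : ℤ)
    refine PF.mono (by simpa using this) (le_trans (Nat.mul_le_mul_right _ ?_) hΔ)
    simpa using Fintype.card_le_of_injective x hxi
  choose hq hhq using fun J => (hPF J).lin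
  have hq' : ∀ J (Y : _ → Matrix ν ν ℂ), (fun μ => (hq J μ : ℂ)) ⬝ᵥ (tens fun _ => vec 1 Y) =
      ((L Y).submatrix id J).det := fun J Y => (hhq J fun z => Y z.1 z.2.1 z.2.2).symm
  choose rp r1 r2 using fun J => H.lift h a h1 h2 hb hθ hΛ cond (hq := hq J) (by
    rw [hq', ← exists_vecMul_eq_zero_iff]
    refine ⟨Fin.cons (-1) fun k => ℓ j (tr b (b + a j)) ⬝ᵥ η k, fun h0 => ?_, ?_⟩
    · simpa using congrFun h0 0
    · ext o
      have := congrFun (f2 j) (J o)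
      simp only [vecMul, dotProduct, Fin.sum_univ_succ, submatrix_apply, id, hL, Fin.cons_zero,
        Fin.cons_succ, Finset.sum_apply, Pi.smul_apply, smul_eq_mul, Pi.zero_apply] at this ⊢
      linear_combination -this)
  obtain ⟨Hm, hHm⟩ : ∃ Hm : Matrix (Fin δ → Option (ν × ν)) (Fin (r + 1)) ℂ, ∀ θ o, Hm θ o =
      Fin.cons (α := fun _ => _ → ℂ) (mon δ (ent (Q b))) η o θ :=
    ⟨of fun θ o => _, fun _ _ => rfl⟩
  obtain ⟨p, hp⟩ := H.descend h h1 h2 hb hb' h3 h4 hQ hd (Δ := Δ)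
    (w := fun t => ∑ J, (∏ o, Hm (J o) o) • fun μ => aeval t⁻¹ (rp J μ))
    (DifferentiableOn.fun_sum fun J _ => DifferentiableOn.fun_const_smul
      (differentiableOn_pi.2 fun μ => (rp J μ).differentiable_aeval.comp_differentiableOn
        (differentiableOn_inv.mono fun t ht => ne_of_Ext (by linarith) ht)) _)
    (fun t ht => by simp only [sum_dotProduct, smul_dotProduct, fun J => r1 J t ht]; simp) j
    ((g1 j).mono (le_trans (Nat.le_mul_of_pos_left _ (Nat.succ_pos _)) hΔ)) (fun X => by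
      simp only [sum_dotProduct, smul_dotProduct, r2, hq', smul_eq_mul]
      rw [← det_mul_expand, det_succ_column_zero, Fin.sum_univ_succ, Finset.sum_eq_zero, add_zero]
      · have a1 : (L (Function.update (fun i => tr b (b + a i)) j (X * (Q b)⁻¹)) * Hm).submatrix
            (Fin.succAbove 0) Fin.succ = 1 := by
          ext k k'
          simp only [submatrix_apply, Fin.succAbove_zero, mul_apply, hL, hHm, Fin.cons_succ,
            Function.update_of_ne (hj k)]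
          exact f1 k k'
        have a2 := hℓu j (X * (Q b)⁻¹)
        rw [Matrix.mul_assoc, nonsing_inv_mul _ (isUnit_iff_ne_zero.2 hd), Matrix.mul_one] at a2
        rw [a1, ← a2]
        simp [mul_apply, hL, hHm, dotProduct]
      · intro k _
        have a2 := hℓu (x k) (tr b (b + a (x k)))
        rw [hQtr, g2] at a2
        simp only [mul_apply, hL, hHm, Fin.cons_succ, Fin.cons_zero, Function.update_of_ne (hj k)]
        rw [show ∑ θ, _ = _ from a2, mul_zero, zero_mul])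
  exact g3 j p hp

end

end Pool.Agent.Lib.MP_5591bc_ag.G
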