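import Pool.Agent.Lib.MP_5591bc_ag.GTr

/-! Rational relations between values of transport matrices lift to functional relations. -/

namespace Pool.Agent.Lib.MP_5591bc_ag.G

open Filter Topology Metric Polynomial Matrix

noncomputable section

section rf

/-- rational functions over `ℚ` without poles on `S` -/
def RF (S : Set ℂ) (f : ℂ → ℂ) : Prop :=
  ∃ p q : ℚ[X], ∀ z ∈ S, aeval z q ≠ 0 ∧ f z = aeval z p / aeval z q

variable {S : Set ℂ} {f g : ℂ → ℂ}

lemma RF.const (x : ℚ) : RF S fun _ => (x : ℂ) := ⟨C x, 1, fun z _ => by simp⟩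

lemma RF.zero : RF S fun _ => 0 := ⟨0, 1, fun z _ => by simp⟩

lemma RF.one : RF S fun _ => 1 := ⟨1, 1, fun z _ => by simp⟩

lemma RF.id : RF S fun z => z := ⟨X, 1, fun z _ => by simp⟩

lemma RF.add (hf : RF S f) (hg : RF S g) : RF S fun z => f z + g z :=
  let ⟨p, q, h⟩ := hf
  let ⟨p', q', h'⟩ := hg
  ⟨p * q' + q * p', q * q', fun z hz => by
    have a1 := (h z hz).1
    have a2 := (h' z hz).1
    simp only [(h z hz).2, (h' z hz).2, map_mul, map_add]
    exact ⟨mul_ne_zero a1 a2, div_add_div _ _ a1 a2⟩⟩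

lemma RF.mul (hf : RF S f) (hg : RF S g) : RF S fun z => f z * g z :=
  let ⟨p, q, h⟩ := hf
  let ⟨p', q', h'⟩ := hg
  ⟨p * p', q * q', fun z hz => by
    simp only [(h z hz).2, (h' z hz).2, map_mul]
    exact ⟨mul_ne_zero (h z hz).1 (h' z hz).1, div_mul_div_comm _ _ _ _⟩⟩

lemma RF.neg (hf : RF S f) : RF S fun z => -f z := by simpa using (RF.const (-1)).mul hf

lemma RF.sub (hf : RF S f) (hg : RF S g) : RF S fun z => f z - g z := by
  simpa only [sub_eq_add_neg] using hf.add hg.neg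

lemma RF.inv (hf : RF S f) (h0 : ∀ z ∈ S, f z ≠ 0) : RF S fun z => (f z)⁻¹ :=
  let ⟨p, q, h⟩ := hf
  ⟨q, p, fun z hz => ⟨fun h1 => h0 z hz (by rw [(h z hz).2, h1, zero_div]), by
    simp only [(h z hz).2, inv_div]⟩⟩

lemma RF.sum {α : Type*} (s : Finset α) {g : α → ℂ → ℂ} (h : ∀ a, RF S (g a)) :
    RF S fun t => ∑ a ∈ s, g a t := by
  classical
  induction s using Finset.induction_on with
  | empty => simpa using RF.zero
  | insert a s ha ih => simpa only [Finset.sum_insert ha] using (h a).add ih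

lemma RF.aeval (hf : RF S f) (p : ℚ[X]) : RF S fun z => aeval (f z) p := by
  induction p using Polynomial.induction_on with
  | C a => simpa using RF.const a
  | add p q hp hq => simpa using hp.add hq
  | monomial n a ih => simpa [pow_succ, ← mul_assoc] using ih.mul hf

lemma RF.matrix {ι : Type*} [Fintype ι] {A : ℂ → Matrix ι ι ℂ} (h : ∀ i j, RF S (A · i j)) :
    ∃ T B, ∀ z ∈ S, Polynomial.aeval z T ≠ 0 ∧ Az T B z = A z := by
  classical
  choose p q hpq using h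
  refine ⟨∏ x : ι × ι, q x.1 x.2, of fun i j => p i j * ∏ x ∈ Finset.univ.erase (i, j), q x.1 x.2,
    fun z hz => ⟨?_, ?_⟩⟩
  · rw [map_prod]; exact Finset.prod_ne_zero_iff.2 fun x _ => (hpq _ _ z hz).1
  · ext i j
    rw [Az, of_apply, of_apply, ← Finset.mul_prod_erase _ _ (Finset.mem_univ (i, j)), map_mul,
      map_mul, mul_div_mul_right]
    · exact (hpq i j z hz).2.symm
    rw [map_prod]; exact Finset.prod_ne_zero_iff.2 fun x _ => (hpq _ _ z hz).1

end rf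

lemma VSol.congr {ι : Type*} [Fintype ι] {A A' : ℂ → Matrix ι ι ℂ} {y y' : ℂ → ι → ℂ} {t : ℂ}
    (h : VSol A y t) (e : y' =ᶠ[𝓝 t] y) (eA : A' t = A t) : VSol A' y' t := by
  rw [VSol, eA, e.eq_of_nhds]
  exact HasDerivAt.congr_of_eventuallyEq h e

lemma VSol.inv {ι : Type*} [Fintype ι] {A : ℂ → Matrix ι ι ℂ} {y : ℂ → ι → ℂ} {z : ℂ}
    (h : VSol A y z⁻¹) (hz : z ≠ 0) :
    VSol (fun z => (-(z ^ 2)⁻¹) • A z⁻¹) (fun z => y z⁻¹) z := by
  rw [VSol, smul_mulVec]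
  exact HasDerivAt.scomp z h (hasDerivAt_inv hz)

lemma exists_rat {F : PowerSeries ℂ} (h : ∀ J, ∃ q : ℤ, q ≠ 0 ∧ Den q 1 J F) :
    ∃ Φ : PowerSeries ℚ, PowerSeries.map (algebraMap ℚ ℂ) Φ = F := by
  have : ∀ k, ∃ x : ℚ, (x : ℂ) = PowerSeries.coeff k F := fun k => by
    obtain ⟨q, hq, h1⟩ := h k
    obtain ⟨z, hz⟩ := h1 k le_rfl
    have : (q : ℂ) ≠ 0 := by exact_mod_cast hq
    exact ⟨z / q, by push_cast; rw [← hz]; field_simp; simp⟩
  choose x hx using this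
  exact ⟨PowerSeries.mk x, by ext k; simp [hx]⟩

variable {ν κ : Type*} [Fintype ν] [DecidableEq ν] [Fintype κ] [DecidableEq κ]

/-- a scalar and a family of matrices as one vector -/
def vec (ε : ℂ) (Y : κ → Matrix ν ν ℂ) : Option (κ × ν × ν) → ℂ :=
  fun o => o.elim ε fun x => Y x.1 x.2.1 x.2.2

/-- the matrix of `(ε', Y) ↦ (ε ε', L Y R)` -/
def blk (ε : ℂ) (L : κ → Matrix ν ν ℂ) (R : Matrix ν ν ℂ) :
    Matrix (Option (κ × ν × ν)) (Option (κ × ν × ν)) ℂ := of fun o o' =>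
  o.elim (o'.elim ε fun _ => 0) fun x => o'.elim 0 fun y =>
    if x.1 = y.1 then L x.1 x.2.1 y.2.1 * R y.2.2 x.2.2 else 0

omit [DecidableEq ν] in
lemma blk_mulVec (ε ε' : ℂ) (L Y : κ → Matrix ν ν ℂ) (R : Matrix ν ν ℂ) :
    blk ε L R *ᵥ vec ε' Y = vec (ε * ε') fun i => L i * Y i * R := by
  ext o
  rcases o with _ | ⟨i, p, s⟩
  · simp [blk, vec, mulVec, dotProduct, Fintype.sum_option]
  · simp only [blk, vec, mulVec, dotProduct, Fintype.sum_option, Fintype.sum_prod_type, of_apply,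
      Option.elim_some, Option.elim_none, zero_mul, zero_add, ite_mul, mul_apply, Finset.sum_mul]
    rw [Finset.sum_eq_single i, Finset.sum_comm]
    · exact Finset.sum_congr rfl fun _ _ => Finset.sum_congr rfl fun _ _ => by
        rw [if_pos rfl]; ring
    · intro j _ hj; simp [hj.symm]
    · simp

omit [Fintype ν] [DecidableEq ν] [Fintype κ] [DecidableEq κ] in
lemma exists_vec (x : Option (κ × ν × ν) → ℂ) : ∃ ε Y, x = vec ε Y :=
  ⟨x none, fun i => of fun p q => x (some (i, p, q)), funext fun o => by cases o <;> rfl⟩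

lemma blk_one : blk 1 (fun _ : κ => (1 : Matrix ν ν ℂ)) 1 = 1 := by
  refine Matrix.ext_of_mulVec_single fun o => ?_
  obtain ⟨ε, Y, h⟩ := exists_vec (Pi.single o (1 : ℂ) : Option (κ × ν × ν) → ℂ)
  rw [h, blk_mulVec]; simp

/-- the system satisfied by the transport matrices -/
def Atot (A : ℂ → Matrix ν ν ℂ) (a : κ → ℂ) (t : ℂ) :
    Matrix (Option (κ × ν × ν)) (Option (κ × ν × ν)) ℂ :=
  blk 0 (fun i => A (t + a i)) 1 - blk 0 (fun _ => 1) (A t)

lemma vsol_vec {A : ℂ → Matrix ν ν ℂ} {a : κ → ℂ} {Y : κ → ℂ → Matrix ν ν ℂ} {t : ℂ} (ε : ℂ)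
    (h : ∀ i, BSol (fun s => A (s + a i)) A (Y i) t) :
    VSol (Atot A a) (fun s => vec ε fun i => Y i s) t := by
  refine hasDerivAt_pi.2 fun o => ?_
  rw [Atot, sub_mulVec, blk_mulVec, blk_mulVec]
  rcases o with _ | ⟨i, p, s⟩
  · simpa [vec] using hasDerivAt_const t ε
  · simpa [vec] using h i p s

lemma msol_blk {A Ψ : ℂ → Matrix ν ν ℂ} {a : κ → ℂ} {W : κ → ℂ → Matrix ν ν ℂ} {t : ℂ}
    (h1 : ∀ i, MSol (fun s => A (s + a i)) (W i) t) (h2 : RSol A Ψ t) :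
    MSol (Atot A a) (fun s => blk 1 (fun i => W i s) (Ψ s)) t := msol_of_col fun o => by
  obtain ⟨ε, Y, h⟩ := exists_vec (Pi.single o (1 : ℂ) : Option (κ × ν × ν) → ℂ)
  have : (fun s i => blk 1 (fun i => W i s) (Ψ s) i o) =
      fun s => vec (1 * ε) fun i => W i s * Y i * Ψ s := by
    ext1 s
    rw [← blk_mulVec, ← h, mulVec_single_one]; rfl
  rw [this]
  exact vsol_vec _ fun i => bsol_mul ((h1 i).mul_const _) h2

omit [Fintype ν] [DecidableEq ν] [Fintype κ] in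
lemma blk_ind {P : (ℂ → ℂ) → Prop} {ε : ℂ} {L : κ → ℂ → Matrix ν ν ℂ} {R : ℂ → Matrix ν ν ℂ}
    (h0 : P fun _ => 0) (h1 : P fun _ => ε) (h : ∀ i p q r s, P fun t => L i t p q * R t r s)
    (o o' : Option (κ × ν × ν)) : P fun t => blk ε (fun i => L i t) (R t) o o' := by
  rcases o with _ | x <;> rcases o' with _ | y
  · exact h1
  · exact h0
  · exact h0
  · by_cases hxy : x.1 = y.1
    · simpa [blk, hxy] using h y.1 x.2.1 y.2.1 y.2.2 x.2.2
    · simpa [blk, hxy] using h0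

variable {T : ℚ[X]} {B : Matrix ν ν ℚ[X]} {R c : ℝ} {Tz : ℤ[X]} {e : ℕ} {D : ℕ → ℤ} {Cg : ℝ}
  {S0 : ℝ} {tr tri : ℂ → ℂ → Matrix ν ν ℂ}

omit [DecidableEq ν] in
lemma Std.one_le (H : Std T B R c Tz e D Cg) : 1 ≤ Cg := by
  have := H.Dle 0
  rw [zero_add, pow_one] at this
  exact le_trans (by exact_mod_cast Int.one_le_abs (H.D0 0)) this

omit [DecidableEq ν] in
lemma Std.lc (H : Std T B R c Tz e D Cg) : Tz.leadingCoeff ≠ 0 := by
  obtain ⟨t, ht⟩ := (ev_Ext R).exists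
  exact leadingCoeff_ne_zero.2 fun h => H.hz t ht (by simp [h])

theorem Std.lift (H : Std T B R c Tz e D Cg) (h : IsTr (Az T B) R S0 tr tri) (a : κ → ℤ) {b : ℤ}
    {Δ Λ : ℕ} {ρ θ : ℝ} (h1 : 4 * R ≤ ρ) (h2 : ∀ i, 8 * |(a i : ℝ)| ≤ ρ) (hb : ρ ≤ b - 1)
    (hθ : |((Tz.eval b * ∏ i, Tz.eval (b + a i) : ℤ) : ℝ)| ≤ θ) (hΛ : 2 ≤ Λ)
    (cond : ((Cg ^ 2 * θ) ^ Δ * θ) ^ Fintype.card (Fin Δ → Option (κ × ν × ν)) *
      (2 * ((Cg * |(Tz.leadingCoeff : ℝ)|) ^ Δ * |(Tz.leadingCoeff : ℝ)|) * ρ) ^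
        (5 * Fintype.card (Fin Δ → Option (κ × ν × ν)) ^ 3 * Λ ^ 2) < ((b : ℝ) - 1) ^ (Λ - 1))
    {hq : (Fin Δ → Option (κ × ν × ν)) → ℚ}
    (hf : (fun μ => (hq μ : ℂ)) ⬝ᵥ (tens fun _ => vec 1 fun i => tr b (b + a i)) = 0) :
    ∃ r : (Fin Δ → Option (κ × ν × ν)) → ℚ[X], (∀ t ∈ Ext (ρ / 2),
      (fun μ => aeval t⁻¹ (r μ)) ⬝ᵥ (tens fun _ => vec 1 fun i => tr t (t + a i)) = 0) ∧
      ∀ μ, aeval (b : ℂ)⁻¹ (r μ) = (hq μ : ℂ) := by
  have hR := H.hR
  have hCg := H.one_le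
  have hl : (1 : ℝ) ≤ |(Tz.leadingCoeff : ℝ)| := by exact_mod_cast Int.one_le_abs H.lc
  have hρ : 0 < ρ := by linarith
  have hb5 : (5 : ℝ) ≤ b := by linarith
  have hb0 : (b : ℂ) ≠ 0 := by exact_mod_cast (show (b : ℝ) ≠ 0 by linarith)
  have nb : ‖(b : ℂ)‖ = b := by rw [Complex.norm_intCast, abs_of_nonneg (by linarith)]
  have na : ∀ i, ‖(a i : ℂ)‖ ≤ ρ / 8 := fun i => by rw [Complex.norm_intCast]; linarith [h2 i]
  have nba : ∀ i, b - ρ / 8 ≤ ‖(b : ℂ) + a i‖ := fun i => by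
    have := norm_sub_norm_le (b : ℂ) (-a i)
    rw [sub_neg_eq_add, norm_neg, nb] at this
    linarith [na i]
  have bE : (b : ℂ) ∈ Ext (2 * R) := by simp only [Ext, Set.mem_ofPred_eq, nb]; linarith
  have baE : ∀ i, (b : ℂ) + a i ∈ Ext (2 * R) := fun i => by
    simp only [Ext, Set.mem_ofPred_eq]; linarith [nba i]
  have hE : ∀ t ∈ Ext (ρ / 2), t ∈ Ext (2 * R) ∧ t⁻¹ ∈ ball (0 : ℂ) (2 / ρ) ∧
      ∀ i, ‖(a i : ℂ)‖ < ‖t‖ / 2 := fun t ht => by
    simp only [Ext, Set.mem_ofPred_eq] at *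
    refine ⟨by linarith, ?_, fun i => by linarith [na i]⟩
    rw [mem_ball_zero_iff, norm_inv, inv_lt_comm₀ (by linarith) (by positivity), inv_div]
    exact ht
  have hE' : ∀ z ∈ ball (0 : ℂ) (2 / ρ), z ≠ 0 → z⁻¹ ∈ Ext (ρ / 2) := fun z hz h0 => by
    simp only [Ext, Set.mem_ofPred_eq]
    rw [norm_inv, lt_inv_comm₀ (by positivity) (norm_pos_iff.2 h0), inv_div]
    exact mem_ball_zero_iff.1 hz
  have bE2 : (b : ℂ) ∈ Ext (ρ / 2) := by simp only [Ext, Set.mem_ofPred_eq, nb]; linarith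
  have hn0 : ball (0 : ℂ) (2 / ρ) ∈ 𝓝 0 := ball_mem_nhds _ (by positivity)
  choose φ0 p1 p2 p3 using fun i p q => H.exists_phi h (a i) h1 (h2 i) p q
  obtain ⟨u, hu⟩ : ∃ u : ℂ → Option (κ × ν × ν) → ℂ, ∀ z, u z =
    vec 1 fun i => of fun p q => φ0 i p q z := ⟨_, fun _ => rfl⟩
  have hud : ∀ o, DifferentiableOn ℂ (u · o) (ball 0 (2 / ρ)) := fun o => by
    simp only [hu]
    rcases o with _ | x
    · exact differentiableOn_const 1
    · exact p1 _ _ _
  have hue : ∀ z, z ≠ 0 → u z = vec 1 fun i => tr z⁻¹ (z⁻¹ + a i) := fun z hz => by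
    rw [hu]; congr 1; ext i p q; exact p2 i p q z hz
  have den1 : ∀ J (μ : Fin Δ → Option (κ × ν × ν)),
      Den ((D J * Tz.leadingCoeff ^ (J + e)) ^ Δ * Tz.leadingCoeff ^ J) 1 J
        (tay (fun z => tens (fun _ => u z) μ) 0) := fun J μ => by
    simp only [tens]
    rw [tay_prod _ fun l _ => (hud _).analyticAt hn0]
    have := Den.prod (q := D J * Tz.leadingCoeff ^ (J + e)) (c := Tz.leadingCoeff) (J := J)
      Finset.univ (F := fun l => tay (u · (μ l)) 0) fun l _ => by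
        simp only [hu]
        rcases μ l with _ | x
        · exact (tay_const 1 ▸ Den.one : Den 1 _ _ _).of_dvd (one_dvd _)
        · exact p3 _ _ _ J
    simpa using this.flat
  have q10 : ∀ J, (D J * Tz.leadingCoeff ^ (J + e)) ^ Δ * Tz.leadingCoeff ^ J ≠ 0 := fun J =>
    mul_ne_zero (pow_ne_zero _ (mul_ne_zero (H.D0 J) (pow_ne_zero _ H.lc))) (pow_ne_zero _ H.lc)
  choose Φ hΦ using fun μ => exists_rat fun J => ⟨_, q10 J, den1 J μ⟩
  obtain ⟨T', B', hTB⟩ := RF.matrix (S := {z | z ≠ 0 ∧ z⁻¹ ∈ Ext (ρ / 2)})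
    (A := fun z => (-(z ^ 2)⁻¹) • tB (Fin Δ) (Atot (Az T B) (fun i => (a i : ℂ)) z⁻¹))
    fun μ μ' => by
      have r1 : RF {z | z ≠ 0 ∧ z⁻¹ ∈ Ext (ρ / 2)} fun z => z⁻¹ := RF.id.inv fun z hz => hz.1
      have r2 : ∀ {f : ℂ → ℂ}, RF {z | z ≠ 0 ∧ z⁻¹ ∈ Ext (ρ / 2)} f →
          (∀ z, z⁻¹ ∈ Ext (ρ / 2) → f z ∈ Ext R) → ∀ p q,
          RF {z | z ≠ 0 ∧ z⁻¹ ∈ Ext (ρ / 2)} fun z => Az T B (f z) p q := fun hf h0 p q => by
        simp only [Az, of_apply, div_eq_mul_inv]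
        exact (hf.aeval _).mul ((hf.aeval _).inv fun z hz => H.hT _ (h0 z hz.2))
      have r3 : ∀ p q : ν, RF {z | z ≠ 0 ∧ z⁻¹ ∈ Ext (ρ / 2)} fun _ => (1 : Matrix ν ν ℂ) p q :=
        fun p q => by
          rw [one_apply]
          split_ifs
          exacts [RF.one, RF.zero]
      simp only [Matrix.smul_apply, smul_eq_mul, tB_apply, Atot, Matrix.sub_apply, sq, mul_inv]
      refine (r1.mul r1).neg.mul (RF.sum _ fun l => RF.mul ?_ (RF.sub
        (blk_ind (κ := κ) RF.zero RF.zero (fun i p q r s => (r2 (r1.add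
          (by simpa using RF.const (a i))) (fun z hz => ?_) p q).mul (r3 r s)) (μ l) (μ' l))
        (blk_ind (κ := κ) RF.zero RF.zero (fun i p q r s => (r3 p q).mul
          (r2 r1 (fun z hz => ?_) r s)) (μ l) (μ' l))))
      · rw [Finset.prod_boole]
        split_ifs
        exacts [RF.one, RF.zero]
      · exact ball_sub_Ext (hE _ hz).1 (by simpa using (hE _ hz).2.2 i)
      · exact lt_trans (by linarith) (show 2 * R < _ from (hE _ hz).1)
  have hb2 : ∀ t ∈ ball (b : ℂ) 2, t ∈ ball (b : ℂ) (‖(b : ℂ)‖ / 2) ∧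
      ∀ i, t + a i ∈ ball ((b : ℂ) + a i) (‖(b : ℂ) + a i‖ / 2) := fun t ht =>
    ⟨ball_subset_ball (by rw [nb]; linarith) ht, fun i => by
      rw [mem_ball, dist_add_right]
      exact lt_of_lt_of_le ht (by linarith [nba i])⟩
  have hw : ∀ t ∈ ball (b : ℂ) 2, MSol (Atot (Az T B) fun i => (a i : ℂ))
      (fun s => blk 1 (fun i => tr (b + a i) (s + a i)) (tri b s)) t := fun t ht =>
    msol_blk (fun i => ((h _ (baE i)).2.2 _ ((hb2 t ht).2 i)).1.comp_add)
      ((h _ bE).2.2 _ (hb2 t ht).1).2.1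
  have hn2 : ball (b : ℂ) 2 ∈ 𝓝 (b : ℂ) := ball_mem_nhds _ two_pos
  set τ : ℤ := Tz.eval b * ∏ i, Tz.eval (b + a i) with hτ
  have e1 : ∀ (x : ℤ) (p : ℤ[X]), aeval (x : ℂ) p = (p.eval x : ℤ) := fun x p =>
    aeval_algebraMap_apply_eq_algebraMap_eval x p
  have hER : Ext (2 * R) ⊆ Ext R := fun t ht => lt_trans (by linarith) (show 2 * R < _ from ht)
  have hτ0 : τ ≠ 0 := mul_ne_zero (fun h0 => H.hz _ (hER bE) (by rw [e1, h0, Int.cast_zero]))
    (Finset.prod_ne_zero_iff.2 fun i _ h0 => H.hz _ (hER (baE i)) (by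
      rw [← Int.cast_add, e1, h0, Int.cast_zero]))
  have hθ1 : 1 ≤ θ := le_trans (by exact_mod_cast Int.one_le_abs hτ0) hθ
  have V : VH b ρ ((Cg * |(Tz.leadingCoeff : ℝ)|) ^ Δ * |(Tz.leadingCoeff : ℝ)|)
      ((Cg ^ 2 * θ) ^ Δ * θ) (fun z => tens fun _ : Fin Δ => u z) Φ
      (fun t => piM fun _ => blk 1 (fun i => tr (b + a i) (t + a i)) (tri b t)) T' B' :=
    { hφ := differentiableOn_pi.2 fun μ => DifferentiableOn.fun_finsetProd fun l _ => hud _
      hΦ := hΦ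
      den1 := ⟨(Cg * |(Tz.leadingCoeff : ℝ)| ^ e) ^ Δ, fun J => ⟨_, q10 J, by
        push_cast
        rw [abs_mul, abs_pow, abs_mul, abs_pow, abs_pow]
        refine (mul_le_mul_of_nonneg_right (pow_le_pow_left₀ (by positivity)
          (mul_le_mul_of_nonneg_right (H.Dle J) (by positivity)) _) (by positivity)).trans
          (le_of_eq ?_)
        simp only [mul_pow, ← pow_mul]; ring, den1 J⟩⟩
      hS := isS_of_map hΦ (isS_tay ((differentiableOn_pi.2 fun μ =>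
          DifferentiableOn.fun_finsetProd fun l _ => hud _).analyticAt hn0) (by
        filter_upwards [nhdsWithin_le_nhds hn0, self_mem_nhdsWithin] with z b1 b2
        have b3 := hE' z b1 b2
        refine ⟨(hTB z ⟨b2, b3⟩).1, ((vsol_tens (L := Fin Δ) fun _ => vsol_vec 1 fun i =>
          H.bsol h (hE _ b3).1 ((hE _ b3).2.2 i)).inv b2).congr ?_ (hTB z ⟨b2, b3⟩).2⟩
        filter_upwards [eventually_ne_nhds b2] with w hw
        rw [hue w hw]))
      hT := (hTB _ ⟨inv_ne_zero hb0, by rwa [inv_inv]⟩).1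
      hW := Hol.piM (hol_of_msol hw)
      W1 := by
        simp only [fun i => (h _ (baE i)).1, (h _ bE).2.1, blk_one]
        exact piM_one
      hWφ := fun t ht => by
        have n1 : ‖t - b‖ ≤ 1 := mem_closedBall_iff_norm.1 ht
        have n2 : (b : ℝ) - 1 ≤ ‖t‖ := by
          have := norm_sub_norm_le (b : ℂ) t
          rw [nb, norm_sub_rev] at this
          linarith
        have tE : t ∈ Ext (ρ / 2) := by simp only [Ext, Set.mem_ofPred_eq]; linarith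
        have t2 := hb2 t (closedBall_subset_ball one_lt_two ht)
        rw [piM_mulVec, hue _ (inv_ne_zero hb0), hue _ (inv_ne_zero (ne_of_Ext (by linarith) tE)),
          blk_mulVec, inv_inv, inv_inv, one_mul]
        congr
        ext1 _
        congr
        ext1 i
        have m1 : t + a i ∈ ball (b : ℂ) (‖(b : ℂ)‖ / 2) := by
          rw [mem_ball_iff_norm, add_sub_right_comm, nb]
          linarith [norm_add_le (t - b) (a i), na i]
        have m2 : (b : ℂ) + a i ∈ ball (b : ℂ) (‖(b : ℂ)‖ / 2) := by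
          simpa using (hE _ bE2).2.2 i
        rw [H.cocycle h (hE _ tE).1 bE t2.1 (by simpa using (hE _ tE).2.2 i) m1,
          H.cocycle h (baE i) bE m2 (t2.2 i) m1, Matrix.mul_assoc (tr _ _) (tri _ _),
          ((h _ bE).2.2 _ m2).2.2.1, Matrix.mul_one]
      hWs := by
        have c1 := continuousAt_inv₀ (inv_ne_zero hb0)
        filter_upwards [eventually_ne_nhds (inv_ne_zero hb0),
          c1.eventually_mem (by rw [inv_inv]; exact hn2),
          c1.eventually_mem (by rw [inv_inv]; exact (isOpen_Ext _).mem_nhds bE2)] with z b1 b2 b3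
        exact msol_of_col fun μ => (((msol_piM (hw _ b2)).col μ).inv b1).congr EventuallyEq.rfl
          (hTB z ⟨b1, b3⟩).2
      den2 := ⟨(Cg ^ 2 * θ ^ (2 * e)) ^ Δ, fun K => ⟨((D K * τ ^ e) * (D K * τ ^ (K + e))) ^ Δ *
        τ ^ K, mul_ne_zero (pow_ne_zero _ (mul_ne_zero (mul_ne_zero (H.D0 K) (pow_ne_zero _ hτ0))
          (mul_ne_zero (H.D0 K) (pow_ne_zero _ hτ0)))) (pow_ne_zero _ hτ0), by
        have := H.Dle K
        calc _ = ((|(D K : ℝ)| * |(τ : ℝ)| ^ e) * (|(D K : ℝ)| * |(τ : ℝ)| ^ (K + e))) ^ Δ *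
              |(τ : ℝ)| ^ K := by push_cast; simp only [abs_mul, abs_pow]
          _ ≤ ((Cg ^ (K + 1) * θ ^ e) * (Cg ^ (K + 1) * θ ^ (K + e))) ^ Δ * θ ^ K := by gcongr
          _ = _ := by simp only [mul_pow, ← pow_mul]; ring, fun μ μ' => by
        simp only [piM, of_apply]
        rw [tay_prod _ fun l _ => (hol_of_msol hw _ _).analyticAt hn2]
        have := Den.prod (q := (D K * τ ^ e) * (D K * τ ^ (K + e))) (c := τ) (J := K) Finset.univ
          (F := fun l => tay (fun t => blk 1 (fun i => tr (b + a i) (t + a i)) (tri b t) (μ l)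
            (μ' l)) b) fun l _ => by
          refine blk_ind (P := fun g => Den _ _ _ (tay g b)) ?_ ?_ (fun i p q r s => ?_) _ _
          · rw [tay_const, map_zero]; exact Den.zero
          · exact (tay_const 1 ▸ Den.one : Den 1 _ _ _).of_dvd (one_dvd _)
          · have d1 : Tz.eval (b + a i) ∣ τ :=
              (Finset.dvd_prod_of_mem _ (Finset.mem_univ i)).mul_left _
            have d2 : Tz.eval b ∣ τ := Dvd.intro _ rfl
            rw [tay_mul ((hol_of_msol (fun t ht =>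
                ((h _ (baE i)).2.2 _ ((hb2 t ht).2 i)).1.comp_add) p q).analyticAt hn2)
              ((hol_of_rsol (fun t ht => ((h _ bE).2.2 _ (hb2 t ht).1).2.1) r s).analyticAt hn2),
              tay_shift (g := fun s => tr (b + a i) s p q)]
            refine Den.mul ?_ (((H.den_tri h bE K r s).of_dvd_c d2).of_dvd
              (mul_dvd_mul_left _ (pow_dvd_pow_of_dvd d2 _)))
            have := H.den_tr h (b := b + a i) (by push_cast; exact baE i) K p q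
            push_cast at this
            exact (this.of_dvd_c d1).of_dvd (mul_dvd_mul_left _ (pow_dvd_pow_of_dvd d1 _))
        simpa using this.flat⟩⟩ }
  obtain ⟨r, r1, r2⟩ := gval V (by linarith) (one_le_mul_of_one_le_of_one_le
    (one_le_pow₀ (one_le_mul_of_one_le_of_one_le hCg hl)) hl) (one_le_mul_of_one_le_of_one_le
    (one_le_pow₀ (one_le_mul_of_one_le_of_one_le (one_le_pow₀ hCg) hθ1)) hθ1) hb
    (by exact_mod_cast (show (3 : ℝ) ≤ b by linarith)) hΛ cond (h := hq)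
    (by rwa [hue _ (inv_ne_zero hb0), inv_inv])
  refine ⟨r, fun t ht => ?_, r2⟩
  have := r1 _ (hE t ht).2.1
  rwa [hue _ (inv_ne_zero (ne_of_Ext (by linarith) ht)), inv_inv] at this

end

end Pool.Agent.Lib.MP_5591bc_ag.G
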