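import Pool.Agent.Lib.MP_5591bc_ag.GShid

/-! Denominators of Taylor coefficients; formal versus analytic solutions. -/

namespace Pool.Agent.Lib.MP_5591bc_ag.G

open Filter Topology Metric Asymptotics Matrix Polynomial

noncomputable section

/-- `q c^j` is a denominator of the `j`-th coefficient for all `j ≤ J` -/
def Den (q c : ℤ) (J : ℕ) (F : PowerSeries ℂ) : Prop :=
  ∀ j ≤ J, ∃ z : ℤ, (q : ℂ) * (c : ℂ) ^ j * PowerSeries.coeff j F = z

section den

variable {q q' c : ℤ} {J : ℕ} {F G : PowerSeries ℂ}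

lemma Den.add (h : Den q c J F) (h' : Den q c J G) : Den q c J (F + G) := fun j hj => by
  obtain ⟨z, hz⟩ := h j hj
  obtain ⟨w, hw⟩ := h' j hj
  exact ⟨z + w, by rw [map_add, mul_add, hz, hw]; simp⟩

lemma Den.zero : Den q c J 0 := fun _ _ => ⟨0, by simp⟩

lemma Den.sum {α : Type*} (s : Finset α) {F : α → PowerSeries ℂ} (h : ∀ a ∈ s, Den q c J (F a)) :
    Den q c J (∑ a ∈ s, F a) :=
  Finset.sum_induction _ _ (fun _ _ => Den.add) Den.zero h

lemma Den.mul (h : Den q c J F) (h' : Den q' c J G) : Den (q * q') c J (F * G) := fun j hj => by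
  have : ∀ x ∈ Finset.HasAntidiagonal.antidiagonal j, ∃ z : ℤ, ((q * q' : ℤ) : ℂ) * (c : ℂ) ^ j *
      (PowerSeries.coeff x.1 F * PowerSeries.coeff x.2 G) = z := fun x hx => by
    have hx' := Finset.HasAntidiagonal.mem_antidiagonal.1 hx
    obtain ⟨z, hz⟩ := h x.1 (by omega)
    obtain ⟨w, hw⟩ := h' x.2 (by omega)
    exact ⟨z * w, by push_cast; rw [← hz, ← hw, ← hx', pow_add]; ring⟩
  choose! z hz using this
  exact ⟨∑ x ∈ Finset.HasAntidiagonal.antidiagonal j, z x, by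
    rw [PowerSeries.coeff_mul, Finset.mul_sum, Finset.sum_congr rfl hz]; simp⟩

lemma Den.C (a : ℤ) : Den 1 c J (PowerSeries.C (a : ℂ)) := fun j _ => by
  rw [PowerSeries.coeff_C]
  split_ifs with h
  · exact ⟨a, by simp [h]⟩
  · exact ⟨0, by simp⟩

lemma Den.one : Den 1 c J 1 := by simpa using Den.C (c := c) (J := J) 1

lemma Den.of_dvd (h : Den q c J F) (hq : q ∣ q') : Den q' c J F := fun j hj => by
  obtain ⟨z, hz⟩ := h j hj
  obtain ⟨a, rfl⟩ := hq
  exact ⟨a * z, by push_cast; rw [← hz]; ring⟩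

lemma Den.of_dvd_c {c' : ℤ} (h : Den q c J F) (hq : c ∣ c') : Den q c' J F := fun j hj => by
  obtain ⟨z, hz⟩ := h j hj
  obtain ⟨a, rfl⟩ := hq
  exact ⟨a ^ j * z, by push_cast; rw [← hz]; ring⟩

lemma Den.prod {α : Type*} (s : Finset α) {F : α → PowerSeries ℂ} (h : ∀ a ∈ s, Den q c J (F a)) :
    Den (q ^ s.card) c J (∏ a ∈ s, F a) := by
  classical
  induction s using Finset.induction_on with
  | empty => simpa using Den.one
  | insert a s ha ih =>
    rw [Finset.prod_insert ha, Finset.card_insert_of_notMem ha, pow_succ']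
    exact (h a (by simp)).mul (ih fun i hi => h i (by simp [hi]))

lemma Den.flat (h : Den q c J F) : Den (q * c ^ J) 1 J F := fun j hj => by
  obtain ⟨z, hz⟩ := h j hj
  obtain ⟨i, rfl⟩ := Nat.exists_eq_add_of_le hj
  exact ⟨c ^ i * z, by push_cast; rw [← hz]; ring⟩

lemma Den.congr (h : Den q c J G) (e : PowerSeries.X ^ (J + 1) ∣ F - G) : Den q c J F :=
  fun j hj => by
    have := PowerSeries.X_pow_dvd_iff.1 e j (by omega)
    rw [map_sub, sub_eq_zero] at this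
    rw [this]; exact h j hj

lemma Den.poly (p : ℤ[X]) : Den 1 c J ((p.map (Int.castRingHom ℂ) : ℂ[X]) : PowerSeries ℂ) :=
  fun j _ => ⟨c ^ j * p.coeff j, by simp⟩

lemma Den.of_C_mul (a : ℤ) (h : Den q c J (PowerSeries.C (a : ℂ) * F)) : Den (q * a) c J F :=
  fun j hj => by
    obtain ⟨z, hz⟩ := h j hj
    exact ⟨z, by rw [← hz, PowerSeries.coeff_C_mul]; push_cast; ring⟩

lemma Den.of_X_pow_mul {d : ℕ} (h : Den q 1 (d + J) (PowerSeries.X ^ d * F)) : Den q 1 J F :=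
  fun j hj => by
    obtain ⟨z, hz⟩ := h (j + d) (by omega)
    exact ⟨z, by rw [← hz, PowerSeries.coeff_X_pow_mul]; simp⟩

lemma Den.div {p : PowerSeries ℂ} (hp : Den 1 1 J p) (h0 : PowerSeries.coeff 0 p = c)
    (h : Den q c J (p * F)) : Den (q * c) c J F := by
  intro j
  induction j using Nat.strong_induction_on with
  | _ j ih =>
  intro hj
  obtain ⟨z, hz⟩ := h j hj
  rw [PowerSeries.coeff_mul, Finset.Nat.sum_antidiagonal_eq_sum_range_succ_mk,
    Finset.sum_range_succ', h0] at hz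
  have : ∀ i ∈ Finset.range j, ∃ w : ℤ, (q : ℂ) * (c : ℂ) ^ j * (PowerSeries.coeff (i + 1) p *
      PowerSeries.coeff (j - (i + 1)) F) = w := fun i hi => by
    have hi' := Finset.mem_range.1 hi
    obtain ⟨a, ha⟩ := hp (i + 1) (by omega)
    obtain ⟨w, hw⟩ := ih (j - (i + 1)) (by omega) (by omega)
    obtain ⟨l, rfl⟩ : ∃ l, j = i + 1 + l := ⟨j - (i + 1), by omega⟩
    rw [Nat.add_sub_cancel_left] at hw ⊢
    refine ⟨a * w * c ^ i, ?_⟩
    push_cast at *
    rw [← ha, ← hw]; ring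
  choose! w hw using this
  refine ⟨z - ∑ i ∈ Finset.range j, w i, ?_⟩
  rw [mul_add, Finset.mul_sum, Finset.sum_congr rfl hw] at hz
  push_cast
  rw [← hz, Nat.sub_zero]; ring

lemma Den.div_pow {p : PowerSeries ℂ} (hp : Den 1 1 J p) (h0 : PowerSeries.coeff 0 p = c) (n : ℕ) :
    ∀ {q : ℤ}, Den q c J (p ^ n * F) → Den (q * c ^ n) c J F := by
  induction n with
  | zero => intro q h; simpa using h
  | succ n ih =>
    intro q h
    rw [pow_succ', mul_assoc] at h
    simpa [pow_succ', mul_assoc] using ih (Den.div hp h0 h)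

lemma Den.tay_poly (p : ℤ[X]) (b : ℤ) : Den 1 c J (tay (fun t : ℂ => aeval t p) b) := by
  have : (fun t : ℂ => aeval t p) = fun t => (p.map (Int.castRingHom ℂ)).eval t := by
    ext t; rw [eval_map, aeval_def]; rfl
  rw [this, G.tay_poly, show (b : ℂ) = Int.castRingHom ℂ b from rfl, ← map_taylor]
  exact Den.poly _

end den

/-- Taylor expansion of rational polynomials at a complex point -/
def τp (p : ℂ) : ℚ[X] →+* PowerSeries ℂ :=
  co.comp ((taylorAlgHom p).toRingHom.comp (mapRingHom (algebraMap ℚ ℂ)))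

lemma tay_aeval (p : ℂ) (q : ℚ[X]) : tay (fun z => aeval z q) p = τp p q := by
  simp only [← eval_map_algebraMap]
  exact tay_poly _

lemma analyticAt_aeval {R : Type*} [CommRing R] [Algebra R ℂ] (q : R[X]) (p : ℂ) :
    AnalyticAt ℂ (fun z : ℂ => aeval z q) p := (q.differentiable_aeval).analyticAt p

lemma τp_deriv (p : ℂ) (q : ℚ[X]) :
    τp p (derivative q) = PowerSeries.derivative ℂ (τp p q) := by
  rw [← tay_aeval, ← tay_aeval, ← tay_deriv]
  congr 1
  ext z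
  rw [Polynomial.deriv_aeval]

lemma τp_unit {p : ℂ} (hp : p ≠ 0) : IsUnit (τp p X) := by
  rw [← tay_aeval, PowerSeries.isUnit_iff_constantCoeff]
  simpa using hp

lemma τp_deg (p : ℂ) (q : ℚ[X]) (hq : q ≠ 0) (a : ℕ) (h : PowerSeries.X ^ a ∣ τp p q) :
    a ≤ q.natDegree := by
  have h1 : taylor p (q.map (algebraMap ℚ ℂ)) ≠ 0 := by
    rw [Ne, taylor_eq_zero]; exact Polynomial.map_ne_zero hq
  by_contra hlt
  have := PowerSeries.X_pow_dvd_iff.1 h q.natDegree (by omega)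
  apply leadingCoeff_ne_zero.2 h1
  rw [leadingCoeff, natDegree_taylor, natDegree_map]
  simpa [τp] using this

lemma τp_zero (q : ℚ[X]) : τp 0 q = PowerSeries.map (algebraMap ℚ ℂ) (co q) := by
  ext n; simp [τp]

variable {ι : Type*} [Fintype ι]

lemma tay_pr {y : ℂ → ι → ℂ} {p : ℂ} (hy : AnalyticAt ℂ y p) (ρ : ι → ℚ[X]) :
    tay (fun z => (fun μ => aeval z (ρ μ)) ⬝ᵥ y z) p = pr (τp p) (fun μ => tay (y · μ) p) ρ := by
  simp only [dotProduct, pr]
  rw [tay_sum _ fun μ _ => (analyticAt_aeval _ _).fun_mul (analyticAt_pi_iff.1 hy μ)]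
  exact Finset.sum_congr rfl fun μ _ => by
    rw [tay_mul (analyticAt_aeval _ _) (analyticAt_pi_iff.1 hy μ), tay_aeval]

lemma map_pr {Φ : ι → PowerSeries ℚ} {Ψ : ι → PowerSeries ℂ}
    (h : ∀ μ, PowerSeries.map (algebraMap ℚ ℂ) (Φ μ) = Ψ μ) (ρ : ι → ℚ[X]) :
    PowerSeries.map (algebraMap ℚ ℂ) (pr co Φ ρ) = pr (τp 0) Ψ ρ := by
  simp only [pr, map_sum, map_mul, h, τp_zero]

/-- the matrix of the system `T y' = B y` -/
def Az (T : ℚ[X]) (B : Matrix ι ι ℚ[X]) (z : ℂ) : Matrix ι ι ℂ :=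
  of fun μ ν => aeval z (B μ ν) / aeval z T

lemma isS_tay {y : ℂ → ι → ℂ} {p : ℂ} (hy : AnalyticAt ℂ y p) {T : ℚ[X]} {B : Matrix ι ι ℚ[X]}
    (h : ∀ᶠ z in 𝓝[≠] p, aeval z T ≠ 0 ∧ VSol (Az T B) y z) :
    IsS (τp p) T B fun μ => tay (y · μ) p := fun μ => by
  have a1 := (analyticAt_aeval T p).fun_mul (analyticAt_pi_iff.1 hy μ).deriv
  have a2 : AnalyticAt ℂ (fun z => (fun ν => aeval z (B μ ν)) ⬝ᵥ y z) p :=
    Finset.analyticAt_fun_sum _ fun ν _ => (analyticAt_aeval _ _).fun_mul (analyticAt_pi_iff.1 hy ν)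
  have e := (a1.frequently_eq_iff_eventually_eq a2).1 (Eventually.frequently (h.mono fun z hz => by
    rw [(hasDerivAt_pi.1 hz.2 μ).deriv]
    simp only [mulVec, dotProduct, Az, of_apply, Finset.mul_sum]
    exact Finset.sum_congr rfl fun ν _ => by have := hz.1; field_simp))
  have := tay_congr (p := p) e
  rw [tay_pr hy, tay_mul (analyticAt_aeval T p) (analyticAt_pi_iff.1 hy μ).deriv, tay_deriv,
    tay_aeval] at this
  exact this

lemma isS_of_map {Φ : ι → PowerSeries ℚ} {Ψ : ι → PowerSeries ℂ}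
    (h : ∀ μ, PowerSeries.map (algebraMap ℚ ℂ) (Φ μ) = Ψ μ) {T : ℚ[X]} {B : Matrix ι ι ℚ[X]}
    (hS : IsS (τp 0) T B Ψ) : IsS co T B Φ := fun μ => by
  apply PowerSeries.map_injective (algebraMap ℚ ℂ) (algebraMap ℚ ℂ).injective
  have := hS μ
  simp only [τp_zero, ← h] at this
  simp only [map_mul, map_sum, ← this]
  congr 1
  ext n
  simp [PowerSeries.coeff_derivative]

lemma exists_bound {E : Type*} [NormedAddCommGroup E] [NormedSpace ℂ E] {g : ℂ → E} {p : ℂ}
    {R r : ℝ} (hg : DifferentiableOn ℂ g (ball p R)) (hr : r < R) :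
    ∃ S : ℝ, 1 ≤ S ∧ ∀ t ∈ closedBall p r, ‖g t‖ ≤ S := by
  obtain ⟨S, hS⟩ := (isCompact_closedBall p r).exists_bound_of_continuousOn
    (hg.continuousOn.mono (closedBall_subset_ball hr))
  exact ⟨max 1 S, le_max_left _ _, fun t ht => (hS t ht).trans (le_max_right _ _)⟩

lemma isBigO_of_dvd_tay {g : ℂ → ℂ} {p : ℂ} (hg : AnalyticAt ℂ g p) {N : ℕ}
    (h : PowerSeries.X ^ N ∣ tay g p) : g =O[𝓝 p] fun t => (t - p) ^ N := by
  obtain ⟨R, hR, hd⟩ : ∃ R > 0, DifferentiableOn ℂ g (ball p R) := by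
    obtain ⟨R, hR, h⟩ := Metric.eventually_nhds_iff_ball.1 hg.eventually_analyticAt
    exact ⟨R, hR, fun t ht => (h t ht).differentiableAt.differentiableWithinAt⟩
  obtain ⟨S, -, hS⟩ := exists_bound hd (half_lt_self hR)
  refine IsBigO.of_bound (S / (R / 2) ^ N) ?_
  filter_upwards [closedBall_mem_nhds p (half_pos hR)] with t ht
  refine (schwarz (half_pos hR) (half_lt_self hR) N hd
    (fun t ht => hS t (sphere_subset_closedBall ht)) h t ht).trans (le_of_eq ?_)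
  rw [norm_pow, div_pow]; ring

lemma dvd_tay_comp {g h : ℂ → ℂ} {p : ℂ} (hg : AnalyticAt ℂ g (h p)) (hh : AnalyticAt ℂ h p)
    {N : ℕ} (hd : PowerSeries.X ^ N ∣ tay g (h p)) : PowerSeries.X ^ N ∣ tay (fun z => g (h z)) p :=
  dvd_tay_of_isBigO (hg.fun_comp hh)
    ((((isBigO_of_dvd_tay hg hd).comp_tendsto hh.continuousAt).trans
      (hh.differentiableAt.isBigO_sub.pow N)).mono nhdsWithin_le_nhds)

end

end Pool.Agent.Lib.MP_5591bc_ag.G
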