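import Pool.Agent.Lib.MP_5591bc_ag.GFib

/-! Eigenvectors of a connection on polynomial vectors have bounded degree up to scalars. -/

namespace Pool.Agent.Lib.MP_5591bc_ag.G

open Matrix Polynomial

noncomputable section

variable {k ι : Type*} [Field k] [Fintype ι] {T : k[X]} {B : Matrix ι ι k[X]}

lemma Dc_add (x y : ι → k[X]) : Dc T B (x + y) = Dc T B x + Dc T B y := by
  ext1 i; simp only [Dc, mulVec_add, Pi.add_apply, Pi.smul_apply, derivative_add, smul_eq_mul]; ring

lemma Dc_smul (q : k[X]) (x : ι → k[X]) :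
    Dc T B (q • x) = (T * derivative q) • x + q • Dc T B x := by
  ext1 i
  simp only [Dc, mulVec_smul, Pi.add_apply, Pi.smul_apply, derivative_mul, smul_eq_mul]; ring

lemma Dc_zero : Dc T B 0 = 0 := by
  ext1 i; simp [Dc]

lemma Dc_sum {α : Type*} (s : Finset α) (x : α → ι → k[X]) :
    Dc T B (∑ a ∈ s, x a) = ∑ a ∈ s, Dc T B (x a) := by
  classical
  induction s using Finset.induction_on with
  | empty => simpa using Dc_zero
  | insert a s ha ih => rw [Finset.sum_insert ha, Finset.sum_insert ha, Dc_add, ih]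

lemma prop_of_wr [CharZero k] {a b : k[X]} (hb : b ≠ 0)
    (h : derivative a * b = a * derivative b) : ∃ γ : k, a = C γ * b := by
  classical
  obtain ⟨a1, b1, ha, hb', hc⟩ := extract_gcd a b
  set g := gcd a b
  have hg : g ≠ 0 := fun h0 => hb (by rw [hb', h0, zero_mul])
  have hco : IsCoprime a1 b1 := (gcd_isUnit_iff a1 b1).1 hc
  have hw : wronskian a1 b1 = 0 := by
    apply mul_left_cancel₀ (mul_ne_zero hg hg)
    rw [ha, hb', derivative_mul, derivative_mul] at h
    rw [wronskian]; linear_combination -h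
  obtain ⟨h1, h2⟩ := hco.wronskian_eq_zero_iff.1 hw
  obtain ⟨α, hα⟩ := natDegree_eq_zero.1 (derivative_eq_zero.1 h1)
  obtain ⟨β, hβ⟩ := natDegree_eq_zero.1 (derivative_eq_zero.1 h2)
  have hβ0 : β ≠ 0 := fun h0 => hb (by rw [hb', ← hβ, h0]; simp)
  refine ⟨α / β, ?_⟩
  rw [ha, hb', ← hα, ← hβ, mul_left_comm, ← C_mul, div_mul_cancel₀ _ hβ0]

lemma exists_max_family (P : (ι → k[X]) → Prop) : ∃ (r : ℕ)
    (v : Fin r → ι → k[X]), LinearIndependent k[X] v ∧ (∀ i, P (v i)) ∧ ∀ w, P w →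
      ∃ q : k[X], q ≠ 0 ∧ ∃ c : Fin r → k[X], ∑ i, c i • v i = q • w := by
  obtain ⟨s, hs, hmax⟩ := exists_maximal_linearIndepOn k[X] (fun w : {w // P w} => w.1)
  have : Finite s := LinearIndependent.finite_of_isNoetherian hs
  obtain ⟨r, ⟨e⟩⟩ := Finite.exists_equiv_fin s
  refine ⟨r, fun i => (e.symm i).1.1, LinearIndependent.comp hs _ e.symm.injective,
    fun i => (e.symm i).1.2, fun w hw => ?_⟩
  have : ∃ q : k[X], q ≠ 0 ∧ q • w ∈ Submodule.span k[X] (Set.range fun i : s => i.1.1) := by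
    by_cases h : (⟨w, hw⟩ : {w // P w}) ∈ s
    · exact ⟨1, one_ne_zero, by rw [one_smul]; exact Submodule.subset_span ⟨⟨_, h⟩, rfl⟩⟩
    · obtain ⟨q, hq, h1⟩ := hmax _ h
      rw [Set.image_eq_range] at h1
      exact ⟨q, hq, h1⟩
  obtain ⟨q, hq, h⟩ := this
  rw [← e.symm.surjective.range_comp] at h
  exact ⟨q, hq, (Submodule.mem_span_range_iff_exists_fun _).1 h⟩

theorem eigen [CharZero k] (hT : T ≠ 0) (B : Matrix ι ι k[X]) : ∃ e : ℕ, ∀ w : ι → k[X], w ≠ 0 →
    (∃ p a : k[X], p ≠ 0 ∧ p • Dc T B w = a • w) → ∃ (w0 : ι → k[X]) (p1 p2 : k[X]),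
      p1 ≠ 0 ∧ p2 ≠ 0 ∧ (∀ i, (w0 i).natDegree ≤ e) ∧ p1 • w = p2 • w0 := by
  classical
  obtain ⟨r, v, hli, hP, hmax⟩ := exists_max_family
    (fun w : ι → k[X] => ∃ p a : k[X], p ≠ 0 ∧ p • Dc T B w = a • w)
  choose p a hp hpa using hP
  have pair : ∀ i j : Fin r, ∃ u u' : k[X], u' ≠ 0 ∧ ∀ c c' : k[X], c' ≠ 0 →
      p i * p j * T * (derivative c * c' - c * derivative c') = (p i * a j - p j * a i) * (c * c') →
      ∃ γ : k, c * u' = C γ * (u * c') := fun i j => by
    by_cases h : ∃ c c' : k[X], c ≠ 0 ∧ c' ≠ 0 ∧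
      p i * p j * T * (derivative c * c' - c * derivative c') = (p i * a j - p j * a i) * (c * c')
    · obtain ⟨u, u', hu, hu', e⟩ := h
      refine ⟨u, u', hu', fun c c' hc' e' => prop_of_wr (mul_ne_zero hu hc') ?_⟩
      apply mul_left_cancel₀ (mul_ne_zero (mul_ne_zero (hp i) (hp j)) hT)
      rw [derivative_mul, derivative_mul]
      linear_combination (u * u') * e' - (c * c') * e
    · refine ⟨0, 1, one_ne_zero, fun c c' hc' e' => ⟨0, ?_⟩⟩
      by_contra h0
      exact h ⟨c, c', fun h1 => h0 (by simp [h1]), hc', e'⟩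
  choose u u' hu' hpair using pair
  obtain ⟨z, hz⟩ : ∃ z : Fin r → Fin r → ι → k[X], ∀ j i, z j i =
    (u i j * ∏ i' ∈ Finset.univ.erase i, u' i' j) • v i := ⟨_, fun _ _ => rfl⟩
  refine ⟨Finset.univ.sup fun x : Fin r × Fin r × ι => (z x.1 x.2.1 x.2.2).natDegree, ?_⟩
  rintro w hw ⟨p0, a0, hp0, e0⟩
  obtain ⟨q, hq, c, hc⟩ := hmax w ⟨p0, a0, hp0, e0⟩
  have key : ∀ i, p0 * q * (p i * T * derivative (c i) + a i * c i) =
      p i * (p0 * T * derivative q + q * a0) * c i := by
    have h1 : ∑ i, ((∏ j ∈ Finset.univ.erase i, p j) * (p0 * q * (p i * T * derivative (c i) +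
        a i * c i) - p i * (p0 * T * derivative q + q * a0) * c i)) • v i = 0 := by
      have h2 := congrArg (fun x => ((∏ j, p j) * (p0 * q)) • Dc T B x) hc
      simp only [Dc_sum, Dc_smul, Finset.smul_sum] at h2
      have h3 : ((∏ j, p j) * (p0 * q)) • ((T * derivative q) • w + q • Dc T B w) =
          ∑ i, ((∏ j, p j) * (p0 * T * derivative q + q * a0) * c i) • v i := by
        simp only [mul_smul _ (c _), ← Finset.smul_sum, hc]
        linear_combination (norm := module) ((∏ j, p j) * q * q) • e0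
      rw [h3, ← sub_eq_zero, ← Finset.sum_sub_distrib] at h2
      rw [← h2]
      refine Finset.sum_congr rfl fun i _ => ?_
      rw [← Finset.prod_erase_mul _ _ (Finset.mem_univ i)]
      linear_combination (norm := module) -((∏ j ∈ Finset.univ.erase i, p j) * p0 * q * c i) • hpa i
    intro i
    have := Fintype.linearIndependent_iff.1 hli _ h1 i
    exact sub_eq_zero.1 ((mul_eq_zero.1 this).resolve_left
      (Finset.prod_ne_zero_iff.2 fun j _ => hp j))
  obtain ⟨j, hj⟩ : ∃ j, c j ≠ 0 := by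
    by_contra h
    push Not at h
    simp only [h, zero_smul, Finset.sum_const_zero] at hc
    exact hw ((smul_eq_zero.1 hc.symm).resolve_left hq)
  choose γ hγ using fun i => hpair i j (c i) (c j) hj (by
    apply mul_left_cancel₀ (mul_ne_zero hp0 hq)
    linear_combination (p j * c j) * key i - (p i * c i) * key j)
  refine ⟨∑ i, C (γ i) • z j i, (∏ i, u' i j) * q, c j,
    mul_ne_zero (Finset.prod_ne_zero_iff.2 fun i _ => hu' i j) hq, hj, fun μ => ?_, ?_⟩
  · rw [Finset.sum_apply]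
    refine natDegree_sum_le_of_forall_le _ _ fun i _ => ?_
    rw [Pi.smul_apply, smul_eq_mul]
    refine (natDegree_C_mul_le _ _).trans ?_
    exact Finset.le_sup (f := fun x : Fin r × Fin r × ι => (z x.1 x.2.1 x.2.2).natDegree)
      (Finset.mem_univ (j, i, μ))
  · rw [mul_smul, ← hc, Finset.smul_sum, Finset.smul_sum]
    refine Finset.sum_congr rfl fun i _ => ?_
    simp only [hz, smul_smul]
    congr 1
    rw [← Finset.prod_erase_mul _ _ (Finset.mem_univ i)]
    linear_combination (∏ i' ∈ Finset.univ.erase i, u' i' j) * hγ i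

end

end Pool.Agent.Lib.MP_5591bc_ag.G
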