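import Pool.Agent.Lib.MP_5591bc_ag.GHyp

/-! Galochkin's condition for the Picard-Fuchs system of `y^2 = f(x)(x - t)`. -/

namespace Pool.Agent.Lib.MP_5591bc_ag.G

open Filter Topology Polynomial Matrix

noncomputable section

section rep

variable {ν : Type*} [Fintype ν] {S : ℂ → (ℂ → ν → ℂ) → Prop} {u v : ℂ → (ℂ → ν → ℂ) → ℂ}

/-- integral polynomial combinations of the values of a solution -/
def Rep (S : ℂ → (ℂ → ν → ℂ) → Prop) (u : ℂ → (ℂ → ν → ℂ) → ℂ) : Prop :=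
  ∃ N : ν → ℤ[X], ∀ t ψ, S t ψ → u t ψ = ∑ j, aeval t (N j) * ψ t j

lemma Rep.congr (h : Rep S u) (e : ∀ t ψ, S t ψ → v t ψ = u t ψ) : Rep S v :=
  let ⟨N, hN⟩ := h; ⟨N, fun t ψ hS => (e t ψ hS).trans (hN t ψ hS)⟩

lemma Rep.mul (h : Rep S u) (P : ℤ[X]) : Rep S fun t ψ => aeval t P * u t ψ :=
  let ⟨N, hN⟩ := h
  ⟨fun j => P * N j, fun t ψ hS => by simp only [hN t ψ hS, Finset.mul_sum, map_mul, mul_assoc]⟩

lemma Rep.sum {α : Type*} (s : Finset α) {u : α → ℂ → (ℂ → ν → ℂ) → ℂ}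
    (h : ∀ a ∈ s, Rep S (u a)) : Rep S fun t ψ => ∑ a ∈ s, u a t ψ := by
  choose! N hN using h
  refine ⟨fun j => ∑ a ∈ s, N a j, fun t ψ hS => ?_⟩
  simp only [map_sum, Finset.sum_mul]
  rw [Finset.sum_comm]
  exact Finset.sum_congr rfl fun a ha => hN a ha t ψ hS

lemma Rep.var (j : ν) : Rep S fun t ψ => ψ t j := by
  classical
  exact ⟨Pi.single j 1, fun t ψ _ => by simp [Pi.single_apply, apply_ite (aeval t)]⟩

end rep

/-- germs of solutions at ordinary points -/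
def hS (f : ℤ[X]) (n : ℕ) (t : ℂ) (ψ : ℂ → Fin n → ℂ) : Prop :=
  aeval t (hT f) ≠ 0 ∧ ∀ᶠ s in 𝓝 t, VSol (hA f n) ψ s

variable {f : ℤ[X]} {n : ℕ}

lemma hS.an {t : ℂ} {ψ : ℂ → Fin n → ℂ} (h : hS f n t ψ) (k : Fin n) : AnalyticAt ℂ (ψ · k) t :=
  analyticAt_pi_iff.1 (analyticAt_of_eventually (h.2.mono fun _ hs => hs.differentiableAt)) k

lemma rep_low (hn : 0 < n) {k : ℕ} (hk : k < n) :
    Rep (hS f n) fun t ψ => aeval t (hT f) ^ n * om n (ψ · ⟨0, hn⟩) k t := by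
  refine ((Rep.var ⟨k, hk⟩).mul ((2 * f) ^ n * X ^ (n - k))).congr fun t ψ h => ?_
  rw [((om_sol hn h.1 h.2).1 ⟨k, hk⟩).self_of_nhds]
  simp only [hT, map_mul, map_pow, aeval_X, mul_pow]
  rw [show t ^ n = t ^ (n - k) * t ^ k by rw [← pow_add, Nat.sub_add_cancel hk.le]]
  ring

lemma rep_high (hn : 0 < n) (hf : f.natDegree ≤ n) {m K : ℕ} (hK : K < n + m) :
    Rep (hS f n) fun t ψ => (Nat.lcmUpto (2 * m) * 2 ^ (m + n)) *
      aeval t (hT f) ^ (m + 2 * n) * om n (ψ · ⟨0, hn⟩) K t := by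
  rcases lt_or_ge K n with h | h
  · refine ((rep_low hn h).mul (Nat.lcmUpto (2 * m) * 2 ^ (m + n) * hT f ^ (m + n))).congr
      fun t ψ _ => ?_
    simp only [map_mul, map_pow, map_natCast, map_ofNat]
    ring
  obtain ⟨m', hm'⟩ : ∃ m', K + 1 = n + m' := ⟨K + 1 - n, by omega⟩
  obtain ⟨r, rfl⟩ : ∃ r, m = m' + r := ⟨m - m', by omega⟩
  obtain ⟨N, hN⟩ := red_eval (fun l => hasseDeriv l f) n m' (by omega) (Nat.lcmUpto (2 * (m' + r)))
    fun j hj => dvd_lcm_two hj le_self_add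
  refine ((Rep.sum (Finset.range n) fun j hj => (rep_low (f := f) hn (k := K - (m' + j))
    (by omega)).mul (N j * (4 * f) ^ (K - (m' + j)))).mul
      (-(4 * X ^ (K + 1) * (4 * X * f) ^ r))).congr fun t ψ h => ?_
  have h1 := hN (aeval t : ℤ[X] →ₐ[ℤ] ℂ).toRingHom
    (fun s => (4 * aeval t f) ^ (K - s) * om n (ψ · ⟨0, hn⟩) (K - s) t) fun j hj => by
      obtain ⟨p, rfl⟩ := Nat.exists_eq_add_of_lt hj
      rw [← mul_zero ((4 * aeval t f) ^ (K - j)),
        ← (Erel_om hf (h.an _) (om_sol hn h.1 h.2).2 p).self_of_nhds, Erel, Finset.mul_sum]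
      refine Finset.sum_congr rfl fun l hl => ?_
      have hl' := Finset.mem_range.1 hl
      rw [show K - j = l + (K - (l + j)) by omega, show n + p - l = K - (l + j) by omega]
      simp only [AlgHom.toRingHom_eq_coe, RingHom.coe_coe, hasseDeriv_zero', fl]
      push_cast
      ring
  simp only [AlgHom.toRingHom_eq_coe, RingHom.coe_coe, hasseDeriv_zero', tsub_zero] at h1
  have e : ∑ j ∈ Finset.range n, aeval t (N j * (4 * f) ^ (K - (m' + j))) *
      (aeval t (hT f) ^ n * om n (ψ · ⟨0, hn⟩) (K - (m' + j)) t) = aeval t (hT f) ^ n *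
      ∑ j ∈ Finset.range n, aeval t (N j) * ((4 * aeval t f) ^ (K - (m' + j)) *
        om n (ψ · ⟨0, hn⟩) (K - (m' + j)) t) := by
    rw [Finset.mul_sum]
    refine Finset.sum_congr rfl fun j _ => ?_
    simp only [map_mul, map_pow, map_ofNat]
    ring
  rw [e, eq_neg_of_add_eq_zero_right h1, show m' + r + 2 * n = K + 1 + r + n by omega,
    show m' + r + n = K + 1 + r by omega, pow_add _ _ n]
  generalize aeval t (hT f) ^ n = a
  simp only [hT, map_neg, map_mul, map_pow, map_ofNat, aeval_X, show (4 : ℂ) = 2 * 2 by norm_num,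
    mul_pow]
  push_cast
  ring

lemma coeff_tay_pow (k p : ℕ) (t : ℂ) :
    PowerSeries.coeff p (tay (· ^ k) t) = k.choose p * t ^ (k - p) := by
  have := tay_poly (p := t) (monomial k 1)
  simp only [eval_monomial, one_mul] at this
  rw [this, Polynomial.coeff_coe, taylor_coeff, hasseDeriv_monomial, eval_monomial, mul_one]

lemma rep_coeff (hn : 0 < n) (hf : f.natDegree ≤ n) (m : ℕ) (k : Fin n) :
    Rep (hS f n) fun t ψ => ((4 ^ m * Nat.lcmUpto (2 * m) * 2 ^ (m + n) : ℤ) : ℂ) *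
      aeval t (hT f) ^ (m + 2 * n) * PowerSeries.coeff m (tay (ψ · k) t) := by
  choose z hz using cb_int (n - (k + 1))
  refine (Rep.sum (Finset.HasAntidiagonal.antidiagonal m) fun x hx =>
    (rep_high hn hf (m := m) (K := k + x.2) (by
      have := Finset.HasAntidiagonal.mem_antidiagonal.1 hx; omega)).mul
      (((k : ℕ).choose x.1 : ℤ[X]) * 4 ^ x.1 * (z x.2 : ℤ[X]) * X ^ (k - x.1))).congr fun t ψ h => ?_
  rw [tay_congr ((om_sol hn h.1 h.2).1 k), tay_mul (by fun_prop) (om_analytic (h.an _) _),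
    PowerSeries.coeff_mul, Finset.mul_sum]
  refine Finset.sum_congr rfl fun x hx => ?_
  have e : ∏ l ∈ Finset.range x.2, ((l : ℂ) + ((k : ℕ) + 3 / 2 - n)) =
      ∏ l ∈ Finset.range x.2, ((l : ℂ) + 1 / 2 - (n - (k + 1) : ℕ)) :=
    Finset.prod_congr rfl fun l _ => by rw [Nat.cast_sub k.2]; push_cast; ring
  rw [coeff_tay_pow, coeff_om (h.an _), e, ← cb]
  simp only [map_mul, map_pow, map_natCast, map_intCast, map_ofNat, aeval_X, ← hz]
  generalize Nat.lcmUpto (2 * m) = a, m + n = b, m + 2 * n = c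
  rw [← Finset.HasAntidiagonal.mem_antidiagonal.1 hx]
  push_cast
  ring

theorem exists_std (hn : 0 < n) (hf : f.natDegree = n) : ∃ R c e D Cg,
    Std ((hT f).map (algebraMap ℤ ℚ)) ((hB f n).map (Polynomial.map (algebraMap ℤ ℚ))) R c
      (hT f) e D Cg := by
  have hf0 : f ≠ 0 := by rintro rfl; simp at hf; omega
  have hi := (algebraMap ℤ ℚ).injective_int
  have hT0 : hT f ≠ 0 := mul_ne_zero (mul_ne_zero two_ne_zero X_ne_zero) hf0
  have hd : (hT f).natDegree = n + 1 := by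
    rw [hT, natDegree_mul (mul_ne_zero two_ne_zero X_ne_zero) hf0, hf, add_comm]
    congr 1
    compute_degree!
  obtain ⟨R, c, h1, h2, h3⟩ := exists_Rc ((hT f).map (algebraMap ℤ ℚ))
    ((hB f n).map (Polynomial.map (algebraMap ℤ ℚ))) ((Polynomial.map_ne_zero_iff hi).2 hT0)
    fun i j => by
      rw [degree_map_eq_of_injective hi, degree_eq_natDegree hT0, hd]
      refine degree_le_of_natDegree_le (natDegree_mul_le.trans ?_)
      rw [natDegree_X, add_comm, add_le_add_iff_right, map_apply, hB, of_apply]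
      refine natDegree_map_le.trans ((natDegree_add_le _ _).trans (max_le
        ((natDegree_add_le _ _).trans (max_le ?_ ?_)) ?_)) <;> split_ifs <;>
        first | exact (natDegree_C_mul_le _ _).trans hf.le | simp only [natDegree_zero, zero_le] | skip
      refine (natDegree_C_mul_le _ _).trans (natDegree_mul_le.trans ?_)
      have := natDegree_hasseDeriv_le f (n - j)
      rw [natDegree_X_pow]
      omega
  have h4 : ∀ t ∈ Ext R, aeval t (hT f) ≠ 0 := fun t ht => by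
    simpa only [aeval_map_algebraMap] using (h3 t ht).1
  have l0 : ∀ m, 0 < Nat.lcmUpto m := Nat.lcmUpto_pos
  refine ⟨R, c, 2 * n, fun m => 4 ^ m * Nat.lcmUpto (2 * m) * 2 ^ (m + n),
    8 * Real.exp (2 * (Real.log 4 + 4)) * 2 ^ n, h1, h2, fun t ht => (h3 t ht).1,
    fun t ht => (h3 t ht).2, h4, fun m => by have := l0 (2 * m); positivity,
    fun m m' h => mul_dvd_mul (mul_dvd_mul (pow_dvd_pow _ h)
      (Int.natCast_dvd_natCast.2 (lcm_mono (by omega)))) (pow_dvd_pow _ (by omega)),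
    fun m => ?_, fun m i => ?_⟩
  · have h5 := lcm_le m
    have h6 : 1 ≤ Real.exp (2 * (Real.log 4 + 4)) := Real.one_le_exp (by positivity)
    generalize Real.exp (2 * (Real.log 4 + 4)) = E at *
    have h7 : (1 : ℝ) ≤ 2 ^ n := one_le_pow₀ one_le_two
    push_cast
    rw [abs_of_nonneg (by positivity)]
    calc _ ≤ (4 : ℝ) ^ m * E ^ m * 2 ^ (m + n) := by gcongr
      _ = (8 * E * 1) ^ m * (1 * 1 * 2 ^ n) := by
        rw [show (8 : ℝ) = 4 * 2 by norm_num, mul_one, mul_pow, mul_pow]; ring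
      _ ≤ _ := by rw [pow_succ]; gcongr; norm_num
  · obtain ⟨N, hN⟩ := rep_coeff hn hf.le m i
    exact ⟨N, fun t ht ψ hψ => hN t ψ ⟨h4 t ht, hψ⟩⟩

end

end Pool.Agent.Lib.MP_5591bc_ag.G
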