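import Pool.Agent.Lib.MP_5591bc_ag.GOde

/-! Meromorphic functions with polynomial growth are rational; descent along `exp`. -/

namespace Pool.Agent.Lib.MP_5591bc_ag.G

open Filter Topology Metric Asymptotics Polynomial Bornology Complex

noncomputable section

/-- the exterior of a disc -/
def Ext (R : ℝ) : Set ℂ := {t | R < ‖t‖}

/-- a right half plane -/
def Hp (R : ℝ) : Set ℂ := {w | Real.log R < w.re}

lemma isOpen_Ext (R : ℝ) : IsOpen (Ext R) := isOpen_lt continuous_const continuous_norm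

lemma isOpen_Hp (R : ℝ) : IsOpen (Hp R) := isOpen_lt continuous_const continuous_re

lemma convex_Hp (R : ℝ) : Convex ℝ (Hp R) := convex_halfSpace_re_gt _

lemma exp_mem_Ext {R : ℝ} (hR : 0 < R) {w : ℂ} : exp w ∈ Ext R ↔ w ∈ Hp R := by
  simp only [Ext, Hp, Set.mem_ofPred_eq, norm_exp, Real.log_lt_iff_lt_exp hR]

lemma ne_of_Ext {R : ℝ} (hR : 0 < R) {t : ℂ} (ht : t ∈ Ext R) : t ≠ 0 :=
  norm_pos_iff.1 (hR.trans ht)

lemma log_mem_Hp {R : ℝ} (hR : 0 < R) {t : ℂ} (ht : t ∈ Ext R) : log t ∈ Hp R :=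
  (exp_mem_Ext hR).1 (by rwa [exp_log (ne_of_Ext hR ht)])

lemma preconn_Ext {R : ℝ} (hR : 0 < R) : IsPreconnected (Ext R) := by
  have : Ext R = exp '' Hp R := by
    ext t
    exact ⟨fun h => ⟨_, log_mem_Hp hR h, exp_log (ne_of_Ext hR h)⟩,
      fun ⟨w, hw, e⟩ => e ▸ (exp_mem_Ext hR).2 hw⟩
  rw [this]
  exact (convex_Hp R).isPreconnected.image _ continuous_exp.continuousOn

lemma ev_Ext (R : ℝ) : ∀ᶠ t in cobounded ℂ, t ∈ Ext R :=
  (eventually_cobounded_le_norm (R + 1)).mono fun t ht => by simp only [Ext, Set.mem_ofPred_eq]; linarith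

lemma ev_iff {P : ℂ → Prop} (h : ∀ᶠ t in cobounded ℂ, P t) : ∃ ρ, 0 < ρ ∧ ∀ t ∈ Ext ρ, P t := by
  obtain ⟨ρ, -, hρ⟩ := hasBasis_cobounded_norm.eventually_iff.1 h
  exact ⟨max ρ 1, by positivity, fun t ht =>
    hρ (show ρ ≤ ‖t‖ from (le_max_left _ _).trans (le_of_lt ht))⟩

lemma ev_exp {P : ℂ → Prop} {w : ℂ} (h : ∀ᶠ u in 𝓝 w, P (exp u)) : ∀ᶠ t in 𝓝 (exp w), P t := by
  rw [← isOpenMap_exp.map_nhds_eq continuous_exp.continuousAt]
  exact h

lemma descent {R : ℝ} (hR : 0 < R) {g : ℂ → ℂ} (hg : DifferentiableOn ℂ g (Hp R))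
    (hp : ∀ w ∈ Hp R, g (w + 2 * Real.pi * I) = g w) :
    (∀ w ∈ Hp R, g (log (exp w)) = g w) ∧ DifferentiableOn ℂ (fun t => g (log t)) (Ext R) := by
  have hm : ∀ w ∈ Hp R, ∀ n : ℤ, w + n * (2 * Real.pi * I) ∈ Hp R := fun w hw n => by
    simpa [Hp] using hw
  have h1 : ∀ w ∈ Hp R, ∀ n : ℤ, g (w + n * (2 * Real.pi * I)) = g w := fun w hw n => by
    induction n using Int.induction_on with
    | zero => simp
    | succ n ih => rw [← ih, ← hp _ (hm w hw n)]; congr 1; push_cast; ring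
    | pred n ih => rw [← ih, ← hp _ (hm w hw (-n - 1))]; congr 1; push_cast; ring
  have h2 : ∀ w ∈ Hp R, g (log (exp w)) = g w := fun w hw => by
    obtain ⟨n, hn⟩ := exp_eq_exp_iff_exists_int.1 (exp_log (exp_ne_zero w))
    rw [hn, h1 w hw]
  refine ⟨h2, fun t1 ht1 => DifferentiableAt.differentiableWithinAt ?_⟩
  have h0 := ne_of_Ext hR ht1
  have hl : DifferentiableAt ℂ (fun t => log t1 + log (t / t1)) t1 :=
    ((differentiableAt_id.div_const t1).clog (by simp [h0])).const_add _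
  have hn : Hp R ∈ 𝓝 (log t1 + log (t1 / t1)) := (isOpen_Hp R).mem_nhds (by
    simpa [h0] using log_mem_Hp hR ht1)
  refine ((hg.differentiableAt hn).comp t1 hl).congr_of_eventuallyEq ?_
  filter_upwards [hl.continuousAt.eventually_mem hn, eventually_ne_nhds h0] with t ht ht0
  rw [Function.comp_apply, ← h2 _ ht, exp_add, exp_log h0, exp_log (div_ne_zero ht0 h0),
    mul_div_cancel₀ _ h0]

lemma ne_punct {S : Set ℂ} (ho : IsOpen S) (hS : IsPreconnected S) {g : ℂ → ℂ}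
    (hg : DifferentiableOn ℂ g S) {t0 : ℂ} (h0 : t0 ∈ S) (hg0 : g t0 ≠ 0) {t : ℂ} (ht : t ∈ S) :
    ∀ᶠ s in 𝓝[≠] t, g s ≠ 0 :=
  (hg.analyticAt (ho.mem_nhds ht)).eventually_eq_zero_or_eventually_ne_zero.resolve_left fun h =>
    hg0 (ident ho hS hg (differentiableOn_const 0) ht h h0)

lemma poly_of_growth {F : ℂ → ℂ} (hF : Differentiable ℂ F) {M : ℕ}
    (h : F =O[cobounded ℂ] fun t => t ^ M) : ∃ p : ℂ[X], ∀ t, F t = p.eval t := by
  obtain ⟨K, hK⟩ := h.bound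
  obtain ⟨ρ0, -, hρ⟩ := hasBasis_cobounded_norm.eventually_iff.1 hK
  refine ⟨PowerSeries.trunc (M + 1) (tay F 0), fun t => ?_⟩
  set p := PowerSeries.trunc (M + 1) (tay F 0) with hp
  have h0 : tay (fun t => F t - p.eval t) 0 = 0 := by
    rw [tay_sub (hF.analyticAt 0) (p.differentiable.analyticAt 0), tay_poly, taylor_zero]
    ext k
    rw [map_sub, Polynomial.coeff_coe, hp, PowerSeries.coeff_trunc, map_zero]
    split_ifs with hk
    · simp
    rw [sub_zero, ← norm_le_zero_iff]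
    have ht : Tendsto (fun ρ : ℝ => |K| * ρ⁻¹) atTop (𝓝 0) := by
      simpa using tendsto_inv_atTop_zero.const_mul |K|
    refine ge_of_tendsto ht ?_
    filter_upwards [eventually_ge_atTop ρ0, eventually_ge_atTop 1] with ρ h1 h2
    refine (cauchy (R := ρ + 1) (S := |K| * ρ ^ M) hF.differentiableOn (by linarith) (by linarith)
      (fun s hs => ?_) k).trans ?_
    · have hs' := mem_sphere_zero_iff_norm.1 hs
      refine (hρ (by simpa [hs'] using h1)).trans ?_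
      rw [norm_pow, hs']
      gcongr
      exact le_abs_self K
    · rw [mul_div_assoc]
      gcongr
      rw [div_le_iff₀ (by positivity), inv_mul_eq_div, le_div_iff₀ (by positivity), ← pow_succ]
      exact pow_le_pow_right₀ h2 (by omega)
  have hd := hF.fun_sub p.differentiable
  exact sub_eq_zero.1 (ident isOpen_univ isPreconnected_univ hd.differentiableOn
    (differentiableOn_const 0) (Set.mem_univ 0) (eventually_zero_of_tay (hd.analyticAt 0) h0)
    (Set.mem_univ t))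

lemma inv_growth {R : ℝ} (hR : 0 < R) {β : ℂ → ℂ} (hβ : DifferentiableOn ℂ β (Ext R)) {N : ℕ}
    (h : β =O[cobounded ℂ] fun t => t ^ N) {t0 : ℂ} (h0 : t0 ∈ Ext R) (hb0 : β t0 ≠ 0) :
    (∀ᶠ t in cobounded ℂ, β t ≠ 0) ∧ ∃ k : ℕ, (fun t => (β t)⁻¹) =O[cobounded ℂ] fun t => t ^ k := by
  have hE := tendsto_inv₀_nhdsNE_zero.eventually (ev_Ext R)
  have ha : AnalyticAt ℂ (fun z => z ^ (N + 1) * β z⁻¹) 0 := by
    refine analyticAt_of_differentiable_on_punctured_nhds_of_continuousAt ?_ ?_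
    · filter_upwards [hE, self_mem_nhdsWithin] with z hz hz0
      exact (differentiableAt_pow _).fun_mul
        ((hβ.differentiableAt ((isOpen_Ext R).mem_nhds hz)).comp z (differentiableAt_inv hz0))
    · rw [← continuousWithinAt_compl_self]
      have h1 : (fun z => z ^ (N + 1) * β z⁻¹) =O[𝓝[≠] 0] fun z : ℂ => z := by
        refine ((isBigO_refl (fun z : ℂ => z ^ (N + 1)) _).mul
          (h.comp_tendsto tendsto_inv₀_nhdsNE_zero)).congr' EventuallyEq.rfl ?_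
        filter_upwards [self_mem_nhdsWithin] with z hz
        have : z ≠ 0 := hz
        simp only [Function.comp_apply, inv_pow]
        field_simp
        ring
      simpa [ContinuousWithinAt] using h1.trans_tendsto (tendsto_id.mono_left nhdsWithin_le_nhds)
  have hn : ¬ ∀ᶠ z in 𝓝 (0 : ℂ), z ^ (N + 1) * β z⁻¹ = 0 := fun hz => by
    have h1 := (tendsto_inv₀_cobounded.eventually hz).and (ev_Ext R)
    obtain ⟨ρ, -, hρ⟩ := ev_iff h1
    obtain ⟨t1, ht1⟩ := (ev_Ext ρ).exists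
    have h2 : ∀ᶠ t in 𝓝 t1, β t = 0 := by
      filter_upwards [(isOpen_Ext ρ).mem_nhds ht1] with t ht
      have := hρ _ ht
      simpa [ne_of_Ext hR this.2] using this.1
    exact hb0 (ident (isOpen_Ext R) (preconn_Ext hR) hβ (differentiableOn_const 0)
      (hρ _ ht1).2 h2 h0)
  obtain ⟨k, u, hu, hu0, e⟩ := ha.exists_eventuallyEq_pow_smul_nonzero_iff.mpr hn
  have hut : Tendsto (fun t : ℂ => u t⁻¹) (cobounded ℂ) (𝓝 (u 0)) :=
    hu.continuousAt.tendsto.comp tendsto_inv₀_cobounded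
  have e2 : ∀ᶠ t in cobounded ℂ, β t ≠ 0 ∧ (β t)⁻¹ = (t⁻¹ ^ (N + 1) * (u t⁻¹)⁻¹) * t ^ k := by
    filter_upwards [tendsto_inv₀_cobounded.eventually e, hut.eventually_ne hu0, ev_Ext R]
      with t h1 h2 h3
    have h4 := ne_of_Ext hR h3
    rw [inv_inv, sub_zero, smul_eq_mul] at h1
    have h5 : β t ≠ 0 := fun h => by simp [h, h2, h4] at h1
    refine ⟨h5, ?_⟩
    rw [inv_pow, inv_pow] at h1
    rw [inv_pow]
    generalize u t⁻¹ = y at h1 h2
    field_simp at h1 ⊢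
    linear_combination -h1
  refine ⟨e2.mono fun t h => h.1, k, IsBigO.congr' ?_ (e2.mono fun t h => h.2.symm)
    EventuallyEq.rfl⟩
  simpa using (((tendsto_inv₀_cobounded.pow (N + 1)).mul (hut.inv₀ hu0)).isBigO_one ℂ).mul
    (isBigO_refl (fun t : ℂ => t ^ k) _)

lemma glue_rat {R R1 : ℝ} (hR : 0 < R) {d0 d β0 β : ℂ → ℂ}
    (hd0 : DifferentiableOn ℂ d0 (ball 0 R1)) (hd : DifferentiableOn ℂ d (ball 0 R1))
    (hβ0 : DifferentiableOn ℂ β0 (Ext R)) (hβ : DifferentiableOn ℂ β (Ext R)) {N : ℕ}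
    (g0 : β0 =O[cobounded ℂ] fun t => t ^ N) (g : β =O[cobounded ℂ] fun t => t ^ N)
    (hrel : ∀ t ∈ Ext R, t ∈ ball (0 : ℂ) R1 → d t * β0 t = d0 t * β t) {t0 : ℂ} (h1 : t0 ∈ Ext R)
    (h2 : t0 ∈ ball (0 : ℂ) R1) (h3 : d0 t0 ≠ 0) (h4 : β0 t0 ≠ 0) :
    ∃ p q : ℂ[X], q ≠ 0 ∧ ∀ t ∈ Ext R, p.eval t * β0 t = q.eval t * β t := by
  classical
  obtain ⟨e0, k, hk⟩ := inv_growth hR hβ0 g0 h1 h4
  obtain ⟨r, hr⟩ : ∃ r : ℂ → ℂ, ∀ t, r t = if ‖t‖ < ‖t0‖ then d t / d0 t else β t / β0 t :=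
    ⟨_, fun _ => rfl⟩
  have h2' := mem_ball_zero_iff.1 h2
  have hm : ∀ t, MeromorphicAt r t := fun t => by
    by_cases ht : ‖t‖ < ‖t0‖
    · have hn : ball (0 : ℂ) R1 ∈ 𝓝 t := isOpen_ball.mem_nhds (mem_ball_zero_iff.2 (ht.trans h2'))
      refine ((hd.analyticAt hn).meromorphicAt.div (hd0.analyticAt hn).meromorphicAt).congr
        (nhdsWithin_le_nhds ?_)
      filter_upwards [(isOpen_lt continuous_norm continuous_const).mem_nhds ht] with s hs
      rw [hr, if_pos hs]; rfl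
    · have hE : t ∈ Ext R := lt_of_lt_of_le h1 (not_lt.1 ht)
      have hn := (isOpen_Ext R).mem_nhds hE
      refine ((hβ.analyticAt hn).meromorphicAt.div (hβ0.analyticAt hn).meromorphicAt).congr ?_
      by_cases ht1 : t ∈ ball (0 : ℂ) R1
      · filter_upwards [ne_punct isOpen_ball (convex_ball _ _).isPreconnected hd0 h2 h3 ht1,
          ne_punct (isOpen_Ext R) (preconn_Ext hR) hβ0 h1 h4 hE, nhdsWithin_le_nhds hn,
          nhdsWithin_le_nhds (isOpen_ball.mem_nhds ht1)] with s a1 a2 a3 a4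
        rw [hr, Pi.div_apply]
        split_ifs
        · rw [div_eq_div_iff a2 a1, hrel s a3 a4, mul_comm]
        · rfl
      · have : t ∈ Ext ‖t0‖ := lt_of_lt_of_le h2' (by simpa using ht1)
        filter_upwards [nhdsWithin_le_nhds ((isOpen_Ext _).mem_nhds this)] with s hs
        rw [hr, if_neg (not_lt.2 (le_of_lt hs))]; rfl
  have e1 : ∀ᶠ t in cobounded ℂ, β0 t ≠ 0 ∧ t ∈ Ext R ∧ r t = β t / β0 t := by
    filter_upwards [e0, ev_Ext R, ev_Ext ‖t0‖] with t a1 a2 a3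
    exact ⟨a1, a2, by rw [hr, if_neg (not_lt.2 (le_of_lt a3))]⟩
  obtain ⟨ρ, -, hρ⟩ := ev_iff e1
  obtain ⟨q, hq, hqa⟩ : ∃ q : ℂ[X], q ≠ 0 ∧ ∀ t ∈ closedBall (0 : ℂ) ρ,
      AnalyticAt ℂ (fun s => q.eval s * r s) t := by
    refine (isCompact_closedBall (0 : ℂ) ρ).induction_on (p := fun K => ∃ q : ℂ[X], q ≠ 0 ∧
      ∀ t ∈ K, AnalyticAt ℂ (fun s => q.eval s * r s) t) ⟨1, one_ne_zero, by simp⟩ ?_ ?_ ?_
    · rintro s t hst ⟨q, hq, h⟩
      exact ⟨q, hq, fun x hx => h x (hst hx)⟩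
    · rintro s t ⟨q1, hq1, a1⟩ ⟨q2, hq2, a2⟩
      refine ⟨q1 * q2, mul_ne_zero hq1 hq2, ?_⟩
      rintro x (hx | hx)
      · simpa [mul_assoc, mul_left_comm] using (q2.differentiable.analyticAt x).fun_mul (a1 x hx)
      · simpa [mul_assoc] using (q1.differentiable.analyticAt x).fun_mul (a2 x hx)
    · intro x _
      obtain ⟨n, hn⟩ := hm x
      refine ⟨_, nhdsWithin_le_nhds hn.eventually_analyticAt, (X - C x) ^ n,
        pow_ne_zero _ (X_sub_C_ne_zero x), fun t ht => by simpa using ht⟩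
  have hF : Differentiable ℂ fun s => q.eval s * r s := fun t => by
    by_cases ht : t ∈ closedBall (0 : ℂ) ρ
    · exact (hqa t ht).differentiableAt
    · have ht' : t ∈ Ext ρ := by simpa [Ext] using ht
      have a1 := hρ _ ht'
      have hn := (isOpen_Ext R).mem_nhds a1.2.1
      refine q.differentiableAt.fun_mul (((hβ.differentiableAt hn).fun_div
        (hβ0.differentiableAt hn) a1.1).congr_of_eventuallyEq ?_)
      filter_upwards [(isOpen_Ext ρ).mem_nhds ht'] with s hs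
      exact (hρ _ hs).2.2
  obtain ⟨p, hp⟩ := poly_of_growth hF (M := q.natDegree + (N + k)) (by
    have a1 : q.eval =O[cobounded ℂ] fun t => t ^ q.natDegree := by
      simpa using isBigO_cobounded_of_degree_le (P := q) (Q := X ^ q.natDegree)
        (by rw [degree_X_pow]; exact degree_le_natDegree)
    simp only [pow_add]
    exact a1.mul ((g.mul hk).congr' (e1.mono fun t h => by
      simp only [h.2.2, div_eq_mul_inv]) EventuallyEq.rfl))
  obtain ⟨t1, ht1⟩ := (ev_Ext ρ).exists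
  refine ⟨p, q, hq, ident (isOpen_Ext R) (preconn_Ext hR)
    (p.differentiable.differentiableOn.fun_mul hβ0) (q.differentiable.differentiableOn.fun_mul hβ)
    (hρ _ ht1).2.1 ?_⟩
  filter_upwards [(isOpen_Ext ρ).mem_nhds ht1] with s hs
  have a1 := hρ _ hs
  rw [← hp, a1.2.2, mul_assoc, div_mul_cancel₀ _ a1.1]

end

end Pool.Agent.Lib.MP_5591bc_ag.G
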