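import Mathlib

/-! Integral reduction of poles of hyperelliptic differentials; arithmetic of the denominators. -/

namespace Pool.Agent.Lib.MP_5591bc_ag.G

open Polynomial

noncomputable section

variable {A : Type*} [CommRing A]

/-- the operator describing `d (s^(-m) h y)` -/
def Eop (m : ℕ) (Φ h : A[X]) : A[X] :=
  (1 - 2 * (m : A[X])) * Φ * h + X * derivative Φ * h + 2 * Φ * (X * derivative h)

lemma coeff_theta (r : A[X]) (j : ℕ) : (X * derivative r).coeff j = j * r.coeff j := by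
  rcases j with _ | j
  · simp
  · rw [coeff_X_mul, coeff_derivative]; push_cast; ring

lemma dvd_theta {m : ℕ} {r : A[X]} (h : X ^ m ∣ r) : X ^ m ∣ X * derivative r := by
  rw [X_pow_dvd_iff] at h ⊢
  intro j hj
  rw [coeff_theta, h j hj, mul_zero]

lemma exists_root (g : A[X]) (hg : X ∣ g) (m : ℕ) : ∃ y : A[X], X ∣ y ∧ X ^ m ∣ y ^ 2 + y - g := by
  induction m with
  | zero => exact ⟨0, by simp, by simp⟩
  | succ m ih =>
    obtain ⟨y, h1, h2⟩ := ih
    have h3 : X ∣ g - y ^ 2 := dvd_sub hg (dvd_pow h1 two_ne_zero)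
    refine ⟨g - y ^ 2, h3, ?_⟩
    have : (g - y ^ 2) ^ 2 + (g - y ^ 2) - g = (y ^ 2 + y - g) * -((g - y ^ 2) + y) := by ring
    rw [this, pow_succ]
    exact mul_dvd_mul h2 (dvd_neg.2 (dvd_add h3 h1))

lemma dvd_sub_trunc (r : A[X]) (m : ℕ) :
    X ^ m ∣ r - ∑ j ∈ Finset.range m, monomial j (r.coeff j) := by
  rw [X_pow_dvd_iff]
  intro j hj
  simp [coeff_monomial, hj]

lemma red (F : A) (g : A[X]) (hg : X ∣ g) (m : ℕ) (ℓ : ℤ)
    (hℓ : ∀ j < m, (1 - 2 * m + 2 * j : ℤ) ∣ ℓ) : ∃ h : ℕ → A,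
      X ^ m ∣ Eop m (C F * (1 + 4 * g)) (∑ j ∈ Finset.range m, monomial j (h j)) - C (ℓ * F) := by
  obtain ⟨y, h1, h2⟩ := exists_root g hg m
  obtain ⟨v, hv⟩ : ∃ v, X ^ m ∣ (1 + 2 * y) * v - 1 := by
    refine ⟨∑ i ∈ Finset.range m, (-2 * y) ^ i, ?_⟩
    rw [show 1 + 2 * y = 1 - -2 * y by ring, mul_neg_geom_sum, sub_sub_cancel_left, dvd_neg]
    exact pow_dvd_pow_of_dvd (h1.mul_left _) m
  obtain ⟨k, hk⟩ : ∃ k : A[X], X ^ m ∣ (1 - 2 * (m : A[X])) * k + 2 * (X * derivative k) -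
      (ℓ : A[X]) * v := by
    refine ⟨∑ j ∈ Finset.range m, monomial j ((ℓ / (1 - 2 * m + 2 * j) : ℤ) * v.coeff j), ?_⟩
    rw [X_pow_dvd_iff]
    intro j hj
    have e1 : (1 - 2 * m : A[X]) = C (1 - 2 * (m : A)) := by simp [map_ofNat]
    have e2 := congrArg (Int.cast : ℤ → A) (Int.mul_ediv_cancel' (hℓ j hj))
    rw [e1, coeff_sub, coeff_add, coeff_C_mul, coeff_ofNat_mul, coeff_theta, coeff_intCast_mul]
    simp only [finsetSum_coeff, coeff_monomial, Finset.sum_ite_eq', Finset.mem_range, hj, if_true]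
    push_cast at e2
    linear_combination v.coeff j * e2
  refine ⟨fun j => (v * k).coeff j, ?_⟩
  have h4 := dvd_sub_trunc (v * k) m
  set h := ∑ j ∈ Finset.range m, monomial j ((v * k).coeff j)
  have d1 := dvd_theta h2
  have d2 := dvd_theta hv
  have d4 := dvd_theta h4
  have : Eop m (C F * (1 + 4 * g)) h - C (ℓ * F) = C F * (2 * (1 + 2 * y) * k *
      (X * derivative ((1 + 2 * y) * v - 1)) +
      ((1 + 2 * y) * v - 1) * ((ℓ : A[X]) * ((1 + 2 * y) * v + 1)) +
      ((1 - 2 * (m : A[X])) * k + 2 * (X * derivative k) - (ℓ : A[X]) * v) * ((1 + 2 * y) ^ 2 * v) -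
      (y ^ 2 + y - g) * (4 * ((1 - 2 * (m : A[X])) * (v * k) + 2 * (X * derivative (v * k)))) -
      (X * derivative (y ^ 2 + y - g)) * (4 * (v * k)) -
      (v * k - h) * ((1 - 2 * (m : A[X])) * (1 + 4 * g) + X * derivative (1 + 4 * g)) -
      (X * derivative (v * k - h)) * (2 * (1 + 4 * g))) := by
    simp only [Eop, derivative_mul, derivative_add, derivative_sub, derivative_one, derivative_C,
      derivative_ofNat, sq, map_mul, map_intCast]
    ring
  rw [this]
  exact Dvd.dvd.mul_left (dvd_sub (dvd_sub (dvd_sub (dvd_sub (dvd_add (dvd_add (d2.mul_left _)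
    (hv.mul_right _)) (hk.mul_right _)) (h2.mul_right _)) (d1.mul_right _)) (h4.mul_right _))
    (d4.mul_right _)) _

lemma Eop_eq (m n : ℕ) (a h : ℕ → A) :
    Eop m (∑ l ∈ Finset.range (n + 1), monomial l (a l)) (∑ j ∈ Finset.range m, monomial j (h j)) =
      ∑ j ∈ Finset.range m, ∑ l ∈ Finset.range (n + 1),
        monomial (l + j) ((1 - 2 * m + l + 2 * j) * a l * h j) := by
  have th : ∀ (j : ℕ) (x : A), X * derivative (monomial j x) = monomial j (j * x) := fun j x => by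
    ext i
    rw [coeff_theta, coeff_monomial, coeff_monomial]
    split_ifs with hi <;> simp [hi]
  simp only [Eop, derivative_sum, Finset.mul_sum, Finset.sum_mul, th, ← Finset.sum_add_distrib]
  refine Finset.sum_congr rfl fun j _ => Finset.sum_congr rfl fun l _ => ?_
  simp only [← C_mul_X_pow_eq_monomial, map_mul, map_add, map_sub, map_natCast, map_one, map_ofNat]
  ring

/-- the reduction formula evaluated on a sequence satisfying the exactness relations -/
lemma red_eval (f : ℕ → A) (n m : ℕ) (hm : 0 < m) (ℓ : ℤ)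
    (hℓ : ∀ j < m, (1 - 2 * m + 2 * j : ℤ) ∣ ℓ) : ∃ N : ℕ → A, ∀ (φ : A →+* ℂ) (w : ℕ → ℂ),
      (∀ j < m, ∑ l ∈ Finset.range (n + 1),
        (1 - 2 * m + l + 2 * j) * (φ (f l) * (4 * φ (f 0)) ^ l) * w (l + j) = 0) →
      ℓ * φ (f 0) * w 0 + ∑ j ∈ Finset.range n, φ (N j) * w (m + j) = 0 := by
  obtain ⟨h, hh⟩ := red (f 0) (∑ l ∈ Finset.range n,
    monomial (l + 1) (f (l + 1) * (4 * f 0) ^ l)) (Finset.dvd_sum fun l _ =>
      X_dvd_iff.2 (by simp [coeff_monomial])) m ℓ hℓ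
  have e1 : C (f 0) * (1 + 4 * ∑ l ∈ Finset.range n, monomial (l + 1) (f (l + 1) * (4 * f 0) ^ l)) =
      ∑ l ∈ Finset.range (n + 1), monomial l (f l * (4 * f 0) ^ l) := by
    rw [Finset.sum_range_succ', mul_add, add_comm, Finset.mul_sum, Finset.mul_sum]
    congr 1
    · refine Finset.sum_congr rfl fun l _ => ?_
      simp only [← C_mul_X_pow_eq_monomial, map_mul, map_pow, map_ofNat]
      ring
    · simp
  rw [e1, Eop_eq] at hh
  set P := ∑ j ∈ Finset.range m, ∑ l ∈ Finset.range (n + 1),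
    monomial (l + j) ((1 - 2 * (m : A) + l + 2 * j) * (f l * (4 * f 0) ^ l) * h j) with hP
  refine ⟨fun j => P.coeff (m + j), fun φ w hw => ?_⟩
  have e2 : ∑ s ∈ Finset.range (m + n), φ (P.coeff s) * w s = 0 := by
    simp only [hP, finsetSum_coeff, map_sum, Finset.sum_mul]
    rw [Finset.sum_comm]
    refine Finset.sum_eq_zero fun j hj => ?_
    have hj' := Finset.mem_range.1 hj
    rw [Finset.sum_comm, ← mul_zero (φ (h j)), ← hw j hj', Finset.mul_sum]
    refine Finset.sum_congr rfl fun l hl => ?_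
    have hl' := Finset.mem_range.1 hl
    rw [Finset.sum_eq_single (l + j)]
    · simp only [coeff_monomial, if_true, map_mul, map_add, map_sub, map_natCast, map_one,
        map_ofNat, map_pow]
      ring
    · intro s _ hs; simp [coeff_monomial, hs.symm]
    · intro hs; exact absurd (Finset.mem_range.2 (by omega)) hs
  rw [Finset.sum_range_add, Finset.sum_eq_single 0] at e2
  · have := X_pow_dvd_iff.1 hh 0 hm
    rw [coeff_sub, sub_eq_zero, coeff_C_zero] at this
    rw [this] at e2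
    simpa using e2
  · intro s hs h0
    have := X_pow_dvd_iff.1 hh s (Finset.mem_range.1 hs)
    rw [coeff_sub, sub_eq_zero, coeff_C, if_neg h0] at this
    rw [this]; simp
  · intro hs; exact absurd (Finset.mem_range.2 hm) hs

/-- Taylor coefficients of `s^(i - 1/2)` -/
def cb (q i : ℕ) : ℂ := (∏ l ∈ Finset.range q, ((l : ℂ) + 1 / 2 - i)) / q.factorial

lemma cb_int (i : ℕ) : ∀ q, ∃ z : ℤ, 4 ^ q * cb q i = z := by
  have hf : ∀ q : ℕ, (q.factorial : ℂ) ≠ 0 := fun q => by exact_mod_cast q.factorial_ne_zero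
  have hq : ∀ q : ℕ, (q : ℂ) + 1 ≠ 0 := fun q => by exact_mod_cast q.succ_ne_zero
  induction i with
  | zero =>
    intro q
    refine ⟨q.centralBinom, ?_⟩
    induction q with
    | zero => simp [cb]
    | succ q ih =>
      have e : ((q : ℂ) + 1) * (q + 1).centralBinom = 2 * (2 * q + 1) * q.centralBinom := by
        exact_mod_cast Nat.succ_mul_centralBinom_succ q
      apply mul_left_cancel₀ (hq q)
      push_cast at ih ⊢
      rw [e, ← ih, cb, cb, Finset.prod_range_succ, Nat.factorial_succ]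
      have := hf q
      have := hq q
      push_cast
      field_simp
      ring
  | succ i ih =>
    intro q
    rcases q with _ | q
    · exact ⟨1, by simp [cb]⟩
    obtain ⟨z, hz⟩ := ih (q + 1)
    obtain ⟨w, hw⟩ := ih q
    refine ⟨z - 4 * w, ?_⟩
    have e : ∏ l ∈ Finset.range q, (((l + 1 : ℕ) : ℂ) + 1 / 2 - (i + 1 : ℕ)) =
        ∏ l ∈ Finset.range q, ((l : ℂ) + 1 / 2 - i) :=
      Finset.prod_congr rfl fun l _ => by push_cast; ring
    push_cast
    rw [← hz, ← hw, cb, cb, cb, Finset.prod_range_succ', Finset.prod_range_succ, e,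
      Nat.factorial_succ]
    have := hf q
    have := hq q
    generalize ∏ l ∈ Finset.range q, ((l : ℂ) + 1 / 2 - i) = a
    push_cast
    field_simp
    ring

lemma lcm_le (m : ℕ) : (Nat.lcmUpto (2 * m) : ℝ) ≤ Real.exp (2 * (Real.log 4 + 4)) ^ m := by
  have h1 := Chebyshev.psi_le_const_mul_self (x := (2 * m : ℕ)) (by positivity)
  rw [Chebyshev.psi_eq_log_lcmUpto, Real.log_le_iff_le_exp
    (by exact_mod_cast Nat.lcmUpto_pos _)] at h1
  rw [← Real.exp_nat_mul]
  refine h1.trans (le_of_eq ?_)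
  push_cast
  ring_nf

lemma lcm_mono {a b : ℕ} (h : a ≤ b) : Nat.lcmUpto a ∣ Nat.lcmUpto b :=
  Finset.lcm_mono (Finset.Icc_subset_Icc_right h)

lemma dvd_lcm_two {m m' j : ℕ} (hj : j < m') (h : m' ≤ m) :
    (1 - 2 * m' + 2 * j : ℤ) ∣ Nat.lcmUpto (2 * m) := by
  obtain ⟨p, rfl⟩ := Nat.exists_eq_add_of_lt hj
  have : 2 * p + 1 ∣ Nat.lcmUpto (2 * m) :=
    Finset.dvd_lcm (f := id) (Finset.mem_Icc.2 ⟨by omega, by omega⟩)
  rw [← neg_dvd, show -(1 - 2 * (j + p + 1 : ℕ) + 2 * j : ℤ) = (2 * p + 1 : ℕ) by push_cast; ring]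
  exact Int.natCast_dvd_natCast.2 this

end

end Pool.Agent.Lib.MP_5591bc_ag.G
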