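import Pool.Agent.Lib.MP_5591bc_ag.GWin
import Pool.Agent.Lib.MP_5591bc_ag.GRed

/-! The Picard-Fuchs system of `y^2 = f(x)(x - t)` satisfies Galochkin's condition. -/

namespace Pool.Agent.Lib.MP_5591bc_ag.G

open Filter Topology Polynomial Matrix Bornology Asymptotics

noncomputable section

lemma exists_Rc {ν : Type*} [Fintype ν] (T : ℚ[X]) (B : Matrix ν ν ℚ[X]) (hT : T ≠ 0)
    (h : ∀ i j, (X * B i j).degree ≤ T.degree) : ∃ R c : ℝ, 1 ≤ R ∧ 0 ≤ c ∧
      ∀ t ∈ Ext R, aeval t T ≠ 0 ∧ ∀ i j, ‖t‖ * ‖Az T B t i j‖ ≤ c := by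
  have h1 : ∀ᶠ t : ℂ in cobounded ℂ, aeval t T ≠ 0 := by
    obtain ⟨ρ, hρ⟩ := (T.rootSet_finite ℂ).isBounded.exists_norm_le
    exact (ev_Ext ρ).mono fun t ht h0 => not_le.2 ht (hρ t (mem_rootSet.2 ⟨hT, h0⟩))
  have h2 : ∀ x : ν × ν, ∃ c : ℝ, 0 < c ∧ ∀ᶠ t : ℂ in cobounded ℂ,
      ‖aeval t (X * B x.1 x.2)‖ ≤ c * ‖aeval t T‖ := fun x => by
    have := isBigO_cobounded_of_degree_le (P := (X * B x.1 x.2).map (algebraMap ℚ ℂ))
      (Q := T.map (algebraMap ℚ ℂ)) (by rw [degree_map, degree_map]; exact h _ _)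
    obtain ⟨c, hc, hc'⟩ := this.exists_pos
    exact ⟨c, hc, by simpa only [eval_map_algebraMap] using hc'.bound⟩
  choose c hc hc' using h2
  obtain ⟨ρ, hρ, H⟩ := ev_iff (h1.and (eventually_all.2 hc'))
  refine ⟨max ρ 1, ∑ x, c x, le_max_right _ _, Finset.sum_nonneg fun x _ => (hc x).le,
    fun t ht => ?_⟩
  obtain ⟨a1, a2⟩ := H t (show ρ < ‖t‖ from lt_of_le_of_lt (le_max_left _ _) ht)
  refine ⟨a1, fun i j => le_trans ?_ (Finset.single_le_sum (fun x _ => (hc x).le)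
    (Finset.mem_univ (i, j)))⟩
  have := a2 (i, j)
  rw [map_mul, aeval_X, norm_mul] at this
  rw [Az, of_apply, norm_div, ← mul_div_assoc, div_le_iff₀ (norm_pos_iff.2 a1)]
  exact this

/-- Taylor coefficients of `f` at `t` -/
def fl (f : ℤ[X]) (l : ℕ) (t : ℂ) : ℂ := aeval t (hasseDeriv l f)

lemma fl_zero (f : ℤ[X]) (t : ℂ) : fl f 0 t = aeval t f := by simp [fl]

lemma hasDerivAt_fl (f : ℤ[X]) (l : ℕ) (t : ℂ) :
    HasDerivAt (fl f l) ((l + 1) * fl f (l + 1) t) t := by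
  have h := congrArg (fun g => aeval t (g f)) (hasseDeriv_comp (R := ℤ) 1 l)
  simp only [LinearMap.comp_apply, hasseDeriv_one', add_comm 1 l, Nat.choose_one_right] at h
  have := (hasseDeriv l f).hasDerivAt_aeval t
  rw [h] at this
  exact this.congr_deriv (by simp [fl, add_mul])

/-- the common denominator -/
def hT (f : ℤ[X]) : ℤ[X] := 2 * X * f

/-- the numerators -/
def hB (f : ℤ[X]) (n : ℕ) : Matrix (Fin n) (Fin n) ℤ[X] := of fun k j =>
  (if j = k then C (2 * k : ℤ) * f else 0) +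
  (if (j : ℕ) = k + 1 then C (2 * k + 3 - 2 * n : ℤ) * f else 0) +
  (if (k : ℕ) + 1 = n then C (n - j - 1 : ℤ) * (hasseDeriv (n - j) f * X ^ (n - j)) else 0)

/-- the Picard-Fuchs system -/
def hA (f : ℤ[X]) (n : ℕ) : ℂ → Matrix (Fin n) (Fin n) ℂ :=
  Az ((hT f).map (algebraMap ℤ ℚ)) ((hB f n).map (Polynomial.map (algebraMap ℤ ℚ)))

/-- the relations coming from exact forms -/
def Erel (f : ℤ[X]) (n p : ℕ) (w : ℕ → ℂ) (t : ℂ) : ℂ :=
  ∑ l ∈ Finset.range (n + 1), ((l : ℂ) - 1 - 2 * p) * fl f l t * w (n + p - l)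

lemma Erel_zero (f : ℤ[X]) (n : ℕ) (w : ℕ → ℂ) (t : ℂ) : Erel f n 0 w t =
    ∑ j : Fin n, ((n : ℂ) - j - 1) * fl f (n - j) t * w j - aeval t f * w n := by
  rw [Erel, ← Finset.sum_range_reflect, Finset.sum_range_succ, Finset.sum_range]
  simp only [add_tsub_cancel_right, tsub_self, fl_zero, add_zero, tsub_zero, sub_eq_add_neg]
  congr 1
  · refine Finset.sum_congr rfl fun j _ => ?_
    rw [Nat.cast_sub j.2.le, Nat.sub_sub_self j.2.le]
    ring
  · simp

lemma hA_mulVec {f : ℤ[X]} {n : ℕ} {t : ℂ} (ht : aeval t (hT f) ≠ 0) {w : ℕ → ℂ}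
    (hE : Erel f n 0 w t = 0) (k : Fin n) : (hA f n t *ᵥ fun j => t ^ (j : ℕ) * w j) k =
      (k : ℕ) * t ^ ((k : ℕ) - 1) * w k + t ^ (k : ℕ) * ((k + 3 / 2 - n) * w (k + 1)) := by
  have e0 : aeval t (hT f) = 2 * t * aeval t f := by simp [hT, map_ofNat]
  have h0 : t ≠ 0 := fun h => ht (by rw [e0]; simp [h])
  have h1 : aeval t f ≠ 0 := fun h => ht (by simp [e0, h])
  have e1 : ((k : ℕ) : ℂ) * t ^ ((k : ℕ) - 1) = k * t ^ (k : ℕ) / t := by
    rcases (k : ℕ) with _ | m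
    · simp
    · rw [add_tsub_cancel_right, pow_succ]; field_simp
  simp only [hA, Az, mulVec, dotProduct, of_apply, map_apply, aeval_map_algebraMap, hB, map_add,
    apply_ite (aeval t), map_zero, add_div, add_mul, Finset.sum_add_distrib, ite_div, zero_div,
    ite_mul, zero_mul, Finset.sum_ite_eq', Finset.mem_univ, if_true, map_mul, aeval_C, e0, e1]
  by_cases hk : (k : ℕ) + 1 = n
  · rw [Finset.sum_eq_zero fun j _ => if_neg (by omega)]
    simp only [if_pos hk]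
    rw [Erel_zero, sub_eq_zero] at hE
    have e2 : ∀ j : Fin n, algebraMap ℤ ℂ (n - j - 1 : ℤ) * (aeval t (hasseDeriv (n - j) f) *
        aeval t (X ^ (n - j) : ℤ[X])) / (2 * t * aeval t f) * (t ^ (j : ℕ) * w j) =
        t ^ n / (2 * t * aeval t f) * (((n : ℂ) - j - 1) * fl f (n - j) t * w j) := fun j => by
      rw [show t ^ n = t ^ (n - j) * t ^ (j : ℕ) by rw [← pow_add, Nat.sub_add_cancel j.2.le]]
      simp only [fl, map_pow, aeval_X, eq_intCast]
      push_cast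
      ring
    simp only [e2]
    rw [← Finset.mul_sum, hE, hk]
    generalize (k : ℕ) = m at *
    subst hk
    simp only [eq_intCast]
    push_cast
    field_simp
    ring
  · rw [Finset.sum_eq_single ⟨k + 1, by omega⟩ (fun j _ hj => if_neg fun h => hj (Fin.ext h))
      (by simp)]
    simp only [if_neg hk, if_true, eq_intCast, Finset.sum_const_zero]
    push_cast
    field_simp
    ring

/-- the periods of `(x - t)^(n-1-k) dx / y`, recovered from the first one -/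
def om (n : ℕ) (g : ℂ → ℂ) : ℕ → ℂ → ℂ
  | 0 => g
  | k + 1 => fun t => deriv (om n g k) t / (k + 3 / 2 - n)

lemma half_ne (k n : ℕ) : (k : ℂ) + 3 / 2 - n ≠ 0 := fun h => by
  have : ((2 * k + 3 : ℕ) : ℂ) = (2 * n : ℕ) := by push_cast; linear_combination 2 * h
  have := Nat.cast_injective this
  omega

lemma om_analytic {n : ℕ} {g : ℂ → ℂ} {p : ℂ} (hg : AnalyticAt ℂ g p) (k : ℕ) :
    AnalyticAt ℂ (om n g k) p := by
  induction k with
  | zero => exact hg
  | succ k ih => exact ih.deriv.div_const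

lemma om_deriv {n : ℕ} {g : ℂ → ℂ} {p : ℂ} (hg : AnalyticAt ℂ g p) (k : ℕ) :
    ∀ᶠ t in 𝓝 p, HasDerivAt (om n g k) ((k + 3 / 2 - n) * om n g (k + 1) t) t :=
  (om_analytic hg k).eventually_analyticAt.mono fun t ht => by
    rw [om, mul_div_cancel₀ _ (half_ne k n)]
    exact ht.differentiableAt.hasDerivAt

lemma coeff_om {n : ℕ} {g : ℂ → ℂ} {p : ℂ} (hg : AnalyticAt ℂ g p) (q : ℕ) : ∀ k,
    PowerSeries.coeff q (tay (om n g k) p) =
      (∏ l ∈ Finset.range q, ((l : ℂ) + (k + 3 / 2 - n))) / q.factorial * om n g (k + q) p := by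
  induction q with
  | zero => intro k; simp [coeff_tay]
  | succ q ih =>
    intro k
    have e : tay (deriv (om n g k)) p = tay (fun t => (k + 3 / 2 - n) * om n g (k + 1) t) p :=
      tay_congr ((om_deriv hg k).mono fun t ht => ht.deriv)
    have := congrArg (PowerSeries.coeff q) e
    rw [tay_deriv, tay_cmul (om_analytic hg _), PowerSeries.coeff_derivative,
      PowerSeries.coeff_C_mul, ih, ← eq_div_iff (by exact_mod_cast q.succ_ne_zero)] at this
    have e2 : ∏ l ∈ Finset.range q, ((l : ℂ) + ((k + 1 : ℕ) + 3 / 2 - n)) =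
        ∏ l ∈ Finset.range q, (((l + 1 : ℕ) : ℂ) + (k + 3 / 2 - n)) :=
      Finset.prod_congr rfl fun l _ => by push_cast; ring
    rw [this, Finset.prod_range_succ', Nat.factorial_succ, e2, add_assoc k 1 q, add_comm 1 q]
    generalize ∏ l ∈ Finset.range q, (((l + 1 : ℕ) : ℂ) + (k + 3 / 2 - n)) = a
    push_cast
    field_simp
    ring

lemma Erel_om {f : ℤ[X]} {n : ℕ} (hf : f.natDegree ≤ n) {g : ℂ → ℂ} {p : ℂ} (hg : AnalyticAt ℂ g p)
    (h0 : ∀ᶠ t in 𝓝 p, Erel f n 0 (om n g · t) t = 0) (q : ℕ) :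
    ∀ᶠ t in 𝓝 p, Erel f n q (om n g · t) t = 0 := by
  induction q with
  | zero => exact h0
  | succ q ih =>
    have h1 : ∀ᶠ t in 𝓝 p, ∀ l ∈ Finset.range (n + 1), HasDerivAt (om n g (n + q - l))
        (((n + q - l : ℕ) + 3 / 2 - n) * om n g (n + q - l + 1) t) t :=
      (Finset.eventually_all _).2 fun l _ => om_deriv hg _
    filter_upwards [ih.eventually_nhds, h1] with t h2 h3
    have h4 := HasDerivAt.fun_sum fun l hl =>
      (((hasDerivAt_fl f l t).const_mul ((l : ℂ) - 1 - 2 * q)).fun_mul (h3 l hl))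
    have h5 := h4.unique ((hasDerivAt_const t (0 : ℂ)).congr_of_eventuallyEq h2)
    have e1 : ∑ l ∈ Finset.range (n + 1), ((l : ℂ) - 1 - 2 * q) * ((l + 1) * fl f (l + 1) t) *
        om n g (n + q - l) t = ∑ l ∈ Finset.range (n + 1), ((l : ℂ) - 2 - 2 * q) * l * fl f l t *
          om n g (n + (q + 1) - l) t := by
      rw [Finset.sum_range_succ, Finset.sum_range_succ', fl,
        hasseDeriv_eq_zero_of_lt_natDegree f (n + 1) (by omega)]
      simp only [map_zero, mul_zero, zero_mul, Nat.cast_zero, add_zero]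
      refine Finset.sum_congr rfl fun l _ => ?_
      rw [show n + (q + 1) - (l + 1) = n + q - l by omega]
      push_cast
      ring
    rw [Finset.sum_add_distrib, e1, ← Finset.sum_add_distrib] at h5
    have h6 : (q : ℂ) + 1 / 2 ≠ 0 := by simpa using fun h => half_ne q 1 (by linear_combination h)
    apply mul_left_cancel₀ h6
    rw [mul_zero, ← h5, Erel, Finset.mul_sum]
    refine Finset.sum_congr rfl fun l hl => ?_
    have hl' := Finset.mem_range.1 hl
    rw [show n + q - l + 1 = n + (q + 1) - l by omega, Nat.cast_sub (by omega)]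
    push_cast
    ring

lemma om_sol {f : ℤ[X]} {n : ℕ} (hn : 0 < n) {ψ : ℂ → Fin n → ℂ} {p : ℂ} (hp : aeval p (hT f) ≠ 0)
    (hψ : ∀ᶠ t in 𝓝 p, VSol (hA f n) ψ t) :
    (∀ k : Fin n, ∀ᶠ t in 𝓝 p, ψ t k = t ^ (k : ℕ) * om n (ψ · ⟨0, hn⟩) k t) ∧
      ∀ᶠ t in 𝓝 p, Erel f n 0 (om n (ψ · ⟨0, hn⟩) · t) t = 0 := by
  have h1 : ∀ᶠ t in 𝓝 p, aeval t (hT f) ≠ 0 :=
    (analyticAt_aeval _ p).continuousAt.eventually_ne hp
  have e0 : ∀ t : ℂ, aeval t (hT f) = 2 * t * aeval t f := fun t => by simp [hT, map_ofNat]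
  obtain ⟨w, hw1, hw2⟩ : ∃ w : ℕ → ℂ → ℂ, (∀ k : Fin n, w k = fun t => ψ t k / t ^ (k : ℕ)) ∧
      ∀ t, aeval t f ≠ 0 → Erel f n 0 (w · t) t = 0 := by
    refine ⟨fun k t => if h : k < n then ψ t ⟨k, h⟩ / t ^ k else (∑ j : Fin n, ((n : ℂ) - j - 1) *
      fl f (n - j) t * (ψ t j / t ^ (j : ℕ))) / aeval t f, fun k => by simp, fun t ht => ?_⟩
    rw [Erel_zero]
    simp only [Fin.is_lt, dif_pos, lt_irrefl, dif_neg, not_false_eq_true, Fin.eta]
    rw [mul_div_cancel₀ _ ht, sub_self]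
  have h2 : ∀ k ≤ n, om n (ψ · ⟨0, hn⟩) k =ᶠ[𝓝 p] w k := fun k hk => by
    induction k with
    | zero => exact Eventually.of_forall fun t => by simp [om, hw1 ⟨0, hn⟩]
    | succ k ih =>
      filter_upwards [(ih (by omega)).deriv, h1, hψ] with t h3 h4 h5
      have h0 : t ≠ 0 := fun h => h4 (by simp [e0, h])
      have h6 := hA_mulVec h4 (hw2 t fun h => h4 (by simp [e0, h])) ⟨k, hk⟩
      have e1 : ψ t = fun j : Fin n => t ^ (j : ℕ) * w j t := by
        ext j; rw [hw1, mul_div_cancel₀ _ (pow_ne_zero _ h0)]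
      have h7 := (hasDerivAt_pi.1 h5 ⟨k, hk⟩).fun_div (hasDerivAt_pow k t) (pow_ne_zero _ h0)
      rw [← hw1 ⟨k, hk⟩, e1, h6] at h7
      simp only [om]
      rw [h3, h7.deriv, div_eq_iff (half_ne _ _)]
      field_simp
      ring
  refine ⟨fun k => ?_, ?_⟩
  · filter_upwards [h2 k k.2.le, h1] with t h3 h4
    rw [h3, hw1, mul_div_cancel₀ _ (pow_ne_zero _ fun h => h4 (by simp [e0, h]))]
  · have h3 : ∀ᶠ t in 𝓝 p, ∀ l ∈ Finset.range (n + 1), om n (ψ · ⟨0, hn⟩) (n + 0 - l) t =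
        w (n + 0 - l) t := (Finset.eventually_all _).2 fun l _ => h2 _ (by omega)
    filter_upwards [h3, h1] with t h3 h4
    rw [← hw2 t fun h => h4 (by simp [e0, h])]
    exact Finset.sum_congr rfl fun l hl => by simp only [h3 l hl]

end

end Pool.Agent.Lib.MP_5591bc_ag.G
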