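import Pool.Agent.Lib.MP_5591bc_ag.GVal0

/-! Values of G-functions at `1/b`: every rational relation lifts to a functional relation. -/

namespace Pool.Agent.Lib.MP_5591bc_ag.G

open Filter Topology Metric Matrix Polynomial

noncomputable section

variable {ι : Type*} [Fintype ι]

lemma exists_den {α : Type*} [Finite α] (x : α → ℚ) :
    ∃ q : ℤ, q ≠ 0 ∧ ∀ i, ∃ z : ℤ, (q : ℚ) * x i = z := by
  obtain ⟨q, hq⟩ := IsLocalization.exist_integer_multiples_of_finite (nonZeroDivisors ℤ) x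
  refine ⟨q, nonZeroDivisors.coe_ne_zero q, fun i => ?_⟩
  obtain ⟨z, hz⟩ := hq i
  exact ⟨z, by simpa using hz.symm⟩

lemma Den.ratC {q c : ℤ} {J : ℕ} {x : ℚ} (h : ∃ z : ℤ, (q : ℚ) * x = z) :
    Den q c J (PowerSeries.C (algebraMap ℚ ℂ x)) := fun j _ => by
  rw [PowerSeries.coeff_C]
  split_ifs with hj
  · obtain ⟨z, hz⟩ := h
    exact ⟨z, by simpa [hj] using congrArg (algebraMap ℚ ℂ) hz⟩
  · exact ⟨0, by simp⟩

lemma pr_eq {S : Type*} [CommRing S] (τ : ℚ[X] →+* PowerSeries S) (Φ : ι → PowerSeries S)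
    {κ : Type*} (M : Matrix κ ι ℚ[X]) : (fun k => pr τ Φ (M k)) = M.map τ *ᵥ Φ := rfl

omit [Fintype ι] in
lemma Az_eq (T : ℚ[X]) (B : Matrix ι ι ℚ[X]) (z : ℂ) :
    Az T B z = (aeval z T)⁻¹ • B.map (aeval z) := by
  ext i j; simp [Az, div_eq_inv_mul]

lemma hmC (z : ℂ) {α β : Type*} (M : Matrix α β ℚ) : (M.map C).map (aeval z) =
    M.map (algebraMap ℚ ℂ) := by ext i j; simp

lemma aeval_Dc (T : ℚ[X]) (B : Matrix ι ι ℚ[X]) (ρ : ι → ℚ[X]) {z : ℂ} (hz : aeval z T ≠ 0) :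
    aeval z T • (deriv (fun z : ℂ => fun μ => aeval z (ρ μ)) z +
      (fun μ => aeval z (ρ μ)) ᵥ* Az T B z) = fun μ => aeval z (Dc T Bᵀ ρ μ) := by
  rw [(hasDerivAt_pi.2 fun μ => (ρ μ).hasDerivAt_aeval z).deriv]
  ext μ
  simp only [Dc, Az, vecMul, mulVec, dotProduct, Pi.smul_apply, Pi.add_apply, smul_eq_mul, map_add,
    map_mul, map_sum, of_apply, transpose_apply, mul_add, Finset.mul_sum]
  congr 1
  exact Finset.sum_congr rfl fun ν _ => by field_simp

lemma exists_split (V : Set (ι → ℚ[X])) (ξ : ℚ) [DecidableEq ι] (hV0 : 0 ∈ V)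
    (hVa : ∀ x ∈ V, ∀ y ∈ V, x + y ∈ V) (hVs : ∀ (q : ℚ[X]), ∀ x ∈ V, q • x ∈ V) :
    ∃ (r : ℕ) (U : Matrix (Fin r) ι ℚ) (π : Matrix ι (Fin r) ℚ) (Sg : Matrix ι ι ℚ[X]),
      r ≤ Fintype.card ι ∧ U * π = 1 ∧ (∀ μ, Sg μ ∈ V) ∧ Sg.map (eval ξ) + π * U = 1 ∧
      ∀ ρ ∈ V, ev ξ ρ ᵥ* π = 0 := by
  obtain ⟨r0, x, η, -, h2⟩ := exists_frame fun ρ : V => ev ξ ρ.1
  obtain ⟨Sg, hSg⟩ : ∃ Sg : Matrix ι ι ℚ[X], ∀ μ, Sg μ = ∑ j, C (η j μ) • (x j).1 :=
    ⟨of fun μ => _, fun _ => rfl⟩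
  have hS : ∀ μ, Sg μ ∈ V := fun μ => by
    rw [hSg]
    exact Finset.sum_induction _ (· ∈ V) (fun a b ha hb => hVa a ha b hb) hV0
      fun j _ => hVs _ _ (x j).2
  have hP : ∀ ρ ∈ V, ev ξ ρ ᵥ* (1 - Sg.map (eval ξ)) = 0 := fun ρ hρ => by
    rw [vecMul_sub, vecMul_one, sub_eq_zero]
    refine (h2 ⟨ρ, hρ⟩).trans ?_
    ext ν
    simp only [vecMul, dotProduct, map_apply, hSg, Finset.sum_apply, Pi.smul_apply, smul_eq_mul,
      eval_finsetSum, eval_mul, eval_C, Finset.sum_mul, Finset.mul_sum, ev]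
    rw [Finset.sum_comm]
    exact Finset.sum_congr rfl fun _ _ => Finset.sum_congr rfl fun _ _ => by ring
  obtain ⟨N, hN⟩ : ∃ N : Matrix ι ι ℚ, N = 1 - Sg.map (eval ξ) := ⟨_, rfl⟩
  rw [← hN] at hP
  obtain ⟨r, y, ζ, h3, h4⟩ := exists_frame fun μ => N μ
  have hPN : Sg.map (eval ξ) * N = 0 := by
    ext μ ν; exact congrFun (hP _ (hS μ)) ν
  have hNN : N * N = N := by
    nth_rewrite 1 [hN]; rw [Matrix.sub_mul, hPN, Matrix.one_mul, sub_zero]
  refine ⟨r, N.submatrix y id, N * of fun ν l => ζ l ν, Sg, ?_, ?_, hS, ?_, fun ρ hρ => ?_⟩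
  · have : Function.Injective y := fun i j hij => by
      by_contra hne
      have h5 := h3 i j
      rw [hij, h3, if_pos rfl, if_neg hne] at h5
      exact one_ne_zero h5
    simpa using Fintype.card_le_of_injective y this
  · rw [← Matrix.mul_assoc, show N.submatrix y id * N = (N * N).submatrix y id from rfl, hNN]
    ext i j
    exact h3 i j
  · have : (N * of fun ν l => ζ l ν) * N.submatrix y id = N := by
      ext μ ν
      have := congrFun (h4 μ) ν
      rw [Finset.sum_apply] at this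
      exact this.symm
    rw [this, hN, add_sub_cancel]
  · rw [← vecMul_vecMul, hP ρ hρ, zero_vecMul]

theorem gval [DecidableEq ι] {b : ℤ} {ρ0 Q Q' : ℝ} {φ : ℂ → ι → ℂ} {Φ : ι → PowerSeries ℚ}
    {W : ℂ → Matrix ι ι ℂ} {T : ℚ[X]} {B : Matrix ι ι ℚ[X]} (H : VH b ρ0 Q Q' φ Φ W T B)
    (hρ : 1 ≤ ρ0) (hQ : 1 ≤ Q) (hQ' : 1 ≤ Q')
    (hb : ρ0 ≤ b - 1) (hb3 : 3 ≤ b) {Λ : ℕ} (hΛ : 2 ≤ Λ)
    (cond : Q' ^ Fintype.card ι * (2 * Q * ρ0) ^ (5 * Fintype.card ι ^ 3 * Λ ^ 2) <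
      ((b : ℝ) - 1) ^ (Λ - 1))
    {h : ι → ℚ} (hf : (fun μ => (h μ : ℂ)) ⬝ᵥ φ (b : ℂ)⁻¹ = 0) :
    ∃ ρ : ι → ℚ[X], (∀ z ∈ ball (0 : ℂ) (2 / ρ0), (fun μ => aeval z (ρ μ)) ⬝ᵥ φ z = 0) ∧
      ∀ μ, aeval (b : ℂ)⁻¹ (ρ μ) = (h μ : ℂ) := by
  have hb3' : (3 : ℝ) ≤ b := by exact_mod_cast hb3
  have hb0 : (b : ℂ) ≠ 0 := by exact_mod_cast (by omega : b ≠ 0)
  have hn0 : ball (0 : ℂ) (2 / ρ0) ∈ 𝓝 0 := ball_mem_nhds _ (by positivity)
  have hφ0 : AnalyticAt ℂ φ 0 := H.hφ.analyticAt hn0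
  have hφa : ∀ μ, DifferentiableOn ℂ (φ · μ) (ball 0 (2 / ρ0)) := differentiableOn_pi.1 H.hφ
  have rel : ∀ ρ, pr co Φ ρ = 0 → ∀ z ∈ ball (0 : ℂ) (2 / ρ0),
      (fun μ => aeval z (ρ μ)) ⬝ᵥ φ z = 0 := fun ρ h0 => by
    have hRd : DifferentiableOn ℂ (fun z => (fun μ => aeval z (ρ μ)) ⬝ᵥ φ z) (ball 0 (2 / ρ0)) :=
      DifferentiableOn.fun_sum fun ν _ =>
        (ρ ν).differentiable_aeval.differentiableOn.fun_mul (hφa ν)
    exact ident isOpen_ball (convex_ball _ _).isPreconnected hRd (differentiableOn_const 0)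
      (mem_of_mem_nhds hn0) (eventually_zero_of_tay (hRd.analyticAt hn0)
        (by rw [tay_pr hφ0, ← map_pr H.hΦ, h0, map_zero]))
  have hξ : (b : ℂ)⁻¹ ∈ ball (0 : ℂ) (2 / ρ0) := by
    rw [mem_ball_zero_iff, norm_inv, Complex.norm_intCast, abs_of_nonneg (by linarith),
      lt_div_iff₀ (by linarith), inv_mul_lt_iff₀ (by linarith)]
    linarith
  have hae : ∀ p : ℚ[X], aeval (b : ℂ)⁻¹ p = algebraMap ℚ ℂ (p.eval (b : ℚ)⁻¹) := fun p => by
    rw [← aeval_algebraMap_apply_eq_algebraMap_eval]; simp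
  obtain ⟨r, U, π, Sg, hr, hUπ, hSg, hS1, hπ⟩ := exists_split {ρ | pr co Φ ρ = 0} (b : ℚ)⁻¹ pr_zero
    (fun x hx y hy => by
      simp only [Set.mem_ofPred_eq] at *
      rw [pr_add, hx, hy, add_zero])
    (fun q x hx => by
      simp only [Set.mem_ofPred_eq] at *
      rw [pr_smul, hx, mul_zero])
  obtain ⟨S, hS⟩ : ∃ S : Matrix ι ι ℚ[X], S = Sg + π.map C * U.map C := ⟨_, rfl⟩
  have hSξ : S.map (aeval (b : ℂ)⁻¹) = 1 := by
    have := congrArg (fun M => M.map (algebraMap ℚ ℂ)) hS1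
    simp only [Matrix.map_one _ (map_zero _) (map_one _)] at this
    rw [← this, hS]
    ext i j
    simp [hae, mul_apply, eval_finsetSum]
  have hdet : ∀ z : ℂ, aeval z S.det = (S.map (aeval z)).det := fun z =>
    (aeval z : ℚ[X] →ₐ[ℚ] ℂ).toRingHom.map_det S
  have hd : aeval (b : ℂ)⁻¹ S.det = 1 := by rw [hdet, hSξ, det_one]
  set Uc := U.map (algebraMap ℚ ℂ) with hUc
  set πc := π.map (algebraMap ℚ ℂ) with hπc
  have hSz : ∀ z : ℂ, S.map (aeval z) = Sg.map (aeval z) + πc * Uc := fun z => by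
    rw [hS, Matrix.map_add _ (map_add _), Matrix.map_mul, hmC, hmC]
  have hφξ : πc *ᵥ (Uc *ᵥ φ (b : ℂ)⁻¹) = φ (b : ℂ)⁻¹ := by
    have h1 : Sg.map (aeval (b : ℂ)⁻¹) *ᵥ φ (b : ℂ)⁻¹ = 0 := funext fun μ => rel _ (hSg μ) _ hξ
    have := congrArg (· *ᵥ φ (b : ℂ)⁻¹) (hSz (b : ℂ)⁻¹)
    simp only [hSξ, one_mulVec, add_mulVec, h1, zero_add] at this
    rw [mulVec_mulVec, ← this]
  have hTe : ∀ᶠ z in 𝓝 (b : ℂ)⁻¹, aeval z T ≠ 0 :=
    (analyticAt_aeval T _).continuousAt.eventually_ne H.hT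
  have hSW : ∀ᶠ z in 𝓝 (b : ℂ)⁻¹, Sg.map (aeval z) * (W z⁻¹ * πc) = 0 := by
    have : ∀ l μ, ∀ᶠ z in 𝓝 (b : ℂ)⁻¹,
        (fun ν => aeval z (Sg μ ν)) ⬝ᵥ (fun ν => (W z⁻¹ * πc) ν l) = 0 := fun l μ => by
      refine iov2 (H.hWs.mono fun z hz => (hz.mul_const πc).col l)
        (F := (fun (ρ : ι → ℚ[X]) (z : ℂ) μ => aeval z (ρ μ)) '' {ρ | pr co Φ ρ = 0})
        (analyticAt_aeval T _) H.hT ?_ ?_ ?_ _ ⟨Sg μ, hSg μ, rfl⟩
      · rintro _ ⟨ρ, -, rfl⟩
        exact analyticAt_pi_iff.2 fun μ => analyticAt_aeval _ _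
      · rintro _ ⟨ρ, hρ, rfl⟩
        have := congrArg (algebraMap ℚ ℂ) (congrFun (hπ ρ hρ) l)
        simpa [H.W1, hae, hπc, vecMul, dotProduct, ev] using this
      · rintro _ ⟨ρ, hρ, rfl⟩
        refine ⟨_, ⟨Dc T Bᵀ ρ, ?_, rfl⟩, hTe.mono fun z hz => aeval_Dc T B ρ hz⟩
        simp only [Set.mem_ofPred_eq] at *
        rw [pr_Dc co_deriv H.hS, hρ, map_zero, mul_zero]
    filter_upwards [eventually_all.2 fun l => eventually_all.2 (this l)] with z hz
    ext μ l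
    exact hz l μ
  obtain ⟨qU, hqU0, hqU⟩ := exists_den fun x : Fin r × ι => U x.1 x.2
  obtain ⟨qπ, hqπ0, hqπ⟩ := exists_den fun x : ι × Fin r => π x.1 x.2
  have htay : ∀ k, tay (fun z => (Uc *ᵥ φ z) k) 0 =
      ∑ μ, PowerSeries.C (algebraMap ℚ ℂ (U k μ)) * tay (φ · μ) 0 := fun k => by
    simp only [mulVec, dotProduct]
    rw [tay_sum _ fun μ _ => analyticAt_const.fun_mul (analyticAt_pi_iff.1 hφ0 μ)]
    exact Finset.sum_congr rfl fun μ _ => tay_cmul (analyticAt_pi_iff.1 hφ0 μ) _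
  have H' : VH b ρ0 Q Q' (fun z => Uc *ᵥ φ z) ((U.map C).map co *ᵥ Φ) (fun t => Uc * (W t * πc))
      (S.det * T) (U.map C * B * S.adjugate * π.map C) :=
    { hφ := (Hol.const Uc).mulVec H.hφ
      hΦ := fun k => by
        rw [htay]
        simp [mulVec, dotProduct, H.hΦ, co]
      den1 := by
        obtain ⟨S1, h1⟩ := H.den1
        refine ⟨|(qU : ℝ)| * S1, fun J => ?_⟩
        obtain ⟨q, h2, h3, h4⟩ := h1 J
        refine ⟨qU * q, mul_ne_zero hqU0 h2, ?_, fun k => ?_⟩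
        · push_cast; rw [abs_mul, mul_assoc]; gcongr
        · rw [htay]
          exact Den.sum _ fun μ _ => (Den.ratC (hqU (k, μ))).mul (h4 μ)
      hS := by
        have e0 : co T • (fun μ => PowerSeries.derivative ℚ (Φ μ)) = B.map co *ᵥ Φ := funext H.hS
        have e1 : Sg.map co *ᵥ Φ = 0 := funext hSg
        have e2 : (S.adjugate * π.map C).map co *ᵥ ((U.map C).map co *ᵥ Φ) = co S.det • Φ := by
          have : π.map C * U.map C = S - Sg := by rw [hS, add_sub_cancel_left]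
          rw [mulVec_mulVec, ← Matrix.map_mul, Matrix.mul_assoc, this, Matrix.mul_sub, adjugate_mul,
            Matrix.map_sub _ (map_sub _), Matrix.map_mul, sub_mulVec, ← mulVec_mulVec, e1,
            mulVec_zero, sub_zero]
          ext1 μ
          simp [mulVec, dotProduct, one_apply, apply_ite]
        have e3 : (fun k => PowerSeries.derivative ℚ (((U.map C).map co *ᵥ Φ) k)) =
            (U.map C).map co *ᵥ fun μ => PowerSeries.derivative ℚ (Φ μ) := by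
          ext1 k
          simp [mulVec, dotProduct, co]
        have e4 : co (S.det * T) • (fun k => PowerSeries.derivative ℚ (((U.map C).map co *ᵥ Φ) k)) =
            (U.map C * B * S.adjugate * π.map C).map co *ᵥ ((U.map C).map co *ᵥ Φ) := by
          rw [e3, Matrix.mul_assoc, Matrix.map_mul, ← mulVec_mulVec, e2, Matrix.map_mul,
            ← mulVec_mulVec, mulVec_smul, ← e0, map_mul, mulVec_smul, mulVec_smul, mul_smul]
        exact congrFun e4
      hT := by rw [map_mul, hd, one_mul]; exact H.hT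
      hW := (Hol.const Uc).mul (H.hW.mul (Hol.const πc))
      W1 := by
        rw [H.W1, Matrix.one_mul, hUc, hπc, ← Matrix.map_mul, hUπ,
          Matrix.map_one _ (map_zero _) (map_one _)]
      hWφ := fun t ht => by
        rw [← mulVec_mulVec, ← mulVec_mulVec, hφξ, H.hWφ t ht]
      hWs := by
        have hde : ∀ᶠ z in 𝓝 (b : ℂ)⁻¹, aeval z S.det ≠ 0 :=
          (analyticAt_aeval S.det _).continuousAt.eventually_ne (by rw [hd]; exact one_ne_zero)
        filter_upwards [H.hWs, hSW, hde] with z h1 h2 h3 i j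
        have e1 : Az (S.det * T) (U.map C * B * S.adjugate * π.map C) z * (Uc * (W z⁻¹ * πc)) =
            Uc * (Az T B z * (W z⁻¹ * πc)) := by
          have e2 : πc * (Uc * (W z⁻¹ * πc)) = S.map (aeval z) * (W z⁻¹ * πc) := by
            rw [hSz, Matrix.add_mul, h2, zero_add, Matrix.mul_assoc]
          have e3 : S.adjugate.map (aeval z) * S.map (aeval z) = aeval z S.det • 1 := by
            rw [← Matrix.map_mul, adjugate_mul]
            ext i j
            by_cases hij : i = j <;> simp [one_apply, hij]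
          rw [Az_eq, Az_eq, Matrix.map_mul, Matrix.map_mul, Matrix.map_mul, hmC, hmC, ← hUc, ← hπc,
            Matrix.smul_mul, Matrix.mul_assoc, e2, Matrix.mul_assoc,
            ← Matrix.mul_assoc (S.adjugate.map _), e3, map_mul]
          simp only [Matrix.smul_mul, Matrix.mul_smul, Matrix.one_mul, smul_smul, Matrix.mul_assoc]
          congr 1
          field_simp
        rw [e1]
        exact HasDerivAt.fun_sum fun k _ => ((h1.mul_const πc) k j).const_mul (Uc i k)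
      den2 := by
        obtain ⟨S2, h1⟩ := H.den2
        refine ⟨|(qU : ℝ)| * |(qπ : ℝ)| * S2, fun K => ?_⟩
        obtain ⟨D, h2, h3, h4⟩ := h1 K
        refine ⟨qU * (qπ * D), mul_ne_zero hqU0 (mul_ne_zero hqπ0 h2), ?_, fun k l => ?_⟩
        · push_cast; rw [abs_mul, abs_mul, mul_assoc, mul_assoc]; gcongr
        · have hWa := fun μ ν => (H.hW μ ν).analyticAt (ball_mem_nhds (b : ℂ) two_pos)
          have hWb := fun μ => ((H.hW.mul (Hol.const πc)) μ l).analyticAt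
            (ball_mem_nhds (b : ℂ) two_pos)
          simp only [mul_apply (M := Uc)]
          rw [tay_sum _ fun μ _ => analyticAt_const.fun_mul (hWb μ)]
          refine Den.sum _ fun μ _ => ?_
          rw [tay_cmul (hWb μ)]
          refine (Den.ratC (hqU (k, μ))).mul ?_
          simp only [mul_apply, mul_comm (W _ _ _)]
          rw [tay_sum _ fun ν _ => analyticAt_const.fun_mul (hWa μ ν)]
          refine Den.sum _ fun ν _ => ?_
          rw [tay_cmul (hWa μ ν)]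
          exact (Den.ratC (hqπ (ν, l))).mul (h4 μ ν) }
  have hind : ∀ ρ, pr co ((U.map C).map co *ᵥ Φ) ρ = 0 → ρ = 0 := by
    have key : ∀ n ρ, pr co ((U.map C).map co *ᵥ Φ) ρ = 0 → ∀ i, (X - C (b : ℚ)⁻¹) ^ n ∣ ρ i := by
      intro n
      induction n with
      | zero => simp
      | succ n ih =>
        intro ρ h0
        have h1 : pr co Φ (ρ ᵥ* U.map C) = 0 := by
          rw [← h0]
          simp only [pr, vecMul, mulVec, dotProduct, map_sum, map_mul, Finset.sum_mul,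
            Finset.mul_sum, map_apply]
          rw [Finset.sum_comm]
          simp only [mul_assoc]
        have h2 : ev (b : ℚ)⁻¹ (ρ ᵥ* U.map C) = ev (b : ℚ)⁻¹ ρ ᵥ* U := by
          ext ν; simp [ev, vecMul, dotProduct, eval_finsetSum]
        have h3 := hπ _ h1
        rw [h2, vecMul_vecMul, hUπ, vecMul_one] at h3
        choose ρ1 h4 using fun i => dvd_iff_isRoot.2 (congrFun h3 i)
        have h5 : ρ = (X - C (b : ℚ)⁻¹) • ρ1 := funext h4
        rw [h5, pr_smul] at h0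
        intro i
        rw [h4, pow_succ']
        refine mul_dvd_mul_left _ (ih ρ1 ((mul_eq_zero.1 h0).resolve_left fun h6 => ?_) i)
        exact X_sub_C_ne_zero _ (Polynomial.coe_injective ℚ (h6.trans Polynomial.coe_zero.symm))
    exact fun ρ h0 => eq_zero_of_all_dvd fun n => key n ρ h0
  obtain ⟨q, hq0, hq⟩ := exists_den (h ᵥ* π)
  choose z hz using hq
  have hz0 : z = 0 := gval0 H' hind hρ hQ hQ' hb hb3 hΛ (lt_of_le_of_lt (by
      rw [Fintype.card_fin]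
      gcongr
      nlinarith) cond) (by
    have : (fun k => (z k : ℂ)) = (q : ℂ) • ((fun μ => (h μ : ℂ)) ᵥ* πc) := by
      ext k
      have := congrArg (algebraMap ℚ ℂ) (hz k)
      simpa [vecMul, dotProduct, hπc] using this.symm
    rw [this, smul_dotProduct, ← dotProduct_mulVec, hφξ, hf, smul_zero])
  have hhπ : h ᵥ* π = 0 := funext fun k => by
    have := hz k
    rw [hz0] at this
    simpa [hq0] using this
  refine ⟨∑ μ, C (h μ) • Sg μ, rel _ ?_, fun ν => ?_⟩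
  · rw [pr_sum]
    exact Finset.sum_eq_zero fun μ _ => by rw [pr_smul, hSg μ, mul_zero]
  · have := congrFun (congrArg (h ᵥ* ·) hS1) ν
    simp only [vecMul_add, ← vecMul_vecMul, hhπ, zero_vecMul, add_zero, vecMul_one] at this
    rw [hae, ← this]
    simp [vecMul, dotProduct, eval_finsetSum]

end

end Pool.Agent.Lib.MP_5591bc_ag.G
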