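import Pool.Agent.Lib.MP_5591bc_ag.GGlue
import Pool.Agent.Lib.MP_5591bc_ag.GVal

/-! Relations with coefficients holomorphic across the singular disc come from polynomial ones. -/

namespace Pool.Agent.Lib.MP_5591bc_ag.G

open Filter Topology Metric Asymptotics Polynomial Bornology Complex Matrix

noncomputable section

/-- polynomial growth at infinity -/
def PG (g : ℂ → ℂ) : Prop := ∃ N : ℕ, g =O[cobounded ℂ] fun t => t ^ N

lemma PG.const (c : ℂ) : PG fun _ => c :=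
  ⟨0, by simpa using isBigO_const_const c (one_ne_zero (α := ℂ)) _⟩

lemma PG.two {g h : ℂ → ℂ} (hg : PG g) (hh : PG h) : ∃ N : ℕ,
    (g =O[cobounded ℂ] fun t => t ^ N) ∧ h =O[cobounded ℂ] fun t => t ^ N :=
  let ⟨N, h1⟩ := hg
  let ⟨M, h2⟩ := hh
  ⟨N + M, h1.trans (isBigO_pow_pow_cobounded_of_le (by omega)),
    h2.trans (isBigO_pow_pow_cobounded_of_le (by omega))⟩

lemma PG.add {g h : ℂ → ℂ} (hg : PG g) (hh : PG h) : PG fun t => g t + h t :=
  let ⟨N, h1, h2⟩ := hg.two hh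
  ⟨N, h1.add h2⟩

lemma PG.mul {g h : ℂ → ℂ} (hg : PG g) (hh : PG h) : PG fun t => g t * h t :=
  let ⟨N, h1⟩ := hg
  let ⟨M, h2⟩ := hh
  ⟨N + M, by simpa only [pow_add] using h1.mul h2⟩

lemma PG.sum {α : Type*} (s : Finset α) {g : α → ℂ → ℂ} (h : ∀ a, PG (g a)) :
    PG fun t => ∑ a ∈ s, g a t := by
  classical
  induction s using Finset.induction_on with
  | empty => simpa using PG.const 0
  | insert a s ha ih => simpa only [Finset.sum_insert ha] using (h a).add ih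

lemma PG.prod {α : Type*} (s : Finset α) {g : α → ℂ → ℂ} (h : ∀ a, PG (g a)) :
    PG fun t => ∏ a ∈ s, g a t := by
  classical
  induction s using Finset.induction_on with
  | empty => simpa using PG.const 1
  | insert a s ha ih => simpa only [Finset.prod_insert ha] using (h a).mul ih

lemma PG.of_exp {g : ℂ → ℂ} {a R : ℝ} (ha : 0 ≤ a) (w0 : ℂ)
    (h : ∀ t ∈ Ext R, ‖g t‖ ≤ Real.exp (a * ‖log t - w0‖)) : PG g := by
  refine ⟨⌈a⌉₊, IsBigO.of_bound (Real.exp (a * (Real.pi + ‖w0‖))) ?_⟩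
  filter_upwards [ev_Ext R, ev_Ext 1] with t h1 h2
  have h3 : 1 < ‖t‖ := h2
  have h4 : 0 ≤ Real.log ‖t‖ := Real.log_nonneg h3.le
  have h5 : ‖log t - w0‖ ≤ Real.pi + ‖w0‖ + Real.log ‖t‖ := by
    have := norm_le_abs_re_add_abs_im (log t)
    rw [log_re, log_im, abs_of_nonneg h4] at this
    linarith [norm_sub_le (log t) w0, abs_arg_le_pi t]
  rw [norm_pow, ← Real.exp_log (x := ‖t‖) (by linarith), ← Real.exp_nat_mul, ← Real.exp_add]
  refine (h t h1).trans (Real.exp_le_exp.2 ?_)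
  nlinarith [Nat.le_ceil a, mul_le_mul_of_nonneg_left h5 ha]

variable {ι : Type*} [Fintype ι]

lemma MSol.comp_add {κ : Type*} {A : ℂ → Matrix ι ι ℂ} {Φ : ℂ → Matrix ι κ ℂ} {t a : ℂ}
    (h : MSol A Φ (t + a)) : MSol (fun s => A (s + a)) (fun s => Φ (s + a)) t :=
  fun i j => (h i j).comp_add_const t a

omit [Fintype ι] in
lemma Hol.Az {T : ℚ[X]} {B : Matrix ι ι ℚ[X]} {S : Set ℂ} (h : ∀ t ∈ S, aeval t T ≠ 0) :
    Hol S (Az T B) := fun i j =>
  (B i j).differentiable_aeval.differentiableOn.fun_div T.differentiable_aeval.differentiableOn h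

theorem gkey [DecidableEq ι] {T : ℚ[X]} {B : Matrix ι ι ℚ[X]} {R R1 c : ℝ} (hR : 0 < R)
    (hc : 0 ≤ c) (hT : ∀ t ∈ Ext R, aeval t T ≠ 0)
    (hb : ∀ t ∈ Ext R, ∀ i j, ‖t‖ * ‖Az T B t i j‖ ≤ c) {G : Set ℂ} (oG : IsOpen G)
    (cG : IsPreconnected G) (hG : G ⊆ Ext R) {t0 : ℂ} (h0 : t0 ∈ G) (h1 : t0 ∈ ball (0 : ℂ) R1)
    {x : ℂ → ι → ℂ} (hx : ∀ t ∈ G, VSol (Az T B) x t) {v : ℂ → ι → ℂ}
    (hv : DifferentiableOn ℂ v (G ∪ ball 0 R1)) (hvx : ∀ t ∈ G, v t ⬝ᵥ x t = 0) {y : ι → ℂ[X]}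
    (hy : ∀ a : ι → ℂ[X], (∀ t ∈ G, ev t a ⬝ᵥ x t = 0) → a ⬝ᵥ y = 0) :
    ∀ t ∈ G, v t ⬝ᵥ ev t y = 0 := by
  have hE0 := hG h0
  obtain ⟨w0, rfl⟩ : ∃ w, exp w = t0 := ⟨_, exp_log (ne_of_Ext hR hE0)⟩
  have hw0 := (exp_mem_Ext hR).1 hE0
  have hR1 : 0 < R1 := (norm_nonneg _).trans_lt (mem_ball_zero_iff.1 h1)
  have oΩ : IsOpen (G ∪ ball (0 : ℂ) R1) := oG.union isOpen_ball
  obtain ⟨At, hAt⟩ : ∃ At : ℂ → Matrix ι ι ℂ, ∀ w, At w = exp w • Az T B (exp w) :=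
    ⟨_, fun _ => rfl⟩
  have hAh : Hol (Hp R) At := fun i j => by
    simp only [hAt, Matrix.smul_apply, smul_eq_mul]
    exact differentiable_exp.differentiableOn.fun_mul (((Hol.Az hT) i j).comp
      differentiable_exp.differentiableOn fun w hw => (exp_mem_Ext hR).2 hw)
  obtain ⟨Φ, Ψ, Φ0, Ψ0, hΦ⟩ := exists_fund (convex_Hp R) (isOpen_Hp R) hw0 hAh (c := c)
    (fun w hw i j => by
      rw [hAt, Matrix.smul_apply, norm_smul]; exact hb _ ((exp_mem_Ext hR).2 hw) i j) hc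
  have hΦh := hol_of_msol fun w hw => (hΦ w hw).1
  have hΨh := hol_of_rsol fun w hw => (hΦ w hw).2.1
  have hn0 := (isOpen_Hp R).mem_nhds hw0
  have hm : ∀ w ∈ Hp R, w + 2 * Real.pi * I ∈ Hp R := fun w hw => by simpa [Hp] using hw
  have hw1 := hm w0 hw0
  have hΦΨ : ∀ w ∈ Hp R, Φ w * Ψ w = 1 := fun w hw => mul_eq_one_comm.1 (hΦ w hw).2.2.1
  have per : ∀ w ∈ Hp R, Ψ (w + 2 * Real.pi * I) = Ψ (w0 + 2 * Real.pi * I) * Ψ w := fun w hw => by
    have e := muniq (isOpen_Hp R) (convex_Hp R).isPreconnected hAh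
      (Φ := fun w => Φ (w + 2 * Real.pi * I)) (Ψ := fun w => Φ w * Φ (w0 + 2 * Real.pi * I))
      (fun w hw => by
        have := (hΦ _ (hm w hw)).1.comp_add
        simp only [hAt, exp_periodic _] at this
        simpa only [← hAt] using this)
      (fun w hw => (hΦ w hw).1.mul_const _) hw0 (by simp [Φ0]) hw
    have e1 := (hΦ _ (hm w hw)).2.2.1
    simp only at e
    calc _ = Ψ (w + 2 * Real.pi * I) * (Φ w * (Φ (w0 + 2 * Real.pi * I) *
          Ψ (w0 + 2 * Real.pi * I)) * Ψ w) := by rw [hΦΨ _ hw1, Matrix.mul_one, hΦΨ w hw]; simp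
      _ = Ψ (w + 2 * Real.pi * I) * (Φ w * Φ (w0 + 2 * Real.pi * I)) *
          (Ψ (w0 + 2 * Real.pi * I) * Ψ w) := by simp only [Matrix.mul_assoc]
      _ = _ := by rw [← e, e1, Matrix.one_mul]
  obtain ⟨V, hV⟩ : ∃ V : Set (ℂ → ι → ℂ), ∀ u, u ∈ V ↔
    DifferentiableOn ℂ u (G ∪ ball 0 R1) ∧ ∀ t ∈ G, u t ⬝ᵥ x t = 0 := ⟨{u | _}, fun _ => Iff.rfl⟩
  have hVD : ∀ u ∈ V, ∃ u1 ∈ V, ∀ t, aeval t T ≠ 0 →
      aeval t T • (deriv u t + u t ᵥ* Az T B t) = u1 t := fun u hu => by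
    obtain ⟨a1, a2⟩ := (hV u).1 hu
    have e : ∀ t, aeval t T ≠ 0 → aeval t T • (deriv u t + u t ᵥ* Az T B t) =
        aeval t T • deriv u t + u t ᵥ* B.map (aeval t) := fun t ht => by
      rw [smul_add, Az_eq, vecMul_smul, smul_smul, mul_inv_cancel₀ ht, one_smul]
    refine ⟨fun t => aeval t T • deriv u t + u t ᵥ* B.map (aeval t), (hV _).2 ⟨?_, fun t ht => ?_⟩,
      e⟩
    · exact (T.differentiable_aeval.differentiableOn.fun_smul (a1.deriv oΩ)).fun_add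
        (Hol.vecMul (fun i j => (B i j).differentiable_aeval.differentiableOn) a1)
    · have a3 := hasDerivAt_dot (a1.differentiableAt (oΩ.mem_nhds (Or.inl ht))).hasDerivAt (hx t ht)
      have a4 := a3.unique ((hasDerivAt_const t (0 : ℂ)).congr_of_eventuallyEq
        (mem_of_superset (oG.mem_nhds ht) a2))
      rw [← e t (hT t (hG ht)), smul_dotProduct, add_dotProduct, ← dotProduct_mulVec, a4, smul_zero]
  obtain ⟨r, xi, η, f1, f2⟩ := exists_frame fun u : V => u.1 (exp w0)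
  obtain ⟨Vt, hVt⟩ : ∃ Vt : ℂ → Matrix (Fin r) ι ℂ, ∀ t i, Vt t i = (xi i).1 t :=
    ⟨fun t => of fun i => (xi i).1 t, fun _ _ => rfl⟩
  obtain ⟨E, hE⟩ : ∃ E : Matrix ι (Fin r) ℂ, ∀ ν j, E ν j = η j ν :=
    ⟨of fun ν j => η j ν, fun _ _ => rfl⟩
  have hVE : Vt (exp w0) * E = 1 := by
    ext i j
    simp only [mul_apply, hVt, hE]
    exact f1 i j
  have hf2 : ∀ u ∈ V, u (exp w0) ᵥ* (1 - E * Vt (exp w0)) = 0 := fun u hu => by
    rw [vecMul_sub, vecMul_one, ← vecMul_vecMul, vecMul_eq_sum, sub_eq_zero]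
    refine (f2 ⟨u, hu⟩).trans (Finset.sum_congr rfl fun j _ => ?_)
    rw [hVt]
    simp only [vecMul, dotProduct, hE]
  obtain ⟨H1, hH1⟩ : ∃ H1 : Set ℂ, H1 = Hp R ∩ {w | w.re < Real.log R1} := ⟨_, rfl⟩
  have hH : ∀ w, w ∈ H1 ↔ w ∈ Hp R ∧ exp w ∈ ball (0 : ℂ) R1 := fun w => by
    rw [hH1, mem_ball_zero_iff, norm_exp, ← Real.lt_log_iff_exp_lt hR1]; rfl
  have oH : IsOpen H1 := hH1 ▸ (isOpen_Hp R).inter (isOpen_lt continuous_re continuous_const)
  have cH : IsPreconnected H1 :=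
    hH1 ▸ ((convex_Hp R).inter (convex_halfSpace_re_lt _)).isPreconnected
  have w0H := (hH w0).2 ⟨hw0, h1⟩
  have hue : ∀ u ∈ V, DifferentiableOn ℂ (fun w => u (exp w)) H1 := fun u hu =>
    ((hV u).1 hu).1.comp differentiable_exp.differentiableOn fun w hw => Or.inr ((hH w).1 hw).2
  have A1 : ∀ u ∈ V, ∀ w ∈ H1, u (exp w) ᵥ* (Φ w * (1 - E * Vt (exp w0))) = 0 := fun u hu => by
    have hTe : ∀ᶠ w in 𝓝 w0, aeval (exp w) T ≠ 0 :=
      mem_of_superset hn0 fun w hw => hT _ ((exp_mem_Ext hR).2 hw)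
    have k1 : ∀ μ, ∀ᶠ w in 𝓝 w0,
        u (exp w) ⬝ᵥ (fun ν => (Φ w * (1 - E * Vt (exp w0)) : Matrix ι ι ℂ) ν μ) = 0 := fun μ => by
      refine iov2 (A := At) (mem_of_superset hn0 fun w hw => ((hΦ w hw).1.mul_const _).col μ)
        (F := (fun (u : ℂ → ι → ℂ) w => u (exp w)) '' V)
        (T := fun w => aeval (exp w) T * (exp w)⁻¹) ?_ ?_ ?_ ?_ ?_ _ ⟨u, hu, rfl⟩
      · exact ((analyticAt_aeval T _).fun_comp analyticAt_cexp).fun_mul
          (analyticAt_cexp.fun_inv (exp_ne_zero _))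
      · exact mul_ne_zero (hT _ hE0) (inv_ne_zero (exp_ne_zero _))
      · rintro _ ⟨u, hu, rfl⟩
        exact (hue u hu).analyticAt (oH.mem_nhds w0H)
      · rintro _ ⟨u, hu, rfl⟩
        rw [Φ0, Matrix.one_mul]
        exact congrFun (hf2 u hu) μ
      · rintro _ ⟨u, hu, rfl⟩
        obtain ⟨u1, b1, b2⟩ := hVD u hu
        refine ⟨_, ⟨u1, b1, rfl⟩, ?_⟩
        filter_upwards [hTe, oH.mem_nhds w0H] with w c1 c2
        have c3 := (((hV u).1 hu).1.differentiableAt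
          (oΩ.mem_nhds (Or.inr ((hH w).1 c2).2))).hasDerivAt.scomp w (hasDerivAt_exp w)
        rw [show (fun w => u (exp w)) = u ∘ exp from rfl, c3.deriv, hAt, vecMul_smul, ← smul_add,
          smul_smul, inv_mul_cancel_right₀ (exp_ne_zero _)]
        exact b2 _ c1
    exact ident oH cH (Hol.vecMul ((hΦh.mono fun w hw => ((hH w).1 hw).1).mul (Hol.const _))
      (hue u hu)) (differentiableOn_const 0) w0H
      ((eventually_all.2 k1).mono fun w hw => funext hw)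
  obtain ⟨Z, hZ⟩ : ∃ Z : ℂ → Matrix (Fin r) ι ℂ, ∀ w, Z w = Vt (exp w0) * Ψ w := ⟨_, fun _ => rfl⟩
  have A2 : ∀ u ∈ V, ∀ w ∈ H1, u (exp w) = (u (exp w) ᵥ* (Φ w * E)) ᵥ* Z w := fun u hu w hw => by
    have := congrArg (· ᵥ* Ψ w) (A1 u hu w hw)
    beta_reduce at this
    rw [vecMul_vecMul, zero_vecMul, Matrix.mul_sub, Matrix.sub_mul, Matrix.mul_one,
      hΦΨ w ((hH w).1 hw).1, vecMul_sub, vecMul_one, sub_eq_zero] at this
    rw [vecMul_vecMul, hZ]
    simpa only [Matrix.mul_assoc] using this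
  have A3 : ∀ w ∈ H1, Vt (exp w) = Vt (exp w) * (Φ w * E) * Z w := fun w hw => by
    ext i μ
    have := congrFun (A2 _ (xi i).2 w hw) μ
    rw [← hVt] at this
    exact this
  obtain ⟨Q, hQ0, hQ⟩ : ∃ Q : Matrix (Fin r) (Fin r) ℂ, Q.det ≠ 0 ∧
      ∀ w ∈ Hp R, Z (w + 2 * Real.pi * I) = Q * Z w := by
    have a1 := A3 _ ((hH _).2 ⟨hw1, by rwa [exp_periodic]⟩)
    rw [exp_periodic] at a1
    have a2 : Vt (exp w0) * (Φ (w0 + 2 * Real.pi * I) * E) * (Z (w0 + 2 * Real.pi * I) * E) = 1 := by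
      rw [← Matrix.mul_assoc, ← a1, hVE]
    refine ⟨Z (w0 + 2 * Real.pi * I) * E, (isUnit_det_of_left_inverse a2).ne_zero, fun w hw => ?_⟩
    have a3 := congrArg (Z (w0 + 2 * Real.pi * I) * E * ·) a1
    simp only [← Matrix.mul_assoc (Z _ * E) _ (Z _), mul_eq_one_comm.1 a2, Matrix.one_mul] at a3
    rw [hZ w, ← Matrix.mul_assoc, a3, hZ, hZ, per w hw, Matrix.mul_assoc]
  obtain ⟨α, hα⟩ : ∃ α : ℂ, exp (α * (2 * Real.pi * I)) * Q.det = 1 := by
    refine ⟨-log Q.det / (2 * Real.pi * I), ?_⟩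
    rw [div_mul_cancel₀ _ two_pi_I_ne_zero, Complex.exp_neg, exp_log hQ0, inv_mul_cancel₀ hQ0]
  obtain ⟨g, hg⟩ : ∃ g : Matrix ι (Fin r) ℂ → ℂ → ℂ, ∀ θ w, g θ w = exp (α * w) * (Z w * θ).det :=
    ⟨_, fun _ _ => rfl⟩
  have hZh : Hol (Hp R) Z := by rw [funext hZ]; exact (Hol.const _).mul hΨh
  have hgd : ∀ θ, DifferentiableOn ℂ (g θ) (Hp R) := fun θ => by
    rw [funext (hg θ)]
    exact DifferentiableOn.fun_mul (by fun_prop) (hZh.mul (Hol.const θ)).det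
  have hβ := fun θ => descent hR (hgd θ) fun w hw => by
    rw [hg, hg, hQ w hw, Matrix.mul_assoc, det_mul, mul_add, exp_add]
    linear_combination (exp (α * w) * (Z w * θ).det) * hα
  have hPG : ∀ θ, PG fun t => g θ (log t) := fun θ => by
    simp only [hg, det_apply', hZ, mul_apply]
    refine PG.mul (PG.of_exp (R := R) (norm_nonneg α) 0 fun t _ => ?_) (PG.sum _ fun σ =>
      (PG.const _).mul (PG.prod _ fun i => PG.sum _ fun ν => PG.mul (PG.sum _ fun μ =>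
        (PG.const _).mul (PG.of_exp (R := R) (by positivity) w0 fun t ht =>
          (hΦ _ (log_mem_Hp hR ht)).2.2.2.2 μ ν)) (PG.const _)))
    rw [sub_zero, ← norm_mul]
    exact norm_exp_le_exp_norm _
  have hVh : Hol (ball 0 R1) Vt := fun i μ => by
    simp only [hVt]
    exact differentiableOn_pi.1 (((hV _).1 (xi i).2).1.mono Set.subset_union_right) μ
  have hg0 : g E w0 ≠ 0 := by
    rw [hg, hZ, Ψ0, Matrix.mul_one, hVE, det_one, mul_one]; exact exp_ne_zero _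
  have gl : ∀ θ : Matrix ι (Fin r) ℂ, ∃ p q : ℂ[X], q ≠ 0 ∧
      ∀ t ∈ Ext R, p.eval t * g E (log t) = q.eval t * g θ (log t) := fun θ => by
    obtain ⟨N, b1, b2⟩ := (hPG E).two (hPG θ)
    refine glue_rat hR (hVh.mul (Hol.const E)).det (hVh.mul (Hol.const θ)).det (hβ E).2 (hβ θ).2
      b1 b2 (fun t c1 c2 => ?_) hE0 h1 (by rw [hVE]; simp) (by rw [(hβ E).1 w0 hw0]; exact hg0)
    have c3 := exp_log (ne_of_Ext hR c1)
    have c4 := A3 (log t) ((hH _).2 ⟨log_mem_Hp hR c1, by rwa [c3]⟩)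
    rw [c3] at c4
    rw [hg, hg, c4, Matrix.mul_assoc _ (Z _), Matrix.mul_assoc _ (Z _), det_mul, det_mul]
    ring
  choose p q hq hpq using fun s : Fin r × ι => gl (E.updateCol s.1 (Pi.single s.2 1))
  obtain ⟨a, ha⟩ : ∃ a : Fin r → ι → ℂ[X], ∀ j μ,
    a j μ = p (j, μ) * ∏ s ∈ Finset.univ.erase (j, μ), q s := ⟨_, fun _ _ => rfl⟩
  have A4 : ∀ j, ∀ w ∈ Hp R, g E w • ev (exp w) (a j) =
      ((∏ s, q s).eval (exp w) * exp (α * w)) • ((Z w * E).adjugate * Z w) j := fun j w hw => by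
    ext μ
    have b1 := hpq (j, μ) _ ((exp_mem_Ext hR).2 hw)
    rw [(hβ _).1 w hw, (hβ _).1 w hw, hg (E.updateCol _ _)] at b1
    have b2 : ((Z w * E).adjugate * Z w) j μ = (Z w * E.updateCol j (Pi.single μ 1)).det := by
      have := congrFun (cramer_eq_adjugate_mulVec (Z w * E) fun i => Z w i μ) j
      rw [cramer_apply] at this
      refine this.symm.trans ?_
      congr 1
      ext i k
      by_cases hk : k = j <;> simp [mul_apply, hk, Pi.single_apply]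
    simp only [Pi.smul_apply, smul_eq_mul, ev, ha, b2, eval_mul,
      ← Finset.mul_prod_erase _ q (Finset.mem_univ (j, μ))]
    linear_combination (∏ s ∈ Finset.univ.erase (j, μ), q s).eval (exp w) * b1
  have hGe : ∀ᶠ w in 𝓝 w0, exp w ∈ G := continuous_exp.continuousAt.eventually_mem (oG.mem_nhds h0)
  have hxe : ∀ᶠ w in 𝓝 w0, x (exp w) = Φ w *ᵥ x (exp w0) :=
    uniq_loc (A := At) (fun i j => (hAh i j).analyticAt hn0) (hGe.mono fun w hw => by
      have := HasDerivAt.scomp w (hx _ hw) (hasDerivAt_exp w)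
      rw [VSol, hAt, smul_mulVec]
      exact this) (mem_of_superset hn0 fun w hw => (hΦ w hw).1.vsol _) (by simp [Φ0])
  have hge : ∀ᶠ w in 𝓝 w0, g E w ≠ 0 :=
    ((hgd E).differentiableAt hn0).continuousAt.eventually_ne hg0
  have hxd : DifferentiableOn ℂ x G := fun t ht => (hx t ht).differentiableAt.differentiableWithinAt
  have hev : ∀ b : ι → ℂ[X], Differentiable ℂ fun t => ev t b := fun b =>
    differentiable_pi.2 fun μ => (b μ).differentiable
  have hdot : ∀ {u u' : ℂ → ι → ℂ}, DifferentiableOn ℂ u G → DifferentiableOn ℂ u' G →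
      DifferentiableOn ℂ (fun t => u t ⬝ᵥ u' t) G := fun b1 b2 =>
    DifferentiableOn.fun_sum fun μ _ =>
      (differentiableOn_pi.1 b1 μ).fun_mul (differentiableOn_pi.1 b2 μ)
  have A5 : ∀ j, a j ⬝ᵥ y = 0 := fun j => hy _ (ident oG cG (hdot (hev _).differentiableOn hxd)
    (differentiableOn_const 0) h0 (ev_exp (P := fun t => ev t (a j) ⬝ᵥ x t = 0) (by
      filter_upwards [hxe, hge, hn0] with w b1 b2 b3
      have b4 : Vt (exp w0) *ᵥ x (exp w0) = 0 := funext fun i => by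
        change Vt (exp w0) i ⬝ᵥ _ = _
        rw [hVt]; exact ((hV _).1 (xi i).2).2 _ h0
      have b5 : ((Z w * E).adjugate * Z w) *ᵥ x (exp w) = 0 := by
        rw [b1, ← mulVec_mulVec, mulVec_mulVec _ (Z w), hZ, Matrix.mul_assoc _ _ (Φ w),
          (hΦ w b3).2.2.1, Matrix.mul_one, b4, mulVec_zero]
      have b6 := congrArg (· ⬝ᵥ x (exp w)) (A4 j w b3)
      simp only [smul_dotProduct] at b6
      rw [show ((Z w * E).adjugate * Z w) j ⬝ᵥ x (exp w) = 0 from congrFun b5 j, smul_zero] at b6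
      exact (smul_eq_zero.1 b6).resolve_left b2)))
  have A6 : ∀ᶠ t in 𝓝 (exp w0), (∏ s, q s).eval t * (v t ⬝ᵥ ev t y) = 0 := ev_exp (by
    filter_upwards [hge, oH.mem_nhds w0H] with w b2 b3
    have b4 : ((∏ s, q s).eval (exp w) * exp (α * w)) •
        (((Z w * E).adjugate * Z w) *ᵥ ev (exp w) y) = 0 := funext fun j => by
      have b6 := congrArg (· ⬝ᵥ ev (exp w) y) (A4 j w ((hH w).1 b3).1)
      simp only [smul_dotProduct, ← eval_dot, A5, eval_zero, smul_zero] at b6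
      exact b6.symm
    have b5 := congrArg ((Z w * E) *ᵥ ·) b4
    simp only [mulVec_smul, mulVec_mulVec, ← Matrix.mul_assoc, mul_adjugate, Matrix.smul_mul,
      Matrix.one_mul, smul_mulVec, smul_smul, mulVec_zero] at b5
    rw [mul_assoc, ← hg, mul_comm, mul_smul] at b5
    have b6 := (smul_eq_zero.1 b5).resolve_left b2
    rw [A2 v ((hV v).2 ⟨hv, hvx⟩) w b3, ← dotProduct_mulVec, ← smul_eq_mul, ← dotProduct_smul, b6,
      dotProduct_zero])
  have hd := hdot (hv.mono Set.subset_union_left) (hev y).differentiableOn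
  refine ident oG cG hd (differentiableOn_const 0) h0
    (((hd.analyticAt (oG.mem_nhds h0)).frequently_zero_iff_eventually_zero).1
      (Eventually.frequently ?_))
  obtain ⟨t1, ht1⟩ : ∃ t1, (∏ s, q s).eval t1 ≠ 0 := by
    by_contra hn
    push Not at hn
    exact Finset.prod_ne_zero_iff.2 (fun s _ => hq s) (Polynomial.funext (by simpa using hn))
  filter_upwards [nhdsWithin_le_nhds A6, ne_punct isOpen_univ isPreconnected_univ
    (∏ s, q s).differentiable.differentiableOn (Set.mem_univ t1) ht1 (Set.mem_univ (exp w0))]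
    with t b1 b2
  exact (mul_eq_zero.1 b1).resolve_left b2

end

end Pool.Agent.Lib.MP_5591bc_ag.G
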