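import Pool.Agent.Lib.MP_5591bc_ag.GKey

/-! From a holomorphic relation with rational value at a point to a rational polynomial one. -/

namespace Pool.Agent.Lib.MP_5591bc_ag.G

open Filter Topology Metric Polynomial Matrix

noncomputable section

/-- coefficientwise application of a rational linear functional -/
def mapL (π : ℂ →ₗ[ℚ] ℚ) : ℂ[X] →ₗ[ℚ] ℚ[X] := lsum fun n => (monomial n).comp π

variable (π : ℂ →ₗ[ℚ] ℚ)

lemma mapL_monomial (n : ℕ) (a : ℂ) : mapL π (monomial n a) = monomial n (π a) := by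
  simp [mapL, sum_monomial_index]

lemma coeff_mapL (q : ℂ[X]) (n : ℕ) : (mapL π q).coeff n = π (q.coeff n) := by
  induction q using Polynomial.induction_on' with
  | add a b ha hb => simp [ha, hb]
  | monomial k a => rw [mapL_monomial, coeff_monomial, coeff_monomial]; split_ifs <;> simp

lemma mapL_mul (p : ℚ[X]) (q : ℂ[X]) : mapL π (p.map (algebraMap ℚ ℂ) * q) = p * mapL π q := by
  ext n
  simp only [coeff_mapL, coeff_mul, map_sum, coeff_map, ← Algebra.smul_def, map_smul, smul_eq_mul]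

lemma mapL_deriv (q : ℂ[X]) : mapL π (derivative q) = derivative (mapL π q) := by
  ext n
  rw [coeff_mapL, coeff_derivative, coeff_derivative, coeff_mapL, mul_comm, mul_comm (π _),
    ← smul_eq_mul ((n : ℚ) + 1), ← map_smul, Algebra.smul_def]
  simp

lemma eval_mapL (s : ℚ) (q : ℂ[X]) : (mapL π q).eval s = π (q.eval (s : ℂ)) := by
  induction q using Polynomial.induction_on' with
  | add a b ha hb => simp [ha, hb]
  | monomial k a =>
    rw [mapL_monomial, eval_monomial, eval_monomial, mul_comm, mul_comm a, ← smul_eq_mul (s ^ k),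
      ← map_smul, Algebra.smul_def]
    simp

variable {ι : Type*} [Fintype ι]

theorem glift [DecidableEq ι] {T : ℚ[X]} {B : Matrix ι ι ℚ[X]} {R R1 c : ℝ} (hR : 0 < R)
    (hc : 0 ≤ c) (hT : ∀ t ∈ Ext R, aeval t T ≠ 0)
    (hb : ∀ t ∈ Ext R, ∀ i j, ‖t‖ * ‖Az T B t i j‖ ≤ c) {G : Set ℂ} (oG : IsOpen G)
    (cG : IsPreconnected G) (hG : G ⊆ Ext R) {t0 : ℂ} (h0 : t0 ∈ G) (h1 : t0 ∈ ball (0 : ℂ) R1)
    {x : ℂ → ι → ℂ} (hx : ∀ t ∈ G, VSol (Az T B) x t) {v : ℂ → ι → ℂ}
    (hv : DifferentiableOn ℂ v (G ∪ ball 0 R1)) (hvx : ∀ t ∈ G, v t ⬝ᵥ x t = 0) {s : ℚ}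
    (hs : (s : ℂ) ∈ G) {F : ι → ℚ} (hF : v s = fun μ => (F μ : ℂ)) :
    ∃ H : ι → ℚ[X], ev s H = F ∧ ∀ t ∈ G, (fun μ => aeval t (H μ)) ⬝ᵥ x t = 0 := by
  obtain ⟨Tc, hTc⟩ : ∃ Tc, Tc = T.map (algebraMap ℚ ℂ) := ⟨_, rfl⟩
  obtain ⟨Bc, hBc⟩ : ∃ Bc : Matrix ι ι ℂ[X], ∀ i j, Bc i j = (B i j).map (algebraMap ℚ ℂ) :=
    ⟨of fun i j => _, fun _ _ => rfl⟩
  have ev_add : ∀ (t : ℂ) (a b : ι → ℂ[X]), ev t (a + b) = ev t a + ev t b := fun t a b => by
    ext; simp [ev]
  have ev_smul : ∀ (t : ℂ) (q : ℂ[X]) (a : ι → ℂ[X]), ev t (q • a) = q.eval t • ev t a :=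
    fun t q a => by ext; simp [ev]
  let A : Submodule ℂ[X] (ι → ℂ[X]) :=
    { carrier := {a | ∀ t ∈ G, ev t a ⬝ᵥ x t = 0}
      add_mem' := fun ha hb t ht => by rw [ev_add, add_dotProduct, ha t ht, hb t ht, add_zero]
      zero_mem' := fun t _ => by simp [ev, dotProduct]
      smul_mem' := fun q a ha t ht => by rw [ev_smul, smul_dotProduct, ha t ht, smul_zero] }
  have hAD : ∀ a ∈ A, Dc Tc Bcᵀ a ∈ A := fun a ha t ht => by
    have a3 := hasDerivAt_dot (hasDerivAt_pi.2 fun μ => (a μ).hasDerivAt t) (hx t ht)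
    have a4 := a3.unique ((hasDerivAt_const t (0 : ℂ)).congr_of_eventuallyEq
      (mem_of_superset (oG.mem_nhds ht) ha))
    have e : ev t (Dc Tc Bcᵀ a) = aeval t T • ((fun μ => (derivative (a μ)).eval t) +
        (fun μ => (a μ).eval t) ᵥ* Az T B t) := by
      ext μ
      simp only [ev, Dc, Az, vecMul, mulVec, dotProduct, Pi.smul_apply, Pi.add_apply, smul_eq_mul,
        eval_add, eval_mul, eval_finsetSum, of_apply, transpose_apply, mul_add, Finset.mul_sum, hTc,
        hBc, eval_map_algebraMap]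
      congr 1
      exact Finset.sum_congr rfl fun ν _ => by have := hT t (hG ht); field_simp
    rw [e, smul_dotProduct, add_dotProduct, ← dotProduct_mulVec, a4, smul_zero]
  have hCD : ∀ y, (∀ a ∈ A, a ⬝ᵥ y = 0) → ∀ a ∈ A, a ⬝ᵥ Dc Tc (-Bc) y = 0 := fun y hy a ha => by
    have a1 := hy _ (hAD a ha)
    have a2 := congrArg derivative (hy a ha)
    rw [Dc, add_dotProduct, smul_dotProduct, mulVec_transpose, ← dotProduct_mulVec] at a1
    rw [Dc, dotProduct_add, dotProduct_smul, neg_mulVec, dotProduct_neg]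
    simp only [dotProduct, derivative_sum, derivative_mul, Finset.sum_add_distrib, derivative_zero,
      smul_eq_mul] at a1 a2 ⊢
    linear_combination Tc * a2 - a1
  obtain ⟨H, hH, hHs⟩ := fibre (Submodule.span ℚ[X] {z | ∃ (π : ℂ →ₗ[ℚ] ℚ) (y : ι → ℂ[X]),
      (∀ a ∈ A, a ⬝ᵥ y = 0) ∧ z = fun μ => mapL π (y μ)}) (T := T) (B := -B) (s := s) (F := F)
    (fun z hz => by
      induction hz using Submodule.span_induction with
      | mem z hz =>
        obtain ⟨π, y, hy, rfl⟩ := hz
        refine Submodule.subset_span ⟨π, _, hCD y hy, ?_⟩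
        ext1 μ
        simp only [Dc, Pi.add_apply, Pi.smul_apply, smul_eq_mul, map_add, mulVec, dotProduct,
          map_sum, hTc, mapL_mul, mapL_deriv, Matrix.neg_apply, hBc, neg_mul, map_neg]
      | zero => rw [Dc_zero]; exact Submodule.zero_mem _
      | add a b _ _ ha hb => rw [Dc_add]; exact Submodule.add_mem _ ha hb
      | smul q a h ha =>
        rw [Dc_smul]
        exact Submodule.add_mem _ (Submodule.smul_mem _ _ h) (Submodule.smul_mem _ _ ha))
    (fun h => hT _ (hG hs) (by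
      rw [show (s : ℂ) = algebraMap ℚ ℂ s from rfl, aeval_algebraMap_apply_eq_algebraMap_eval, h,
        map_zero]))
    (fun z hz => by
      induction hz using Submodule.span_induction with
      | mem z hz =>
        obtain ⟨π, y, hy, rfl⟩ := hz
        have := congrArg π (gkey hR hc hT hb oG cG hG h0 h1 hx hv hvx hy _ hs)
        rw [hF, map_zero, dotProduct, map_sum] at this
        rw [← this]
        refine Finset.sum_congr rfl fun μ _ => ?_
        rw [ev, eval_mapL, mul_comm, ← smul_eq_mul (F μ), ← map_smul, Algebra.smul_def]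
        rfl
      | zero => simp [ev, dotProduct]
      | add a b _ _ ha hb =>
        rw [show ev s (a + b) = ev s a + ev s b by ext; simp [ev], add_dotProduct, ha, hb, add_zero]
      | smul q a _ ha =>
        rw [show ev s (q • a) = q.eval s • ev s a by ext; simp [ev], smul_dotProduct, ha,
          smul_zero])
  refine ⟨H, hHs, fun t ht => ?_⟩
  obtain ⟨y, hy, hyt⟩ := fibre A hAD (s := t) (F := x t)
    (by rw [hTc, eval_map_algebraMap]; exact hT t (hG ht)) fun a ha => ha t ht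
  have h2 : (fun μ => (H μ).map (algebraMap ℚ ℂ)) ⬝ᵥ y = 0 := by
    ext n
    refine (Module.forall_dual_apply_eq_zero_iff ℚ _).1 fun π => ?_
    have := hH _ (Submodule.subset_span ⟨π, y, hy, rfl⟩)
    rw [← coeff_mapL, dotProduct, map_sum]
    simp only [mapL_mul]
    rw [dotProduct_comm] at this
    exact congrArg (coeff · n) this
  have := congrArg (eval t) h2
  rw [eval_dot, hyt, eval_zero] at this
  rw [← this]
  congr 1
  ext μ
  simp [ev]

end

end Pool.Agent.Lib.MP_5591bc_ag.G
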