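import Pool.Agent.Lib.MP_5591bc_ag.GPer

/-! Power saving for the exceptional integers. -/

namespace Pool.Agent.Lib.MP_5591bc_ag.G

open Filter Topology Polynomial Matrix Set

noncomputable section

lemma exists_fz (f : ℚ[X]) : ∃ (fz : ℤ[X]) (κ : ℂ), κ ≠ 0 ∧ fz.natDegree = f.natDegree ∧
    ∀ z : ℂ, aeval z f = κ * aeval z fz := by
  obtain ⟨b, hb, h⟩ := IsLocalization.integerNormalization_spec (nonZeroDivisors ℤ) f
  have hb0 : b ≠ 0 := nonZeroDivisors.ne_zero hb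
  refine ⟨IsLocalization.integerNormalization (nonZeroDivisors ℤ) f, (b : ℂ)⁻¹,
    inv_ne_zero (Int.cast_ne_zero.2 hb0), ?_, fun z => ?_⟩
  · rw [← natDegree_map_eq_of_injective (algebraMap ℤ ℚ).injective_int, h, natDegree_smul _ hb0]
  · rw [← aeval_map_algebraMap ℚ z (IsLocalization.integerNormalization _ f), h,
      eq_inv_mul_iff_mul_eq₀ (Int.cast_ne_zero.2 hb0)]
    simp

variable {n : ℕ}

lemma diff_aeval {σ : Type*} {S : Set ℂ} {v : ℂ → σ → ℂ} (h : ∀ i, DifferentiableOn ℂ (v · i) S)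
    (p : MvPolynomial σ ℚ) : DifferentiableOn ℂ (fun t => MvPolynomial.aeval (v t) p) S := by
  induction p using MvPolynomial.induction_on with
  | C a => simp
  | add p q hp hq => simpa using hp.fun_add hq
  | mul_X p i hp => simpa using hp.fun_mul (h i)

lemma vanish {U : Set ℂ} (ho : IsOpen U) (hc : IsPreconnected U)
    {P : ℂ → Matrix (Fin n) (Fin n) ℂ} (hP : Hol U P) (H : MvPolynomial (Option (Fin n × Fin n)) ℚ)
    {s : ℂ} (hs : s ∈ U)
    (h : ∀ᶠ t in 𝓝 s, MvPolynomial.aeval (fun o => o.elim t fun a => P t a.1 a.2) H = 0) :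
    ∀ t ∈ U, MvPolynomial.aeval (fun o => o.elim t fun a => P t a.1 a.2) H = 0 :=
  ident ho hc (diff_aeval (fun o => by
    rcases o with _ | a
    · exact differentiableOn_id
    · exact hP _ _) H) (differentiableOn_const 0) hs h

lemma good_of {U : Set ℂ} (ho : IsOpen U) (hc : IsPreconnected U)
    {P : ℂ → Matrix (Fin n) (Fin n) ℂ} (hP : Hol U P) {δ s : ℕ} (hs : (s : ℂ) ∈ U) (h0 : s ≠ 0)
    (h : AGood (fun t => (gP n).map (aeval t) * P t) δ s) : Good U P δ s := by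
  intro F hF hF0
  obtain ⟨G, hG⟩ : ∃ G : Matrix (Fin n) (Fin n) ℚ,
      G.map (algebraMap ℚ ℂ) * (gP n).map (aeval (s : ℂ)) = 1 := by
    have e : (gP n).map (aeval (s : ℂ)) = ((gP n).map (aeval (s : ℚ))).map (algebraMap ℚ ℂ) := by
      ext i j; rw [map_apply, map_apply, map_apply, ← aeval_algebraMap_apply, map_natCast]
    have h1 := det_gP n (Nat.cast_ne_zero.2 h0)
    rw [e, ← RingHom.mapMatrix_apply, ← RingHom.map_det, _root_.map_ne_zero] at h1
    refine ⟨((gP n).map (aeval (s : ℚ)))⁻¹, ?_⟩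
    rw [e, ← Matrix.map_mul, nonsing_inv_mul _ (Ne.isUnit h1)]
    simp
  have e1 : ∀ Y : Matrix (Fin n) (Fin n) ℂ, (fun a : Fin n × Fin n =>
      ∑ i, (G a.1 i : ℂ) * ent ((gP n).map (aeval (s : ℂ)) * Y) (i, a.2)) = ent Y := fun Y => by
    ext a
    have := congrArg (· * Y) hG
    simp only [Matrix.mul_assoc, Matrix.one_mul] at this
    exact congrFun (congrFun this a.1) a.2
  obtain ⟨p, h1, h2⟩ := h (fun X => MvPolynomial.aeval
    (fun a : Fin n × Fin n => ∑ i, (G a.1 i : ℂ) * X (i, a.2)) F)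
    (PF.comp (g := fun X => MvPolynomial.aeval X F) ⟨F, hF, fun _ => rfl⟩ fun a =>
      PF.sum _ fun i _ => (PF.var _).cmul _) (by
        simp only [Int.cast_natCast, e1]; exact hF0)
  obtain ⟨H, hH⟩ : ∃ H : MvPolynomial (Option (Fin n × Fin n)) ℚ,
      ∀ (t : ℂ) (Y : Matrix (Fin n) (Fin n) ℂ), MvPolynomial.aeval (fun o => o.elim t (ent Y)) H =
        MvPolynomial.aeval (fun o => o.elim t (ent ((gP n).map (aeval t) * Y))) p := by
    refine ⟨MvPolynomial.aeval (fun o => o.elim (MvPolynomial.X none) fun a =>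
      ∑ i, aeval (MvPolynomial.X none) (gP n a.1 i) * MvPolynomial.X (some (i, a.2))) p,
      fun t Y => ?_⟩
    rw [← AlgHom.comp_apply, MvPolynomial.comp_aeval]
    congr 2
    ext (_ | a)
    · simp
    · simp [ent, mul_apply, ← aeval_algHom_apply]
  refine ⟨H, fun U' P' hU => ?_, ?_⟩
  · suffices IsOpen U' ∧ ∀ t ∈ U',
      MvPolynomial.aeval (fun o => o.elim t fun a => P' t a.1 a.2) H = 0 from this.2
    induction hU with
    | base => exact ⟨ho, vanish ho hc hP H hs (h1.mono fun t ht => (hH t (P t)).trans ht)⟩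
    | step U1 U2 P1 P2 s' _ o2 c2 d2 s1 s2 e ih =>
      refine ⟨o2, vanish o2 c2 d2 H s2 ?_⟩
      filter_upwards [e, ih.1.mem_nhds s1] with t h3 h4
      rw [← h3]
      exact ih.2 t h4
  · apply MvPolynomial.map_injective (algebraMap ℚ ℂ) (algebraMap ℚ ℂ).injective
    refine MvPolynomial.funext fun X => ?_
    have h3 := hH s (of fun i j => X (i, j))
    rw [← Int.cast_natCast, h2, Int.cast_natCast, e1] at h3
    rw [MvPolynomial.eval_map, MvPolynomial.eval_map, ← MvPolynomial.aeval_def,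
      ← MvPolynomial.aeval_def, ← AlgHom.comp_apply, MvPolynomial.comp_aeval]
    refine Eq.trans ?_ h3
    congr 2
    ext (_ | a) <;> simp [ent]

lemma cover {bad : ℕ → Prop} [DecidablePred bad] {b M N : ℕ}
    (h : ∀ b' ≥ b, ((Finset.Icc b' (b' + M)).filter bad).card ≤ N) (k : ℕ) :
    ((Finset.Ico b (b + k * (M + 1))).filter bad).card ≤ k * N := by
  induction k with
  | zero => simp
  | succ k ih =>
    refine (Finset.card_le_card ?_).trans ((Finset.card_union_le _ _).trans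
      ((add_le_add ih (h (b + k * (M + 1)) le_self_add)).trans (le_of_eq (by ring))))
    intro t
    simp only [Finset.mem_union, Finset.mem_filter, Finset.mem_Ico, Finset.mem_Icc, add_mul]
    rintro ⟨h1, h2⟩
    by_cases h3 : t < b + k * (M + 1)
    · exact Or.inl ⟨⟨h1.1, h3⟩, h2⟩
    · exact Or.inr ⟨⟨by omega, by omega⟩, h2⟩

theorem power_saving (f : ℚ[X]) (hn : 0 < n) (hf : f.natDegree = n) (δ : ℕ) :
    ∃ η : ℝ, 0 < η ∧ ∃ N : ℕ, ∀ R : ℝ, ∃ b₀ : ℕ, ∀ P : ℂ → Matrix (Fin n) (Fin n) ℂ,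
      IsPeriodMatrix f {t | R < t.re} P → ∀ b ≥ b₀, ∀ ℓ : ℝ, 0 ≤ ℓ →
        ({t : ℕ | b ≤ t ∧ (t : ℝ) ≤ b + ℓ ∧ ¬ Good {t | R < t.re} P δ t}.ncard : ℝ) ≤
          N * (1 + ℓ / (b : ℝ) ^ η) := by
  classical
  obtain ⟨fz, κ, hκ, hd, hz⟩ := exists_fz f
  obtain ⟨R0, c, e, D, Cg, H⟩ := exists_std hn (hd.trans hf)
  obtain ⟨E, N, hE, hW⟩ := H.window δ
  refine ⟨(E : ℝ)⁻¹, by positivity, N, fun R => ?_⟩
  obtain ⟨b0, hb0⟩ := hW (max R R0)
  refine ⟨b0 + ⌈R⌉₊ + 1, fun P hP b hb ℓ hℓ => ?_⟩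
  have hb1 : (0 : ℝ) < b := by exact_mod_cast (by omega : 0 < b)
  set M := ⌊(b : ℝ) ^ (E : ℝ)⁻¹⌋₊ with hM
  have h1 : M ^ E ≤ b := by
    have : (M : ℝ) ^ E ≤ b := by
      rw [← Real.rpow_inv_natCast_pow hb1.le hE.ne']
      gcongr
      exact Nat.floor_le (by positivity)
    exact_mod_cast this
  have h2 := cover (bad := fun t => ¬ Good {t | R < t.re} P δ t) (b := b) (M := M) (N := N)
    (fun b' hb' => (Finset.card_le_card fun t ht => by
      rw [Finset.mem_filter] at ht ⊢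
      have h3 := (Finset.mem_Icc.1 ht.1).1
      refine ⟨ht.1, fun h => ht.2 (good_of (isOpen_lt continuous_const Complex.continuous_re)
        (convex_halfSpace_re_gt R).isPreconnected hP.hol ?_ (by omega) h)⟩
      have : (⌈R⌉₊ : ℝ) < t := by exact_mod_cast (by omega : ⌈R⌉₊ < t)
      simpa using (Nat.le_ceil R).trans_lt this).trans
      (hb0 (fun t => (gP n).map (aeval t) * P t) (fun t ht => by
        have h3 : t ∈ Ext R0 := (max_lt_iff.1 ht).2.trans_le (Complex.re_le_norm t)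
        refine ⟨hP.msol hκ hz (hd.trans hf).le (max_lt_iff.1 ht).1 (H.hz t h3), ?_⟩
        rw [det_mul]
        exact mul_ne_zero (det_gP n (ne_of_Ext (one_pos.trans_le H.hR) h3))
          (hP t (max_lt_iff.1 ht).1).1) b' (by omega) M (h1.trans hb'))) (⌊ℓ⌋₊ / (M + 1) + 1)
  have h3 := Set.ncard_le_ncard (s := {t : ℕ | b ≤ t ∧ (t : ℝ) ≤ b + ℓ ∧
    ¬ Good {t | R < t.re} P δ t}) (t := ↑((Finset.Ico b (b + (⌊ℓ⌋₊ / (M + 1) + 1) * (M + 1))).filter
      fun t => ¬ Good {t | R < t.re} P δ t)) (fun t ⟨a1, a2, a3⟩ => by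
        have a4 : t - b ≤ ⌊ℓ⌋₊ := Nat.le_floor (by rw [Nat.cast_sub a1]; linarith)
        have a5 := Nat.lt_div_mul_add (a := ⌊ℓ⌋₊) (b := M + 1) M.succ_pos
        simp only [Finset.coe_filter, Finset.mem_Ico, add_mul, one_mul]
        exact ⟨⟨a1, by omega⟩, a3⟩) (Finset.finite_toSet _)
  rw [Set.ncard_coe_finset] at h3
  refine (Nat.cast_le.2 (h3.trans h2)).trans ?_
  rw [Nat.cast_mul, mul_comm, Nat.cast_add, Nat.cast_one, add_comm]
  gcongr
  refine Nat.cast_div_le.trans ?_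
  gcongr
  · exact Nat.floor_le hℓ
  · push_cast
    exact (Nat.lt_floor_add_one _).le

end

end Pool.Agent.Lib.MP_5591bc_ag.G
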