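import Pool.Agent.Lib.MP_5591bc_ag.GDefs

/-! Galochkin's condition. -/

namespace Pool.Agent.Lib.MP_5591bc_ag.G

open Polynomial

noncomputable section

/-- For the system `T Y' = B Y` the matrices with `T^m Y^(m) = iterMat T B m * Y`. -/
def iterMat {n : ℕ} (T : ℤ[X]) (B : Matrix (Fin n) (Fin n) ℤ[X]) : ℕ → Matrix (Fin n) (Fin n) ℤ[X]
  | 0 => 1
  | m + 1 => T • (iterMat T B m).map derivative - ((m : ℤ[X]) * derivative T) • iterMat T B m +
      iterMat T B m * B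

/-- Galochkin's condition: the matrices `iterMat T B k / k!`, `k ≤ m`, have a common denominator
of at most exponential size. -/
def Galochkin {n : ℕ} (T : ℤ[X]) (B : Matrix (Fin n) (Fin n) ℤ[X]) : Prop :=
  ∃ C : ℝ, ∀ m : ℕ, ∃ d : ℕ, 0 < d ∧ (d : ℝ) ≤ C ^ (m + 1) ∧
    ∀ k ≤ m, ∀ i j, (k.factorial : ℤ[X]) ∣ (d : ℤ[X]) * iterMat T B k i j

/-- `P` is an invertible holomorphic solution of `T P' = B P` on `U`. -/
def IsFundamental {n : ℕ} (T : ℤ[X]) (B : Matrix (Fin n) (Fin n) ℤ[X]) (U : Set ℂ)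
    (P : ℂ → Matrix (Fin n) (Fin n) ℂ) : Prop :=
  ∀ t ∈ U, (P t).det ≠ 0 ∧ ∀ i j, DifferentiableAt ℂ (fun s => P s i j) t ∧
    aeval t T * deriv (fun s => P s i j) t = ∑ k, aeval t (B i k) * P t k j

end

end Pool.Agent.Lib.MP_5591bc_ag.G
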