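import Pool.Agent.Lib.MP_5591bc_ag.GMain
import Pool.Agent.Lib.MP_5591bc_ag.GOpDefs

/-! The power saving for all systems satisfying Galochkin's condition. -/

namespace Pool.Agent.Lib.MP_5591bc_ag.G

open Filter Topology Polynomial Matrix Set

noncomputable section

variable {n : ℕ} {T : ℤ[X]} {B : Matrix (Fin n) (Fin n) ℤ[X]}

lemma Az_int (t : ℂ) (i j : Fin n) : Az (T.map (algebraMap ℤ ℚ))
    (B.map (Polynomial.map (algebraMap ℤ ℚ))) t i j = aeval t (B i j) / aeval t T := by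
  simp only [Az, of_apply, map_apply, aeval_map_algebraMap]

lemma iter_eq {p : ℂ} (hp : aeval p T ≠ 0) {ψ : ℂ → Fin n → ℂ} (hψ : ∀ᶠ t in 𝓝 p,
    VSol (Az (T.map (algebraMap ℤ ℚ)) (B.map (Polynomial.map (algebraMap ℤ ℚ)))) ψ t) (m : ℕ)
    (i : Fin n) : ∀ᶠ t in 𝓝 p, aeval t T ^ m * iteratedDeriv m (ψ · i) t =
      ∑ j, aeval t (iterMat T B m i j) * ψ t j := by
  have ha : AnalyticAt ℂ (ψ · i) p := analyticAt_pi_iff.1
    (analyticAt_of_eventually (hψ.mono fun _ hs => hs.differentiableAt)) i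
  induction m with
  | zero => exact .of_forall fun t => by simp [iterMat, one_apply, apply_ite (aeval t)]
  | succ m ih =>
    have h0 : AnalyticAt ℂ (iteratedDeriv m (ψ · i)) p := by
      rw [iteratedDeriv_eq_iterate]; exact ha.iterated_deriv m
    filter_upwards [ih.eventually_nhds, hψ, h0.eventually_analyticAt,
      (analyticAt_aeval T p).continuousAt.eventually_ne hp] with t h1 h2 h3 h4
    have h5 := ((T.hasDerivAt_aeval t).fun_pow m).fun_mul h3.differentiableAt.hasDerivAt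
    have h6 := HasDerivAt.fun_sum (u := Finset.univ) fun j _ =>
      ((iterMat T B m i j).hasDerivAt_aeval t).fun_mul (hasDerivAt_pi.1 h2 j)
    have h7 := (h5.congr_of_eventuallyEq (EventuallyEq.symm h1)).unique h6
    have e : ∑ j, aeval t ((iterMat T B m * B) i j) * ψ t j = aeval t T * ∑ j,
        aeval t (iterMat T B m i j) * (Az (T.map (algebraMap ℤ ℚ))
          (B.map (Polynomial.map (algebraMap ℤ ℚ))) t *ᵥ ψ t) j := by
      simp only [mul_apply, map_sum, map_mul, mulVec, dotProduct, Az_int, Finset.mul_sum,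
        Finset.sum_mul]
      rw [Finset.sum_comm]
      refine Finset.sum_congr rfl fun j _ => Finset.sum_congr rfl fun k _ => ?_
      field_simp
    have e2 : (m : ℂ) * aeval t T ^ (m - 1) * aeval t T = m * aeval t T ^ m := by
      rcases m with _ | m
      · simp
      · rw [add_tsub_cancel_right, pow_succ, mul_assoc]
    rw [Finset.sum_add_distrib] at h7
    simp only [iterMat, Matrix.add_apply, Matrix.sub_apply, Matrix.smul_apply, map_apply,
      smul_eq_mul, map_add, map_sub, add_mul, sub_mul, Finset.sum_add_distrib, Finset.sum_sub_distrib, e]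
    simp only [map_mul, map_natCast, mul_assoc, ← Finset.mul_sum, ← h1.self_of_nhds]
    rw [iteratedDeriv_succ]
    linear_combination aeval t T * h7 -
      aeval t (derivative T) * iteratedDeriv m (ψ · i) t * e2

theorem Galochkin.std (h : Galochkin T B) (hT : T ≠ 0) (hd : ∀ i j, (B i j).degree < T.degree) :
    ∃ R c D Cg, Std (T.map (algebraMap ℤ ℚ)) (B.map (Polynomial.map (algebraMap ℤ ℚ))) R c T 0
      D Cg := by
  have hi := (algebraMap ℤ ℚ).injective_int
  obtain ⟨C, hC⟩ := h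
  obtain ⟨R, c, h1, h2, h3⟩ := exists_Rc (T.map (algebraMap ℤ ℚ))
    (B.map (Polynomial.map (algebraMap ℤ ℚ))) ((Polynomial.map_ne_zero_iff hi).2 hT) fun i j => by
      rw [degree_mul, degree_X, map_apply, degree_map_eq_of_injective hi,
        degree_map_eq_of_injective hi, add_comm]
      exact Nat.WithBot.add_one_le_of_lt (hd i j)
  have h4 : ∀ t ∈ Ext R, aeval t T ≠ 0 := fun t ht => by
    simpa only [aeval_map_algebraMap] using (h3 t ht).1
  let I : ℕ → Ideal ℤ := fun m =>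
    { carrier := {d | ∀ k ≤ m, ∀ i j, (k.factorial : ℤ[X]) ∣ (d : ℤ[X]) * iterMat T B k i j}
      add_mem' := fun ha hb k hk i j => by
        push_cast; rw [add_mul]; exact dvd_add (ha k hk i j) (hb k hk i j)
      zero_mem' := fun k hk i j => by simp
      smul_mem' := fun a d hd k hk i j => by
        rw [smul_eq_mul, Int.cast_mul, mul_assoc]; exact (hd k hk i j).mul_left _ }
  have hI : ∀ m, ∃ d : ℕ, 0 < d ∧ (d : ℝ) ≤ C ^ (m + 1) ∧
      Submodule.IsPrincipal.generator (I m) ∣ d := fun m => by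
    obtain ⟨d, a1, a2, a3⟩ := hC m
    exact ⟨d, a1, a2, (Submodule.IsPrincipal.mem_iff_generator_dvd _).1 fun k hk i j => by
      simpa using a3 k hk i j⟩
  refine ⟨R, c, fun m => Submodule.IsPrincipal.generator (I m), C, h1, h2, fun t ht => (h3 t ht).1,
    fun t ht => (h3 t ht).2, h4, fun m h0 => ?_, fun m m' hm =>
      (Submodule.IsPrincipal.mem_iff_generator_dvd _).1 fun k hk =>
        Submodule.IsPrincipal.generator_mem (I m') k (hk.trans hm), fun m => ?_, fun m i => ?_⟩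
  · obtain ⟨d, a1, -, a3⟩ := hI m
    rw [h0, zero_dvd_iff] at a3
    omega
  · obtain ⟨d, a1, a2, a3⟩ := hI m
    refine le_trans ?_ a2
    exact_mod_cast Int.le_of_dvd (by exact_mod_cast a1) ((abs_dvd _ _).2 a3)
  · choose N hN using Submodule.IsPrincipal.generator_mem (I m) m le_rfl i
    refine ⟨N, fun t ht ψ hψ => ?_⟩
    have h5 : (m.factorial : ℂ) ≠ 0 := by exact_mod_cast m.factorial_ne_zero
    rw [coeff_tay, add_zero, ← mul_div_assoc, div_eq_iff h5, mul_assoc,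
      (iter_eq (h4 t ht) hψ m i).self_of_nhds, Finset.mul_sum, Finset.sum_mul]
    refine Finset.sum_congr rfl fun j _ => ?_
    have := congrArg (aeval t) (hN j)
    simp only [map_mul, map_intCast, map_natCast] at this
    rw [← mul_assoc, this]
    ring

lemma good_of' {U : Set ℂ} (ho : IsOpen U) (hc : IsPreconnected U)
    {P : ℂ → Matrix (Fin n) (Fin n) ℂ} (hP : Hol U P) {δ s : ℕ} (hs : (s : ℂ) ∈ U)
    (h : AGood P δ s) : Good U P δ s := by
  intro F hF hF0
  obtain ⟨H, h1, h2⟩ := h (fun X => MvPolynomial.aeval X F) ⟨F, hF, fun _ => rfl⟩ hF0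
  refine ⟨H, fun U' P' hU => ?_, ?_⟩
  · suffices IsOpen U' ∧ ∀ t ∈ U',
      MvPolynomial.aeval (fun o => o.elim t fun a => P' t a.1 a.2) H = 0 from this.2
    induction hU with
    | base => exact ⟨ho, vanish ho hc hP H hs h1⟩
    | step U1 U2 P1 P2 s' _ o2 c2 d2 s1 s2 e ih =>
      refine ⟨o2, vanish o2 c2 d2 H s2 ?_⟩
      filter_upwards [e, ih.1.mem_nhds s1] with t h3 h4
      rw [← h3]
      exact ih.2 t h4
  · apply MvPolynomial.map_injective (algebraMap ℚ ℂ) (algebraMap ℚ ℂ).injective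
    refine MvPolynomial.funext fun X => ?_
    rw [MvPolynomial.eval_map, MvPolynomial.eval_map, ← MvPolynomial.aeval_def,
      ← MvPolynomial.aeval_def, ← AlgHom.comp_apply, MvPolynomial.comp_aeval]
    refine Eq.trans ?_ (h2 X)
    congr 2
    ext (_ | a) <;> simp

lemma count_le {ok : ℕ → Prop} [DecidablePred ok] {E N b : ℕ} (hE : 0 < E) (hb : 0 < b)
    (h : ∀ b' ≥ b, ∀ M, M ^ E ≤ b' → ((Finset.Icc b' (b' + M)).filter fun t => ¬ ok t).card ≤ N)
    {ℓ : ℝ} (hℓ : 0 ≤ ℓ) : ({t : ℕ | b ≤ t ∧ (t : ℝ) ≤ b + ℓ ∧ ¬ ok t}.ncard : ℝ) ≤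
      N * (1 + ℓ / (b : ℝ) ^ (E : ℝ)⁻¹) := by
  have hb1 : (0 : ℝ) < b := by exact_mod_cast hb
  set M := ⌊(b : ℝ) ^ (E : ℝ)⁻¹⌋₊ with hM
  have h1 : M ^ E ≤ b := by
    have : (M : ℝ) ^ E ≤ b := by
      rw [← Real.rpow_inv_natCast_pow hb1.le hE.ne']
      gcongr
      exact Nat.floor_le (by positivity)
    exact_mod_cast this
  have h2 := cover (fun b' hb' => h b' hb' M (h1.trans hb')) (⌊ℓ⌋₊ / (M + 1) + 1)
  have h3 := Set.ncard_le_ncard (s := {t : ℕ | b ≤ t ∧ (t : ℝ) ≤ b + ℓ ∧ ¬ ok t})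
    (t := ↑((Finset.Ico b (b + (⌊ℓ⌋₊ / (M + 1) + 1) * (M + 1))).filter fun t => ¬ ok t))
    (fun t ⟨a1, a2, a3⟩ => by
      have a4 : t - b ≤ ⌊ℓ⌋₊ := Nat.le_floor (by rw [Nat.cast_sub a1]; linarith)
      have a5 := Nat.lt_div_mul_add (a := ⌊ℓ⌋₊) (b := M + 1) M.succ_pos
      simp only [Finset.coe_filter, Finset.mem_Ico, add_mul, one_mul]
      exact ⟨⟨a1, by omega⟩, a3⟩) (Finset.finite_toSet _)
  rw [Set.ncard_coe_finset] at h3
  refine (Nat.cast_le.2 (h3.trans h2)).trans ?_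
  rw [Nat.cast_mul, mul_comm, Nat.cast_add, Nat.cast_one, add_comm]
  gcongr
  refine Nat.cast_div_le.trans ?_
  gcongr
  · exact Nat.floor_le hℓ
  · push_cast
    exact (Nat.lt_floor_add_one _).le

theorem g_operator (hT : T ≠ 0) (hd : ∀ i j, (B i j).degree < T.degree) (h : Galochkin T B)
    (δ : ℕ) : ∃ η : ℝ, 0 < η ∧ ∃ N : ℕ, ∀ R : ℝ, ∃ b₀ : ℕ, ∀ P : ℂ → Matrix (Fin n) (Fin n) ℂ,
      IsFundamental T B {t | R < t.re} P → ∀ b ≥ b₀, ∀ ℓ : ℝ, 0 ≤ ℓ →
        ({t : ℕ | b ≤ t ∧ (t : ℝ) ≤ b + ℓ ∧ ¬ Good {t | R < t.re} P δ t}.ncard : ℝ) ≤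
          N * (1 + ℓ / (b : ℝ) ^ η) := by
  classical
  obtain ⟨R0, c, D, Cg, H⟩ := h.std hT hd
  obtain ⟨E, N, hE, hW⟩ := H.window δ
  refine ⟨(E : ℝ)⁻¹, by positivity, N, fun R => ?_⟩
  obtain ⟨b0, hb0⟩ := hW (max R R0)
  refine ⟨b0 + ⌈R⌉₊ + 1, fun P hP b hb ℓ hℓ => count_le hE (by omega) (fun b' hb' M hM =>
    (Finset.card_le_card fun t ht => ?_).trans (hb0 P (fun t ht => ?_) b' (by omega) M hM)) hℓ⟩
  · rw [Finset.mem_filter] at ht ⊢
    have h3 := (Finset.mem_Icc.1 ht.1).1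
    refine ⟨ht.1, fun h => ht.2 (good_of' (isOpen_lt continuous_const Complex.continuous_re)
      (convex_halfSpace_re_gt R).isPreconnected
      (fun i j t ht => ((hP t ht).2 i j).1.differentiableWithinAt) ?_ h)⟩
    have : (⌈R⌉₊ : ℝ) < t := by exact_mod_cast (by omega : ⌈R⌉₊ < t)
    simpa using (Nat.le_ceil R).trans_lt this
  · have h3 := H.hz t ((max_lt_iff.1 ht).2.trans_le (Complex.re_le_norm t))
    obtain ⟨h4, h5⟩ := hP t (max_lt_iff.1 ht).1
    refine ⟨fun i j => (h5 i j).1.hasDerivAt.congr_deriv ?_, h4⟩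
    simp only [mul_apply, Az_int, div_mul_eq_mul_div, ← Finset.sum_div, ← (h5 i j).2]
    field_simp

end

end Pool.Agent.Lib.MP_5591bc_ag.G
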