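import Pool.Agent.Lib.MP_5591bc_ag.GOp

namespace Pool.Agent.Results.MP_5591bc_ag.GOperator

open Pool.Agent.Lib.MP_5591bc_ag.G

/-- Fundamental matrices of systems `T P' = B P` satisfying Galochkin's condition, with at most a
simple pole at infinity: the integers `t ∈ [b, b + ℓ]` at which the degree `δ` property fails
number at most `N (1 + ℓ / b^η)`. -/
theorem result (n : ℕ) (T : Polynomial ℤ) (B : Matrix (Fin n) (Fin n) (Polynomial ℤ)) (hT : T ≠ 0)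
    (hd : ∀ i j, (B i j).degree < T.degree) (h : Galochkin T B) (δ : ℕ) :
    ∃ η : ℝ, 0 < η ∧ ∃ N : ℕ, ∀ R : ℝ, ∃ b₀ : ℕ, ∀ P : ℂ → Matrix (Fin n) (Fin n) ℂ,
      IsFundamental T B {t | R < t.re} P → ∀ b : ℕ, b₀ ≤ b → ∀ ℓ : ℝ, 0 ≤ ℓ →
        ({t : ℕ | b ≤ t ∧ (t : ℝ) ≤ b + ℓ ∧ ¬ Good {t | R < t.re} P δ t}.ncard : ℝ) ≤
          N * (1 + ℓ / (b : ℝ) ^ η) :=
  g_operator hT hd h δ

end Pool.Agent.Results.MP_5591bc_ag.GOperator
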