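import Pool.Agent.Lib.MP_5591bc_ag.GEig
import Pool.Agent.Lib.MP_5591bc_ag.GTens

/-! Shidlovsky's lemma for formal power series solutions of a linear system. -/

namespace Pool.Agent.Lib.MP_5591bc_ag.G

open Matrix Polynomial Function

noncomputable section

variable {k ι S : Type*} [Field k] [Fintype ι] [CommRing S]

/-- pairing of a polynomial vector with a vector of power series -/
def pr (τ : k[X] →+* PowerSeries S) (Φ : ι → PowerSeries S) (ρ : ι → k[X]) : PowerSeries S :=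
  ∑ μ, τ (ρ μ) * Φ μ

/-- formal solution of `T Φ' = B Φ` -/
def IsS (τ : k[X] →+* PowerSeries S) (T : k[X]) (B : Matrix ι ι k[X]) (Φ : ι → PowerSeries S) :
    Prop := ∀ μ, τ T * PowerSeries.derivative S (Φ μ) = ∑ ν, τ (B μ ν) * Φ ν

variable {τ : k[X] →+* PowerSeries S} {Φ : ι → PowerSeries S} {T : k[X]} {B : Matrix ι ι k[X]}

lemma pr_add (x y : ι → k[X]) : pr τ Φ (x + y) = pr τ Φ x + pr τ Φ y := by
  simp [pr, add_mul, Finset.sum_add_distrib]

lemma pr_smul (q : k[X]) (x : ι → k[X]) : pr τ Φ (q • x) = τ q * pr τ Φ x := by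
  simp [pr, Finset.mul_sum, mul_assoc]

lemma pr_zero : pr τ Φ 0 = 0 := by simp [pr]

lemma pr_sum {α : Type*} (s : Finset α) (x : α → ι → k[X]) :
    pr τ Φ (∑ a ∈ s, x a) = ∑ a ∈ s, pr τ Φ (x a) := by
  simp only [pr, Finset.sum_apply, map_sum, Finset.sum_mul]
  exact Finset.sum_comm

lemma pr_single [DecidableEq ι] (μ : ι) (q : k[X]) : pr τ Φ (Pi.single μ q) = τ q * Φ μ := by
  rw [pr, Finset.sum_eq_single μ] <;> simp +contextual

lemma pr_Dc (hτ : ∀ p, τ (derivative p) = PowerSeries.derivative S (τ p)) (h : IsS τ T B Φ)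
    (ρ : ι → k[X]) : pr τ Φ (Dc T Bᵀ ρ) = τ T * PowerSeries.derivative S (pr τ Φ ρ) := by
  rw [Dc, pr_add, pr_smul]
  simp only [pr, map_sum, Derivation.leibniz, smul_eq_mul, Finset.mul_sum, mul_add,
    Finset.sum_add_distrib, mulVec, dotProduct, map_mul, Finset.sum_mul, transpose_apply, hτ]
  rw [add_comm]
  congr 1
  · rw [Finset.sum_comm]
    refine Finset.sum_congr rfl fun μ _ => ?_
    rw [mul_left_comm, h μ, Finset.mul_sum]
    exact Finset.sum_congr rfl fun ν _ => by ring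
  · exact Finset.sum_congr rfl fun μ _ => by ring

lemma dvd_iter (hτ : ∀ p, τ (derivative p) = PowerSeries.derivative S (τ p)) (h : IsS τ T B Φ)
    {ρ : ι → k[X]} {J : ℕ} (hJ : PowerSeries.X ^ J ∣ pr τ Φ ρ) (i : ℕ) :
    PowerSeries.X ^ (J - i) ∣ pr τ Φ ((Dc T Bᵀ)^[i] ρ) := by
  induction i with
  | zero => simpa using hJ
  | succ i ih =>
    rw [iterate_succ_apply', pr_Dc hτ h]
    refine Dvd.dvd.mul_left ?_ _
    rw [PowerSeries.X_pow_dvd_iff] at ih ⊢
    intro m hm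
    rw [PowerSeries.coeff_derivative, ih (m + 1) (by omega), zero_mul]

lemma natDegree_Dc {e L : ℕ} (hT : T.natDegree ≤ e) (hB : ∀ μ ν, (B μ ν).natDegree ≤ e)
    {ρ : ι → k[X]} (h : ∀ μ, (ρ μ).natDegree ≤ L) (μ : ι) : (Dc T B ρ μ).natDegree ≤ L + e := by
  refine (natDegree_add_le _ _).trans (max_le ?_ ?_)
  · rw [add_comm]
    exact natDegree_mul_le.trans (add_le_add hT
      ((natDegree_derivative_le (ρ μ)).trans ((Nat.sub_le _ _).trans (h μ))))
  · rw [add_comm]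
    exact natDegree_sum_le_of_forall_le _ _ fun ν _ =>
      natDegree_mul_le.trans (add_le_add (hB μ ν) (h ν))

lemma natDegree_iter {e L : ℕ} (hT : T.natDegree ≤ e) (hB : ∀ μ ν, (B μ ν).natDegree ≤ e)
    {ρ : ι → k[X]} (h : ∀ μ, (ρ μ).natDegree ≤ L) (i : ℕ) :
    ∀ μ, ((Dc T B)^[i] ρ μ).natDegree ≤ L + i * e := by
  induction i with
  | zero => simpa using h
  | succ i ih =>
    intro μ
    rw [iterate_succ_apply']
    exact (natDegree_Dc hT hB ih μ).trans (le_of_eq (by ring))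

/-- exterior product of polynomial vectors -/
def wg {l : ℕ} (ρ : Fin l → ι → k[X]) : (Fin l → ι) → k[X] :=
  fun J => (of fun i j => ρ i (J j)).det

omit [Fintype ι] in
lemma wg_eq {l : ℕ} (ρ : Fin l → ι → k[X]) : wg ρ = ∑ σ : Equiv.Perm (Fin l),
    (((Equiv.Perm.sign σ : ℤˣ) : ℤ) : k[X]) • tens fun j => ρ (σ j) := by
  ext1 J
  simp [wg, det_apply', tens]

lemma Dc_wg [DecidableEq ι] {l : ℕ} (ρ : Fin l → ι → k[X]) :
    Dc T (tB (Fin l) B) (wg ρ) = ∑ i, wg (update ρ i (Dc T B (ρ i))) := by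
  simp only [wg_eq, Dc_sum, Dc_smul, derivative_intCast, mul_zero, zero_smul, zero_add, Dc_tens]
  rw [Finset.sum_comm]
  refine Finset.sum_congr rfl fun σ _ => ?_
  rw [← Finset.smul_sum]
  congr 1
  rw [← Equiv.sum_comp σ fun i => tens fun j => update ρ i (Dc T B (ρ i)) (σ j)]
  refine Finset.sum_congr rfl fun j _ => ?_
  congr 1
  exact (update_comp_eq_of_injective ρ σ.injective j _).symm

omit [Fintype ι] in
lemma wg_cons {l : ℕ} (ρ : Fin (l + 1) → ι → k[X]) (J : Fin l → ι) :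
    (fun ν => wg ρ (Fin.cons ν J)) =
      ∑ i : Fin (l + 1), ((-1) ^ (i : ℕ) * wg (fun j => ρ (i.succAbove j)) J) • ρ i := by
  ext1 ν
  rw [wg, det_succ_column_zero, Finset.sum_apply]
  refine Finset.sum_congr rfl fun i _ => ?_
  rw [Pi.smul_apply, smul_eq_mul, mul_right_comm]
  rfl

omit [Fintype ι] in
lemma natDegree_wg {l d : ℕ} {ρ : Fin l → ι → k[X]} (h : ∀ i μ, (ρ i μ).natDegree ≤ d)
    (J : Fin l → ι) : (wg ρ J).natDegree ≤ l * d := by
  rw [wg, det_apply']
  refine natDegree_sum_le_of_forall_le _ _ fun σ _ => natDegree_mul_le.trans ?_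
  rw [natDegree_intCast, zero_add]
  refine (natDegree_prod_le _ _).trans ((Finset.sum_le_card_nsmul _ _ d fun j _ => h _ _).trans ?_)
  simp

lemma dvd_of_dvd_mul_poly {p : k[X]} (hp : p ≠ 0) {a d : ℕ} (hd : p.natDegree ≤ d)
    {g : PowerSeries k} (h : PowerSeries.X ^ a ∣ (p : PowerSeries k) * g) :
    PowerSeries.X ^ (a - d) ∣ g := by
  obtain ⟨q, hq, hn⟩ := exists_eq_pow_rootMultiplicity_mul_and_not_dvd p hp 0
  set s := p.rootMultiplicity 0
  rw [C_0, sub_zero] at hq hn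
  have hs : s ≤ d := by
    have := natDegree_le_of_dvd (Dvd.intro _ hq.symm) hp
    rw [natDegree_X_pow] at this
    omega
  have hu : IsUnit (q : PowerSeries k) := by
    rw [PowerSeries.isUnit_iff_constantCoeff, Polynomial.constantCoeff_coe, isUnit_iff_ne_zero]
    exact fun h0 => hn (X_dvd_iff.2 h0)
  by_cases has : a ≤ s
  · rw [show a - d = 0 by omega]; simp
  obtain ⟨j, rfl⟩ : ∃ j, a = s + j := ⟨a - s, by omega⟩
  rw [hq, Polynomial.coe_mul, Polynomial.coe_pow, Polynomial.coe_X, pow_add, mul_assoc,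
    mul_dvd_mul_iff_left (pow_ne_zero _ PowerSeries.X_ne_zero), hu.dvd_mul_left] at h
  exact (pow_dvd_pow _ (by omega)).trans h

/-- the inclusion of polynomials in power series -/
abbrev co : k[X] →+* PowerSeries k := Polynomial.coeToPowerSeries.ringHom

lemma co_deriv (p : k[X]) : co (derivative p) = PowerSeries.derivative k (co p) :=
  (PowerSeries.derivative_coe p).symm

lemma fd_order {Φ : ι → PowerSeries k} (hi : ∀ ρ, pr co Φ ρ = 0 → ρ = 0) (e : ℕ) :
    ∃ c : ℕ, ∀ ρ : ι → k[X], (∀ μ, (ρ μ).natDegree ≤ e) → PowerSeries.X ^ c ∣ pr co Φ ρ → ρ = 0 := by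
  let ℓ : (ι → degreeLT k (e + 1)) →ₗ[k] PowerSeries k :=
    { toFun := fun v => pr co Φ fun μ => (v μ).1
      map_add' := fun x y => pr_add _ _
      map_smul' := fun a x => by simp [pr, Finset.smul_sum] }
  let f : ℕ →o (Submodule k (ι → degreeLT k (e + 1)))ᵒᵈ :=
    ⟨fun c => OrderDual.toDual (((Ideal.span {PowerSeries.X ^ c}).restrictScalars k).comap ℓ),
      fun a b hab v hv =>
        Ideal.mem_span_singleton.2 ((pow_dvd_pow _ hab).trans (Ideal.mem_span_singleton.1 hv))⟩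
  obtain ⟨c, hc⟩ := IsArtinian.monotone_stabilizes f
  refine ⟨c, fun ρ hρ h => hi ρ ?_⟩
  let v : ι → degreeLT k (e + 1) := fun μ => ⟨ρ μ, mem_degreeLT.2
    (degree_le_natDegree.trans_lt (by exact_mod_cast Nat.lt_succ_of_le (hρ μ)))⟩
  have hv : v ∈ OrderDual.ofDual (f c) := Ideal.mem_span_singleton.2 h
  ext m
  rw [hc (c + m + 1) (by omega)] at hv
  exact PowerSeries.X_pow_dvd_iff.1 (Ideal.mem_span_singleton.1 hv) m (by omega)

variable [DecidableEq ι] [CharZero k] {Φ : ι → PowerSeries k}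

lemma shid_step (hT : T ≠ 0) (hS : IsS co T B Φ) (hi : ∀ ρ, pr co Φ ρ = 0 → ρ = 0) {e : ℕ}
    (hTe : T.natDegree ≤ e) (hB : ∀ μ ν, (B μ ν).natDegree ≤ e) (l : ℕ) :
    ∃ c : ℕ, ∀ (L J : ℕ) (ρ : ι → k[X]), (∀ μ, (ρ μ).natDegree ≤ L) →
      PowerSeries.X ^ J ∣ pr co Φ ρ → (wg fun i : Fin (l + 1) => (Dc T Bᵀ)^[i] ρ) ≠ 0 →
      (wg fun i : Fin (l + 2) => (Dc T Bᵀ)^[i] ρ) = 0 → J ≤ (l + 1) * L + c := by
  obtain ⟨e1, he1⟩ := eigen hT (tB (Fin (l + 1)) Bᵀ)
  obtain ⟨c, hc⟩ := fd_order hi e1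
  refine ⟨c + l + (l + 1) * ((l + 1) * e), fun L J ρ hρ hJ h1 h2 => ?_⟩
  obtain ⟨r, hr⟩ : ∃ r : ℕ → ι → k[X], ∀ i, r i = (Dc T Bᵀ)^[i] ρ := ⟨_, fun _ => rfl⟩
  have hr1 : ∀ i, Dc T Bᵀ (r i) = r (i + 1) := fun i => by rw [hr, hr, iterate_succ_apply']
  simp only [← hr] at h1 h2
  obtain ⟨J0, hJ0⟩ := Function.ne_iff.1 h1
  have rel := wg_cons (fun i : Fin (l + 2) => r i) J0
  rw [h2, Fin.sum_univ_castSucc] at rel
  simp only [Fin.succAbove_last, Fin.val_castSucc, Fin.val_last] at rel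
  obtain ⟨a, p, hp, hrel⟩ : ∃ (a : Fin (l + 1) → k[X]) (p : k[X]), p ≠ 0 ∧
      p • r (l + 1) = ∑ i, a i • r i := by
    refine ⟨fun i => -_, _, ?_, by
      simp only [neg_smul, Finset.sum_neg_distrib]
      exact (neg_eq_of_add_eq_zero_right rel.symm).symm⟩
    exact mul_ne_zero (pow_ne_zero _ (neg_ne_zero.2 one_ne_zero)) hJ0
  have heig : p • Dc T (tB (Fin (l + 1)) Bᵀ) (wg fun i : Fin (l + 1) => r i) =
      a (Fin.last l) • wg fun i : Fin (l + 1) => r i := by
    rw [Dc_wg, Fin.sum_univ_castSucc, Finset.sum_eq_zero, zero_add]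
    · ext1 J1
      have := det_updateRow_sum (of fun (i j : Fin (l + 1)) => r i (J1 j)) (Fin.last l) a
      rw [Pi.smul_apply, Pi.smul_apply, wg, wg, ← this, smul_eq_mul]
      have e2 : (∑ i, a i • (of fun (i j : Fin (l + 1)) => r i (J1 j)) i) =
          p • fun j => r (l + 1) (J1 j) := by
        ext1 j
        simpa using (congrFun hrel (J1 j)).symm
      rw [e2, det_updateRow_smul]
      congr 2
      ext1 i j
      by_cases h : i = Fin.last l
      · subst h; simp [hr1]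
      · simp [h]
    · intro i _
      ext1 J1
      refine det_zero_of_row_eq (i := i.castSucc) (j := i.succ) (Fin.castSucc_lt_succ).ne ?_
      ext1 j
      simp [hr1, update_of_ne (Fin.castSucc_lt_succ (i := i)).ne']
  obtain ⟨w0, p1, p2, hp1, hp2, hw0, hw⟩ := he1 _ h1 ⟨p, _, hp, heig⟩
  set w := wg fun i : Fin (l + 1) => r i with hwd
  have hw' : ∀ J, p1 * w J = p2 * w0 J := fun J => congrFun hw J
  have h00 : w0 J0 ≠ 0 := fun h => hJ0 (by
    have := hw' J0
    rw [h, mul_zero] at this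
    exact (mul_eq_zero.1 this).resolve_left hp1)
  have cross : w0 J0 • (fun ν => w (Fin.cons ν (Fin.tail J0))) =
      w J0 • fun ν => w0 (Fin.cons ν (Fin.tail J0)) := by
    ext1 ν
    apply mul_left_cancel₀ hp1
    simp only [Pi.smul_apply, smul_eq_mul]
    linear_combination w0 J0 * hw' (Fin.cons ν (Fin.tail J0)) -
      w0 (Fin.cons ν (Fin.tail J0)) * hw' J0
  have d1 : PowerSeries.X ^ (J - l) ∣ pr co Φ fun ν => w (Fin.cons ν (Fin.tail J0)) := by
    rw [hwd, wg_cons, pr_sum]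
    refine Finset.dvd_sum fun i _ => ?_
    rw [pr_smul, hr]
    exact ((pow_dvd_pow _ (by omega)).trans (dvd_iter co_deriv hS hJ i)).mul_left _
  have d2 := d1.mul_left (co (w0 J0))
  rw [← pr_smul, cross, pr_smul] at d2
  have dg : (w J0).natDegree ≤ (l + 1) * (L + (l + 1) * e) := natDegree_wg (fun i μ => by
    rw [hr]
    refine (natDegree_iter hTe (fun μ ν => hB ν μ) hρ i μ).trans ?_
    gcongr
    omega) J0
  have d3 := dvd_of_dvd_mul_poly hJ0 dg d2
  by_contra hlt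
  have := hc _ (fun μ => hw0 _) ((pow_dvd_pow _ (by rw [mul_add]; omega)).trans d3)
  exact h00 (by simpa using congrFun this (J0 0))

/-- Shidlovsky's lemma together with the resulting bound on the order at another point. -/
theorem shid (hT : T ≠ 0) (hS : IsS co T B Φ) (hi : ∀ ρ, pr co Φ ρ = 0 → ρ = 0) :
    ∃ c : ℕ, ∀ (L J : ℕ) (ρ : ι → k[X]), ρ ≠ 0 → (∀ μ, (ρ μ).natDegree ≤ L) →
      PowerSeries.X ^ J ∣ pr co Φ ρ → Fintype.card ι * L + c < J + L →
      ∀ (K : Type) [Field K] (τ : k[X] →+* PowerSeries K) (Ψ : ι → PowerSeries K),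
      (∀ p, τ (derivative p) = PowerSeries.derivative K (τ p)) → IsUnit (τ X) →
      (∀ p, p ≠ 0 → ∀ a, PowerSeries.X ^ a ∣ τ p → a ≤ p.natDegree) → IsS τ T B Ψ →
      (∃ μ, IsUnit (Ψ μ)) → ∀ N, PowerSeries.X ^ N ∣ pr τ Ψ ρ → N + J ≤ Fintype.card ι * L + c := by
  obtain ⟨e, hTe, hB⟩ : ∃ e, T.natDegree ≤ e ∧ ∀ μ ν, (B μ ν).natDegree ≤ e :=
    ⟨T.natDegree + ∑ x : ι × ι, (B x.1 x.2).natDegree, by omega, fun μ ν =>
      (Finset.single_le_sum (f := fun x : ι × ι => (B x.1 x.2).natDegree)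
        (fun _ _ => Nat.zero_le _) (Finset.mem_univ (μ, ν))).trans (by omega)⟩
  choose c hc using shid_step hT hS hi hTe hB
  obtain ⟨c0, hc0⟩ := fd_order hi 0
  set m := Fintype.card ι with hm
  refine ⟨∑ l ∈ Finset.range m, c l + c0 + m * (m * e) + 2 * m, ?_⟩
  intro L J ρ h0 hρ hJ hlt K _ τ Ψ hτ hX hdeg hΨ ⟨μ, hμ⟩ N hN
  have hw : ∀ l ≤ m, (wg fun i : Fin l => (Dc T Bᵀ)^[i] ρ) ≠ 0 := by
    intro l
    induction l with
    | zero => intro _ h; simpa [wg] using congrFun h Fin.elim0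
    | succ l ih =>
      intro hl h
      rcases l with _ | l
      · apply h0
        ext1 ν
        simpa [wg] using congrFun h fun _ => ν
      · have h1 := hc l L J ρ hρ hJ (ih (by omega)) h
        have h2 : c l ≤ ∑ l ∈ Finset.range m, c l :=
          Finset.single_le_sum (fun _ _ => Nat.zero_le _) (Finset.mem_range.2 (by omega))
        have h3 : (l + 1 + 1) * L ≤ m * L := Nat.mul_le_mul_right _ hl
        rw [add_mul _ 1, one_mul] at h3
        omega
  obtain ⟨J0, hJ0⟩ := Function.ne_iff.1 (hw m le_rfl)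
  set A : Matrix (Fin m) (Fin m) k[X] := of fun i j => (Dc T Bᵀ)^[i] ρ (J0 j) with hA
  have hdet : A.det ≠ 0 := hJ0
  have hbij : Bijective J0 := (Fintype.bijective_iff_injective_and_card J0).2 ⟨fun i j hij => by
    by_contra hne
    exact hdet (det_zero_of_column_eq hne fun l => by simp [hA, hij]), by simp [hm]⟩
  have hadj : ∀ ν, Pi.single ν A.det =
      ∑ i : Fin m, A.adjugate (surjInv hbij.2 ν) i • (Dc T Bᵀ)^[i] ρ := fun ν => by
    ext1 ν'
    obtain ⟨j, rfl⟩ := hbij.2 ν'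
    obtain ⟨j', rfl⟩ := hbij.2 ν
    have := congrFun (congrFun (adjugate_mul A) j') j
    rw [leftInverse_surjInv hbij j', Finset.sum_apply]
    simp only [mul_apply, Matrix.smul_apply, one_apply, smul_eq_mul, mul_ite, mul_one,
      mul_zero] at this
    simp only [Pi.smul_apply, smul_eq_mul, Pi.single_apply, hbij.1.eq_iff, eq_comm (a := j)]
    exact this.symm
  have dg : A.det.natDegree ≤ m * (L + m * e) := natDegree_wg (fun i μ => by
    refine (natDegree_iter hTe (fun μ ν => hB ν μ) hρ i μ).trans ?_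
    gcongr
    omega) J0
  obtain ⟨q, hq, hn⟩ := exists_eq_pow_rootMultiplicity_mul_and_not_dvd A.det hdet 0
  set s := A.det.rootMultiplicity 0
  rw [C_0, sub_zero] at hq hn
  have hq0 : q ≠ 0 := fun h => hn (h ▸ dvd_zero _)
  have hdq : s + q.natDegree ≤ m * (L + m * e) := by
    rwa [hq, natDegree_mul (pow_ne_zero _ X_ne_zero) hq0, natDegree_X_pow] at dg
  have d1 : PowerSeries.X ^ (J - m) ∣ co A.det * Φ μ := by
    rw [← pr_single, hadj, pr_sum]
    refine Finset.dvd_sum fun i _ => ?_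
    rw [pr_smul]
    exact ((pow_dvd_pow _ (by omega)).trans (dvd_iter co_deriv hS hJ i)).mul_left _
  have hs : J - m - s < c0 := by
    by_contra hge
    have hu : IsUnit (q : PowerSeries k) := by
      rw [PowerSeries.isUnit_iff_constantCoeff, Polynomial.constantCoeff_coe, isUnit_iff_ne_zero]
      exact fun h0 => hn (X_dvd_iff.2 h0)
    rw [hq, map_mul, mul_assoc] at d1
    have d2 := dvd_of_dvd_mul_poly (pow_ne_zero s X_ne_zero) (natDegree_X_pow s).le d1
    have d3 : PowerSeries.X ^ (J - m - s) ∣ Φ μ := hu.dvd_mul_left.1 d2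
    have := hc0 (Pi.single μ 1) (fun ν => by by_cases h : ν = μ <;> simp [h]) (by
      rw [pr_single, map_one, one_mul]
      exact (pow_dvd_pow _ (by omega)).trans d3)
    simpa using congrFun this μ
  have d4 : PowerSeries.X ^ (N - m) ∣ τ A.det * Ψ μ := by
    rw [← pr_single, hadj, pr_sum]
    refine Finset.dvd_sum fun i _ => ?_
    rw [pr_smul]
    exact ((pow_dvd_pow _ (by omega)).trans (dvd_iter hτ hΨ hN i)).mul_left _
  rw [hμ.dvd_mul_right, hq, map_mul, map_pow, (hX.pow s).dvd_mul_left] at d4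
  have := hdeg q hq0 _ d4
  rw [mul_add] at hdq
  omega

end

end Pool.Agent.Lib.MP_5591bc_ag.G
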