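import Pool.Agent.Lib.MP_5591bc_ag.GDen

/-! Siegel's lemma for auxiliary forms and the determinant estimate. -/

namespace Pool.Agent.Lib.MP_5591bc_ag.G

open Matrix Polynomial

noncomputable section

attribute [local instance] Matrix.seminormedAddCommGroup in
lemma siegel {α β : Type*} [Fintype α] [Fintype β] (A : Matrix α β ℤ) {a : ℝ} (ha : 1 ≤ a)
    (hA : ∀ i j, |(A i j : ℝ)| ≤ a) {κ g : ℕ} (hκ : 0 < κ) (h0 : 0 < Fintype.card α)
    (hc : Fintype.card α + κ = Fintype.card β) (hg : Fintype.card α ≤ g * κ) :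
    ∃ t : β → ℤ, t ≠ 0 ∧ A *ᵥ t = 0 ∧ ∀ j, |(t j : ℝ)| ≤ (Fintype.card β * a) ^ g := by
  obtain ⟨t, h1, h2, h3⟩ := Int.Matrix.exists_ne_zero_int_vec_norm_le A (by omega) h0
  refine ⟨t, h1, h2, fun j => ?_⟩
  have hn : ‖A‖ ≤ a := (Matrix.norm_le_iff (by linarith)).2 fun i j => by
    rw [Int.norm_eq_abs]; exact hA i j
  have hβ : (1 : ℝ) ≤ Fintype.card β := by exact_mod_cast (by omega : 1 ≤ Fintype.card β)
  have h4 : (Fintype.card α : ℝ) / (Fintype.card β - Fintype.card α) ≤ g := by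
    rw [← hc]; push_cast
    rw [add_sub_cancel_left, div_le_iff₀ (by exact_mod_cast hκ)]
    exact_mod_cast hg
  rw [← Int.norm_eq_abs]
  refine (norm_le_pi_norm t j).trans (h3.trans ?_)
  have h5 : (1 : ℝ) ≤ Fintype.card β * max 1 ‖A‖ := one_le_mul_of_one_le_of_one_le hβ (by simp)
  refine (Real.rpow_le_rpow_of_exponent_le h5 h4).trans ?_
  rw [Real.rpow_natCast]
  gcongr
  exact max_le ha hn

variable {ι : Type*} [Fintype ι]

lemma siegel_poly {Φ : ι → PowerSeries ℚ} {q : ℤ} (hq : q ≠ 0) {J L κ g : ℕ} {a : ℝ} (ha : 1 ≤ a)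
    (hz : ∀ μ, ∀ k ≤ J, ∃ z : ℤ, (q : ℚ) * PowerSeries.coeff k (Φ μ) = z ∧ |(z : ℝ)| ≤ a)
    (hκ : 0 < κ) (h0 : 0 < J) (hc : J + κ = Fintype.card ι * (L + 1)) (hg : J ≤ g * κ) :
    ∃ t : ι → Fin (L + 1) → ℤ, t ≠ 0 ∧
      PowerSeries.X ^ J ∣ pr co Φ (fun μ => ∑ l : Fin (L + 1), monomial l (t μ l : ℚ)) ∧
      ∀ μ l, |(t μ l : ℝ)| ≤ (Fintype.card ι * (L + 1) * a) ^ g := by
  choose! z hz1 hz2 using hz
  obtain ⟨t, h1, h2, h3⟩ := siegel
    (of fun (k : Fin J) (x : ι × Fin (L + 1)) => if (x.2 : ℕ) ≤ k then z x.1 (k - x.2) else 0) ha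
    (fun k x => by
      rw [of_apply]
      split_ifs
      · exact hz2 _ _ (by omega)
      · simp; linarith) hκ (by simpa using h0) (by simpa using hc) (by simpa using hg)
  refine ⟨fun μ l => t (μ, l), fun h => h1 (funext fun x => congrFun (congrFun h x.1) x.2), ?_,
    fun μ l => by simpa using h3 (μ, l)⟩
  rw [PowerSeries.X_pow_dvd_iff]
  intro k hk
  have h4 := congrArg (Int.cast : ℤ → ℚ) (congrFun h2 ⟨k, hk⟩)
  apply mul_left_cancel₀ (Int.cast_ne_zero.2 hq : (q : ℚ) ≠ 0)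
  rw [mul_zero]
  refine Eq.trans ?_ (h4.trans (by simp))
  simp only [pr, map_sum, Finset.sum_mul, Finset.mul_sum, mulVec, dotProduct, of_apply,
    Fintype.sum_prod_type]
  push_cast
  refine Finset.sum_congr rfl fun μ _ => Finset.sum_congr rfl fun l _ => ?_
  rw [← C_mul_X_pow_eq_monomial, map_mul co, map_pow co]
  simp only [co, coeToPowerSeries.ringHom_apply, coe_C, coe_X]
  rw [mul_assoc, PowerSeries.coeff_C_mul, PowerSeries.coeff_X_pow_mul']
  split_ifs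
  · rw [← hz1 _ _ (by omega)]; ring
  · simp

lemma norm_det_le [DecidableEq ι] {A : Matrix ι ι ℂ} {x : ℝ} (h : ∀ i j, ‖A i j‖ ≤ x) :
    ‖A.det‖ ≤ (Fintype.card ι).factorial * x ^ Fintype.card ι := by
  have := Matrix.det_le (A := A) (abv := NormedField.toAbsoluteValue ℂ) (x := x) h
  rwa [nsmul_eq_mul] at this

lemma detlemma [DecidableEq ι] {α : Type*} {lam : α → ι → ℂ} {h : ι → ℤ} (h0 : h ≠ 0) {D : ℤ}
    (hD : D ≠ 0) (hint : ∀ k μ, ∃ z : ℤ, (D : ℂ) * lam k μ = z)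
    (hker : ∀ v, (∀ k, lam k ⬝ᵥ v = 0) → v = 0) {E ε H : ℝ} (hE0 : 0 < E) (hε0 : 0 ≤ ε)
    (hH1 : 1 ≤ H) (hE : ∀ k μ, ‖lam k μ‖ ≤ E) {f : ι → ℂ} (hε : ∀ k, ‖lam k ⬝ᵥ f‖ ≤ ε)
    (hf : (fun μ => (h μ : ℂ)) ⬝ᵥ f = 0) (hH : ∀ μ, |(h μ : ℝ)| ≤ H) (μ : ι) :
    ‖f μ‖ * (|(D : ℝ)| * E ^ 2) ≤ Fintype.card ι * (Fintype.card ι).factorial *
      H ^ Fintype.card ι * (|(D : ℝ)| * E) ^ Fintype.card ι * ε := by
  obtain ⟨r, x, η, h1, h2⟩ := exists_frame lam
  have hk : ∀ v, (∀ i, lam (x i) ⬝ᵥ v = 0) → v = 0 := fun v hv => hker v fun k => by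
    rw [h2 k, sum_dotProduct]; simp [hv]
  have hr : r = Fintype.card ι := by
    let M0 : Matrix (Fin r) ι ℂ := of fun i => lam (x i)
    have hb : Function.Bijective M0.mulVecLin := by
      refine ⟨(injective_iff_map_eq_zero _).2 fun v hv => hk v fun i => congrFun hv i, fun c =>
        ⟨∑ j, c j • η j, ?_⟩⟩
      ext i
      change lam (x i) ⬝ᵥ _ = _
      simp [dotProduct_sum, h1]
    simpa using (LinearEquiv.ofBijective _ hb).finrank_eq.symm
  obtain ⟨e⟩ : Nonempty (ι ≃ Fin r) := ⟨Fintype.equivFinOfCardEq hr.symm⟩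
  obtain ⟨M, hM⟩ : ∃ M : Matrix ι ι ℂ, ∀ i, M i = lam (x (e i)) :=
    ⟨of fun i => lam (x (e i)), fun _ => rfl⟩
  have hMη : M * (of fun ν j => η (e j) ν) = 1 := by
    ext i j
    have := h1 (e i) (e j)
    rw [← hM] at this
    simp only [e.apply_eq_iff_eq] at this
    exact this
  have hdM : M.det ≠ 0 := (isUnit_det_of_right_inverse hMη).ne_zero
  obtain ⟨c, hc⟩ : ∃ c : ι → ℂ, ∑ j, c j • M j = fun μ => (h μ : ℂ) := by
    refine ⟨(fun μ => (h μ : ℂ)) ᵥ* of fun ν j => η (e j) ν, ?_⟩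
    rw [← vecMul_eq_sum, vecMul_vecMul, mul_eq_one_comm.1 hMη, vecMul_one]
  obtain ⟨j0, hj0⟩ : ∃ j, c j ≠ 0 := by
    by_contra hn
    push Not at hn
    apply h0
    ext ν
    simpa [hn] using (congrFun hc ν).symm
  have hN := det_updateRow_sum M j0 c
  rw [hc] at hN
  set N := M.updateRow j0 fun μ => (h μ : ℂ) with hNd
  have hN0 : N.det ≠ 0 := by rw [hN]; exact mul_ne_zero hj0 hdM
  have hE' : (E : ℂ) ≠ 0 := by exact_mod_cast hE0.ne'
  have hD' : (D : ℂ) ≠ 0 := by exact_mod_cast hD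
  obtain ⟨N', hN'⟩ : ∃ N' : Matrix ι ι ℂ, ∀ i, N' i = if i = j0 then fun μ => (h μ : ℂ) else
    (E : ℂ)⁻¹ • lam (x (e i)) := ⟨of fun i => _, fun _ => rfl⟩
  choose z hz using hint
  let Z : Matrix ι ι ℤ := of fun i ν => if i = j0 then h ν else z (x (e i)) ν
  have e1 : (Int.castRingHom ℂ).mapMatrix Z =
      diagonal (fun i => if i = j0 then 1 else (D : ℂ) * E) * N' := by
    ext i ν
    by_cases hi : i = j0
    · simp [Z, hN', hi]
    · simp [Z, hN', hi, ← hz]; field_simp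
  have e2 : (Int.castRingHom ℂ).mapMatrix Z =
      diagonal (fun i => if i = j0 then 1 else (D : ℂ)) * N := by
    ext i ν
    by_cases hi : i = j0
    · simp [Z, hNd, hi]
    · simp [Z, hNd, hi, ← hz, hM]
  have hZ0 : Z.det ≠ 0 := fun h => by
    have := congrArg det e2
    rw [← RingHom.map_det, h, map_zero, det_mul, det_diagonal] at this
    refine mul_ne_zero (Finset.prod_ne_zero_iff.2 fun i _ => ?_) hN0 this.symm
    split_ifs <;> simp [hD']
  have hZ1 : |(D : ℝ)| * E ≤ (|(D : ℝ)| * E) ^ Fintype.card ι * ‖N'.det‖ := by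
    have h3 := congrArg (fun M => ‖det M‖) e1
    simp only [← RingHom.map_det, det_mul, det_diagonal, norm_mul, norm_prod] at h3
    have h4 : (1 : ℝ) ≤ ‖(Int.castRingHom ℂ) Z.det‖ := by
      rw [eq_intCast, Complex.norm_intCast]
      exact_mod_cast Int.one_le_abs hZ0
    have h5 : (|(D : ℝ)| * E) * ∏ i, ‖if i = j0 then 1 else (D : ℂ) * E‖ =
        (|(D : ℝ)| * E) ^ Fintype.card ι := by
      rw [← Finset.card_univ, ← Finset.prod_const, ← Finset.mul_prod_erase _ _ (Finset.mem_univ j0),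
        ← Finset.mul_prod_erase _ _ (Finset.mem_univ j0), if_pos rfl, norm_one, one_mul]
      congr 1
      refine Finset.prod_congr rfl fun i hi => ?_
      rw [if_neg (Finset.ne_of_mem_erase hi), norm_mul, Complex.norm_intCast, Complex.norm_real,
        Real.norm_of_nonneg hE0.le]
    rw [← h5, mul_assoc _ _ ‖N'.det‖, ← h3]
    exact le_mul_of_one_le_right (by positivity) h4
  have hNb : ∀ i ν, ‖N' i ν‖ ≤ H := fun i ν => by
    rw [hN']
    split_ifs
    · rw [Complex.norm_intCast]; exact hH ν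
    · rw [Pi.smul_apply, norm_smul, norm_inv, Complex.norm_real, Real.norm_of_nonneg hE0.le]
      exact ((inv_mul_le_one₀ hE0).2 (hE _ _)).trans hH1
  have hadj : ∀ i j, ‖N'.adjugate i j‖ ≤ (Fintype.card ι).factorial * H ^ Fintype.card ι :=
    fun i j => by
      rw [adjugate_apply]
      refine norm_det_le fun i' ν => ?_
      rw [updateRow_apply]
      split_ifs
      · rw [Pi.single_apply]; split_ifs <;> simp <;> linarith
      · exact hNb _ _
  have hNf : ‖N' *ᵥ f‖ ≤ E⁻¹ * ε := (pi_norm_le_iff_of_nonneg (by positivity)).2 fun i => by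
    change ‖N' i ⬝ᵥ f‖ ≤ _
    rw [hN']
    split_ifs
    · rw [hf, norm_zero]; positivity
    · rw [smul_dotProduct, norm_smul, norm_inv, Complex.norm_real, Real.norm_of_nonneg hE0.le]
      exact mul_le_mul_of_nonneg_left (hε _) (by positivity)
  have h6 := (norm_le_pi_norm _ μ).trans (norm_mulVec_le (by positivity) hadj (N' *ᵥ f))
  rw [mulVec_mulVec, adjugate_mul, smul_mulVec, one_mulVec, Pi.smul_apply, norm_smul] at h6
  have h7 := h6.trans (mul_le_mul_of_nonneg_left hNf (by positivity))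
  calc ‖f μ‖ * (|(D : ℝ)| * E ^ 2) = (|(D : ℝ)| * E) * (‖f μ‖ * E) := by ring
    _ ≤ ((|(D : ℝ)| * E) ^ Fintype.card ι * ‖N'.det‖) * (‖f μ‖ * E) := by gcongr
    _ = (|(D : ℝ)| * E) ^ Fintype.card ι * E * (‖N'.det‖ * ‖f μ‖) := by ring
    _ ≤ _ := mul_le_mul_of_nonneg_left h7 (by positivity)
    _ = _ := by field_simp

end

end Pool.Agent.Lib.MP_5591bc_ag.G
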