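import Pool.Agent.Lib.MP_5591bc_ag.GLift

/-! Transport matrices of a system with a simple pole at infinity and their denominators. -/

namespace Pool.Agent.Lib.MP_5591bc_ag.G

open Filter Topology Metric Polynomial Matrix Asymptotics

noncomputable section

variable {ν : Type*} [Fintype ν] [DecidableEq ν]

/-- a system with a simple pole at infinity whose other poles lie in the disc of radius `R`,
together with Galochkin's condition -/
structure Std (T : ℚ[X]) (B : Matrix ν ν ℚ[X]) (R c : ℝ) (Tz : ℤ[X]) (e : ℕ) (D : ℕ → ℤ)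
    (Cg : ℝ) : Prop where
  hR : 1 ≤ R
  hc : 0 ≤ c
  hT : ∀ t ∈ Ext R, aeval t T ≠ 0
  hb : ∀ t ∈ Ext R, ∀ i j, ‖t‖ * ‖Az T B t i j‖ ≤ c
  hz : ∀ t ∈ Ext R, aeval t Tz ≠ 0
  D0 : ∀ m, D m ≠ 0
  Ddvd : ∀ m m', m ≤ m' → D m ∣ D m'
  Dle : ∀ m, |(D m : ℝ)| ≤ Cg ^ (m + 1)
  eq : ∀ m i, ∃ N : ν → ℤ[X], ∀ t0 ∈ Ext R, ∀ ψ : ℂ → ν → ℂ, (∀ᶠ t in 𝓝 t0, VSol (Az T B) ψ t) →
    D m * aeval t0 Tz ^ (m + e) * PowerSeries.coeff m (tay (ψ · i) t0) =
      ∑ j, aeval t0 (N j) * ψ t0 j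

/-- transport matrices and their inverses -/
def IsTr (A : ℂ → Matrix ν ν ℂ) (R S0 : ℝ) (tr tri : ℂ → ℂ → Matrix ν ν ℂ) : Prop :=
  ∀ t ∈ Ext (2 * R), tr t t = 1 ∧ tri t t = 1 ∧ ∀ s ∈ ball t (‖t‖ / 2),
    MSol A (tr t) s ∧ RSol A (tri t) s ∧ tri t s * tr t s = 1 ∧ ∀ i j, ‖tr t s i j‖ ≤ S0

lemma half_lt {t s : ℂ} (hs : s ∈ ball t (‖t‖ / 2)) : ‖t‖ / 2 < ‖s‖ := by
  have := norm_sub_norm_le t s
  rw [mem_ball', dist_eq_norm] at hs
  linarith

lemma ball_sub_Ext {R : ℝ} {t : ℂ} (ht : t ∈ Ext (2 * R)) : ball t (‖t‖ / 2) ⊆ Ext R :=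
  fun s hs => by
    have := half_lt hs
    simp only [Ext, Set.mem_ofPred_eq] at *
    linarith

lemma tail {g : ℂ → ℂ} {p : ℂ} {R r S : ℝ} (h0 : 0 < r) (hr : r < R)
    (hg : DifferentiableOn ℂ g (ball p R)) (hS : ∀ t ∈ sphere p r, ‖g t‖ ≤ S) (J : ℕ) {a : ℂ}
    (ha : ‖a‖ ≤ r) : ‖g (p + a) - ∑ m ∈ Finset.range J, PowerSeries.coeff m (tay g p) * a ^ m‖ ≤
      (J + 1) * S * (‖a‖ / r) ^ J := by
  have hn := ball_mem_nhds p (h0.trans hr)
  have := schwarz h0 hr J (S := (J + 1) * S)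
    (g := fun t => g t - ∑ m ∈ Finset.range J, PowerSeries.coeff m (tay g p) * (t - p) ^ m)
    (hg.fun_sub (by fun_prop)) (fun t ht => by
      refine (norm_sub_le _ _).trans ?_
      have h1 : ‖∑ m ∈ Finset.range J, PowerSeries.coeff m (tay g p) * (t - p) ^ m‖ ≤ J * S := by
        refine (norm_sum_le _ _).trans ((Finset.sum_le_card_nsmul _ _ S fun m _ => ?_).trans
          (by simp))
        rw [norm_mul, norm_pow, mem_sphere_iff_norm.1 ht, ← le_div_iff₀ (by positivity)]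
        exact cauchy hg h0 hr hS m
      linarith [hS t ht]) (by
      rw [tay_sub (hg.analyticAt hn) (by fun_prop), tay_sum _ fun m _ => by fun_prop,
        PowerSeries.X_pow_dvd_iff]
      intro k hk
      rw [map_sub, map_sum, Finset.sum_eq_single k, tay_cmul (by fun_prop), tay_pow (by fun_prop),
        tay_id]
      · simp
      · intro m _ hm
        rw [tay_cmul (by fun_prop), tay_pow (by fun_prop), tay_id]
        simp [PowerSeries.coeff_X_pow, hm.symm]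
      · intro h; exact absurd (Finset.mem_range.2 hk) h)
    (p + a) (by simpa using ha)
  simpa using this

lemma isBigO_of_cont {g u : ℂ → ℂ} {k : ℂ → ℝ} {p : ℂ} (hk : ContinuousAt k p)
    (h : ∀ᶠ s in 𝓝[≠] p, ‖g s‖ ≤ k s * ‖u s‖) : g =O[𝓝[≠] p] u := by
  refine IsBigO.of_bound (k p + 1) ?_
  filter_upwards [h, nhdsWithin_le_nhds (hk.eventually_lt continuousAt_const (lt_add_one (k p)))]
    with s h1 h2
  exact h1.trans (mul_le_mul_of_nonneg_right h2.le (norm_nonneg _))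

lemma aeval_reflect {R : Type*} [CommRing R] [Algebra R ℂ] (p : R[X]) {N : ℕ}
    (hN : p.natDegree ≤ N) {z : ℂ} (hz : z ≠ 0) :
    aeval z (reflect N p) = z ^ N * aeval z⁻¹ p := by
  let := invertibleOfNonzero (inv_ne_zero hz)
  have := eval₂_reflect_mul_pow (algebraMap R ℂ) z⁻¹ N p hN
  rw [invOf_eq_inv, inv_inv] at this
  rw [aeval_def, aeval_def, ← this, inv_pow]
  field_simp

variable {T : ℚ[X]} {B : Matrix ν ν ℚ[X]} {R c : ℝ} {Tz : ℤ[X]} {e : ℕ} {D : ℕ → ℤ} {Cg : ℝ}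

lemma Std.exists_tr (H : Std T B R c Tz e D Cg) :
    ∃ S0 tr tri, IsTr (Az T B) R S0 tr tri := by
  have : ∀ t : ℂ, ∃ Φ Ψ : ℂ → Matrix ν ν ℂ, t ∈ Ext (2 * R) → Φ t = 1 ∧ Ψ t = 1 ∧
      ∀ s ∈ ball t (‖t‖ / 2), MSol (Az T B) Φ s ∧ RSol (Az T B) Ψ s ∧ Ψ s * Φ s = 1 ∧
      ∀ i j, ‖Φ s i j‖ ≤ Real.exp (Fintype.card ν * c) := fun t => by
    by_cases ht : t ∈ Ext (2 * R)
    swap
    · exact ⟨0, 0, fun h => absurd h ht⟩
    have h0 : 0 < ‖t‖ := lt_trans (by linarith [H.hR]) ht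
    have hc := H.hc
    obtain ⟨Φ, Ψ, a1, a2, a3⟩ := exists_fund (convex_ball t (‖t‖ / 2)) isOpen_ball
      (mem_ball_self (by positivity)) (Hol.Az (B := B) fun s hs => H.hT s (ball_sub_Ext ht hs))
      (c := c / (‖t‖ / 2)) (fun s hs i j => by
        rw [le_div_iff₀ (by positivity), mul_comm]
        exact (mul_le_mul_of_nonneg_right (half_lt hs).le (norm_nonneg _)).trans
          (H.hb s (ball_sub_Ext ht hs) i j)) (by positivity)
    refine ⟨Φ, Ψ, fun _ => ⟨a1, a2, fun s hs => ⟨(a3 s hs).1, (a3 s hs).2.1, (a3 s hs).2.2.1,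
      fun i j => ((a3 s hs).2.2.2.1 i j).trans (Real.exp_le_exp.2 ?_)⟩⟩⟩
    rw [mul_assoc]
    refine mul_le_mul_of_nonneg_left ?_ (by positivity)
    rw [div_mul_eq_mul_div, div_le_iff₀ (by positivity)]
    exact mul_le_mul_of_nonneg_left (mem_ball_iff_norm.1 hs).le hc
  choose tr tri h using this
  exact ⟨_, tr, tri, h⟩

variable {S0 : ℝ} {tr tri : ℂ → ℂ → Matrix ν ν ℂ}

lemma Std.cocycle (H : Std T B R c Tz e D Cg) (h : IsTr (Az T B) R S0 tr tri) {t t1 s : ℂ}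
    (ht : t ∈ Ext (2 * R)) (ht1 : t1 ∈ Ext (2 * R)) (h1 : t ∈ ball t1 (‖t1‖ / 2))
    (h2 : s ∈ ball t (‖t‖ / 2)) (h3 : s ∈ ball t1 (‖t1‖ / 2)) : tr t s = tr t1 s * tri t1 t := by
  have h0 : 0 < ‖t‖ := lt_trans (by linarith [H.hR]) ht
  exact muniq (isOpen_ball.inter isOpen_ball)
    ((convex_ball _ _).inter (convex_ball _ _)).isPreconnected
    (Hol.Az fun s hs => H.hT s (ball_sub_Ext ht hs.1)) (fun s hs => ((h t ht).2.2 s hs.1).1)
    (fun s hs => ((h t1 ht1).2.2 s hs.2).1.mul_const (tri t1 t))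
    ⟨mem_ball_self (by positivity), h1⟩
    (by rw [(h t ht).1, mul_eq_one_comm.1 ((h t1 ht1).2.2 t h1).2.2.1]) ⟨h2, h3⟩

lemma Std.coeff_tr (H : Std T B R c Tz e D Cg) (h : IsTr (Az T B) R S0 tr tri) (m : ℕ) (i j : ν) :
    ∃ N : ℤ[X], ∀ t ∈ Ext (2 * R), D m * aeval t Tz ^ (m + e) *
      PowerSeries.coeff m (tay (tr t · i j) t) = aeval t N := by
  obtain ⟨N, hN⟩ := H.eq m i
  refine ⟨N j, fun t ht => ?_⟩
  have h0 : 0 < ‖t‖ := lt_trans (by linarith [H.hR]) ht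
  have hn := ball_mem_nhds t (half_pos h0)
  have := hN t (ball_sub_Ext ht (mem_of_mem_nhds hn)) _
    (mem_of_superset hn fun s hs => ((h t ht).2.2 s hs).1.col j)
  simpa [(h t ht).1, one_apply] using this

lemma Std.approx (H : Std T B R c Tz e D Cg) (h : IsTr (Az T B) R S0 tr tri) (J : ℕ) (i j : ν)
    (a : ℤ[X]) : ∃ P : ℤ[X], ∀ t ∈ Ext (2 * R), ‖aeval t a‖ ≤ ‖t‖ / 4 →
      ‖D J * aeval t Tz ^ (J + e) * tr t (t + aeval t a) i j - aeval t P‖ ≤
        |(D J : ℝ)| * ((J + 2) * S0) * (‖aeval t Tz‖ ^ (J + e) *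
          (‖aeval t a‖ / (‖t‖ / 4)) ^ (J + 1)) := by
  choose N hN using fun m => H.coeff_tr h m i j
  refine ⟨∑ m ∈ Finset.range (J + 1), C (D J / D m) * Tz ^ (J - m) * N m * a ^ m,
    fun t ht ha => ?_⟩
  have h0 : 0 < ‖t‖ := lt_trans (by linarith [H.hR]) ht
  have := tail (by positivity) (by linarith : ‖t‖ / 4 < ‖t‖ / 2)
    (hol_of_msol (fun s hs => ((h t ht).2.2 s hs).1) i j)
    (fun s hs => ((h t ht).2.2 s (sphere_subset_ball (by linarith) hs)).2.2.2 i j) (J + 1) ha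
  have e1 : aeval t (∑ m ∈ Finset.range (J + 1), C (D J / D m) * Tz ^ (J - m) * N m * a ^ m) =
      D J * aeval t Tz ^ (J + e) * ∑ m ∈ Finset.range (J + 1),
        PowerSeries.coeff m (tay (tr t · i j) t) * aeval t a ^ m := by
    rw [map_sum, Finset.mul_sum]
    refine Finset.sum_congr rfl fun m hm => ?_
    have hm' := Nat.lt_succ_iff.1 (Finset.mem_range.1 hm)
    obtain ⟨k, hk⟩ := H.Ddvd m J hm'
    obtain ⟨l, rfl⟩ := Nat.exists_eq_add_of_le hm'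
    rw [hk, Int.mul_ediv_cancel_left _ (H.D0 m), Nat.add_sub_cancel_left]
    simp only [map_mul, map_pow, ← hN m t ht, eq_intCast, map_intCast]
    push_cast
    ring
  rw [e1, ← mul_sub, norm_mul, norm_mul, norm_pow, Complex.norm_intCast]
  refine (mul_le_mul_of_nonneg_left this (by positivity)).trans (le_of_eq ?_)
  push_cast
  ring

lemma Std.den_tr (H : Std T B R c Tz e D Cg) (h : IsTr (Az T B) R S0 tr tri) {b : ℤ}
    (hb : (b : ℂ) ∈ Ext (2 * R)) (K : ℕ) (i j : ν) :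
    Den (D K * Tz.eval b ^ e) (Tz.eval b) K (tay (tr b · i j) b) := fun k hk => by
  obtain ⟨N, hN⟩ := H.coeff_tr h k i j
  obtain ⟨l, hl⟩ := H.Ddvd k K hk
  have e1 : ∀ p : ℤ[X], aeval (b : ℂ) p = (p.eval b : ℤ) := fun p =>
    aeval_algebraMap_apply_eq_algebraMap_eval b p
  have := hN b hb
  rw [e1, e1] at this
  refine ⟨l * N.eval b, ?_⟩
  push_cast
  rw [← this, hl]
  push_cast
  ring

lemma Std.den_tri (H : Std T B R c Tz e D Cg) (h : IsTr (Az T B) R S0 tr tri) {b : ℤ}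
    (hb : (b : ℂ) ∈ Ext (2 * R)) (K : ℕ) (i j : ν) :
    Den (D K * Tz.eval b ^ (K + e)) (Tz.eval b) K (tay (tri b · i j) b) := by
  obtain ⟨P, hP⟩ := H.approx h K i j (C b - X)
  have h0 : 0 < ‖(b : ℂ)‖ := lt_trans (by linarith [H.hR]) hb
  have hn := ball_mem_nhds (b : ℂ) (half_pos h0)
  have a1 := (hol_of_rsol (fun s hs => ((h b hb).2.2 s hs).2.1) i j).analyticAt hn
  have a2 := (analyticAt_aeval Tz (b : ℂ)).fun_pow (K + e)
  have a3 := (analyticAt_const (v := (D K : ℂ))).fun_mul (a2.fun_mul a1)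
  have hd := dvd_tay_of_isBigO (a3.fun_sub (analyticAt_aeval P b)) (k := K + 1) (by
    have c1 : ContinuousAt (fun s : ℂ => |(D K : ℝ)| * ((K + 2) * S0) *
        (‖aeval s Tz‖ ^ (K + e) * (1 / (‖s‖ / 4)) ^ (K + 1))) b := by
      have := (analyticAt_aeval Tz (b : ℂ)).continuousAt
      fun_prop (disch := positivity)
    refine isBigO_of_cont c1 (nhdsWithin_le_nhds ?_)
    have c2 : ∀ᶠ s in 𝓝 (b : ℂ), ‖(b : ℂ) - s‖ < ‖s‖ / 4 :=
      ContinuousAt.eventually_lt (by fun_prop) (by fun_prop) (by simpa using h0)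
    filter_upwards [hn, (isOpen_Ext _).mem_nhds hb, c2] with s b1 b2 b3
    have b4 := hP s b2 (by simpa using b3.le)
    simp only [map_sub, aeval_X, eq_intCast, map_intCast, add_sub_cancel] at b4
    rw [H.cocycle h b2 hb b1 (by rw [mem_ball_iff_norm]; linarith [norm_nonneg s])
      (mem_of_mem_nhds hn), (h b hb).1, Matrix.one_mul, mul_assoc] at b4
    refine b4.trans (le_of_eq ?_)
    rw [norm_pow, norm_sub_rev]
    ring)
  rw [tay_sub a3 (analyticAt_aeval P b), tay_cmul (a2.fun_mul a1), tay_mul a2 a1,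
    tay_pow (analyticAt_aeval _ _)] at hd
  have := Den.div_pow (Den.tay_poly Tz b) (by
    rw [coeff_zero_tay]; exact aeval_algebraMap_apply_eq_algebraMap_eval b Tz) _
    (((Den.tay_poly P b).congr hd).of_C_mul _)
  rwa [one_mul] at this

/-- solution of `Y' = A₁ Y - Y A₂` -/
def BSol (A1 A2 Y : ℂ → Matrix ν ν ℂ) (t : ℂ) : Prop :=
  ∀ i j, HasDerivAt (fun s => Y s i j) ((A1 t * Y t - Y t * A2 t) i j) t

omit [DecidableEq ν] in
lemma bsol_mul {A1 A2 W Ψ : ℂ → Matrix ν ν ℂ} {t : ℂ} (h1 : MSol A1 W t) (h2 : RSol A2 Ψ t) :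
    BSol A1 A2 (fun s => W s * Ψ s) t := fun i j => by
  have := HasDerivAt.fun_sum (u := Finset.univ) fun k _ => (h1 i k).fun_mul (h2 k j)
  rw [← Matrix.mul_assoc, Matrix.mul_assoc (W t), Matrix.sub_apply, mul_apply, mul_apply (M := W t),
    ← Finset.sum_sub_distrib]
  simp only [mul_neg, ← sub_eq_add_neg] at this
  exact this

lemma Std.bsol (H : Std T B R c Tz e D Cg) (h : IsTr (Az T B) R S0 tr tri) {a t : ℂ}
    (ht : t ∈ Ext (2 * R)) (ha : ‖a‖ < ‖t‖ / 2) :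
    BSol (fun s => Az T B (s + a)) (Az T B) (fun s => tr s (s + a)) t := by
  have h0 : 0 < ‖t‖ := lt_trans (by linarith [H.hR]) ht
  have hn := ball_mem_nhds t (half_pos h0)
  have ha' : t + a ∈ ball t (‖t‖ / 2) := by simpa using ha
  have e1 : ∀ᶠ s in 𝓝 t, tr s (s + a) = tr t (s + a) * tri t s := by
    have c1 : ∀ᶠ s in 𝓝 t, ‖a‖ < ‖s‖ / 2 :=
      ContinuousAt.eventually_lt (by fun_prop) (by fun_prop) ha
    have c2 : ∀ᶠ s in 𝓝 t, s + a ∈ ball t (‖t‖ / 2) :=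
      ContinuousAt.eventually_mem (by fun_prop) (isOpen_ball.mem_nhds ha')
    filter_upwards [hn, (isOpen_Ext _).mem_nhds ht, c1, c2] with s b1 b2 b3 b4
    exact H.cocycle h b2 ht b1 (by simpa using b3) b4
  intro i j
  have := bsol_mul ((h t ht).2.2 _ ha').1.comp_add ((h t ht).2.2 t (mem_of_mem_nhds hn)).2.1 i j
  beta_reduce
  rw [e1.self_of_nhds]
  exact this.congr_of_eventuallyEq (e1.mono fun s hs => by simp only [hs])

lemma Std.exists_phi (H : Std T B R c Tz e D Cg) (h : IsTr (Az T B) R S0 tr tri) (a : ℤ) {ρ : ℝ}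
    (h1 : 4 * R ≤ ρ) (h2 : 8 * |(a : ℝ)| ≤ ρ) (i j : ν) : ∃ φ : ℂ → ℂ,
      DifferentiableOn ℂ φ (ball 0 (2 / ρ)) ∧ (∀ z, z ≠ 0 → φ z = tr z⁻¹ (z⁻¹ + a) i j) ∧
      ∀ J, Den (D J * Tz.leadingCoeff ^ (J + e)) Tz.leadingCoeff J (tay φ 0) := by
  have hρ : 0 < ρ := by linarith [H.hR]
  have hn : ball (0 : ℂ) (2 / ρ) ∈ 𝓝 0 := ball_mem_nhds _ (by positivity)
  have hz : ∀ z ∈ ball (0 : ℂ) (2 / ρ), z ≠ 0 → z⁻¹ ∈ Ext (2 * R) ∧ ‖(a : ℂ)‖ ≤ ‖z⁻¹‖ / 4 ∧
      ‖(a : ℂ)‖ < ‖z⁻¹‖ / 2 := fun z hz h0 => by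
    have : ρ / 2 < ‖z⁻¹‖ := by
      rw [norm_inv, lt_inv_comm₀ (by positivity) (norm_pos_iff.2 h0), inv_div]
      exact mem_ball_zero_iff.1 hz
    simp only [Ext, Set.mem_ofPred_eq, Complex.norm_intCast]
    refine ⟨?_, ?_, ?_⟩ <;> linarith
  have hd := Complex.differentiableOn_update_limUnder_of_bddAbove
    (f := fun z => tr z⁻¹ (z⁻¹ + a) i j) hn (fun z hz' => by
      have := hz z hz'.1 hz'.2
      exact ((H.bsol h this.1 this.2.2 i j).differentiableAt.comp z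
        (differentiableAt_inv hz'.2)).differentiableWithinAt)
    ⟨S0, by
      rintro _ ⟨z, hz', rfl⟩
      have := hz z hz'.1 hz'.2
      exact ((h _ this.1).2.2 _ (by simpa using this.2.2)).2.2.2 i j⟩
  refine ⟨_, hd, fun z hz => Function.update_of_ne hz _ _, fun J => ?_⟩
  set φ := Function.update (fun z => tr z⁻¹ (z⁻¹ + a) i j) 0 _
  have hφ : ∀ z, z ≠ 0 → φ z = tr z⁻¹ (z⁻¹ + a) i j := fun z hz => Function.update_of_ne hz _ _
  obtain ⟨P, hP⟩ := H.approx h J i j (C a)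
  simp only [eq_intCast, map_intCast] at hP
  have a1 := hd.analyticAt hn
  have a2 := (analyticAt_aeval (reflect Tz.natDegree Tz) (0 : ℂ)).fun_pow (J + e)
  have a3 := (analyticAt_const (v := (D J : ℂ))).fun_mul (a2.fun_mul a1)
  have a4 : AnalyticAt ℂ (fun z : ℂ => (z - 0) ^ P.natDegree * _) 0 :=
    AnalyticAt.fun_mul (by fun_prop) a3
  have a5 := analyticAt_aeval (reflect (P.natDegree + Tz.natDegree * (J + e)) P) (0 : ℂ)
  have hd := dvd_tay_of_isBigO (a4.fun_sub a5) (k := P.natDegree + J + 1) (by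
    have c1 : ContinuousAt (fun z : ℂ => |(D J : ℝ)| * ((J + 2) * S0) *
        (‖aeval z (reflect Tz.natDegree Tz)‖ ^ (J + e) * (‖(a : ℂ)‖ * 4) ^ (J + 1))) 0 := by
      have := (analyticAt_aeval (reflect Tz.natDegree Tz) (0 : ℂ)).continuousAt
      fun_prop
    refine isBigO_of_cont c1 ?_
    filter_upwards [nhdsWithin_le_nhds hn, self_mem_nhdsWithin] with z b1 b2
    have b3 := hz z b1 b2
    have b4 := mul_le_mul_of_nonneg_left (hP _ b3.1 b3.2.1)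
      (norm_nonneg (z ^ (P.natDegree + Tz.natDegree * (J + e))))
    rw [← norm_mul] at b4
    rw [hφ z b2, aeval_reflect _ le_rfl b2, aeval_reflect _ (Nat.le_add_right _ _) b2]
    refine (le_of_eq ?_).trans (b4.trans (le_of_eq ?_))
    · congr 1; ring
    · have : ‖z‖ ≠ 0 := norm_ne_zero_iff.2 b2
      simp only [norm_pow, norm_mul, norm_inv, mul_pow, div_pow, inv_pow, sub_zero]
      field_simp
      ring)
  rw [tay_sub a4 a5, tay_pow_mul a3, tay_cmul (a2.fun_mul a1), tay_mul a2 a1,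
    tay_pow (analyticAt_aeval _ _)] at hd
  have b1 := Den.tay_poly (c := 1) (J := P.natDegree + J)
    (reflect (P.natDegree + Tz.natDegree * (J + e)) P) 0
  have b2 := Den.tay_poly (c := 1) (J := J) (reflect Tz.natDegree Tz) 0
  rw [Int.cast_zero] at b1 b2
  have := Den.div_pow b2 (c := Tz.leadingCoeff) (by
    rw [coeff_zero_tay, ← coeff_zero_eq_aeval_zero', coeff_reflect, revAt_zero]; rfl) _
    (((b1.congr hd).of_X_pow_mul.of_C_mul _).of_dvd_c (one_dvd _))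
  rwa [one_mul] at this

end

end Pool.Agent.Lib.MP_5591bc_ag.G
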