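import Pool.Agent.Lib.MP_5591bc_ag.GSie

/-! Values of G-functions at `1/b`: the linearly independent case. -/

namespace Pool.Agent.Lib.MP_5591bc_ag.G

open Filter Topology Metric Matrix Polynomial

noncomputable section

variable {ι : Type*} [Fintype ι]

/-- data for the theorem on values -/
structure VH [DecidableEq ι] (b : ℤ) (ρ0 Q Q' : ℝ) (φ : ℂ → ι → ℂ) (Φ : ι → PowerSeries ℚ)
    (W : ℂ → Matrix ι ι ℂ) (T : ℚ[X]) (B : Matrix ι ι ℚ[X]) : Prop where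
  hφ : DifferentiableOn ℂ φ (ball 0 (2 / ρ0))
  hΦ : ∀ μ, PowerSeries.map (algebraMap ℚ ℂ) (Φ μ) = tay (φ · μ) 0
  den1 : ∃ S1 : ℝ, ∀ J, ∃ q : ℤ, q ≠ 0 ∧ |(q : ℝ)| ≤ S1 * Q ^ J ∧ ∀ μ, Den q 1 J (tay (φ · μ) 0)
  hS : IsS co T B Φ
  hT : aeval (b : ℂ)⁻¹ T ≠ 0
  hW : Hol (ball b 2) W
  W1 : W b = 1
  hWφ : ∀ t ∈ closedBall (b : ℂ) 1, φ t⁻¹ = W t *ᵥ φ (b : ℂ)⁻¹
  hWs : ∀ᶠ z in 𝓝 (b : ℂ)⁻¹, MSol (Az T B) (fun z => W z⁻¹) z
  den2 : ∃ S2 : ℝ, ∀ K, ∃ D : ℤ, D ≠ 0 ∧ |(D : ℝ)| ≤ S2 * Q' ^ K ∧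
    ∀ μ ν, Den D 1 K (tay (W · μ ν) b)

lemma num_limit {x C θ β : ℝ} (hx : 0 ≤ x) (hθ : 0 ≤ θ) (h1 : θ < β) (k0 : ℕ)
    (h : ∀ κ ≥ k0, x * β ^ κ ≤ C * θ ^ κ) : x = 0 := by
  have hβ : 0 < β := hθ.trans_lt h1
  have := (tendsto_pow_atTop_nhds_zero_of_lt_one (div_nonneg hθ hβ.le)
    ((div_lt_one hβ).2 h1)).const_mul C
  rw [mul_zero] at this
  refine le_antisymm (ge_of_tendsto this (eventually_atTop.2 ⟨k0, fun κ hκ => ?_⟩)) hx
  rw [div_pow, ← mul_div_assoc, le_div_iff₀ (by positivity)]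
  exact h κ hκ

lemma norm_dot_le {x y : ι → ℂ} {a c : ℝ} (hx : ∀ i, ‖x i‖ ≤ a) (hy : ∀ i, ‖y i‖ ≤ c) :
    ‖x ⬝ᵥ y‖ ≤ Fintype.card ι * (a * c) := by
  refine (norm_sum_le _ _).trans ((Finset.sum_le_card_nsmul _ _ (a * c) fun i _ => ?_).trans ?_)
  · rw [norm_mul]
    exact mul_le_mul (hx i) (hy i) (norm_nonneg _) ((norm_nonneg _).trans (hx i))
  · simp

lemma norm_sum_pow_le {L : ℕ} {t : Fin (L + 1) → ℤ} {H β : ℝ} (ht : ∀ l, |(t l : ℝ)| ≤ H)
    (hβ : 1 ≤ β) {s : ℂ} (hs : ‖s‖ ≤ β) {e : Fin (L + 1) → ℕ} (he : ∀ l, e l ≤ L) :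
    ‖∑ l, (t l : ℂ) * s ^ e l‖ ≤ (L + 1) * H * β ^ L := by
  refine (norm_sum_le _ _).trans
    ((Finset.sum_le_card_nsmul _ _ (H * β ^ L) fun l _ => ?_).trans ?_)
  · rw [norm_mul, norm_pow, Complex.norm_intCast]
    exact mul_le_mul (ht l) ((pow_le_pow_left₀ (norm_nonneg _) hs _).trans
      (pow_le_pow_right₀ hβ (he l))) (by positivity) ((abs_nonneg _).trans (ht l))
  · simp [mul_assoc]

lemma coeff_tay_dot {u : ℂ → ι → ℂ} {p : ℂ} (hu : AnalyticAt ℂ u p) (v : ι → ℂ) (k : ℕ) :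
    (fun μ => PowerSeries.coeff k (tay (u · μ) p)) ⬝ᵥ v =
      PowerSeries.coeff k (tay (fun s => u s ⬝ᵥ v) p) := by
  simp only [dotProduct]
  rw [tay_sum _ fun μ _ => (analyticAt_pi_iff.1 hu μ).fun_mul analyticAt_const, map_sum]
  refine Finset.sum_congr rfl fun μ _ => ?_
  rw [tay_mul (analyticAt_pi_iff.1 hu μ) analyticAt_const, tay_const, PowerSeries.coeff_mul_C]

lemma num_step {x S S2 S3 s A D a u ρ0 Q' β : ℝ} {m Λ κ L J c : ℕ} (hx : 0 ≤ x) (hm : 1 ≤ m)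
    (hΛ : 1 ≤ Λ) (hL : L + 1 = Λ * κ) (hJ : J + κ = m * (L + 1)) (hS : 1 ≤ S) (hS3 : 1 ≤ S3)
    (hs : 1 ≤ s) (hA : 0 ≤ A) (hD : 1 ≤ D) (hD2 : D ≤ S2 * Q' ^ (κ + c)) (ha1 : 1 ≤ a)
    (ha : a ≤ s * (u / 2) ^ J) (hρ : 1 ≤ ρ0) (hu : 2 * ρ0 ≤ u) (hβ : 2 ≤ β) {G : ℝ}
    (hG : G = m * (L + 1) * (m * (L + 1) * a) ^ (m * Λ))
    (h : x * (D * (G * S3 * (β + 2) ^ L) ^ 2) ≤ A * (D * (G * S3 * (β + 2) ^ L)) ^ m *
      ((β + 2) ^ L * (G * S * (ρ0 / β) ^ J))) :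
    x * (β ^ (Λ - 1)) ^ κ ≤ (A * S * (S2 * Q' ^ c) ^ m * (s ^ (m * Λ) * S3) ^ (m + 1)) *
      (Q' ^ m * u ^ (5 * m ^ 3 * Λ ^ 2)) ^ κ := by
  have hu2 : 2 ≤ u := by linarith
  have hN : (m * (L + 1) : ℝ) ≤ 2 ^ (m * (L + 1)) := by exact_mod_cast Nat.lt_two_pow_self.le
  have hN1 : (1 : ℝ) ≤ m * (L + 1) := by exact_mod_cast Nat.mul_pos hm (Nat.succ_pos L)
  have hG1 : 1 ≤ G := by
    rw [hG]
    exact one_le_mul_of_one_le_of_one_le hN1 (one_le_pow₀ (one_le_mul_of_one_le_of_one_le hN1 ha1))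
  have h1 : m * (L + 1) * a ≤ s * u ^ (m * (L + 1)) :=
    calc m * (L + 1) * a ≤ 2 ^ (m * (L + 1)) * (s * (u / 2) ^ (m * (L + 1))) := by
          refine mul_le_mul hN (ha.trans ?_) (by linarith) (by positivity)
          gcongr
          · linarith
          · omega
      _ = _ := by rw [div_pow]; field_simp
  have h2 : G ≤ s ^ (m * Λ) * u ^ (2 * m ^ 2 * Λ ^ 2 * κ) :=
    calc G ≤ u ^ (m * (L + 1)) * (s * u ^ (m * (L + 1))) ^ (m * Λ) := by
          rw [hG]; gcongr; exact hN.trans (by gcongr)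
      _ = s ^ (m * Λ) * u ^ (m * (L + 1) + m * (L + 1) * (m * Λ)) := by
          rw [mul_pow, ← pow_mul, pow_add]; ring
      _ ≤ _ := by
          gcongr
          · linarith
          · rw [hL]
            have : m * (Λ * κ) * 1 ≤ m * (Λ * κ) * (m * Λ) :=
              Nat.mul_le_mul_left _ (Nat.mul_pos hm hΛ)
            nlinarith
  have hβ0 : 0 < β := by linarith
  have h3 : x * β ^ (L + J) ≤ A * S * D ^ m * (G * S3) ^ (m + 1) * ρ0 ^ J * (β + 2) ^ (L * m) := by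
    have hp : 0 < (β + 2) ^ L := by positivity
    refine le_of_mul_le_mul_right ?_ hp
    have hGS : 1 ≤ G * S3 := one_le_mul_of_one_le_of_one_le hG1 hS3
    calc x * β ^ (L + J) * (β + 2) ^ L = x * (1 * (1 * β ^ L) * (1 * (β + 2) ^ L)) * β ^ J := by
          ring
      _ ≤ x * (D * (G * S3 * (β + 2) ^ L) * (G * S3 * (β + 2) ^ L)) * β ^ J := by
          gcongr; linarith
      _ = x * (D * (G * S3 * (β + 2) ^ L) ^ 2) * β ^ J := by ring
      _ ≤ _ := mul_le_mul_of_nonneg_right h (by positivity)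
      _ = A * S * D ^ m * ((G * S3) ^ m * (G * 1)) * ρ0 ^ J * (β + 2) ^ (L * m) * (β + 2) ^ L := by
          rw [div_pow, mul_pow, mul_pow, ← pow_mul]; field_simp
      _ ≤ A * S * D ^ m * ((G * S3) ^ m * (G * S3)) * ρ0 ^ J * (β + 2) ^ (L * m) *
          (β + 2) ^ L := by gcongr
      _ = _ := by rw [← pow_succ]
  obtain ⟨Λ', rfl⟩ : ∃ Λ', Λ = Λ' + 1 := ⟨Λ - 1, by omega⟩
  refine le_of_mul_le_mul_right ?_ (pow_pos hβ0 (L * m))
  have hS2 : 0 ≤ S2 * Q' ^ (κ + c) := by linarith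
  calc x * (β ^ (Λ' + 1 - 1)) ^ κ * β ^ (L * m) = x * β ^ (Λ' * κ + L * m) := by
        rw [Nat.add_sub_cancel, ← pow_mul, pow_add]; ring
    _ ≤ x * β ^ (L + J) :=
        mul_le_mul_of_nonneg_left (pow_le_pow_right₀ (by linarith) (by nlinarith)) hx
    _ ≤ _ := h3
    _ ≤ A * S * (S2 * Q' ^ (κ + c)) ^ m * (s ^ (m * (Λ' + 1)) * u ^ (2 * m ^ 2 * (Λ' + 1) ^ 2 * κ) *
        S3) ^ (m + 1) * ρ0 ^ (m * (L + 1)) * (2 * β) ^ (L * m) := by
        gcongr
        · omega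
        · linarith
    _ = A * S * (S2 * Q' ^ (κ + c)) ^ m * (s ^ (m * (Λ' + 1)) * S3) ^ (m + 1) * β ^ (L * m) *
        (u ^ (2 * m ^ 2 * (Λ' + 1) ^ 2 * κ * (m + 1)) * (2 ^ (L * m) * ρ0 ^ (m * (L + 1)))) := by
        rw [pow_mul u _ (m + 1)]; simp only [mul_pow]; ring
    _ ≤ A * S * (S2 * Q' ^ (κ + c)) ^ m * (s ^ (m * (Λ' + 1)) * S3) ^ (m + 1) * β ^ (L * m) *
        u ^ (5 * m ^ 3 * (Λ' + 1) ^ 2 * κ) := by
        gcongr
        calc _ ≤ u ^ (2 * m ^ 2 * (Λ' + 1) ^ 2 * κ * (m + 1)) * (2 ^ (m * (L + 1)) *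
              ρ0 ^ (m * (L + 1))) :=
              mul_le_mul_of_nonneg_left (mul_le_mul_of_nonneg_right
                (pow_le_pow_right₀ one_le_two (by nlinarith)) (by positivity)) (by positivity)
          _ ≤ u ^ (2 * m ^ 2 * (Λ' + 1) ^ 2 * κ * (m + 1)) * u ^ (m * (L + 1)) := by
              rw [← mul_pow]; gcongr
          _ ≤ _ := by
              rw [← pow_add]
              gcongr
              · linarith
              · rw [hL]
                have e1 : m * ((Λ' + 1) * κ) * 1 ≤ m * ((Λ' + 1) * κ) * (m * m * (Λ' + 1)) :=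
                  Nat.mul_le_mul_left _ (Nat.mul_pos (Nat.mul_pos hm hm) hΛ)
                have e2 : 2 * m ^ 2 * (Λ' + 1) ^ 2 * κ * (m + 1) ≤
                    2 * m ^ 2 * (Λ' + 1) ^ 2 * κ * (m + m) := by gcongr
                nlinarith
    _ = _ := by
        rw [pow_mul u _ κ, pow_add Q']; simp only [mul_pow]; rw [← pow_mul Q', ← pow_mul Q' m,
          mul_comm m κ]; ring

theorem gval0 [DecidableEq ι] {b : ℤ} {ρ0 Q Q' : ℝ} {φ : ℂ → ι → ℂ} {Φ : ι → PowerSeries ℚ}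
    {W : ℂ → Matrix ι ι ℂ} {T : ℚ[X]} {B : Matrix ι ι ℚ[X]} (H : VH b ρ0 Q Q' φ Φ W T B)
    (hi : ∀ ρ, pr co Φ ρ = 0 → ρ = 0) (hρ : 1 ≤ ρ0) (hQ : 1 ≤ Q) (hQ' : 1 ≤ Q')
    (hb : ρ0 ≤ b - 1) (hb3 : 3 ≤ b) {Λ : ℕ} (hΛ : 2 ≤ Λ)
    (cond : Q' ^ Fintype.card ι * (2 * Q * ρ0) ^ (5 * Fintype.card ι ^ 3 * Λ ^ 2) <
      ((b : ℝ) - 1) ^ (Λ - 1))
    {h : ι → ℤ} (hf : (fun μ => (h μ : ℂ)) ⬝ᵥ φ (b : ℂ)⁻¹ = 0) : h = 0 := by
  by_contra h0
  obtain ⟨μ0, -⟩ := Function.ne_iff.1 h0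
  have hm : 1 ≤ Fintype.card ι := Fintype.card_pos_iff.2 ⟨μ0⟩
  have hT0 : T ≠ 0 := fun h => H.hT (by simp [h])
  obtain ⟨c, hc⟩ := shid hT0 H.hS hi
  obtain ⟨S1', hS1⟩ := H.den1
  obtain ⟨S2, hS2⟩ := H.den2
  have hb3' : (3 : ℝ) ≤ b := by exact_mod_cast hb3
  have hb0 : (b : ℂ) ≠ 0 := by exact_mod_cast (by omega : b ≠ 0)
  have hr0 : 0 < 1 / ρ0 := by positivity
  have hr : 1 / ρ0 < 2 / ρ0 := by gcongr; norm_num
  obtain ⟨S, hS, hSb⟩ := exists_bound H.hφ hr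
  obtain ⟨S3, hS3, hS3b⟩ := exists_bound (g := fun t (x : ι × ι) => W t x.1 x.2)
    (differentiableOn_pi.2 fun x => H.hW x.1 x.2) one_lt_two
  have hnb : ∀ s ∈ closedBall (b : ℂ) 1, (b : ℝ) - 1 ≤ ‖s‖ ∧ ‖s‖ ≤ b - 1 + 2 := fun s hs => by
    have h1 := abs_norm_sub_norm_le s b
    rw [Complex.norm_intCast, abs_of_nonneg (a := (b : ℝ)) (by linarith)] at h1
    have h2 := abs_le.1 (h1.trans (mem_closedBall_iff_norm.1 hs))
    constructor <;> linarith
  have hinv : ∀ s ∈ closedBall (b : ℂ) 1, s⁻¹ ∈ closedBall (0 : ℂ) (1 / ρ0) := fun s hs => by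
    rw [mem_closedBall_zero_iff, norm_inv, one_div]
    exact inv_anti₀ (by linarith) (hb.trans (hnb s hs).1)
  have hφa : ∀ μ, DifferentiableOn ℂ (φ · μ) (ball 0 (2 / ρ0)) := differentiableOn_pi.1 H.hφ
  have hφ0 : AnalyticAt ℂ φ 0 := H.hφ.analyticAt (ball_mem_nhds _ (by positivity))
  set Hh : ℝ := max 1 ‖h‖
  have key : ∀ μ, φ (b : ℂ)⁻¹ μ = 0 := fun μ => by
    rw [← norm_eq_zero]
    refine num_limit (norm_nonneg _) (by positivity) cond (c + 1) (C :=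
      (Fintype.card ι * (Fintype.card ι).factorial * Hh ^ Fintype.card ι) * S *
      (S2 * Q' ^ c) ^ Fintype.card ι *
      ((max 1 S1' * S) ^ (Fintype.card ι * Λ) * S3) ^ (Fintype.card ι + 1)) fun κ hκ => ?_
    obtain ⟨L, hL⟩ : ∃ L, L + 1 = Λ * κ := ⟨Λ * κ - 1, by
      have : 0 < Λ * κ := Nat.mul_pos (by omega) (by omega)
      omega⟩
    have hL2 : 2 * κ ≤ L + 1 := hL ▸ Nat.mul_le_mul_right _ hΛ
    have hL3 : L + 1 ≤ Fintype.card ι * (L + 1) := Nat.le_mul_of_pos_left _ hm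
    obtain ⟨J, hJ⟩ : ∃ J, J + κ = Fintype.card ι * (L + 1) :=
      ⟨Fintype.card ι * (L + 1) - κ, by omega⟩
    obtain ⟨q, hq0, hq1, hq2⟩ := hS1 J
    obtain ⟨D, hD0, hD1, hD2⟩ := hS2 (κ + c)
    set a : ℝ := max 1 S1' * S * (Q * ρ0) ^ J with ha
    have ha1 : 1 ≤ a := one_le_mul_of_one_le_of_one_le
      (one_le_mul_of_one_le_of_one_le (le_max_left _ _) hS)
      (one_le_pow₀ (one_le_mul_of_one_le_of_one_le hQ hρ))
    obtain ⟨t, ht0, ht1, ht2⟩ := siegel_poly (Φ := Φ) hq0 (J := J) (L := L) (κ := κ)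
      (g := Fintype.card ι * Λ) ha1 (fun μ k hk => by
        obtain ⟨z, hz⟩ := hq2 μ k hk
        refine ⟨z, ?_, ?_⟩
        · rw [← H.hΦ, PowerSeries.coeff_map] at hz
          apply (algebraMap ℚ ℂ).injective
          simpa using hz
        · have h1 := cauchy (hφa μ) hr0 hr
            (fun t ht => (norm_le_pi_norm _ μ).trans (hSb t (sphere_subset_closedBall ht))) k
          rw [← Complex.norm_intCast, ← hz, norm_mul, norm_mul, Complex.norm_intCast]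
          simp only [Int.cast_one, one_pow, norm_one, mul_one]
          calc _ ≤ (max 1 S1' * Q ^ J) * (S * ρ0 ^ J) := by
                refine mul_le_mul (hq1.trans ?_) (h1.trans ?_) (norm_nonneg _) (by positivity)
                · gcongr; exact le_max_right _ _
                · rw [one_div, inv_pow, div_inv_eq_mul]; gcongr
            _ = a := by rw [ha, mul_pow]; ring)
      (by omega) (by omega) hJ (by rw [mul_assoc, ← hL]; omega)
    set ρ : ι → ℚ[X] := fun μ => ∑ l : Fin (L + 1), monomial l (t μ l : ℚ) with hρd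
    set H0 : ℝ := (Fintype.card ι * (L + 1) * a) ^ (Fintype.card ι * Λ)
    have hρ0 : ρ ≠ 0 := fun h => ht0 (by
      ext ν l
      have := congrArg (fun p => p.coeff l) (congrFun h ν)
      simpa [hρd, coeff_monomial, Fin.val_inj] using this)
    have hρL : ∀ μ, (ρ μ).natDegree ≤ L := fun μ =>
      natDegree_sum_le_of_forall_le _ _ fun l _ => (natDegree_monomial_le _).trans (by omega)
    have hρe : ∀ (z : ℂ) ν, aeval z (ρ ν) = ∑ l : Fin (L + 1), (t ν l : ℂ) * z ^ (l : ℕ) :=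
      fun z ν => by simp [hρd, aeval_monomial]
    obtain ⟨P, hP⟩ : ∃ P : ι → ℤ[X], ∀ (s : ℂ) ν,
        aeval s (P ν) = ∑ l : Fin (L + 1), (t ν l : ℂ) * s ^ (L - l) :=
      ⟨fun ν => ∑ l : Fin (L + 1), monomial (L - l) (t ν l), fun s ν => by simp [aeval_monomial]⟩
    have hPρ : ∀ s : ℂ, s ≠ 0 → (fun ν => aeval s (P ν)) = s ^ L • fun ν => aeval s⁻¹ (ρ ν) :=
      fun s hs => by
        ext ν
        rw [hP, Pi.smul_apply, hρe, smul_eq_mul, Finset.mul_sum]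
        refine Finset.sum_congr rfl fun l _ => ?_
        rw [pow_sub₀ _ hs (by omega), inv_pow]; ring
    have hPd : Differentiable ℂ fun (s : ℂ) ν => aeval s (P ν) :=
      differentiable_pi.2 fun ν => (P ν).differentiable_aeval
    have hu : DifferentiableOn ℂ (fun s : ℂ => (fun ν => aeval s (P ν)) ᵥ* W s) (ball b 2) :=
      H.hW.vecMul hPd.differentiableOn
    have hua := hu.analyticAt (ball_mem_nhds _ two_pos)
    have hud : ∀ v : ι → ℂ, DifferentiableOn ℂ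
        (fun s : ℂ => ((fun ν => aeval s (P ν)) ᵥ* W s) ⬝ᵥ v) (ball b 2) := fun v =>
      DifferentiableOn.fun_sum fun ν _ => (differentiableOn_pi.1 hu ν).mul_const _
    have hG1 : (1 : ℝ) ≤ Fintype.card ι * (L + 1) * H0 := by
      have hN1 : (1 : ℝ) ≤ Fintype.card ι * (L + 1) := by
        exact_mod_cast Nat.mul_pos hm (Nat.succ_pos L)
      exact one_le_mul_of_one_le_of_one_le hN1
        (one_le_pow₀ (one_le_mul_of_one_le_of_one_le hN1 ha1))
    refine num_step (norm_nonneg _) hm (by omega) hL hJ hS hS3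
      (one_le_mul_of_one_le_of_one_le (le_max_left _ _) hS) (by positivity)
      (by exact_mod_cast Int.one_le_abs hD0) hD1 ha1 (le_of_eq (by rw [ha]; congr 2; ring)) hρ
      (by nlinarith) (by linarith) rfl ?_
    refine detlemma (lam := fun (k : Fin (κ + c + 1)) μ => PowerSeries.coeff k
      (tay (fun s : ℂ => ((fun ν => aeval s (P ν)) ᵥ* W s) μ) b)) h0 hD0 (fun k μ => ?_)
      (fun v hv => ?_) (by have : 0 < (b : ℝ) - 1 + 2 := by linarith
                           positivity)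
      (by have : 0 < (b : ℝ) - 1 := by linarith
          positivity) (le_max_left _ _) (fun k μ => ?_) (fun k => ?_) hf (fun μ => ?_) μ
    · have : Den (1 * D) 1 (κ + c) (tay (fun s : ℂ => ((fun ν => aeval s (P ν)) ᵥ* W s) μ) b) := by
        have hWa := fun ν => (H.hW ν μ).analyticAt (ball_mem_nhds (b : ℂ) two_pos)
        simp only [vecMul, dotProduct]
        rw [tay_sum _ fun ν _ => (analyticAt_aeval _ _).fun_mul (hWa ν)]
        refine Den.sum _ fun ν _ => ?_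
        rw [tay_mul (analyticAt_aeval _ _) (hWa ν)]
        exact (Den.tay_poly _ _).mul (hD2 ν μ)
      simpa using this k (by omega)
    · by_contra hv0
      obtain ⟨ν, hν⟩ := Function.ne_iff.1 hv0
      have hy : ∀ᶠ z in 𝓝 (b : ℂ)⁻¹, VSol (Az T B) (fun z => W z⁻¹ *ᵥ v) z :=
        H.hWs.mono fun z hz => hz.vsol v
      have hya := analyticAt_of_eventually (hy.mono fun z hz => hz.differentiableAt)
      have hTe : ∀ᶠ z in 𝓝 (b : ℂ)⁻¹, aeval z T ≠ 0 :=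
        (analyticAt_aeval T _).continuousAt.eventually_ne H.hT
      have d1 : PowerSeries.X ^ (κ + c + 1) ∣
          tay (fun s : ℂ => ((fun ν => aeval s (P ν)) ᵥ* W s) ⬝ᵥ v) ((b : ℂ)⁻¹)⁻¹ := by
        rw [inv_inv, PowerSeries.X_pow_dvd_iff]
        intro k hk
        rw [← coeff_tay_dot hua]
        exact hv ⟨k, hk⟩
      have a1 : AnalyticAt ℂ (fun s : ℂ => ((fun ν => aeval s (P ν)) ᵥ* W s) ⬝ᵥ v)
          ((b : ℂ)⁻¹)⁻¹ := by
        rw [inv_inv]; exact (hud v).analyticAt (ball_mem_nhds _ two_pos)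
      have a2 : AnalyticAt ℂ (fun z : ℂ => z⁻¹) (b : ℂ)⁻¹ := analyticAt_id.inv (inv_ne_zero hb0)
      have d2 := (dvd_tay_comp (h := fun z => z⁻¹) a1 a2 d1).mul_left (tay (fun z => z ^ L) (b : ℂ)⁻¹)
      rw [← tay_mul (by fun_prop) (AnalyticAt.fun_comp (f := fun z => z⁻¹) a1 a2),
        tay_congr (h := fun z => (fun μ => aeval z (ρ μ)) ⬝ᵥ (W z⁻¹ *ᵥ v)), tay_pr hya] at d2
      · have := hc L J ρ hρ0 hρL ht1 (by rw [mul_add] at hJ; omega) ℂ (τp _) _ (τp_deriv _)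
          (τp_unit (inv_ne_zero hb0)) (τp_deg _)
          (isS_tay hya (nhdsWithin_le_nhds (hTe.and hy)))
          ⟨ν, PowerSeries.isUnit_iff_constantCoeff.2 (by simpa [H.W1] using hν)⟩ _ d2
        rw [mul_add] at hJ
        omega
      · filter_upwards [eventually_ne_nhds (inv_ne_zero hb0)] with z hz
        rw [hPρ _ (inv_ne_zero hz), ← dotProduct_mulVec, smul_dotProduct, inv_inv, smul_eq_mul,
          inv_pow, mul_inv_cancel_left₀ (pow_ne_zero _ hz)]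
    · have := cauchy (differentiableOn_pi.1 hu μ) one_pos one_lt_two (fun s hs => by
        have hs' := sphere_subset_closedBall hs
        exact norm_dot_le (fun ν => by
          rw [hP]
          exact norm_sum_pow_le (ht2 ν) (by linarith) (hnb s hs').2 fun l => Nat.sub_le _ _)
          fun ν => (norm_le_pi_norm _ (ν, μ)).trans (hS3b s hs')) k
      refine this.trans (le_of_eq ?_)
      ring
    · rw [coeff_tay_dot hua]
      have hRd : DifferentiableOn ℂ (fun z => (fun μ => aeval z (ρ μ)) ⬝ᵥ φ z) (ball 0 (2 / ρ0)) :=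
        DifferentiableOn.fun_sum fun ν _ =>
          (ρ ν).differentiable_aeval.differentiableOn.fun_mul (hφa ν)
      have d1 : PowerSeries.X ^ J ∣ tay (fun z => (fun μ => aeval z (ρ μ)) ⬝ᵥ φ z) 0 := by
        rw [tay_pr hφ0, ← map_pr H.hΦ]
        simpa using map_dvd (PowerSeries.map (algebraMap ℚ ℂ)) ht1
      have hR := schwarz hr0 hr J hRd (fun z hz => norm_dot_le (fun ν => by
          rw [hρe]
          refine norm_sum_pow_le (ht2 ν) le_rfl ?_ fun l => by omega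
          rw [mem_sphere_zero_iff_norm.1 hz, div_le_one (by linarith)]
          exact hρ)
        fun ν => (norm_le_pi_norm _ ν).trans (hSb z (sphere_subset_closedBall hz))) d1
      have := cauchy (hud (φ (b : ℂ)⁻¹)) one_pos one_lt_two (S := (b - 1 + 2) ^ L *
        (Fintype.card ι * (L + 1) * H0 * S * (ρ0 / (b - 1)) ^ J)) (fun s hs => by
        have hs' := sphere_subset_closedBall hs
        have hs0 : s ≠ 0 := by
          rw [← norm_pos_iff]; linarith [(hnb s hs').1]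
        rw [← dotProduct_mulVec, ← H.hWφ s hs', hPρ s hs0, smul_dotProduct, norm_smul, norm_pow]
        refine mul_le_mul (pow_le_pow_left₀ (norm_nonneg _) (hnb s hs').2 _)
          ((hR _ (hinv s hs')).trans ?_) (norm_nonneg _) (pow_nonneg (by linarith) _)
        refine mul_le_mul (le_of_eq (by ring)) (pow_le_pow_left₀ (by positivity) ?_ _)
          (by positivity) (by positivity)
        rw [sub_zero, norm_inv, one_div, div_inv_eq_mul, inv_mul_eq_div]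
        gcongr
        · linarith
        · exact (hnb s hs').1) k
      simpa using this
    · rw [← Int.norm_eq_abs]
      exact (norm_le_pi_norm h μ).trans (le_max_right _ _)
  have hz : ∀ᶠ z in 𝓝 (b : ℂ)⁻¹, φ z μ0 = 0 := by
    have : ∀ᶠ z in 𝓝 (b : ℂ)⁻¹, z⁻¹ ∈ closedBall (b : ℂ) 1 := by
      refine (continuousAt_inv₀ (inv_ne_zero hb0)).eventually_mem ?_
      rw [inv_inv]; exact closedBall_mem_nhds _ one_pos
    filter_upwards [this] with z hz
    have := H.hWφ _ hz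
    rw [inv_inv, funext key] at this
    rw [this]; simp [mulVec, dotProduct]
  have hz2 := ident isOpen_ball (convex_ball _ _).isPreconnected (hφa μ0)
    (differentiableOn_const 0) (closedBall_subset_ball hr (hinv b (by simp))) hz
  have h3 : Φ μ0 = 0 := by
    apply PowerSeries.map_injective (algebraMap ℚ ℂ) (algebraMap ℚ ℂ).injective
    rw [H.hΦ, tay_congr (hz2.eventuallyEq_of_mem (ball_mem_nhds _ (by positivity))), tay_const]
    simp
  simpa using congrFun (hi (Pi.single μ0 1) (by rw [pr_single, h3, mul_zero])) μ0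

end

end Pool.Agent.Lib.MP_5591bc_ag.G
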