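import Pool.Agent.Lib.MP_5591bc_ag.GAbs

/-! A bounded number of exceptional integers in every short window. -/

namespace Pool.Agent.Lib.MP_5591bc_ag.G

open Filter Topology Metric Polynomial Matrix

noncomputable section

lemma exists_eval_le (p : ℤ[X]) : ∃ C : ℝ, ∀ (x : ℤ) (β : ℝ), 1 ≤ β → |(x : ℝ)| ≤ β →
    |((p.eval x : ℤ) : ℝ)| ≤ C * β ^ p.natDegree := by
  refine ⟨∑ i ∈ Finset.range (p.natDegree + 1), |(p.coeff i : ℝ)|, fun x β h1 h2 => ?_⟩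
  rw [eval_eq_sum_range, Finset.sum_mul]
  push_cast
  refine (Finset.abs_sum_le_sum_abs _ _).trans (Finset.sum_le_sum fun i hi => ?_)
  rw [abs_mul, abs_pow]
  exact mul_le_mul_of_nonneg_left ((pow_le_pow_left₀ (abs_nonneg _) h2 _).trans
    (pow_le_pow_right₀ h1 (Nat.lt_succ_iff.1 (Finset.mem_range.1 hi)))) (abs_nonneg _)

variable {ν : Type*} [Fintype ν] [DecidableEq ν]
variable {T : ℚ[X]} {B : Matrix ν ν ℚ[X]} {R c : ℝ} {Tz : ℤ[X]} {e : ℕ} {D : ℕ → ℤ} {Cg : ℝ}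

open Classical in
theorem Std.window (H : Std T B R c Tz e D Cg) (δ : ℕ) : ∃ E N : ℕ, 0 < E ∧ ∀ R' : ℝ, ∃ b0 : ℕ,
    ∀ Q : ℂ → Matrix ν ν ℂ, (∀ t : ℂ, R' < t.re → MSol (Az T B) Q t ∧ (Q t).det ≠ 0) →
    ∀ b ≥ b0, ∀ M : ℕ, M ^ E ≤ b →
      ((Finset.Icc b (b + M)).filter fun t : ℕ => ¬ AGood Q δ t).card ≤ N := by
  obtain ⟨K, hK⟩ : ∃ K, K = Fintype.card (Fin δ → Option (ν × ν)) := ⟨_, rfl⟩
  obtain ⟨Δ, hΔ⟩ : ∃ Δ, Δ = (K + 1) * δ := ⟨_, rfl⟩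
  obtain ⟨m, hm⟩ : ∃ m, m = Fintype.card (Fin Δ → Option ((Fin δ → Option (ν × ν)) × ν × ν)) :=
    ⟨_, rfl⟩
  obtain ⟨CT, hCT⟩ := exists_eval_le Tz
  obtain ⟨g1, hg1⟩ : ∃ g1, g1 = (2 * Tz.natDegree + 1) * (K + 1) := ⟨_, rfl⟩
  obtain ⟨g2, hg2⟩ : ∃ g2, g2 = ((g1 + 1) * Δ + g1) * m := ⟨_, rfl⟩
  obtain ⟨n, hn⟩ : ∃ n, n = 5 * m ^ 3 * (g2 + 3) ^ 2 := ⟨_, rfl⟩
  obtain ⟨L, hL⟩ : ∃ L : ℕ, 3 * R + 3 ≤ L := exists_nat_ge _
  obtain ⟨q, hq⟩ : ∃ q : ℝ,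
    q = (Cg * |(Tz.leadingCoeff : ℝ)|) ^ Δ * |(Tz.leadingCoeff : ℝ)| := ⟨_, rfl⟩
  have hR := H.hR
  have hCg := H.one_le
  have hl : (1 : ℝ) ≤ |(Tz.leadingCoeff : ℝ)| := by exact_mod_cast Int.one_le_abs H.lc
  have hq1 : 1 ≤ q := hq ▸ one_le_mul_of_one_le_of_one_le
    (one_le_pow₀ (one_le_mul_of_one_le_of_one_le hCg hl)) hl
  have hm1 : 0 < m := hm ▸ Fintype.card_pos
  have hn4 : 4 ≤ n := by
    have : 0 < m ^ 3 * (g2 + 3) ^ 2 := by positivity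
    rw [hn, mul_assoc]; omega
  have hL0 : 0 < L := by exact_mod_cast (show (0 : ℝ) < L by linarith)
  refine ⟨n, L * K, by omega, fun R' => ?_⟩
  obtain ⟨b0, hb0⟩ : ∃ b0 : ℕ, |CT| + Cg ^ 2 + 2 * (2 * q * (4 * R + 8 * L + 8)) ^ n + 2 * |R'| +
    2 * L + 5 ≤ b0 := exists_nat_ge _
  refine ⟨b0, fun Q hQ b hb M hM => ?_⟩
  by_contra hlt
  obtain ⟨y, -, hy⟩ := Finset.exists_lt_card_fiber_of_mul_lt_card_of_maps_to
    (t := Finset.range L) (f := fun t => t % L)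
    (fun t _ => Finset.mem_range.2 (Nat.mod_lt t hL0)) (by simpa using not_le.1 hlt)
  obtain ⟨f, hf⟩ := Function.Embedding.exists_of_card_le_finset (hK ▸ hy.le)
  have hf' : ∀ i, (b ≤ f i ∧ f i ≤ b + M) ∧ ¬ AGood Q δ (f i) ∧ f i % L = y := fun i => by
    simpa [and_assoc] using hf ⟨i, rfl⟩
  have hb' : (b0 : ℝ) ≤ b := by exact_mod_cast hb
  obtain ⟨β, hβ⟩ : ∃ β : ℝ, β = (b : ℝ) - L - 1 := ⟨_, rfl⟩
  obtain ⟨ρ, hρ⟩ : ∃ ρ : ℝ, ρ = 4 * R + 8 * (M + L) := ⟨_, rfl⟩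
  have p1 : 0 ≤ (2 * q * (4 * R + 8 * L + 8)) ^ n := by positivity
  have p2 := abs_nonneg CT
  have p3 := abs_nonneg R'
  have p4 := sq_nonneg Cg
  have p5 : (0 : ℝ) ≤ L := by positivity
  have p6 : (0 : ℝ) ≤ M := by positivity
  have hβ3 : 4 ≤ β := by linarith
  have hρ0 : 0 ≤ ρ := by linarith
  have c1 : (2 * q * ρ) ^ n < β ^ 2 := by
    have a1 : (max 1 M : ℝ) ^ n ≤ 2 * β := by
      rcases le_total 1 (M : ℝ) with h | h
      · rw [max_eq_right h]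
        have : (M : ℝ) ^ n ≤ b := by exact_mod_cast hM
        linarith
      · rw [max_eq_left h, one_pow]; linarith
    have a2 : ρ ≤ (4 * R + 8 * L + 8) * max 1 (M : ℝ) := by
      nlinarith [le_max_left 1 (M : ℝ), le_max_right 1 (M : ℝ)]
    calc (2 * q * ρ) ^ n ≤ (2 * q * ((4 * R + 8 * L + 8) * max 1 (M : ℝ))) ^ n := by
          gcongr
      _ = (2 * q * (4 * R + 8 * L + 8)) ^ n * (max 1 M : ℝ) ^ n := by rw [← mul_pow]; ring
      _ ≤ (2 * q * (4 * R + 8 * L + 8)) ^ n * (2 * β) := by gcongr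
      _ < β ^ 2 := by nlinarith
  have hρ4 : 4 * R ≤ ρ := by linarith
  have c2 : ρ ^ 2 < β := by
    refine lt_of_pow_lt_pow_left₀ 2 (by linarith) (lt_of_le_of_lt ?_ c1)
    rw [← pow_mul]
    exact (pow_le_pow_left₀ (by linarith) (by nlinarith) _).trans
      (pow_le_pow_right₀ (by nlinarith) hn4)
  have ha : ∀ i, (L : ℝ) ≤ ((f i : ℤ) - (b - L) : ℤ) ∧ (((f i : ℤ) - (b - L) : ℤ) : ℝ) ≤ M + L :=
    fun i => by
      have a1 : (b : ℝ) ≤ f i := by exact_mod_cast (hf' i).1.1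
      have a2 : (f i : ℝ) ≤ b + M := by exact_mod_cast (hf' i).1.2
      push_cast
      constructor <;> linarith
  have hev : ∀ x : ℤ, |(x : ℝ)| ≤ β ^ 2 → |((Tz.eval x : ℤ) : ℝ)| ≤ β ^ (2 * Tz.natDegree + 1) :=
    fun x hx => (hCT x _ (by nlinarith) hx).trans (by
      rw [pow_succ' β (2 * _), pow_mul]
      exact mul_le_mul_of_nonneg_right (by linarith [le_abs_self CT]) (by positivity))
  have e1 : (((b : ℤ) - L : ℤ) : ℝ) - 1 = β := by rw [hβ]; push_cast; ring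
  have hQ' : ∀ t ∈ ball ((((b : ℤ) - L : ℤ)) : ℂ) (‖((((b : ℤ) - L : ℤ)) : ℂ)‖ / 2), R' < t.re :=
    fun t ht => by
      rw [mem_ball_iff_norm, Complex.norm_intCast, abs_of_nonneg (by linarith)] at ht
      have := (abs_lt.1 ((Complex.abs_re_le_norm _).trans_lt ht)).1
      rw [Complex.sub_re, Complex.intCast_re] at this
      linarith [le_abs_self R']
  obtain ⟨i, hi⟩ := H.core δ (a := fun i => (f i : ℤ) - (b - L)) (b := b - L) (Δ := Δ)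
    (Λ := g2 + 3) (by rw [hΔ, hK]) (ρ := ρ) (θ := β ^ g1) hρ4
    (fun i => by rw [abs_of_nonneg (by linarith [(ha i).1])]; linarith [(ha i).2])
    (by nlinarith) (by nlinarith) (fun i => hL.trans (ha i).1) (fun i j hij => by
      have a1 : (L : ℤ) ∣ (f j : ℤ) - f i :=
        Nat.modEq_iff_dvd.1 ((hf' i).2.2.trans (hf' j).2.2.symm)
      have a2 := Int.le_of_dvd (abs_pos.2 (sub_ne_zero.2 fun h =>
        hij (f.injective (by exact_mod_cast h)).symm)) ((dvd_abs _ _).2 a1)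
      have a3 : (L : ℝ) ≤ |(f j : ℝ) - f i| := by exact_mod_cast a2
      push_cast
      rw [sub_sub_sub_cancel_right, abs_sub_comm]
      linarith) (by
      push_cast
      rw [abs_mul, Finset.abs_prod, hg1, pow_mul, pow_succ', hK, ← Finset.card_univ,
        ← Finset.prod_const]
      refine mul_le_mul (hev _ ?_) (Finset.prod_le_prod (fun _ _ => abs_nonneg _) fun i _ =>
        hev _ ?_) (by positivity) (by positivity)
      · rw [abs_of_nonneg (by linarith)]; nlinarith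
      · rw [Int.cast_add, abs_of_nonneg (by linarith [(ha i).1])]; nlinarith [(ha i).2])
    (by omega) hm (by
      rw [← hq, ← hn, e1, show g2 + 3 - 1 = g2 + 2 from rfl, pow_add]
      refine mul_lt_mul' ?_ c1 (by positivity) (by positivity)
      rw [hg2, pow_mul, pow_add, pow_mul, pow_succ' β g1]
      gcongr
      linarith) (fun t ht => (hQ t (hQ' t ht)).1)
    (hQ _ (hQ' _ (mem_ball_self (by
      rw [Complex.norm_intCast, abs_of_nonneg (by linarith)]; linarith)))).2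
  exact (hf' i).2.1 (by simpa using hi)

end

end Pool.Agent.Lib.MP_5591bc_ag.G
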