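import Pool.Agent.Lib.MP_5591bc_ag.Curve

/-! The explicit half loop and its periods (Beta values). -/

namespace Pool.Agent.Lib.MP_5591bc_ag

open unitInterval Topology Filter Set

noncomputable section

theorem tangent_real {t : ℂ} {φ : ℝ → ℂ × ℂ} {z : ℝ} {v : ℂ × ℂ} (hφ : HasDerivAt φ v z)
    (h : ∀ᶠ w in 𝓝 z, (φ w).2 ^ 2 = (φ w).1 ^ 5 - t * (φ w).1) :
    2 * (φ z).2 * v.2 = (5 * (φ z).1 ^ 4 - t) * v.1 := by
  have h1 : HasDerivAt (fun w => (φ w).1) v.1 z :=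
    (ContinuousLinearMap.fst ℝ ℂ ℂ).hasFDerivAt.comp_hasDerivAt z hφ
  have h2 : HasDerivAt (fun w => (φ w).2) v.2 z :=
    (ContinuousLinearMap.snd ℝ ℂ ℂ).hasFDerivAt.comp_hasDerivAt z hφ
  have a := h2.fun_pow 2
  have b := (h1.fun_pow 5).fun_sub (h1.const_mul t)
  have := a.unique (b.congr_of_eventuallyEq h)
  simp only [Nat.cast_ofNat, Nat.add_one_sub_one, pow_one] at this
  linear_combination this

theorem per_eq_integral {t : ℂ} (ht : t ≠ 0) (k : ℕ) {a b : Curve t} (γ : Path a b)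
    (c c' : ℝ → ℂ × ℂ) (hc : ∀ u : I, (γ u).1 = c u) (w : ℝ → ℂ)
    (hd : ∀ r ∈ Ioo (0 : ℝ) 1, HasDerivAt c (c' r) r ∧ (c r).2 ≠ 0 ∧
      (c r).2 * w r = (c r).1 ^ k * (c' r).1)
    (hint : IntervalIntegrable w MeasureTheory.volume 0 1) :
    (atlas ht k).per γ = ∫ r in (0 : ℝ)..1, w r := by
  obtain ⟨F, hF⟩ := (atlas ht k).exists_prim γ.continuous
  have hFc : Continuous F := by
    rw [continuous_iff_continuousAt]
    intro u
    obtain ⟨⟨⟨N, G⟩, h1, h2, h3⟩, hi, hv⟩ := hF u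
    refine ContinuousAt.congr ?_ (EventuallyEq.symm hv)
    have hG : ContinuousAt G (γ u).1 := (h2.differentiableAt (h1.mem_nhds hi)).continuousAt
    exact ContinuousAt.comp (g := G) (f := fun v => (γ v).1) hG (by fun_prop)
  let π : ℝ → I := projIcc 0 1 zero_le_one
  have hπ : Continuous π := continuous_projIcc
  rw [hF.per_eq, intervalIntegral.integral_eq_sub_of_hasDerivAt_of_le (f := fun r => F (π r))
    zero_le_one (hFc.comp hπ).continuousOn ?_ hint]
  · simp [π]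
  · intro r hr
    obtain ⟨hd1, hd2, hd3⟩ := hd r hr
    obtain ⟨⟨⟨N, G⟩, h1, h2, h3⟩, hi, hv⟩ := hF (π r)
    have hcπ : ∀ᶠ r' in 𝓝 r, (γ (π r')).1 = c r' := by
      filter_upwards [Ioo_mem_nhds hr.1 hr.2] with r' hr'
      rw [hc]
      simp [π, projIcc_of_mem _ (Ioo_subset_Icc_self hr')]
    have hr0 : (γ (π r)).1 = c r := hcπ.self_of_nhds
    have hmem : c r ∈ N := by rw [← hr0]; exact hi
    have hG := ((h2.differentiableAt (h1.mem_nhds hmem)).hasFDerivAt.restrictScalars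
      ℝ).comp_hasDerivAt r hd1
    have htan := tangent_real (t := t) hd1 (by
      filter_upwards [hcπ] with r' hr'
      rw [← hr']
      exact (γ (π r')).2)
    have e := h3 (γ (π r)) hi (c' r) (by rw [hr0]; exact htan)
    rw [hr0] at e
    have e2 : fderiv ℂ G (c r) (c' r) = w r := by
      apply mul_left_cancel₀ hd2
      rw [hd3]
      exact e
    refine (hG.congr_deriv e2).congr_of_eventuallyEq ?_
    filter_upwards [hcπ, hπ.continuousAt.eventually hv] with r' h1 h2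
    rw [h2]
    change G (γ (π r')).1 = G (c r')
    rw [h1]

/-- The branch point `(1, 0)` of the curve with `t = 1`. -/
def brPt : Curve 1 := ⟨(1, 0), by simp⟩

def etaFun (r : ℝ) : ℂ × ℂ :=
  (((r ^ (1 / 4 : ℝ) : ℝ) : ℂ), Complex.I * ((r ^ (1 / 8 : ℝ) * (1 - r) ^ (1 / 2 : ℝ) : ℝ) : ℂ))

theorem etaFun_mem {r : ℝ} (h0 : 0 ≤ r) (h1 : r ≤ 1) :
    (etaFun r).2 ^ 2 = (etaFun r).1 ^ 5 - 1 * (etaFun r).1 := by
  have a : (r ^ (1 / 8 : ℝ)) ^ 2 = r ^ (1 / 4 : ℝ) := by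
    rw [← Real.rpow_natCast, ← Real.rpow_mul h0]; norm_num
  have b : (r ^ (1 / 4 : ℝ)) ^ 4 = r := by
    rw [← Real.rpow_natCast, ← Real.rpow_mul h0]; norm_num
  have c : ((1 - r) ^ (1 / 2 : ℝ)) ^ 2 = 1 - r := by
    rw [← Real.rpow_natCast, ← Real.rpow_mul (by linarith)]; norm_num
  have : (r ^ (1 / 8 : ℝ) * (1 - r) ^ (1 / 2 : ℝ)) ^ 2
      = r ^ (1 / 4 : ℝ) - (r ^ (1 / 4 : ℝ)) ^ 5 := by
    rw [mul_pow, a, c, pow_succ _ 4, b]; ring
  simp only [etaFun]
  rw [mul_pow, Complex.I_sq, ← Complex.ofReal_pow, this]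
  push_cast
  ring

/-- The path from `(0,0)` to `(1,0)` over the real segment. -/
def eta : Path (origin 1) brPt where
  toFun u := ⟨etaFun u, etaFun_mem u.2.1 u.2.2⟩
  continuous_toFun := by
    refine Continuous.subtype_mk ?_ _
    unfold etaFun
    have h1 : Continuous fun u : I => (u : ℝ) ^ (1 / 4 : ℝ) :=
      continuous_subtype_val.rpow_const (fun _ => Or.inr (by norm_num))
    have h2 : Continuous fun u : I => (u : ℝ) ^ (1 / 8 : ℝ) :=
      continuous_subtype_val.rpow_const (fun _ => Or.inr (by norm_num))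
    have h3 : Continuous fun u : I => (1 - (u : ℝ)) ^ (1 / 2 : ℝ) :=
      (continuous_const.sub continuous_subtype_val).rpow_const (fun _ => Or.inr (by norm_num))
    fun_prop
  source' := by simp [etaFun, origin]
  target' := by simp [etaFun, brPt]

/-- The half periods. -/
def hp (k : ℕ) : ℂ := (4 * Complex.I)⁻¹ * Complex.betaIntegral ((2 * k + 1) / 8) (1 / 2)

theorem per_eta (k : ℕ) : (atlas (one_ne_zero) k).per eta = hp k := by
  have hre : 0 < (((2 * k + 1) / 8 : ℂ)).re := by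
    have : ((2 * k + 1) / 8 : ℂ) = (((2 * k + 1) / 8 : ℝ) : ℂ) := by push_cast; rfl
    rw [this, Complex.ofReal_re]; positivity
  have hre2 : 0 < ((1 / 2 : ℂ)).re := by norm_num
  rw [hp, Complex.betaIntegral, ← intervalIntegral.integral_const_mul]
  refine per_eq_integral one_ne_zero k eta etaFun (fun r => deriv etaFun r) (fun _ => rfl) _ ?_
    ((Complex.betaIntegral_convergent hre hre2).const_mul _)
  intro r hr
  have h1r : 0 < 1 - r := by linarith [hr.2]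
  have d1 : HasDerivAt (fun r : ℝ => ((r ^ (1 / 4 : ℝ) : ℝ) : ℂ))
      (((1 / 4 : ℝ) * r ^ ((1 / 4 : ℝ) - 1) : ℝ) : ℂ) r :=
    (Real.hasDerivAt_rpow_const (Or.inl hr.1.ne')).ofReal_comp
  have d2 : DifferentiableAt ℝ (fun r : ℝ => r ^ (1 / 8 : ℝ) * (1 - r) ^ (1 / 2 : ℝ)) r :=
    (differentiableAt_id.rpow_const (Or.inl hr.1.ne')).mul
      (((differentiableAt_const _).sub differentiableAt_id).rpow_const (Or.inl h1r.ne'))
  have d3 := d1.prodMk (d2.hasDerivAt.ofReal_comp.const_mul Complex.I)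
  have d4 : HasDerivAt etaFun _ r := d3
  refine ⟨d4.differentiableAt.hasDerivAt, ?_, ?_⟩
  · simp only [etaFun]
    refine mul_ne_zero Complex.I_ne_zero ?_
    have := Real.rpow_pos_of_pos hr.1 (1 / 8)
    have := Real.rpow_pos_of_pos h1r (1 / 2)
    exact Complex.ofReal_ne_zero.2 (by positivity)
  · rw [d4.deriv]
    simp only [etaFun]
    have e1 : (r : ℂ) ^ ((2 * k + 1) / 8 - 1 : ℂ) = ((r ^ ((2 * k + 1) / 8 - 1 : ℝ) : ℝ) : ℂ) := by
      rw [Complex.ofReal_cpow hr.1.le]; push_cast; rfl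
    have e2 : (1 - (r : ℂ)) ^ (1 / 2 - 1 : ℂ) = (((1 - r) ^ (1 / 2 - 1 : ℝ) : ℝ) : ℂ) := by
      rw [Complex.ofReal_cpow h1r.le]; push_cast; rfl
    rw [e1, e2]
    have key : r ^ (1 / 8 : ℝ) * (1 - r) ^ (1 / 2 : ℝ) *
        (r ^ ((2 * k + 1) / 8 - 1 : ℝ) * (1 - r) ^ (1 / 2 - 1 : ℝ))
        = (r ^ (1 / 4 : ℝ)) ^ k * r ^ ((1 / 4 : ℝ) - 1) := by
      have a : (1 - r) ^ (1 / 2 : ℝ) * (1 - r) ^ (1 / 2 - 1 : ℝ) = 1 := by
        rw [← Real.rpow_add h1r]; norm_num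
      have b : r ^ (1 / 8 : ℝ) * r ^ ((2 * k + 1) / 8 - 1 : ℝ)
          = (r ^ (1 / 4 : ℝ)) ^ k * r ^ ((1 / 4 : ℝ) - 1) := by
        rw [← Real.rpow_natCast, ← Real.rpow_mul hr.1.le, ← Real.rpow_add hr.1,
          ← Real.rpow_add hr.1]
        congr 1; ring
      linear_combination (r ^ (1 / 8 : ℝ) * r ^ ((2 * k + 1) / 8 - 1 : ℝ)) * a + b
    have key' := congrArg (fun x : ℝ => (x : ℂ)) key
    simp only [Complex.ofReal_mul, Complex.ofReal_pow] at key' ⊢
    have hI := Complex.I_ne_zero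
    have : ((1 / 4 : ℝ) : ℂ) = 1 / 4 := by push_cast; rfl
    rw [this]
    have hI4 : Complex.I * (4 * Complex.I)⁻¹ = 1 / 4 := by field_simp
    linear_combination (Complex.I * (4 * Complex.I)⁻¹) * key'
      + (((r ^ (1 / 4 : ℝ) : ℝ) : ℂ) ^ k * ((r ^ ((1 / 4 : ℝ) - 1) : ℝ) : ℂ)) * hI4

theorem hp_eq (k : ℕ) : Complex.Gamma ((2 * k + 1) / 8 + 1 / 2) * hp k =
    (4 * Complex.I)⁻¹ * (Complex.Gamma ((2 * k + 1) / 8) * Complex.Gamma (1 / 2)) := by
  have hre : 0 < (((2 * k + 1) / 8 : ℂ)).re := by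
    have : ((2 * k + 1) / 8 : ℂ) = (((2 * k + 1) / 8 : ℝ) : ℂ) := by push_cast; rfl
    rw [this, Complex.ofReal_re]; positivity
  have hre2 : 0 < ((1 / 2 : ℂ)).re := by norm_num
  rw [Complex.Gamma_mul_Gamma_eq_betaIntegral hre hre2, hp]; ring

theorem hp_ne_zero (k : ℕ) : hp k ≠ 0 := by
  have hre : 0 < (((2 * k + 1) / 8 : ℂ)).re := by
    have : ((2 * k + 1) / 8 : ℂ) = (((2 * k + 1) / 8 : ℝ) : ℂ) := by push_cast; rfl
    rw [this, Complex.ofReal_re]; positivity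
  have hre2 : 0 < ((1 / 2 : ℂ)).re := by norm_num
  intro h
  have := hp_eq k
  rw [h, mul_zero] at this
  exact mul_ne_zero (inv_ne_zero (mul_ne_zero (by norm_num) Complex.I_ne_zero))
    (mul_ne_zero (Complex.Gamma_ne_zero_of_re_pos hre) (Complex.Gamma_ne_zero_of_re_pos hre2))
    this.symm

/-- The ratio of the periods of `dx/y` and `x dx/y` is algebraic. -/
theorem hp_ratio : ∃ l : ℂ, IsAlgebraic ℚ l ∧ hp 0 = l * hp 1 := by
  set s := Complex.sin (Real.pi * (1 / 8))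
  set c := Complex.sin (Real.pi * (3 / 8))
  have hc : c = Complex.cos (Real.pi * (1 / 8)) := by
    rw [← Complex.sin_pi_div_two_sub]
    exact congrArg Complex.sin (by ring)
  have r1 := Complex.Gamma_mul_Gamma_one_sub (1 / 8)
  have r3 := Complex.Gamma_mul_Gamma_one_sub (3 / 8)
  have g1 : Complex.Gamma (1 / 8) ≠ 0 := Complex.Gamma_ne_zero_of_re_pos (by norm_num)
  have g3 : Complex.Gamma (3 / 8) ≠ 0 := Complex.Gamma_ne_zero_of_re_pos (by norm_num)
  have g5 : Complex.Gamma (5 / 8) ≠ 0 := Complex.Gamma_ne_zero_of_re_pos (by norm_num)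
  have g7 : Complex.Gamma (7 / 8) ≠ 0 := Complex.Gamma_ne_zero_of_re_pos (by norm_num)
  rw [show (1 - 1 / 8 : ℂ) = 7 / 8 by norm_num] at r1
  rw [show (1 - 3 / 8 : ℂ) = 5 / 8 by norm_num] at r3
  have hs : s ≠ 0 := by
    intro h
    rw [show Complex.sin (Real.pi * (1 / 8)) = 0 from h, div_zero] at r1
    exact mul_ne_zero g1 g7 r1
  have hc0 : c ≠ 0 := by
    intro h
    rw [show Complex.sin (Real.pi * (3 / 8)) = 0 from h, div_zero] at r3
    exact mul_ne_zero g3 g5 r3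
  have e0 := hp_eq 0
  have e1 := hp_eq 1
  norm_num at e0 e1
  refine ⟨c / s, ?_, ?_⟩
  · have h2 : c ^ 2 - s ^ 2 = 2 * s * c := by
      have a := Complex.cos_two_mul' (Real.pi * (1 / 8))
      have b := Complex.sin_two_mul (Real.pi * (1 / 8))
      have d : Complex.cos (2 * (Real.pi * (1 / 8))) = Complex.sin (2 * (Real.pi * (1 / 8))) := by
        rw [← Complex.sin_pi_div_two_sub]; congr 1; ring
      rw [hc, ← a, d, b]
    refine ⟨Polynomial.X ^ 2 - 2 * Polynomial.X - 1, ?_, ?_⟩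
    · intro h
      have := congrArg (Polynomial.eval 0) h
      simp at this
    · simp only [map_sub, map_pow, map_mul, Polynomial.aeval_X, map_one, map_ofNat]
      field_simp
      linear_combination h2
  · change _ = _ / s at r1
    change _ = _ / c at r3
    rw [eq_div_iff hs] at r1
    rw [eq_div_iff hc0] at r3
    field_simp
    apply mul_left_cancel₀ (mul_ne_zero g5 g7)
    linear_combination s * Complex.Gamma (7 / 8) * e0 - c * Complex.Gamma (5 / 8) * e1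
      + (-Complex.I * (1 / 4) * Complex.Gamma (1 / 2)) * (r1 - r3)

end

end Pool.Agent.Lib.MP_5591bc_ag
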