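import Pool.Agent.Lib.MP_5591bc_ag.GenAbs
import Pool.Agent.Lib.MP_5591bc_ag.Loops

/-! The four standard loops generate the fundamental group of the curve `y^2 = x^5 - x`. -/

namespace Pool.Agent.Lib.MP_5591bc_ag

open unitInterval Topology Filter CategoryTheory Complex

noncomputable section

def sq (z : ℂ) : ℂ := z ^ (2⁻¹ : ℂ)

theorem sq_sq (z : ℂ) : sq z ^ 2 = z := cpow_ofNat_inv_pow z 2

theorem sq_ne {z : ℂ} (h : z ∈ slitPlane) : sq z ≠ 0 := by
  intro h0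
  have := sq_sq z
  rw [h0] at this
  exact slitPlane_ne_zero h (by simpa using this.symm)

theorem cont_sq {Y : Type} [TopologicalSpace Y] {f : Y → ℂ} (hf : Continuous f)
    (h : ∀ y, f y ∈ slitPlane) : Continuous fun y => sq (f y) :=
  hf.cpow continuous_const h

def W : Set (Curve 1) := {p | 1 - p.1.1 ^ 4 ∈ slitPlane}

theorem isOpen_W : IsOpen W := isOpen_slitPlane.preimage (f := fun p : Curve 1 => 1 - p.1.1 ^ 4)
  (by fun_prop)

theorem slit_rad {x : ℂ} (h : 1 - x ^ 4 ∈ slitPlane) (v : I) :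
    1 - ((v : ℝ) * x) ^ 4 ∈ slitPlane := by
  have h4 : (v : ℝ) ^ 4 ≤ 1 := pow_le_one₀ v.2.1 v.2.2
  have := starConvex_one_slitPlane h (a := 1 - (v : ℝ) ^ 4) (b := (v : ℝ) ^ 4) (by linarith)
    (pow_nonneg v.2.1 4) (by ring)
  have e : 1 - ((v : ℝ) * x) ^ 4 = (1 - (v : ℝ) ^ 4) • (1 : ℂ) + ((v : ℝ) ^ 4) • (1 - x ^ 4) := by
    simp only [real_smul]; push_cast; ring
  rw [e]; exact this

theorem sqrt_sq' (v : I) : ((Real.sqrt v : ℝ) : ℂ) ^ 2 = (v : ℝ) := by
  rw [← ofReal_pow, Real.sq_sqrt v.2.1]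

def contrW : Contraction W (origin 1) where
  K z := ⟨((z.2 : ℝ) * z.1.1.1.1, (Real.sqrt z.2 : ℝ) * z.1.1.1.2 *
      sq (1 - ((z.2 : ℝ) * z.1.1.1.1) ^ 4) / sq (1 - z.1.1.1.1 ^ 4)), by
    have h1 := z.1.1.2
    have h2 := slitPlane_ne_zero z.1.2
    simp only [div_pow, mul_pow, sq_sq, sqrt_sq', h1]
    field_simp
    ring⟩
  cont := by
    refine Continuous.subtype_mk (Continuous.prodMk (by fun_prop) ?_) _
    refine Continuous.div (Continuous.mul (by fun_prop) (cont_sq (by fun_prop) ?_))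
      (cont_sq (by fun_prop) ?_) ?_
    · exact fun z => slit_rad z.1.2 z.2
    · exact fun z => z.1.2
    · exact fun z => sq_ne z.1.2
  zero p := by simp [origin]
  one p := by
    have := sq_ne p.2
    ext
    · simp
    · simp [mul_div_assoc, div_self this]
  fix h v := by simp [origin]

def Sec : Set ℂ := {x | |x.im| < x.re}

theorem convex_Sec : Convex ℝ Sec := by
  intro x hx y hy a b ha hb hab
  simp only [Sec, Set.mem_ofPred_eq, abs_lt, add_re, add_im, real_smul, mul_re, mul_im, ofReal_re,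
    ofReal_im] at hx hy ⊢
  rcases ha.eq_or_lt with rfl | ha'
  · have : b = 1 := by linarith
    subst this
    constructor <;> linarith [hy.1, hy.2]
  · constructor <;> nlinarith [hx.1, hx.2, hy.1, hy.2]

def mm (x : ℂ) : ℂ := sq x * sq (x + 1) * sq (x ^ 2 + 1)

theorem mm_sq (x : ℂ) : mm x ^ 2 = x * (x + 1) * (x ^ 2 + 1) := by
  simp only [mm, mul_pow, sq_sq]

theorem Sec_slit {x : ℂ} (h : x ∈ Sec) :
    x ∈ slitPlane ∧ x + 1 ∈ slitPlane ∧ x ^ 2 + 1 ∈ slitPlane := by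
  simp only [Sec, Set.mem_ofPred_eq, abs_lt] at h
  refine ⟨Or.inl ?_, Or.inl ?_, Or.inl ?_⟩
  · linarith [h.1, h.2]
  · simp only [add_re, one_re]; linarith [h.1, h.2]
  · simp only [add_re, one_re, pow_two, mul_re]; nlinarith [h.1, h.2]

theorem mm_ne {x : ℂ} (h : x ∈ Sec) : mm x ≠ 0 :=
  mul_ne_zero (mul_ne_zero (sq_ne (Sec_slit h).1) (sq_ne (Sec_slit h).2.1))
    (sq_ne (Sec_slit h).2.2)

theorem cont_mm {Y : Type} [TopologicalSpace Y] {f : Y → ℂ} (hf : Continuous f)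
    (h : ∀ y, f y ∈ Sec) : Continuous fun y => mm (f y) :=
  ((cont_sq hf fun y => (Sec_slit (h y)).1).mul
    (cont_sq (by fun_prop) fun y => (Sec_slit (h y)).2.1)).mul
    (cont_sq (by fun_prop) fun y => (Sec_slit (h y)).2.2)

def N0 : Set (Curve 1) := {p | p.1.1 ∈ Sec}

theorem isOpen_N0 : IsOpen N0 :=
  isOpen_lt (f := fun p : Curve 1 => |p.1.1.im|) (by fun_prop) (by fun_prop)

theorem Sec_seg {x y : ℂ} (hx : x ∈ Sec) (hy : y ∈ Sec) (v : I) : x + (v : ℝ) * (y - x) ∈ Sec := by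
  have := convex_Sec.add_smul_sub_mem hx hy v.2
  simpa using this

theorem one_mem_Sec : (1 : ℂ) ∈ Sec := by simp [Sec]

def contrN : Contraction N0 brPt where
  K z := ⟨(1 + (z.2 : ℝ) * (z.1.1.1.1 - 1), (Real.sqrt z.2 : ℝ) * z.1.1.1.2 *
      mm (1 + (z.2 : ℝ) * (z.1.1.1.1 - 1)) / mm z.1.1.1.1), by
    have h1 := z.1.1.2
    have h2 : mm z.1.1.1.1 ^ 2 ≠ 0 := pow_ne_zero 2 (mm_ne z.1.2)
    rw [div_pow, div_eq_iff h2]
    simp only [mul_pow, mm_sq, sqrt_sq', h1]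
    ring⟩
  cont := by
    refine Continuous.subtype_mk (Continuous.prodMk (by fun_prop) ?_) _
    refine Continuous.div (Continuous.mul (by fun_prop) (cont_mm (by fun_prop) ?_))
      (cont_mm (by fun_prop) ?_) ?_
    · exact fun z => Sec_seg one_mem_Sec z.1.2 z.2
    · exact fun z => z.1.2
    · exact fun z => mm_ne z.1.2
  zero p := by simp [brPt]
  one p := by
    have := mm_ne p.2
    ext
    · simp
    · simp [mul_div_assoc, div_self this]
  fix h v := by simp [brPt]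

theorem slit_four_iff {x : ℂ} (h : x ∈ Sec) : 1 - x ^ 4 ∈ slitPlane ↔ 1 - x ∈ slitPlane := by
  simp only [Sec, Set.mem_ofPred_eq, abs_lt] at h
  obtain ⟨h1, h2⟩ := h
  have ha : 0 < x.re := by linarith
  have him : (1 - x ^ 4).im = -(4 * x.re * x.im * (x.re ^ 2 - x.im ^ 2)) := by
    simp [pow_succ]; ring
  have hre : (1 - x ^ 4).re = 1 - (x.re ^ 4 - 6 * x.re ^ 2 * x.im ^ 2 + x.im ^ 4) := by
    simp [pow_succ]; ring
  have hd : 0 < x.re ^ 2 - x.im ^ 2 := by nlinarith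
  simp only [mem_slitPlane_iff, him, hre, sub_re, one_re, sub_im, one_im]
  by_cases hb : x.im = 0
  · simp only [hb]
    have : 0 < 1 - x.re ^ 4 ↔ 0 < 1 - x.re := by
      rw [sub_pos, sub_pos]
      exact pow_lt_one_iff_of_nonneg ha.le (by norm_num)
    simpa using this
  · refine ⟨fun _ => Or.inr (by simpa using hb), fun _ => Or.inr ?_⟩
    exact neg_ne_zero.2 (mul_ne_zero (mul_ne_zero (by positivity) hb) hd.ne')

def r0 : I := ⟨1 / 16, by norm_num, by norm_num⟩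

theorem eta_r0 : (eta r0).1.1 = 1 / 2 := by
  change ((((1 / 16 : ℝ)) ^ (1 / 4 : ℝ) : ℝ) : ℂ) = 1 / 2
  have : (1 / 16 : ℝ) ^ (1 / 4 : ℝ) = 1 / 2 := by
    rw [show (1 / 16 : ℝ) = (1 / 2) ^ (4 : ℕ) by norm_num, ← Real.rpow_natCast,
      ← Real.rpow_mul (by norm_num)]
    norm_num
  rw [this]; push_cast; rfl

theorem hm1 : (1 : ℂ) = (-1) ^ 8 * 1 := by norm_num

/-- Points of `W ∩ N0` can be joined inside it to one of two reference points. -/
theorem join_ref (p : Curve 1) (hW : p ∈ W) (hN : p ∈ N0) :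
    ∃ q : Curve 1, (q = eta r0 ∨ q = scale (-1) hm1 (eta r0)) ∧
      ∃ γ : Path p q, ∀ u, γ u ∈ W ∧ γ u ∈ N0 := by
  have hhalf : (1 / 2 : ℂ) ∈ Sec := by
    simp only [Sec, Set.mem_ofPred_eq]; norm_num
  have hs : 1 - p.1.1 ∈ slitPlane := (slit_four_iff hN).1 hW
  have hseg : ∀ v : I, 1 - (p.1.1 + (v : ℝ) * (1 / 2 - p.1.1)) ∈ slitPlane := by
    intro v
    have := starConvex_ofReal_slitPlane (x := 1 / 2) (by norm_num) hs (a := (v : ℝ))
      (b := 1 - (v : ℝ)) v.2.1 (by linarith [v.2.2]) (by ring)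
    have e : 1 - (p.1.1 + (v : ℝ) * (1 / 2 - p.1.1)) =
        (v : ℝ) • (((1 / 2 : ℝ)) : ℂ) + (1 - (v : ℝ)) • (1 - p.1.1) := by
      simp only [real_smul]; push_cast; ring
    rw [e]; exact this
  have hY : sq (1 - p.1.1) * mm p.1.1 ≠ 0 := mul_ne_zero (sq_ne hs) (mm_ne hN)
  let g : I → Curve 1 := fun v => ⟨(p.1.1 + (v : ℝ) * (1 / 2 - p.1.1),
      p.1.2 * (sq (1 - (p.1.1 + (v : ℝ) * (1 / 2 - p.1.1))) *
        mm (p.1.1 + (v : ℝ) * (1 / 2 - p.1.1))) / (sq (1 - p.1.1) * mm p.1.1)), by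
    have h1 := p.2
    rw [div_pow, div_eq_iff (pow_ne_zero 2 hY)]
    simp only [mul_pow, mm_sq, sq_sq, h1]
    ring⟩
  have hg : Continuous g := by
    refine Continuous.subtype_mk (Continuous.prodMk (by fun_prop) ?_) _
    refine Continuous.div_const (Continuous.mul continuous_const (Continuous.mul
      (cont_sq (by fun_prop) hseg) (cont_mm (by fun_prop) (Sec_seg hN hhalf)))) _
  have g0 : g 0 = p := by
    ext
    · simp [g]
    · simp [g, mul_div_assoc, div_self hY]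
  have g1 : (g 1).1.1 = 1 / 2 := by simp [g]
  refine ⟨g 1, ?_, ⟨⟨g, hg⟩, g0, rfl⟩, fun u => ⟨?_, Sec_seg hN hhalf u⟩⟩
  · have e : (g 1).1.2 ^ 2 = (eta r0).1.2 ^ 2 := by
      rw [(g 1).2, (eta r0).2, g1, eta_r0]
    rcases sq_eq_sq_iff_eq_or_eq_neg.1 e with e | e
    · left
      ext
      · rw [g1, eta_r0]
      · exact e
    · right
      ext
      · simp only [scale]; rw [g1, eta_r0]; norm_num
      · simp only [scale]; rw [e]; norm_num
  · exact (slit_four_iff (Sec_seg hN hhalf u)).2 (hseg u)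

theorem eta_mem_W (v : I) (h : v ≤ r0) : eta v ∈ W := by
  change 1 - (((((v : ℝ)) ^ (1 / 4 : ℝ) : ℝ) : ℂ)) ^ 4 ∈ slitPlane
  have b : ((v : ℝ) ^ (1 / 4 : ℝ)) ^ 4 = v := by
    rw [← Real.rpow_natCast, ← Real.rpow_mul v.2.1]; norm_num
  have h' : (v : ℝ) ≤ 1 / 16 := h
  rw [← ofReal_pow, b, ← ofReal_one, ← ofReal_sub, ofReal_mem_slitPlane]
  linarith

theorem eta_mem_N0 (v : I) (h : r0 ≤ v) : eta v ∈ N0 := by
  change |(((((v : ℝ)) ^ (1 / 4 : ℝ) : ℝ) : ℂ)).im| < (((((v : ℝ)) ^ (1 / 4 : ℝ) : ℝ) : ℂ)).re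
  have h' : 1 / 16 ≤ (v : ℝ) := h
  rw [ofReal_im, ofReal_re, abs_zero]
  exact Real.rpow_pos_of_pos (by linarith) _

section zeta

variable {ζ : ℂ} (hζ : (1 : ℂ) = ζ ^ 8 * 1)
include hζ

theorem zeta_ne : ζ ≠ 0 := by rintro rfl; simp at hζ

theorem hinv : (1 : ℂ) = ζ⁻¹ ^ 8 * 1 := by
  rw [mul_one] at hζ
  rw [inv_pow, ← hζ]; simp

theorem scale_inv_scale (p : Curve 1) : scale ζ⁻¹ (hinv hζ) (scale ζ hζ p) = p := by
  have := zeta_ne hζ
  ext <;> simp only [scale] <;> field_simp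

theorem scale_scale_inv (p : Curve 1) : scale ζ hζ (scale ζ⁻¹ (hinv hζ) p) = p := by
  have := zeta_ne hζ
  ext <;> simp only [scale] <;> field_simp

theorem scale_mem_W {p : Curve 1} (h : p ∈ W) : scale ζ hζ p ∈ W := by
  change 1 - (ζ ^ 2 * p.1.1) ^ 4 ∈ slitPlane
  have : (ζ ^ 2 * p.1.1) ^ 4 = p.1.1 ^ 4 := by linear_combination (-p.1.1 ^ 4) * hζ
  rw [this]; exact h

def NZ : Set (Curve 1) := scale ζ⁻¹ (hinv hζ) ⁻¹' N0

def eZ : Curve 1 := scale ζ hζ brPt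

def contrZ : Contraction (NZ hζ) (eZ hζ) where
  K z := scale ζ hζ (contrN.K (⟨scale ζ⁻¹ (hinv hζ) z.1.1, z.1.2⟩, z.2))
  cont := (continuous_scale _ _).comp (contrN.cont.comp (Continuous.prodMk
    (Continuous.subtype_mk ((continuous_scale _ _).comp (by fun_prop)) _) continuous_snd))
  zero p := by rw [contrN.zero]; rfl
  one p := by rw [contrN.one]; exact scale_scale_inv hζ _
  fix h v := by
    have h1 : brPt ∈ N0 := one_mem_Sec
    have : (⟨scale ζ⁻¹ (hinv hζ) (eZ hζ), h⟩ : N0) = ⟨brPt, h1⟩ :=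
      Subtype.ext (scale_inv_scale hζ _)
    change scale ζ hζ (contrN.K (⟨scale ζ⁻¹ (hinv hζ) (eZ hζ), h⟩, v)) = _
    rw [this, contrN.fix]; rfl

def etaZ : Path (origin 1) (eZ hζ) :=
  mapPath (continuous_scale ζ hζ) eta (scale_origin _ _) rfl

def etaZ' : Path (origin 1) (eZ hζ) :=
  mapPath ((continuous_scale ζ hζ).comp (continuous_scale (-1) hm1)) eta
    (by simp [scale_origin]) (by simp [eZ, scale, brPt])

omit hζ in
theorem origin_mem_W : origin 1 ∈ W := by simp [W, origin]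

theorem eZ_mem : eZ hζ ∈ NZ hζ := by
  change scale ζ⁻¹ (hinv hζ) (scale ζ hζ brPt) ∈ N0
  rw [scale_inv_scale]; exact one_mem_Sec

theorem overlap_aux (γ : Path (origin 1) (eZ hζ)) (h1 : ∀ v, v ≤ r0 → γ v ∈ W)
    (h2 : ∀ v, r0 ≤ v → γ v ∈ NZ hζ) (p : Curve 1) (hW : p ∈ W) (hN : p ∈ NZ hζ)
    (δ : Path p (γ r0)) (hδ : ∀ u, δ u ∈ W ∧ δ u ∈ NZ hζ) :
    ar (contrW.path p hW) ≫ inv (ar ((contrZ hζ).path p hN)) = ar γ := by
  obtain ⟨γ1, γ2, e, a1, a2⟩ := exists_split γ r0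
  have c1 := contrW.compat hW (h1 r0 le_rfl) δ (fun u => (hδ u).1)
  have c2 := (contrZ hζ).compat hN (h2 r0 le_rfl) δ (fun u => (hδ u).2)
  have c3 := contrW.compat origin_mem_W (h1 r0 le_rfl) γ1 (fun u => by
    obtain ⟨v, hv, e⟩ := a1 u; rw [e]; exact h1 v hv)
  have c4 := (contrZ hζ).compat (h2 r0 le_rfl) (eZ_mem hζ) γ2 (fun u => by
    obtain ⟨v, hv, e⟩ := a2 u; rw [e]; exact h2 v hv)
  rw [Contraction.ar_self, Category.id_comp] at c3
  rw [Contraction.ar_self] at c4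
  rw [← e, c3, ← c1, Category.assoc, IsIso.comp_inv_eq, Category.assoc, Category.assoc]
  have : ar δ ≫ ar γ2 ≫ ar ((contrZ hζ).path p hN) = 𝟙 _ := by
    rw [← cancel_epi (ar ((contrZ hζ).path p hN)), ← Category.assoc, c2, ← Category.assoc, c4]
    simp
  rw [this, Category.comp_id]

theorem overlap (p : Curve 1) (hW : p ∈ W) (hN : p ∈ NZ hζ) :
    ar (contrW.path p hW) ≫ inv (ar ((contrZ hζ).path p hN)) = ar (etaZ hζ) ∨
    ar (contrW.path p hW) ≫ inv (ar ((contrZ hζ).path p hN)) = ar (etaZ' hζ) := by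
  obtain ⟨q, hq, γ, hγ⟩ := join_ref _ (scale_mem_W (hinv hζ) hW) hN
  have hm : ∀ u, scale ζ hζ (γ u) ∈ W ∧ scale ζ hζ (γ u) ∈ NZ hζ := fun u =>
    ⟨scale_mem_W hζ (hγ u).1, by
      change scale ζ⁻¹ (hinv hζ) (scale ζ hζ (γ u)) ∈ N0
      rw [scale_inv_scale]; exact (hγ u).2⟩
  rcases hq with rfl | rfl
  · left
    refine overlap_aux hζ (etaZ hζ) (fun v hv => scale_mem_W hζ (eta_mem_W v hv))
      (fun v hv => ?_) p hW hN (mapPath (continuous_scale ζ hζ) γ (scale_scale_inv hζ p) rfl) hm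
    change scale ζ⁻¹ (hinv hζ) (scale ζ hζ (eta v)) ∈ N0
    rw [scale_inv_scale]; exact eta_mem_N0 v hv
  · right
    refine overlap_aux hζ (etaZ' hζ) (fun v hv => scale_mem_W hζ (scale_mem_W hm1 (eta_mem_W v hv)))
      (fun v hv => ?_) p hW hN (mapPath (continuous_scale ζ hζ) γ (scale_scale_inv hζ p) rfl) hm
    change scale ζ⁻¹ (hinv hζ) (scale ζ hζ (scale (-1) hm1 (eta v))) ∈ N0
    rw [scale_inv_scale]
    have : (eta v).1.1 ∈ Sec := eta_mem_N0 v hv
    change (-1) ^ 2 * (eta v).1.1 ∈ Sec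
    simpa using this

/-- The loop over the segment from `0` to `ζ^2`. -/
def loopZ : Path (origin 1) (origin 1) := (etaZ hζ).trans (etaZ' hζ).symm

end zeta

def om : ℂ := sq Complex.I

theorem om_sq : om ^ 2 = Complex.I := sq_sq _

theorem om_pow (j : ℕ) : (1 : ℂ) = (om ^ j) ^ 8 * 1 := by
  have : om ^ 8 = 1 := by
    rw [show 8 = 2 * 4 from rfl, pow_mul, om_sq, I_pow_four]
  rw [← pow_mul, mul_comm j, pow_mul, this]; simp

theorem mem_NZ_iff (j : ℕ) (p : Curve 1) :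
    p ∈ NZ (om_pow j) ↔ (-Complex.I) ^ j * p.1.1 ∈ Sec := by
  change (om ^ j)⁻¹ ^ 2 * p.1.1 ∈ Sec ↔ _
  rw [inv_pow, ← pow_mul, mul_comm j, pow_mul, om_sq, ← inv_pow, inv_I]

theorem NZ_disj (j j' : Fin 4) (p : Curve 1) (h : p ∈ NZ (om_pow j)) (h' : p ∈ NZ (om_pow j')) :
    j = j' := by
  rw [mem_NZ_iff] at h h'
  fin_cases j <;> fin_cases j' <;> simp [Sec, abs_lt, pow_succ] at h h' ⊢ <;>
    linarith [h.1, h.2, h'.1, h'.2]

theorem cover_W (p : Curve 1) (h : p ∉ W) : ∃ j : Fin 4, p ∈ NZ (om_pow j) := by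
  by_contra hc
  push Not at hc
  have h0 := hc 0
  have h1 := hc 1
  have h2 := hc 2
  have h3 := hc 3
  rw [mem_NZ_iff] at h0 h1 h2 h3
  simp [Sec, pow_succ] at h0 h1 h2 h3
  apply h
  left
  have hre : (1 - p.1.1 ^ 4).re =
      1 - (p.1.1.re ^ 4 - 6 * p.1.1.re ^ 2 * p.1.1.im ^ 2 + p.1.1.im ^ 4) := by
    simp [pow_succ]; ring
  have e : |p.1.1.re| = |p.1.1.im| := le_antisymm (abs_le.2 ⟨by linarith, h0⟩)
    (abs_le.2 ⟨by linarith, h1⟩)
  have e2 : p.1.1.re ^ 2 = p.1.1.im ^ 2 := by rw [← sq_abs, e, sq_abs]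
  rw [hre]
  have : p.1.1.re ^ 4 - 6 * p.1.1.re ^ 2 * p.1.1.im ^ 2 + p.1.1.im ^ 4 = -4 * p.1.1.im ^ 4 := by
    rw [show p.1.1.re ^ 4 = (p.1.1.re ^ 2) ^ 2 by ring, e2]; ring
  rw [this]
  have := pow_nonneg (sq_nonneg p.1.1.im) 2
  nlinarith

theorem closure_loops : Subgroup.closure (Set.range fun j : Fin 4 =>
    FundamentalGroup.fromArrow (ar (loopZ (om_pow j)))) = ⊤ := by
  classical
  set H := Subgroup.closure (Set.range fun j : Fin 4 =>
    FundamentalGroup.fromArrow (ar (loopZ (om_pow j))))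
  let bN : (j : Fin 4) → (p : Curve 1) → p ∈ NZ (om_pow j) →
      (FundamentalGroupoid.mk (origin 1) ⟶ FundamentalGroupoid.mk p) :=
    fun j p hp => ar (etaZ (om_pow j)) ≫ ar ((contrZ (om_pow j)).path p hp)
  let β : (p : Curve 1) → (FundamentalGroupoid.mk (origin 1) ⟶ FundamentalGroupoid.mk p) :=
    fun p => if h : p ∈ W then ar (contrW.path p h) else
      bN (cover_W p h).choose p (cover_W p h).choose_spec
  have hβ : ∀ (j : Fin 4) (p : Curve 1) (hp : p ∈ NZ (om_pow j)),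
      FundamentalGroup.fromArrow (β p ≫ inv (bN j p hp)) ∈ H := by
    intro j p hp
    by_cases h : p ∈ W
    · simp only [β, dif_pos h, bN, IsIso.inv_comp]
      rw [← Category.assoc]
      rcases overlap (om_pow j) p h hp with e | e
      · rw [e, IsIso.hom_inv_id]; exact H.one_mem
      · rw [e]
        have : FundamentalGroup.fromArrow (ar (loopZ (om_pow j))) ∈ H :=
          Subgroup.subset_closure ⟨j, rfl⟩
        have h2 := H.inv_mem this
        have e2 : (FundamentalGroup.fromArrow (ar (loopZ (om_pow j))))⁻¹ =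
            FundamentalGroup.fromArrow (ar (etaZ' (om_pow j)) ≫ inv (ar (etaZ (om_pow j)))) := by
          rw [inv_eq_iff_mul_eq_one]
          change (ar (etaZ' (om_pow j)) ≫ inv (ar (etaZ (om_pow j)))) ≫ ar (loopZ (om_pow j)) = 𝟙 _
          simp [loopZ, ar_trans, ar_symm]
        rw [← e2]; exact h2
    · have key : ∀ (j' : Fin 4) (hp' : p ∈ NZ (om_pow j')), bN j' p hp' = bN j p hp := by
        intro j' hp'
        have := NZ_disj j' j p hp' hp
        subst this; rfl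
      simp only [β, dif_neg h, key, IsIso.hom_inv_id]
      exact H.one_mem
  refine eq_top_of_local (origin 1) H β ?_ ?_
  · simp only [β, dif_pos origin_mem_W, Contraction.ar_self]
    exact H.one_mem
  · intro p
    by_cases h : p ∈ W
    · refine ⟨W, isOpen_W.mem_nhds h, fun q r η hη => ?_⟩
      have hq : q ∈ W := by simpa using hη 0
      have hr : r ∈ W := by simpa using hη 1
      simp only [β, dif_pos hq, dif_pos hr]
      rw [← Category.assoc, contrW.compat hq hr η hη, IsIso.hom_inv_id]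
      exact H.one_mem
    · obtain ⟨j, hj⟩ := cover_W p h
      refine ⟨NZ (om_pow j), (isOpen_N0.preimage (continuous_scale _ _)).mem_nhds hj,
        fun q r η hη => ?_⟩
      have hq : q ∈ NZ (om_pow j) := by simpa using hη 0
      have hr : r ∈ NZ (om_pow j) := by simpa using hη 1
      have e : FundamentalGroup.fromArrow (β q ≫ ar η ≫ inv (β r)) =
          (FundamentalGroup.fromArrow (β r ≫ inv (bN j r hr)))⁻¹ *
            FundamentalGroup.fromArrow (β q ≫ inv (bN j q hq)) := by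
        rw [eq_inv_mul_iff_mul_eq]
        change (β q ≫ ar η ≫ inv (β r)) ≫ (β r ≫ inv (bN j r hr)) = β q ≫ inv (bN j q hq)
        simp only [Category.assoc, IsIso.inv_hom_id_assoc, bN]
        rw [← (contrZ (om_pow j)).compat hq hr η hη]
        simp
      rw [e]
      exact H.mul_mem (H.inv_mem (hβ j r hr)) (hβ j q hq)

end

end Pool.Agent.Lib.MP_5591bc_ag
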