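import Pool.Agent.Lib.MP_5591bc_ag.Prim

/-! Abstract criterion for a subgroup to be the whole fundamental group. -/

namespace Pool.Agent.Lib.MP_5591bc_ag

open unitInterval Topology Filter CategoryTheory

noncomputable section

variable {X : Type} [TopologicalSpace X]

/-- The arrow of the fundamental groupoid defined by a path. -/
def ar {a b : X} (γ : Path a b) : FundamentalGroupoid.mk a ⟶ FundamentalGroupoid.mk b :=
  Path.Homotopic.Quotient.mk γ

theorem ar_trans {a b c : X} (γ : Path a b) (γ' : Path b c) :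
    ar (γ.trans γ') = ar γ ≫ ar γ' := rfl

theorem ar_refl (a : X) : ar (Path.refl a) = 𝟙 _ := rfl

theorem ar_symm {a b : X} (γ : Path a b) : ar γ.symm = inv (ar γ) := by
  rw [← Groupoid.inv_eq_inv]; rfl

theorem ar_eq {a b : X} {γ γ' : Path a b} (h : γ.Homotopic γ') : ar γ = ar γ' :=
  Path.Homotopic.Quotient.eq.2 h

theorem ar_const {a : X} (γ : Path a a) (h : ∀ u, γ u = a) : ar γ = 𝟙 _ := by
  have : γ = Path.refl a := by ext u; exact h u
  rw [this]; rfl

theorem homotopic_of_lift {Y : Type} [TopologicalSpace Y] [SimplyConnectedSpace Y] {Φ : Y → X}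
    (hΦ : Continuous Φ) {a b : X} (γ γ' : Path a b) {c d : Y} (φ φ' : Path c d)
    (h : ∀ u, γ u = Φ (φ u)) (h' : ∀ u, γ' u = Φ (φ' u)) : γ.Homotopic γ' := by
  obtain ⟨H⟩ := SimplyConnectedSpace.paths_homotopic φ φ'
  have ha : a = Φ c := by simpa using h 0
  have hb : b = Φ d := by simpa using h 1
  refine ⟨⟨⟨⟨fun x => Φ (H x), by fun_prop⟩, fun u => ?_, fun u => ?_⟩, fun t u hu => ?_⟩⟩
  · simp [h]
  · simp [h']
  · rcases hu with rfl | rfl
    · simp [ha]
    · simp [hb]

theorem trans_lift {Y : Type} [TopologicalSpace Y] {Φ : Y → X} {a b c : X} {a' b' c' : Y}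
    (γ : Path a b) (γ' : Path b c) (φ : Path a' b') (φ' : Path b' c')
    (h : ∀ u, γ u = Φ (φ u)) (h' : ∀ u, γ' u = Φ (φ' u)) (u : I) :
    γ.trans γ' u = Φ (φ.trans φ' u) := by
  simp only [Path.trans_apply]
  split_ifs
  · exact h _
  · exact h' _

/-- Image of a path with prescribed end points. -/
def mapPath {Y : Type} [TopologicalSpace Y] {f : Y → X} (hf : Continuous f) {a b : Y}
    (γ : Path a b) {a' b' : X} (ha : f a = a') (hb : f b = b') : Path a' b' :=
  (γ.map hf).cast ha.symm hb.symm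

@[simp] theorem mapPath_apply {Y : Type} [TopologicalSpace Y] {f : Y → X} (hf : Continuous f)
    {a b : Y} (γ : Path a b) {a' b' : X} (ha : f a = a') (hb : f b = b') (u : I) :
    mapPath hf γ ha hb u = f (γ u) := rfl

/-- A contraction of `N` to the point `e` inside `X`. -/
structure Contraction (N : Set X) (e : X) where
  K : N × I → X
  cont : Continuous K
  zero : ∀ p, K (p, 0) = e
  one : ∀ p, K (p, 1) = p
  fix : ∀ (h : e ∈ N) v, K (⟨e, h⟩, v) = e

def Contraction.path {N : Set X} {e : X} (C : Contraction N e) (p : X) (hp : p ∈ N) :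
    Path e p where
  toFun v := C.K (⟨p, hp⟩, v)
  continuous_toFun := C.cont.comp (by fun_prop)
  source' := C.zero _
  target' := C.one _

theorem Contraction.ar_self {N : Set X} {e : X} (C : Contraction N e) (h : e ∈ N) :
    ar (C.path e h) = 𝟙 _ := ar_const _ (C.fix h)

theorem Contraction.compat {N : Set X} {e : X} (C : Contraction N e) {q r : X} (hq : q ∈ N)
    (hr : r ∈ N) (η : Path q r) (hη : ∀ u, η u ∈ N) :
    ar (C.path q hq) ≫ ar η = ar (C.path r hr) := by
  let Φ : I × I → X := fun x => C.K (⟨η x.1, hη _⟩, x.2)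
  have hΦ : Continuous Φ := C.cont.comp (by fun_prop)
  let l : Path ((0, 0) : I × I) (0, 1) := ⟨⟨fun v => (0, v), by fun_prop⟩, rfl, rfl⟩
  let t : Path ((0, 1) : I × I) (1, 1) := ⟨⟨fun v => (v, 1), by fun_prop⟩, rfl, rfl⟩
  let b : Path ((0, 0) : I × I) (1, 0) := ⟨⟨fun v => (v, 0), by fun_prop⟩, rfl, rfl⟩
  let s : Path ((1, 0) : I × I) (1, 1) := ⟨⟨fun v => (1, v), by fun_prop⟩, rfl, rfl⟩
  have := homotopic_of_lift hΦ ((C.path q hq).trans η) ((Path.refl e).trans (C.path r hr))
    (l.trans t) (b.trans s) (trans_lift _ _ _ _ (fun u => ?_) (fun u => ?_))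
    (trans_lift _ _ _ _ (fun u => ?_) (fun u => ?_))
  · have h2 := ar_eq this
    rw [ar_trans, ar_trans, ar_refl, Category.id_comp] at h2
    exact h2
  · change C.K (⟨q, hq⟩, u) = C.K (⟨η 0, hη _⟩, u)
    simp
  · exact (C.one ⟨η u, hη _⟩).symm
  · exact (C.zero ⟨η u, hη _⟩).symm
  · change C.K (⟨r, hr⟩, u) = C.K (⟨η 1, hη _⟩, u)
    simp

/-- The part of a path between two parameters. -/
def subPath {a b : X} (γ : Path a b) (x y : ℝ) : Path (γ.extend x) (γ.extend y) :=
  (Path.segment x y).map γ.continuous_extend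

theorem ar_subPath {a b : X} (γ : Path a b) (x y z : ℝ) :
    ar (subPath γ x y) ≫ ar (subPath γ y z) = ar (subPath γ x z) := by
  rw [← ar_trans]
  exact ar_eq (homotopic_of_lift γ.continuous_extend _ _
    ((Path.segment x y).trans (Path.segment y z)) (Path.segment x z)
    (trans_lift _ _ _ _ (fun _ => rfl) (fun _ => rfl)) (fun _ => rfl))

theorem subPath_zero_one {a b : X} (γ : Path a b) (u : I) : subPath γ 0 1 u = γ u := by
  simp [subPath, AffineMap.lineMap_apply]

/-- Splitting a path at an intermediate parameter. -/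
theorem exists_split {a b : X} (γ : Path a b) (r : I) : ∃ (γ1 : Path a (γ r)) (γ2 : Path (γ r) b),
    ar γ1 ≫ ar γ2 = ar γ ∧ (∀ u, ∃ v : I, v ≤ r ∧ γ1 u = γ v) ∧
      (∀ u, ∃ v : I, r ≤ v ∧ γ2 u = γ v) := by
  let φ1 : Path (0 : I) r := ⟨⟨fun u => u * r, by fun_prop⟩, by simp, by simp⟩
  let φ2 : Path r (1 : I) := ⟨⟨fun u => σ (σ u * σ r), by fun_prop⟩, by simp, by simp⟩
  let φ : Path (0 : I) 1 := ⟨⟨fun u => u, by fun_prop⟩, rfl, rfl⟩
  refine ⟨mapPath γ.continuous φ1 γ.source rfl, mapPath γ.continuous φ2 rfl γ.target, ?_, ?_, ?_⟩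
  · rw [← ar_trans]
    exact ar_eq (homotopic_of_lift γ.continuous _ _ (φ1.trans φ2) φ
      (trans_lift _ _ _ _ (fun _ => rfl) (fun _ => rfl)) (fun _ => rfl))
  · exact fun u => ⟨u * r, unitInterval.mul_le_right, rfl⟩
  · refine fun u => ⟨σ (σ u * σ r), ?_, rfl⟩
    rw [unitInterval.le_symm_comm]
    exact unitInterval.mul_le_right

theorem eq_top_of_local (o : X) (H : Subgroup (FundamentalGroup X o))
    (β : (p : X) → (FundamentalGroupoid.mk o ⟶ FundamentalGroupoid.mk p))
    (h0 : FundamentalGroup.fromArrow (β o) ∈ H)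
    (hloc : ∀ p, ∃ N ∈ 𝓝 p, ∀ (q r : X) (η : Path q r), (∀ u, η u ∈ N) →
      FundamentalGroup.fromArrow (β q ≫ ar η ≫ inv (β r)) ∈ H) : H = ⊤ := by
  rw [eq_top_iff]
  rintro ⟨γ⟩ -
  let c : {q r : X} → Path q r → FundamentalGroup X o := fun {q r} η => β q ≫ ar η ≫ inv (β r)
  have hc : ∀ {q r q' r' : X} (η : Path q r) (η' : Path q' r'), (∀ u, η u = η' u) →
      c η = c η' := by
    intro q r q' r' η η' h
    have hq : q = q' := by simpa using h 0
    have hr : r = r' := by simpa using h 1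
    subst hq hr
    have : η = η' := by ext u; exact h u
    rw [this]
  have hmul : ∀ x y : ℝ, c (subPath γ 0 y) = c (subPath γ x y) * c (subPath γ 0 x) := by
    intro x y
    change _ = c (subPath γ 0 x) ≫ c (subPath γ x y)
    simp only [c, Category.assoc, IsIso.inv_hom_id_assoc]
    rw [← ar_subPath γ 0 x y, Category.assoc]
  have hl : ∀ x : ℝ, ∀ᶠ y in 𝓝 x, c (subPath γ x y) ∈ H := by
    intro x
    obtain ⟨N, hN, hN2⟩ := hloc (γ.extend x)
    obtain ⟨ε, hε, hball⟩ := Metric.mem_nhds_iff.1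
      (γ.continuous_extend.continuousAt.preimage_mem_nhds hN)
    filter_upwards [Metric.ball_mem_nhds x hε] with y hy
    refine hN2 _ _ _ (fun u => hball ?_)
    apply (convex_ball x ε).segment_subset (Metric.mem_ball_self hε) hy
    rw [← Path.range_segment]
    exact ⟨u, rfl⟩
  have hlc : IsLocallyConstant (fun x : ℝ => c (subPath γ 0 x) ∈ H) := by
    rw [IsLocallyConstant.iff_eventually_eq]
    intro x
    filter_upwards [hl x] with y hy
    rw [hmul x y]
    exact propext (H.mul_mem_cancel_left hy)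
  have h1 : c (subPath γ 0 1) ∈ H := by
    have := hlc.apply_eq_of_preconnectedSpace 0 1
    exact this ▸ (hl 0).self_of_nhds
  rw [hc _ γ (subPath_zero_one γ)] at h1
  have e : FundamentalGroup.fromArrow (ar γ) = FundamentalGroup.fromArrow (β o) * c γ *
      (FundamentalGroup.fromArrow (β o))⁻¹ := by
    rw [eq_mul_inv_iff_mul_eq]
    change β o ≫ ar γ = c γ ≫ β o
    simp [c]
  change FundamentalGroup.fromArrow (ar γ) ∈ H
  rw [e]
  exact H.mul_mem (H.mul_mem h0 h1) (H.inv_mem h0)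

end

end Pool.Agent.Lib.MP_5591bc_ag
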