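import Pool.Agent.Lib.MP_5591bc_ag.Main

namespace Pool.Agent.Lib.MP_5591bc_ag.GenusTwoOld

open Pool.Agent.Lib.MP_5591bc_ag

/-- For the family of genus two curves `y^2 = x^5 - t x` over `t ≠ 0` and `j = 1`: period matrices
exist, the Mumford-Tate group is locally constant (empty Hodge locus), and at every algebraic `s`
the closure of `P(s)` is strictly smaller than the fibre `B_{P,s}`. -/
theorem result (s : ℂ) (hs : s ≠ 0) (halg : IsAlgebraic ℚ s) :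
    (∃ (U : Set ℂ) (hU : s ∈ U) (Γ : Fin 4 → (t : U) → Path (origin t) (origin t))
      (P : U → Matrix (Fin 4) (Fin 4) ℂ), IsPeriodMatrix U ⟨s, hU⟩ Γ P) ∧
    ∀ (U : Set ℂ) (hU : s ∈ U) (Γ : Fin 4 → (t : U) → Path (origin t) (origin t))
      (P : U → Matrix (Fin 4) (Fin 4) ℂ), IsPeriodMatrix U ⟨s, hU⟩ Γ P →
      (∀ t : U, (P t).det ≠ 0 ∧ mumfordTate (P t) = mumfordTate (P ⟨s, hU⟩)) ∧
      {g : Matrix (Fin 4) (Fin 4) ℂ | g.det ≠ 0 ∧
        coords g ∈ zariskiClosure (algebraicClosure ℚ ℂ) {coords (P ⟨s, hU⟩)}} ⊂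
      {g : Matrix (Fin 4) (Fin 4) ℂ | g.det ≠ 0 ∧ coords' s g ∈
        zariskiClosure (algebraicClosure ℚ ℂ) (Set.range fun t : U => coords' t (P t))} :=
  ⟨exists_data hs, fun _ _ _ _ hP => ⟨hP.hodge, hP.strict halg⟩⟩

end Pool.Agent.Lib.MP_5591bc_ag.GenusTwoOld
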