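import Pool.Agent.Lib.MP_5591bc_ag.F.Main

namespace Pool.Agent.Lib.MP_5591bc_ag.HyperellipticOld

open Polynomial Pool.Agent.Lib.MP_5591bc_ag.M Pool.Agent.Lib.MP_5591bc_ag.F

/-- Period matrices of the curves `y^2 = f(x)(x - t_1)...(x - t_k)` of genus `g`, `f` squarefree
over a number field: the points of height at most `H` failing the degree `δ` property over a field
of degree at most `d` lie on one hypersurface of degree at most
`(C (δ+1) d log H)^(C (δ+1)^(4 g^2))`. -/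
theorem result (K : Type) [Field K] [NumberField K] [Algebra K ℂ] (f : K[X]) (hf : Squarefree f)
    (k g : ℕ) (hg : f.natDegree + k = 2 * g + 1) : ∃ C : ℕ, ∀ (δ : ℕ) (U : Set (Fin k → ℂ))
    (P : (Fin k → ℂ) → Matrix (Fin (2 * g)) (Fin (2 * g)) ℂ), IsOpen U → Convex ℝ U →
      IsPerM (fun t z => aeval z f * ∏ l, (z - t l)) U P →
      ∀ (d : ℕ) (H : ℝ), 2 ≤ H → ∃ Q : MvPolynomial (Fin k) ℂ, Q ≠ 0 ∧
        (Q.totalDegree : ℝ) ≤ (C * (δ + 1) * d * Real.log H) ^ (C * (δ + 1) ^ (2 * g) ^ 2) ∧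
        ∀ t ∈ U, (∀ j, ∃ q : ℤ[X], q ≠ 0 ∧ (∀ i, |(q.coeff i : ℝ)| ≤ H) ∧ aeval (t j) q = 0) →
          ∀ (E : IntermediateField K ℂ) (x : Fin k → E), (∀ j, (x j : ℂ) = t j) →
            FiniteDimensional ℚ E → Module.finrank ℚ E ≤ d → ¬ GoodV U P δ x →
              MvPolynomial.eval t Q = 0 :=
  hyp_fam hf (by rw [Fintype.card_fin, hg])

end Pool.Agent.Lib.MP_5591bc_ag.HyperellipticOld
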