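import Pool.Agent.Lib.MP_5591bc_ag.Z.Fin

namespace Pool.Agent.Lib.MP_5591bc_ag.HypersurfaceOld

open MvPolynomial Pool.Agent.Lib.MP_5591bc_ag.M Pool.Agent.Lib.MP_5591bc_ag.N
  Pool.Agent.Lib.MP_5591bc_ag.Z

/-- Fundamental matrices of a system `T ∂_l P = B l * P` in `k` variables over a number field,
satisfying Galochkin's condition, with two constant matrices: `P * C1` parametrises a variety
finite over the space of the variables and `P * C0` is the matrix of periods. All points of height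
at most `H` at which some branch fails the degree `δ` property over a field of degree at most `d`
lie on one hypersurface of degree at most `r (C (δ+1) d log H)^(C (δ+1)^(n^2))`. -/
theorem result (K : Type) [Field K] [NumberField K] [Algebra K ℂ] (k n : ℕ)
    (T : MvPolynomial (Fin k) K) (hT : T ≠ 0)
    (B : Fin k → Matrix (Fin n) (Fin n) (MvPolynomial (Fin k) K)) (h : GalM T B) :
    ∃ C : ℕ, ∀ (δ r : ℕ) (U : Set (Fin k → ℂ)) (P : (Fin k → ℂ) → Matrix (Fin n) (Fin n) ℂ)
      (C1 C0 : Matrix (Fin n) (Fin n) ℂ), IsOpen U → IsPreconnected U → FundM T B U P →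
      (ConnRM U P fun t => P t * C1) → FinMon K U P C1 C0 r →
      ∀ (d : ℕ) (H : ℝ), 2 ≤ H → ∃ Q : MvPolynomial (Fin k) ℂ, Q ≠ 0 ∧
        (Q.totalDegree : ℝ) ≤ r * (C * (δ + 1) * d * Real.log H) ^ (C * (δ + 1) ^ n ^ 2) ∧
        ∀ U' P', ContM U P U' P' → ∀ t ∈ U',
          (∀ j, ∃ q : Polynomial ℤ, q ≠ 0 ∧ (∀ i, |(q.coeff i : ℝ)| ≤ H) ∧
            Polynomial.aeval (t j) q = 0) →
          ∀ (E : IntermediateField K ℂ) (x : Fin k → E) (z : Matrix (Fin n) (Fin n) E),
            (∀ j, (x j : ℂ) = t j) → (∀ i j, (z i j : ℂ) = (P' t * C1) i j) →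
            FiniteDimensional ℚ E → Module.finrank ℚ E ≤ d → ¬ GoodRM U' P' C1 C0 δ x z →
              eval t Q = 0 :=
  hypZ hT h

end Pool.Agent.Lib.MP_5591bc_ag.HypersurfaceOld
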