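import Pool.Agent.Lib.MP_5591bc_ag.V.Rat

namespace Pool.Agent.Lib.MP_5591bc_ag.LargeRationalsOld

open Pool.Agent.Lib.MP_5591bc_ag.G Pool.Agent.Lib.MP_5591bc_ag.R

/-- Periods of `y^2 = f(x)(x - t)`, `f` squarefree of degree `2 g`, over loops whose `x`-coordinate
does not depend on `t`: for every `η > 0` the degree `δ` property holds at all but finitely many
rational `t` with `|num t|^η ≤ t`, in particular at all but finitely many natural numbers. -/
theorem result (f : Polynomial ℚ) (g : ℕ) (hg : 0 < g) (hf : f.natDegree = 2 * g)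
    (hq : Squarefree f) (R : ℝ) (m r δ : ℕ) (x : Fin m → ℝ → ℂ) (y : Fin m → ℂ → ℝ → ℂ)
    (h : ∀ a, IsLoop f {t | R < t.re} (x a) (y a))
    (ℓ : Fin r → Matrix (Fin (2 * g)) (Fin m) ℂ →ₗ[ℂ] ℂ) (η : ℝ) (hη : 0 < η) :
    {t : ℚ | (t.num.natAbs : ℝ) ^ η ≤ t ∧
      ¬ GoodK {t | R < t.re} (fun t b => ℓ b (Matrix.of fun i a =>
        ∫ u in (0 : ℝ)..1, x a u ^ (i : ℕ) * deriv (x a) u / y a t u)) δ t}.Finite :=
  Pool.Agent.Lib.MP_5591bc_ag.V.rat_fam (by omega) (even_two_mul g) hf hq R x y h ℓ δ hη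

end Pool.Agent.Lib.MP_5591bc_ag.LargeRationalsOld
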