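import Pool.Agent.Lib.MP_5591bc_ag.C.MainU

namespace Pool.Agent.Lib.MP_5591bc_ag.LogCountOld

open Polynomial Pool.Agent.Lib.MP_5591bc_ag.R Pool.Agent.Lib.MP_5591bc_ag.C

/-- Fundamental matrices `P` of a system `T P' = B P` over `K(t)`, `K` a number field, satisfying
Galochkin's condition. The entries of `P * C1` are coordinates on a curve over the `t`-line, over
which the differential Galois group is connected, and `P * C0` are the periods. Among the
algebraic points of degree at most `d` and height at most `H`, at most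
`(C (δ+1) d log H)^(C (δ+1)^(n^2))` fail the degree `δ` property over some field of degree at most
`d`, with `C` depending on the system only. -/
theorem result (K : Type) [Field K] [NumberField K] [Algebra K ℂ] (n : ℕ) (T : K[X]) (hT : T ≠ 0)
    (B : Matrix (Fin n) (Fin n) K[X]) (h : GalK T B) : ∃ C : ℕ, ∀ (δ : ℕ)
    (U : Set ℂ) (P : ℂ → Matrix (Fin n) (Fin n) ℂ) (C1 C0 : Matrix (Fin n) (Fin n) ℂ), IsOpen U →
      Convex ℝ U → FundK T B U P → (ConnR U P fun t => P t * C1) →
      ∀ (d : ℕ) (H : ℝ), 2 ≤ H → ∀ S : Set ℂ, S = {t ∈ U |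
        (∃ q : ℤ[X], q ≠ 0 ∧ q.natDegree ≤ d ∧ (∀ i, |(q.coeff i : ℝ)| ≤ H) ∧ aeval t q = 0) ∧
        ∃ (E : IntermediateField K ℂ) (ht : t ∈ E) (z : Matrix (Fin n) (Fin n) E),
          FiniteDimensional ℚ E ∧ Module.finrank ℚ E ≤ d ∧ z.map (algebraMap E ℂ) = P t * C1 ∧
          ¬ GoodR U P C1 C0 δ (⟨t, ht⟩ : E) z} →
        S.Finite ∧ (S.ncard : ℝ) ≤ (C * (δ + 1) * d * Real.log H) ^ (C * (δ + 1) ^ n ^ 2) :=
  countRU hT h

end Pool.Agent.Lib.MP_5591bc_ag.LogCountOld
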