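import Mathlib

/-! Bordered minors, greedy choice of derived vectors, generalized Wronskians. -/

namespace Pool.Agent.Lib.MP_5591bc_ag.R

open Matrix

noncomputable section

section bord
variable {R J : Type*} [CommRing R] {r : ℕ}

/-- a minor of a family of vectors -/
def mnr (v : Fin r → J → R) (I : Fin r → J) : R := (of fun l k => v l (I k)).det

/-- a bordered minor -/
def bord (v : Fin r → J → R) (I : Fin r → J) (u : J → R) (β : J) : R :=
  mnr (Fin.cons u v : Fin (r + 1) → J → R) (Fin.cons β I)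

variable (v : Fin r → J → R) (I : Fin r → J)

theorem bord_row (u : J → R) (β : J) : bord v I u β = ∑ k : Fin (r + 1), (-1) ^ (k : ℕ) *
    u ((Fin.cons β I : Fin (r + 1) → J) k) *
      mnr v fun l => (Fin.cons β I : Fin (r + 1) → J) (k.succAbove l) := by
  rw [bord, mnr, det_succ_row_zero]
  rfl

theorem bord_col (u : J → R) :
    ∃ c : Fin r → R, ∀ β, bord v I u β = mnr v I * u β + ∑ l, c l * v l β := by
  refine ⟨fun l => (-1) ^ ((l.succ : Fin (r + 1)) : ℕ) * mnr (fun k =>
    (Fin.cons u v : Fin (r + 1) → J → R) (l.succ.succAbove k)) I, fun β => ?_⟩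
  rw [bord, mnr, det_succ_column_zero, Fin.sum_univ_succ]
  congr 1
  · simp only [Fin.val_zero, pow_zero, one_mul, of_apply, Fin.cons_zero, mul_comm (u β)]
    rfl
  · refine Finset.sum_congr rfl fun l _ => ?_
    rw [mul_right_comm]
    rfl

theorem bord_self (l : Fin r) (β : J) : bord v I (v l) β = 0 :=
  det_zero_of_row_eq (Fin.succ_ne_zero l).symm rfl

theorem bord_lin (β : J) : IsLinearMap R fun u => bord v I u β :=
  ⟨fun x y => by simp only [bord_row, Pi.add_apply, mul_add, add_mul, Finset.sum_add_distrib],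
    fun c x => by
      simp only [bord_row, Pi.smul_apply, smul_eq_mul, Finset.mul_sum]
      exact Finset.sum_congr rfl fun k _ => by ring⟩

/-- the linear form given by a bordered minor -/
def lam [DecidableEq J] (β : J) : J → R := fun γ => bord v I (Pi.single γ 1) β

theorem bord_eq [Fintype J] [DecidableEq J] (u : J → R) (β : J) :
    bord v I u β = lam v I β ⬝ᵥ u := by
  have := map_sum ((bord_lin v I β).mk' _) (fun γ => u γ • (Pi.single γ 1 : J → R)) Finset.univ
  rw [← pi_eq_sum_univ'] at this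
  simp only [map_smul, IsLinearMap.mk'_apply, smul_eq_mul] at this
  rw [this]
  exact Finset.sum_congr rfl fun γ _ => mul_comm _ _

theorem map_mnr {S : Type*} [CommRing S] (τ : R →+* S) :
    τ (mnr v I) = mnr (fun l j => τ (v l j)) I := by
  rw [mnr, RingHom.map_det]
  rfl

theorem map_bord {S : Type*} [CommRing S] (τ : R →+* S) (u : J → R) (β : J) :
    τ (bord v I u β) = bord (fun l j => τ (v l j)) I (fun j => τ (u j)) β := by
  rw [bord, map_mnr, bord]
  congr 1
  funext l
  refine Fin.cases rfl (fun _ => rfl) l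

variable {v I}

theorem mnr_inj (h : mnr v I ≠ 0) : Function.Injective I := fun k k' e => by
  by_contra hk
  exact h (det_zero_of_column_eq hk fun l => by simp [e])

theorem greedy [Nontrivial R] [Fintype J] (Gen : ℕ → (J → R) → Prop) :
    ∃ r ≤ Fintype.card J, ∃ (v : Fin r → J → R) (I : Fin r → J), (∀ l, Gen l.rev (v l)) ∧
      mnr v I ≠ 0 ∧ ∀ u, Gen r u → ∀ β, bord v I u β = 0 := by
  classical
  let P : ℕ → Prop := fun r => ∃ (v : Fin r → J → R) (I : Fin r → J), (∀ l, Gen l.rev (v l)) ∧
    mnr v I ≠ 0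
  have hP : ∀ r, P r → r ≤ Fintype.card J := fun r ⟨v, I, _, h⟩ => by
    simpa using Fintype.card_le_of_injective I (mnr_inj h)
  have h0 : P 0 := ⟨Fin.elim0, Fin.elim0, fun l => l.elim0, by simp [mnr]⟩
  have h1 := Nat.findGreatest_spec (Nat.zero_le (Fintype.card J)) h0
  obtain ⟨v, I, a1, a2⟩ := id h1
  refine ⟨_, hP _ h1, v, I, a1, a2, fun u hu β => by_contra fun h => ?_⟩
  have h2 : P (Nat.findGreatest P (Fintype.card J) + 1) := ⟨_, _, fun l => by
    refine Fin.cases ?_ (fun l => ?_) l
    · simpa using hu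
    · simpa [Fin.rev_succ] using a1 l, h⟩
  exact Nat.findGreatest_is_greatest (Nat.lt_succ_self _) (hP _ h2) h2

theorem sat_eq {u : J → R} (h : ∀ β, bord v I u β = 0) :
    ∃ c : Fin r → R, mnr v I • u = ∑ l, c l • v l := by
  obtain ⟨c, hc⟩ := bord_col v I u
  refine ⟨fun l => -c l, funext fun β => ?_⟩
  have := hc β
  rw [h, eq_comm, add_eq_zero_iff_eq_neg] at this
  simp [this, Finset.sum_apply]

theorem sat_closed [NoZeroDivisors R] (h0 : mnr v I ≠ 0) (D : (J → R) →+ J → R) (δ : R → R)
    (hD : ∀ (a : R) u, D (a • u) = a • D u + δ a • u) (hv : ∀ l β, bord v I (D (v l)) β = 0)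
    {u : J → R} (h : ∀ β, bord v I u β = 0) (β : J) : bord v I (D u) β = 0 := by
  obtain ⟨c, hc⟩ := sat_eq h
  have := congrArg (fun z => (bord_lin v I β).mk' _ (D z)) hc
  simp only [map_sum, hD, map_add, map_smul, IsLinearMap.mk'_apply, hv, h, bord_self, mul_zero,
    add_zero, Finset.sum_const_zero, smul_eq_mul] at this
  exact (mul_eq_zero.1 this).resolve_left h0

end bord

section dual
open MvPowerSeries
variable {σ J : Type*} [Fintype J]

theorem fs_ind {Q : (σ →₀ ℕ) → Prop} (h0 : Q 0) (h : ∀ ν i, Q ν → Q (ν + Finsupp.single i 1))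
    (ν : σ →₀ ℕ) : Q ν := by
  induction ν using Finsupp.induction with
  | zero => exact h0
  | single_add a b f _ _ ih =>
    clear * - ih h
    induction b with
    | zero => simpa using ih
    | succ b ih2 =>
      have := h _ a ih2
      rwa [add_right_comm, ← Finsupp.single_add] at this

/-- coordinatewise partial derivative -/
def pd (i : σ) (y : J → MvPowerSeries σ ℚ) : J → MvPowerSeries σ ℚ := fun j => pderiv ℚ i (y j)

theorem pd_dot (i : σ) (y z : J → MvPowerSeries σ ℚ) :
    pderiv ℚ i (y ⬝ᵥ z) = y ⬝ᵥ pd i z + pd i y ⬝ᵥ z := by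
  simp only [dotProduct, map_sum, Derivation.leibniz, smul_eq_mul, pd, Finset.sum_add_distrib,
    mul_comm (z _)]

theorem dual {B : Set (J → MvPowerSeries σ ℚ)} (hB : ∀ z ∈ B, ∀ i, pd i z ∈ B) (ν μ : σ →₀ ℕ) :
    ∀ y, (∀ z ∈ B, y ⬝ᵥ z = 0) → ∀ z ∈ B, ∑ j, coeff ν (y j) * coeff μ (z j) = 0 := by
  induction ν using fs_ind with
  | h0 =>
    intro y hy
    induction μ using fs_ind with
    | h0 => exact fun z hz => by simpa [dotProduct] using congrArg constantCoeff (hy z hz)
    | h μ i ih =>
      intro z hz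
      have := ih _ (hB z hz i)
      simp only [pd, coeff_pderiv, ← mul_assoc, ← Finset.sum_mul] at this
      exact (mul_eq_zero.1 this).resolve_right (by positivity)
  | h ν i ih =>
    intro y hy z hz
    have := ih (pd i y) (fun z hz => by
      have := pd_dot i y z
      rwa [hy z hz, hy _ (hB z hz i), map_zero, zero_add, eq_comm] at this) z hz
    simp only [pd, coeff_pderiv, mul_right_comm _ _ (coeff μ _), ← Finset.sum_mul] at this
    exact (mul_eq_zero.1 this).resolve_right (by positivity)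

/-- generalized Wronskians -/
theorem wron {r : ℕ} {φ : Fin r → MvPolynomial σ ℚ} (hφ : LinearIndependent ℚ φ)
    (Gen : ℕ → (Fin r → MvPolynomial σ ℚ) → Prop) (h0 : Gen 0 φ)
    (mono : ∀ k k' v, k ≤ k' → Gen k v → Gen k' v)
    (step : ∀ k v i, Gen k v → (fun j => MvPolynomial.pderiv i (v j)) = 0 ∨
      Gen (k + 1) fun j => MvPolynomial.pderiv i (v j)) :
    ∃ v : Fin r → Fin r → MvPolynomial σ ℚ, (∀ l, Gen l.rev (v l)) ∧ (of v).det ≠ 0 := by
  classical
  obtain ⟨s, hs, v, I, a1, a2, a3⟩ := greedy Gen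
  rw [Fintype.card_fin] at hs
  rcases hs.eq_or_lt with rfl | hs
  · refine ⟨v, a1, fun h => a2 ?_⟩
    have := det_permute' (Equiv.ofBijective I (mnr_inj a2).bijective_of_finite) (of v)
    rw [h, mul_zero] at this
    exact this
  exfalso
  obtain ⟨β, hβ⟩ : ∃ β, β ∉ Set.range I := by
    by_contra h
    have := Fintype.card_le_of_surjective I fun b => by_contra fun e => h ⟨b, e⟩
    simp only [Fintype.card_fin] at this
    omega
  let τ := MvPolynomial.coeToMvPowerSeries.ringHom (σ := σ) (R := ℚ)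
  have τi : Function.Injective τ := MvPolynomial.coe_injective σ ℚ
  let B : Set (Fin r → MvPowerSeries σ ℚ) := {z | ∀ β, bord (fun l j => τ (v l j)) I z β = 0}
  have hB : ∀ z ∈ B, ∀ i, pd i z ∈ B := fun z hz i => by
    refine sat_closed (by rw [← map_mnr]; exact (map_ne_zero_iff τ τi).2 a2)
      ⟨⟨pd i, by ext1; simp [pd]⟩, fun x y => by ext1; simp [pd]⟩ (pderiv ℚ i)
      (fun a u => by ext1 j; simp [pd, mul_comm]) (fun l β => ?_) hz
    have e : pd i (fun j => τ (v l j)) = fun j => τ (MvPolynomial.pderiv i (v l j)) :=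
      funext fun j => pderiv_coe _
    change bord _ _ (pd i _) _ = _
    rw [e, ← map_bord]
    rcases step _ _ i (a1 l) with h | h
    · rw [h, (bord_lin v I β).map_zero, map_zero]
    · rw [a3 _ (mono _ _ _ l.rev.2 h), map_zero]
  have h1 : ∀ ν j, coeff ν (lam (fun l j => τ (v l j)) I β j) = 0 := fun ν => by
    refine Fintype.linearIndependent_iff.1 hφ _ (MvPolynomial.ext _ _ fun μ => ?_)
    have := dual hB ν μ (lam (fun l j => τ (v l j)) I β) (fun z hz => by rw [← bord_eq, hz])
      (fun j => τ (φ j)) fun β => by rw [← map_bord, a3 _ (mono _ _ _ s.zero_le h0), map_zero]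
    simpa [MvPolynomial.coeff_sum, τ] using this
  have h2 : lam (fun l j => τ (v l j)) I β β = 0 := MvPowerSeries.ext fun ν => h1 ν β
  rw [lam, bord_row, Fin.sum_univ_succ, Finset.sum_eq_zero fun k _ => by
    rw [Fin.cons_succ, Pi.single_eq_of_ne fun e => hβ ⟨k, e⟩, mul_zero, zero_mul]] at h2
  simp only [Fin.val_zero, pow_zero, Fin.cons_zero, Pi.single_eq_same, mul_one, one_mul,
    Fin.succAbove_zero, Fin.cons_succ, add_zero] at h2
  exact a2 (τi (by rw [map_mnr, map_zero]; exact h2))

end dual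

end

end Pool.Agent.Lib.MP_5591bc_ag.R
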