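import Pool.Agent.Lib.MP_5591bc_ag.Gen

/-! Period matrices of the family `y^2 = x^5 - t x`. -/

namespace Pool.Agent.Lib.MP_5591bc_ag

open unitInterval Topology Filter CategoryTheory Complex

noncomputable section

theorem per_loopZ {ζ : ℂ} (hζ : (1 : ℂ) = ζ ^ 8 * 1) (k : ℕ) :
    (atlas one_ne_zero k).per (loopZ hζ) = 2 * (ζ ^ (2 * k) / ζ ^ 3) * hp k := by
  have h1 := per_scale (zeta_ne hζ) one_ne_zero one_ne_zero hζ k eta (etaZ hζ) (fun _ => rfl)
  have h2 := per_scale (u := -1) (by norm_num) one_ne_zero one_ne_zero hm1 k eta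
    (mapPath (continuous_scale (-1) hm1) eta rfl rfl) (fun _ => rfl)
  have h3 := per_scale (zeta_ne hζ) one_ne_zero one_ne_zero hζ k
    (mapPath (continuous_scale (-1) hm1) eta rfl rfl) (etaZ' hζ) (fun _ => rfl)
  rw [loopZ, Atlas.per_trans, Atlas.per_symm, h1, h3, h2, per_eta, pow_mul (-1 : ℂ)]
  norm_num
  ring

/-- The standard loops on the curve with parameter `u^8`. -/
def stdLoop {u t : ℂ} (h : t = u ^ 8 * 1) (j : Fin 4) : Path (origin t) (origin t) :=
  mapPath (continuous_scale u h) (loopZ (om_pow j)) (scale_origin _ _) (scale_origin _ _)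

def stdMat (u : ℂ) : Matrix (Fin 4) (Fin 4) ℂ :=
  Matrix.diagonal (fun k : Fin 4 => u ^ (2 * (k : ℕ)) / u ^ 3 * 2 * hp k) *
    Matrix.vandermonde (fun k : Fin 4 => om ^ (2 * (k : ℕ)) / om ^ 3)

theorem ne_of_eq8 {u t : ℂ} (ht : t ≠ 0) (h : t = u ^ 8 * 1) : u ≠ 0 := by
  rintro rfl; apply ht; rw [h]; simp

theorem per_stdLoop {u t : ℂ} (ht : t ≠ 0) (h : t = u ^ 8 * 1) (k j : Fin 4) :
    (atlas ht k).per (stdLoop h j) = stdMat u k j := by
  rw [per_scale (ne_of_eq8 ht h) one_ne_zero ht h k (loopZ (om_pow j)) (stdLoop h j)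
    (fun _ => rfl), per_loopZ, stdMat, Matrix.diagonal_mul, Matrix.vandermonde_apply, div_pow,
    ← pow_mul, ← pow_mul, ← pow_mul, ← pow_mul, mul_comm (j : ℕ), mul_comm (j : ℕ)]
  ring

theorem om_ne : om ≠ 0 := by simpa using zeta_ne (om_pow 1)

theorem det_stdMat {u : ℂ} (hu : u ≠ 0) : (stdMat u).det ≠ 0 := by
  rw [stdMat, Matrix.det_mul, Matrix.det_diagonal]
  refine mul_ne_zero (Finset.prod_ne_zero_iff.2 fun k _ => ?_) ?_
  · exact mul_ne_zero (mul_ne_zero (div_ne_zero (pow_ne_zero _ hu) (pow_ne_zero _ hu))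
      two_ne_zero) (hp_ne_zero k)
  · rw [Matrix.det_vandermonde_ne_zero_iff]
    intro a b hab
    simp only [pow_mul, om_sq] at hab
    rw [div_left_inj' (pow_ne_zero _ om_ne)] at hab
    fin_cases a <;> fin_cases b <;> simp [pow_succ, Complex.ext_iff] at hab ⊢ <;> norm_num at hab

theorem span_stdLoop {u t : ℂ} (ht : t ≠ 0) (h : t = u ^ 8 * 1) :
    Submodule.span ℤ (Set.range fun j => homologyClass (stdLoop h j)) = ⊤ := by
  have hu := ne_of_eq8 ht h
  have h' : (1 : ℂ) = u⁻¹ ^ 8 * t := by rw [h]; field_simp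
  let f : C(Curve 1, Curve t) := ⟨scale u h, continuous_scale u h⟩
  let φ := FundamentalGroup.mapOfEq f (scale_origin u h)
  have hφ : ∀ γ : Path (origin 1) (origin 1), φ (FundamentalGroup.fromArrow (ar γ)) =
      FundamentalGroup.fromArrow (ar (mapPath (continuous_scale u h) γ (scale_origin _ _)
        (scale_origin _ _))) := fun γ => FundamentalGroup.mapOfEq_apply f _ _
  have key : ∀ g : FundamentalGroup (Curve 1) (origin 1),
      Additive.ofMul (Abelianization.of (φ g)) ∈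
        Submodule.span ℤ (Set.range fun j => homologyClass (stdLoop h j)) := by
    intro g
    have hg : g ∈ Subgroup.closure (Set.range fun j : Fin 4 =>
      FundamentalGroup.fromArrow (ar (loopZ (om_pow j)))) := by rw [closure_loops]; trivial
    induction hg using Subgroup.closure_induction with
    | mem x hx =>
      obtain ⟨j, rfl⟩ := hx
      simp only [hφ]
      exact Submodule.subset_span ⟨j, rfl⟩
    | one => rw [map_one, map_one]; exact Submodule.zero_mem _
    | mul x y _ _ hx hy => rw [map_mul, map_mul]; exact Submodule.add_mem _ hx hy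
    | inv x _ hx => rw [map_inv, map_inv]; exact Submodule.neg_mem _ hx
  rw [eq_top_iff]
  rintro ⟨⟨γ⟩⟩ -
  have := key (FundamentalGroup.fromArrow (ar (mapPath (continuous_scale u⁻¹ h') γ
    (scale_origin _ _) (scale_origin _ _))))
  rw [hφ] at this
  have e : mapPath (continuous_scale u h) (mapPath (continuous_scale u⁻¹ h') γ
      (scale_origin _ _) (scale_origin _ _)) (scale_origin _ _) (scale_origin _ _) = γ := by
    ext v <;> simp only [mapPath_apply, scale] <;> field_simp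
  rw [e] at this
  exact this

theorem perH_class {t : ℂ} (ht : t ≠ 0) (k : ℕ) (γ : Path (origin t) (origin t)) :
    (atlas ht k).perH (origin t) (homologyClass γ) = (atlas ht k).per γ := rfl

theorem linInd_stdLoop {u t : ℂ} (ht : t ≠ 0) (h : t = u ^ 8 * 1) :
    LinearIndependent ℤ (fun j => homologyClass (stdLoop h j)) := by
  rw [Fintype.linearIndependent_iff]
  intro n hn
  have h0 : (stdMat u).mulVec (fun j => (n j : ℂ)) = 0 := by
    funext k
    have := congrArg ((atlas ht k).perH (origin t)) hn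
    simp only [map_sum, map_zsmul, perH_class, per_stdLoop, map_zero, zsmul_eq_mul] at this
    simp only [Matrix.mulVec, dotProduct, Pi.zero_apply]
    rw [← this]
    exact Finset.sum_congr rfl fun j _ => mul_comm _ _
  have := Matrix.eq_zero_of_mulVec_eq_zero (det_stdMat (ne_of_eq8 ht h)) h0
  intro j
  have h2 : (n j : ℂ) = 0 := congrFun this j
  exact_mod_cast h2

theorem root8 {s t : ℂ} (hs : s ≠ 0) : ((t / s) ^ (8⁻¹ : ℂ)) ^ 8 * s = t := by
  rw [cpow_ofNat_inv_pow]; field_simp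

theorem exists_data {s : ℂ} (hs : s ≠ 0) :
    ∃ (U : Set ℂ) (hU : s ∈ U) (Γ : Fin 4 → (t : U) → Path (origin t) (origin t))
      (P : U → Matrix (Fin 4) (Fin 4) ℂ), IsPeriodMatrix U ⟨s, hU⟩ Γ P := by
  have hpos : 0 < ‖s‖ := norm_pos_iff.2 hs
  have h0 : (0 : ℂ) ∉ Metric.ball s ‖s‖ := by simp
  have hne : ∀ t : Metric.ball s ‖s‖, (t : ℂ) ≠ 0 := fun t h => h0 (h ▸ t.2)
  let u : ℂ → ℂ := fun t => (t / s) ^ (8⁻¹ : ℂ) * s ^ (8⁻¹ : ℂ)
  have hu : ∀ t, t = u t ^ 8 * 1 := by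
    intro t
    simp only [u, mul_pow, cpow_ofNat_inv_pow]
    field_simp
  have hcont : Continuous fun t : Metric.ball s ‖s‖ => u t := by
    refine Continuous.mul (Continuous.cpow (by fun_prop) continuous_const ?_) continuous_const
    intro t
    have : (t : ℂ) / s = 1 + (t - s) / s := by field_simp; ring
    rw [this]
    apply mem_slitPlane_of_norm_lt_one
    rw [norm_div, div_lt_one hpos]
    exact mem_ball_iff_norm.1 t.2
  refine ⟨Metric.ball s ‖s‖, Metric.mem_ball_self hpos, fun j t => stdLoop (hu t) j,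
    fun t => stdMat (u t), Metric.isOpen_ball,
    (convex_ball _ _).isConnected ⟨s, Metric.mem_ball_self hpos⟩, h0, ?_,
    ⟨linInd_stdLoop hs _, span_stdLoop hs _⟩, ?_⟩
  · intro j
    change Continuous fun q : Metric.ball s ‖s‖ × I =>
      ((u q.1) ^ 2 * (loopZ (om_pow j) q.2).1.1, (u q.1) ^ 5 * (loopZ (om_pow j) q.2).1.2)
    have h1 : Continuous fun q : Metric.ball s ‖s‖ × I => u q.1 := hcont.comp continuous_fst
    have h2 : Continuous fun q : Metric.ball s ‖s‖ × I => (loopZ (om_pow j) q.2).1 := by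
      fun_prop
    exact ((h1.pow 2).mul h2.fst).prodMk ((h1.pow 5).mul h2.snd)
  · intro t k j
    rw [isIntegral_iff (hne t), per_stdLoop]

section data

variable {U : Set ℂ} {s : U} {Γ : Fin 4 → (t : U) → Path (origin t) (origin t)}
  {P : U → Matrix (Fin 4) (Fin 4) ℂ} (hP : IsPeriodMatrix U s Γ P)
include hP

theorem IsPeriodMatrix.ne (t : U) : (t : ℂ) ≠ 0 := fun h => hP.2.2.1 (h ▸ t.2)

theorem IsPeriodMatrix.eq_per (t : U) (k j : Fin 4) :
    P t k j = (atlas (hP.ne t) k).per (Γ j t) :=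
  (isIntegral_iff (hP.ne t) k _ _).1 (hP.2.2.2.2.2 t k j)

theorem IsPeriodMatrix.local_scale (a : U) : ∀ᶠ w in 𝓝 (1 : ℂ), w ≠ 0 ∧
    ∃ h : w ^ 8 * (a : ℂ) ∈ U, ∀ k j : Fin 4,
      P ⟨w ^ 8 * a, h⟩ k j = w ^ (2 * (k : ℕ)) / w ^ 3 * P a k j := by
  have hev : ∀ᶠ w in 𝓝 (1 : ℂ), w ≠ 0 ∧ w ^ 8 * (a : ℂ) ∈ U := by
    refine (eventually_ne_nhds one_ne_zero).and ?_
    have hc : ContinuousAt (fun w : ℂ => w ^ 8 * a) 1 := by fun_prop
    apply hc.eventually
    simpa using hP.1.mem_nhds a.2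
  obtain ⟨ε, hε, hball⟩ := Metric.eventually_nhds_iff_ball.1 hev
  filter_upwards [Metric.ball_mem_nhds 1 hε] with w hw
  refine ⟨(hball w hw).1, (hball w hw).2, fun k j => ?_⟩
  have hseg : ∀ v : I, 1 + (v : ℝ) * (w - 1) ∈ Metric.ball (1 : ℂ) ε := by
    intro v
    simpa using (convex_ball (1 : ℂ) ε).add_smul_sub_mem (Metric.mem_ball_self hε) hw v.2
  have hsc : ∀ z : ℂ, z ≠ 0 → (a : ℂ) = z⁻¹ ^ 8 * (z ^ 8 * a) := by
    intro z hz; field_simp
  let T : I → U := fun v => ⟨(1 + (v : ℝ) * (w - 1)) ^ 8 * a, (hball _ (hseg v)).2⟩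
  have hT : Continuous T := by fun_prop
  let G : U × I → ℂ × ℂ := fun q => (Γ j q.1 q.2).1
  have hG : Continuous G := hP.2.2.2.1 j
  let H : I × I → Curve a := fun x => scale (1 + (x.1 : ℝ) * (w - 1))⁻¹
    (hsc _ (hball _ (hseg x.1)).1) (Γ j (T x.1) x.2)
  have hH : Continuous H := by
    refine Continuous.subtype_mk ?_ _
    have h1 : Continuous fun x : I × I => (1 + (x.1 : ℝ) * (w - 1))⁻¹ :=
      Continuous.inv₀ (by fun_prop) (fun x => (hball _ (hseg x.1)).1)
    change Continuous fun x : I × I => ((1 + (x.1 : ℝ) * (w - 1))⁻¹ ^ 2 * (G (T x.1, x.2)).1,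
      (1 + (x.1 : ℝ) * (w - 1))⁻¹ ^ 5 * (G (T x.1, x.2)).2)
    fun_prop
  let t : U := ⟨w ^ 8 * a, (hball w hw).2⟩
  have hw0 := (hball w hw).1
  let γ' : Path (origin (a : ℂ)) (origin (a : ℂ)) := mapPath (continuous_scale w⁻¹ (hsc w hw0))
    (Γ j t) (scale_origin _ _) (scale_origin _ _)
  have e1 := (atlas (hP.ne a) k).per_homotopy H hH
    (fun v => by simp only [H, Path.source]; exact scale_origin _ _)
    (fun v => by simp only [H, Path.target]; exact scale_origin _ _) (Γ j a) γ' (fun v => by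
      have : T 0 = a := by ext; simp [T]
      apply Subtype.ext
      change G (a, v) = ((1 + ((0 : I) : ℝ) * (w - 1))⁻¹ ^ 2 * (G (T 0, v)).1,
        (1 + ((0 : I) : ℝ) * (w - 1))⁻¹ ^ 5 * (G (T 0, v)).2)
      rw [this]; simp) (fun v => by
      have : T 1 = t := by ext; simp [T, t]
      apply Subtype.ext
      change (w⁻¹ ^ 2 * (G (t, v)).1, w⁻¹ ^ 5 * (G (t, v)).2) =
        ((1 + ((1 : I) : ℝ) * (w - 1))⁻¹ ^ 2 * (G (T 1, v)).1,
        (1 + ((1 : I) : ℝ) * (w - 1))⁻¹ ^ 5 * (G (T 1, v)).2)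
      rw [this]; simp)
  have e2 := per_scale (inv_ne_zero hw0) (hP.ne t) (hP.ne a) (hsc w hw0) k (Γ j t) γ'
    (fun _ => rfl)
  rw [hP.eq_per, hP.eq_per, e1, e2]
  simp only [inv_pow]
  field_simp
  rfl

theorem IsPeriodMatrix.global_scale (t : U) : ∃ d : Fin 4 → ℂ, (∀ k, d k ≠ 0) ∧
    ∀ k, P t k = d k • P s k := by
  have : PreconnectedSpace U := isPreconnected_iff_preconnectedSpace.1 hP.2.1.isPreconnected
  have hlc : IsLocallyConstant (fun t : U => ∃ d : Fin 4 → ℂ, (∀ k, d k ≠ 0) ∧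
      ∀ k, P t k = d k • P s k) := by
    rw [IsLocallyConstant.iff_eventually_eq]
    intro a
    have hc : ContinuousAt (fun t : U => ((t : ℂ) / a) ^ (8⁻¹ : ℂ)) a := by
      refine ContinuousAt.cpow (by fun_prop) continuousAt_const ?_
      rw [div_self (hP.ne a)]; exact one_mem_slitPlane
    have h1 : Tendsto (fun t : U => ((t : ℂ) / a) ^ (8⁻¹ : ℂ)) (𝓝 a) (𝓝 1) := by
      have := hc.tendsto
      rwa [div_self (hP.ne a), one_cpow] at this
    filter_upwards [h1.eventually (hP.local_scale a)] with b ⟨hw, h, hb⟩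
    have e : (⟨_, h⟩ : U) = b := Subtype.ext (root8 (hP.ne a))
    rw [e] at hb
    set w := ((b : ℂ) / a) ^ (8⁻¹ : ℂ)
    have hc : ∀ k : Fin 4, w ^ (2 * (k : ℕ)) / w ^ 3 ≠ 0 := fun k =>
      div_ne_zero (pow_ne_zero _ hw) (pow_ne_zero _ hw)
    have hb' : ∀ k, P b k = (w ^ (2 * (k : ℕ)) / w ^ 3) • P a k := fun k => funext (hb k)
    apply propext
    constructor
    · rintro ⟨d, hd, h2⟩
      refine ⟨fun k => (w ^ (2 * (k : ℕ)) / w ^ 3)⁻¹ * d k,
        fun k => mul_ne_zero (inv_ne_zero (hc k)) (hd k), fun k => ?_⟩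
      rw [mul_smul, ← h2, hb', inv_smul_smul₀ (hc k)]
    · rintro ⟨d, hd, h2⟩
      refine ⟨fun k => (w ^ (2 * (k : ℕ)) / w ^ 3) * d k,
        fun k => mul_ne_zero (hc k) (hd k), fun k => ?_⟩
      rw [mul_smul, ← h2, hb']
  have := hlc.apply_eq_of_preconnectedSpace s t
  exact this ▸ ⟨fun _ => 1, fun _ => one_ne_zero, fun k => by simp⟩

theorem IsPeriodMatrix.exists_int {u : ℂ} (h : (s : ℂ) = u ^ 8 * 1) :
    ∃ n : Matrix (Fin 4) (Fin 4) ℤ, stdMat u = P s * n.map (fun a => (a : ℂ)) := by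
  have : ∀ j, ∃ n : Fin 4 → ℤ, ∑ i, n i • homologyClass (Γ i s) =
      homologyClass (stdLoop h j) := by
    intro j
    apply (Submodule.mem_span_range_iff_exists_fun ℤ).1
    rw [hP.2.2.2.2.1.2]; trivial
  choose n hn using this
  refine ⟨fun i j => n j i, ?_⟩
  ext k j
  have := congrArg ((atlas (hP.ne s) k).perH (origin s)) (hn j)
  simp only [map_sum, map_zsmul, perH_class, per_stdLoop, zsmul_eq_mul] at this
  rw [← this, Matrix.mul_apply]
  exact Finset.sum_congr rfl fun i _ => by rw [hP.eq_per, mul_comm]; rfl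

theorem IsPeriodMatrix.det_ne : (P s).det ≠ 0 := by
  have h : (s : ℂ) = ((s : ℂ) ^ (8⁻¹ : ℂ)) ^ 8 * 1 := by rw [cpow_ofNat_inv_pow, mul_one]
  obtain ⟨n, hn⟩ := hP.exists_int h
  have := det_stdMat (ne_of_eq8 (hP.ne s) h)
  rw [hn, Matrix.det_mul] at this
  exact left_ne_zero_of_mul this

omit hP in
theorem det_scale {M M' : Matrix (Fin 4) (Fin 4) ℂ} {d : Fin 4 → ℂ} (hd : ∀ k, d k ≠ 0)
    (h : ∀ k, M' k = d k • M k) (hM : M.det ≠ 0) : M'.det ≠ 0 := by
  have : M' = Matrix.diagonal d * M := by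
    ext k j; rw [Matrix.diagonal_mul, h]; rfl
  rw [this, Matrix.det_mul, Matrix.det_diagonal]
  exact mul_ne_zero (Finset.prod_ne_zero_iff.2 fun k _ => hd k) hM

theorem IsPeriodMatrix.hodge (t : U) :
    (P t).det ≠ 0 ∧ mumfordTate (P t) = mumfordTate (P s) := by
  obtain ⟨d, hd, h⟩ := hP.global_scale t
  refine ⟨det_scale hd h hP.det_ne, ?_⟩
  have key : ∀ (g : Matrix (Fin 4) (Fin 4) ℂ) (z : ℂ) (k : Fin 4),
      (g.mulVec (P t k) = z • P t k ∧ g.mulVec (star (P t k)) = star z • star (P t k)) =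
      (g.mulVec (P s k) = z • P s k ∧ g.mulVec (star (P s k)) = star z • star (P s k)) := by
    intro g z k
    rw [h k, star_smul, Matrix.mulVec_smul, Matrix.mulVec_smul, smul_comm z, smul_comm (star z),
      (smul_right_injective _ (hd k)).eq_iff,
      (smul_right_injective _ (star_ne_zero.2 (hd k))).eq_iff]
  simp only [mumfordTate, key]

theorem IsPeriodMatrix.mem_fibre {K : Type} [Field K] [Algebra K ℂ] {z : ℂ} (hz : z ^ 8 = 1) :
    coords' s (fun k j => z ^ (2 * (k : ℕ)) / z ^ 3 * P s k j) ∈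
      zariskiClosure K (Set.range fun t : U => coords' t (P t)) := by
  intro F hF
  let c : ℂ → Option (Fin 4 × Fin 4) → ℂ := fun w =>
    coords' (w ^ 8 * s) (fun k j => w ^ (2 * (k : ℕ)) / w ^ 3 * P s k j)
  have han : AnalyticOnNhd ℂ (fun w => MvPolynomial.aeval (c w) F) {0}ᶜ := by
    have e : ∀ w, MvPolynomial.aeval (c w) F =
        MvPolynomial.aeval (c w) (MvPolynomial.map (algebraMap K ℂ) F) := fun w =>
      (MvPolynomial.aeval_map_algebraMap ℂ _ _).symm
    simp only [e]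
    apply AnalyticOnNhd.aeval_mvPolynomial
    rintro (_ | ⟨k, j⟩) w hw
    · change AnalyticAt ℂ (fun w : ℂ => w ^ 8 * s) w
      fun_prop
    · change AnalyticAt ℂ (fun w : ℂ => w ^ (2 * (k : ℕ)) / w ^ 3 * P s k j) w
      exact ((analyticAt_id.pow _).div (analyticAt_id.pow 3) (pow_ne_zero 3 hw)).mul
        analyticAt_const
  have hev : (fun w => MvPolynomial.aeval (c w) F) =ᶠ[𝓝 1] 0 := by
    filter_upwards [hP.local_scale s] with w ⟨_, h, hw⟩
    refine hF _ ⟨⟨_, h⟩, ?_⟩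
    simp only [c]
    congr 1
    ext k j
    exact hw k j
  have hz0 : z ≠ 0 := by rintro rfl; simp at hz
  have := han.eqOn_zero_of_preconnected_of_eventuallyEq_zero
    (isConnected_compl_singleton_of_one_lt_rank (by simp) (0 : ℂ)).isPreconnected
    (show (1 : ℂ) ∈ ({0}ᶜ : Set ℂ) by simp) hev (show z ∈ ({0}ᶜ : Set ℂ) from hz0)
  simp only [c, hz, one_mul] at this
  exact this

theorem IsPeriodMatrix.strict (halg : IsAlgebraic ℚ (s : ℂ)) :
    {g : Matrix (Fin 4) (Fin 4) ℂ | g.det ≠ 0 ∧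
      coords g ∈ zariskiClosure (algebraicClosure ℚ ℂ) {coords (P s)}} ⊂
    {g : Matrix (Fin 4) (Fin 4) ℂ | g.det ≠ 0 ∧ coords' s g ∈
      zariskiClosure (algebraicClosure ℚ ℂ) (Set.range fun t : U => coords' t (P t))} := by
  constructor
  · rintro g ⟨h1, h2⟩
    refine ⟨h1, fun F hF => ?_⟩
    let s' : algebraicClosure ℚ ℂ := ⟨s, mem_algebraicClosure_iff.2 halg⟩
    let φ : Option (Fin 4 × Fin 4) → MvPolynomial (Fin 4 × Fin 4) (algebraicClosure ℚ ℂ) :=
      fun a => a.elim (MvPolynomial.C s') MvPolynomial.X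
    have e : ∀ m : Matrix (Fin 4) (Fin 4) ℂ, MvPolynomial.aeval (coords m)
        (MvPolynomial.aeval φ F) = MvPolynomial.aeval (coords' s m) F := by
      intro m
      rw [← AlgHom.comp_apply, MvPolynomial.comp_aeval]
      congr 2
      funext a
      rcases a with _ | a
      · simp [φ, coords', s']
      · simp [φ, coords']
    rw [← e]
    apply h2
    rintro _ rfl
    rw [e]
    exact hF _ ⟨s, rfl⟩
  · intro hsub
    set u : ℂ := (s : ℂ) ^ (8⁻¹ : ℂ)
    have h : (s : ℂ) = u ^ 8 * 1 := by rw [cpow_ofNat_inv_pow, mul_one]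
    have hu0 := ne_of_eq8 (hP.ne s) h
    have hu : IsAlgebraic ℚ u := IsAlgebraic.of_pow (n := 8) (by norm_num) (by
      rw [mul_one] at h; rw [← h]; exact halg)
    obtain ⟨n, hn⟩ := hP.exists_int h
    obtain ⟨l, hl, hl2⟩ := hp_ratio
    have hg := hsub (a := fun k j => Complex.I ^ (2 * (k : ℕ)) / Complex.I ^ 3 * P s k j)
      ⟨det_scale (d := fun k : Fin 4 => Complex.I ^ (2 * (k : ℕ)) / Complex.I ^ 3)
        (fun k => div_ne_zero (pow_ne_zero _ I_ne_zero) (pow_ne_zero _ I_ne_zero))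
        (fun k => rfl) hP.det_ne, hP.mem_fibre (by
          rw [show 8 = 4 * 2 from rfl, pow_mul, I_pow_four, one_pow])⟩
    let u' : algebraicClosure ℚ ℂ := ⟨u, mem_algebraicClosure_iff.2 hu⟩
    let l' : algebraicClosure ℚ ℂ := ⟨l, mem_algebraicClosure_iff.2 hl⟩
    let F : MvPolynomial (Fin 4 × Fin 4) (algebraicClosure ℚ ℂ) :=
      MvPolynomial.C (u' ^ 2) * ∑ i, (n i 0 : MvPolynomial _ _) * MvPolynomial.X (0, i) -
        MvPolynomial.C l' * ∑ i, (n i 0 : MvPolynomial _ _) * MvPolynomial.X (1, i)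
    have hF : ∀ m : Matrix (Fin 4) (Fin 4) ℂ, MvPolynomial.aeval (coords m) F =
        u ^ 2 * ∑ i, (n i 0 : ℂ) * m 0 i - l * ∑ i, (n i 0 : ℂ) * m 1 i := by
      intro m
      simp [F, coords, u', l']
    have hrow : ∀ k : Fin 4, ∑ i, (n i 0 : ℂ) * P s k i =
        u ^ (2 * (k : ℕ)) / u ^ 3 * 2 * hp k := by
      intro k
      have := congrFun (congrFun hn k) 0
      rw [stdMat, Matrix.diagonal_mul, Matrix.vandermonde_apply, Matrix.mul_apply] at this
      simp only [Fin.val_zero, pow_zero, mul_one, Matrix.map_apply] at this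
      rw [this]
      exact Finset.sum_congr rfl fun i _ => mul_comm _ _
    have h0 := hg.2 F (by
      rintro _ rfl
      rw [hF, hrow, hrow]
      simp only [Fin.val_zero, Fin.val_one, hl2]
      field_simp
      ring)
    rw [hF] at h0
    have e : ∀ k : Fin 4, ∑ i, (n i 0 : ℂ) * (Complex.I ^ (2 * (k : ℕ)) / Complex.I ^ 3 * P s k i)
        = Complex.I ^ (2 * (k : ℕ)) / Complex.I ^ 3 * (u ^ (2 * (k : ℕ)) / u ^ 3 * 2 * hp k) := by
      intro k
      rw [← hrow, Finset.mul_sum]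
      exact Finset.sum_congr rfl fun i _ => by ring
    rw [e, e] at h0
    simp only [Fin.val_zero, Fin.val_one, mul_zero, mul_one, pow_zero, I_sq] at h0
    have hI := I_ne_zero
    field_simp at h0
    apply hp_ne_zero 0
    linear_combination (1 / 4) * h0 + (1 / 2) * hl2

end data

end

end Pool.Agent.Lib.MP_5591bc_ag
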