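import Pool.Agent.Lib.MP_5591bc_ag.V.NearFam

namespace Pool.Agent.Lib.MP_5591bc_ag.NearPointsOld

open Pool.Agent.Lib.MP_5591bc_ag.R Pool.Agent.Lib.MP_5591bc_ag.V

/-- Linear forms in the entries of an arbitrary fundamental matrix of a system `T P' = B P` over
`ℚ(t)` satisfying Galochkin's condition, with connected differential Galois group: for every
`η > 0` the degree `δ` property holds at all but finitely many of the points `s + ξ`, `ξ` rational,
`|ξ| ≤ den(ξ)^(-η)`. -/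
theorem result (K : Type) [Field K] [NumberField K] [Algebra K ℂ] (n r δ : ℕ) (T : Polynomial ℚ)
    (B : Matrix (Fin n) (Fin n) (Polynomial ℚ)) (h : GalK T B) (s : ℚ) (hT : T.eval s ≠ 0)
    (U : Set ℂ) (ho : IsOpen U) (hc : IsPreconnected U) (hs : (s : ℂ) ∈ U)
    (P : ℂ → Matrix (Fin n) (Fin n) ℂ) (hP : FundK T B U P) (hC : Conn U P)
    (ℓ : Fin r → Matrix (Fin n) (Fin n) ℂ →ₗ[ℂ] ℂ) (η : ℝ) (hη : 0 < η) :
    {ξ : ℚ | |(ξ : ℝ)| ≤ (ξ.den : ℝ) ^ (-η) ∧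
      ¬ GoodK U (fun t i => ℓ i (P t)) δ ((s : K) + ξ)}.Finite :=
  near K δ h hT ho hc hs hP hC ℓ hη

end Pool.Agent.Lib.MP_5591bc_ag.NearPointsOld
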