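import Pool.Agent.Lib.MP_5591bc_ag.C.Cusp

namespace Pool.Agent.Lib.MP_5591bc_ag.NearPointsOld2

open Polynomial Topology Pool.Agent.Lib.MP_5591bc_ag.R Pool.Agent.Lib.MP_5591bc_ag.C

/-- An arbitrary fundamental matrix `P` of a system `T P' = B P` over `K(t)`, `K` a number field,
satisfying Galochkin's condition, with connected differential Galois group over the field of the
algebraic functions `P C₁`; `s` is an ordinary point or a simple pole with nilpotent residue, and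
`P C₁`, `P C₀` extend holomorphically to `s`, the first with value over `K`. For all `d` and
`η > 0` the degree `δ` property of `P C₀` holds at all but finitely many of the points
`(s + x, P (s + x) C₁)` of degree at most `d` over `K` with `|x| ≤ H^(-η)`, `H` a bound for the
coefficients of an integer polynomial vanishing at `x`. -/
theorem result (K : Type) [Field K] [NumberField K] [Algebra K ℂ] (n δ d : ℕ) (T : K[X])
    (B : Matrix (Fin n) (Fin n) K[X]) (h : GalK T B) (s : K)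
    (hT : T.eval s = 0 → T.derivative.eval s ≠ 0 ∧ IsNilpotent (B.map (eval s)))
    (U : Set ℂ) (ho : IsOpen U) (hc : IsPreconnected U)
    (P : ℂ → Matrix (Fin n) (Fin n) ℂ) (hP : FundK T B U P)
    (C₁ C₀ : Matrix (Fin n) (Fin n) ℂ) (hC : ConnR U P fun t => P t * C₁)
    (alg : ∀ i j, ∃ q : ℂ[X][X], q ≠ 0 ∧ ∀ t ∈ U, q.eval₂ (evalRingHom t) ((P t * C₁) i j) = 0)
    (Z₁ Z₀ : ℂ → Matrix (Fin n) (Fin n) ℂ)
    (h₁ : ∀ i j, AnalyticAt ℂ (fun t => Z₁ t i j) (algebraMap K ℂ s))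
    (h₀ : ∀ i j, AnalyticAt ℂ (fun t => Z₀ t i j) (algebraMap K ℂ s))
    (hs : ∀ᶠ t in 𝓝[U] algebraMap K ℂ s, P t * C₁ = Z₁ t ∧ P t * C₀ = Z₀ t)
    (z₀ : Matrix (Fin n) (Fin n) K) (hz : z₀.map (algebraMap K ℂ) = Z₁ (algebraMap K ℂ s))
    (η : ℝ) (hη : 0 < η) :
    {x : ℂ | algebraMap K ℂ s + x ∈ U ∧ ∃ (L : IntermediateField K ℂ) (hx : x ∈ L)
      (z : Matrix (Fin n) (Fin n) L) (q : ℤ[X]) (H : ℝ),
      FiniteDimensional K L ∧ Module.finrank K L ≤ d ∧ q ≠ 0 ∧ aeval x q = 0 ∧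
      (∀ i, |(q.coeff i : ℝ)| ≤ H) ∧ ‖x‖ ≤ H ^ (-η) ∧
      z.map (algebraMap L ℂ) = P (algebraMap K ℂ s + x) * C₁ ∧
      ¬ GoodR U P C₁ C₀ δ (algebraMap K L s + ⟨x, hx⟩) z}.Finite :=
  cusp_R δ d h hT ho hc hP hC alg h₁ h₀ hs hz hη

end Pool.Agent.Lib.MP_5591bc_ag.NearPointsOld2
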