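import Mathlib

/-! Systems over number fields, the condition of Galochkin, the degree `δ` property. -/

namespace Pool.Agent.Lib.MP_5591bc_ag.R

open Polynomial Filter Topology

noncomputable section

/-- For the system `T Y' = B Y` the matrices with `T^m Y^(m) = iterK T B m * Y`. -/
def iterK {R ν : Type*} [CommRing R] [Fintype ν] [DecidableEq ν] (T : R[X]) (B : Matrix ν ν R[X]) :
    ℕ → Matrix ν ν R[X]
  | 0 => 1
  | m + 1 => T • (iterK T B m).map derivative - ((m : R[X]) * derivative T) • iterK T B m +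
      iterK T B m * B

/-- Galochkin's condition: the matrices `iterK T B k / k!`, `k ≤ m`, have a common denominator of at
most exponential size. -/
def GalK {K ν : Type*} [Field K] [Fintype ν] [DecidableEq ν] (T : K[X]) (B : Matrix ν ν K[X]) :
    Prop :=
  ∃ C : ℝ, ∀ m : ℕ, ∃ d : ℕ, 0 < d ∧ (d : ℝ) ≤ C ^ (m + 1) ∧
    ∀ k ≤ m, ∀ i j l, IsIntegral ℤ ((d : K) * (iterK T B k i j).coeff l / (k.factorial : K))

/-- `P` is an invertible holomorphic solution of `T P' = B P` on `U`. -/
def FundK {K ν : Type*} [Field K] [Algebra K ℂ] [Fintype ν] [DecidableEq ν] (T : K[X])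
    (B : Matrix ν ν K[X]) (U : Set ℂ) (P : ℂ → Matrix ν ν ℂ) : Prop :=
  ∀ t ∈ U, (P t).det ≠ 0 ∧ ∀ i j, DifferentiableAt ℂ (fun s => P s i j) t ∧
    aeval t T * deriv (fun s => P s i j) t = ∑ k, aeval t (B i k) * P t k j

/-- analytic continuations of `y₀` on `U₀` along chains of domains -/
inductive Cont {r : ℕ} (U₀ : Set ℂ) (y₀ : ℂ → Fin r → ℂ) : Set ℂ → (ℂ → Fin r → ℂ) → Prop
  | base : Cont U₀ y₀ U₀ y₀
  | step (U U' : Set ℂ) (y y' : ℂ → Fin r → ℂ) (s : ℂ) : Cont U₀ y₀ U y → IsOpen U' →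
      IsPreconnected U' → (∀ i, DifferentiableOn ℂ (fun t => y' t i) U') → s ∈ U → s ∈ U' →
      (∀ᶠ t in 𝓝 s, y t = y' t) → Cont U₀ y₀ U' y'

/-- The degree `δ` property at `s`: every polynomial `F` over `K` of degree at most `δ` vanishing at
`y s` is the specialisation at `t = s` of a polynomial `H(t, X)` over `K` vanishing on the graph of
the multivalued function obtained from `y` on `U` by analytic continuation. -/
def GoodK {K : Type*} [Field K] [Algebra K ℂ] {r : ℕ} (U : Set ℂ) (y : ℂ → Fin r → ℂ) (δ : ℕ)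
    (s : K) : Prop :=
  ∀ F : MvPolynomial (Fin r) K, F.totalDegree ≤ δ →
    MvPolynomial.aeval (y (algebraMap K ℂ s)) F = 0 →
    ∃ H : MvPolynomial (Option (Fin r)) K,
      (∀ U' y', Cont U y U' y' → ∀ t ∈ U', MvPolynomial.aeval (fun o => o.elim t (y' t)) H = 0) ∧
      MvPolynomial.aeval (fun o => o.elim (MvPolynomial.C s) MvPolynomial.X) H = F

end

end Pool.Agent.Lib.MP_5591bc_ag.R
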