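import Pool.Agent.Lib.MP_5591bc_ag.RElim
import Pool.Agent.Lib.MP_5591bc_ag.GAbs
import Pool.Agent.Lib.MP_5591bc_ag.RDefs

/-! Formal fundamental matrices of a system satisfying the condition of Galochkin. -/

namespace Pool.Agent.Lib.MP_5591bc_ag.R

open Matrix Finset Filter Topology PowerSeries G Function Metric

noncomputable section

/-- extension of scalars -/
abbrev mp : ℚ⟦X⟧ →+* ℂ⟦X⟧ := PowerSeries.map (algebraMap ℚ ℂ)

theorem mp_inj : Injective mp := PowerSeries.map_injective _ (algebraMap ℚ ℂ).injective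

theorem mp_τ1 (x : ℚ) (q : Polynomial ℚ) : mp (τ1 x q) = τp x q := by
  induction q using Polynomial.induction_on with
  | C a => simp [τ1, τp]
  | add p q hp hq => simp only [map_add, hp, hq]
  | monomial n a h =>
    rw [pow_succ, ← mul_assoc, map_mul, map_mul, h, map_mul (τp _) _ Polynomial.X]
    simp [τ1, τp]

theorem mp_deriv (F : ℚ⟦X⟧) : mp (d⁄dX ℚ F) = d⁄dX ℂ (mp F) := by
  ext k; simp [coeff_derivative]

theorem τ1_deriv (x : ℚ) (q : Polynomial ℚ) : τ1 x q.derivative = d⁄dX ℚ (τ1 x q) :=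
  mp_inj (by rw [mp_deriv, mp_τ1, mp_τ1, τp_deriv])

theorem tendsto_trunc {R : ℝ} {x : ℚ} (hx : (x : ℂ) ∈ ball (0 : ℂ) R) (k : ℕ) :
    ∀ {g : ℂ → ℂ} {F : ℚ⟦X⟧}, DifferentiableOn ℂ g (ball 0 R) → mp F = tay g 0 →
      Tendsto (fun K => ((coeff k (τ1 x (trunc K F)) : ℚ) : ℂ)) atTop (𝓝 (coeff k (tay g x))) := by
  induction k with
  | zero =>
    intro g F hg hF
    rw [coeff_zero_tay]
    refine (Complex.hasSum_taylorSeries_on_ball hg hx).tendsto_sum_nat.congr fun K => ?_
    rw [coeff_τ1, Polynomial.taylor_coeff_zero, ← aeval_rat, Polynomial.aeval_def,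
      eval₂_trunc_eq_sum_range]
    refine sum_congr rfl fun i _ => ?_
    rw [← coeff_map, hF, coeff_tay, smul_eq_mul, smul_eq_mul, sub_zero]
    ring
  | succ k ih =>
    intro g F hg hF
    have h0 : ((k : ℂ) + 1) ≠ 0 := by exact_mod_cast k.succ_ne_zero
    have := (ih (hg.deriv isOpen_ball) (F := d⁄dX ℚ F) (by rw [mp_deriv, hF, tay_deriv])).div_const
      ((k : ℂ) + 1)
    simp only [tay_deriv, trunc_derivative, τ1_deriv, coeff_derivative, Rat.cast_mul, Rat.cast_add,
      Rat.cast_natCast, Rat.cast_one, mul_div_cancel_right₀ _ h0] at this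
    exact (tendsto_add_atTop_iff_nat 1).1 this

variable {ν : Type*} [Fintype ν] [DecidableEq ν] {T : Polynomial ℚ} {B : Matrix ν ν (Polynomial ℚ)}

theorem iterK_eq {p : ℂ} (hp : Polynomial.aeval p T ≠ 0) {ψ : ℂ → ν → ℂ} (hψ : ∀ᶠ t in 𝓝 p, VSol (Az T B) ψ t)
    (m : ℕ) (i : ν) : ∀ᶠ t in 𝓝 p, Polynomial.aeval t T ^ m * iteratedDeriv m (ψ · i) t =
      ∑ j, Polynomial.aeval t (iterK T B m i j) * ψ t j := by
  have ha : AnalyticAt ℂ (ψ · i) p := analyticAt_pi_iff.1
    (analyticAt_of_eventually (hψ.mono fun _ hs => hs.differentiableAt)) i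
  induction m with
  | zero => exact .of_forall fun t => by simp [iterK, one_apply, apply_ite (Polynomial.aeval t)]
  | succ m ih =>
    have h0 : AnalyticAt ℂ (iteratedDeriv m (ψ · i)) p := by
      rw [iteratedDeriv_eq_iterate]; exact ha.iterated_deriv m
    filter_upwards [ih.eventually_nhds, hψ, h0.eventually_analyticAt,
      (analyticAt_aeval T p).continuousAt.eventually_ne hp] with t h1 h2 h3 h4
    have h5 := ((T.hasDerivAt_aeval t).fun_pow m).fun_mul h3.differentiableAt.hasDerivAt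
    have h6 := HasDerivAt.fun_sum (u := Finset.univ) fun j _ =>
      ((iterK T B m i j).hasDerivAt_aeval t).fun_mul (hasDerivAt_pi.1 h2 j)
    have h7 := (h5.congr_of_eventuallyEq (EventuallyEq.symm h1)).unique h6
    have e : ∑ j, Polynomial.aeval t ((iterK T B m * B) i j) * ψ t j = Polynomial.aeval t T * ∑ j,
        Polynomial.aeval t (iterK T B m i j) * (Az T B t *ᵥ ψ t) j := by
      simp only [mul_apply, map_sum, map_mul, mulVec, dotProduct, Az, of_apply, Finset.mul_sum,
        Finset.sum_mul]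
      rw [Finset.sum_comm]
      refine Finset.sum_congr rfl fun j _ => Finset.sum_congr rfl fun k _ => ?_
      field_simp
    have e2 : (m : ℂ) * Polynomial.aeval t T ^ (m - 1) * Polynomial.aeval t T = m * Polynomial.aeval t T ^ m := by
      rcases m with _ | m
      · simp
      · rw [add_tsub_cancel_right, pow_succ, mul_assoc]
    rw [Finset.sum_add_distrib] at h7
    simp only [iterK, Matrix.add_apply, Matrix.sub_apply, Matrix.smul_apply, map_apply,
      smul_eq_mul, map_add, map_sub, add_mul, sub_mul, Finset.sum_add_distrib,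
      Finset.sum_sub_distrib, e]
    simp only [map_mul, map_natCast, mul_assoc, ← Finset.mul_sum, ← h1.self_of_nhds]
    rw [iteratedDeriv_succ]
    linear_combination Polynomial.aeval t T * h7 -
      Polynomial.aeval t (Polynomial.derivative T) * iteratedDeriv m (ψ · i) t * e2

variable (T B) in
/-- the formal fundamental matrix at a rational point -/
def Gb (s : ℚ) : Matrix ν ν ℚ⟦X⟧ := of fun i j => PowerSeries.mk fun k =>
  (iterK T B k i j).eval s / (T.eval s ^ k * k.factorial)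

theorem Gb_zero (s : ℚ) : (Gb T B s).map constantCoeff = 1 := by
  ext i j
  simp [Gb, ← coeff_zero_eq_constantCoeff_apply, iterK, one_apply, apply_ite]

section
variable {P : ℂ → Matrix ν ν ℂ} {s : ℚ} (hP : ∀ᶠ t in 𝓝 (s : ℂ), MSol (Az T B) P t)
  (hT : Polynomial.aeval (s : ℂ) T ≠ 0)
include hP hT

theorem tay_P : (of fun i j => tay (P · i j) s) = (Gb T B s).map mp * (P s).map C := by
  ext i j k
  have := (iterK_eq hT (hP.mono fun _ h => h.col j) k i).self_of_nhds
  have h5 : (k.factorial : ℂ) ≠ 0 := by exact_mod_cast k.factorial_ne_zero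
  rw [of_apply, coeff_tay, eq_div_of_mul_eq (pow_ne_zero k hT) ((mul_comm _ _).trans this)]
  simp only [mul_apply, map_sum, map_apply, coeff_mul_C, coeff_map, Gb, of_apply, coeff_mk,
    eq_ratCast, Rat.cast_div, Rat.cast_mul, Rat.cast_pow, ← aeval_rat, Rat.cast_natCast, sum_div]
  exact sum_congr rfl fun l _ => by field_simp

theorem Gb_ode {Q : Matrix ν ν ℂ} (hQ : P s * Q = 1) :
    τ1 s T • (Gb T B s).map (d⁄dX ℚ) = B.map (τ1 s) * Gb T B s := by
  have hu : (P s).map (C : ℂ →+* ℂ⟦X⟧) * Q.map C = 1 := by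
    rw [← Matrix.map_mul, hQ, Matrix.map_one _ (map_zero _) (map_one _)]
  refine Matrix.map_injective mp_inj ?_
  dsimp only
  rw [Matrix.map_mul, ← Matrix.mul_one (_ * _), ← hu, ← Matrix.mul_assoc,
    Matrix.mul_assoc _ _ ((P s).map C), ← tay_P hP hT, ← Matrix.mul_one (Matrix.map _ mp), ← hu,
    ← Matrix.mul_assoc]
  congr 1
  ext1 i j
  have h0 := hP.mono fun _ h => h.col j
  have h1 := isS_tay (analyticAt_of_eventually (h0.mono fun _ h => h.differentiableAt))
    (nhdsWithin_le_nhds (((analyticAt_aeval T _).continuousAt.eventually_ne hT).and h0)) i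
  have h2 := congrFun₂ (tay_P hP hT) i j
  rw [of_apply] at h2
  simp only [h2] at h1
  simpa [mul_apply, mp_τ1, mp_deriv, mul_sum, mul_assoc, mul_comm (C _)] using h1

end

theorem deg_iter {R : Type*} [CommRing R] {T : Polynomial R} {B : Matrix ν ν (Polynomial R)} {g : ℕ}
    (hT : T.natDegree ≤ g) (hB : ∀ i j, (B i j).natDegree ≤ g) (k : ℕ)
    (i j : ν) : (iterK T B k i j).natDegree ≤ k * g := by
  induction k generalizing j with
  | zero => simp [iterK, one_apply, apply_ite]
  | succ k ih =>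
    simp only [iterK, Matrix.add_apply, Matrix.sub_apply, Matrix.smul_apply, map_apply,
      smul_eq_mul, mul_apply, add_mul, one_mul]
    refine (Polynomial.natDegree_add_le _ _).trans (max_le ((Polynomial.natDegree_sub_le _ _).trans
      (max_le (Polynomial.natDegree_mul_le.trans ?_) (Polynomial.natDegree_mul_le.trans ?_)))
      (Polynomial.natDegree_sum_le_of_forall_le _ _ fun l _ =>
        Polynomial.natDegree_mul_le.trans (add_le_add (ih l) (hB l j))))
    · have := Polynomial.natDegree_derivative_le (iterK T B k i j)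
      have := ih j
      omega
    · have := Polynomial.natDegree_derivative_le T
      have := ih j
      have := Polynomial.natDegree_mul_le (p := (k : Polynomial R)) (q := T.derivative)
      rw [Polynomial.natDegree_natCast] at this
      omega

theorem exists_deg {R : Type*} [CommRing R] (T : Polynomial R) (B : Matrix ν ν (Polynomial R)) :
    ∃ g, T.natDegree ≤ g ∧ ∀ i j, (B i j).natDegree ≤ g :=
  ⟨T.natDegree + univ.sup fun p : ν × ν => (B p.1 p.2).natDegree, Nat.le_add_right _ _,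
    fun i j => le_add_left (le_sup (f := fun p : ν × ν => (B p.1 p.2).natDegree) (mem_univ (i, j)))⟩

theorem den_eval (s : ℚ) {W : Polynomial ℚ} {D : ℕ} {a : ℚ} (h : W.natDegree ≤ D)
    (hW : ∀ l, ∃ z : ℤ, a * W.coeff l = z) : ∃ z : ℤ, a * (s.den : ℚ) ^ D * W.eval s = z := by
  choose z hz using hW
  refine ⟨∑ i ∈ range (D + 1), z i * s.num ^ i * s.den ^ (D - i), ?_⟩
  rw [Polynomial.eval_eq_sum_range' (Nat.lt_succ_of_le h), mul_sum, Int.cast_sum]
  refine sum_congr rfl fun i hi => ?_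
  rw [← Nat.sub_add_cancel (Nat.le_of_lt_succ (mem_range.1 hi)), add_tsub_cancel_right, pow_add]
  push_cast
  rw [← Rat.mul_den_eq_num, ← hz]
  ring

theorem Gb_gf (h : GalK T B) {S : ℝ} {Ω : Set ℚ}
    (h0 : ∀ x ∈ Ω, T.eval x ≠ 0 ∧ |((T.eval x : ℚ) : ℝ)| ≤ S ∧
      ∀ i j k, |((coeff k (Gb T B x i j) : ℚ) : ℝ)| ≤ (S * x.den) ^ (k + 1)) (i j : ν) :
    (fun x : Ω => Gb T B x i j) ∈ UF (fun x : Ω => 2 * x.1.den) fun x => two_le x := by
  obtain ⟨c, hc⟩ := h
  obtain ⟨g, hT, hB⟩ := exists_deg T B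
  obtain ⟨a, a0, ha⟩ : ∃ a : ℕ, 0 < a ∧ ∀ l, ∃ z : ℤ, (a : ℚ) * T.coeff l = z := by
    refine ⟨∏ l ∈ T.support, (T.coeff l).den, by positivity, fun l => ?_⟩
    by_cases h : l ∈ T.support
    · exact ⟨(∏ l ∈ T.support.erase l, (T.coeff l).den : ℕ) * (T.coeff l).num, by
        rw [← prod_erase_mul _ _ h, Nat.cast_mul, mul_assoc]; simp⟩
    · exact ⟨0, by simp [Polynomial.notMem_support_iff.1 h]⟩
  obtain ⟨e, he⟩ := pow_unbounded_of_one_lt (|c| + |S| + a * |S|) one_lt_two
  have e0 : (0 : ℝ) ≤ a * |S| := by positivity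
  refine ⟨2 * e + g + 1, fun ⟨x, hx⟩ k => ?_⟩
  obtain ⟨a1, a2, a3⟩ := h0 x hx
  have b0 : (2 : ℝ) ≤ (2 * x.den : ℕ) := by exact_mod_cast two_le x
  have b1 : (2 : ℝ) ^ e ≤ (2 * x.den : ℕ) ^ e := by gcongr
  obtain ⟨d, d0, d1, d2⟩ := hc k
  obtain ⟨N, hN⟩ := den_eval x hT ha
  have q0 : (x.den : ℚ) ≠ 0 := by exact_mod_cast x.den_nz
  have N0 : N ≠ 0 := fun e => mul_ne_zero (a := a * (x.den : ℚ) ^ g) (by positivity) a1
    (by rw [hN, e, Int.cast_zero])
  refine ⟨fun _ => (a3 i j k).trans ((le_abs_self _).trans ?_), d * N.natAbs ^ k, by positivity, ?_,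
    fun _ l hl => ?_⟩
  · rw [abs_pow, Nat.cast_pow, abs_mul, Nat.abs_cast, pow_succ _ (2 * e + g)]
    refine pow_le_pow_left₀ (by positivity) (mul_le_mul (le_trans ?_ (b1.trans
      (pow_le_pow_right₀ (by linarith) (by omega)))) (by exact_mod_cast (by omega : x.den ≤ 2 * x.den))
      (by positivity) (by positivity)) _
    linarith [abs_nonneg c]
  · have c1 : (N.natAbs : ℝ) ≤ (2 * x.den : ℕ) ^ (e + g) := by
      have c2 : (x.den : ℝ) ≤ (2 * x.den : ℕ) := by exact_mod_cast (by omega)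
      rw [Nat.cast_natAbs, Int.cast_abs, ← Rat.cast_intCast, ← hN, mul_right_comm, Rat.cast_mul,
        Rat.cast_mul, abs_mul, abs_mul, Rat.cast_pow, Rat.cast_natCast, Rat.cast_natCast, abs_pow,
        Nat.abs_cast, Nat.abs_cast, pow_add]
      refine mul_le_mul (le_trans ?_ b1) (pow_le_pow_left₀ (by positivity) c2 g) (by positivity)
        (by positivity)
      linarith [abs_nonneg c, abs_nonneg S,
        mul_le_mul_of_nonneg_left (a2.trans (le_abs_self S)) a.cast_nonneg]
    have c3 : (d : ℝ) ≤ ((2 * x.den : ℕ) ^ e) ^ (k + 1) := d1.trans ((le_abs_self _).trans (by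
      rw [abs_pow]
      gcongr
      linarith [abs_nonneg S]))
    have c4 := mul_le_mul c3 ((pow_le_pow_left₀ (by positivity) c1 k).trans (pow_le_pow_right₀
      (one_le_pow₀ (by linarith)) k.le_succ)) (by positivity) (by positivity)
    rw [← mul_pow, ← pow_add, ← add_assoc, ← two_mul] at c4
    exact_mod_cast c4.trans (pow_le_pow_left₀ (by positivity)
      (pow_le_pow_right₀ (by linarith) (Nat.le_succ _)) _)
  · have l1 : (l.factorial : ℚ) ≠ 0 := by exact_mod_cast l.factorial_ne_zero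
    obtain ⟨z, hz⟩ := den_eval x (a := d / l.factorial) (deg_iter hT hB l i j) fun m =>
      (IsIntegrallyClosed.isIntegral_iff.1 (d2 l hl i j m)).imp fun z hz => by
        rw [div_mul_eq_mul_div, ← hz]; rfl
    obtain ⟨y, hy⟩ : N ^ l ∣ (N.natAbs : ℤ) ^ k :=
      (pow_dvd_pow N hl).trans (pow_dvd_pow_of_dvd (Int.dvd_natAbs.2 dvd_rfl) k)
    have c2 := congrArg (Int.cast : ℤ → ℚ) hy
    simp only [Int.cast_pow, Int.cast_natCast, Int.cast_mul, ← hN] at c2
    refine ⟨a ^ l * y * z, ?_⟩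
    simp only [Gb, of_apply, coeff_mk, Nat.cast_mul, Nat.cast_pow, Int.cast_mul, ← hz, c2,
      Int.cast_pow, Int.cast_natCast]
    rw [mul_comm l g, pow_mul, mul_pow, mul_pow]
    field_simp

end

end Pool.Agent.Lib.MP_5591bc_ag.R
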