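import Pool.Agent.Lib.MP_5591bc_ag.RVal

/-! Elimination of the transcendental constants and lifting of relations. -/

namespace Pool.Agent.Lib.MP_5591bc_ag.R

open Matrix Finset Filter Topology PowerSeries G Function

noncomputable section

variable {A A' E : Type*} [Fintype A] [DecidableEq A] [Fintype A'] [DecidableEq A'] [Fintype E]

/-- a matrix of rational linear forms -/
def Gm (Γ : A' → E → A → ℚ) (x : A → ℂ) : Matrix A' E ℂ := of fun μ ν => ∑ α, Γ μ ν α * x α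

/-- every rational linear relation at `x` is the specialisation of a functional one -/
def LGood (Φ : ℂ → A' → ℂ) (x : ℚ) : Prop :=
  ∀ c : A' → ℚ, (fun μ => (c μ : ℂ)) ⬝ᵥ Φ x = 0 → ∃ h : A' → Polynomial ℚ,
    (∀ μ, (h μ).eval x = c μ) ∧ ∀ᶠ z in 𝓝 (x : ℂ), (fun μ => Polynomial.aeval z (h μ)) ⬝ᵥ Φ z = 0

theorem aeval_rat (x : ℚ) (p : Polynomial ℚ) : Polynomial.aeval (x : ℂ) p = (p.eval x : ℚ) :=
  Polynomial.aeval_algebraMap_apply_eq_algebraMap_eval x p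

omit [DecidableEq A'] in
theorem dot_zero {p : A' → Polynomial ℚ} {θ : A' → ℂ}
    (h : ∀ π : Module.Dual ℚ ℂ, ∑ μ, π (θ μ) • p μ = 0) (z : ℂ) :
    (fun μ => Polynomial.aeval z (p μ)) ⬝ᵥ θ = 0 := by
  have : ∑ μ, θ μ • (p μ).map (algebraMap ℚ ℂ) = 0 := Polynomial.ext fun k =>
    (Module.forall_dual_apply_eq_zero_iff ℚ _).1 fun π => by
      have := congrArg (·.coeff k) (h π)
      simp only [Polynomial.finset_sum_coeff, Polynomial.coeff_smul, Polynomial.coeff_map, map_sum,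
        smul_eq_mul, Polynomial.coeff_zero] at this ⊢
      rw [← this]
      exact sum_congr rfl fun μ _ => by rw [mul_comm, ← Algebra.smul_def, map_smul, smul_eq_mul, mul_comm]
  simpa [Polynomial.eval_finset_sum, dotProduct, mul_comm] using congrArg (Polynomial.eval z) this

/-- the vectors killed at `z` by all polynomial relations of `f` -/
def Fib (f : A → ℚ⟦X⟧) (z : ℂ) : Set (A → ℂ) :=
  {u | ∀ l : A → Polynomial ℚ, (fun a => (l a : ℚ⟦X⟧)) ⬝ᵥ f = 0 →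
    (fun a => Polynomial.aeval z (l a)) ⬝ᵥ u = 0}

omit [DecidableEq A] in
theorem Sat.fib {f : A → ℚ⟦X⟧} {U : A → Polynomial ℚ} (h : U ∈ Sat f) (x : ℚ) :
    (fun α => (((U α).eval x : ℚ) : ℂ)) ∈ Fib f x := fun l hl => by
  have := congrArg (Polynomial.aeval (x : ℂ)) (h l hl)
  simpa [dotProduct, aeval_rat] using this

theorem lift (f : A → ℚ⟦X⟧) (Γ : A' → E → A → ℚ) (θ : E → ℂ) :
    ∃ p : Polynomial ℚ, p ≠ 0 ∧ ∀ x : ℚ, p.eval x ≠ 0 →
      (∀ b : A → ℂ, (∀ U ∈ Sat f, b ⬝ᵥ (fun α => ((U α).eval x : ℚ)) = 0) →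
        ∀ u ∈ Fib f x, b ⬝ᵥ u = 0) ∧
      ∀ c : A' → ℚ, (∀ U ∈ Sat f, (fun μ => (c μ : ℂ)) ⬝ᵥ
        (Gm Γ (fun α => ((U α).eval x : ℚ)) *ᵥ θ) = 0) → ∃ h : A' → Polynomial ℚ,
          (∀ μ, (h μ).eval x = c μ) ∧ ∀ᶠ z in 𝓝 (x : ℂ), ∀ u ∈ Fib f z,
            (fun μ => Polynomial.aeval z (h μ)) ⬝ᵥ (Gm Γ u *ᵥ θ) = 0 := by
  obtain ⟨r, -, v, I, a1, a2, a3⟩ :=
    greedy fun (_ : ℕ) (l : A → Polynomial ℚ) => (fun a => (l a : ℚ⟦X⟧)) ⬝ᵥ f = 0
  have a4 : ∀ β, lam v I β ∈ Sat f := fun β l hl => by rw [dotProduct_comm, ← bord_eq, a3 l hl]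
  have a5 : ∀ z, ∀ u ∈ Fib f z, Polynomial.aeval z (mnr v I) • u =
      ∑ β, u β • fun α => Polynomial.aeval z (lam v I β α) := fun z u hz => funext fun α => by
    have := lam_sum (v := fun l j => (Polynomial.aeval z).toRingHom (v l j)) I (x := u)
      (fun l => (dotProduct_comm _ _).trans (hz _ (a1 l))) α
    simp only [← map_lam, ← map_mnr] at this
    simpa [Finset.sum_apply] using this.symm
  let g : A → Module.Dual ℚ ℂ → A' → Polynomial ℚ := fun β π μ =>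
    ∑ ν, π (θ ν) • ∑ α, Γ μ ν α • lam v I β α
  obtain ⟨r', -, v', I', b1, b2, b3⟩ :=
    greedy fun (_ : ℕ) (u : A' → Polynomial ℚ) => ∃ β π, u = g β π
  refine ⟨mnr v I * mnr v' I', mul_ne_zero a2 b2, fun x hp => ?_⟩
  rw [Polynomial.eval_mul, mul_ne_zero_iff] at hp
  have h1 : Polynomial.aeval (x : ℂ) (mnr v I) ≠ 0 := by rw [aeval_rat]; exact_mod_cast hp.1
  refine ⟨fun b hb u hx => ?_, fun c hc => ⟨fun γ => ((mnr v' I').eval x)⁻¹ • ∑ β, c β • lam v' I' β γ,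
    fun γ => ?_, ?_⟩⟩
  · have := congrArg (b ⬝ᵥ ·) (a5 x u hx)
    simp only [dotProduct_smul, dotProduct_sum, aeval_rat, hb _ (a4 _), smul_zero, sum_const_zero,
      smul_eq_zero] at this
    exact this.resolve_left (by exact_mod_cast hp.1)
  · have := lam_sum (v := fun l j => Polynomial.evalRingHom x (v' l j)) I' (x := c) (fun l => by
      obtain ⟨β, π, e⟩ := b1 l
      have := congrArg π (hc _ (a4 β))
      simp only [dotProduct, mulVec, Gm, of_apply, ← Rat.cast_mul, ← Rat.cast_sum] at this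
      simp only [← Rat.smul_def, map_sum, map_smul, map_zero] at this
      simpa [e, g, dotProduct, Polynomial.eval_finset_sum, mul_comm] using this) γ
    simp only [← map_lam, ← map_mnr] at this
    simp only [Polynomial.coe_evalRingHom] at this
    simp only [Polynomial.eval_smul, Polynomial.eval_finset_sum, smul_eq_mul, this]
    exact inv_mul_cancel_left₀ hp.2 _
  · filter_upwards [(Polynomial.continuous_aeval _).continuousAt.eventually_ne h1] with z h2 u hz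
    obtain ⟨h, hh⟩ : ∃ h : A' → Polynomial ℚ, h = fun γ =>
      ((mnr v' I').eval x)⁻¹ • ∑ β, c β • lam v' I' β γ := ⟨_, rfl⟩
    have c1 : ∀ β π, h ⬝ᵥ g β π = 0 := fun β π => by
      have : h = ((mnr v' I').eval x)⁻¹ • ∑ β, c β • lam v' I' β := by
        rw [hh]; ext1; simp [Finset.sum_apply]
      simp only [this, smul_dotProduct, sum_dotProduct, ← bord_eq, b3 _ ⟨β, π, rfl⟩, smul_zero,
        sum_const_zero]
    have c2 : ∀ β, (fun μ => Polynomial.aeval z (h μ)) ⬝ᵥ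
        (Gm Γ (fun α => Polynomial.aeval z (lam v I β α)) *ᵥ θ) = 0 := fun β => by
      rw [dotProduct_mulVec, ← dot_zero (p := fun ν => ∑ μ, h μ * ∑ α, Γ μ ν α • lam v I β α)
        (θ := θ) (fun π => by
          rw [← c1 β π]
          simp only [dotProduct, g, mul_sum, smul_sum, mul_smul_comm]
          exact sum_comm) z]
      congr 1
      ext ν
      simp [vecMul, dotProduct, Gm, Rat.smul_def]
    have c3 : Polynomial.aeval z (mnr v I) • Gm Γ u =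
        ∑ β, u β • Gm Γ fun α => Polynomial.aeval z (lam v I β α) := by
      ext μ ν
      have := fun α => congrFun (a5 z u hz) α
      simp only [Pi.smul_apply, smul_eq_mul, Finset.sum_apply] at this
      simp only [Gm, Matrix.smul_apply, Matrix.sum_apply, of_apply, smul_eq_mul, mul_sum,
        mul_left_comm (Polynomial.aeval z _), this]
      rw [sum_comm]
      simp only [mul_left_comm]
    have c4 := congrArg (fun M => (fun μ => Polynomial.aeval z (h μ)) ⬝ᵥ (M *ᵥ θ)) c3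
    simp only [smul_mulVec, sum_mulVec, dotProduct_smul, dotProduct_sum, c2, smul_zero,
      sum_const_zero, smul_eq_zero] at c4
    simpa only [hh] using c4.resolve_left h2

omit [DecidableEq A] [Fintype A'] [DecidableEq A'] in
theorem mnr_tens {r : ℕ} (κ : Fin r → A' → A → ℚ) (I : Fin r → A') (y : Fin r → A → ℂ) :
    mnr (fun l μ => ∑ α, κ l μ α * y l α) I =
      (fun α => ((mnr (fun l μ => κ l μ (α l)) I : ℚ) : ℂ)) ⬝ᵥ tens y := by
  simp only [mnr, dotProduct, tens]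
  simp only [← det_transpose (of _), det_apply', transpose_apply, of_apply, prod_univ_sum, mul_sum,
    Fintype.piFinset_univ, Rat.cast_sum, sum_mul]
  rw [sum_comm]
  simp [prod_mul_distrib, mul_assoc]

theorem finite_rat (n : ℕ) : {x : ℚ | x.den ≤ n ∧ |(x : ℝ)| ≤ 2}.Finite := by
  refine (((Set.finite_Icc (-(2 * n : ℤ)) (2 * n)).prod (Set.finite_Icc 0 n)).image
    fun p : ℤ × ℕ => (p.1 : ℚ) / p.2).subset fun x ⟨h1, h2⟩ =>
      ⟨(x.num, x.den), ⟨abs_le.1 ?_, Nat.zero_le _, h1⟩, x.num_div_den⟩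
  have h3 : |x| ≤ 2 := by exact_mod_cast h2
  have h4 : (x.den : ℚ) ≤ n := by exact_mod_cast h1
  have : |(x.num : ℚ)| ≤ 2 * n := by
    rw [← Rat.mul_den_eq_num, abs_mul, Nat.abs_cast]
    gcongr
  exact_mod_cast this

variable {T : Polynomial ℚ} {B : Matrix A A (Polynomial ℚ)} {Ω : Set ℚ}
  {G : ℚ → Matrix A A ℚ⟦X⟧} {f : A → ℚ⟦X⟧} {ψ : ℂ → A → ℂ}

omit [Fintype A'] [DecidableEq A'] in
theorem One.elim0 {φ : ℚ → A → ℂ} (H : One T B Ω G f φ) {p : Polynomial ℚ} (p0 : p ≠ 0)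
    (κ : ℚ → E → A → ℚ) (θ : E → ℂ) {L : ℕ}
    (hL : ∀ m ≤ Fintype.card E + 1, 2 * Fintype.card (Fin m → A) * (2 * m + 2) ^ m < L) {s : ℝ}
    (s1 : 1 < s) (hs : s ^ (8 * L + 2) ≤ 3 / 2) {S : Set ℚ} {w : ℚ → ℕ}
    (hS : ∀ x ∈ S, x ∈ Ω ∧ (fun μ => ∑ α, κ x μ α * φ x α) ⬝ᵥ θ = 0 ∧ x.den ≤ 2 ^ w x ∧
      2 ^ w x ≤ x.den ^ 2 ∧ |(x : ℝ)| ≤ 2 * (s / 2) ^ w x)
    (hp : ∀ x ∈ S, p.eval x ≠ 0 → ∀ b : A → ℂ,
      (∀ U ∈ Sat f, b ⬝ᵥ (fun α => ((U α).eval x : ℚ)) = 0) → b ⬝ᵥ φ x = 0)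
    (hZ : ∀ m ≤ Fintype.card E + 1, ∀ ξ : Fin m → ℚ, (∀ i, ξ i ∈ S) → ∀ D, ∃ Z : ℕ, 0 < Z ∧
      (Z : ℝ) ≤ (2 * s ^ 2) ^ D ∧ ∀ j : Fin m →₀ ℕ, Finsupp.weight (fun i => w (ξ i)) j ≤ D →
        ∃ y : ℤ, (Z : ℚ) * ∏ i, ξ i ^ j i = y) (hi : S.Infinite) :
    ∃ x ∈ S, p.eval x ≠ 0 ∧
      ∀ U ∈ Sat f, (fun μ => ∑ α, κ x μ α * (((U α).eval x : ℚ) : ℂ)) ⬝ᵥ θ = 0 := by
  by_contra h0
  choose Λm hΛ using fun m : Fin (Fintype.card E + 2) =>
    H.value (hL m (Nat.le_of_lt_succ m.2)) s1 hs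
  obtain ⟨Λ, hΛ'⟩ : ∃ Λ, ∀ m, Λm m ≤ Λ := ⟨univ.sup Λm, fun m => le_sup (mem_univ m)⟩
  have big : ∀ n, ∃ x ∈ S, p.eval x ≠ 0 ∧ n ≤ w x := fun n => by
    obtain ⟨x, h1, h2⟩ := (hi.diff ((finite_rat (2 ^ n)).union (Polynomial.finite_setOf_isRoot p0))).nonempty
    obtain ⟨-, -, a1, -, a2⟩ := hS x h1
    refine ⟨x, h1, fun h => h2 (Or.inr h), not_lt.1 fun h => h2 (Or.inl
      ⟨a1.trans (Nat.pow_le_pow_right two_pos h.le), a2.trans ?_⟩)⟩
    have : s ≤ 3 / 2 := (le_self_pow₀ s1.le (by omega)).trans hs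
    linarith [pow_le_one₀ (n := w x) (by linarith : 0 ≤ s / 2) (by linarith)]
  have key : ∀ r, ∃ (ξ : Fin r → ℚ) (I : Fin r → E),
      (∀ i, ξ i ∈ S ∧ p.eval (ξ i) ≠ 0 ∧ Λ ≤ w (ξ i)) ∧ (∀ i j, i < j → Λ * w (ξ j) ≤ w (ξ i)) ∧
      mnr (fun l μ => ∑ α, κ (ξ l) μ α * φ (ξ l) α) I ≠ 0 := fun r => by
    induction r with
    | zero => exact ⟨Fin.elim0, Fin.elim0, fun i => i.elim0, fun i => i.elim0, by simp [mnr]⟩
    | succ r ih =>
    obtain ⟨ξ, I, a1, a2, a3⟩ := ih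
    have hr : r ≤ Fintype.card E := by simpa using Fintype.card_le_of_injective I (mnr_inj a3)
    obtain ⟨x, x1, x2, x3⟩ := big (Λ + Λ * ∑ i, w (ξ i))
    obtain ⟨ξ', hξ⟩ : ∃ ξ' : Fin (r + 1) → ℚ, ξ' = Fin.cons x ξ := ⟨_, rfl⟩
    have b1 : ∀ i, ξ' i ∈ S ∧ p.eval (ξ' i) ≠ 0 ∧ Λ ≤ w (ξ' i) := fun i => by
      rw [hξ]; exact Fin.cases ⟨x1, x2, le_trans (Nat.le_add_right _ _) x3⟩ a1 i
    have b2 : ∀ i j, i < j → Λ * w (ξ' j) ≤ w (ξ' i) := fun i j => by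
      rw [hξ]
      refine Fin.cases (fun h => absurd h (Fin.not_lt_zero _)) (fun j => ?_) j
      refine Fin.cases (fun _ => le_trans ?_ ((Nat.le_add_left _ _).trans x3))
        (fun i h => a2 i j (Fin.succ_lt_succ_iff.1 h)) i
      exact Nat.mul_le_mul_left _ (single_le_sum (f := fun i => w (ξ i)) (fun _ _ => Nat.zero_le _)
        (mem_univ j))
    by_contra hn
    refine h0 ⟨x, x1, x2, fun U hU => ?_⟩
    obtain ⟨g, hg⟩ := sat_eq (v := fun l μ => ∑ α, κ (ξ l) μ α * φ (ξ l) α) (I := I)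
      (u := fun μ => ∑ α, κ x μ α * (((U α).eval x : ℚ) : ℂ)) fun β => by
        have d1 : mnr (fun l μ => ∑ α, κ (ξ' l) μ α * φ (ξ' l) α) (Fin.cons β I) = 0 :=
          by_contra fun h => hn ⟨ξ', _, b1, b2, h⟩
        rw [mnr_tens] at d1
        have d2 := hΛ ⟨r + 1, by omega⟩ ξ' (fun i => w (ξ' i)) (fun i => (hS _ (b1 i).1).1)
          (fun i => (hΛ' _).trans (b1 i).2.2)
          (fun i j h => (Nat.mul_le_mul_right _ (hΛ' _)).trans (b2 i j h))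
          (fun i => (hS _ (b1 i).1).2.2.1) (fun i => (hS _ (b1 i).1).2.2.2.1)
          (fun i => (hS _ (b1 i).1).2.2.2.2) (hZ _ (by omega) _ fun i => (b1 i).1) _ d1
        have d3 := mrep (a := fun α => ((mnr (fun l μ => κ (ξ' l) μ (α l)) (Fin.cons β I) : ℚ) : ℂ))
          (S := fun i => (fun (U : A → Polynomial ℚ) α => (((U α).eval (ξ' i) : ℚ) : ℂ)) '' Sat f)
          (S' := fun i => insert (φ (ξ' i))
            ((fun (U : A → Polynomial ℚ) α => (((U α).eval (ξ' i) : ℚ) : ℂ)) '' Sat f))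
          (fun i b hb y hy => hy.elim (fun e => e ▸ hp _ (b1 i).1 (b1 i).2.1 b
            fun U hU => hb _ ⟨U, hU, rfl⟩) (hb y))
          (fun y hy => by
            choose U h1 h2 using hy
            have := congrArg (Rat.cast : ℚ → ℂ) (d2 U h1)
            rw [← funext h2]
            simpa [dotProduct, tens] using this)
          (x := Fin.cons (fun α => (((U α).eval x : ℚ) : ℂ)) fun l => φ (ξ l)) fun i => by
            rw [hξ]
            exact Fin.cases (Or.inr ⟨U, hU, rfl⟩) (fun _ => Or.inl rfl) i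
        rw [← mnr_tens, hξ] at d3
        refine Eq.trans ?_ d3
        rw [bord]
        congr 1
        ext1 l
        exact Fin.cases rfl (fun _ => rfl) l
    have := congrArg (· ⬝ᵥ θ) hg
    simp only [smul_dotProduct, sum_dotProduct, (hS _ (a1 _).1).2.1, smul_zero, sum_const_zero,
      smul_eq_zero] at this
    exact this.resolve_left a3
  obtain ⟨ξ, I, -, -, h⟩ := key (Fintype.card E + 1)
  simpa using Fintype.card_le_of_injective I (mnr_inj h)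

theorem One.elim (H : One T B Ω G f fun x => ψ x) {V : Set ℂ} (hV : IsOpen V)
    (rel : ∀ l : A → Polynomial ℚ, (fun a => (l a : ℚ⟦X⟧)) ⬝ᵥ f = 0 → ∀ z ∈ V,
      (fun a => Polynomial.aeval z (l a)) ⬝ᵥ ψ z = 0) (Γ : A' → E → A → ℚ) (θ : E → ℂ) {L : ℕ}
    (hL : ∀ m ≤ Fintype.card E + 1, 2 * Fintype.card (Fin m → A) * (2 * m + 2) ^ m < L) {s : ℝ}
    (s1 : 1 < s) (hs : s ^ (8 * L + 2) ≤ 3 / 2) {S : Set ℚ} {w : ℚ → ℕ}
    (hS : ∀ x ∈ S, x ∈ Ω ∧ (x : ℂ) ∈ V ∧ x.den ≤ 2 ^ w x ∧ 2 ^ w x ≤ x.den ^ 2 ∧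
      |(x : ℝ)| ≤ 2 * (s / 2) ^ w x)
    (hZ : ∀ m ≤ Fintype.card E + 1, ∀ ξ : Fin m → ℚ, (∀ i, ξ i ∈ S) → ∀ D, ∃ Z : ℕ, 0 < Z ∧ (Z : ℝ) ≤ (2 * s ^ 2) ^ D ∧
      ∀ j : Fin m →₀ ℕ, Finsupp.weight (fun i => w (ξ i)) j ≤ D →
        ∃ y : ℤ, (Z : ℚ) * ∏ i, ξ i ^ j i = y) (hi : S.Infinite) :
    ∃ x ∈ S, LGood (fun z => Gm Γ (ψ z) *ᵥ θ) x := by
  by_contra hn
  simp only [LGood, not_exists, not_and, not_forall] at hn
  choose! c c1 c2 using hn
  obtain ⟨p, p0, hp⟩ := lift f Γ θ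
  let κ : ℚ → E → A → ℚ := fun x μ α => ∑ ν, c x ν * Γ ν μ α
  have hκ : ∀ x (y : A → ℂ), (fun μ => ∑ α, κ x μ α * y α) ⬝ᵥ θ =
      (fun μ => (c x μ : ℂ)) ⬝ᵥ (Gm Γ y *ᵥ θ) := fun x y => by
    rw [dotProduct_mulVec]
    congr 1
    ext μ
    simp only [κ, vecMul, dotProduct, Gm, of_apply, Rat.cast_sum, Rat.cast_mul, sum_mul, mul_sum,
      mul_assoc]
    exact sum_comm
  obtain ⟨x, x1, x2, x3⟩ := H.elim0 p0 κ θ hL s1 hs (fun x hx => ⟨(hS x hx).1,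
    (hκ x _).trans (c1 x hx), (hS x hx).2.2⟩) (fun x hx h b hb => (hp x h).1 b hb _
      fun l hl => rel l hl _ (hS x hx).2.1) hZ hi
  obtain ⟨h, h1, h2⟩ := (hp x x2).2 (c x) fun U hU => (hκ x _).symm.trans (x3 U hU)
  refine c2 x x1 h h1 ?_
  filter_upwards [h2, hV.mem_nhds (hS x x1).2.1] with z h3 hz using h3 _ fun l hl => rel l hl z hz

theorem exists_Gm (κ : A' → A → ℂ) : ∃ (Γ : A' → A' × A → A → ℚ) (θ : A' × A → ℂ),
    ∀ x, Gm Γ x *ᵥ θ = fun μ => κ μ ⬝ᵥ x :=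
  ⟨fun μ ν α => if (μ, α) = ν then 1 else 0, fun ν => κ ν.1 ν.2, fun x => funext fun μ => by
    simp only [Gm, mulVec, dotProduct, of_apply, sum_mul]
    rw [sum_comm]
    simp [apply_ite (Rat.cast : ℚ → ℂ), mul_comm]⟩

end

end Pool.Agent.Lib.MP_5591bc_ag.R
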