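import Pool.Agent.Lib.MP_5591bc_ag.RTens
import Pool.Agent.Lib.MP_5591bc_ag.GSie

/-! Pade approximants of the second kind in several variables and the arithmetic estimate. -/

namespace Pool.Agent.Lib.MP_5591bc_ag.R

open Matrix Finset Filter Topology MvPowerSeries

noncomputable section

variable {σ J : Type*} [Fintype σ] [DecidableEq σ] [Fintype J]

/-- a box of exponents -/
def bx (n : σ → ℕ) : Finset (σ →₀ ℕ) :=
  (Fintype.piFinset fun i => range (n i + 1)).map Finsupp.equivFunOnFinite.symm.toEmbedding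

theorem mem_bx {n : σ → ℕ} {d : σ →₀ ℕ} : d ∈ bx n ↔ ∀ i, d i ≤ n i := by
  simp [bx, mem_map_equiv, Nat.lt_succ_iff]

theorem card_bx (n : σ → ℕ) : (bx n).card = ∏ i, (n i + 1) := by simp [bx]

omit [DecidableEq σ] in
theorem weight_eq (w : σ → ℕ) (d : σ →₀ ℕ) : Finsupp.weight w d = ∑ i, d i * w i := by
  simp [Finsupp.weight_apply, Finsupp.sum_fintype]

omit [DecidableEq σ] in
theorem le_weight (w : σ → ℕ) (d : σ →₀ ℕ) (i : σ) : d i * w i ≤ Finsupp.weight w d := by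
  rw [weight_eq]
  exact single_le_sum (f := fun i => d i * w i) (fun _ _ => Nat.zero_le _) (mem_univ i)

theorem siegel2 {α β : Type*} [Fintype α] [Fintype β] (A : Matrix α β ℤ) {a : ℝ} (ha : 1 ≤ a)
    (hA : ∀ i j, |(A i j : ℝ)| ≤ a) (h0 : 0 < Fintype.card β)
    (h : 2 * Fintype.card α ≤ Fintype.card β) :
    ∃ t : β → ℤ, t ≠ 0 ∧ A *ᵥ t = 0 ∧ ∀ j, |(t j : ℝ)| ≤ Fintype.card β * a := by
  rcases (Fintype.card α).eq_zero_or_pos with e | e
  · have := Fintype.card_eq_zero_iff.1 e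
    obtain ⟨j⟩ := Fintype.card_pos_iff.1 h0
    refine ⟨1, fun h => one_ne_zero (congrFun h j), Subsingleton.elim _ _, fun j => ?_⟩
    simpa using one_le_mul_of_one_le_of_one_le (by exact_mod_cast h0) ha
  · simpa using G.siegel A ha hA (κ := Fintype.card β - Fintype.card α) (g := 1) (by omega) e
      (by omega) (by omega)

theorem pade (F : J → MvPowerSeries σ ℚ) {w : σ → ℕ} (hw : ∀ i, 0 < w i) {L g t d : ℕ}
    (hL : 2 * Fintype.card J * (2 * Fintype.card σ + 2) ^ Fintype.card σ < L)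
    (ht : ∀ i, L * g ≤ t * w i) (hd : 0 < d) {a : ℝ} (ha : 1 ≤ a)
    (hF : ∀ β ν, Finsupp.weight w ν ≤ 2 * (L * g) →
      ∃ z : ℤ, (d : ℚ) * coeff ν (F β) = z ∧ |(z : ℝ)| ≤ a) :
    ∃ k < L, ∃ (Q : MvPolynomial σ ℚ) (μ : σ →₀ ℕ), Q.coeff μ ≠ 0 ∧ Finsupp.weight w μ ≤ L * g ∧
      nr 1 Q ≤ d * 2 ^ (2 * t * Fintype.card σ) * a ∧
      (∀ β ν, Finsupp.weight w ν ≤ 2 * (L * g) → ∃ z : ℤ, coeff ν ((Q : MvPowerSeries σ ℚ) * F β) = z) ∧
      ∀ β ν, (L + k) * g < Finsupp.weight w ν → Finsupp.weight w ν < (L + k + 1) * g →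
        coeff ν ((Q : MvPowerSeries σ ℚ) * F β) = 0 := by
  set m := Fintype.card σ with hm
  let S := bx fun i => L * g / ((m + 1) * w i)
  let U := bx fun i => 2 * (L * g) / w i
  let sh : ℕ → Finset (σ →₀ ℕ) := fun k => U.filter fun ν =>
    (L + k) * g < Finsupp.weight w ν ∧ Finsupp.weight w ν < (L + k + 1) * g
  have S0 : 0 < S.card := card_pos.2 ⟨0, mem_bx.2 fun _ => Nat.zero_le _⟩
  have hU : U.card ≤ (2 * m + 2) ^ m * S.card := by
    rw [card_bx, card_bx, hm, ← card_univ, ← prod_const, ← prod_mul_distrib, card_univ]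
    refine prod_le_prod' fun i _ => Nat.succ_le_of_lt ((Nat.div_lt_iff_lt_mul (hw i)).2 ?_)
    have := Nat.lt_div_mul_add (a := L * g) (Nat.mul_pos m.succ_pos (hw i))
    nlinarith
  obtain ⟨k, hk, hs⟩ : ∃ k ∈ range L, 2 * Fintype.card J * (sh k).card ≤ S.card := by
    by_contra hn
    push Not at hn
    have a1 : ∑ k ∈ range L, (sh k).card ≤ U.card := by
      rw [← card_biUnion]
      · exact card_le_card (biUnion_subset.2 fun k _ => filter_subset _ _)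
      · intro k _ k' _ h
        refine disjoint_filter.2 fun ν _ h1 h2 => h ?_
        have b1 := lt_of_mul_lt_mul_right (h1.1.trans h2.2) g.zero_le
        have b2 := lt_of_mul_lt_mul_right (h2.1.trans h1.2) g.zero_le
        omega
    have a2 := card_nsmul_le_sum _ _ _ fun k hk => (hn k hk).le
    rw [← mul_sum, card_range, smul_eq_mul] at a2
    have a3 := a2.trans (Nat.mul_le_mul_left _ (a1.trans hU))
    rw [← mul_assoc] at a3
    exact absurd (Nat.le_of_mul_le_mul_right a3 S0) (by omega)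
  have hk' := mem_range.1 hk
  choose! z hz1 hz2 using hF
  have hle : ∀ ν j : σ →₀ ℕ, Finsupp.weight w (ν - j) ≤ Finsupp.weight w ν := fun ν j => by
    rw [weight_eq, weight_eq]
    exact sum_le_sum fun i _ => Nat.mul_le_mul_right _ (Nat.sub_le _ _)
  have hkL : (L + k + 1) * g ≤ 2 * (L * g) := by nlinarith
  obtain ⟨q, q0, q1, q2⟩ := siegel2 (of fun (x : J × sh k) (j : S) =>
    if j.1 ≤ x.2.1 then z x.1 (x.2.1 - j.1) else 0) ha (fun x j => by
      rw [of_apply]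
      split_ifs
      · exact hz2 _ _ ((hle _ _).trans ((mem_filter.1 x.2.2).2.2.le.trans hkL))
      · simpa using zero_le_one.trans ha) (by simpa using S0) (by simpa [mul_assoc] using hs)
  obtain ⟨j0, hj0⟩ := Function.ne_iff.1 q0
  have hc : ∀ β ν, Finsupp.weight w ν ≤ 2 * (L * g) → coeff ν
      (((∑ j : S, MvPolynomial.monomial j.1 ((d : ℚ) * q j) : MvPolynomial σ ℚ) :
        MvPowerSeries σ ℚ) * F β) =
      (∑ j : S, (if j.1 ≤ ν then z β (ν - j.1) else 0) * q j : ℤ) := fun β ν hν => by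
    rw [← MvPolynomial.coeToMvPowerSeries.ringHom_apply, map_sum, sum_mul, map_sum, Int.cast_sum]
    refine sum_congr rfl fun j _ => ?_
    rw [MvPolynomial.coeToMvPowerSeries.ringHom_apply, MvPolynomial.coe_monomial, coeff_monomial_mul]
    split_ifs
    · rw [Int.cast_mul, ← hz1 _ _ ((hle _ _).trans hν)]; ring
    · simp
  refine ⟨k, hk', ∑ j : S, MvPolynomial.monomial j.1 ((d : ℚ) * q j), j0.1, ?_, ?_, ?_,
    fun β ν hν => ⟨_, hc β ν hν⟩, fun β ν h1 h2 => ?_⟩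
  · rw [MvPolynomial.coeff_sum, sum_eq_single j0 (fun j _ h => by
      rw [MvPolynomial.coeff_monomial, if_neg (Subtype.val_injective.ne h)]) (by simp)]
    simpa using ⟨hd.ne', hj0⟩
  · rw [weight_eq]
    refine (sum_le_card_nsmul _ _ (L * g / (m + 1)) fun i _ => ?_).trans ?_
    · rw [Nat.le_div_iff_mul_le m.succ_pos, mul_assoc, mul_comm (w i),
        ← Nat.le_div_iff_mul_le (Nat.mul_pos m.succ_pos (hw i))]
      exact mem_bx.1 j0.2 i
    · exact (Nat.mul_le_mul_right _ m.le_succ).trans (Nat.mul_div_le _ _)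
  · have hS : (S.card : ℝ) ≤ 2 ^ (t * m) := by
      rw [pow_mul, card_bx]
      exact_mod_cast (prod_le_pow_card _ _ (2 ^ t) fun i _ => Nat.succ_le_of_lt
        (lt_of_le_of_lt (Nat.div_le_of_le_mul ((ht i).trans (by nlinarith [Nat.zero_le (m * w i * t)]))) Nat.lt_two_pow_self))
    refine (nr_sum (fun _ => zero_le_one) _ _).trans ((sum_le_card_nsmul _ _
      (d * (2 ^ (t * m) * a)) fun j _ => ?_).trans ?_)
    · have := (q2 j).trans (mul_le_mul_of_nonneg_right (by simpa using hS) (zero_le_one.trans ha))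
      simp only [nr_monomial, Pi.one_apply, one_pow, prod_const_one, mul_one, Rat.cast_mul,
        Rat.cast_natCast, Rat.cast_intCast, abs_mul, Nat.abs_cast]
      gcongr
    · rw [nsmul_eq_mul, card_univ, Fintype.card_coe]
      exact (mul_le_mul_of_nonneg_right hS (by positivity)).trans (le_of_eq (by ring))
  · have h3 := h2.le.trans hkL
    rw [hc β ν h3]
    exact_mod_cast congrFun q1 (β, ⟨ν, mem_filter.2 ⟨mem_bx.2 fun i =>
      (Nat.le_div_iff_mul_le (hw i)).2 ((le_weight w ν i).trans h3), h1, h2⟩⟩)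

theorem nr_high {ρ r : σ → ℝ} (hρ : ∀ i, 0 ≤ ρ i) (hr : ∀ i, 0 ≤ r i) {θ : ℝ} (h0 : 0 ≤ θ)
    (h1 : θ ≤ 1) {w : σ → ℕ} (h : ∀ i, ρ i ≤ θ ^ w i * r i) {D : ℕ} {p q : MvPolynomial σ ℚ}
    (hp : ∀ d, p.coeff d ≠ 0 → D ≤ Finsupp.weight w d ∧ p.coeff d = q.coeff d) :
    nr ρ p ≤ θ ^ D * nr r q := by
  rw [nr_eq (p := q) (subset_union_right (s₁ := p.support)), mul_sum, nr]
  refine le_trans (sum_le_sum fun d hd => ?_) (sum_le_sum_of_subset_of_nonneg subset_union_left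
    fun d _ _ => mul_nonneg (pow_nonneg h0 _) (nr_term hr d _))
  obtain ⟨a1, a2⟩ := hp d (MvPolynomial.mem_support_iff.1 hd)
  rw [a2, mul_left_comm]
  refine mul_le_mul_of_nonneg_left ((prod_le_prod (fun i _ => pow_nonneg (hρ i) _) fun i _ =>
    pow_le_pow_left₀ (hρ i) (h i) _).trans ?_) (abs_nonneg _)
  simp only [mul_pow, ← pow_mul, prod_mul_distrib, prod_pow_eq_pow_sum, mul_comm (w _),
    ← weight_eq]
  exact mul_le_mul_of_nonneg_right (pow_le_pow_of_le_one h0 h1 a1)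
    (prod_nonneg fun i _ => pow_nonneg (hr i) _)

theorem coeff_mul_le {ρ : σ → ℝ} (hρ : ∀ i, 0 ≤ ρ i) {A : MvPowerSeries σ ℚ} {M : ℝ}
    (hA : ∀ ν, |((coeff ν A : ℚ) : ℝ)| * ∏ i, ρ i ^ ν i ≤ M) (g : MvPolynomial σ ℚ) (μ : σ →₀ ℕ) :
    |((coeff μ (A * g) : ℚ) : ℝ)| * ∏ i, ρ i ^ μ i ≤ M * nr ρ g := by
  conv_lhs => rw [g.as_sum, ← MvPolynomial.coeToMvPowerSeries.ringHom_apply, map_sum, mul_sum,
    map_sum, Rat.cast_sum]
  rw [nr, mul_sum]
  refine (mul_le_mul_of_nonneg_right (abs_sum_le_sum_abs _ _)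
    (prod_nonneg fun i _ => pow_nonneg (hρ i) _)).trans ?_
  rw [sum_mul]
  refine sum_le_sum fun d _ => ?_
  rw [MvPolynomial.coeToMvPowerSeries.ringHom_apply, MvPolynomial.coe_monomial, coeff_mul_monomial]
  split_ifs with h
  · refine le_trans (le_of_eq ?_) (mul_le_mul_of_nonneg_right (hA (μ - d)) (nr_term hρ d _))
    conv_lhs => rw [← tsub_add_cancel_of_le h]
    simp only [add_tsub_cancel_right, Finsupp.add_apply, pow_add, prod_mul_distrib, Rat.cast_mul,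
      abs_mul]
    ring
  · simpa using mul_nonneg ((nr_term hρ 0 _).trans (hA 0)) (nr_term hρ d _)

omit [DecidableEq σ] in
theorem sh_int (ξ : σ → ℚ) (j : σ →₀ ℕ) : ∀ z : ℚ, (∀ j' ≤ j, ∃ y : ℤ, z * ∏ i, ξ i ^ j' i = y) →
    z • sh ξ (MvPolynomial.monomial j 1) ∈ ZP σ := by
  classical
  induction j using fs_ind with
  | h0 =>
    intro z h
    obtain ⟨y, hy⟩ := h 0 le_rfl
    exact ⟨MvPolynomial.C y, by simp at hy; simp [hy, MvPolynomial.smul_eq_C_mul]⟩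
  | h j i ih =>
    intro z h
    have a1 := ih z fun j' hj => h j' (hj.trans le_self_add)
    have a2 := ih (z * ξ i) fun j' hj => by
      obtain ⟨y, hy⟩ := h (j' + Finsupp.single i 1) (by gcongr)
      refine ⟨y, Eq.trans ?_ hy⟩
      simp only [Finsupp.add_apply, pow_add, prod_mul_distrib]
      rw [prod_eq_single (f := fun x => ξ x ^ Finsupp.single i 1 x) i
        (fun j _ h => by simp [Finsupp.single_eq_of_ne h]) (by simp)]
      simp only [Finsupp.single_eq_same]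
      ring
    have e : sh ξ (MvPolynomial.X i) = MvPolynomial.X i + MvPolynomial.C (ξ i) := by simp [sh]
    rw [MvPolynomial.monomial_add_single, pow_one, map_mul, e, mul_add, smul_add, ← smul_mul_assoc,
      mul_comm _ (MvPolynomial.C _), ← MvPolynomial.smul_eq_C_mul, ← mul_smul]
    exact add_mem (mul_mem a1 ⟨MvPolynomial.X i, MvPolynomial.map_X _ _⟩) a2

omit [DecidableEq σ] in
theorem sh_int' {ξ : σ → ℚ} {w : σ → ℕ} {D Z : ℕ} {p : MvPolynomial σ ℚ} (hp : p ∈ ZP σ)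
    (hD : ∀ d, p.coeff d ≠ 0 → Finsupp.weight w d ≤ D)
    (hZ : ∀ j : σ →₀ ℕ, Finsupp.weight w j ≤ D → ∃ y : ℤ, (Z : ℚ) * ∏ i, ξ i ^ j i = y) :
    (Z : ℚ) • sh ξ p ∈ ZP σ := by
  rw [p.as_sum, map_sum, smul_sum]
  refine sum_mem fun d hd => ?_
  obtain ⟨z, hz⟩ := mem_ZP.1 hp d
  have := mul_mem (intCast_mem (ZP σ) z) (sh_int ξ d Z fun j hj => hZ j (le_trans (by
    rw [weight_eq, weight_eq]
    exact sum_le_sum fun i _ => Nat.mul_le_mul_right _ (hj i))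
    (hD d (MvPolynomial.mem_support_iff.1 hd))))
  rwa [mul_smul_comm, ← map_intCast (sh ξ), ← map_mul, ← map_intCast (MvPolynomial.C : ℚ →+* MvPolynomial σ ℚ),
    MvPolynomial.C_mul_monomial, mul_one, ← hz] at this

omit [Fintype σ] in
theorem coeff_int {A : Matrix J J (MvPowerSeries σ ℚ)} {P : J → MvPolynomial σ ℚ} {c : J → ℚ}
    {a b Z : ℚ} {μ : σ →₀ ℕ} (hc : ∀ β, ∃ z : ℤ, a * c β = z)
    (hA : ∀ β γ, ∀ ν ≤ μ, ∃ z : ℤ, b * coeff ν (A β γ) = z) (hP : ∀ β, Z • P β ∈ ZP σ) :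
    ∃ z : ℤ, a * b * Z * coeff μ ((fun j => C (c j)) ⬝ᵥ (A *ᵥ fun j => P j)) = z := by
  suffices a * b * Z * coeff μ ((fun j => C (c j)) ⬝ᵥ (A *ᵥ fun j => P j)) ∈
    (Int.castRingHom ℚ).range from this.imp fun z hz => hz.symm
  simp only [dotProduct, mulVec, map_sum, coeff_C_mul, mul_sum]
  simp only [coeff_mul, mul_sum]
  refine sum_mem fun β _ => sum_mem fun γ _ => sum_mem fun p hp => ?_
  obtain ⟨x, hx⟩ := hc β
  obtain ⟨y, hy⟩ := hA β γ p.1 (mem_antidiagonal.1 hp ▸ le_self_add)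
  obtain ⟨z, hz⟩ := mem_ZP.1 (hP γ) p.2
  refine ⟨x * y * z, ?_⟩
  rw [eq_intCast, Int.cast_mul, Int.cast_mul, ← hx, ← hy, ← hz, MvPolynomial.coeff_smul,
    MvPolynomial.coeff_coe, smul_eq_mul]
  ring

theorem est [DecidableEq J] {ξ : σ → ℚ} {P : J → MvPolynomial σ ℚ}
    {A Y : Matrix J J (MvPowerSeries σ ℚ)} {δ : MvPowerSeries σ ℚ} (hAY : A * Y = δ • 1)
    {c : J → ℚ} {Φ : J → ℂ} (hc : ∑ γ, c γ * Φ γ = 0) {Q : MvPolynomial σ ℚ}
    {F : ℕ → J → MvPolynomial σ ℚ} (hlim : ∀ ν β, Tendsto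
      (fun K => ((coeff ν (τs ξ (F K β)) : ℚ) : ℂ)) atTop (𝓝 (∑ γ, (coeff ν (Y β γ) : ℚ) * Φ γ)))
    {ρ : σ → ℝ} (hρ : ∀ i, 0 ≤ ρ i) {M ε : ℝ}
    (hA : ∀ β γ ν, |((coeff ν (A β γ) : ℚ) : ℝ)| * ∏ i, ρ i ^ ν i ≤ M)
    (hR : ∀ᶠ K in atTop, ∀ β, nr ρ (sh ξ (Q * F K β - P β)) ≤ ε) (μ : σ →₀ ℕ) :
    |((coeff μ ((fun j => C (c j)) ⬝ᵥ (A *ᵥ fun j => τs ξ (P j))) : ℚ) : ℝ)| * ∏ i, ρ i ^ μ i ≤
      (∑ β, |(c β : ℝ)|) * (Fintype.card J * (M * ε)) := by
  obtain ⟨H, hH⟩ : ∃ H, H = τs ξ Q • ((fun j => C (c j)) ᵥ* A) := ⟨_, rfl⟩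
  have h1 : Tendsto (fun K => ((coeff μ (H ⬝ᵥ fun j => τs ξ (F K j)) : ℚ) : ℂ)) atTop (𝓝 0) := by
    have a1 : H ᵥ* Y = (τs ξ Q * δ) • fun j => C (c j) := by
      rw [hH, smul_vecMul, vecMul_vecMul, hAY, vecMul_smul, vecMul_one, mul_smul]
    have a2 : ∑ β, ∑ p ∈ antidiagonal μ, ((coeff p.1 (H β) : ℚ) : ℂ) *
        ∑ γ, (coeff p.2 (Y β γ) : ℚ) * Φ γ = 0 := by
      have a3 : ∀ γ, ∑ β, ∑ p ∈ antidiagonal μ, ((coeff p.1 (H β) : ℚ) : ℂ) *
          ((coeff p.2 (Y β γ) : ℚ) * Φ γ) = (coeff μ (τs ξ Q * δ) : ℚ) * (c γ * Φ γ) := fun γ => by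
        have := congrArg (fun x => ((coeff μ (x γ) : ℚ) : ℂ) * Φ γ) a1
        simp only [Pi.smul_apply, smul_eq_mul, coeff_mul_C, Rat.cast_mul] at this
        rw [← mul_assoc, ← this]
        simp only [vecMul, dotProduct, map_sum, coeff_mul, Rat.cast_sum, Rat.cast_mul, sum_mul,
          mul_assoc]
      simp only [mul_sum]
      rw [sum_congr rfl fun β _ => sum_comm, sum_comm]
      simp only [a3, ← mul_sum, hc, mul_zero]
    simp only [dotProduct, map_sum, coeff_mul, Rat.cast_sum, Rat.cast_mul]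
    rw [← a2]
    exact tendsto_finset_sum _ fun β _ => tendsto_finset_sum _ fun p _ => (hlim _ _).const_mul _
  have h0 : 0 ≤ ∏ i, ρ i ^ μ i := prod_nonneg fun i _ => pow_nonneg (hρ i) _
  have h2 := (h1.norm.mul_const (∏ i, ρ i ^ μ i)).add_const
    ((∑ β, |(c β : ℝ)|) * (Fintype.card J * (M * ε)))
  rw [norm_zero, zero_mul, zero_add] at h2
  refine ge_of_tendsto h2 (hR.mono fun K hK => ?_)
  have e : (fun j => C (c j)) ⬝ᵥ (A *ᵥ fun j => τs ξ (P j)) = H ⬝ᵥ (fun j => τs ξ (F K j)) -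
      (fun j => C (c j)) ⬝ᵥ (A *ᵥ fun j => τs ξ (Q * F K j - P j)) := by
    rw [hH, smul_dotProduct, ← dotProduct_mulVec, ← dotProduct_smul, ← mulVec_smul,
      ← dotProduct_sub, ← mulVec_sub]
    congr 2
    ext1 j
    simp
  rw [e, map_sub, Rat.cast_sub, ← Complex.ofReal_ratCast, Complex.norm_real, Real.norm_eq_abs]
  refine (mul_le_mul_of_nonneg_right (abs_sub _ _) h0).trans ?_
  rw [add_mul, add_le_add_iff_left, dotProduct, map_sum, Rat.cast_sum, sum_mul]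
  refine (mul_le_mul_of_nonneg_right (abs_sum_le_sum_abs _ _) h0).trans ?_
  rw [sum_mul]
  refine sum_le_sum fun β _ => ?_
  rw [coeff_C_mul, Rat.cast_mul, abs_mul, mul_assoc, mulVec, dotProduct, map_sum, Rat.cast_sum]
  refine mul_le_mul_of_nonneg_left ((mul_le_mul_of_nonneg_right (abs_sum_le_sum_abs _ _) h0).trans
    ?_) (abs_nonneg _)
  rw [sum_mul, ← nsmul_eq_mul]
  exact sum_le_card_nsmul _ _ _ fun γ _ => (coeff_mul_le hρ (hA β γ) _ μ).trans
    (mul_le_mul_of_nonneg_left (hK γ) ((nr_term hρ 0 _).trans (hA β γ 0)))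

end

end Pool.Agent.Lib.MP_5591bc_ag.R
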