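import Pool.Agent.Lib.MP_5591bc_ag.ROne

/-! Finiteness of the exceptional points whose denominators are almost `S`-units. -/

namespace Pool.Agent.Lib.MP_5591bc_ag.R

open Matrix Finset Filter Topology G Function Metric

noncomputable section

theorem common_den {S : Finset ℕ} (hS : ∀ p ∈ S, p.Prime) {M m : ℕ} (M0 : 0 < M) {s t : ℝ}
    (s1 : 1 ≤ s) (t0 : 0 ≤ t) (ht : t ^ m ≤ s) (hM : ((∏ p ∈ S, p : ℕ) : ℝ) ≤ s ^ M) {κ : ℕ → ℕ}
    (hκ : ∏ p ∈ S, p ^ κ p ≤ 2 ^ M) {ξ : Fin m → ℚ} {w b : Fin m → ℕ} {v : Fin m → ℕ → ℕ}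
    (w0 : ∀ i, 0 < w i) (hd : ∀ i, (ξ i).den = b i * ∏ p ∈ S, p ^ v i p)
    (hb : ∀ i, (b i : ℝ) ≤ t ^ w i) (t1 : 1 ≤ t) (hv : ∀ i, ∀ p ∈ S, M * v i p ≤ (κ p + 1) * w i)
    (D : ℕ) : ∃ Z : ℕ, 0 < Z ∧ (Z : ℝ) ≤ (2 * s ^ 2) ^ D ∧ ∀ j : Fin m →₀ ℕ,
      Finsupp.weight w j ≤ D → ∃ y : ℤ, (Z : ℚ) * ∏ i, ξ i ^ j i = y := by
  have b0 : ∀ i, 0 < b i := fun i => Nat.pos_of_mul_pos_right (hd i ▸ (ξ i).den_pos)
  refine ⟨(∏ i, b i ^ (D / w i)) * ∏ p ∈ S, p ^ ((κ p + 1) * D / M), Nat.mul_pos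
    (prod_pos fun i _ => pow_pos (b0 i) _) (prod_pos fun p hp => pow_pos (hS p hp).pos _), ?_,
    fun j hj => ?_⟩
  · have a1 : ((∏ i, b i ^ (D / w i) : ℕ) : ℝ) ≤ s ^ D := by
      refine le_trans ?_ (pow_le_pow_left₀ (by positivity) ht D)
      rw [← pow_mul, mul_comm, pow_mul, Nat.cast_prod]
      refine (prod_le_prod (fun _ _ => by positivity) fun i _ => ?_).trans
        (prod_const (t ^ D) |>.trans (by rw [card_fin])).le
      rw [Nat.cast_pow]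
      refine (pow_le_pow_left₀ (by positivity) (hb i) _).trans ?_
      rw [← pow_mul]
      exact pow_le_pow_right₀ t1 (Nat.mul_div_le _ _)
    have a2 : (∏ p ∈ S, p ^ ((κ p + 1) * D / M)) ^ M ≤ (2 ^ M * ∏ p ∈ S, p) ^ D := by
      refine le_trans ?_ (Nat.pow_le_pow_left (Nat.mul_le_mul_right _ hκ) D)
      rw [← prod_mul_distrib, ← prod_pow, ← prod_pow]
      refine prod_le_prod' fun p hp => ?_
      rw [← pow_succ, ← pow_mul, ← pow_mul]
      exact Nat.pow_le_pow_right (hS p hp).pos (Nat.div_mul_le_self _ _)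
    have a3 : ((∏ p ∈ S, p ^ ((κ p + 1) * D / M) : ℕ) : ℝ) ≤ (2 * s) ^ D := by
      refine le_of_pow_le_pow_left₀ M0.ne' (by positivity) ((show _ ≤ (((2 ^ M * ∏ p ∈ S, p) ^ D :
        ℕ) : ℝ) by exact_mod_cast a2).trans ?_)
      rw [← pow_mul, mul_comm D, pow_mul, mul_pow 2 s, Nat.cast_pow, Nat.cast_mul, Nat.cast_pow,
        Nat.cast_ofNat]
      gcongr
    rw [Nat.cast_mul]
    exact (mul_le_mul a1 a3 (by positivity) (by positivity)).trans (le_of_eq (by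
      rw [← mul_pow]; ring))
  · obtain ⟨y, hy⟩ : ∏ i, (ξ i).den ^ j i ∣
        (∏ i, b i ^ (D / w i)) * ∏ p ∈ S, p ^ ((κ p + 1) * D / M) := by
      simp only [hd, mul_pow, prod_mul_distrib, ← prod_pow, ← pow_mul]
      refine mul_dvd_mul (prod_dvd_prod_of_dvd _ _ fun i _ => pow_dvd_pow _
        ((Nat.le_div_iff_mul_le (w0 i)).2 ((le_weight w j i).trans hj))) ?_
      rw [Finset.prod_comm]
      refine prod_dvd_prod_of_dvd _ _ fun p hp => ?_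
      rw [prod_pow_eq_pow_sum]
      refine pow_dvd_pow _ ((Nat.le_div_iff_mul_le M0).2
        (le_trans ?_ (Nat.mul_le_mul_left _ hj)))
      rw [weight_eq, sum_mul, mul_sum]
      exact sum_le_sum fun i _ => by nlinarith [Nat.mul_le_mul_right (j i) (hv i p hp)]
    refine ⟨y * ∏ i, (ξ i).num ^ j i, ?_⟩
    rw [hy]
    push_cast
    simp only [← Rat.mul_den_eq_num, mul_pow, prod_mul_distrib]
    ring

theorem exists_L (A : Type*) [Fintype A] (N : ℕ) :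
    ∃ L, ∀ m ≤ N + 1, 2 * Fintype.card (Fin m → A) * (2 * m + 2) ^ m < L :=
  ⟨(range (N + 2)).sup (fun m => 2 * Fintype.card (Fin m → A) * (2 * m + 2) ^ m) + 1, fun m hm =>
    Nat.lt_succ_of_le (le_sup (f := fun m => 2 * Fintype.card (Fin m → A) * (2 * m + 2) ^ m)
      (mem_range.2 (by omega)))⟩

theorem sunit (K : Type) [Field K] [NumberField K] [Algebra K ℂ] (n r δ : ℕ) :
    ∃ η : ℝ, 0 < η ∧ ∀ (T : Polynomial K) (B : Matrix (Fin n) (Fin n) (Polynomial K)), GalK T B →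
    ∀ s : K, T.eval s ≠ 0 → ∀ U : Set ℂ, IsOpen U → IsPreconnected U → algebraMap K ℂ s ∈ U →
    ∀ P : ℂ → Matrix (Fin n) (Fin n) ℂ, FundK T B U P →
    ∀ ℓ : Fin r → Matrix (Fin n) (Fin n) ℂ →ₗ[ℂ] ℂ, ∀ S : Finset ℕ, (∀ p ∈ S, p.Prime) →
    {ξ : ℚ | (∃ (b : ℕ) (v : ℕ → ℕ), ξ.den = b * ∏ p ∈ S, p ^ v p ∧ (b : ℝ) ≤ (ξ.den : ℝ) ^ η) ∧
      |(ξ : ℝ)| ≤ (ξ.den : ℝ) ^ (η - 1) ∧ ¬ GoodK U (fun t i => ℓ i (P t)) δ (s + ξ)}.Finite := by
  classical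
  set N := Fintype.card (((Fin δ → Option (Fin r)) × Ix K) ×
    (Fin δ → Option ((Fin n × Ix K) × (Fin n × Ix K)))) with hN
  obtain ⟨L, hL⟩ := exists_L (Fin δ → Option ((Fin n × Ix K) × (Fin n × Ix K))) N
  obtain ⟨η, η0, hη⟩ : ∃ η : ℝ, 0 < η ∧ η * ((N + 1) * (8 * L + 2) : ℕ) = 1 / 2 :=
    ⟨1 / 2 / ((N + 1) * (8 * L + 2) : ℕ), by positivity, div_mul_cancel₀ _ (by positivity)⟩
  refine ⟨η, η0, fun T B h s0 hT U ho hc hs P hP ℓ S hS => ?_⟩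
  obtain ⟨t, ht⟩ : ∃ t : ℝ, t = 2 ^ η := ⟨_, rfl⟩
  have t1 : 1 < t := ht ▸ Real.one_lt_rpow one_lt_two η0
  have s1 : 1 < t ^ (N + 1) := one_lt_pow₀ t1 (by omega)
  have hs' : (t ^ (N + 1)) ^ (8 * L + 2) ≤ 3 / 2 := by
    rw [← pow_mul, ht, ← Real.rpow_mul_natCast zero_le_two, hη, ← Real.sqrt_eq_rpow]
    exact Real.sqrt_le_iff.2 (by norm_num)
  have s2 : t ^ (N + 1) ≤ 3 / 2 := (le_self_pow₀ s1.le (by omega)).trans hs'
  have ts : t ≤ t ^ (N + 1) := le_self_pow₀ t1.le (by omega)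
  have η1 : η ≤ 1 := by
    have : (1 : ℝ) ≤ ((N + 1) * (8 * L + 2) : ℕ) := by exact_mod_cast Nat.succ_le_of_lt (by positivity)
    nlinarith
  obtain ⟨T', B0, u, T0, hG, hu⟩ := restrict h hT
  obtain ⟨R, R0, Y, Y0, hR, B', G, f, H, rel⟩ := exists_one hG T0
    (U := {z | z + algebraMap K ℂ s0 ∈ U})
    ((ho.preimage (continuous_add_right _)).mem_nhds (by simpa using hs)) δ
  obtain ⟨E, F, hEF⟩ := exists_lin hP hu R0 Y0 hR
  obtain ⟨lam, hlam⟩ : ∃ lam : Option (Fin r) → Option ((Fin n × Ix K) × (Fin n × Ix K)) → ℂ,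
      ∀ o (Z : Matrix (Fin n × Ix K) (Fin n × Ix K) ℂ), hat (fun i => ℓ i (E * Z * F)) o = ∑ a, lam o a * hatg Z a := by
    refine ⟨fun o a => o.elim (a.elim 1 fun _ => 0) fun i => a.elim 0 fun x =>
      ℓ i (E * single x.1 x.2 (1 : ℂ) * F), ?_⟩
    rintro (_ | i) Z
    · simp [hat, hatg]
    · conv_lhs => rw [matrix_eq_sum_single Z]
      simp only [hat, hatg, Option.elim_some, Fintype.sum_option, Option.elim_none, zero_mul,
        zero_add, Fintype.sum_prod_type (α₁ := Fin n × Ix K), Matrix.mul_sum, Matrix.sum_mul, map_sum]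
      refine sum_congr rfl fun x _ => sum_congr rfl fun y _ => ?_
      rw [mul_comm, ← smul_eq_mul, ← map_smul, ← Matrix.smul_mul, ← Matrix.mul_smul, smul_single,
        smul_eq_mul, mul_one]
  obtain ⟨Γ, θ, hΓ⟩ := exists_Gm fun (μ : (Fin δ → Option (Fin r)) × Ix K)
    (α : Fin δ → Option ((Fin n × Ix K) × (Fin n × Ix K))) =>
    algebraMap K ℂ (NumberField.integralBasis K μ.2) * ∏ l, lam (μ.1 l) (α l)
  obtain ⟨w0, hw0⟩ := exists_pow_lt_of_lt_one (show 0 < R / 4 by linarith)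
    (show (3 / 4 : ℝ) < 1 by norm_num)
  obtain ⟨M, hM⟩ := pow_unbounded_of_one_lt ((∏ p ∈ S, p : ℕ) : ℝ) s1
  have M0 : 0 < M := Nat.pos_of_ne_zero fun e => by
    have := prod_pos fun p hp => (hS p hp).pos
    rw [e, pow_zero, Nat.cast_lt_one] at hM
    omega
  obtain ⟨X, hX⟩ : ∃ X : Set ℚ, ∀ ξ, ξ ∈ X ↔ 2 ^ w0 < ξ.den ∧ (∃ (b : ℕ) (v : ℕ → ℕ),
    ξ.den = b * ∏ p ∈ S, p ^ v p ∧ (b : ℝ) ≤ (ξ.den : ℝ) ^ η) ∧
      |(ξ : ℝ)| ≤ (ξ.den : ℝ) ^ (η - 1) ∧ ¬ GoodK U (fun t i => ℓ i (P t)) δ (s0 + ξ) :=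
    ⟨{ξ | _}, fun _ => Iff.rfl⟩
  refine ((finite_rat (2 ^ w0)).union (t := X) ?_).subset fun ξ hξ => ?_
  swap
  · rcases le_or_gt ξ.den (2 ^ w0) with e | e
    · exact Or.inl ⟨e, hξ.2.1.trans ((Real.rpow_le_one_of_one_le_of_nonpos
        (by exact_mod_cast ξ.den_pos) (by linarith)).trans one_le_two)⟩
    · exact Or.inr ((hX ξ).2 ⟨e, hξ⟩)
  choose! b v hb1 hb2 using fun ξ h => ((hX ξ).1 h).2.1
  let w : ℚ → ℕ := fun x => Nat.clog 2 x.den
  have w1 : ∀ x : ℚ, x.den ≤ 2 ^ w x := fun x => Nat.le_pow_clog one_lt_two _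
  have w2 : ∀ x ∈ X, w0 < w x := fun x hx =>
    (Nat.pow_lt_pow_iff_right one_lt_two).1 (((hX x).1 hx).1.trans_le (w1 x))
  have w3 : ∀ x ∈ X, 2 ^ w x ≤ 2 * x.den ∧ 2 ≤ x.den := fun x hx => by
    have a1 : 1 < x.den := Nat.one_le_two_pow.trans_lt ((hX x).1 hx).1
    have a2 := Nat.pow_pred_clog_lt_self one_lt_two a1
    have a3 : w x = (Nat.clog 2 x.den).pred + 1 :=
      (Nat.succ_pred_eq_of_pos ((Nat.zero_le _).trans_lt (w2 x hx))).symm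
    rw [a3, pow_succ]
    omega
  have w4 : ∀ x ∈ X, |(x : ℝ)| ≤ 2 * (t ^ (N + 1) / 2) ^ w x := fun x hx => by
    have a1 : (2 : ℝ) ^ w x ≤ 2 * x.den := by exact_mod_cast (w3 x hx).1
    have a2 : (0 : ℝ) < x.den := by exact_mod_cast x.den_pos
    refine ((hX x).1 hx).2.2.1.trans ?_
    rw [Real.rpow_sub_one a2.ne', div_pow, ← mul_div_assoc, div_le_div_iff₀ a2 (by positivity)]
    have a3 : (x.den : ℝ) ^ η ≤ (t ^ (N + 1)) ^ w x := by
      refine (Real.rpow_le_rpow a2.le (show _ ≤ (2 : ℝ) ^ w x by exact_mod_cast w1 x) η0.le).trans ?_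
      rw [← Real.rpow_pow_comm zero_le_two, ← ht]
      gcongr
    nlinarith [mul_le_mul a3 a1 (by positivity) (by positivity)]
  have w5 : ∀ x ∈ X, |(x : ℝ)| < R / 2 := fun x hx => by
    have : (t ^ (N + 1) / 2) ^ w x ≤ (3 / 4) ^ w0 := (pow_le_pow_left₀ (by positivity)
      (by linarith) _).trans (pow_le_pow_of_le_one (by norm_num) (by norm_num) (w2 x hx).le)
    linarith [w4 x hx]
  have w6 : ∀ x ∈ X, (x : ℂ) ∈ ball (0 : ℂ) R := fun x hx => by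
    rw [mem_ball_zero_iff, ← Complex.ofReal_ratCast, Complex.norm_real]
    exact (w5 x hx).trans (by linarith)
  have w7 : ∀ x ∈ X, ∏ p ∈ S, p ^ v x p ≤ 2 ^ w x := fun x hx =>
    (Nat.le_of_dvd x.den_pos (hb1 x hx ▸ dvd_mul_left _ _)).trans (w1 x)
  let κ : ℚ → ℕ → ℕ := fun x p => if p ∈ S then M * v x p / w x else 0
  refine Set.Finite.of_finite_fibers κ ?_ fun k ⟨x0, h0, hk⟩ => by_contra fun hi => ?_
  · refine (Set.Finite.image (fun (g : S → ℕ) p => if h : p ∈ S then g ⟨p, h⟩ else 0)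
      (Set.Finite.pi fun _ => Set.finite_Iic M)).subset ?_
    rintro _ ⟨x, hx, rfl⟩
    refine ⟨fun p => κ x p, fun p _ => ?_, funext fun p => by by_cases e : p ∈ S <;> simp [κ, e]⟩
    have a1 := (Nat.pow_le_pow_left (hS p p.2).two_le _).trans ((single_le_prod'
      (f := fun p => p ^ v x p) (fun p hp => pow_pos (hS p hp).pos _) p.2).trans (w7 x hx))
    simp only [κ, if_pos p.2, Set.mem_Iic]
    exact Nat.div_le_of_le_mul (mul_comm M _ ▸ Nat.mul_le_mul_left _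
      ((Nat.pow_le_pow_iff_right one_lt_two).1 a1))
  have k1 : ∏ p ∈ S, p ^ k p ≤ 2 ^ M := by
    refine le_of_pow_le_pow_left₀ ((Nat.zero_le _).trans_lt (w2 x0 h0)).ne' (by positivity) ?_
    rw [← pow_mul, mul_comm, pow_mul]
    refine le_trans ?_ (Nat.pow_le_pow_left (w7 x0 h0) M)
    rw [← prod_pow, ← prod_pow]
    refine prod_le_prod' fun p hp => ?_
    rw [← pow_mul, ← pow_mul, ← hk, mul_comm _ M]
    simp only [κ, if_pos hp]
    exact Nat.pow_le_pow_right (hS p hp).pos (Nat.div_mul_le_self _ _)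
  obtain ⟨x, ⟨x1, -⟩, x2⟩ := One.elim (ψ := fun z => tens fun _ => hatg (Y z)) H
    isOpen_ball rel Γ θ hL s1 hs' (w := w) (S := X ∩ κ ⁻¹' {k})
    (fun x ⟨hx, _⟩ => ⟨w5 x hx, w6 x hx, w1 x, (w3 x hx).1.trans (by
      rw [sq]; exact Nat.mul_le_mul_right _ (w3 x hx).2), w4 x hx⟩)
    (fun m hm ξ hξ => common_den hS M0 s1.le (by linarith) (pow_le_pow_right₀ t1.le hm) hM.le k1
      (fun i => (Nat.zero_le _).trans_lt (w2 _ (hξ i).1)) (fun i => hb1 _ (hξ i).1)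
      (fun i => (hb2 _ (hξ i).1).trans ((Real.rpow_le_rpow (by positivity)
        (show _ ≤ (2 : ℝ) ^ w (ξ i) by exact_mod_cast w1 (ξ i)) η0.le).trans (by
          rw [← Real.rpow_pow_comm zero_le_two, ← ht]))) t1.le fun i p hp => by
        rw [← show κ (ξ i) = k from (hξ i).2, add_mul, one_mul]
        simp only [κ, if_pos hp]
        exact (Nat.lt_div_mul_add ((Nat.zero_le _).trans_lt (w2 _ (hξ i).1))).le) hi
  refine ((hX x).1 x1).2.2.2 (goodK_of ho hc (fun i => ?_) (hR _ (w6 x x1)).1 ?_ x2)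
  · have : ∀ t, ℓ i (P t) = ∑ a, ∑ b, P t a b * ℓ i (single a b 1) := fun t => by
      conv_lhs => rw [matrix_eq_sum_single (P t)]
      simp only [map_sum, ← smul_eq_mul, ← map_smul, smul_single]
      simp
    simp only [this]
    exact fun t ht => (DifferentiableAt.fun_sum fun a _ => DifferentiableAt.fun_sum fun b _ =>
      ((hP t ht).2 a b).1.mul_const _).differentiableWithinAt
  · filter_upwards [isOpen_ball.mem_nhds (w6 x x1)] with z hz μ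
    simp only [hΓ, hEF z hz, mon, tens, hlam, dotProduct, prod_univ_sum, Fintype.piFinset_univ,
      mul_sum, prod_mul_distrib, mul_assoc]

end

end Pool.Agent.Lib.MP_5591bc_ag.R
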