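import Pool.Agent.Lib.MP_5591bc_ag.RBord

/-! Weighted norms of polynomials, shifts, divided derivatives, orders of vanishing. -/

namespace Pool.Agent.Lib.MP_5591bc_ag.R

open MvPolynomial Finset

noncomputable section

variable {σ : Type*} [Fintype σ]

/-- weighted sum of the absolute values of the coefficients -/
def nr (ρ : σ → ℝ) (p : MvPolynomial σ ℚ) : ℝ :=
  ∑ d ∈ p.support, |((coeff d p : ℚ) : ℝ)| * ∏ i, ρ i ^ d i

section norm
variable {ρ : σ → ℝ} (hρ : ∀ i, 0 ≤ ρ i)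

theorem nr_eq {p : MvPolynomial σ ℚ} {s : Finset (σ →₀ ℕ)} (h : p.support ⊆ s) :
    nr ρ p = ∑ d ∈ s, |((coeff d p : ℚ) : ℝ)| * ∏ i, ρ i ^ d i :=
  sum_subset h fun d _ hd => by simp [notMem_support_iff.1 hd]

theorem nr_monomial (d : σ →₀ ℕ) (a : ℚ) : nr ρ (monomial d a) = |(a : ℝ)| * ∏ i, ρ i ^ d i := by
  classical
  rw [nr_eq support_monomial_subset]
  simp

theorem nr_C (a : ℚ) : nr ρ (C a) = |(a : ℝ)| := by
  rw [← monomial_zero', nr_monomial]; simp

theorem nr_zero : nr ρ 0 = 0 := by simp [nr]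

theorem nr_one : nr ρ 1 = 1 := by rw [← C_1, nr_C]; simp

theorem nr_X (i : σ) : nr ρ (X i) = ρ i := by
  classical
  rw [X, nr_monomial, prod_eq_single i] <;> simp +contextual [Finsupp.single_apply, eq_comm]

theorem nr_neg (p : MvPolynomial σ ℚ) : nr ρ (-p) = nr ρ p := by simp [nr]

theorem nr_smul (a : ℚ) (p : MvPolynomial σ ℚ) : nr ρ (a • p) = |(a : ℝ)| * nr ρ p := by
  rw [nr_eq support_smul, nr, mul_sum]
  simp [abs_mul, mul_assoc]

include hρ

theorem nr_term (d : σ →₀ ℕ) (a : ℝ) : 0 ≤ |a| * ∏ i, ρ i ^ d i :=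
  mul_nonneg (abs_nonneg _) (prod_nonneg fun i _ => pow_nonneg (hρ i) _)

theorem nr_nonneg (p : MvPolynomial σ ℚ) : 0 ≤ nr ρ p := sum_nonneg fun d _ => nr_term hρ d _

theorem coeff_le_nr (p : MvPolynomial σ ℚ) (d : σ →₀ ℕ) :
    |((coeff d p : ℚ) : ℝ)| * ∏ i, ρ i ^ d i ≤ nr ρ p := by
  classical
  rw [nr_eq (subset_insert d p.support)]
  exact single_le_sum (f := fun d : σ →₀ ℕ => |((coeff d p : ℚ) : ℝ)| * ∏ i, ρ i ^ d i)
    (fun d _ => nr_term hρ d _) (mem_insert_self _ _)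

theorem nr_add (p q : MvPolynomial σ ℚ) : nr ρ (p + q) ≤ nr ρ p + nr ρ q := by
  classical
  rw [nr_eq support_add, nr_eq (subset_union_left (s₂ := q.support)),
    nr_eq (subset_union_right (s₁ := p.support)), ← sum_add_distrib]
  refine sum_le_sum fun d _ => ?_
  rw [← add_mul, coeff_add, Rat.cast_add]
  exact mul_le_mul_of_nonneg_right (abs_add_le _ _) (prod_nonneg fun i _ => pow_nonneg (hρ i) _)

theorem nr_sub (p q : MvPolynomial σ ℚ) : nr ρ (p - q) ≤ nr ρ p + nr ρ q := by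
  rw [sub_eq_add_neg, ← nr_neg q]; exact nr_add hρ _ _

theorem nr_sum {α : Type*} (s : Finset α) (f : α → MvPolynomial σ ℚ) :
    nr ρ (∑ a ∈ s, f a) ≤ ∑ a ∈ s, nr ρ (f a) :=
  le_sum_of_subadditive _ nr_zero.le (nr_add hρ) s f

theorem nr_mul (p q : MvPolynomial σ ℚ) : nr ρ (p * q) ≤ nr ρ p * nr ρ q := by
  conv_lhs => rw [p.as_sum, q.as_sum, sum_mul_sum]
  rw [nr.eq_def ρ p, nr.eq_def ρ q, sum_mul_sum]
  refine (nr_sum hρ _ _).trans (sum_le_sum fun d _ => (nr_sum hρ _ _).trans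
    (sum_le_sum fun e _ => le_of_eq ?_))
  simp only [monomial_mul, nr_monomial, Rat.cast_mul, abs_mul, Finsupp.add_apply, pow_add,
    prod_mul_distrib]
  ring

theorem nr_prod {α : Type*} (s : Finset α) (f : α → MvPolynomial σ ℚ) :
    nr ρ (∏ a ∈ s, f a) ≤ ∏ a ∈ s, nr ρ (f a) := by
  classical
  induction s using Finset.induction_on with
  | empty => simp [nr_one]
  | insert a s ha ih =>
    rw [prod_insert ha, prod_insert ha]
    exact (nr_mul hρ _ _).trans (mul_le_mul_of_nonneg_left ih (nr_nonneg hρ _))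

theorem nr_pow (p : MvPolynomial σ ℚ) (n : ℕ) : nr ρ (p ^ n) ≤ nr ρ p ^ n := by
  simpa using nr_prod hρ (range n) fun _ => p

theorem nr_det {r : ℕ} (M : Matrix (Fin r) (Fin r) (MvPolynomial σ ℚ)) {H : ℝ}
    (h : ∀ i j, nr ρ (M i j) ≤ H) : nr ρ M.det ≤ r.factorial * H ^ r := by
  rw [Matrix.det_apply]
  refine (nr_sum hρ _ _).trans ((sum_le_card_nsmul _ _ (H ^ r) fun π _ => ?_).trans (le_of_eq ?_))
  · have : nr ρ (∏ i, M (π i) i) ≤ H ^ r := (nr_prod hρ _ _).trans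
      ((prod_le_prod (fun i _ => nr_nonneg hρ _) fun i _ => h _ _).trans (by simp))
    rcases Int.units_eq_one_or (Equiv.Perm.sign π) with e | e <;> simpa [e, nr_neg] using this
  · simp [Fintype.card_perm]

end norm

/-- the shift `p(x) ↦ p(ξ + x)` -/
def sh (ξ : σ → ℚ) : MvPolynomial σ ℚ →ₐ[ℚ] MvPolynomial σ ℚ := aeval fun i => X i + C (ξ i)

theorem nr_sh {ρ ρ' : σ → ℝ} (hρ : ∀ i, 0 ≤ ρ i) {ξ : σ → ℚ} (h : ∀ i, ρ i + |(ξ i : ℝ)| ≤ ρ' i)
    (p : MvPolynomial σ ℚ) : nr ρ (sh ξ p) ≤ nr ρ' p := by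
  conv_lhs => rw [p.as_sum, map_sum]
  refine (nr_sum hρ _ _).trans (sum_le_sum fun d _ => ?_)
  rw [sh, aeval_monomial, Finsupp.prod_fintype _ _ (by simp)]
  refine (nr_mul hρ _ _).trans ?_
  rw [algebraMap_eq, nr_C]
  refine mul_le_mul_of_nonneg_left ((nr_prod hρ _ _).trans (prod_le_prod
    (fun i _ => nr_nonneg hρ _) fun i _ => (nr_pow hρ _ _).trans
      (pow_le_pow_left₀ (nr_nonneg hρ _) ((nr_add hρ _ _).trans ?_) _))) (abs_nonneg _)
  rw [nr_X, nr_C]
  exact h i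

omit [Fintype σ] in
theorem pderiv_sh (ξ : σ → ℚ) (i : σ) (p : MvPolynomial σ ℚ) :
    pderiv i (sh ξ p) = sh ξ (pderiv i p) := by
  classical
  induction p using MvPolynomial.induction_on with
  | C a => simp [sh]
  | add p q hp hq => simp only [map_add, hp, hq]
  | mul_X p j hp =>
    simp only [map_mul, Derivation.leibniz, hp, smul_eq_mul, map_add]
    simp [sh, pderiv_X, Pi.single_apply, apply_ite]

/-- polynomials with integer coefficients -/
def ZP (σ : Type*) : Subring (MvPolynomial σ ℚ) := (map (Int.castRingHom ℚ)).range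

omit [Fintype σ] in
theorem mem_ZP {p : MvPolynomial σ ℚ} : p ∈ ZP σ ↔ ∀ d, ∃ z : ℤ, coeff d p = z := by
  refine ⟨fun ⟨q, hq⟩ d => ⟨coeff d q, by rw [← hq, coeff_map]; rfl⟩, fun h => ?_⟩
  choose z hz using h
  rw [p.as_sum]
  exact sum_mem fun d _ => ⟨monomial d (z d), by rw [map_monomial, hz]; rfl⟩

omit [Fintype σ] in
theorem ZP.pderiv {p : MvPolynomial σ ℚ} (h : p ∈ ZP σ) (i : σ) : pderiv i p ∈ ZP σ := by
  obtain ⟨q, rfl⟩ := h
  exact ⟨_, pderiv_map.symm⟩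

omit [Fintype σ] in
theorem ZP.det {r : ℕ} {M : Matrix (Fin r) (Fin r) (MvPolynomial σ ℚ)} (h : ∀ i j, M i j ∈ ZP σ) :
    M.det ∈ ZP σ := by
  rw [Matrix.det_apply']
  exact sum_mem fun π _ => mul_mem (intCast_mem _ _) (prod_mem fun i _ => h _ _)

omit [Fintype σ] in
theorem degreeOf_det {r : ℕ} {M : Matrix (Fin r) (Fin r) (MvPolynomial σ ℚ)} {i : σ} {d : ℕ}
    (h : ∀ a b, degreeOf i (M a b) ≤ d) : degreeOf i M.det ≤ r * d := by
  rw [Matrix.det_apply']
  refine (degreeOf_sum_le _ _ _).trans (Finset.sup_le fun π _ => (degreeOf_mul_le _ _ _).trans ?_)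
  rw [← map_intCast (C : ℚ →+* MvPolynomial σ ℚ), degreeOf_C, zero_add]
  exact (degreeOf_prod_le _ _ _).trans ((sum_le_card_nsmul _ _ d fun a _ => h _ _).trans (by simp))

/-- divided derivatives -/
def hs (μ : σ →₀ ℕ) : MvPolynomial σ ℚ →ₗ[ℚ] MvPolynomial σ ℚ :=
  (basisMonomials σ ℚ).constr ℚ fun ν => monomial (ν - μ) (∏ i, ((ν i).choose (μ i) : ℚ))

theorem hs_monomial (μ ν : σ →₀ ℕ) (a : ℚ) :
    hs μ (monomial ν a) = monomial (ν - μ) (a * ∏ i, ((ν i).choose (μ i) : ℚ)) := by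
  have : hs μ (monomial ν 1) = _ := (basisMonomials σ ℚ).constr_basis ℚ _ ν
  rw [← mul_one a, ← smul_eq_mul, map_smul, map_smul, this, smul_monomial]
  simp

theorem pderiv_hs (μ : σ →₀ ℕ) (i : σ) (p : MvPolynomial σ ℚ) :
    pderiv i (hs μ p) = ((μ i + 1 : ℕ) : ℚ) • hs (μ + Finsupp.single i 1) p := by
  classical
  induction p using MvPolynomial.induction_on' with
  | add p q hp hq => simp only [map_add, hp, hq, smul_add]
  | monomial ν a =>
    rw [hs_monomial, hs_monomial, pderiv_monomial, smul_monomial, tsub_tsub,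
      ← mul_prod_erase _ _ (mem_univ i), ← mul_prod_erase _ _ (mem_univ i)]
    congr 1
    have e : ∏ j ∈ univ.erase i, ((ν j).choose ((μ + Finsupp.single i 1 : σ →₀ ℕ) j) : ℚ) =
        ∏ j ∈ univ.erase i, ((ν j).choose (μ j) : ℚ) := prod_congr rfl fun j hj => by
      simp [Finsupp.single_eq_of_ne (ne_of_mem_erase hj)]
    have e2 := congrArg (Nat.cast : ℕ → ℚ) (Nat.choose_succ_right_eq (ν i) (μ i))
    rw [Nat.cast_mul, Nat.cast_mul] at e2
    rw [e]
    simp only [Finsupp.add_apply, Finsupp.single_eq_same, Finsupp.tsub_apply, smul_eq_mul]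
    linear_combination (-a * ∏ j ∈ univ.erase i, ((ν j).choose (μ j) : ℚ)) * e2

/-- iterated derivatives -/
def dl (L : List σ) (p : MvPolynomial σ ℚ) : MvPolynomial σ ℚ := L.foldr (fun i q => pderiv i q) p

theorem dl_hs (L : List σ) : ∃ (n : ℚ) (μ : σ →₀ ℕ), n ≠ 0 ∧ ∀ p, dl L p = n • hs μ p := by
  induction L with
  | nil => exact ⟨1, 0, one_ne_zero, fun p => by
      induction p using MvPolynomial.induction_on' with
      | add p q hp hq => simp only [map_add, smul_add, ← hp, ← hq]; rfl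
      | monomial ν a => simp [hs_monomial, dl]⟩
  | cons i L ih =>
    obtain ⟨n, μ, h0, h⟩ := ih
    refine ⟨n * ((μ i + 1 : ℕ) : ℚ), μ + Finsupp.single i 1, by positivity, fun p => ?_⟩
    rw [mul_smul, ← pderiv_hs, ← Derivation.map_smul, ← h]
    rfl

theorem hs_mem (μ : σ →₀ ℕ) {p : MvPolynomial σ ℚ} (h : p ∈ ZP σ) : hs μ p ∈ ZP σ := by
  rw [p.as_sum, map_sum]
  refine sum_mem fun d _ => ?_
  obtain ⟨z, hz⟩ := mem_ZP.1 h d
  exact ⟨monomial (d - μ) (z * ∏ i, ((d i).choose (μ i) : ℤ)), by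
    rw [map_monomial, hs_monomial, hz]; simp⟩

theorem hs_deg (μ : σ →₀ ℕ) (p : MvPolynomial σ ℚ) (i : σ) :
    degreeOf i (hs μ p) ≤ degreeOf i p := by
  classical
  conv_lhs => rw [p.as_sum, map_sum]
  refine (degreeOf_sum_le _ _ _).trans (Finset.sup_le fun d hd => ?_)
  rw [hs_monomial, degreeOf_le_iff]
  intro e he
  rw [mem_singleton.1 (support_monomial_subset he)]
  exact (Nat.sub_le _ _).trans (monomial_le_degreeOf i hd)

theorem hs_nr (μ : σ →₀ ℕ) (p : MvPolynomial σ ℚ) {t : ℕ} (h : ∀ i, degreeOf i p ≤ t) :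
    nr 1 (hs μ p) ≤ 2 ^ (Fintype.card σ * t) * nr 1 p := by
  conv_lhs => rw [p.as_sum, map_sum]
  rw [nr.eq_def 1 p, mul_sum]
  refine (nr_sum (fun _ => zero_le_one) _ _).trans (sum_le_sum fun d hd => ?_)
  simp only [hs_monomial, nr_monomial, Pi.one_apply, one_pow, prod_const_one, mul_one,
    Rat.cast_mul, abs_mul, Rat.cast_prod, Rat.cast_natCast, abs_prod, Nat.abs_cast]
  rw [mul_comm]
  refine mul_le_mul_of_nonneg_right ((prod_le_prod (fun _ _ => by positivity)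
    (g := fun _ => (2 : ℝ) ^ t) fun i _ => ?_).trans (by simp [← pow_mul, mul_comm])) (abs_nonneg _)
  exact_mod_cast (Nat.choose_le_two_pow _ _).trans
    (Nat.pow_le_pow_right two_pos ((monomial_le_degreeOf i hd).trans (h i)))

section van
omit [Fintype σ]
open MvPowerSeries
variable {w : σ → ℕ} {n k : ℕ} {f g : MvPowerSeries σ ℚ}

/-- vanishing to weighted order `n` -/
def Vn (w : σ → ℕ) (n : ℕ) (f : MvPowerSeries σ ℚ) : Prop :=
  ∀ d, Finsupp.weight w d < n → MvPowerSeries.coeff d f = 0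

theorem vn_iff : Vn w n f ↔ (n : ℕ∞) ≤ f.weightedOrder w :=
  ⟨nat_le_weightedOrder w, fun h _ hd =>
    coeff_eq_zero_of_lt_weightedOrder w (lt_of_lt_of_le (by exact_mod_cast hd) h)⟩

theorem Vn.mono (h : Vn w n f) (hk : k ≤ n) : Vn w k f := fun d hd => h d (hd.trans_le hk)

theorem Vn.mul (h : Vn w n f) (h' : Vn w k g) : Vn w (n + k) (f * g) := by
  rw [vn_iff] at *
  exact le_trans (by push_cast; gcongr) (le_weightedOrder_mul w)

theorem Vn.left (h : Vn w n f) (g : MvPowerSeries σ ℚ) : Vn w n (g * f) := by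
  simpa using Vn.mul (n := 0) (fun _ h => absurd h (Nat.not_lt_zero _)) h

theorem Vn.sum {α : Type*} {s : Finset α} {F : α → MvPowerSeries σ ℚ} (h : ∀ a ∈ s, Vn w n (F a)) :
    Vn w n (∑ a ∈ s, F a) := fun d hd => by
  rw [map_sum]; exact sum_eq_zero fun a ha => h a ha d hd

theorem Vn.prod {α : Type*} (s : Finset α) {F : α → MvPowerSeries σ ℚ} {a : α → ℕ}
    (h : ∀ i, Vn w (a i) (F i)) : Vn w (∑ i ∈ s, a i) (∏ i ∈ s, F i) := by
  simp only [vn_iff] at *
  exact le_trans (by push_cast; exact sum_le_sum fun i _ => h i) (le_weightedOrder_prod w F s)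

theorem Vn.pderiv (h : Vn w n f) (i : σ) : Vn w (n - w i) (MvPowerSeries.pderiv ℚ i f) :=
  fun d hd => by
  rw [MvPowerSeries.coeff_pderiv, h _ (by rw [map_add, Finsupp.weight_single, one_smul]; omega), zero_mul]

theorem Vn.cancel (h : Vn w (n + k) (f * g)) (h' : ¬ Vn w (n + 1) f) : Vn w k g := by
  rw [vn_iff, weightedOrder_mul, Nat.cast_add] at h
  rw [vn_iff, not_le, Nat.cast_succ, ENat.lt_add_one_iff (ENat.natCast_ne_top n)] at h'
  rw [vn_iff]
  exact (ENat.add_le_add_iff_left (ENat.natCast_ne_top n)).1 (h.trans (by gcongr))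

theorem Vn.det {r : ℕ} {M : Matrix (Fin r) (Fin r) (MvPowerSeries σ ℚ)} {a : Fin r → ℕ}
    (h : ∀ i j, Vn w (a j) (M i j)) : Vn w (∑ j, a j) M.det := by
  rw [Matrix.det_apply']
  exact Vn.sum fun π _ => (Vn.prod _ fun j => h _ _).left _

end van

end

end Pool.Agent.Lib.MP_5591bc_ag.R
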