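import Pool.Agent.Lib.MP_5591bc_ag.RAna

/-! Restriction of scalars for differential systems over number fields. -/

namespace Pool.Agent.Lib.MP_5591bc_ag.R

open Matrix Finset Polynomial NumberField

noncomputable section

variable {ν : Type*} [Fintype ν] [DecidableEq ν]

theorem iterK_scale {R : Type*} [CommRing R] (T u : R[X]) (B : Matrix ν ν R[X]) (k : ℕ) :
    iterK (T * u) (u • B) k = u ^ k • iterK T B k := by
  induction k with
  | zero => simp [iterK]
  | succ k ih =>
    have e : u * ((k : R[X]) * u ^ (k - 1)) = k * u ^ k := by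
      rcases k with _ | k
      · simp
      · rw [add_tsub_cancel_right, pow_succ]; ring
    rw [iterK, iterK, ih, Matrix.smul_mul, Matrix.mul_smul, smul_smul]
    ext1 i j
    simp only [Matrix.add_apply, Matrix.sub_apply, Matrix.smul_apply, map_apply, smul_eq_mul,
      derivative_mul, derivative_pow, map_natCast]
    linear_combination T * derivative u * iterK T B k i j * e

theorem iterK_taylor {R : Type*} [CommRing R] (s : R) (T : R[X]) (B : Matrix ν ν R[X]) (k : ℕ) :
    iterK (taylor s T) (B.map (taylor s)) k = (iterK T B k).map (taylor s) := by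
  have e : ∀ p : R[X], derivative (taylor s p) = taylor s (derivative p) := fun p => by
    simp [taylor_apply, derivative_comp]
  induction k with
  | zero => exact (Matrix.map_one _ (map_zero _) (taylor_one s)).symm
  | succ k ih =>
    rw [iterK, iterK, ih]
    ext1 i j
    have e2 : taylor s (k : R[X]) = k := map_natCast (taylorAlgHom s) k
    simp only [Matrix.add_apply, Matrix.sub_apply, Matrix.smul_apply, map_apply, smul_eq_mul, e,
      mul_apply, map_add, map_sub, map_sum, taylor_mul, e2]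

variable {K : Type*} [Field K] [NumberField K]

/-- index set of an integral basis -/
abbrev Ix (K : Type*) [Field K] [NumberField K] := Module.Free.ChooseBasisIndex ℤ (𝓞 K)

/-- the regular representation on polynomials -/
def ρX : K[X] →+* Matrix (Ix K) (Ix K) ℚ[X] :=
  matPolyEquiv.symm.toRingEquiv.toRingHom.comp
    (mapRingHom (Algebra.leftMulMatrix (integralBasis K)).toRingHom)

theorem coeff_ρX (p : K[X]) (a b : Ix K) (k : ℕ) :
    (ρX p a b).coeff k = (integralBasis K).repr (p.coeff k * integralBasis K b) a := by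
  rw [← Algebra.leftMulMatrix_eq_repr_mul]
  exact (matPolyEquiv_symm_apply_coeff _ a b k).trans (by rw [coe_mapRingHom, coeff_map]; rfl)

/-- the regular representation on matrices of polynomials -/
def ρM : Matrix ν ν K[X] →+* Matrix (ν × Ix K) (ν × Ix K) ℚ[X] :=
  (compRingEquiv ν (Ix K) ℚ[X]).toRingHom.comp ρX.mapMatrix

theorem ρM_apply (M : Matrix ν ν K[X]) (x y : ν × Ix K) : ρM M x y = ρX (M x.1 y.1) x.2 y.2 := rfl

theorem iterK_ρ (N : ℚ[X]) (B : Matrix ν ν K[X]) (k : ℕ) :
    iterK N (ρM B) k = ρM (iterK (N.map (algebraMap ℚ K)) B k) := by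
  have e1 : ∀ M : Matrix ν ν K[X], (ρM M).map derivative = ρM (M.map derivative) := fun M => by
    ext x y k
    simp only [map_apply, ρM_apply, coeff_derivative, coeff_ρX]
    rw [mul_right_comm, ← Nat.cast_succ, ← Nat.cast_succ, ← nsmul_eq_mul', ← nsmul_eq_mul',
      map_nsmul, Finsupp.smul_apply]
  have e2 : ∀ (p : ℚ[X]) (M : Matrix ν ν K[X]), ρM (p.map (algebraMap ℚ K) • M) = p • ρM M :=
    fun p M => by
    ext x y k
    simp only [ρM_apply, Matrix.smul_apply, smul_eq_mul, coeff_mul, coeff_ρX, coeff_map, sum_mul,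
      map_sum, Finsupp.finset_sum_apply, ← Algebra.smul_def, smul_mul_assoc, map_smul,
      Finsupp.smul_apply]
  induction k with
  | zero => exact (map_one _).symm
  | succ k ih =>
    rw [iterK, iterK, ih, map_add, map_sub, map_mul, e2, e1, derivative_map,
      ← Polynomial.map_natCast (algebraMap ℚ K), ← Polynomial.map_mul, e2]

theorem ρX_eval [Algebra K ℂ] (z : ℂ) (p : K[X]) (b : Ix K) :
    ∑ a, algebraMap K ℂ (integralBasis K a) * aeval z (ρX p a b) =
      aeval z p * algebraMap K ℂ (integralBasis K b) := by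
  induction p using Polynomial.induction_on' with
  | add p q hp hq => simp only [map_add, Matrix.add_apply, mul_add, sum_add_distrib, hp, hq, add_mul]
  | monomial k x =>
    have : ∀ a, ρX (monomial k x) a b =
        monomial k ((integralBasis K).repr (x * integralBasis K b) a) := fun a => by
      ext l
      rw [coeff_ρX, coeff_monomial, coeff_monomial]
      split_ifs <;> simp
    simp only [this, aeval_monomial, ← mul_assoc, ← sum_mul]
    rw [mul_right_comm, ← map_mul]
    conv_rhs => rw [← (integralBasis K).sum_repr (x * integralBasis K b), map_sum]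
    simp only [Algebra.smul_def, map_mul, mul_comm, ← IsScalarTower.algebraMap_apply]

theorem exists_norm {T : K[X]} (h : T.eval 0 ≠ 0) :
    ∃ (N : ℚ[X]) (u : K[X]), N.eval 0 ≠ 0 ∧ N.map (algebraMap ℚ K) = T * u := by
  have T0 : T ≠ 0 := fun e => h (by simp [e])
  have : Module.Finite K (AdjoinRoot T) := (AdjoinRoot.powerBasis T0).finite
  have : Module.Finite ℚ (AdjoinRoot T) := Module.Finite.trans K _
  obtain ⟨M, M0, hM⟩ := (Algebra.IsIntegral.isIntegral (R := ℚ) (AdjoinRoot.root T)).isAlgebraic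
  obtain ⟨N, h1, h2⟩ := exists_eq_pow_rootMultiplicity_mul_and_not_dvd M M0 0
  rw [← aeval_map_algebraMap K, AdjoinRoot.aeval_eq, AdjoinRoot.mk_eq_zero, h1, Polynomial.map_mul,
    Polynomial.map_pow] at hM
  obtain ⟨u, hu⟩ := (IsCoprime.pow_right (x := T) (by
    rw [Polynomial.map_sub, map_X, map_C, map_zero]
    exact (((irreducible_X_sub_C (0 : K)).coprime_iff_not_dvd).2
      (dvd_iff_isRoot.not.2 h)).symm)).dvd_of_dvd_mul_left hM
  exact ⟨N, u, dvd_iff_isRoot.not.1 h2, hu⟩

theorem restrict [Algebra K ℂ] {T : K[X]} {B : Matrix ν ν K[X]} (h : GalK T B) {s : K}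
    (hT : T.eval s ≠ 0) : ∃ (N : ℚ[X]) (B' : Matrix (ν × Ix K) (ν × Ix K) ℚ[X]) (u : K[X]),
      N.eval 0 ≠ 0 ∧ GalK N B' ∧ ∀ z : ℂ,
        aeval z N = aeval (z + algebraMap K ℂ s) T * aeval z u ∧ ∀ i y,
          ∑ a, algebraMap K ℂ (integralBasis K a) * aeval z (B' (i, a) y) = aeval z u *
            aeval (z + algebraMap K ℂ s) (B i y.1) * algebraMap K ℂ (integralBasis K y.2) := by
  obtain ⟨N, u, N0, hN⟩ := exists_norm (T := taylor s T) (by rwa [taylor_eval, zero_add])
  have ht : ∀ (z : ℂ) (p : K[X]), aeval z (taylor s p) = aeval (z + algebraMap K ℂ s) p :=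
    fun z p => by simp [taylor_apply, aeval_comp]
  refine ⟨N, ρM (u • B.map (taylor s)), u, N0, ?_, fun z => ⟨by
    rw [← aeval_map_algebraMap K, hN, map_mul, ht], fun i y => by
      simp only [ρM_apply, ρX_eval]
      simp only [Matrix.smul_apply, smul_eq_mul, map_mul, map_apply, ht]⟩⟩
  classical
  have : Algebra.IsAlgebraic ℤ K := (IsFractionRing.comap_isAlgebraic_iff (K := ℚ)).2 inferInstance
  obtain ⟨c, hc⟩ := h
  obtain ⟨g, g1, g2⟩ := exists_deg T B
  let O : Subring K[X] := (mapRingHom (algebraMap (𝓞 K) K)).range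
  have hO : ∀ p : K[X], p ∈ O ↔ ∀ l, IsIntegral ℤ (p.coeff l) := fun p =>
    (lifts_iff_coeff_lifts p).trans (forall_congr' fun l =>
      ⟨fun ⟨x, hx⟩ => hx ▸ x.isIntegral_coe, fun h => ⟨⟨_, h⟩, rfl⟩⟩)
  have hC : ∀ x : K, IsIntegral ℤ x → C x ∈ O := fun x h => ⟨C ⟨x, h⟩, map_C _⟩
  obtain ⟨y, y0, hy⟩ := Algebra.IsAlgebraic.exists_integral_multiples ℤ (insert s u.coeffs)
  obtain ⟨q, q0, hq⟩ : ∃ q : ℕ, 0 < q ∧ ∀ z ∈ insert s u.coeffs, IsIntegral ℤ ((q : K) * z) :=
    ⟨y.natAbs, Int.natAbs_pos.2 y0, fun z hz => by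
      have := hy z hz
      rw [zsmul_eq_mul] at this
      rw [Nat.cast_natAbs]
      rcases abs_choice y with e | e <;> rw [e]
      exacts [this, by simpa using this.neg]⟩
  have q1 : (q : K[X]) * u ∈ O := (hO _).2 fun l => by
    rw [← C_eq_natCast, coeff_C_mul]
    by_cases e : u.coeff l = 0
    · simpa [e] using isIntegral_zero
    · exact hq _ (mem_insert_of_mem (coeff_mem_coeffs e))
  have q2 : ∀ (W : K[X]) (D : ℕ), W ∈ O → W.natDegree ≤ D → (q : K[X]) ^ D * taylor s W ∈ O :=
    fun W D h1 h2 => by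
    rw [W.as_sum_range_C_mul_X_pow' (Nat.lt_succ_of_le h2), map_sum, mul_sum]
    refine sum_mem fun i hi => ?_
    have : (q : K[X]) ^ D * taylor s (C (W.coeff i) * X ^ i) =
        (q : K[X]) ^ (D - i) * C (W.coeff i) * ((q : K[X]) * X + C (q * s)) ^ i := by
      rw [taylor_mul, taylor_C, taylor_pow, taylor_X, C_mul, C_eq_natCast, ← mul_add, mul_pow,
        ← Nat.sub_add_cancel (Nat.le_of_lt_succ (mem_range.1 hi)), add_tsub_cancel_right, pow_add]
      ring
    rw [this]
    exact mul_mem (mul_mem (pow_mem (natCast_mem _ _) _) (hC _ ((hO _).1 h1 i))) (pow_mem (add_mem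
      (mul_mem (natCast_mem _ _) (show X ∈ O from ⟨X, map_X _⟩)) (hC _ (hq _ (mem_insert_self _ _)))) _)
  refine ⟨|c| * q ^ (g + 1), fun m => ?_⟩
  obtain ⟨d, d0, d1, d2⟩ := hc m
  refine ⟨d * (q ^ (g + 1)) ^ m, by positivity, ?_, fun k hk x y l => ?_⟩
  · rw [mul_pow, Nat.cast_mul, Nat.cast_pow, Nat.cast_pow, ← abs_pow]
    exact mul_le_mul (d1.trans (le_abs_self _)) (pow_le_pow_right₀
      (one_le_pow₀ (by exact_mod_cast q0)) m.le_succ) (by positivity) (abs_nonneg _)
  have a1 := q2 (C ((d : K) / k.factorial) * iterK T B k x.1 y.1) (g * k) ((hO _).2 fun l => by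
    rw [coeff_C_mul, div_mul_eq_mul_div]; exact d2 k hk _ _ l)
    ((natDegree_C_mul_le _ _).trans (mul_comm k g ▸ deg_iter g1 g2 k _ _))
  have a2 := (hO _).1 (mul_mem (mul_mem (pow_mem (natCast_mem O q) ((g + 1) * (m - k)))
    (pow_mem q1 k)) a1) l
  have a3 : (q : K[X]) ^ ((g + 1) * (m - k)) * (q * u) ^ k *
      (q ^ (g * k) * taylor s (C ((d : K) / k.factorial) * iterK T B k x.1 y.1)) =
      C (algebraMap ℚ K (((d * (q ^ (g + 1)) ^ m : ℕ) : ℚ) / k.factorial)) *
        (u ^ k * taylor s (iterK T B k x.1 y.1)) := by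
    obtain ⟨j, rfl⟩ := Nat.exists_eq_add_of_le hk
    rw [taylor_mul, taylor_C, add_tsub_cancel_left, map_div₀ (algebraMap ℚ K), map_natCast,
      map_natCast, Nat.cast_mul, mul_div_right_comm, C_mul, C_eq_natCast]
    push_cast
    ring
  rw [a3, coeff_C_mul, ← Algebra.smul_def] at a2
  have a4 := integralBasis_repr_apply K
    (@HMul.hMul (𝓞 K) (𝓞 K) (𝓞 K) _ ⟨_, a2⟩ (RingOfIntegers.basis K y.2)) x.2
  rw [map_mul, ← integralBasis_apply, RingOfIntegers.map_mk, smul_mul_assoc, map_smul,
    Finsupp.smul_apply, smul_eq_mul] at a4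
  rw [iterK_ρ, hN, iterK_scale, iterK_taylor, ρM_apply, coeff_ρX, ← div_mul_eq_mul_div]
  exact a4 ▸ isIntegral_algebraMap

end

end Pool.Agent.Lib.MP_5591bc_ag.R
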