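import Pool.Agent.Lib.MP_5591bc_ag.RNum

/-! The system satisfied by the monomials in the entries of a fundamental matrix. -/

namespace Pool.Agent.Lib.MP_5591bc_ag.R

open Matrix Finset Filter Topology PowerSeries G Function Metric

noncomputable section

section gen
variable {ν R S L : Type*} [Fintype ν] [DecidableEq ν] [CommRing R] [CommRing S] [Fintype L]
  [DecidableEq L]

/-- the entries of a matrix together with `1` -/
def hatg (M : Matrix ν ν R) : Option (ν × ν) → R := fun o => o.elim 1 fun x => M x.1 x.2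

/-- the matrix of `(ε', X) ↦ (ε ε', Y X)` -/
def exg (ε : R) (Y : Matrix ν ν R) : Matrix (Option (ν × ν)) (Option (ν × ν)) R := of fun o o' =>
  o.elim (o'.elim ε fun _ => 0) fun x => o'.elim 0 fun y => if x.2 = y.2 then Y x.1 y.1 else 0

theorem exg_mulVec (Y X : Matrix ν ν R) : exg 1 Y *ᵥ hatg X = hatg (Y * X) := by
  ext (_ | ⟨p, q⟩) <;>
    simp [exg, hatg, mulVec, dotProduct, Fintype.sum_option, Fintype.sum_prod_type, mul_apply]

theorem exg_mul (ε ε' : R) (Y Y' : Matrix ν ν R) :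
    exg ε Y * exg ε' Y' = exg (ε * ε') (Y * Y') := by
  ext (_ | ⟨p, q⟩) (_ | ⟨p', q'⟩) <;>
    simp [exg, Fintype.sum_option, Fintype.sum_prod_type, mul_apply]

omit [Fintype ν] in
theorem exg_map (φ : R → S) (h : φ 0 = 0) (ε : R) (Y : Matrix ν ν R) :
    (exg ε Y).map φ = exg (φ ε) (Y.map φ) := by
  ext (_ | ⟨p, q⟩) (_ | ⟨p', q'⟩) <;> simp [exg, h, apply_ite φ]

omit [Fintype ν] in
theorem exg_smul (a ε : R) (Y : Matrix ν ν R) : a • exg ε Y = exg (a * ε) (a • Y) := by
  ext (_ | ⟨p, q⟩) (_ | ⟨p', q'⟩) <;> simp [exg]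

omit [Fintype ν] in
theorem exg_one : exg (1 : R) (1 : Matrix ν ν R) = 1 := by
  ext (_ | ⟨p, q⟩) (_ | ⟨p', q'⟩) <;> simp [exg, one_apply, ite_and]
  split_ifs <;> rfl

omit [DecidableEq L] in
theorem piM_map {α : Type*} (φ : R →+* S) (M : L → Matrix α α R) :
    (piM M).map φ = piM fun l => (M l).map φ := by
  ext; simp [piM]

theorem tB_map {α : Type*} [DecidableEq α] (φ : R →+* S) (B : Matrix α α R) :
    (tB L B).map φ = tB L (B.map φ) := by
  ext μ μ'
  simp only [tB, map_apply, Matrix.sum_apply, map_sum, piM, of_apply, map_prod]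
  refine sum_congr rfl fun l _ => prod_congr rfl fun j _ => ?_
  by_cases e : j = l
  · subst e; simp
  · simp [e, one_apply, apply_ite φ]

theorem piM_ode {α : Type*} [Fintype α] [DecidableEq α] {a : ℚ⟦X⟧} {B M : Matrix α α ℚ⟦X⟧}
    (h : a • M.map (d⁄dX ℚ) = B * M) :
    a • (piM fun _ : L => M).map (d⁄dX ℚ) = tB L B * piM fun _ => M := by
  have hp : ∀ (g : L → ℚ⟦X⟧) (s : Finset L), d⁄dX ℚ (∏ l ∈ s, g l) =
      ∑ l ∈ s, (∏ j ∈ s.erase l, g j) * d⁄dX ℚ (g l) := fun g s => by
    induction s using Finset.induction_on with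
    | empty => simp
    | insert x s hx ih =>
      rw [prod_insert hx, sum_insert hx, Derivation.leibniz, ih, erase_insert hx, smul_eq_mul,
        smul_eq_mul, add_comm, mul_sum]
      refine congrArg _ (sum_congr rfl fun l hl => ?_)
      rw [erase_insert_of_ne (ne_of_mem_of_not_mem hl hx).symm,
        prod_insert fun h => hx (mem_of_mem_erase h), mul_assoc]
  rw [tB, Finset.sum_mul]
  simp only [piM_mul]
  ext1 μ μ'
  simp only [Matrix.smul_apply, map_apply, piM, of_apply, hp, smul_eq_mul, mul_sum, Matrix.sum_apply]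
  refine sum_congr rfl fun l _ => ?_
  rw [← prod_erase_mul _ _ (mem_univ l), update_self, ← h, mul_left_comm]
  exact congrArg₂ _ (prod_congr rfl fun j hj => by simp [ne_of_mem_erase hj]) rfl

end gen

theorem exists_one {ν : Type*} [Fintype ν] [DecidableEq ν] {T : Polynomial ℚ}
    {B : Matrix ν ν (Polynomial ℚ)} (h : GalK T B) (hT : T.eval 0 ≠ 0) {U : Set ℂ}
    (hU : U ∈ 𝓝 (0 : ℂ)) (δ : ℕ) : ∃ R > 0, ∃ Y : ℂ → Matrix ν ν ℂ, Y 0 = 1 ∧
      (∀ z ∈ ball (0 : ℂ) R, z ∈ U ∧ Polynomial.aeval z T ≠ 0 ∧ MSol (Az T B) Y z) ∧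
      ∃ B' G f, One (A := Fin δ → Option (ν × ν)) T B' {x | |(x : ℝ)| < R / 2} G f
        (fun x => tens fun _ => hatg (Y x)) ∧
      ∀ l : _ → Polynomial ℚ, (fun a => (l a : ℚ⟦X⟧)) ⬝ᵥ f = 0 → ∀ z ∈ ball (0 : ℂ) R,
        (fun a => Polynomial.aeval z (l a)) ⬝ᵥ (tens fun _ => hatg (Y z)) = 0 := by
  have T0 : Polynomial.aeval (0 : ℂ) T ≠ 0 := by
    rw [← Rat.cast_zero, aeval_rat]; exact_mod_cast hT
  have c3 := (analyticAt_aeval T (0 : ℂ)).continuousAt
  have c4 : ContinuousAt (fun t => ((Polynomial.aeval t T, fun i j => Az T B t i j) :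
      ℂ × (ν → ν → ℂ))) 0 := c3.prodMk (continuousAt_pi.2 fun i => continuousAt_pi.2 fun j =>
    (analyticAt_aeval _ _).continuousAt.div c3 T0)
  obtain ⟨c, hc⟩ := c4.norm.isBoundedUnder_le
  obtain ⟨R, R0, hR⟩ := Metric.eventually_nhds_iff_ball.1 ((show ∀ᶠ t in 𝓝 (0 : ℂ), t ∈ U
    from hU).and ((c3.eventually_ne T0).and (eventually_map.1 hc)))
  have c0 : 0 ≤ c := (norm_nonneg _).trans (hR 0 (mem_ball_self R0)).2.2
  obtain ⟨Y, Q, Y0, -, hY⟩ := exists_fund (convex_ball _ _) isOpen_ball (mem_ball_self R0)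
    (Hol.Az fun t ht => (hR t ht).2.1) (c := c) (fun t ht i j => ((norm_le_pi_norm _ j).trans
      (norm_le_pi_norm (fun i j => Az T B t i j) i)).trans (norm_prod_le_iff.1 (hR t ht).2.2).2) c0
  obtain ⟨S, hS⟩ : ∃ S, S = Real.exp (Fintype.card ν * c * R) := ⟨_, rfl⟩
  have hS1 : ∀ t ∈ ball (0 : ℂ) R, Real.exp (Fintype.card ν * c * ‖t - 0‖) ≤ S := fun t ht => by
    rw [hS]
    gcongr
    exact (mem_ball_iff_norm.1 ht).le
  have hx : ∀ x : ℚ, |(x : ℝ)| < R / 2 → (x : ℂ) ∈ ball (0 : ℂ) (R / 2) := fun x hx => by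
    rwa [mem_ball_zero_iff, ← Complex.ofReal_ratCast, Complex.norm_real]
  have hx1 : ∀ x : ℚ, |(x : ℝ)| < R / 2 → (x : ℂ) ∈ ball (0 : ℂ) R := fun x h =>
    ball_subset_ball (by linarith) (hx x h)
  have hx3 : ∀ x : ℚ, |(x : ℝ)| < R / 2 → ∀ᶠ t in 𝓝 (x : ℂ), MSol (Az T B) Y t := fun x h =>
    mem_of_superset (isOpen_ball.mem_nhds (hx1 x h)) fun t ht => (hY t ht).1
  have hol : Hol (ball (0 : ℂ) R) Y := hol_of_msol fun t ht => (hY t ht).1
  have hh : ∀ o, DifferentiableOn ℂ (fun z => hatg (Y z) o) (ball 0 R) := by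
    rintro (_ | a)
    exacts [differentiableOn_const _, hol _ _]
  have hψ : ∀ α : Fin δ → Option (ν × ν), DifferentiableOn ℂ
      (fun z => tens (fun _ => hatg (Y z)) α) (ball 0 R) := fun α =>
    DifferentiableOn.fun_finsetProd fun l _ => hh _
  have ht : ∀ x : ℚ, |(x : ℝ)| < R / 2 → ∀ α : Fin δ → Option (ν × ν),
      tay (fun z => tens (fun _ => hatg (Y z)) α) x = ((piM fun _ => exg 1 (Gb T B x)).map mp *ᵥ
        fun β => C (tens (fun _ => hatg (Y x)) β)) α := fun x h α => by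
    have e1 : (fun β : Fin δ → Option (ν × ν) => C (tens (fun _ => hatg (Y x)) β)) =
        tens fun _ => hatg ((Y x).map C) := funext fun β => by
      simp only [tens, map_prod]
      exact prod_congr rfl fun l _ => by cases β l <;> simp [hatg]
    have n1 := isOpen_ball.mem_nhds (hx1 x h)
    rw [e1, piM_map, piM_mulVec, exg_map _ (map_zero _), map_one, exg_mulVec,
      ← tay_P (hx3 x h) (hR _ (hx1 x h)).2.1]
    refine (tay_prod _ fun l _ => (hh _).analyticAt n1).trans (prod_congr rfl fun l _ => ?_)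
    rcases α l with _ | ⟨i, j⟩
    exacts [(tay_const 1).trans (map_one _), rfl]
  have h0 : |((0 : ℚ) : ℝ)| < R / 2 := by simpa using R0
  have hf : ∀ α : Fin δ → Option (ν × ν), mp (((piM fun _ => exg 1 (Gb T B 0)) *ᵥ
      fun j => C (tens (fun _ => hatg 1) j)) α) =
      tay (fun z => tens (fun _ => hatg (Y z)) α) 0 := fun α => by
    have := ht 0 h0 α
    rw [Rat.cast_zero, Y0] at this
    rw [this, mulVec, mulVec, dotProduct, dotProduct, map_sum]
    refine sum_congr rfl fun β _ => ?_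
    rw [map_mul, map_C, tens, tens, map_prod]
    exact congrArg₂ _ rfl (congrArg _ (prod_congr rfl fun l _ => by
      cases β l <;> simp [hatg, one_apply, apply_ite]))
  have S0 : 0 ≤ S := hS ▸ (Real.exp_pos _).le
  have hG := Gb_gf h (S := c + Fintype.card ν * S * S + 4 / R) (Ω := {x | |(x : ℝ)| < R / 2})
    fun x h => by
      obtain ⟨-, a2, a3⟩ := hR _ (hx1 x h)
      obtain ⟨-, -, a1, -, a4⟩ := hY _ (hx1 x h)
      have a5 : (0 : ℝ) ≤ Fintype.card ν * S * S := by positivity
      have a6 : 0 ≤ 4 / R := by positivity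
      have b1 := congrArg (· * (Q x).map C) (tay_P (hx3 x h) a2)
      replace a3 := (norm_prod_le_iff.1 a3).1
      rw [aeval_rat] at a2 a3
      rw [← Complex.ofReal_ratCast, Complex.norm_real] at a3
      refine ⟨by exact_mod_cast a2, a3.trans (by linarith), fun i j k => ?_⟩
      simp only [Matrix.mul_assoc, ← Matrix.map_mul, mul_eq_one_comm.1 a1,
        Matrix.map_one _ (map_zero _) (map_one _), Matrix.mul_one] at b1
      have b2 := congrArg (fun M => ‖coeff k (M i j)‖) b1
      simp only [mul_apply, of_apply, map_apply, map_sum, coeff_mul_C, coeff_map, eq_ratCast] at b2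
      rw [← Complex.ofReal_ratCast (coeff k _), Complex.norm_real] at b2
      have b3 : ball (x : ℂ) (R / 2) ⊆ ball 0 R := ball_subset_ball' (by
        have := mem_ball.1 (hx x h)
        linarith)
      refine b2.symm.trans_le ((norm_sum_le _ _).trans ((sum_le_card_nsmul _ _
        (S / (R / 4) ^ k * S) fun l _ => ?_).trans ?_))
      · rw [norm_mul]
        exact mul_le_mul (cauchy ((hol i l).mono b3) (by linarith) (by linarith) (fun t ht =>
          have := b3 (sphere_subset_ball (by linarith) ht)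
          ((hY t this).2.2.2.1 i l).trans (hS1 t this)) k) ((a4 l j).trans (hS1 _ (hx1 x h)))
          (norm_nonneg _) (by positivity)
      · rw [nsmul_eq_mul, card_univ, pow_succ', show Fintype.card ν * (S / (R / 4) ^ k * S) =
          Fintype.card ν * S * S * (4 / R) ^ k by rw [div_pow, div_pow]; field_simp]
        have : (1 : ℝ) ≤ x.den := by exact_mod_cast x.den_pos
        have := le_mul_of_one_le_right (add_nonneg (add_nonneg c0 a5) a6) this
        exact mul_le_mul (by linarith) (pow_le_pow_left₀ a6 (by linarith) k) (by positivity)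
          (by linarith)
  have hG2 : ∀ i j : Fin δ → Option (ν × ν),
      (fun x : {x : ℚ | |(x : ℝ)| < R / 2} => piM (fun _ => exg 1 (Gb T B x)) i j) ∈
        UF (fun x : {x : ℚ | |(x : ℝ)| < R / 2} => 2 * x.1.den) fun x => two_le x := fun i j => by
    simp only [piM, of_apply, ← Finset.prod_fn]
    refine prod_mem fun l _ => ?_
    rcases i l with _ | a <;> rcases j l with _ | b
    · exact one_mem _
    · exact zero_mem _
    · exact zero_mem _
    · by_cases e : a.2 = b.2
      · simpa [exg, e] using hG a.1 b.1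
      · simp only [exg, of_apply, Option.elim_some, if_neg e]; exact zero_mem _
  have o1 : ∀ x, (piM fun _ : Fin δ => exg 1 (Gb T B x)).map constantCoeff = 1 := fun x => by
    rw [piM_map, exg_map _ (map_zero _), map_one, Gb_zero, exg_one, piM_one]
  have o2 : ∀ x : ℚ, |(x : ℝ)| < R / 2 → τ1 x T • (piM fun _ : Fin δ => exg 1 (Gb T B x)).map
      (d⁄dX ℚ) = (tB (Fin δ) (exg 0 B)).map (τ1 x) * piM fun _ => exg 1 (Gb T B x) := fun x h => by
    rw [tB_map]
    refine piM_ode ?_
    rw [exg_map _ (map_zero _), exg_map _ (map_zero _), exg_smul, exg_mul,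
      Gb_ode (hx3 x h) (hR _ (hx1 x h)).2.1 (mul_eq_one_comm.1 (hY _ (hx1 x h)).2.2.1)]
    simp only [derivative_one, map_zero, mul_zero, zero_mul]
  refine ⟨R, R0, Y, Y0, fun z h => ⟨(hR z h).1, (hR z h).2.1, (hY z h).1⟩, tB (Fin δ) (exg 0 B),
    fun x => piM fun _ => exg 1 (Gb T B x), _, ⟨⟨_, 0, tens fun _ => hatg 1, X, τ1 0 T, o1 0,
      .zero, fun e => hT ?_, mul_comm _ _, by simp [o2 0 h0], zero_mulVec _, rfl⟩,
      fun x _ => o1 x, o2, hG2, ?_, fun x h α k => ?_⟩, fun l hl => ?_⟩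
  · rw [← Polynomial.taylor_coeff_zero, ← coeff_τ1, e, map_zero]
  · obtain ⟨e, he⟩ := UF.pi (hb := fun x => two_le x.1) (g := fun α
      (x : {x : ℚ | |(x : ℝ)| < R / 2}) => ((piM fun _ : Fin δ => exg 1 (Gb T B x)) *ᵥ
        fun j => C (tens (fun _ => hatg 1) j)) α) fun α => by
      simp only [mulVec, dotProduct, ← Finset.sum_fn, tens, map_prod]
      refine sum_mem fun β _ => mul_mem (hG2 α β) (?_ : (fun _ => _) ∈ _)
      simp only [← Finset.prod_fn]
      refine prod_mem fun l _ => ?_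
      rcases β l with _ | a
      · simp only [hatg, Option.elim_none, map_one]; exact one_mem _
      · simp only [hatg, Option.elim_some, one_apply]
        split_ifs
        · rw [map_one]; exact one_mem _
        · rw [map_zero]; exact zero_mem _
    exact ⟨_, he ⟨0, h0⟩⟩
  · have := tendsto_trunc (hx1 x h) k (hψ α) (hf α)
    rw [ht x h] at this
    simpa [mulVec, dotProduct] using this
  · have hd := fun a => (l a).differentiable_aeval.differentiableOn.fun_mul (hψ a)
    have n0 := isOpen_ball.mem_nhds (mem_ball_self (x := (0 : ℂ)) R0)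
    refine ident isOpen_ball (convex_ball _ _).isPreconnected
      (DifferentiableOn.fun_sum fun a _ => hd a) (differentiableOn_const 0) (mem_ball_self R0)
      (eventually_zero_of_tay ((DifferentiableOn.fun_sum fun a _ => hd a).analyticAt n0) ?_)
    refine (tay_sum _ fun a _ => (hd a).analyticAt n0).trans ?_
    rw [← map_zero mp, ← hl, dotProduct, map_sum]
    refine sum_congr rfl fun a _ => ?_
    rw [tay_mul (analyticAt_aeval _ _) ((hψ a).analyticAt n0), tay_aeval, map_mul, hf, ← τ1_zero,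
      mp_τ1, Rat.cast_zero]

section field
open NumberField
variable {K : Type*} [Field K] [NumberField K] [Algebra K ℂ]

theorem vanishK {r : ℕ} {U : Set ℂ} (ho : IsOpen U) (hc : IsPreconnected U) {y : ℂ → Fin r → ℂ}
    (hy : ∀ i, DifferentiableOn ℂ (y · i) U) (H : MvPolynomial (Option (Fin r)) K) {s : ℂ}
    (hs : s ∈ U) (h : ∀ᶠ t in 𝓝 s, MvPolynomial.aeval (fun o => o.elim t (y t)) H = 0) :
    ∀ t ∈ U, MvPolynomial.aeval (fun o => o.elim t (y t)) H = 0 := by
  refine ident ho hc ?_ (differentiableOn_const 0) hs h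
  clear h
  induction H using MvPolynomial.induction_on with
  | C a => simp
  | add p q hp hq => simpa using hp.fun_add hq
  | mul_X p i hp =>
    simp only [map_mul, MvPolynomial.aeval_X]
    rcases i with _ | i
    exacts [hp.fun_mul differentiableOn_id, hp.fun_mul (hy i)]

theorem goodK_of {r : ℕ} {U : Set ℂ} (ho : IsOpen U) (hc : IsPreconnected U) {y : ℂ → Fin r → ℂ}
    (hy : ∀ i, DifferentiableOn ℂ (y · i) U) {δ : ℕ} {s : K} {x : ℚ}
    (hs : (x : ℂ) + algebraMap K ℂ s ∈ U) {Φ : ℂ → (Fin δ → Option (Fin r)) × Ix K → ℂ}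
    (hΦ : ∀ᶠ z in 𝓝 (x : ℂ), ∀ μ, Φ z μ =
      algebraMap K ℂ (integralBasis K μ.2) * mon δ (y (z + algebraMap K ℂ s)) μ.1)
    (h : LGood Φ x) : GoodK U y δ (s + x) := by
  classical
  intro F hF hF0
  rw [map_add, map_ratCast, add_comm] at hF0
  obtain ⟨c, hc'⟩ : ∃ c : (Fin δ → Option (Fin r)) × Ix K → ℚ, ∀ X : Fin r → ℂ,
      MvPolynomial.aeval X F = ∑ μ, c μ * (algebraMap K ℂ (integralBasis K μ.2) * mon δ X μ.1) := by
    choose μ hμ using fun d : F.support => exists_mon δ d.1 ((MvPolynomial.le_totalDegree d.2).trans hF)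
    refine ⟨fun a => ∑ d : F.support, if μ d = a.1 then (integralBasis K).repr (F.coeff d.1) a.2
      else 0, fun X => ?_⟩
    simp only [Rat.cast_sum, sum_mul, Fintype.sum_prod_type]
    rw [MvPolynomial.aeval_def, MvPolynomial.eval₂_eq, ← Finset.sum_coe_sort,
      sum_congr rfl fun _ _ => sum_comm, sum_comm]
    refine sum_congr rfl fun d _ => ?_
    rw [sum_eq_single (μ d) (fun a _ ha => by simp [ha.symm]) (by simp), hμ]
    conv_lhs => rw [← (integralBasis K).sum_repr (F.coeff d.1), map_sum, sum_mul]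
    simp [Algebra.smul_def, mul_assoc, Finsupp.prod]
  obtain ⟨Hp, H1, H2⟩ := h c (by
    simpa only [dotProduct, hΦ.self_of_nhds, ← hc'] using hF0)
  obtain ⟨H, hp⟩ : ∃ H : MvPolynomial (Option (Fin r)) K, ∀ (t : ℂ) (X : Fin r → ℂ),
      MvPolynomial.aeval (fun o : Option (Fin r) => o.elim t X) H =
      ∑ μ, Polynomial.aeval (t - algebraMap K ℂ s) (Hp μ) *
        (algebraMap K ℂ (integralBasis K μ.2) * mon δ X μ.1) := by
    refine ⟨∑ μ, Polynomial.aeval (MvPolynomial.X none - MvPolynomial.C s)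
      ((Hp μ).map (algebraMap ℚ K)) * (MvPolynomial.C (integralBasis K μ.2) *
      ∏ l, (μ.1 l).elim 1 fun y => MvPolynomial.X (some y)), fun t X => ?_⟩
    rw [map_sum]
    refine Finset.sum_congr rfl fun μ _ => ?_
    rw [map_mul, map_mul, ← Polynomial.aeval_algHom_apply, map_prod,
      Polynomial.aeval_map_algebraMap, MvPolynomial.aeval_C]
    congr 2
    · simp
    · exact Finset.prod_congr rfl fun l _ => by cases μ.1 l <;> simp [hat]
  refine ⟨H, fun U' P' hU => ?_, ?_⟩
  · suffices IsOpen U' ∧ ∀ t ∈ U', MvPolynomial.aeval (fun o => o.elim t (P' t)) H = 0 from this.2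
    induction hU with
    | base =>
      refine ⟨ho, vanishK ho hc hy H hs ?_⟩
      have : Tendsto (fun t : ℂ => t - algebraMap K ℂ s) (𝓝 (x + algebraMap K ℂ s)) (𝓝 x) :=
        (continuous_sub_right _).tendsto' _ _ (add_sub_cancel_right _ _)
      filter_upwards [this.eventually H2, this.eventually hΦ] with t ht h1
      simpa only [hp, dotProduct, h1, sub_add_cancel] using ht
    | step U1 U2 P1 P2 s' _ o2 c2 d2 s1 s2 e ih =>
      refine ⟨o2, vanishK o2 c2 d2 H s2 ?_⟩
      filter_upwards [e, ih.1.mem_nhds s1] with t h3 h4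
      rw [← h3]
      exact ih.2 t h4
  · apply MvPolynomial.map_injective (algebraMap K ℂ) (algebraMap K ℂ).injective
    refine MvPolynomial.funext fun X => ?_
    rw [MvPolynomial.eval_map, MvPolynomial.eval_map, ← MvPolynomial.aeval_def,
      ← MvPolynomial.aeval_def, ← AlgHom.comp_apply, MvPolynomial.comp_aeval, hc']
    refine Eq.trans ?_ ((hp (x + algebraMap K ℂ s) X).trans ?_)
    · congr 2
      ext (_ | a) <;> simp [add_comm]
    · simp only [add_sub_cancel_right, aeval_rat, H1]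

theorem exists_lin {ν : Type*} [Fintype ν] [DecidableEq ν] {T u : Polynomial K}
    {B : Matrix ν ν (Polynomial K)} {s : K} {U : Set ℂ} {P : ℂ → Matrix ν ν ℂ} (hP : FundK T B U P)
    {N : Polynomial ℚ} {B' : Matrix (ν × Ix K) (ν × Ix K) (Polynomial ℚ)}
    (h : ∀ z : ℂ, Polynomial.aeval z N =
      Polynomial.aeval (z + algebraMap K ℂ s) T * Polynomial.aeval z u ∧ ∀ i y,
      ∑ a, algebraMap K ℂ (integralBasis K a) * Polynomial.aeval z (B' (i, a) y) =
        Polynomial.aeval z u * Polynomial.aeval (z + algebraMap K ℂ s) (B i y.1) *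
          algebraMap K ℂ (integralBasis K y.2))
    {R : ℝ} (R0 : 0 < R) {Y : ℂ → Matrix (ν × Ix K) (ν × Ix K) ℂ} (Y0 : Y 0 = 1)
    (hY : ∀ z ∈ ball (0 : ℂ) R, z + algebraMap K ℂ s ∈ U ∧ Polynomial.aeval z N ≠ 0 ∧
      MSol (Az N B') Y z) : ∃ (E : Matrix ν (ν × Ix K) ℂ) (F : Matrix (ν × Ix K) ν ℂ),
        ∀ z ∈ ball (0 : ℂ) R, P (z + algebraMap K ℂ s) = E * Y z * F := by
  obtain ⟨E, hE⟩ : ∃ E : Matrix ν (ν × Ix K) ℂ, E = of fun i x =>
    if i = x.1 then algebraMap K ℂ (integralBasis K x.2) else 0 := ⟨_, rfl⟩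
  obtain ⟨F, hF⟩ : ∃ F : Matrix (ν × Ix K) ν ℂ, E * F = 1 :=
    ⟨of fun x i => if x.1 = i then ((integralBasis K).repr 1 x.2 : ℚ) else 0, by
      have := congrArg (algebraMap K ℂ) ((integralBasis K).sum_repr 1)
      ext i j
      by_cases e : i = j <;>
        simp [hE, mul_apply, Fintype.sum_prod_type, e, one_apply]
      simpa [Algebra.smul_def, mul_comm] using this⟩
  obtain ⟨A, hA⟩ : ∃ A : ℂ → Matrix ν ν ℂ, A = fun z => of fun i j => Polynomial.aeval
    (z + algebraMap K ℂ s) (B i j) / Polynomial.aeval (z + algebraMap K ℂ s) T := ⟨_, rfl⟩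
  have h1 : ∀ z ∈ ball (0 : ℂ) R, Polynomial.aeval (z + algebraMap K ℂ s) T ≠ 0 ∧
      Polynomial.aeval z u ≠ 0 := fun z hz => mul_ne_zero_iff.1 ((h z).1 ▸ (hY z hz).2.1)
  refine ⟨E, F * P (algebraMap K ℂ s), muniq isOpen_ball (convex_ball _ _).isPreconnected (A := A)
    (fun i j => ?_) (fun z hz i j => ?_) (fun z hz => MSol.mul_const (fun i y => ?_) _)
    (mem_ball_self R0) (by
      simp only [Y0, Matrix.mul_one, ← Matrix.mul_assoc, hF, Matrix.one_mul, zero_add])⟩
  · rw [hA]
    have hd : ∀ p : Polynomial K, Differentiable ℂ fun t : ℂ =>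
        Polynomial.aeval (t + algebraMap K ℂ s) p := fun p =>
      Differentiable.comp (g := fun t : ℂ => Polynomial.aeval t p) p.differentiable_aeval
        (differentiable_id.add_const _)
    exact ((hd _).differentiableOn).div ((hd _).differentiableOn) fun z hz => (h1 z hz).1
  · obtain ⟨a1, a2⟩ := (hP _ (hY z hz).1).2 i j
    refine (a1.hasDerivAt.comp_add_const z _).congr_deriv ?_
    simp only [hA, mul_apply, of_apply, div_mul_eq_mul_div, ← sum_div, ← a2]
    field_simp [(h1 z hz).1]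
  · have e : E * Az N B' z = A z * E := by
      ext i y
      simp only [hE, hA, mul_apply, of_apply, Az, Fintype.sum_prod_type, ite_mul, zero_mul, mul_ite,
        mul_zero, sum_ite_eq', mem_univ, if_true, sum_ite_irrel, sum_const_zero, sum_ite_eq,
        ← mul_div_assoc, ← sum_div, (h z).2, (h z).1]
      field_simp [(h1 z hz).1, (h1 z hz).2]
    rw [← Matrix.mul_assoc, ← e, Matrix.mul_assoc]
    exact HasDerivAt.fun_sum fun x _ => ((hY z hz).2.2 x y).const_mul (E i x)

end field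

end

end Pool.Agent.Lib.MP_5591bc_ag.R
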