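import Pool.Agent.Lib.MP_5591bc_ag.REst

/-! Pade approximants for tensor products; saturated modules. -/

namespace Pool.Agent.Lib.MP_5591bc_ag.R

open Matrix Finset Filter Topology PowerSeries G

noncomputable section

variable {σ A : Type*} [Fintype σ] [DecidableEq σ] [Fintype A] [DecidableEq A]

theorem τ1_zero (p : Polynomial ℚ) : τ1 0 p = p := by simp [τ1]

omit [Fintype σ] [DecidableEq σ] in
theorem coe_toMv (i : σ) (p : Polynomial ℚ) : (toMv i p : MvPowerSeries σ ℚ) = emb i p := by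
  rw [← τs_zero, τs_toMv, Pi.zero_apply, τ1_zero]

/-- polynomial vectors orthogonal to all polynomial relations of `f` -/
def Sat (f : A → ℚ⟦X⟧) : Set (A → Polynomial ℚ) :=
  {U | ∀ l : A → Polynomial ℚ, (fun a => (l a : ℚ⟦X⟧)) ⬝ᵥ f = 0 → l ⬝ᵥ U = 0}

theorem sat_tens {f : A → ℚ⟦X⟧} {U : σ → A → Polynomial ℚ} (hU : ∀ i, U i ∈ Sat f)
    (a : (σ → A) → MvPolynomial σ ℚ)
    (h : (fun j => (a j : MvPowerSeries σ ℚ)) ⬝ᵥ (fun β => ∏ i, emb i (f (β i))) = 0) :
    a ⬝ᵥ (tens fun i α => toMv i (U i α)) = 0 := by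
  obtain ⟨d, hd⟩ : ∃ d, ∀ β i, MvPolynomial.degreeOf i (a β) ≤ d :=
    ⟨univ.sup fun β => (a β).totalDegree, fun β i => (MvPolynomial.degreeOf_le_totalDegree _ _).trans
      (le_sup (f := fun β => (a β).totalDegree) (mem_univ β))⟩
  let cv : ℕ → (A → ℚ⟦X⟧) → A × Fin (d + 1) → ℚ := fun n x k => coeff n (X ^ (k.2 : ℕ) * x k.1)
  let fs : (σ → Fin (d + 1)) → σ →₀ ℕ := fun j => Finsupp.equivFunOnFinite.symm fun i => j i
  have e1 : ∀ β, (a β : MvPowerSeries σ ℚ) = ∑ j : σ → Fin (d + 1),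
      MvPowerSeries.C ((a β).coeff (fs j)) * ∏ i, emb i (X ^ (j i : ℕ)) := fun β => by
    ext ν
    simp only [map_sum, MvPowerSeries.coeff_C_mul, coeff_prod_emb, coeff_X_pow, prod_boole,
      MvPolynomial.coeff_coe, mem_univ, true_imp_iff]
    by_cases hν : ∀ i, ν i ≤ d
    · rw [sum_eq_single (fun i => ⟨ν i, Nat.lt_succ_of_le (hν i)⟩)
        (fun j _ hj => by rw [if_neg fun e => hj (funext fun i => Fin.ext (e i).symm), mul_zero])
        (by simp)]
      simp [fs]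
    · rw [sum_eq_zero fun j _ => by
        rw [if_neg fun e : ∀ i, ν i = j i => hν fun i => (e i).trans_le (Nat.le_of_lt_succ (j i).2),
          mul_zero]]
      by_contra h0
      exact hν fun i =>
        (MvPolynomial.monomial_le_degreeOf i (MvPolynomial.mem_support_iff.2 h0)).trans (hd β i)
  have e2 : ∀ (x : σ → A → ℚ⟦X⟧) ν, MvPowerSeries.coeff ν
      ((fun j => (a j : MvPowerSeries σ ℚ)) ⬝ᵥ fun β => ∏ i, emb i (x i (β i))) =
      (fun κ : σ → A × Fin (d + 1) => (a fun i => (κ i).1).coeff (fs fun i => (κ i).2)) ⬝ᵥ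
        tens fun i => cv (ν i) (x i) := fun x ν => by
    simp only [dotProduct, e1, sum_mul, map_sum, mul_assoc, ← prod_mul_distrib, ← map_mul,
      MvPowerSeries.coeff_C_mul, coeff_prod_emb]
    rw [← Fintype.sum_prod_type', ← (Equiv.arrowProdEquivProdArrow σ _ _).sum_comp]
    rfl
  have e3 : ∀ (b : A × Fin (d + 1) → ℚ) (x : A → ℚ⟦X⟧) n, coeff n ((fun α =>
      ((∑ j : Fin (d + 1), Polynomial.monomial j (b (α, j)) : Polynomial ℚ) : ℚ⟦X⟧)) ⬝ᵥ x) =
      b ⬝ᵥ cv n x := fun b x n => by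
    simp only [dotProduct, ← Polynomial.coeToPowerSeries.ringHom_apply, map_sum, sum_mul,
      Fintype.sum_prod_type, ← Polynomial.C_mul_X_pow_eq_monomial, map_mul, map_pow]
    simp only [Polynomial.coeToPowerSeries.ringHom_apply, Polynomial.coe_C, Polynomial.coe_X,
      mul_assoc, coeff_C_mul, cv]
  refine MvPolynomial.coe_injective σ ℚ (MvPowerSeries.ext fun ν => ?_)
  have := mrep (S := fun _ => Set.range fun n => cv n f)
    (S' := fun i => Set.range fun n => cv n fun α => (U i α : ℚ⟦X⟧))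
    (fun i b hb _ ⟨n, hn⟩ => by
      have := congrArg (fun p : Polynomial ℚ => coeff n (p : ℚ⟦X⟧))
        (hU i _ (PowerSeries.ext fun n => (e3 b f n).trans (hb _ ⟨n, rfl⟩)))
      rw [← hn]
      refine (e3 b (fun α => (U i α : ℚ⟦X⟧)) n).symm.trans ?_
      simpa [dotProduct, ← Polynomial.coeToPowerSeries.ringHom_apply] using this)
    (fun x hx => by
      choose n hn using hx
      rw [← funext hn]
      exact (e2 (fun _ => f) (Finsupp.equivFunOnFinite.symm n)).symm.trans (by rw [h, map_zero]))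
    fun i => ⟨ν i, rfl⟩
  simpa [dotProduct, tens, ← MvPolynomial.coeToMvPowerSeries.ringHom_apply, ← coe_toMv] using
    (e2 (fun i α => (U i α : ℚ⟦X⟧)) ν).trans this

omit [Fintype A] [DecidableEq A] in
theorem nr_trunc {a : ℕ} {f : A → ℚ⟦X⟧} (hf : GF a f) {r : σ → ℝ} (hr : ∀ i, 0 ≤ r i) (K : ℕ)
    (β : σ → A) {M : ℝ} (hM : ∀ i, ∑ k ∈ range K, (a : ℝ) ^ (k + 1) * r i ^ k ≤ M) :
    nr r (∏ i, toMv i (trunc K (f (β i)))) ≤ M ^ Fintype.card σ := by
  refine (nr_prod hr _ _).trans ((prod_le_prod (fun i _ => nr_nonneg hr _) fun i _ =>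
    le_trans ?_ (hM i)).trans (by simp))
  rw [trunc_apply, map_sum, Nat.Ico_zero_eq_range]
  refine (nr_sum hr _ _).trans (sum_le_sum fun k _ => ?_)
  rw [toMv, Polynomial.aeval_monomial, MvPolynomial.algebraMap_eq]
  refine (nr_mul hr _ _).trans ?_
  rw [nr_C]
  exact mul_le_mul ((hf k).1 _) ((nr_pow hr _ _).trans (by rw [nr_X])) (nr_nonneg hr _)
    (by positivity)

omit [Fintype A] [DecidableEq A] in
theorem coeff_mul_trunc (f : A → ℚ⟦X⟧) (Q : MvPolynomial σ ℚ) {K : ℕ} (β : σ → A) {d : σ →₀ ℕ}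
    (h : ∀ i, d i < K) : (Q * ∏ i, toMv i (trunc K (f (β i)))).coeff d =
      MvPowerSeries.coeff d ((Q : MvPowerSeries σ ℚ) * ∏ i, emb i (f (β i))) := by
  rw [← MvPolynomial.coeff_coe, MvPolynomial.coe_mul, MvPowerSeries.coeff_mul,
    MvPowerSeries.coeff_mul]
  refine sum_congr rfl fun p hp => ?_
  rw [← MvPolynomial.coeToMvPowerSeries.ringHom_apply (φ := ∏ i, _), map_prod]
  simp only [MvPolynomial.coeToMvPowerSeries.ringHom_apply, coe_toMv, coeff_prod_emb,
    Polynomial.coeff_coe, coeff_trunc]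
  rw [prod_congr rfl fun i _ => if_pos (lt_of_le_of_lt (by
    rw [← mem_antidiagonal.1 hp]; exact Nat.le_add_left _ _) (h i))]

omit [DecidableEq A] in
theorem padeP {a : ℕ} {f : A → ℚ⟦X⟧} (hf : GF (2 ^ a) f) {w : σ → ℕ} (hw : ∀ i, 0 < w i)
    {L g t : ℕ} (hL : 2 * Fintype.card (σ → A) * (2 * Fintype.card σ + 2) ^ Fintype.card σ < L)
    (g0 : 0 < g) (t0 : 0 < t) (ht : ∀ i, 2 * (L * g) ≤ t * w i) :
    ∃ k < L, ∃ (Q : MvPolynomial σ ℚ) (μ : σ →₀ ℕ) (P : (σ → A) → MvPolynomial σ ℚ),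
      Q.coeff μ ≠ 0 ∧ Finsupp.weight w μ ≤ L * g ∧
      (∀ β, Vn w ((L + k + 1) * g) (P β - Q * ∏ i, emb i (f (β i)))) ∧
      (∀ β, Bd (fun i => 2 * (L * g) / w i) (8 * (a + 1) * Fintype.card σ * t) (P β)) ∧
      (∀ β d, (P β).coeff d ≠ 0 → Finsupp.weight w d ≤ (L + k) * g) ∧
      ∀ (ρ : σ → ℝ) (θ : ℝ), (∀ i, 0 ≤ ρ i) → 0 ≤ θ → θ ≤ 1 →
        (∀ i, ρ i ≤ θ ^ w i * (2 * 2 ^ a)⁻¹) → ∀ K ≥ (L + k + 1) * g, ∀ β,
          nr ρ (Q * ∏ i, toMv i (trunc K (f (β i))) - P β) ≤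
            θ ^ ((L + k + 1) * g) * 2 ^ (8 * (a + 1) * Fintype.card σ * t) := by
  set m := Fintype.card σ with hm
  obtain ⟨-, d, d0, d1, d2⟩ := hf t
  have hν : ∀ ν : σ →₀ ℕ, Finsupp.weight w ν ≤ 2 * (L * g) → ∀ i, ν i ≤ t := fun ν h i =>
    Nat.le_of_mul_le_mul_right ((le_weight w ν i).trans (h.trans (ht i))) (hw i)
  have d3 : (d : ℝ) ≤ 2 ^ (2 * a * t) := by
    rw [← pow_mul] at d1
    exact_mod_cast d1.trans (Nat.pow_le_pow_right two_pos (by nlinarith))
  obtain ⟨k, hk, Q, μ, a1, a2, a3, a4, a5⟩ := pade (fun β : σ → A => ∏ i, emb i (f (β i))) hw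
    (g := g) (t := t) (d := d ^ m) hL (fun i => le_trans (by omega) (ht i)) (by positivity)
    (a := 2 ^ (4 * a * t * m)) (one_le_pow₀ one_le_two) fun β ν h => by
      choose z hz using fun i => d2 (β i) _ (hν ν h i)
      refine ⟨∏ i, z i, by simp [coeff_prod_emb, ← hz, prod_mul_distrib, hm], ?_⟩
      rw [Int.cast_prod, abs_prod, pow_mul, hm, ← card_univ, ← prod_const]
      refine prod_le_prod (fun _ _ => abs_nonneg _) fun i _ => ?_
      rw [← Rat.cast_intCast, ← hz, Rat.cast_mul, abs_mul, Rat.cast_natCast, Nat.abs_cast]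
      refine (mul_le_mul d3 ((hf _).1 _) (abs_nonneg _) (by positivity)).trans ?_
      rw [Nat.cast_pow, Nat.cast_ofNat, ← pow_mul, ← pow_add]
      exact pow_le_pow_right₀ one_le_two (by nlinarith [Nat.mul_le_mul_left a (hν ν h i)])
  have hQ : nr 1 Q ≤ 2 ^ ((6 * a + 2) * m * t) := a3.trans (by
    rw [Nat.cast_pow]
    refine (mul_le_mul_of_nonneg_right (mul_le_mul_of_nonneg_right
      (pow_le_pow_left₀ d.cast_nonneg d3 m) (by positivity)) (by positivity)).trans (le_of_eq ?_)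
    ring)
  have hkL : (L + k) * g ≤ 2 * (L * g) := by nlinarith
  obtain ⟨P, hP⟩ : ∃ P : (σ → A) → MvPolynomial σ ℚ, ∀ β ν, (P β).coeff ν =
      if Finsupp.weight w ν ≤ (L + k) * g then
        MvPowerSeries.coeff ν ((Q : MvPowerSeries σ ℚ) * ∏ i, emb i (f (β i))) else 0 :=
    ⟨fun β => MvPowerSeries.truncFinset ℚ ((bx fun _ => t).filter fun ν =>
      Finsupp.weight w ν ≤ (L + k) * g) _, fun β ν => by
        rw [MvPowerSeries.coeff_truncFinset]
        exact if_congr ⟨fun h => (mem_filter.1 h).2, fun h =>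
          mem_filter.2 ⟨mem_bx.2 (hν ν (h.trans hkL)), h⟩⟩ rfl rfl⟩
  have hs : ∀ β d, (P β).coeff d ≠ 0 → Finsupp.weight w d ≤ (L + k) * g := fun β d h =>
    by_contra fun e => h (by rw [hP, if_neg e])
  refine ⟨k, hk, Q, μ, P, a1, a2, fun β ν h => ?_, fun β => ⟨mem_ZP.2 fun ν => ?_, fun i => ?_, ?_⟩,
    hs, fun ρ θ hρ h0 h1 h K hK β => ?_⟩
  · rw [map_sub, MvPolynomial.coeff_coe, hP]
    split_ifs with e
    · exact sub_self _
    · rw [a5 β ν (not_le.1 e) h, sub_zero]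
  · rw [hP]
    split_ifs with e
    · exact a4 β ν (e.trans hkL)
    · exact ⟨0, rfl⟩
  · exact MvPolynomial.degreeOf_le_iff.2 fun ν hν' => (Nat.le_div_iff_mul_le (hw i)).2
      ((le_weight w ν i).trans ((hs β ν (MvPolynomial.mem_support_iff.1 hν')).trans hkL))
  · have b1 := nr_high (ρ := 1) (r := 1) (fun _ => zero_le_one) (fun _ => zero_le_one) zero_le_one
      le_rfl (w := w) (by simp) (D := 0) (p := P β) (q := Q * ∏ i, toMv i (trunc (t + 1) (f (β i))))
      fun ν h => ⟨Nat.zero_le _, by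
        rw [hP, if_pos (hs β ν h), coeff_mul_trunc _ _ _ fun i =>
          Nat.lt_succ_of_le (hν ν ((hs β ν h).trans hkL) i)]⟩
    have b2 := nr_trunc hf (r := 1) (fun _ => zero_le_one) (t + 1) β (M := 2 ^ (2 * (a + 1) * t))
      fun i => (sum_le_card_nsmul _ _ (2 ^ (a * (t + 1))) fun k hk => by
        rw [Pi.one_apply, one_pow, mul_one, Nat.cast_pow, Nat.cast_ofNat, ← pow_mul]
        exact pow_le_pow_right₀ one_le_two (Nat.mul_le_mul_left a (mem_range.1 hk))).trans (by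
          rw [card_range, nsmul_eq_mul]
          refine (mul_le_mul_of_nonneg_right (show ((t + 1 : ℕ) : ℝ) ≤ 2 ^ t by
            exact_mod_cast Nat.lt_two_pow_self) (by positivity)).trans ?_
          rw [← pow_add]
          exact pow_le_pow_right₀ one_le_two (by nlinarith))
    rw [pow_zero, one_mul] at b1
    refine b1.trans ((nr_mul (fun _ => zero_le_one) _ _).trans ((mul_le_mul hQ b2
      (nr_nonneg (fun _ => zero_le_one) _) (by positivity)).trans ?_))
    rw [← pow_mul, ← pow_add]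
    exact pow_le_pow_right₀ one_le_two (by nlinarith [Nat.zero_le (m * t)])
  · have r0 : ∀ i : σ, (0 : ℝ) ≤ (2 * 2 ^ a)⁻¹ := fun _ => by positivity
    have r1 : (1 : ℝ) ≤ 2 * 2 ^ a := by linarith [one_le_pow₀ (n := a) (one_le_two (α := ℝ))]
    refine (nr_high hρ r0 h0 h1 h (q := Q * ∏ i, toMv i (trunc K (f (β i)))) fun ν hν' => ?_).trans
      (mul_le_mul_of_nonneg_left ?_ (pow_nonneg h0 _))
    · rw [MvPolynomial.coeff_sub, hP] at hν' ⊢
      by_cases e : Finsupp.weight w ν < (L + k + 1) * g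
      · rw [coeff_mul_trunc _ _ _ fun i => lt_of_le_of_lt ((Nat.le_mul_of_pos_right _ (hw i)).trans
          (le_weight w ν i)) (e.trans_le hK)] at hν'
        split_ifs at hν' with e'
        · exact absurd (sub_self _) hν'
        · exact absurd (by rw [a5 β ν (not_le.1 e') e, sub_zero]) hν'
      · split_ifs at hν' ⊢ with e'
        · exact absurd (e'.trans_lt (by nlinarith)) e
        · exact ⟨not_lt.1 e, sub_zero _⟩
    · have b1 := nr_high r0 (r := 1) (fun _ => zero_le_one) zero_le_one le_rfl (w := w)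
        (fun _ => by simpa using inv_le_one_of_one_le₀ r1) (D := 0) (p := Q) (q := Q)
        fun _ _ => ⟨Nat.zero_le _, rfl⟩
      have b2 := nr_trunc hf r0 K β (M := 2 ^ (a + 1)) fun i => by
        have : ∀ k, ((2 ^ a : ℕ) : ℝ) ^ (k + 1) * (2 * 2 ^ a)⁻¹ ^ k = (1 / 2) ^ k * 2 ^ a :=
          fun k => by push_cast; rw [mul_inv, mul_pow, inv_pow (2 ^ a), pow_succ]; field_simp
        simp only [this, ← sum_mul]
        rw [pow_succ']
        exact mul_le_mul_of_nonneg_right (sum_geometric_two_le K) (by positivity)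
      rw [pow_zero, one_mul] at b1
      refine (nr_mul r0 _ _).trans ((mul_le_mul (b1.trans hQ) b2 (nr_nonneg r0 _)
        (by positivity)).trans ?_)
      rw [← pow_mul, ← pow_add]
      exact pow_le_pow_right₀ one_le_two (by
        nlinarith [Nat.zero_le (m * t), Nat.zero_le (a * m * t),
          Nat.le_mul_of_pos_right ((a + 1) * m) t0])

end

end Pool.Agent.Lib.MP_5591bc_ag.R
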