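import Pool.Agent.Lib.MP_5591bc_ag.RNorm

/-! Roth's lemma on the index of a polynomial at a rational point. -/

namespace Pool.Agent.Lib.MP_5591bc_ag.R

open MvPolynomial Finset

noncomputable section

variable {m : ℕ}

/-- product of a polynomial in the last variables and a polynomial in the first variable -/
def sp (U : MvPolynomial (Fin m) ℚ) (V : Polynomial ℚ) : MvPolynomial (Fin (m + 1)) ℚ :=
  rename Fin.succ U * Polynomial.aeval (X 0 : MvPolynomial (Fin (m + 1)) ℚ) V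

theorem coeff_sp (U : MvPolynomial (Fin m) ℚ) (V : Polynomial ℚ) (k : ℕ) (ν : Fin m →₀ ℕ) :
    coeff (ν.cons k) (sp U V) = V.coeff k * coeff ν U := by
  have e1 : finSuccEquiv ℚ m (rename Fin.succ U) = Polynomial.C U := by
    induction U using MvPolynomial.induction_on with
    | C a => simp [finSuccEquiv_apply]
    | add p q hp hq => simp only [map_add, hp, hq]
    | mul_X p j hp => simp only [map_mul, hp, rename_X, finSuccEquiv_X_succ]
  have e2 : finSuccEquiv ℚ m (Polynomial.aeval (X 0 : MvPolynomial (Fin (m + 1)) ℚ) V) = V.map C := by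
    rw [← Polynomial.aeval_algHom_apply, finSuccEquiv_X_zero, Polynomial.aeval_X_left_eq_map]
    rfl
  rw [← finSuccEquiv_coeff_coeff, sp, map_mul, e1, e2, Polynomial.coeff_C_mul, Polynomial.coeff_map,
    mul_comm, coeff_C_mul]

theorem sh_sp (ξ : Fin (m + 1) → ℚ) (U : MvPolynomial (Fin m) ℚ) (V : Polynomial ℚ) :
    sh ξ (sp U V) = sp (sh (fun i => ξ i.succ) U) (Polynomial.taylor (ξ 0) V) := by
  rw [sp, sp, map_mul]
  congr 1
  · rw [← AlgHom.comp_apply, ← AlgHom.comp_apply]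
    congr 1
    ext1 i
    simp [sh]
  · rw [← Polynomial.aeval_algHom_apply, Polynomial.taylor_apply, Polynomial.aeval_comp]
    simp [sh]

theorem weight_cons (w : Fin (m + 1) → ℕ) (k : ℕ) (ν : Fin m →₀ ℕ) :
    Finsupp.weight w (ν.cons k) = k * w 0 + Finsupp.weight (fun i => w i.succ) ν := by
  simp [Finsupp.weight_apply, Finsupp.sum_fintype, Fin.sum_univ_succ]

theorem gauss {V : Polynomial ℚ} (h0 : V ≠ 0) (h : ∀ k, ∃ z : ℤ, V.coeff k = z) (ξ : ℚ) :
    ∃ ν k, (Polynomial.taylor ξ V).coeff ν ≠ 0 ∧ (ξ.den : ℝ) ^ ν ≤ |((V.coeff k : ℚ) : ℝ)| := by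
  obtain ⟨W, rfl⟩ : V ∈ Polynomial.lifts (Int.castRingHom ℚ) :=
    (Polynomial.lifts_iff_coeff_lifts _).2 fun k => (h k).imp fun z hz => hz.symm
  have hW : W ≠ 0 := fun e => h0 (by simp [e])
  set ν := Polynomial.rootMultiplicity ξ (W.map (Int.castRingHom ℚ)) with hν
  refine ⟨ν, W.natDegree, ?_, ?_⟩
  · rw [hν, Polynomial.rootMultiplicity_eq_natTrailingDegree, ← Polynomial.taylor_apply]
    exact Polynomial.trailingCoeff_nonzero_iff_nonzero.2 (by simpa using h0)
  let p : Polynomial ℤ := Polynomial.C (ξ.den : ℤ) * Polynomial.X + Polynomial.C (-ξ.num)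
  have hd : (ξ.den : ℤ) ≠ 0 := by exact_mod_cast ξ.den_nz
  have h1 : p.IsPrimitive := fun r hr => by
    rw [Polynomial.C_dvd_iff_dvd_coeff] at hr
    have a0 := hr 0
    have a1 := hr 1
    simp only [p, Polynomial.coeff_add, Polynomial.coeff_C_mul, Polynomial.coeff_X_zero,
      Polynomial.coeff_X_one, Polynomial.coeff_C_zero, Polynomial.coeff_C_succ, mul_zero, zero_add,
      mul_one, add_zero, dvd_neg] at a0 a1
    exact ξ.isCoprime_num_den.isUnit_of_dvd' a0 a1
  have h2 : ∀ k, (p ^ k).IsPrimitive := fun k => by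
    induction k with
    | zero => simp
    | succ k ih => rw [pow_succ]; exact ih.mul h1
  have h3 : p ^ ν ∣ W := by
    rw [Polynomial.IsPrimitive.Int.dvd_iff_map_cast_dvd_map_cast _ _ (h2 ν), Polynomial.map_pow]
    have : p.map (Int.castRingHom ℚ) = Polynomial.C (ξ.den : ℚ) * (Polynomial.X - Polynomial.C ξ) := by
      rw [mul_sub, ← Polynomial.C_mul, Rat.den_mul_eq_num]
      simp [p, sub_eq_add_neg]
    rw [this, mul_pow, IsUnit.mul_left_dvd]
    · exact Polynomial.pow_rootMultiplicity_dvd _ _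
    · exact (Polynomial.isUnit_C.2 (isUnit_iff_ne_zero.2 (by exact_mod_cast ξ.den_nz))).pow _
  have h4 := Polynomial.leadingCoeff_dvd_leadingCoeff h3
  rw [Polynomial.leadingCoeff_pow, Polynomial.leadingCoeff_linear hd] at h4
  have h5 := Int.le_of_dvd (abs_pos.2 (Polynomial.leadingCoeff_ne_zero.2 hW)) ((dvd_abs _ _).2 h4)
  rw [Polynomial.coe_mapRingHom, Polynomial.coeff_map, eq_intCast, Rat.cast_intCast]
  exact_mod_cast h5

theorem decomp (Δ : MvPolynomial (Fin (m + 1)) ℚ) : ∃ r ≤ degreeOf 0 Δ + 1,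
    ∃ (φ : Fin r → MvPolynomial (Fin m) ℚ) (ψ : Fin r → Polynomial ℚ), LinearIndependent ℚ φ ∧
      LinearIndependent ℚ (fun k => sp (m := m) 1 (ψ k)) ∧ Δ = ∑ k, sp (φ k) (ψ k) := by
  let d := degreeOf 0 Δ + 1
  let c : Fin d → MvPolynomial (Fin m) ℚ := fun k => (finSuccEquiv ℚ m Δ).coeff k
  let V := Submodule.span ℚ (Set.range c)
  have : Module.Finite ℚ V := Module.Finite.span_of_finite ℚ (Set.finite_range c)
  let b := Module.finBasis ℚ V
  let c' : Fin d → V := fun k => ⟨c k, Submodule.subset_span ⟨k, rfl⟩⟩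
  let ψ : Fin (Module.finrank ℚ V) → Polynomial ℚ := fun j =>
    ∑ k : Fin d, Polynomial.monomial k (b.repr (c' k) j)
  have hψ : ∀ j (k : Fin d), (ψ j).coeff k = b.repr (c' k) j := fun j k => by
    simp [ψ, Polynomial.coeff_monomial, Fin.val_inj]
  refine ⟨_, (finrank_range_le_card c).trans (by simp [d]), fun j => b j, ψ,
    b.linearIndependent.map' V.subtype V.ker_subtype, ?_, ?_⟩
  · refine Fintype.linearIndependent_iff.2 fun g hg j => ?_
    let ℓ : V →ₗ[ℚ] ℚ := b.constr ℚ g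
    have h1 : ∀ k, ℓ (c' k) = 0 := fun k => by
      have := congrArg (coeff ((0 : Fin m →₀ ℕ).cons k)) hg
      simp only [coeff_sum, coeff_smul, coeff_sp, hψ, coeff_zero_one, mul_one, coeff_zero,
        smul_eq_mul] at this
      rw [← this, Module.Basis.constr_apply_fintype]
      exact sum_congr rfl fun j _ => mul_comm _ _
    have h2 : ℓ = 0 := LinearMap.ext_on_range
      ((Submodule.span_range_subtype_eq_top_iff V _).2 rfl) h1
    exact (b.constr_basis ℚ g j).symm.trans (LinearMap.congr_fun h2 (b j))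
  · ext μ
    rw [← μ.cons_tail, coeff_sum]
    simp only [coeff_sp]
    rw [← finSuccEquiv_coeff_coeff]
    by_cases hk : μ 0 < d
    · have := congrArg (fun x : V => coeff μ.tail (x : MvPolynomial (Fin m) ℚ))
        (b.sum_repr (c' ⟨_, hk⟩))
      simp only [← hψ, Submodule.coe_sum, coeff_sum, Submodule.coe_smul, coeff_smul,
        smul_eq_mul] at this
      exact this.symm
    · rw [Polynomial.coeff_eq_zero_of_natDegree_lt (by rw [natDegree_finSuccEquiv]; omega),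
        coeff_zero, sum_eq_zero fun j _ => ?_]
      rw [Polynomial.finset_sum_coeff, sum_eq_zero fun k _ => ?_, zero_mul]
      exact Polynomial.coeff_monomial_of_ne _ (by have := k.2; omega)

theorem nr_fse (W : MvPolynomial (Fin (m + 1)) ℚ) (k : ℕ) :
    nr 1 ((finSuccEquiv ℚ m W).coeff k) ≤ nr 1 W := by
  simp only [nr, Pi.one_apply, one_pow, prod_const_one, mul_one, finSuccEquiv_coeff_coeff]
  rw [← sum_image (f := fun d => |((coeff d W : ℚ) : ℝ)|) (Finsupp.cons_right_injective k).injOn]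
  refine sum_le_sum_of_subset_of_nonneg (fun d hd => ?_) fun _ _ _ => abs_nonneg _
  obtain ⟨d, hd', rfl⟩ := mem_image.1 hd
  rwa [mem_support_iff, finSuccEquiv_coeff_coeff, ← mem_support_iff] at hd'

theorem pderiv_sp_zero (U : MvPolynomial (Fin m) ℚ) (V : Polynomial ℚ) :
    pderiv 0 (sp U V) = sp U V.derivative := by
  have : pderiv 0 (rename Fin.succ U) = 0 := by
    induction U using MvPolynomial.induction_on with
    | C a => simp
    | add p q hp hq => simp only [map_add, hp, hq, add_zero]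
    | mul_X p j hp => simp [hp, pderiv_X]
  simp [sp, Derivation.leibniz, this, Derivation.map_aeval]

theorem pderiv_sp_succ (U : MvPolynomial (Fin m) ℚ) (V : Polynomial ℚ) (i : Fin m) :
    pderiv i.succ (sp U V) = sp (pderiv i U) V := by
  simp [sp, Derivation.leibniz, Derivation.map_aeval, pderiv_rename (Fin.succ_injective m),
    pderiv_X, mul_comm]

theorem dl_sp (L : List (Fin m)) (l : ℕ) {α : Type*} (s : Finset α)
    (U : α → MvPolynomial (Fin m) ℚ) (V : α → Polynomial ℚ) :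
    dl (L.map Fin.succ) (dl (List.replicate l 0) (∑ a ∈ s, sp (U a) (V a))) =
      ∑ a ∈ s, sp (dl L (U a)) (Polynomial.derivative^[l] (V a)) := by
  induction L with
  | nil =>
    induction l with
    | zero => rfl
    | succ l ih =>
      refine (congrArg (pderiv 0) ih).trans ?_
      simp only [map_sum, pderiv_sp_zero, Function.iterate_succ_apply']
  | cons i L ih =>
    refine (congrArg (pderiv i.succ) ih).trans ?_
    simp only [map_sum, pderiv_sp_succ]
    rfl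

theorem Vn.dl {σ : Type*} {w : σ → ℕ} {n : ℕ} {ξ : σ → ℚ} {p : MvPolynomial σ ℚ}
    (h : Vn w n (sh ξ p : MvPolynomial σ ℚ)) (L : List σ) :
    Vn w (n - (L.map w).sum) (sh ξ (dl L p) : MvPolynomial σ ℚ) := by
  induction L with
  | nil => exact h
  | cons i L ih =>
    have := ih.pderiv i
    rw [MvPowerSeries.pderiv_coe, pderiv_sh] at this
    exact this.mono (by simp only [List.map_cons, List.sum_cons]; omega)

theorem roth_num {r L E t n w0 : ℕ} (hr : 0 < r) (hL : 0 < L) (h1 : (r - 1) * w0 ≤ E)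
    (h2 : 4 * L * t ≤ E) (h3 : E < L * n) :
    r * E < 8 * L ^ 2 * ∑ l : Fin r, (n - l.rev * w0 - t) := by
  have hq : (r - 1) / (4 * L) + 1 ≤ r := by have := Nat.div_le_self (r - 1) (4 * L); omega
  have a1 : ∑ l : Fin r, (n - l.rev * w0 - t) = ∑ l ∈ range r, (n - l * w0 - t) := by
    rw [← Fin.sum_univ_eq_sum_range fun l => n - l * w0 - t]
    exact Equiv.sum_comp Fin.revPerm fun l : Fin r => n - l * w0 - t
  have a2 : ((r - 1) / (4 * L) + 1) * (E + 1) ≤ 2 * L * ∑ l ∈ range r, (n - l * w0 - t) := by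
    refine le_trans ?_ (Nat.mul_le_mul_left _ (sum_le_sum_of_subset (range_subset_range.2 hq)))
    rw [mul_sum]
    refine le_trans (by simp) (card_nsmul_le_sum _ _ (E + 1) fun l hl => ?_)
    have b1 : l * (4 * L) ≤ r - 1 :=
      (Nat.le_div_iff_mul_le (by omega)).1 (Nat.lt_succ_iff.1 (mem_range.1 hl))
    have b2 : 4 * (L * (l * w0)) ≤ E := by nlinarith
    rw [Nat.mul_sub, Nat.mul_sub, mul_assoc, mul_assoc, mul_assoc]
    rw [mul_assoc] at h2
    omega
  have a3 := Nat.lt_div_mul_add (a := r - 1) (b := 4 * L) (by omega)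
  have a4 : r ≤ ((r - 1) / (4 * L) + 1) * (4 * L) := by rw [add_mul]; omega
  rw [a1]
  nlinarith

/-- Roth's lemma -/
theorem roth (m L : ℕ) (hL : 0 < L) : ∃ Λ, 0 < Λ ∧ ∀ (w : Fin m → ℕ) (ξ : Fin m → ℚ) (E h : ℕ)
    (Δ : MvPolynomial (Fin m) ℚ), Δ ≠ 0 → Δ ∈ ZP _ → (∀ i j, i < j → Λ * w j ≤ w i) →
    (∀ i, 2 ^ w i ≤ (ξ i).den ^ 2) → (∀ i, Λ ≤ w i) → (∀ i, degreeOf i Δ * w i ≤ E) →
    nr 1 Δ ≤ 2 ^ h → Λ * h ≤ E → ¬ Vn w (E / L + 1) (sh ξ Δ : MvPolynomial (Fin m) ℚ) := by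
  induction m generalizing L with
  | zero =>
    refine ⟨1, one_pos, fun w ξ E h Δ h0 _ _ _ _ _ _ _ hv => h0 ?_⟩
    have := hv 0 (by simp)
    rw [Δ.eq_C_of_isEmpty] at this ⊢
    simpa [sh] using this
  | succ m ih =>
  obtain ⟨Λ', p0, ih⟩ := ih (16 * L ^ 2) (by positivity)
  refine ⟨(Λ' + 32 * L ^ 2) * (2 * m + 4), by positivity,
    fun w ξ E h Δ h0 hZ hw hd hΛ hE hn hh hv => ?_⟩
  set Λ := (Λ' + 32 * L ^ 2) * (2 * m + 4) with eΛ
  have p1 : Λ' ≤ Λ := by nlinarith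
  have p2 : 0 < Λ := by positivity
  obtain ⟨t, ht, hmax⟩ : ∃ t, Λ * t ≤ E ∧ ∀ x, Λ * x ≤ E → x ≤ t :=
    ⟨E / Λ, Nat.mul_div_le _ _, fun x hx => (Nat.le_div_iff_mul_le p2).2 (mul_comm Λ x ▸ hx)⟩
  have hdeg : ∀ i, degreeOf i Δ ≤ t := fun i => hmax _ (by nlinarith [hE i, hΛ i])
  obtain ⟨r, hr, φ, ψ, a1, a2, a3⟩ := decomp Δ
  have r0 : 0 < r := Nat.pos_of_ne_zero fun e => h0 (by subst e; simpa using a3)
  have r1 : (r - 1) * w 0 ≤ E := (Nat.mul_le_mul_right _ (by omega)).trans (hE 0)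
  obtain ⟨u, b1, b2⟩ := wron a1 (fun k v => ∃ l : List (Fin m), l.length ≤ k ∧
    v = fun j => dl l (φ j)) ⟨[], le_rfl, rfl⟩
    (fun k k' v hk ⟨l, c1, c2⟩ => ⟨l, c1.trans hk, c2⟩)
    fun k v i ⟨l, c1, c2⟩ => Or.inr ⟨i :: l, Nat.succ_le_succ c1, by subst c2; rfl⟩
  obtain ⟨v, b3, b4⟩ := wron a2 (fun k v => ∃ l ≤ k,
    v = fun j => sp 1 (Polynomial.derivative^[l] (ψ j))) ⟨0, le_rfl, rfl⟩
    (fun k k' v hk ⟨l, c1, c2⟩ => ⟨l, c1.trans hk, c2⟩) fun k v i ⟨l, c1, c2⟩ => by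
      subst c2
      refine Fin.cases (Or.inr ⟨l + 1, Nat.succ_le_succ c1, funext fun j => ?_⟩)
        (fun i => Or.inl (funext fun j => ?_)) i
      · rw [pderiv_sp_zero, Function.iterate_succ_apply']
      · rw [pderiv_sp_succ]; simp [sp]
  choose l1 c1 c2 using b1
  choose l2 c3 c4 using b3
  obtain ⟨U, eU⟩ : ∃ U, U = (Matrix.of u).det := ⟨_, rfl⟩
  obtain ⟨V, eV⟩ : ∃ V, V = (Matrix.of fun l j => Polynomial.derivative^[l2 l] (ψ j)).det :=
    ⟨_, rfl⟩
  have hV : (Matrix.of v).det = sp 1 V := by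
    rw [eV, sp, map_one, one_mul, AlgHom.map_det]
    congr 1
    ext1 l j
    simp [c4 l, sp]
  have V0 : V ≠ 0 := fun e => b4 (by simp [hV, e, sp])
  have hW : (Matrix.of fun l l' => dl ((l1 l).map Fin.succ) (dl (List.replicate (l2 l') 0) Δ)).det =
      sp U V := by
    have : sp U V = rename Fin.succ U * sp 1 V := by simp [sp]
    rw [this, ← hV, eU, AlgHom.map_det, ← Matrix.det_transpose (Matrix.of v), ← Matrix.det_mul]
    congr 1
    ext1 l l'
    rw [Matrix.of_apply, a3, dl_sp, Matrix.mul_apply]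
    simp [c2 l, c4 l', sp]
  have low : Vn w (∑ l : Fin r, (E / L + 1 - l.rev * w 0 - t))
      (sh ξ (sp U V) : MvPolynomial (Fin (m + 1)) ℚ) := by
    rw [← hW, AlgHom.map_det, ← MvPolynomial.coeToMvPowerSeries.ringHom_apply, RingHom.map_det]
    refine Vn.det fun l l' => ((hv.dl _).dl _).mono ?_
    have d1 : ((List.replicate (l2 l') 0).map w).sum ≤ l'.rev * w 0 := by
      simpa using Nat.mul_le_mul_right _ (c3 l')
    have d2 : (((l1 l).map Fin.succ).map w).sum ≤ t := hmax _ (by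
      rw [← List.sum_map_mul_left]
      refine (List.sum_le_card_nsmul _ (w 0) fun x hx => ?_).trans (le_trans ?_ r1)
      · simp only [List.map_map, List.mem_map] at hx
        obtain ⟨i, -, rfl⟩ := hx
        exact hw 0 i.succ i.succ_pos
      · have := (c1 l).trans (Nat.le_sub_one_of_lt l.rev.2)
        simpa using Nat.mul_le_mul_right _ this)
    omega
  choose n1 μ1 d1 d2 using fun l => dl_hs ((l1 l).map Fin.succ)
  choose n2 μ2 d3 d4 using fun l => dl_hs (List.replicate (l2 l) (0 : Fin (m + 1)))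
  obtain ⟨W, eW⟩ : ∃ W, W = (Matrix.of fun l l' => hs (μ1 l) (hs (μ2 l') Δ)).det := ⟨_, rfl⟩
  have hW2 : sp U V = ((∏ l, n1 l) * ∏ l, n2 l) • W := by
    rw [← hW, eW, mul_smul, smul_eq_C_mul, smul_eq_C_mul, map_prod, map_prod,
      ← Matrix.det_mul_row, ← Matrix.det_mul_column]
    congr 1
    ext1 l l'
    simp only [Matrix.of_apply, d2, d4, map_smul]
    simp only [smul_eq_C_mul]
  set N := (∏ l, n1 l) * ∏ l, n2 l with eN
  have N0 : N ≠ 0 := mul_ne_zero (prod_ne_zero_iff.2 fun l _ => d1 l)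
    (prod_ne_zero_iff.2 fun l _ => d3 l)
  have hc : ∀ k ν, coeff (Finsupp.cons k ν) W = N⁻¹ * (V.coeff k * coeff ν U) := fun k ν => by
    rw [← coeff_sp, hW2, coeff_smul, smul_eq_mul, inv_mul_cancel_left₀ N0]
  have WZ : W ∈ ZP _ := eW ▸ ZP.det fun l l' => hs_mem _ (hs_mem _ hZ)
  have Wd : ∀ i, degreeOf i W ≤ r * degreeOf i Δ := fun i =>
    eW ▸ degreeOf_det fun l l' => (hs_deg _ _ i).trans (hs_deg _ _ i)
  have Wn : nr 1 W ≤ 2 ^ (r * t * (2 * m + 4)) := by
    have e1 : ∀ l l', nr 1 (hs (μ1 l) (hs (μ2 l') Δ)) ≤ 2 ^ (t * (2 * m + 3)) := fun l l' => by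
      refine (hs_nr _ _ fun i => (hs_deg _ _ i).trans (hdeg i)).trans ?_
      refine (mul_le_mul_of_nonneg_left ((hs_nr _ _ hdeg).trans (mul_le_mul_of_nonneg_left
        (hn.trans (pow_le_pow_right₀ one_le_two (hmax h hh))) (by positivity)))
        (by positivity)).trans (le_of_eq ?_)
      rw [Fintype.card_fin]; ring
    have e2 : (r.factorial : ℝ) ≤ (2 ^ t) ^ r := by
      have : r ≤ 2 ^ t := hr.trans ((Nat.succ_le_succ (hdeg 0)).trans Nat.lt_two_pow_self)
      exact_mod_cast (Nat.factorial_le_pow r).trans (Nat.pow_le_pow_left this r)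
    rw [eW]
    refine (nr_det (fun _ => zero_le_one) _ e1).trans ((mul_le_mul_of_nonneg_right e2
      (by positivity)).trans (le_of_eq (by ring)))
  obtain ⟨k0, hk0⟩ : ∃ k, V.coeff k ≠ 0 := ⟨_, Polynomial.leadingCoeff_ne_zero.2 V0⟩
  obtain ⟨ν0, hν0⟩ : ∃ ν, coeff ν U ≠ 0 := ne_zero_iff.1 (eU ▸ b2)
  have hU : (finSuccEquiv ℚ m W).coeff k0 = (N⁻¹ * V.coeff k0) • U := by
    ext ν; rw [finSuccEquiv_coeff_coeff, hc, coeff_smul, smul_eq_mul, mul_assoc]
  have q0 : N⁻¹ * V.coeff k0 ≠ 0 := mul_ne_zero (inv_ne_zero N0) hk0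
  have up1 := ih (fun i => w i.succ) (fun i => ξ i.succ) (r * E) (r * t * (2 * m + 4))
    ((finSuccEquiv ℚ m W).coeff k0) (by rw [hU]; exact smul_ne_zero q0 (eU ▸ b2))
    (mem_ZP.2 fun d => by rw [finSuccEquiv_coeff_coeff]; exact mem_ZP.1 WZ _)
    (fun i j hij => (Nat.mul_le_mul_right _ p1).trans (hw _ _ (Fin.succ_lt_succ_iff.2 hij)))
    (fun i => hd _) (fun i => p1.trans (hΛ _))
    (fun i => (Nat.mul_le_mul_right _ ((degreeOf_coeff_finSuccEquiv W i k0).trans (Wd _))).trans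
      (by rw [mul_assoc]; exact Nat.mul_le_mul_left _ (hE _)))
    ((nr_fse W k0).trans Wn)
    (by
      have : Λ' * (2 * m + 4) * t ≤ E := le_trans (Nat.mul_le_mul_right _ (by nlinarith)) ht
      nlinarith)
  obtain ⟨ν, k, g1, g2⟩ := gauss (V := (N⁻¹ * coeff ν0 U) • V)
    (smul_ne_zero (mul_ne_zero (inv_ne_zero N0) hν0) V0) (fun k => by
      obtain ⟨z, hz⟩ := mem_ZP.1 WZ (ν0.cons k)
      exact ⟨z, by rw [← hz, hc, Polynomial.coeff_smul, smul_eq_mul]; ring⟩) (ξ 0)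
  have up2 : ν * w 0 ≤ 2 * (r * t * (2 * m + 4)) := by
    have e1 := coeff_le_nr (ρ := 1) (fun _ => zero_le_one) W (ν0.cons k)
    have e2 : ((N⁻¹ * coeff ν0 U) • V).coeff k = coeff (ν0.cons k) W := by
      rw [hc, Polynomial.coeff_smul, smul_eq_mul]; ring
    simp only [Pi.one_apply, one_pow, prod_const_one, mul_one] at e1
    have e3 : (ξ 0).den ^ ν ≤ 2 ^ (r * t * (2 * m + 4)) := by
      exact_mod_cast (e2 ▸ g2).trans (e1.trans Wn)
    refine (Nat.pow_le_pow_iff_right one_lt_two).1 ?_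
    rw [mul_comm ν, pow_mul, mul_comm 2, pow_mul]
    refine (Nat.pow_le_pow_left (hd 0) ν).trans ?_
    rw [← pow_mul, mul_comm 2, pow_mul]
    exact Nat.pow_le_pow_left e3 2
  simp only [Vn, not_forall] at up1
  obtain ⟨d, f1, f2⟩ := up1
  have f3 := roth_num r0 hL r1 (n := E / L + 1) (t := t)
    (le_trans (Nat.mul_le_mul_right _ (by nlinarith)) ht)
    (by rw [mul_add, mul_one, mul_comm]; exact Nat.lt_div_mul_add hL)
  have f4 := Nat.mul_div_le (r * E) (16 * L ^ 2)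
  have f5 : 32 * L ^ 2 * (2 * m + 4) * t ≤ E := le_trans (Nat.mul_le_mul_right _ (by nlinarith)) ht
  have f6 := low (d.cons ν) (by
    rw [weight_cons]
    refine lt_of_mul_lt_mul_left (a := 16 * L ^ 2) ?_ (Nat.zero_le _)
    have f7 := Nat.mul_le_mul_left (16 * L ^ 2) (Nat.lt_succ_iff.1 f1)
    have f8 := Nat.mul_le_mul_left (16 * L ^ 2) up2
    have f9 := Nat.mul_le_mul_left r f5
    nlinarith)
  rw [coeff_coe, sh_sp, coeff_sp, mul_eq_zero] at f6
  rw [coeff_coe, hU, map_smul, coeff_smul] at f2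
  rw [map_smul, Polynomial.coeff_smul] at g1
  exact f6.elim (right_ne_zero_of_smul g1) (right_ne_zero_of_smul f2)

end

end Pool.Agent.Lib.MP_5591bc_ag.R
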