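import Pool.Agent.Lib.MP_5591bc_ag.RPade

/-! Tensor products of frames at a regular singular point. -/

namespace Pool.Agent.Lib.MP_5591bc_ag.R

open Matrix Finset PowerSeries G Function

noncomputable section

variable {σ A : Type*} [Fintype σ] [DecidableEq σ] [Fintype A] [DecidableEq A]

omit [Fintype A] [DecidableEq A] in
theorem tM_upd (M : σ → Matrix A A ℚ⟦X⟧) (i : σ) (N : Matrix A A ℚ⟦X⟧) (μ ν : σ → A) :
    tM (update M i N) μ ν = emb i (N (μ i) (ν i)) * ∏ j ∈ univ.erase i, emb j (M j (μ j) (ν j)) := by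
  rw [tM, piM, of_apply, ← mul_prod_erase _ _ (mem_univ i), update_self]
  exact congrArg₂ _ rfl (prod_congr rfl fun j hj => by simp [ne_of_mem_erase hj])

theorem tM_upd_mul (M : σ → Matrix A A ℚ⟦X⟧) (i : σ) (N : Matrix A A ℚ⟦X⟧) :
    tM (update (fun _ => 1) i N) * tM M = tM (update M i (N * M i)) ∧
      tM M * tM (update (fun _ => 1) i N) = tM (update M i (M i * N)) := by
  constructor <;> rw [tM_mul] <;> congr 1 <;> ext1 j <;> by_cases e : j = i
  all_goals first | (subst e; simp) | simp [e]

theorem nil_upd {R : Type*} [CommRing R] {N : Matrix A A R} (h : IsNilpotent N) (i : σ) :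
    IsNilpotent (piM (update (fun _ => 1) i N)) := by
  obtain ⟨k, hk⟩ := h
  have : ∀ k : ℕ, piM (update (fun _ : σ => 1) i N) ^ k = piM (update (fun _ => 1) i (N ^ k)) :=
    fun k => by
      induction k with
      | zero => rw [pow_zero, pow_zero, update_eq_self, piM_one]
      | succ k ih =>
        rw [pow_succ, ih, piM_mul]
        congr 1
        ext1 j
        by_cases e : j = i
        · subst e; simp [pow_succ]
        · simp [e]
  refine ⟨k, ?_⟩
  rw [this, hk]
  ext μ ν
  exact prod_eq_zero (mem_univ i) (by simp)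

theorem fz_tM {T : Polynomial ℚ} {B : Matrix A A (Polynomial ℚ)} {G : Matrix A A ℚ⟦X⟧}
    {M : Matrix A A ℚ} {a b : ℚ⟦X⟧} (h0 : G.map constantCoeff = 1) (hM : IsNilpotent M)
    (b0 : b ≠ 0) (hab : a * τ1 0 T = b * X)
    (h : a • (τ1 0 T • G.map (d⁄dX ℚ) - B.map (τ1 0) * G) = -(b • (G * M.map C))) :
    Fz (fun i : σ => toMv i T) (fun i => piM (update (fun _ => 1) i (B.map (toMv i)))) (τs 0)
      (tM fun _ => G) (tM fun _ => G⁻¹) fun i => piM (update (fun _ => 1) i M) := by
  refine ⟨fun i p => ?_, fun p q e => ?_, ?_, fun i => nil_upd hM i,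
    fun i => ⟨emb i a, emb i b, fun e => b0 ?_, fun x => ?_⟩⟩
  · exact (congrArg _ (pderiv_sh 0 i p).symm).trans (MvPowerSeries.pderiv_coe _).symm
  · rw [← sh_sh 0 p, ← sh_sh 0 q]
    exact congrArg _ (MvPolynomial.coe_injective σ ℚ e)
  · rw [tM_mul, ← tM_one]
    congr 1
    ext1 i
    refine mul_nonsing_inv _ (isUnit_iff_constantCoeff.2 ?_)
    rw [RingHom.map_det, RingHom.mapMatrix_apply, h0, det_one]
    exact isUnit_one
  · ext k
    rw [← coeff_emb i, e, map_zero, map_zero]
  · have e1 : (tM fun _ : σ => G).map (MvPowerSeries.pderiv ℚ i) =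
        tM (update (fun _ => G) i (G.map (d⁄dX ℚ))) := by
      ext1 μ ν
      refine (pderiv_prod_emb (fun i => G (μ i) (ν i)) i).trans (prod_congr rfl fun j _ => ?_)
      by_cases e : j = i
      · subst e; simp
      · simp [e]
    have e2 : (piM (update (fun _ => 1) i (B.map (toMv i)))).map (τs (0 : σ → ℚ)) =
        tM (update (fun _ => 1) i (B.map (τ1 0))) := by
      ext1 μ ν
      simp only [piM, tM, map_apply, of_apply, map_prod]
      refine prod_congr rfl fun j _ => ?_
      by_cases e : j = i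
      · subst e; simp [τs_toMv]
      · simp [e, one_apply, apply_ite]
    have e3 : (piM (update (fun _ => 1) i M)).map MvPowerSeries.C =
        tM (update (fun _ => 1) i (M.map C)) := by
      ext1 μ ν
      simp only [piM, tM, map_apply, of_apply, map_prod]
      refine prod_congr rfl fun j _ => ?_
      by_cases e : j = i
      · subst e; simp only [update_self, map_apply]; exact (MvPowerSeries.rename_C _ _).symm
      · simp [e, one_apply, apply_ite]
    have e4 : pd i ((tM fun _ => G) *ᵥ x) = (tM fun _ => G) *ᵥ pd i x +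
        (tM fun _ => G).map (MvPowerSeries.pderiv ℚ i) *ᵥ x := funext fun j => pd_dot i _ x
    have e5 : emb i a * emb i (τ1 0 T) = emb i b * MvPowerSeries.X i := by
      rw [← map_mul, hab, map_mul]
      exact congrArg _ (MvPowerSeries.rename_X _ _)
    have e6 : emb i a • (emb i (τ1 0 T) • tM (update (fun _ => G) i (G.map (d⁄dX ℚ))) -
        tM (update (fun _ => G) i (B.map (τ1 0) * G))) =
        -(emb i b • tM (update (fun _ => G) i (G * M.map C))) := by
      ext1 μ ν
      have := congrArg (emb i) (congrFun₂ h (μ i) (ν i))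
      simp only [Matrix.smul_apply, Matrix.sub_apply, Matrix.neg_apply, smul_eq_mul, map_mul,
        map_sub, map_neg, tM_upd] at this ⊢
      linear_combination (∏ j ∈ univ.erase i, emb j (G (μ j) (ν j))) * this
    have e7 := congrArg (· *ᵥ x) e6
    simp only [smul_mulVec, sub_mulVec, neg_mulVec] at e7
    rw [e4, e1, e2, τs_toMv, th, e3, zero_smul, sub_zero, mulVec_sub, mulVec_mulVec, mulVec_mulVec,
      (tM_upd_mul _ i _).1, (tM_upd_mul _ i _).2, mulVec_smul, smul_add, add_sub_assoc, smul_add,
      Pi.zero_apply, e7, smul_smul, e5, smul_sub, smul_smul, sub_eq_add_neg]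

end

end Pool.Agent.Lib.MP_5591bc_ag.R
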