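import Pool.Agent.Lib.MP_5591bc_ag.RSing

/-! The value theorem at several points of rapidly growing heights with a common denominator. -/

namespace Pool.Agent.Lib.MP_5591bc_ag.R

open Matrix Finset Filter Topology PowerSeries G Function

noncomputable section

variable {A : Type*} [Fintype A] [DecidableEq A]

theorem two_le (x : ℚ) : 2 ≤ 2 * x.den := Nat.le_mul_of_pos_right 2 x.den_pos

/-- a differential system with its formal fundamental matrices `G x` at the points of `Ω`, a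
solution `f` at the origin and its values `φ x` -/
structure One (T : Polynomial ℚ) (B : Matrix A A (Polynomial ℚ)) (Ω : Set ℚ)
    (G : ℚ → Matrix A A ℚ⟦X⟧) (f : A → ℚ⟦X⟧) (φ : ℚ → A → ℂ) : Prop where
  z0 : ∃ (G0 : Matrix A A ℚ⟦X⟧) (M : Matrix A A ℚ) (e : A → ℚ) (a b : ℚ⟦X⟧),
    G0.map constantCoeff = 1 ∧ IsNilpotent M ∧ b ≠ 0 ∧ a * τ1 0 T = b * X ∧
    a • (τ1 0 T • G0.map (d⁄dX ℚ) - B.map (τ1 0) * G0) = -(b • (G0 * M.map C)) ∧ M *ᵥ e = 0 ∧
    f = G0 *ᵥ fun j => C (e j)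
  one : ∀ x ∈ Ω, (G x).map constantCoeff = 1
  ode : ∀ x ∈ Ω, τ1 x T • (G x).map (d⁄dX ℚ) = B.map (τ1 x) * G x
  gf : ∀ i j, (fun x : Ω => G x i j) ∈ UF (fun x : Ω => 2 * x.1.den) fun x => two_le x
  gf0 : ∃ a, GF a f
  lim : ∀ x ∈ Ω, ∀ α k, Tendsto (fun K => ((coeff k (τ1 x (trunc K (f α))) : ℚ) : ℂ)) atTop
    (𝓝 (∑ β, (coeff k (G x α β) : ℚ) * φ x β))

theorem exists_den {σ α : Type*} [Fintype σ] [Fintype α] (p : α → MvPolynomial σ ℚ) :
    ∃ d : ℚ, d ≠ 0 ∧ ∃ b, ∀ x, Bd (fun _ => b) b (d • p x) := by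
  classical
  have h1 : ∀ q : MvPolynomial σ ℚ, ∃ d : ℤ, d ≠ 0 ∧ (d : ℚ) • q ∈ ZP σ := fun q => by
    refine ⟨∏ ν ∈ q.support, (q.coeff ν).den, by positivity, mem_ZP.2 fun ν => ?_⟩
    by_cases h : ν ∈ q.support
    · refine ⟨(∏ ν ∈ q.support.erase ν, (q.coeff ν).den) * (q.coeff ν).num, ?_⟩
      rw [MvPolynomial.coeff_smul, ← prod_erase_mul _ _ h, smul_eq_mul, Int.cast_mul, mul_assoc]
      simp
    · exact ⟨0, by simp [MvPolynomial.notMem_support_iff.1 h]⟩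
  choose d d0 d1 using fun x => h1 (p x)
  have h2 : ∀ q : MvPolynomial σ ℚ, q ∈ ZP σ → ∃ b, Bd (fun _ => b) b q := fun q hq =>
    ⟨q.totalDegree + ⌈nr 1 q⌉₊, hq, fun i =>
      (MvPolynomial.degreeOf_le_totalDegree _ _).trans (Nat.le_add_right _ _),
      (Nat.le_ceil _).trans (by
        exact_mod_cast (Nat.le_add_left _ _).trans Nat.lt_two_pow_self.le)⟩
  choose b hb using fun x => h2 (((∏ y, d y : ℤ) : ℚ) • p x) (by
    rw [← prod_erase_mul _ _ (mem_univ x), Int.cast_mul, mul_smul, Int.cast_smul_eq_zsmul]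
    exact zsmul_mem (d1 x) _)
  exact ⟨_, by exact_mod_cast prod_ne_zero_iff.2 fun y _ => d0 y, univ.sup b, fun x =>
    (hb x).mono (fun _ => le_sup (f := b) (mem_univ x)) (le_sup (f := b) (mem_univ x))⟩

theorem Fr.smul {σ J : Type*} [Fintype J] [DecidableEq J] {T : σ → MvPolynomial σ ℚ}
    {B : σ → Matrix J J (MvPolynomial σ ℚ)} {τ : MvPolynomial σ ℚ →+* MvPowerSeries σ ℚ}
    {Y X : Matrix J J (MvPowerSeries σ ℚ)} (h : Fr T B τ Y X) (d : ℚ) :
    Fr (fun i => d • T i) (fun i => d • B i) τ Y X := by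
  refine ⟨h.der, h.inj, h.inv, fun i => ?_⟩
  have : (d • B i).map τ = τ (MvPolynomial.C d) • (B i).map τ := by
    ext1 a b; simp [MvPolynomial.smul_eq_C_mul]
  rw [this, MvPolynomial.smul_eq_C_mul, map_mul, mul_smul, h.ode, smul_mul_assoc]

theorem Fz.smul {σ J : Type*} [Fintype J] [DecidableEq J] {T : σ → MvPolynomial σ ℚ}
    {B : σ → Matrix J J (MvPolynomial σ ℚ)} {τ : MvPolynomial σ ℚ →+* MvPowerSeries σ ℚ}
    {Y X : Matrix J J (MvPowerSeries σ ℚ)} {M : σ → Matrix J J ℚ} (h : Fz T B τ Y X M) {d : ℚ}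
    (d0 : d ≠ 0) : Fz (fun i => d • T i) (fun i => d • B i) τ Y X M := by
  refine ⟨h.der, h.inj, h.inv, h.nil, fun i => ?_⟩
  obtain ⟨a, b, b0, hb⟩ := h.tr i
  refine ⟨a, τ (MvPolynomial.C d) * b, mul_ne_zero ((map_ne_zero_iff τ h.inj).2 (by simpa)) b0,
    fun x => ?_⟩
  have : (d • B i).map τ = τ (MvPolynomial.C d) • (B i).map τ := by
    ext1 a b; simp [MvPolynomial.smul_eq_C_mul]
  rw [this, MvPolynomial.smul_eq_C_mul, map_mul, mul_smul, smul_mulVec, ← smul_sub, smul_comm, hb,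
    mul_smul]

theorem final_ineq {s c M N z Z d q ρ : ℝ} {e u t h j g : ℕ} (hs : s ^ (4 * j + 2) ≤ 3 / 2)
    (s0 : 0 ≤ s) (hg : g = 3 * (4 * e + 2) * u) (hZ : Z ≤ (2 * s ^ 2) ^ (j * g)) (Z0 : 0 ≤ Z)
    (hd : d ≤ 2 ^ (e * (2 * u)) * M) (q0 : 0 ≤ q) (z0 : 0 ≤ z)
    (hρ : 1 ≤ 2 ^ (e * (2 * u)) * ρ) (c0 : 0 ≤ c) (M0 : 0 ≤ M) (N0 : 0 ≤ N)
    (hq : q * ρ ≤ c * (N * (M * ((s ^ 2 / 2) ^ ((j + 1) * g) * 2 ^ h)))) (hh : h ≤ u) (ht : t ≤ u)
    (hc : z * c * N * M ^ 2 < 2 ^ t) : z * d * Z * q < 1 := by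
  have a1 : q ≤ 2 ^ (e * (2 * u)) * (c * (N * (M * ((s ^ 2 / 2) ^ ((j + 1) * g) * 2 ^ h)))) := by
    refine (le_mul_of_one_le_left q0 hρ).trans ?_
    rw [mul_assoc, mul_comm ρ]
    gcongr
  have a2 : (2 * s ^ 2) ^ (j * g) * (s ^ 2 / 2) ^ ((j + 1) * g) ≤ (1 / 2) ^ ((4 * e + 2) * u) := by
    rw [pow_mul, pow_mul (s ^ 2 / 2), ← mul_pow, show (2 * s ^ 2) ^ j * (s ^ 2 / 2) ^ (j + 1) =
      s ^ (4 * j + 2) / 2 by rw [mul_pow, div_pow]; field_simp; ring, hg, mul_assoc, pow_mul]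
    gcongr
    exact (pow_le_pow_left₀ (by positivity) (show _ ≤ (3 / 4 : ℝ) by linarith) 3).trans (by norm_num)
  have a3 : (2 : ℝ) ^ t * (2 ^ (e * (2 * u)) * 2 ^ (e * (2 * u)) * 2 ^ h *
      (1 / 2) ^ ((4 * e + 2) * u)) ≤ 1 := by
    rw [one_div, inv_pow, ← mul_assoc, ← div_eq_mul_inv, div_le_one (by positivity), ← pow_add,
      ← pow_add, ← pow_add]
    exact pow_le_pow_right₀ one_le_two (by nlinarith)
  calc z * d * Z * q ≤ z * (2 ^ (e * (2 * u)) * M) * (2 * s ^ 2) ^ (j * g) * (2 ^ (e * (2 * u)) *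
        (c * (N * (M * ((s ^ 2 / 2) ^ ((j + 1) * g) * 2 ^ h))))) := by gcongr
    _ = z * c * N * M ^ 2 * (2 ^ (e * (2 * u)) * 2 ^ (e * (2 * u)) * 2 ^ h *
        ((2 * s ^ 2) ^ (j * g) * (s ^ 2 / 2) ^ ((j + 1) * g))) := by ring
    _ ≤ z * c * N * M ^ 2 * (2 ^ (e * (2 * u)) * 2 ^ (e * (2 * u)) * 2 ^ h *
        (1 / 2) ^ ((4 * e + 2) * u)) := by gcongr
    _ < _ := lt_of_lt_of_le (mul_lt_mul_of_pos_right hc (by positivity)) a3

variable {T : Polynomial ℚ} {B : Matrix A A (Polynomial ℚ)} {Ω : Set ℚ}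
  {G : ℚ → Matrix A A ℚ⟦X⟧} {f : A → ℚ⟦X⟧} {φ : ℚ → A → ℂ}

theorem One.value (H : One T B Ω G f φ) {m L : ℕ}
    (hL : 2 * Fintype.card (Fin m → A) * (2 * m + 2) ^ m < L) {s : ℝ} (s1 : 1 < s)
    (hs : s ^ (8 * L + 2) ≤ 3 / 2) : ∃ Λ, ∀ (ξ : Fin m → ℚ) (w : Fin m → ℕ), (∀ i, ξ i ∈ Ω) →
      (∀ i, Λ ≤ w i) → (∀ i j, i < j → Λ * w j ≤ w i) → (∀ i, (ξ i).den ≤ 2 ^ w i) →
      (∀ i, 2 ^ w i ≤ (ξ i).den ^ 2) → (∀ i, |(ξ i : ℝ)| ≤ 2 * (s / 2) ^ w i) →
      (∀ D, ∃ Z : ℕ, 0 < Z ∧ (Z : ℝ) ≤ (2 * s ^ 2) ^ D ∧ ∀ j : Fin m →₀ ℕ,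
        Finsupp.weight w j ≤ D → ∃ y : ℤ, (Z : ℚ) * ∏ i, ξ i ^ j i = y) →
      ∀ c : (Fin m → A) → ℚ, (fun β => (c β : ℂ)) ⬝ᵥ (tens fun i => φ (ξ i)) = 0 →
      ∀ U : Fin m → A → Polynomial ℚ, (∀ i, U i ∈ Sat f) →
        c ⬝ᵥ (tens fun i α => (U i α).eval (ξ i)) = 0 := by
  set N := Fintype.card (Fin m → A) with hN
  have L0 : 0 < L := by omega
  obtain ⟨a, hf⟩ := H.gf0
  replace hf := hf.mono Nat.lt_two_pow_self.le
  obtain ⟨e0, he0⟩ := UF.pi (α := A × A) fun p => UF.adj H.gf p.1 p.2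
  obtain ⟨d0, d1, b, hb⟩ := exists_den (σ := Fin m)
    (α := Fin m ⊕ (Fin m × (Fin m → A) × (Fin m → A))) (Sum.elim (fun i => toMv i T)
      fun x => piM (update (fun _ => 1) x.1 (B.map (toMv x.1))) x.2.1 x.2.2)
  obtain ⟨E, hE⟩ : ∃ E, E = 2 * e0 + 1 := ⟨_, rfl⟩
  obtain ⟨γ, hγ⟩ : ∃ γ, γ = 3 * (4 * E + 2) := ⟨_, rfl⟩
  have γ0 : 0 < γ := by omega
  obtain ⟨ΛR, -, hR⟩ := roth m (3 * (N + 1) * (L * γ)) (by positivity)
  obtain ⟨c1, hc1⟩ : ∃ c1, c1 = 8 * (a + 1) * m := ⟨_, rfl⟩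
  obtain ⟨c3, hc3⟩ : ∃ c3, c3 = N * (N + (c1 + N * (2 * m + N + b + 1))) := ⟨_, rfl⟩
  obtain ⟨Λ2, hΛ2⟩ : ∃ Λ2, Λ2 = ΛR * c3 + c1 + 1 := ⟨_, rfl⟩
  obtain ⟨Λs, hΛs⟩ := pow_unbounded_of_one_lt (6 * 2 ^ a) s1
  refine ⟨ΛR + 2 * (L * (γ * Λ2)) + Λs, fun ξ w hΩ hΛ hw hd1 hd2 hξ hZ c hc U hU => ?_⟩
  have p0 : 0 < L * (γ * Λ2) := by rw [hΛ2]; positivity
  have w0 : ∀ i, 0 < w i := fun i => by have := hΛ i; omega
  obtain ⟨W, hW⟩ : ∃ W, ∀ i, w i ≤ W := ⟨univ.sup w, fun i => le_sup (mem_univ i)⟩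
  obtain ⟨dc, dc0, hdc⟩ : ∃ d : ℕ, 0 < d ∧ ∀ β, ∃ z : ℤ, (d : ℚ) * c β = z :=
    ⟨∏ β, (c β).den, by positivity, fun β => ⟨(∏ γ ∈ univ.erase β, (c γ).den : ℕ) * (c β).num, by
      rw [← prod_erase_mul _ _ (mem_univ β), Nat.cast_mul, mul_assoc]; simp⟩⟩
  obtain ⟨M, hM⟩ : ∃ M : ℝ, M = ∏ i, 2 ^ (E * w i) := ⟨_, rfl⟩
  obtain ⟨t0, ht0⟩ := pow_unbounded_of_one_lt (dc * (∑ β, |(c β : ℝ)|) * N * M ^ 2) one_lt_two
  obtain ⟨t, ht⟩ : ∃ t, t = t0 + N * W + N * b * W + N * b + 1 := ⟨_, rfl⟩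
  obtain ⟨u, hu⟩ : ∃ u, u = Λ2 * t := ⟨_, rfl⟩
  have tu : t ≤ u := hu ▸ Nat.le_mul_of_pos_left _ (by omega)
  have hD : ∀ i, 2 * (L * (γ * u)) ≤ t * w i := fun i => by
    have : 2 * (L * (γ * Λ2)) ≤ w i := by have := hΛ i; omega
    rw [hu]; nlinarith
  obtain ⟨k, hk, Q, μ, P, a1, a2, a3, a4, a5, a6⟩ := padeP hf w0 (g := γ * u) (t := t)
    (by rwa [Fintype.card_fin]) (Nat.mul_pos γ0 (by omega)) (by omega) hD
  rw [Fintype.card_fin, ← hc1] at a4 a6
  obtain ⟨G0, M0, e, za, zb, z1, z2, z3, z4, z5, z6, z7⟩ := H.z0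
  have F0 := (fz_tM (σ := Fin m) z1 z2 z3 z4 z5).smul d1
  have F1 := (fr_tM (fun i => H.one _ (hΩ i)) fun i => H.ode _ (hΩ i)).smul d0
  have eF : (tM fun _ : Fin m => G0) *ᵥ (fun j => MvPowerSeries.C (tens (fun _ => e) j)) =
      fun β => ∏ i, emb i (f (β i)) := by
    have : (fun j => MvPowerSeries.C (tens (fun _ : Fin m => e) j)) =
        tens fun i α => emb i (C (e α)) := funext fun j => by
      simp only [tens, map_prod]
      exact prod_congr rfl fun i _ => (MvPowerSeries.rename_C _ _).symm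
    rw [this, tM, piM_mulVec, z7]
    exact funext fun β => prod_congr rfl fun i _ => by simp [mulVec, dotProduct]
  have hG : ∀ i, GF (2 ^ (E * w i)) fun p : A × A => (G (ξ i)).adjugate p.1 p.2 := fun i =>
    (he0 ⟨_, hΩ i⟩).mono ((Nat.pow_le_pow_left (Nat.mul_le_mul_left 2 (hd1 i)) _).trans (by
      rw [← pow_succ', ← pow_mul]
      exact Nat.pow_le_pow_right two_pos (by nlinarith [w0 i])))
  have s2 : s ^ 2 ≤ 3 / 2 := (pow_le_pow_right₀ s1.le (by omega)).trans hs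
  have key := zero_est F0 F1
    (n := 2 * u) (k := u) (D := (L + k + 1) * (γ * u)) hW (c := c) (e := tens fun _ => e)
    (fun i => by
      rw [piM_mulVec]
      exact funext fun β => prod_eq_zero (mem_univ i) (by simp [z6])) (ρ := P)
    (Q := Q) (μ := μ) a1 (a2.trans_lt (by nlinarith [Nat.mul_pos γ0 (show 0 < u by omega)]))
    (fun β => by rw [eF, τs_zero]; exact a3 β) ?_ (by rw [← hN]; omega) ?_
    (u := tens fun i α => toMv i (U i α)) fun l hl => sat_tens hU l (by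
      simpa only [eF, τs_zero] using hl)
  · have b1 : ∀ β γ, MvPowerSeries.constantCoeff ((tM fun i => (G (ξ i))⁻¹) β γ) =
        (1 : Matrix _ _ ℚ) β γ := fun β γ => by
      have b2 := congrArg (·.map MvPowerSeries.constantCoeff) F1.inv
      have b3 : (tM fun i => G (ξ i)).map MvPowerSeries.constantCoeff = 1 := by
        ext β γ
        rw [map_apply, ← MvPowerSeries.coeff_zero_eq_constantCoeff_apply, coeff_tM, ← piM_one]
        exact prod_congr rfl fun i _ => by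
          simpa using congrFun₂ (H.one _ (hΩ i)) (β i) (γ i)
      simp only [Matrix.map_mul, b3, Matrix.one_mul, Matrix.map_one _ (map_zero _) (map_one _)] at b2
      exact congrFun₂ b2 β γ
    have b4 : ∀ β, MvPowerSeries.constantCoeff (τs ξ (tens (fun i α => toMv i (U i α)) β)) =
        tens (fun i α => (U i α).eval (ξ i)) β := fun β => by
      simp only [tens, map_prod, τs_toMv]
      exact prod_congr rfl fun i _ => (MvPowerSeries.constantCoeff_rename _ _).trans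
        ((coeff_zero_eq_constantCoeff_apply _).symm.trans
          ((coeff_τ1 _ _ _).trans (Polynomial.taylor_coeff_zero _ _)))
    simpa [dotProduct, mulVec, b1, b4, one_apply] using key
  · have e1 : (tM fun i => (G (ξ i))⁻¹) = (∏ i, emb i (Ring.inverse (G (ξ i)).det)) •
        tM fun i => (G (ξ i)).adjugate := tM_smul _ _
    rw [e1, smul_mulVec, dotProduct_smul]
    refine Vn.left (fun ν hν => ?_) _
    obtain ⟨Z, Z0, Z1, Z2⟩ := hZ ((L + k) * (γ * u))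
    choose dA dA0 dA1 dA2 using fun i => (hG i (ν i)).2
    obtain ⟨z, hz⟩ := coeff_int (A := tM fun i => (G (ξ i)).adjugate) (μ := ν)
      (b := (∏ i, dA i : ℕ)) hdc (fun β γ ν' h => by
        choose y hy using fun i => dA2 i (β i, γ i) _ (h i)
        exact ⟨∏ i, y i, by simp [coeff_tM, ← hy, prod_mul_distrib]⟩)
      fun β => sh_int' (a4 β).1 (a5 β) Z2
    have ρ0 : ∀ i, (0 : ℝ) ≤ (2 ^ (E * w i))⁻¹ := fun i => by positivity
    have b1 := est (ξ := ξ) (P := P) (A := tM fun i => (G (ξ i)).adjugate)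
      (Y := tM fun i => G (ξ i)) (δ := ∏ i, emb i (G (ξ i)).det)
      (by simp only [tM_mul, adjugate_mul, tM_smul, tM_one]) hc (Q := Q)
      (F := fun K β => ∏ i, toMv i (trunc K (f (β i)))) (fun ν β => by
        simp only [map_prod, τs_toMv, coeff_prod_emb, coeff_tM, Rat.cast_prod, tens,
          ← prod_mul_distrib]
        rw [← Fintype.piFinset_univ, ← prod_univ_sum _
          fun i γ => ((coeff (ν i) (G (ξ i) (β i) γ) : ℚ) : ℂ) * φ (ξ i) γ]
        exact tendsto_finset_prod _ fun i _ => H.lim _ (hΩ i) _ _) ρ0 (M := M)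
      (fun β γ ν => by
        rw [coeff_tM, Rat.cast_prod, abs_prod, ← prod_mul_distrib, hM]
        refine prod_le_prod (fun i _ => by positivity) fun i _ => ?_
        rw [inv_pow, ← div_eq_mul_inv, div_le_iff₀ (by positivity), ← pow_succ']
        exact_mod_cast (hG i (ν i)).1 (β i, γ i))
      (eventually_atTop.2 ⟨_, fun K hK β => (nr_sh ρ0 (fun _ => le_rfl) _).trans
        (a6 _ (s ^ 2 / 2) (fun i => by positivity) (by positivity) (by linarith) (fun i => by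
          have c1 : ((2 : ℝ) ^ (E * w i))⁻¹ ≤ (s / 2) ^ w i := by
            rw [pow_mul, ← inv_pow]
            refine pow_le_pow_left₀ (by positivity) ((inv_anti₀ two_pos
              (le_self_pow₀ one_le_two (by omega))).trans (by linarith)) _
          have c2 := hΛs.le.trans (pow_le_pow_right₀ s1.le (show Λs ≤ w i by have := hΛ i; omega))
          rw [show s ^ 2 / 2 = s * (s / 2) by ring, mul_pow, ← div_eq_mul_inv,
            le_div_iff₀ (by positivity)]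
          have c3 : (0 : ℝ) ≤ (s / 2) ^ w i := by positivity
          nlinarith [mul_le_mul_of_nonneg_right (add_le_add c1 (hξ i))
            (by positivity : (0 : ℝ) ≤ 2 * 2 ^ a), mul_le_mul_of_nonneg_right c2 c3]) K hK β)⟩) ν
    have b2 : ∏ i, ((2 : ℝ) ^ (E * w i)) ^ ν i ≤ 2 ^ (E * (2 * u)) := by
      simp only [← pow_mul, prod_pow_eq_pow_sum, mul_assoc, ← mul_sum, mul_comm (w _), ← weight_eq]
      exact pow_le_pow_right₀ one_le_two (Nat.mul_le_mul_left _ hν.le)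
    have b3 := final_ineq (z := dc) (d := (∏ i, dA i : ℕ)) (t := t) (e := E) (u := u)
      ((pow_le_pow_right₀ s1.le (by omega)).trans hs) (by linarith) (hγ ▸ rfl) Z1 Z.cast_nonneg
      (le_trans (by
        rw [hM, ← prod_mul_distrib, Nat.cast_prod]
        exact prod_le_prod (fun _ _ => by positivity) fun i _ => by
          rw [← pow_succ]; exact_mod_cast dA1 i) (mul_le_mul_of_nonneg_right b2 (by
            rw [hM]; positivity))) (abs_nonneg _) dc.cast_nonneg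
      (le_trans (by
        rw [← prod_mul_distrib]
        exact (prod_eq_one fun i _ => by rw [inv_pow]; exact mul_inv_cancel₀ (by positivity)).ge)
        (mul_le_mul_of_nonneg_right b2 (by positivity)))
      (by positivity) (by rw [hM]; positivity) N.cast_nonneg b1
      (hu ▸ Nat.mul_le_mul_right _ (by omega)) tu
      (ht0.trans_le (pow_le_pow_right₀ one_le_two (by omega)))
    have b4 : |z| < 1 := by
      have := congrArg (fun x : ℚ => |(x : ℝ)|) hz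
      simp only [Rat.cast_mul, abs_mul, Rat.cast_natCast, Nat.abs_cast, Rat.cast_intCast] at this
      exact_mod_cast this.symm.trans_lt b3
    rw [Int.abs_lt_one_iff.1 b4, Int.cast_zero, mul_eq_zero] at hz
    exact hz.resolve_left (by have := prod_pos fun i (_ : i ∈ univ) => dA0 i; positivity)
  · intro r hr v I hv h0
    have b1 : ∀ l j, Bd (fun i => 2 * (L * (γ * u)) / w i + N * b)
        ((c1 + N * (2 * m + N + b + 1)) * t) (v l j) := fun l j => by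
      obtain ⟨Ls, c1, c2⟩ := hv l
      rw [c2]
      refine (Bd.dL (t := 2 * t) (fun i => hb (.inl i)) (fun i j k => hb (.inr (i, j, k))) a4
        (fun i => by
          have : 2 * (L * (γ * u)) / w i ≤ t := Nat.div_le_of_le_mul (mul_comm t _ ▸ hD i)
          show 2 * (L * (γ * u)) / w i + N * b ≤ 2 * t
          omega) Ls c1 j).mono (fun i => by gcongr) ?_
      rw [Fintype.card_fin, ← hN, add_mul, mul_assoc N]
      gcongr
      nlinarith [Nat.le_mul_of_pos_right (N + b + 1) (show 0 < t by omega)]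
    obtain ⟨b2, b3, b4⟩ := Bd.mnr b1 I
    have b5 := hR w ξ (3 * (N + 1) * (L * γ) * u) (c3 * t) _ h0 b2
      (fun i j h => le_trans (Nat.mul_le_mul_right _ (by omega)) (hw i j h)) hd2
      (fun i => le_trans (by omega) (hΛ i)) (fun i => by
        have c1 := Nat.div_mul_le_self (2 * (L * (γ * u))) (w i)
        have c2 : N * b * w i ≤ L * (γ * u) := (Nat.mul_le_mul_left _ (hW i)).trans
          (le_trans (by omega) (tu.trans ((Nat.le_mul_of_pos_left _ γ0).trans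
            (Nat.le_mul_of_pos_left _ L0))))
        refine (Nat.mul_le_mul_right _ ((b3 i).trans (Nat.mul_le_mul_right _ hr))).trans ?_
        rw [mul_assoc N, add_mul]
        nlinarith)
      (b4.trans (pow_le_pow_right₀ one_le_two (by
        rw [hc3, mul_assoc, add_mul N]
        gcongr
        exact hr.trans (Nat.le_mul_of_pos_right _ (by omega)))))
      (by
        refine le_trans ?_ (Nat.le_mul_of_pos_left _ (by positivity))
        rw [hu, hΛ2]; nlinarith)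
    rwa [Nat.mul_div_cancel_left _ (by positivity)] at b5

end

end Pool.Agent.Lib.MP_5591bc_ag.R
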