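import Pool.Agent.Lib.MP_5591bc_ag.SFib

/-! Finiteness of the exceptional `S`-units at a regular singular point. -/

namespace Pool.Agent.Lib.MP_5591bc_ag.R

open Matrix Finset Filter Topology PowerSeries G Function Metric Complex

noncomputable section

variable {ν L : Type*} [Fintype ν] [DecidableEq ν] [Fintype L] [DecidableEq L]

section kap
variable {R S : Type*} [CommRing R] [CommRing S]

variable (L) in
/-- the action of `Z ↦ U Z V` on monomials -/
def kap (U V : Matrix ν ν R) : Matrix (L → Option (ν × ν)) (L → Option (ν × ν)) R :=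
  piM fun _ => ex2 1 U V

/-- the degree of a monomial -/
def dg (μ : L → Option (ν × ν)) : ℕ := #{l | (μ l).isSome}

omit [DecidableEq ν] in
theorem kap_mulVec (U V Z : Matrix ν ν R) :
    kap L U V *ᵥ (tens fun _ => hatg Z) = tens fun _ => hatg (U * Z * V) := by
  simp only [kap, piM_mulVec, ex2_mulVec]
  rfl

omit [DecidableEq ν] in
theorem kap_mul (U V U' V' : Matrix ν ν R) : kap L U V * kap L U' V' = kap L (U * U') (V' * V) := by
  simp only [kap, piM_mul, ex2_mul, mul_one]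

omit [DecidableEq ν] in
theorem kap_smul (σ : R) (U V : Matrix ν ν R) (u : (L → Option (ν × ν)) → R)
    (μ : L → Option (ν × ν)) : (kap L U (σ • V) *ᵥ u) μ = σ ^ dg μ * (kap L U V *ᵥ u) μ := by
  simp only [mulVec, dotProduct, mul_sum, ← mul_assoc, kap, piM, of_apply, dg, ← prod_const,
    prod_filter, ← prod_mul_distrib]
  refine sum_congr rfl fun α _ => congrArg (· * _) (prod_congr rfl fun l _ => ?_)
  cases μ l <;> cases α l <;> simp [ex2, mul_left_comm]

omit [Fintype ν] [DecidableEq ν] [DecidableEq L] in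
theorem tens_map (φ : R →+* S) (Z : Matrix ν ν R) (μ : L → Option (ν × ν)) :
    φ (tens (fun _ => hatg Z) μ) = tens (fun _ => hatg (Z.map φ)) μ := by
  simp only [tens, map_prod]
  exact prod_congr rfl fun l _ => by cases μ l <;> simp [hatg]

end kap

omit [DecidableEq ν] in
theorem hol_dot {U : Set ℂ} {Z : ℂ → Matrix ν ν ℂ} (hZ : Hol U Z) {φ : ℂ → ℂ}
    (hφ : Differentiable ℂ φ) (l : (L → Option (ν × ν)) → Polynomial ℚ) : DifferentiableOn ℂ
      (fun s => (fun a => Polynomial.aeval (φ s) (l a)) ⬝ᵥ tens fun _ => hatg (Z s)) U :=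
  DifferentiableOn.fun_sum fun a _ => ((l a).differentiable_aeval.comp hφ).differentiableOn.fun_mul
    (DifferentiableOn.fun_finsetProd fun j _ => by
      rcases a j with _ | o
      exacts [differentiableOn_const _, hZ _ _])

variable {T : Polynomial ℚ} {B : Matrix ν ν (Polynomial ℚ)} {M : Matrix ν ν ℚ}

variable (T B) in
/-- a loop with monodromy `-1` along which `log z` changes -/
def Mon : Prop := ∀ r > 0, ∃ (Ω : Set ℂ) (s : ℂ) (Q : ℂ → Matrix ν ν ℂ), IsOpen Ω ∧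
  IsPreconnected Ω ∧ s ∈ Ω ∧ s + 2 * Real.pi * I ∈ Ω ∧ ‖exp (-s)‖ < r ∧ Hol Ω Q ∧
  IsUnit (Q s).det ∧ (∀ᶠ s in 𝓝 s, MSol (fun s => (-1 : ℂ) • Az T B (exp (-s))) Q s) ∧
  ∀ s, Q (s + 2 * Real.pi * I) = -Q s

theorem stab (hM : IsNilpotent M) (hm : Mon T B) {Y : ℂ → Matrix ν ν ℂ} {R : ℝ} (R0 : 0 < R)
    (hY : ∀ z ∈ ball (0 : ℂ) R, Polynomial.aeval z T ≠ 0 ∧ IsUnit (Y z).det ∧ Sing T B M Y z)
    {f : (L → Option (ν × ν)) → ℚ⟦X⟧}
    (hψ : ∀ μ : L → _, DifferentiableOn ℂ (fun z => tens (fun _ => hatg (Y z)) μ) (ball 0 R))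
    (hf : ∀ μ, mp (f μ) = tay (fun z => tens (fun _ => hatg (Y z)) μ) 0) (l : ℂ) {x : ℂ}
    {u : _ → ℂ} (hu : u ∈ Fib f x) :
    kap L 1 (Ex M l) *ᵥ u ∈ Fib f x ∧ kap L 1 (-Ex M l) *ᵥ u ∈ Fib f x := by
  obtain ⟨Ω, s, Q, h1, h2, h3, h4, h5, h6, h7, h8, h9⟩ := hm R R0
  have hol : Hol (ball (0 : ℂ) R) Y := fun i j z hz =>
    let ⟨_, h, _⟩ := (hY z hz).2.2; (h i j).differentiableAt.differentiableWithinAt
  have hE : ∀ U, Hol U fun s => Ex M s := fun U i j s _ =>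
    (Ex_hasDeriv hM s i j).differentiableAt.differentiableWithinAt
  have b0 := mem_ball_zero_iff.2 h5
  have b1 : ∀ᶠ s in 𝓝 s, exp (-s) ∈ ball (0 : ℂ) R :=
    (continuous_exp.comp continuous_neg).continuousAt.eventually_mem (isOpen_ball.mem_nhds b0)
  have b2 : (fun t => Q t * ((Q s)⁻¹ * (Y (exp (-s)) * Ex M (-s)))) =ᶠ[𝓝 s]
      fun s => Y (exp (-s)) * Ex M (-s) := by
    refine muniq_loc (fun i j => ?_) (h8.mono fun _ h => h.mul_const _) (b1.mono fun t ht =>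
      Sing.msol (φ := fun s => exp (-s)) hM (hY _ ht).2.2 (hY _ ht).1 ((hasDerivAt_neg t).cexp.congr_deriv
        (mul_comm _ _)) (hasDerivAt_neg t) rfl) (by rw [mul_nonsing_inv_cancel_left _ _ h7])
    have : ∀ q : Polynomial ℚ, AnalyticAt ℂ (fun s => Polynomial.aeval (exp (-s)) q) s := fun q =>
      (analyticAt_aeval q _).comp (f := fun s => exp (-s)) (by fun_prop)
    exact analyticAt_const.fun_mul ((this _).fun_div (this _) (hY _ b0).1)
  have step : ∀ W, (∀ z ∈ ball (0 : ℂ) R, (tens fun _ => hatg (Y z * W)) ∈ Fib f z) →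
      ∀ z ∈ ball (0 : ℂ) R, (tens fun _ => hatg (Y z * (-Ex M (2 * Real.pi * I) * W))) ∈ Fib f z :=
    fun W hW z hz l hl => by
      have c1 := ident h1 h2 (hol_dot (((h6.mul (.const ((Q s)⁻¹ * (Y (exp (-s)) * Ex M (-s))))).mul
        (hE _)).mul (.const W)) (φ := fun s => exp (-s)) (by fun_prop) l) (differentiableOn_const 0)
        h3 (by
          filter_upwards [b1, b2] with t t1 t2
          rw [t2, Matrix.mul_assoc (Y _), ← Ex_add hM, neg_add_cancel, Ex_zero, Matrix.mul_one]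
          exact hW _ t1 l hl)
      refine ident isOpen_ball (convex_ball _ _).isPreconnected (hol_dot (hol.mul (.const _))
        differentiable_id l) (differentiableOn_const 0) b0 (mem_of_superset
          ((isOpenMap_exp.comp (Homeomorph.neg ℂ).isOpenMap).image_mem_nhds (b2.and
            ((continuous_add_right _).continuousAt.eventually_mem (h1.mem_nhds h4)))) ?_) hz
      rintro _ ⟨t, ⟨t1, t2⟩, rfl⟩
      have := c1 t2
      simp only [h9, Matrix.neg_mul, t1, Matrix.mul_assoc (Y _), ← Ex_add hM, neg_add_cancel_left,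
        neg_add (a := t), Complex.exp_add, Complex.exp_neg (2 * _ * I), exp_two_pi_mul_I, inv_one, mul_one] at this
      simpa using this
  have ev : ∀ k : ℕ, ∀ z ∈ ball (0 : ℂ) R,
      (tens fun _ => hatg (Y z * Ex M (k * (4 * Real.pi * I)))) ∈ Fib f z := fun k => by
    induction k with
    | zero => exact fun z hz l hl => by simpa [Ex_zero] using (rel_iff R0 hψ hf l).1 hl z hz
    | succ k ih =>
      have := step _ (step _ ih)
      simp only [Matrix.neg_mul, Matrix.mul_neg, neg_neg, ← Ex_add hM] at this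
      convert this using 9
      push_cast
      ring
  have al : ∀ l : ℂ, ∀ z ∈ ball (0 : ℂ) R, (tens fun _ => hatg (Y z * Ex M l)) ∈ Fib f z :=
    fun l z hz c hc => by
      have e : ∀ l, Polynomial.eval l ((fun a => Polynomial.C (Polynomial.aeval z (c a))) ⬝ᵥ
          tens fun _ => hatg ((Y z).map Polynomial.C * Ex M Polynomial.X)) =
          (fun a => Polynomial.aeval z (c a)) ⬝ᵥ tens fun _ => hatg (Y z * Ex M l) := fun l => by
        rw [← Polynomial.coe_evalRingHom, dotProduct, map_sum]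
        simp only [map_mul, tens_map, Matrix.map_mul, Ex_map hM, Matrix.map_map]
        simp [Function.comp_def, dotProduct]
      rw [← e, Polynomial.eq_zero_of_infinite_isRoot _ (Set.infinite_of_injective_forall_mem
        (f := fun k : ℕ => k * (4 * Real.pi * I)) (fun a b h => by simpa using h)
        fun k => (e _).trans (ev k z hz c hc)), Polynomial.eval_zero]
  constructor <;> refine fib_stable R0 hψ hf (fun z hz => ?_) hu <;> rw [kap_mulVec, Matrix.one_mul]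
  · exact al l z hz
  · simpa [← Ex_add hM] using step _ (al (l - 2 * Real.pi * I)) z hz

theorem core (T0 : T.coeff 0 ≠ 0) (hB : B.map (·.coeff 0) = T.coeff 0 • M) (hM : IsNilpotent M)
    (h : GalK (Polynomial.X * T) B) (hm : Mon T B) {g g' : Matrix ν ν (Polynomial ℚ)} {a : ℕ}
    (hg : g' * g = (Polynomial.X ^ a : Polynomial ℚ) • 1) {S : Finset ℕ} (hS : ∀ p ∈ S, p.Prime)
    (δ : ℕ) {ρ : ℝ} {P : ℂ → Matrix ν ν ℂ} (hP : ∀ t : ℂ, ρ < t.re → 0 < t.re →
      Polynomial.aeval t⁻¹ T ≠ 0 → MSol (fun t => (-t⁻¹) • Az T B t⁻¹)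
        (fun t => exp (log t / 2) • (g.map (Polynomial.aeval t⁻¹) * P t)) t) :
    {t : ℕ | (∃ v : ℕ → ℕ, t = ∏ p ∈ S, p ^ v p) ∧ ¬ AGood P δ t}.Finite := by
  classical
  obtain ⟨R, R0, Y, hY, B', G, f, H, hψ, hf⟩ := exists_sing T0 hB hM h (Fin δ)
  obtain ⟨N, hN⟩ := exists_nat_gt (max ρ (2 / R))
  have u0 : ∀ t : ℂ, N < t.re → ρ < t.re ∧ 0 < t.re ∧ t ≠ 0 ∧ ‖t⁻¹‖ < R / 2 ∧
      t⁻¹ ∈ ball (0 : ℂ) R := fun t ht => by
    have a1 := (max_lt_iff.1 hN).2.trans (ht.trans_le (re_le_norm t))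
    have a2 : 0 < t.re := (Nat.cast_nonneg N).trans_lt ht
    have a3 : ‖t⁻¹‖ < R / 2 := by
      rwa [norm_inv, inv_lt_comm₀ ((by positivity : 0 < 2 / R).trans a1) (by positivity), inv_div]
    exact ⟨(max_lt_iff.1 hN).1.trans ht, a2, fun e => by simp [e] at a2, a3,
      mem_ball_zero_iff.2 (by linarith)⟩
  obtain ⟨C, hC⟩ : ∃ C, ∀ t : ℂ, N < t.re → exp (log t / 2) • (g.map (Polynomial.aeval t⁻¹) * P t) =
      Y t⁻¹ * Ex M (-log t) * C := by
    have a1 : (N : ℝ) < ((N + 1 : ℕ) : ℂ).re := by simp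
    refine ⟨Ex M (log (N + 1 : ℕ)) * ((Y ((N + 1 : ℕ) : ℂ)⁻¹)⁻¹ * exp (log (N + 1 : ℕ) / 2) •
      (g.map (Polynomial.aeval ((N + 1 : ℕ) : ℂ)⁻¹) * P (N + 1 : ℕ))), muniq (isOpen_lt continuous_const continuous_re) (convex_halfSpace_re_gt _).isPreconnected
      (fun i j t ht => ?_) (fun t ht => hP t (u0 t ht).1 (u0 t ht).2.1 (hY _ (u0 t ht).2.2.2.2).1)
      (fun t ht => (Sing.msol (φ := fun t => t⁻¹) hM (hY _ (u0 t ht).2.2.2.2).2.2
        (hY _ (u0 t ht).2.2.2.2).1 ((hasDerivAt_inv (u0 t ht).2.2.1).congr_deriv (by ring))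
        (hasDerivAt_log (Or.inl (u0 t ht).2.1)).neg rfl).mul_const _) a1
      (by rw [Matrix.mul_assoc, ← Matrix.mul_assoc (Ex _ _), ← Ex_add hM, neg_add_cancel, Ex_zero,
        Matrix.one_mul, mul_nonsing_inv_cancel_left (Y _) _ (hY _ (u0 _ a1).2.2.2.2).2.1])⟩
    have a2 := differentiableAt_inv (𝕜 := ℂ) (u0 t ht).2.2.1
    have : ∀ q : Polynomial ℚ, DifferentiableAt ℂ (fun t : ℂ => Polynomial.aeval t⁻¹ q) t :=
      fun q => (q.differentiable_aeval _).comp (g := fun t => Polynomial.aeval t q) t a2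
    exact (a2.neg.fun_mul ((this _).fun_div (this _) (hY _ (u0 t ht).2.2.2.2).1)).differentiableWithinAt
  obtain ⟨X, hX⟩ : ∃ X : Set ℚ, ∀ x, x ∈ X ↔ (x = (x.den : ℚ)⁻¹ ∧ N + 1 < x.den) ∧
    (∃ v : ℕ → ℕ, x.den = ∏ p ∈ S, p ^ v p) ∧ ¬ AGood P δ x.den := ⟨{ξ | _}, fun _ => Iff.rfl⟩
  suffices hi : X.Finite from ((Set.finite_Iic (N + 1)).union (hi.image Rat.den)).subset
    fun t ht => (le_or_gt t (N + 1)).imp id fun e => by
      have : (t : ℚ)⁻¹.den = t := Rat.inv_natCast_den_of_pos (by omega)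
      exact ⟨(t : ℚ)⁻¹, (hX _).2 (by rw [this]; exact ⟨⟨rfl, e⟩, ht⟩), this⟩
  by_contra hi
  choose! v hv using fun x h => ((hX x).1 h).2.1
  have x1 : ∀ x ∈ X, (x : ℂ) = (x.den : ℂ)⁻¹ ∧ (N : ℝ) < (x.den : ℂ).re := fun x hx =>
    ⟨by simpa using congrArg (Rat.cast : ℚ → ℂ) ((hX x).1 hx).1.1, by exact_mod_cast Nat.lt_of_succ_lt ((hX x).1 hx).1.2⟩
  have x2 := fun x h => ((hX x).1 h).2.2
  simp only [AGood, not_forall, Int.cast_natCast] at x2
  choose! F F1 F2 F3 using x2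
  choose! c hc using fun x h => (F1 x h).lin
  obtain ⟨U, hU⟩ : ∃ U : ℚ → Matrix ν ν ℚ, U = fun x => x⁻¹ ^ a • g'.map (Polynomial.eval x) := ⟨_, rfl⟩
  have x3 : ∀ x ∈ X, (U x).map (algebraMap ℚ ℂ) * g.map (Polynomial.aeval (x : ℂ)) = 1 := fun x hx => by
    have := congrArg (fun W => (x : ℂ)⁻¹ ^ a • W.map (Polynomial.aeval (R := ℚ) (x : ℂ)).toRingHom) hg
    have x0 : (x : ℂ) ≠ 0 := (x1 x hx).1 ▸ inv_ne_zero (u0 _ (x1 x hx).2).2.2.1
    simp only [Matrix.map_mul, ← smul_mul_assoc] at this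
    refine (congrArg (· * _) ?_).trans (this.trans ?_)
    · ext; simp [hU, aeval_rat]
    · ext i j; by_cases e : i = j <;> simp [e, x0, one_apply]
  obtain ⟨b, hb⟩ : ∃ b : ℚ → (Fin δ → Option (ν × ν)) → ℂ, b = fun x => (fun μ => (c x μ : ℂ)) ᵥ*
    kap (Fin δ) ((U x).map (algebraMap ℚ ℂ)) (exp (-(log (∏ p ∈ S, p ^ v x p : ℕ) / 2)) •
      (Ex M (-log (∏ p ∈ S, p ^ v x p : ℕ)) * C)) := ⟨_, rfl⟩
  obtain ⟨m, θ, κ, hκ⟩ := FR.pi (g := fun α x => b x α) fun α => by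
    obtain ⟨r1, r2⟩ := FR.sunit hS (v := v) fun _ => rfl
    obtain ⟨K, hK⟩ := hM
    simp only [hb, vecMul, dotProduct, kap, piM, of_apply, transpose_apply, ← Finset.sum_fn]
    refine sum_mem fun μ _ => mul_mem (FR.rat _) (?_ : (fun _ => _) ∈ _)
    simp only [← Finset.prod_fn]
    refine prod_mem fun l _ => ?_
    rcases μ l with _ | p <;> rcases α l with _ | q
    exacts [one_mem _, zero_mem _, zero_mem _, mul_mem (FR.rat _) (mul_mem r2 (by
      simp only [mul_apply, ← Finset.sum_fn]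
      refine sum_mem fun _ _ => mul_mem (?_ : (fun _ => _) ∈ _) (FR.const _)
      simp only [Ex_apply hK, ← Finset.sum_fn]
      exact sum_mem fun r _ => mul_mem (pow_mem (neg_mem r1) r) (FR.const _)))]
  replace hκ : ∀ x (y : _ → ℂ), (fun μ => ∑ α, κ x μ α * y α) ⬝ᵥ θ = b x ⬝ᵥ y := fun x y => by
    simp only [dotProduct, hκ, sum_mul]
    rw [sum_comm]
    simp only [mul_right_comm]
  obtain ⟨L, hL⟩ := exists_L (Fin δ → Option (ν × ν)) (Fintype.card (Fin m))
  have s1 : (1 : ℝ) < (3 / 2) ^ ((8 * L + 2 : ℕ) : ℝ)⁻¹ := Real.one_lt_rpow (by norm_num) (by positivity)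
  obtain ⟨X', X1, X2, X3⟩ := pigeon hS s1 (fun x hx => ⟨by have := ((hX x).1 hx).1.2; omega, hv x hx⟩) hi
  obtain ⟨Γ, θ', hΓ⟩ := exists_Gm (kap (Fin δ) 1 C)
  obtain ⟨p, p0, hp⟩ := lift f Γ θ'
  replace hΓ : ∀ u, Gm Γ u *ᵥ θ' = kap (Fin δ) 1 C *ᵥ u := hΓ
  simp only [hΓ] at hp
  have fb : ∀ z ∈ ball (0 : ℂ) R, (tens fun _ => hatg (Y z)) ∈ Fib f z := fun z hz l hl =>
    (rel_iff R0 hψ hf l).1 hl z hz
  obtain ⟨x, hx, y2, y3⟩ := H.elim0 p0 κ θ hL s1 (Real.rpow_inv_natCast_pow (by norm_num)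
    (by omega)).le (S := X') (w := fun x => Nat.clog 2 x.den) (fun x hx => by
      obtain ⟨a1, a2⟩ := x1 x (X1 hx)
      obtain ⟨-, -, a3, a4, -⟩ := u0 _ a2
      have a5 : 1 < x.den := by have := ((hX x).1 (X1 hx)).1.2; omega
      have a6 : 2 ^ Nat.clog 2 x.den ≤ 2 * x.den := by
        have := Nat.pow_pred_clog_lt_self one_lt_two a5
        rw [← Nat.succ_pred_eq_of_pos (Nat.clog_pos one_lt_two a5), pow_succ]
        omega
      have a7 : |(x : ℝ)| = ‖(x.den : ℂ)⁻¹‖ := by rw [← a1, ← ofReal_ratCast, norm_real]; rfl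
      refine ⟨⟨fun e => inv_ne_zero a3 (by rw [← a1, e, Rat.cast_zero]), a7 ▸ a4⟩, ?_,
        Nat.le_pow_clog one_lt_two _, a6.trans (by nlinarith), ?_⟩
      · rw [hκ, hb, ← dotProduct_mulVec, kap_mulVec, ← hv x (X1 hx), ← F2 x (X1 hx), hc x (X1 hx),
          Matrix.mul_smul, Matrix.mul_assoc, ← Matrix.mul_assoc (Y _), a1, ← hC _ a2, ← a1,
          Matrix.mul_smul, smul_smul, ← exp_add, neg_add_cancel, exp_zero, one_smul,
          ← Matrix.mul_assoc, x3 x (X1 hx), Matrix.one_mul]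
        rfl
      · rw [a7, norm_inv, Complex.norm_natCast, div_pow, ← mul_div_assoc, inv_eq_one_div,
          div_le_div_iff₀ (by positivity) (by positivity), one_mul, mul_right_comm]
        exact le_trans (by exact_mod_cast a6) (le_mul_of_one_le_right (by positivity)
          (one_le_pow₀ s1.le)))
    (fun x hx h b hb => (hp x h).1 b hb _ (fb _ ((x1 x (X1 hx)).1 ▸ (u0 _ (x1 x (X1 hx)).2).2.2.2.2)))
    (fun m _ => X3 m) X2
  replace hx := X1 hx
  obtain ⟨a1, a2⟩ := x1 x hx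
  have a3 := (u0 _ a2).2.2.1
  obtain ⟨c', hc'⟩ : ∃ c' : _ → ℚ, (fun μ => (c' μ : ℂ)) =
      (fun μ => (c x μ : ℂ)) ᵥ* kap (Fin δ) ((U x).map (algebraMap ℚ ℂ)) 1 :=
    ⟨c x ᵥ* kap (Fin δ) (U x) 1, by
      have := piM_map (algebraMap ℚ ℂ) fun _ : Fin δ => ex2 1 (U x) 1
      rw [ex2_map, map_one, Matrix.map_one _ (map_zero _) (map_one _)] at this
      rw [kap, kap, ← this]
      ext; simp [vecMul, dotProduct]⟩
  have d1 : ∀ (σ : ℂ) u, kap (Fin δ) 1 (σ • Ex M (log x.den)) *ᵥ u ∈ Fib f x → ∑ μ,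
      (σ * exp (-(log x.den / 2))) ^ dg μ * (c' μ * (kap (Fin δ) 1 C *ᵥ u) μ) = 0 := fun σ u hu => by
    have := (hp x y2).1 (b x) (fun U hU => (hκ _ _).symm.trans (y3 U hU)) _ hu
    rw [hb, ← dotProduct_mulVec, mulVec_mulVec, kap_mul, ← hv x hx, smul_mul_smul_comm,
      ← Matrix.mul_assoc, ← Ex_add hM, add_neg_cancel, Ex_zero, ← Matrix.mul_one (_ • _), ← kap_mul,
      ← mulVec_mulVec, dotProduct_mulVec, ← hc', Matrix.one_mul] at this
    simpa only [dotProduct, kap_smul, mul_left_comm] using this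
  choose h h1 h2 using fun ε => (hp x y2).2 (fun μ => if dg μ % 2 = ε then x ^ (dg μ / 2) * c' μ else 0)
    fun V hV => by
      have := stab hM hm R0 hY hψ hf (log x.den) (Sat.fib hV x)
      have := parity (y := x) (exp_ne_zero _) (by
        rw [← exp_nat_mul, Nat.cast_two, mul_neg, mul_div_cancel₀ _ two_ne_zero, Complex.exp_neg,
          exp_log a3, a1])
        (by simpa using d1 1 _ (by simpa using this.1))
        (by simpa using d1 (-1) _ (by simpa using this.2)) ε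
      simpa [dotProduct, apply_ite (Rat.cast : ℚ → ℂ), mul_assoc] using this
  obtain ⟨K, H, hH⟩ : (fun p : ℂ × (ν × ν → ℂ) => ∑ μ, p.1 ^ (dg μ / 2) *
      (Polynomial.aeval p.1⁻¹ (h (dg μ % 2) μ) * tens (fun _ => hatg
        (g.map (Polynomial.aeval p.1⁻¹) * of fun i j => p.2 (i, j))) μ)) ∈ LP (ν × ν) := by
    simp only [← Finset.sum_fn]
    refine sum_mem fun μ _ => mul_mem (pow_mem (show (fun p => p.1) ∈ LP (ν × ν) from
      ⟨0, MvPolynomial.X none, fun p _ => by simp⟩) _) (mul_mem (LP.inv _) (?_ : (fun _ => _) ∈ _))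
    simp only [tens, ← Finset.prod_fn]
    refine prod_mem fun l _ => ?_
    rcases μ l with _ | q
    · exact one_mem _
    · change (fun p : ℂ × (ν × ν → ℂ) => ∑ k, Polynomial.aeval p.1⁻¹ (g q.1 k) * p.2 (k, q.2)) ∈ _
      rw [← Finset.sum_fn]
      exact sum_mem fun k _ => mul_mem (LP.inv _) (show (fun p => p.2 (k, q.2)) ∈ LP (ν × ν) from
        ⟨0, MvPolynomial.X (some (k, q.2)), fun p _ => by simp⟩)
  refine F3 x hx ⟨MvPolynomial.C (x ^ K) * H, ?_, fun Z => ?_⟩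
  · have c1 : Tendsto (fun t : ℂ => t⁻¹) (𝓝 x.den) (𝓝 x) := by
      rw [a1]; exact (continuousAt_inv₀ a3).tendsto
    filter_upwards [c1.eventually ((h2 0).and (h2 1)),
      (isOpen_lt continuous_const continuous_re).mem_nhds a2] with t t1 t2
    obtain ⟨-, -, t3, -, t4⟩ := u0 t t2
    have c2 := stab hM hm R0 hY hψ hf (-log t) (fb _ t4)
    have c3 : ∀ σ : ℂ, kap (Fin δ) 1 C *ᵥ kap (Fin δ) 1 (σ • Ex M (-log t)) *ᵥ (tens fun _ =>
        hatg (Y t⁻¹)) = fun μ => (σ * exp (log t / 2)) ^ dg μ * tens (fun _ => hatg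
          (g.map (Polynomial.aeval t⁻¹) * P t)) μ := fun σ => funext fun μ => by
      rw [kap_mulVec, kap_mulVec, Matrix.one_mul, Matrix.one_mul, Matrix.mul_smul, smul_mul_assoc,
        ← hC t t2, smul_smul, ← Matrix.mul_one (_ * P t), ← Matrix.mul_smul, ← Matrix.one_mul (_ * P t),
        ← kap_mulVec, kap_smul, kap_mulVec]
    have c4 := fun ε (e : ∀ u ∈ Fib f t⁻¹, (fun μ => Polynomial.aeval t⁻¹ (h ε μ)) ⬝ᵥ
      (kap (Fin δ) 1 C *ᵥ u) = 0) => parity (y := t) (d := dg) (c := fun μ => Polynomial.aeval t⁻¹ (h ε μ) *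
        tens (fun _ => hatg (g.map (Polynomial.aeval t⁻¹) * P t)) μ) (exp_ne_zero (log t / 2))
        (by rw [← exp_nat_mul, Nat.cast_two, mul_div_cancel₀ _ two_ne_zero, exp_log t3]) (by
          have := e _ c2.1
          rw [← one_smul ℂ (Ex M _), c3, one_mul] at this
          simpa only [dotProduct, mul_left_comm] using this) (by
          have := e _ c2.2
          rw [← neg_one_smul ℂ (Ex M _), c3, neg_one_mul] at this
          simpa only [dotProduct, mul_left_comm] using this) ε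
    have c5 := congrArg₂ (· + ·) (c4 0 t1.1) (c4 1 t1.2)
    simp only [add_zero, ← sum_add_distrib] at c5
    rw [map_mul, hH (t, ent (P t)) t3]
    refine mul_eq_zero_of_right _ (mul_eq_zero_of_right _ ((sum_congr rfl fun μ _ => ?_).trans c5))
    rcases Nat.mod_two_eq_zero_or_one (dg μ) with e | e <;> simp [e] <;> exact Or.inl (Or.inl rfl)
  · have e : ∀ k : ℕ, (x : ℂ) ^ k * (x.den : ℂ) ^ k = 1 := fun k => by
      rw [← mul_pow, a1, inv_mul_cancel₀ a3, one_pow]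
    rw [map_mul, hH (_, Z) a3, hc x hx, MvPolynomial.aeval_C, eq_ratCast, Rat.cast_pow,
      ← mul_assoc, e, one_mul]
    simp only [← a1, aeval_rat, h1, if_true, Rat.cast_mul, Rat.cast_pow, ← mul_assoc, mul_comm _ ((x : ℂ) ^ _),
      e, one_mul]
    refine (congrArg (· ⬝ᵥ _) hc').trans ?_
    rw [← dotProduct_mulVec, kap_mulVec, ← Matrix.mul_assoc, x3 x hx, Matrix.one_mul, Matrix.mul_one]
    rfl

end

end Pool.Agent.Lib.MP_5591bc_ag.R
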