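import Pool.Agent.Lib.MP_5591bc_ag.SForm

/-! Nilpotent exponentials, two-sided multiplication, tensor powers of a system. -/

namespace Pool.Agent.Lib.MP_5591bc_ag.R

open Matrix Finset Filter Topology PowerSeries G Function Metric

noncomputable section

section ex
variable {ν R S : Type*} [Fintype ν] [DecidableEq ν] [CommRing R] [CommRing S] [Algebra ℚ R]
  [Algebra ℚ S] {M : Matrix ν ν ℚ} {N : ℕ}

/-- `exp (x M)` -/
def Ex (M : Matrix ν ν ℚ) (x : R) : Matrix ν ν R := IsNilpotent.exp (x • M.map (algebraMap ℚ R))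

theorem nil_smul (hN : M ^ N = 0) (x : R) : (x • M.map (algebraMap ℚ R)) ^ N = 0 := by
  rw [smul_pow, ← RingHom.mapMatrix_apply, ← map_pow, hN, map_zero, smul_zero]

theorem Ex_add (hM : IsNilpotent M) (x y : R) : Ex M (x + y) = Ex M x * Ex M y := by
  obtain ⟨N, hN⟩ := hM
  rw [Ex, add_smul]
  exact IsNilpotent.exp_add_of_commute (((Commute.refl _).smul_left _).smul_right _)
    ⟨N, nil_smul hN x⟩ ⟨N, nil_smul hN y⟩

theorem Ex_zero : Ex M (0 : R) = 1 := by rw [Ex, zero_smul, IsNilpotent.exp_zero]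

theorem Ex_map (hM : IsNilpotent M) (φ : R →+* S) (x : R) : (Ex M x).map φ = Ex M (φ x) := by
  obtain ⟨N, hN⟩ := hM
  rw [Ex, Ex, ← RingHom.mapMatrix_apply, IsNilpotent.map_exp ⟨N, nil_smul hN x⟩]
  congr 1
  ext; simp

theorem Ex_apply (hN : M ^ N = 0) (x : R) (i j : ν) : Ex M x i j =
    ∑ r ∈ range N, x ^ r * algebraMap ℚ R ((r.factorial : ℚ)⁻¹ * (M ^ r) i j) := by
  rw [Ex, IsNilpotent.exp_eq_sum (nil_smul hN x), Matrix.sum_apply]
  refine sum_congr rfl fun r _ => ?_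
  rw [smul_pow, ← RingHom.mapMatrix_apply, ← map_pow]
  simp only [Matrix.smul_apply, smul_eq_mul, RingHom.mapMatrix_apply, map_apply, map_mul]
  rw [Algebra.smul_def, mul_left_comm]

theorem Ex_der (hM : IsNilpotent M) (D : Derivation ℚ R R) (x : R) :
    (Ex M x).map D = D x • (Ex M x * M.map (algebraMap ℚ R)) := by
  obtain ⟨N, hN⟩ := hM
  ext i j
  simp only [map_apply, Matrix.smul_apply, mul_apply, smul_eq_mul]
  rw [Ex_apply (pow_eq_zero_of_le N.le_succ hN), sum_range_succ']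
  simp only [Ex_apply hN, map_add, map_sum, Derivation.leibniz, Derivation.map_algebraMap,
    Derivation.leibniz_pow, sum_mul, mul_sum, smul_zero, zero_add, smul_eq_mul, pow_succ M,
    mul_apply, map_mul, nsmul_eq_mul, Nat.cast_zero, zero_mul, mul_zero, add_zero]
  rw [sum_comm]
  refine sum_congr rfl fun k _ => sum_congr rfl fun r _ => ?_
  have : algebraMap ℚ R ((r + 1).factorial : ℚ)⁻¹ * ((r + 1 : ℕ) : R) =
      algebraMap ℚ R (r.factorial : ℚ)⁻¹ := by
    rw [← map_natCast (algebraMap ℚ R), ← map_mul, Nat.factorial_succ]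
    congr 1
    push_cast
    field_simp
  rw [← this, add_tsub_cancel_right]
  ring

theorem Ex_hasDeriv (hM : IsNilpotent M) (x : ℂ) (i j : ν) :
    HasDerivAt (fun y : ℂ => Ex M y i j) ((Ex M x * M.map (algebraMap ℚ ℂ)) i j) x := by
  have e : ∀ y : ℂ, (Ex M (Polynomial.X : Polynomial ℂ)).map (Polynomial.evalRingHom y) = Ex M y :=
    fun y => by rw [Ex_map hM]; simp
  have h := (Ex M (Polynomial.X : Polynomial ℂ) i j).hasDerivAt x
  have h2 := congrFun₂ (Ex_der hM (Polynomial.derivative'.restrictScalars ℚ)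
    (Polynomial.X : Polynomial ℂ)) i j
  simp only [map_apply, Derivation.coe_restrictScalars, Polynomial.derivative'_apply,
    Polynomial.derivative_X, one_smul] at h2
  rw [h2] at h
  rw [show (fun y : ℂ => Ex M y i j) = fun y => (Ex M (Polynomial.X : Polynomial ℂ) i j).eval y from
    funext fun y => by rw [← e]; rfl]
  refine h.congr_deriv ?_
  simp [← e, mul_apply, Polynomial.eval_finset_sum]

omit [Algebra ℚ R] [Algebra ℚ S]

/-- the matrix of `(ε', Z) ↦ (ε ε', U Z V)` -/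
def ex2 (ε : R) (U V : Matrix ν ν R) : Matrix (Option (ν × ν)) (Option (ν × ν)) R := of fun o o' =>
  o.elim (o'.elim ε fun _ => 0) fun x => o'.elim 0 fun y => U x.1 y.1 * V y.2 x.2

omit [DecidableEq ν] in
theorem ex2_mulVec (ε : R) (U V Z : Matrix ν ν R) :
    ex2 ε U V *ᵥ hatg Z = fun o => o.elim ε fun x => (U * Z * V) x.1 x.2 := by
  ext (_ | ⟨p, q⟩) <;>
    simp [ex2, hatg, mulVec, dotProduct, Fintype.sum_option, Fintype.sum_prod_type, mul_apply,
      sum_mul]
  rw [sum_comm]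
  simp only [mul_right_comm]

omit [DecidableEq ν] in
theorem ex2_mul (ε ε' : R) (U V U' V' : Matrix ν ν R) :
    ex2 ε U V * ex2 ε' U' V' = ex2 (ε * ε') (U * U') (V' * V) := by
  ext (_ | ⟨p, q⟩) (_ | ⟨p', q'⟩) <;>
    simp [ex2, Fintype.sum_option, Fintype.sum_prod_type, mul_apply, sum_mul_sum]
  exact sum_congr rfl fun _ _ => sum_congr rfl fun _ _ => by ring

omit [Fintype ν] [DecidableEq ν] in
theorem ex2_map (φ : R →+* S) (ε : R) (U V : Matrix ν ν R) :
    (ex2 ε U V).map φ = ex2 (φ ε) (U.map φ) (V.map φ) := by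
  ext (_ | ⟨p, q⟩) (_ | ⟨p', q'⟩) <;> simp [ex2]

omit [Fintype ν] in
theorem ex2_one : ex2 (1 : R) (1 : Matrix ν ν R) 1 = 1 := by
  ext (_ | ⟨p, q⟩) (_ | ⟨p', q'⟩) <;> simp [ex2, one_apply, ite_and, eq_comm]
  split_ifs <;> rfl

theorem ex2_nil {M : Matrix ν ν R} (hM : IsNilpotent M) :
    IsNilpotent (ex2 0 M 1 - ex2 (0 : R) 1 M) := by
  obtain ⟨N, hN⟩ := hM
  have : ∀ (U V : Matrix ν ν R) k, ex2 0 U V ^ (k + 1) = ex2 0 (U ^ (k + 1)) (V ^ (k + 1)) :=
    fun U V k => by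
      induction k with
      | zero => simp
      | succ k ih => rw [pow_succ, ih, ex2_mul, zero_mul, ← pow_succ, ← pow_succ']
  refine Commute.isNilpotent_sub (by simp [Commute, SemiconjBy, ex2_mul]) ⟨N + 1, ?_⟩ ⟨N + 1, ?_⟩ <;>
    rw [this, pow_succ M, hN] <;> ext (_ | _) (_ | _) <;> simp [ex2]

end ex

section tens
variable {α R L : Type*} [Fintype α] [DecidableEq α] [CommRing R] [Fintype L] [DecidableEq L]

theorem tB_mul (B M : Matrix α α R) :
    tB L B * piM (fun _ => M) = ∑ l : L, piM (update (fun _ => M) l (B * M)) ∧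
      piM (fun _ => M) * tB L B = ∑ l : L, piM (update (fun _ => M) l (M * B)) := by
  rw [tB, Finset.sum_mul, Finset.mul_sum]
  constructor <;> refine sum_congr rfl fun l _ => ?_ <;> rw [piM_mul] <;> congr 1 <;> ext1 j <;>
    by_cases e : j = l
  all_goals first | (subst e; simp) | simp [e]

omit [Fintype α] [DecidableEq α] in
theorem piM_upd (M : L → Matrix α α R) (l : L) (N : Matrix α α R) (μ ν : L → α) :
    piM (update M l N) μ ν = N (μ l) (ν l) * ∏ j ∈ univ.erase l, M j (μ j) (ν j) := by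
  rw [piM, of_apply, ← mul_prod_erase _ _ (mem_univ l), update_self]
  exact congrArg₂ _ rfl (prod_congr rfl fun j hj => by simp [ne_of_mem_erase hj])

theorem tB_nil {M : Matrix α α R} (h : IsNilpotent M) : IsNilpotent (tB L M) :=
  Commute.isNilpotent_sum (fun l _ => nil_upd h l) fun l l' _ _ => by
    rw [Commute, SemiconjBy, piM_mul, piM_mul]
    congr 1
    ext1 j
    by_cases e : j = l <;> by_cases e' : j = l' <;> simp [update_apply, e, e']
    all_goals split_ifs <;> simp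

theorem rel_iff {f : α → ℚ⟦X⟧} {ψ : ℂ → α → ℂ} {R : ℝ} (R0 : 0 < R)
    (hψ : ∀ a, DifferentiableOn ℂ (ψ · a) (ball 0 R)) (hf : ∀ a, mp (f a) = tay (ψ · a) 0)
    (l : α → Polynomial ℚ) : (fun a => (l a : ℚ⟦X⟧)) ⬝ᵥ f = 0 ↔
      ∀ z ∈ ball (0 : ℂ) R, (fun a => Polynomial.aeval z (l a)) ⬝ᵥ ψ z = 0 := by
  have hd := fun a => (l a).differentiable_aeval.differentiableOn.fun_mul (hψ a)
  have n0 := isOpen_ball.mem_nhds (mem_ball_self (x := (0 : ℂ)) R0)
  have e : tay (fun z => ∑ a, Polynomial.aeval z (l a) * ψ z a) 0 =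
      mp ((fun a => (l a : ℚ⟦X⟧)) ⬝ᵥ f) := by
    refine (tay_sum _ fun a _ => (hd a).analyticAt n0).trans ?_
    rw [dotProduct, map_sum]
    refine sum_congr rfl fun a _ => ?_
    rw [tay_mul (analyticAt_aeval _ _) ((hψ a).analyticAt n0), tay_aeval, map_mul, hf, ← τ1_zero,
      mp_τ1, Rat.cast_zero]
  refine ⟨fun hl => ident isOpen_ball (convex_ball _ _).isPreconnected
    (DifferentiableOn.fun_sum fun a _ => hd a) (differentiableOn_const 0) (mem_ball_self R0)
    (eventually_zero_of_tay ((DifferentiableOn.fun_sum fun a _ => hd a).analyticAt n0) ?_),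
    fun h => mp_inj ?_⟩
  · exact e.trans (by rw [hl, map_zero])
  · rw [← e]
    refine (tay_congr (h := fun _ => 0) (mem_of_superset n0 h)).trans ?_
    rw [tay_const, map_zero, map_zero]

theorem one_tens {T : Polynomial ℚ} {B : Matrix α α (Polynomial ℚ)} {Ω : Set ℚ}
    {G : ℚ → Matrix α α ℚ⟦X⟧} {f : α → ℚ⟦X⟧} {y : ℂ → α → ℂ} {R : ℝ} (R0 : 0 < R)
    {G0 : Matrix α α ℚ⟦X⟧} {M : Matrix α α ℚ} {e : α → ℚ} {b : ℚ⟦X⟧}
    (z1 : G0.map constantCoeff = 1) (z2 : IsNilpotent M) (z3 : b ≠ 0) (z4 : τ1 0 T = b * X)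
    (z5 : τ1 0 T • G0.map (d⁄dX ℚ) = B.map (τ1 0) * G0 - b • (G0 * M.map C)) (z6 : M *ᵥ e = 0)
    (z7 : f = G0 *ᵥ fun j => C (e j)) (h1 : ∀ x ∈ Ω, (G x).map constantCoeff = 1)
    (h2 : ∀ x ∈ Ω, τ1 x T • (G x).map (d⁄dX ℚ) = B.map (τ1 x) * G x)
    (h3 : ∀ i j, (fun x : Ω => G x i j) ∈ UF (fun x : Ω => 2 * x.1.den) fun x => two_le x)
    {a : ℕ} (h4 : GF a f) (hy : ∀ o, DifferentiableOn ℂ (y · o) (ball 0 R))
    (hf : ∀ o, mp (f o) = tay (y · o) 0) (ht : ∀ x ∈ Ω, (x : ℂ) ∈ ball (0 : ℂ) R ∧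
      ∀ o, tay (y · o) x = ((G x).map mp *ᵥ fun β => C (y x β)) o) :
    One T (tB L B) Ω (fun x => piM fun _ => G x) (tens fun _ => f) (fun x => tens fun _ => y x) ∧
      (∀ μ : L → α, DifferentiableOn ℂ (fun z => tens (fun _ => y z) μ) (ball 0 R)) ∧
      ∀ μ : L → α, mp (tens (fun _ => f) μ) = tay (fun z => tens (fun _ => y z) μ) 0 := by
  have hψ : ∀ μ : L → α, DifferentiableOn ℂ (fun z => tens (fun _ => y z) μ) (ball 0 R) :=
    fun μ => DifferentiableOn.fun_finsetProd fun l _ => hy _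
  have h5 : ∀ x ∈ ball (0 : ℂ) R, ∀ μ : L → α, tay (fun z => tens (fun _ => y z) μ) x =
      tens (fun _ o => tay (y · o) x) μ := fun x hx μ =>
    tay_prod _ fun l _ => (hy _).analyticAt (isOpen_ball.mem_nhds hx)
  have h6 : ∀ μ : L → α, mp (tens (fun _ => f) μ) = tay (fun z => tens (fun _ => y z) μ) 0 :=
    fun μ => by rw [h5 0 (mem_ball_self R0)]; simp only [tens, map_prod, hf]
  refine ⟨⟨⟨piM fun _ => G0, tB L M, tens fun _ => e, 1, b, ?_, tB_nil z2, z3, by rw [one_mul, z4],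
    ?_, ?_, ?_⟩, fun x hx => ?_, fun x hx => ?_, fun i j => ?_, ?_, fun x hx μ k => ?_⟩,
    hψ, h6⟩
  · rw [piM_map, z1, piM_one]
  · have hu : G0⁻¹ * G0 = 1 := nonsing_inv_mul _ (isUnit_iff_constantCoeff.2 (by
      rw [RingHom.map_det, RingHom.mapMatrix_apply, z1, det_one]; exact isUnit_one))
    rw [piM_ode (B := (B.map (τ1 0) * G0 - b • (G0 * M.map C)) * G0⁻¹) (by
      rw [Matrix.mul_assoc, hu, Matrix.mul_one, z5]), tB_map, tB_map, (tB_mul _ _).1,
      (tB_mul _ _).1, (tB_mul _ _).2, Matrix.mul_assoc, hu, Matrix.mul_one, one_smul]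
    ext1 μ ν
    simp only [Matrix.sub_apply, Matrix.sum_apply, piM_upd, Matrix.neg_apply, Matrix.smul_apply,
      smul_eq_mul, mul_sum, ← sum_sub_distrib, ← sum_neg_distrib]
    exact sum_congr rfl fun l _ => by ring
  · rw [tB_mulVec]
    exact sum_eq_zero fun l _ => funext fun μ => by rw [tens_update, z6]; simp
  · rw [show (fun j => C (tens (fun _ : L => e) j)) = tens fun _ j => C (e j) from
      funext fun j => map_prod _ _ _, piM_mulVec, z7]
  · rw [piM_map, h1 x hx, piM_one]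
  · rw [tB_map]
    exact piM_ode (h2 x hx)
  · simp only [piM, of_apply, ← Finset.prod_fn]
    exact prod_mem fun l _ => h3 _ _
  · obtain ⟨k, hk⟩ := UF.pi (b := fun _ : Unit => a + 2) (hb := fun _ => by omega)
      (g := fun (μ : L → α) _ => tens (fun _ => f) μ) fun μ => by
        simp only [tens, ← Finset.prod_fn]
        exact prod_mem fun l _ => ⟨1, fun _ => (h4.comp fun _ => μ l).mono (by simp)⟩
    exact ⟨_, hk ()⟩
  · have := tendsto_trunc (ht x hx).1 k (hψ μ) (h6 μ)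
    rw [h5 _ (ht x hx).1, funext (ht x hx).2, ← piM_mulVec, ← piM_map,
      show (tens fun (_ : L) β => C (y x β)) = fun β => C (tens (fun _ => y x) β) from
        funext fun j => (map_prod _ _ _).symm] at this
    simpa [mulVec, dotProduct] using this

end tens

end

end Pool.Agent.Lib.MP_5591bc_ag.R
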