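import Pool.Agent.Lib.MP_5591bc_ag.SOne
import Pool.Agent.Lib.MP_5591bc_ag.RMain

/-! Stability of the fibres under monodromy, parity, constants of finite rank. -/

namespace Pool.Agent.Lib.MP_5591bc_ag.R

open Matrix Finset Filter Topology PowerSeries G Function Metric

noncomputable section

theorem fib_stable {A : Type*} [Fintype A] {f : A → ℚ⟦X⟧} {ψ : ℂ → A → ℂ} {R : ℝ} (R0 : 0 < R)
    (hψ : ∀ a, DifferentiableOn ℂ (ψ · a) (ball 0 R)) (hf : ∀ a, mp (f a) = tay (ψ · a) 0)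
    {K : Matrix A A ℂ}
    (hK : ∀ z ∈ ball (0 : ℂ) R, K *ᵥ ψ z ∈ Fib f z) {x : ℂ} {u : A → ℂ} (hu : u ∈ Fib f x) :
    K *ᵥ u ∈ Fib f x := fun l hl => by
  classical
  let b := Module.Basis.ofVectorSpace ℚ ℂ
  obtain ⟨s, hs⟩ : ∃ s : Finset _, ∀ a c, K a c = ∑ i ∈ s, (b.repr (K a c) i : ℂ) * b i :=
    ⟨univ.biUnion fun p : A × A => (b.repr (K p.1 p.2)).support, fun a c => by
      conv_lhs => rw [← b.linearCombination_repr (K a c)]
      rw [Finsupp.linearCombination_apply, Finsupp.sum_of_support_subset _ (subset_biUnion_of_mem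
        (fun p : A × A => (b.repr (K p.1 p.2)).support) (mem_univ (a, c))) _ (by simp)]
      simp only [Rat.smul_def]⟩
  have n0 := isOpen_ball.mem_nhds (mem_ball_self (x := (0 : ℂ)) R0)
  have h0 : ∀ k, ∑ a, ∑ c, (coeff k (l a * f c) : ℚ) • K a c = 0 := fun k => by
    have a1 := fun a c => (analyticAt_const (v := K a c)).fun_mul ((hψ c).analyticAt n0)
    have a2 := fun a => analyticAt_fun_sum univ fun c _ => a1 a c
    have := ((tay_congr (h := fun _ => 0) (mem_of_superset n0 fun z hz => hK z hz l hl)).trans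
      (tay_const 0)).symm.trans (tay_sum univ fun a _ => (analyticAt_aeval (l a) 0).fun_mul (a2 a))
    simp only [mulVec, dotProduct, tay_mul (analyticAt_aeval _ _) (a2 _), tay_sum _ fun c _ => a1 _ c,
      tay_cmul ((hψ _).analyticAt n0), tay_aeval, τp_zero, ← hf] at this
    replace this := congrArg (coeff k) this
    simp only [mul_sum, map_zero, map_sum, mul_left_comm _ (C _), coeff_C_mul] at this
    rw [this]
    refine sum_congr rfl fun a _ => sum_congr rfl fun c _ => ?_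
    rw [Algebra.smul_def, ← coeff_map, map_mul, mul_comm]
    rfl
  have h1 := fun i => hu (fun c => ∑ a, b.repr (K a c) i • l a) (PowerSeries.ext fun k => by
    have := congrArg (b.coord i) (h0 k)
    simp only [map_sum, map_smul, map_zero, Module.Basis.coord_apply, smul_eq_mul] at this
    rw [map_zero, ← this, sum_comm, dotProduct, map_sum]
    refine sum_congr rfl fun c _ => ?_
    rw [← τ1_zero, map_sum, sum_mul, map_sum]
    simp [mul_comm, τ1_zero])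
  rw [← sum_const_zero (s := s), ← sum_congr rfl fun i _ => mul_eq_zero_of_right (b i) (h1 i)]
  simp only [dotProduct, mulVec, map_sum, map_smul, mul_sum, sum_mul, Rat.smul_def]
  rw [sum_comm, sum_comm (s := s)]
  refine sum_congr rfl fun c _ => ?_
  rw [sum_comm]
  refine sum_congr rfl fun a _ => ?_
  conv_lhs => rw [hs a c, sum_mul, mul_sum]
  exact sum_congr rfl fun _ _ => by ring

theorem parity {A : Type*} [Fintype A] {d : A → ℕ} {c : A → ℂ} {σ y : ℂ} (h0 : σ ≠ 0)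
    (hy : σ ^ 2 = y) (h1 : ∑ μ, σ ^ d μ * c μ = 0) (h2 : ∑ μ, (-σ) ^ d μ * c μ = 0) (ε : ℕ) :
    ∑ μ, (if d μ % 2 = ε then y ^ (d μ / 2) * c μ else 0) = 0 := by
  refine mul_left_cancel₀ (mul_ne_zero two_ne_zero (pow_ne_zero ε h0)) ?_
  by_cases h : ε < 2
  · refine Eq.trans ?_ (show ∑ μ, σ ^ d μ * c μ + (-1) ^ ε * ∑ μ, (-σ) ^ d μ * c μ = _ by
      simp [h1, h2])
    rw [mul_sum, mul_sum, ← sum_add_distrib]
    refine sum_congr rfl fun μ _ => ?_
    rw [← hy, ← pow_mul, neg_pow σ, ← Nat.div_add_mod (d μ) 2]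
    generalize d μ / 2 = q
    rcases Nat.mod_two_eq_zero_or_one (d μ) with e | e <;> interval_cases ε <;>
      simp [e, pow_succ, Nat.mul_add_div] <;> ring
  · rw [sum_eq_zero fun μ _ => if_neg (by omega)]

/-- families of complex numbers of finite rank over the rationals -/
def FR (Ω : Type*) : Subring (Ω → ℂ) where
  carrier := {g | ∃ V : Submodule ℚ ℂ, V.FG ∧ ∀ x, g x ∈ V}
  add_mem' := fun ⟨V, h, h1⟩ ⟨W, h', h2⟩ => ⟨V ⊔ W, h.sup h', fun x =>
    Submodule.add_mem_sup (h1 x) (h2 x)⟩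
  mul_mem' := fun ⟨V, h, h1⟩ ⟨W, h', h2⟩ => ⟨V * W, h.mul h', fun x =>
    Submodule.mul_mem_mul (h1 x) (h2 x)⟩
  one_mem' := ⟨_, Submodule.fg_span_singleton 1, fun _ => Submodule.mem_span_singleton_self _⟩
  zero_mem' := ⟨⊥, Submodule.fg_bot, fun _ => zero_mem _⟩
  neg_mem' := fun ⟨V, h, h1⟩ => ⟨V, h, fun x => neg_mem (h1 x)⟩

theorem FR.const {Ω : Type*} (c : ℂ) : (fun _ => c) ∈ FR Ω :=
  ⟨_, Submodule.fg_span_singleton c, fun _ => Submodule.mem_span_singleton_self _⟩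

theorem FR.rat {Ω : Type*} (q : Ω → ℚ) : (fun x => (q x : ℂ)) ∈ FR Ω :=
  ⟨_, Submodule.fg_span_singleton 1, fun x => Submodule.mem_span_singleton.2 ⟨q x, by simp⟩⟩

theorem FR.pi {Ω α : Type*} [Fintype α] {g : α → Ω → ℂ} (h : ∀ a, g a ∈ FR Ω) :
    ∃ (m : ℕ) (θ : Fin m → ℂ) (κ : Ω → Fin m → α → ℚ), ∀ x a, g a x = ∑ μ, κ x μ a * θ μ := by
  choose V h1 h2 using h
  obtain ⟨m, θ, hθ⟩ := Submodule.fg_iff_exists_fin_generating_family.1
    (Submodule.fg_iSup V h1)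
  choose κ hκ using fun x a => (Submodule.mem_span_range_iff_exists_fun ℚ).1
    (hθ ▸ Submodule.mem_iSup_of_mem a (h2 a x))
  exact ⟨m, θ, fun x μ a => κ x a μ, fun x a => by simp only [← hκ x a, Rat.smul_def]⟩

theorem FR.sunit {Ω : Type*} {S : Finset ℕ} (hS : ∀ p ∈ S, p.Prime) {t : Ω → ℕ} {v : Ω → ℕ → ℕ}
    (h : ∀ x, t x = ∏ p ∈ S, p ^ v x p) : (fun x => Complex.log (t x)) ∈ FR Ω ∧
      (fun x => Complex.exp (-(Complex.log (t x) / 2))) ∈ FR Ω := by
  have e : ∀ x, Complex.log (t x) = ∑ p ∈ S, ((v x p : ℚ) : ℂ) * Complex.log p := fun x => by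
    rw [← Complex.natCast_log, h, Nat.cast_prod, Real.log_prod fun p hp => by
      have := (hS p hp).pos; positivity]
    simp
  simp only [e, sum_div, ← sum_neg_distrib, Complex.exp_sum, ← Finset.sum_fn, ← Finset.prod_fn]
  refine ⟨sum_mem fun p _ => mul_mem (FR.rat _) (FR.const _), prod_mem fun p hp => ?_⟩
  have p0 : (p : ℂ) ≠ 0 := by exact_mod_cast (hS p hp).ne_zero
  convert add_mem (FR.rat fun x => if v x p % 2 = 0 then (p : ℚ)⁻¹ ^ (v x p / 2) else 0) (mul_mem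
    (FR.rat fun x => if v x p % 2 = 0 then 0 else (p : ℚ)⁻¹ ^ (v x p / 2))
    (FR.const (Complex.exp (-(Complex.log p / 2))))) using 1
  ext x
  have : Complex.exp (-((v x p : ℚ) * Complex.log p / 2)) =
      (p : ℂ)⁻¹ ^ (v x p / 2) * Complex.exp (-(Complex.log p / 2)) ^ (v x p % 2) := by
    conv_lhs => rw [← Nat.div_add_mod (v x p) 2]
    conv_rhs => enter [1]; rw [← Complex.exp_log p0, ← Complex.exp_neg]
    rw [← Complex.exp_nat_mul, ← Complex.exp_nat_mul, ← Complex.exp_add]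
    congr 1
    push_cast
    ring
  rw [this]
  rcases Nat.mod_two_eq_zero_or_one (v x p) with e | e <;> simp [e]

theorem pigeon {S : Finset ℕ} (hS : ∀ p ∈ S, p.Prime) {s : ℝ} (s1 : 1 < s) {X : Set ℚ}
    {v : ℚ → ℕ → ℕ} (hX : ∀ x ∈ X, 1 < x.den ∧ x.den = ∏ p ∈ S, p ^ v x p) (hi : X.Infinite) :
    ∃ X' ⊆ X, X'.Infinite ∧ ∀ m, ∀ ξ : Fin m → ℚ, (∀ i, ξ i ∈ X') → ∀ D, ∃ Z : ℕ, 0 < Z ∧
      (Z : ℝ) ≤ (2 * s ^ 2) ^ D ∧ ∀ j : Fin m →₀ ℕ, Finsupp.weight
        (fun i => Nat.clog 2 (ξ i).den) j ≤ D → ∃ y : ℤ, (Z : ℚ) * ∏ i, ξ i ^ j i = y := by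
  obtain ⟨M, hM⟩ := pow_unbounded_of_one_lt ((∏ p ∈ S, p : ℕ) : ℝ) s1
  have M0 : 0 < M := Nat.pos_of_ne_zero fun e => by
    have := prod_pos fun p hp => (hS p hp).pos
    rw [e, pow_zero, Nat.cast_lt_one] at hM
    omega
  have w0 : ∀ x ∈ X, 0 < Nat.clog 2 x.den := fun x hx => Nat.clog_pos one_lt_two (hX x hx).1
  have w7 : ∀ x ∈ X, ∏ p ∈ S, p ^ v x p ≤ 2 ^ Nat.clog 2 x.den := fun x hx =>
    (hX x hx).2.ge.trans (Nat.le_pow_clog one_lt_two _)
  let κ : ℚ → ℕ → ℕ := fun x p => if p ∈ S then M * v x p / Nat.clog 2 x.den else 0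
  by_contra hn
  refine hi (Set.Finite.of_finite_fibers κ ?_ fun k ⟨x0, h0, hk⟩ => by_contra fun hi => hn
    ⟨_, Set.inter_subset_left, hi, fun m ξ hξ => ?_⟩)
  · refine (Set.Finite.image (fun (g : S → ℕ) p => if h : p ∈ S then g ⟨p, h⟩ else 0)
      (Set.Finite.pi fun _ => Set.finite_Iic M)).subset ?_
    rintro _ ⟨x, hx, rfl⟩
    refine ⟨fun p => κ x p, fun p _ => ?_, funext fun p => by by_cases e : p ∈ S <;> simp [κ, e]⟩
    have a1 := (Nat.pow_le_pow_left (hS p p.2).two_le _).trans ((single_le_prod'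
      (f := fun p => p ^ v x p) (fun p hp => pow_pos (hS p hp).pos _) p.2).trans (w7 x hx))
    simp only [κ, if_pos p.2, Set.mem_Iic]
    exact Nat.div_le_of_le_mul (mul_comm M _ ▸ Nat.mul_le_mul_left _
      ((Nat.pow_le_pow_iff_right one_lt_two).1 a1))
  have k1 : ∏ p ∈ S, p ^ k p ≤ 2 ^ M := by
    refine le_of_pow_le_pow_left₀ (w0 x0 h0).ne' (by positivity) ?_
    rw [← pow_mul, mul_comm, pow_mul]
    refine le_trans ?_ (Nat.pow_le_pow_left (w7 x0 h0) M)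
    rw [← prod_pow, ← prod_pow]
    refine prod_le_prod' fun p hp => ?_
    rw [← pow_mul, ← pow_mul, ← hk, mul_comm _ M]
    simp only [κ, if_pos hp]
    exact Nat.pow_le_pow_right (hS p hp).pos (Nat.div_mul_le_self _ _)
  exact common_den (t := 1) (b := fun _ => 1) hS M0 s1.le zero_le_one (by simpa using s1.le) hM.le k1
    (fun i => w0 _ (hξ i).1) (fun i => by rw [one_mul, ← (hX _ (hξ i).1).2]) (by simp) le_rfl
    fun i p hp => by
      rw [← show κ (ξ i) = k from (hξ i).2, add_mul, one_mul]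
      simp only [κ, if_pos hp]
      exact (Nat.lt_div_mul_add (w0 _ (hξ i).1)).le

/-- functions that are polynomial in `t`, `1 / t` and `X` -/
def LP (σ : Type*) : Subalgebra ℚ (ℂ × (σ → ℂ) → ℂ) where
  carrier := {F | ∃ (N : ℕ) (H : MvPolynomial (Option σ) ℚ), ∀ p : ℂ × (σ → ℂ), p.1 ≠ 0 →
    MvPolynomial.aeval (fun o => o.elim p.1 p.2) H = p.1 ^ N * F p}
  add_mem' := fun ⟨N, H, h⟩ ⟨N', H', h'⟩ => ⟨N + N', MvPolynomial.X none ^ N' * H +
    MvPolynomial.X none ^ N * H', fun p hp => by simp [h p hp, h' p hp]; ring⟩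
  mul_mem' := fun ⟨N, H, h⟩ ⟨N', H', h'⟩ => ⟨N + N', H * H', fun p hp => by
    simp [h p hp, h' p hp]; ring⟩
  algebraMap_mem' q := ⟨0, MvPolynomial.C q, fun p _ => by simp⟩

theorem LP.inv {σ : Type*} (q : Polynomial ℚ) :
    (fun p : ℂ × (σ → ℂ) => Polynomial.aeval p.1⁻¹ q) ∈ LP σ := by
  have : (fun p : ℂ × (σ → ℂ) => p.1⁻¹) ∈ LP σ := ⟨1, 1, fun p hp => by simp [hp]⟩
  convert (Polynomial.aeval (⟨_, this⟩ : LP σ) q).2 using 1
  ext p
  exact Polynomial.aeval_algHom_apply ((Pi.evalAlgHom ℚ _ p).comp (LP σ).val) ⟨_, this⟩ q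

end

end Pool.Agent.Lib.MP_5591bc_ag.R
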