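import Pool.Agent.Lib.MP_5591bc_ag.SOm

/-! Transfer of the condition of Galochkin to the point at infinity. -/

namespace Pool.Agent.Lib.MP_5591bc_ag.R

open Matrix Finset Filter Topology G Function Metric Polynomial

noncomputable section

theorem der_coeff {g : ℂ → ℂ} {z : ℂ} (hg : AnalyticAt ℂ g z) (k : ℕ) : HasDerivAt
    (fun w => PowerSeries.coeff k (tay g w)) ((k + 1) * PowerSeries.coeff (k + 1) (tay g z)) z := by
  have h0 : AnalyticAt ℂ (iteratedDeriv k g) z := by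
    rw [iteratedDeriv_eq_iterate]; exact hg.iterated_deriv k
  have h5 : (k.factorial : ℂ) ≠ 0 := by exact_mod_cast k.factorial_ne_zero
  have h6 : ((k : ℂ) + 1) ≠ 0 := by exact_mod_cast k.succ_ne_zero
  simp only [coeff_tay]
  refine (h0.differentiableAt.hasDerivAt.div_const _).congr_deriv ?_
  rw [iteratedDeriv_succ, Nat.factorial_succ]
  push_cast
  field_simp

theorem sum_shift {F G H : ℕ → ℂ} {k : ℕ} {c : ℂ} (h1 : ∀ r < k, F (r + 1) + G r = c * H (r + 1))
    (h2 : G k = c * H (k + 1)) (h3 : F 0 = c * H 0) :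
    ∑ r ∈ range (k + 1), (F r + G r) = c * ∑ r ∈ range (k + 1 + 1), H r := by
  rw [sum_add_distrib, sum_range_succ' F, sum_range_succ G, sum_range_succ' H, sum_range_succ,
    add_add_add_comm, ← sum_add_distrib, sum_congr rfl fun r hr => h1 r (mem_range.1 hr), ← mul_sum,
    h2, h3]
  ring

theorem coeff_inv {V : Set ℂ} (hV : IsOpen V) {ρ ψ : ℂ → ℂ} {α : ℚ} (h : ∀ z ∈ V, z ≠ 0 ∧
    HasDerivAt ρ (α * z⁻¹ * ρ z) z ∧ AnalyticAt ℂ ψ z⁻¹) (k : ℕ) : ∀ z ∈ V,
      PowerSeries.coeff k (tay (fun z => ρ z * ψ z⁻¹) z) = ρ z * ∑ r ∈ range (k + 1), (-1) ^ r *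
        ((bp (k - r)).eval (α - r) : ℚ) * (z⁻¹ ^ (k + r) * PowerSeries.coeff r (tay ψ z⁻¹)) := by
  induction k with
  | zero => simp [bp_zero]
  | succ k ih =>
    intro z hz
    obtain ⟨z0, h1, h2⟩ := h z hz
    have ha : AnalyticAt ℂ (fun z => ρ z * ψ z⁻¹) z := (analyticAt_of_eventually
      (mem_of_superset (hV.mem_nhds hz) fun w hw => (h w hw).2.1.differentiableAt)).fun_mul
        (h2.comp (analyticAt_inv z0))
    have h3 := hasDerivAt_inv z0
    have h4 := (der_coeff ha k).unique ((h1.fun_mul (HasDerivAt.fun_sum fun r _ =>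
      ((h3.fun_pow (k + r)).fun_mul ((der_coeff h2 r).comp z h3)).const_mul _)).congr_of_eventuallyEq
        (mem_of_superset (hV.mem_nhds hz) ih))
    have h6 : ((k : ℂ) + 1) ≠ 0 := by exact_mod_cast k.succ_ne_zero
    refine mul_left_cancel₀ h6 (h4.trans ?_)
    rw [← inv_pow]
    simp only [Function.comp]
    generalize z⁻¹ = u
    generalize (fun r => PowerSeries.coeff r (tay ψ u)) = c at *
    have e : ∀ m : ℕ, (m : ℂ) * u ^ (m - 1) * -u ^ 2 = -(m * u ^ (m + 1)) := fun m => by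
      rcases m with _ | m
      · simp
      · rw [add_tsub_cancel_right]; ring
    simp only [e, mul_add, sum_add_distrib]
    rw [mul_comm _ (ρ z), mul_assoc, mul_assoc, ← mul_add, ← mul_add, mul_left_comm _ (ρ z), ← mul_assoc,
      ← add_assoc, mul_sum, ← sum_add_distrib, ← sum_add_distrib]
    refine congrArg _ (sum_shift (fun r hr => ?_) ?_ ?_)
    · obtain ⟨m, rfl⟩ := Nat.exists_eq_add_of_lt hr
      have a1 := bp_pascal m (α - (r + 1 : ℕ))
      have a2 := bp_succ m (α - (r + 1 : ℕ))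
      rw [show r + m + 1 - (r + 1) = m by omega, show r + m + 1 - r = m + 1 by omega,
        show r + m + 1 + 1 - (r + 1) = m + 1 by omega,
        show α - r = α - (r + 1 : ℕ) + 1 by push_cast; ring, a1, a2]
      have : ((m : ℂ) + 1) ≠ 0 := by exact_mod_cast m.succ_ne_zero
      push_cast
      field_simp
      ring
    · simp only [tsub_self, bp_zero, eval_one]
      ring
    · simp only [tsub_zero, bp_succ]
      push_cast
      field_simp
      ring

/-- integral Laurent polynomial functions on `V` -/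
def LZ (V : Set ℂ) : Subring (ℂ → ℂ) where
  carrier := {F | ∃ (N : ℕ) (p : ℤ[X]), ∀ z ∈ V, aeval z p = z ^ N * F z}
  add_mem' := fun ⟨N, H, h⟩ ⟨N', H', h'⟩ => ⟨N + N', X ^ N' * H + X ^ N * H', fun p hp => by
    simp [h p hp, h' p hp]; ring⟩
  mul_mem' := fun ⟨N, H, h⟩ ⟨N', H', h'⟩ => ⟨N + N', H * H', fun p hp => by
    simp [h p hp, h' p hp]; ring⟩
  one_mem' := ⟨0, 1, by simp⟩
  zero_mem' := ⟨0, 0, by simp⟩
  neg_mem' := fun ⟨N, H, h⟩ => ⟨N, -H, fun p hp => by simp [h p hp]⟩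

theorem LZ.inv {V : Set ℂ} (h : ∀ z ∈ V, z ≠ 0) (q : ℤ[X]) : (fun z : ℂ => aeval z⁻¹ q) ∈ LZ V := by
  have : (fun z : ℂ => z⁻¹) ∈ LZ V := ⟨1, 1, fun p hp => by simp [h p hp]⟩
  induction q using Polynomial.induction_on with
  | C a => exact ⟨0, C a, by simp⟩
  | add p q hp hq => simp only [map_add]; exact add_mem hp hq
  | monomial n a h => simp only [pow_succ, ← mul_assoc, map_mul (aeval _) _ X, aeval_X]; exact mul_mem h this

theorem LZ.pol {V : Set ℂ} (q : ℤ[X]) : (fun z : ℂ => aeval z q) ∈ LZ V := ⟨0, q, by simp⟩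

theorem LZ.sum {V : Set ℂ} {α : Type*} {s : Finset α} {F : α → ℂ → ℂ} (h : ∀ a, F a ∈ LZ V) :
    (fun z => ∑ a ∈ s, F a z) ∈ LZ V := Finset.sum_fn s F ▸ sum_mem fun a _ => h a

theorem LZ.int {V : Set ℂ} (hV : V.Infinite) {q : ℚ[X]} {F : ℂ → ℂ} (h : F ∈ LZ V)
    (e : ∀ z ∈ V, F z = aeval z q) (l : ℕ) : ∃ y : ℤ, q.coeff l = y := by
  obtain ⟨N, p, hp⟩ := h
  have : (q * X ^ N).map (algebraMap ℚ ℂ) = p.map (algebraMap ℤ ℂ) :=
    eq_of_infinite_eval_eq _ _ (hV.mono fun z hz => by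
      simp only [Set.mem_setOf, eval_map_algebraMap, hp z hz, e z hz, map_mul, map_pow, aeval_X, mul_comm])
  have := congrArg (·.coeff (l + N)) this
  simp only [coeff_map, coeff_mul_X_pow, eq_ratCast, eq_intCast] at this
  exact ⟨_, by exact_mod_cast this⟩

theorem exists_int {ν : Type*} [Fintype ν] (G : Matrix ν ν ℚ[X]) : ∃ (c : ℤ) (G' : Matrix ν ν ℤ[X]),
    c ≠ 0 ∧ ∀ z : ℂ, G'.map (aeval z) = (c : ℂ) • G.map (aeval z) := by
  classical
  choose b b0 hb using fun p : ν × ν =>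
    IsLocalization.integerNormalization_spec (nonZeroDivisors ℤ) (G p.1 p.2)
  refine ⟨∏ p, b p, of fun i j => C (∏ p ∈ univ.erase (i, j), b p) *
    IsLocalization.integerNormalization (nonZeroDivisors ℤ) (G i j),
    prod_ne_zero_iff.2 fun p _ => nonZeroDivisors.ne_zero (b0 p), fun z => ?_⟩
  ext i j
  rw [map_apply, of_apply, map_mul, ← aeval_map_algebraMap ℚ z (IsLocalization.integerNormalization _ _),
    hb (i, j), ← prod_erase_mul _ _ (mem_univ (i, j))]
  simp [mul_assoc]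

theorem galK_inf {n : ℕ} (hn : 0 < n) {fz : ℤ[X]} (hf : fz.natDegree ≤ n) {T : ℚ[X]}
    (T0 : T.coeff 0 ≠ 0) {B G G' : Matrix (Fin n) (Fin n) ℚ[X]} {a : ℕ}
    (hG : G' * G = (X ^ a : ℚ[X]) • 1) {b : ℤ} (b0 : b ≠ 0) {V : Set ℂ} (hV : IsOpen V)
    (V0 : V.Nonempty) {ρ : ℂ → ℂ} {ψ : ℂ → Matrix (Fin n) (Fin n) ℂ} (h : ∀ z ∈ V, z ≠ 0 ∧
      aeval z T ≠ 0 ∧ aeval z⁻¹ (hT fz) = b * z⁻¹ ^ (n + 1) * aeval z T ∧ ρ z ≠ 0 ∧
      HasDerivAt ρ ((-1 / 2 : ℚ) * z⁻¹ * ρ z) z ∧ IsUnit (ψ z⁻¹).det ∧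
      (∀ᶠ t in 𝓝 z⁻¹, MSol (hA fz n) ψ t) ∧
      MSol (Az (X * T) B) (fun z => ρ z • (G.map (aeval z) * ψ z⁻¹)) z) : GalK (X * T) B := by
  obtain ⟨c1, Gz, c10, hz⟩ := exists_int G
  obtain ⟨c2, Gz', c20, hz'⟩ := exists_int G'
  obtain ⟨c, u, c0, hu, hc⟩ := exists_inv T0
  obtain ⟨g, g1, g2⟩ := exists_deg (X * T) B
  choose N hN using fun m k => rep_coeff (f := fz) hn hf m k
  have v0 : ∀ z ∈ V, z ≠ 0 := fun z hz => (h z hz).1
  have key : ∀ k i j l, ∃ y : ℤ, (C ((4 ^ k * (4 ^ k * Nat.lcmUpto (2 * k) * 2 ^ (k + n)) *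
      b ^ (k + 2 * n) * (c1 * c2) : ℤ) / k.factorial : ℚ) * T ^ (2 * n) * iterK (X * T) B k i j).coeff l =
        y := fun k i j => by
    choose w hw using fun r m : ℕ => bp_half (-r) m
    have hD : ∀ r, ∃ y : ℤ, r ≤ k → (4 ^ k * Nat.lcmUpto (2 * k) * 2 ^ (k + n) : ℤ) =
        4 ^ r * Nat.lcmUpto (2 * r) * 2 ^ (r + n) * y := fun r => by
      by_cases e : r ≤ k
      · obtain ⟨y, hy⟩ := mul_dvd_mul (mul_dvd_mul (pow_dvd_pow (4 : ℤ) e) (Int.natCast_dvd_natCast.2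
          (lcm_mono (Nat.mul_le_mul_left 2 e)))) (pow_dvd_pow (2 : ℤ) (Nat.add_le_add_right e n))
        exact ⟨y, fun _ => hy⟩
      · exact ⟨0, fun h => absurd h e⟩
    choose y hy using hD
    obtain ⟨S, hS⟩ : ∃ S : ℂ → Matrix (Fin n) (Fin n) ℂ, S = fun z => of fun i l => ∑ m,
      ∑ p ∈ antidiagonal k, ∑ r ∈ range (p.2 + 1), aeval z (hasseDeriv p.1 (Gz i m)) * aeval z⁻¹
        (C ((-1) ^ r * 4 ^ (k - (p.2 - r)) * w r (p.2 - r) * y r) * X ^ (p.2 + r) * hT fz ^ (k - r) *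
          N r m l) := ⟨_, rfl⟩
    refine LZ.int (infinite_of_mem_nhds _ (hV.mem_nhds V0.some_mem))
      (F := fun z => aeval z⁻¹ (X ^ a : ℤ[X]) * aeval z (X ^ (k + (n + 1) * (k + 2 * n)) : ℤ[X]) *
        ∑ l, S z i l * aeval z (Gz' l j)) (mul_mem (mul_mem (LZ.inv v0 _) (LZ.pol _))
          (LZ.sum fun l => mul_mem (show (S · i l) ∈ _ by
          simp only [hS, of_apply]
          exact LZ.sum fun m => LZ.sum fun p => LZ.sum fun r => mul_mem (LZ.pol _) (LZ.inv v0 _))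
            (LZ.pol _))) fun z hz0 => ?_
    obtain ⟨a1, a2, a3, a4, a5, a6, a7, a8⟩ := h z hz0
    have n1 := hV.mem_nhds hz0
    have a9 : ∀ m j, AnalyticAt ℂ (ψ · m j) z⁻¹ := fun m j =>
      analyticAt_of_eventually (a7.mono fun _ h => (h m j).differentiableAt)
    have e1 : S z * ψ z⁻¹ = ((4 ^ k * (4 ^ k * Nat.lcmUpto (2 * k) * 2 ^ (k + n)) : ℤ) *
        aeval z⁻¹ (hT fz) ^ (k + 2 * n) * c1 / (aeval z (X * T) ^ k * k.factorial)) •
          ((iterK (X * T) B k).map (aeval z) * G.map (aeval z) * ψ z⁻¹) := by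
      ext i j
      have d1 := (iterK_eq (by simp [a1, a2]) (mem_of_superset n1 fun w hw =>
        (h w hw).2.2.2.2.2.2.2.col j) k i).self_of_nhds
      have d2 : ∀ m, AnalyticAt ℂ (fun z => ρ z * ψ z⁻¹ m j) z := fun m => (analyticAt_of_eventually
        (mem_of_superset n1 fun w hw => (h w hw).2.2.2.2.1.differentiableAt)).fun_mul
          ((a9 m j).comp (analyticAt_inv a1))
      have d3 : tay (fun w => c1 * (ρ w • (G.map (aeval w) * ψ w⁻¹)) i j) z =
          ∑ m, tay (fun w => aeval w (Gz i m)) z * tay (fun w => ρ w * ψ w⁻¹ m j) z := by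
        rw [← sum_congr rfl fun m _ => tay_mul (analyticAt_aeval _ _) (d2 m),
          ← tay_sum _ fun m _ => (analyticAt_aeval _ _).fun_mul (d2 m)]
        congr 1
        ext w
        have := fun m => congrFun₂ (hz w) i m
        simp only [map_apply, Matrix.smul_apply, smul_eq_mul] at this
        simp [mul_apply, mul_sum, this, mul_assoc, mul_left_comm]
      replace d3 := congrArg (PowerSeries.coeff k) d3
      rw [tay_cmul (analyticAt_of_eventually (mem_of_superset n1 fun w hw =>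
        ((h w hw).2.2.2.2.2.2.2 i j).differentiableAt)), PowerSeries.coeff_C_mul, coeff_tay,
        eq_div_of_mul_eq (pow_ne_zero k (by simp [a1, a2])) ((mul_comm _ _).trans d1), map_sum] at d3
      have d4 := fun m q => coeff_inv hV (ψ := (ψ · m j)) (fun w hw => ⟨(h w hw).1, (h w hw).2.2.2.2.1,
        analyticAt_of_eventually ((h w hw).2.2.2.2.2.2.1.mono fun _ h => (h m j).differentiableAt)⟩) q z hz0
      simp only [PowerSeries.coeff_mul, d4, ← mul_apply, Matrix.mul_smul, Matrix.smul_apply,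
        smul_eq_mul, ← mul_sum, mul_left_comm _ (ρ z)] at d3
      rw [Matrix.smul_apply, smul_eq_mul, Matrix.mul_assoc]
      refine mul_left_cancel₀ a4 ?_
      have d5 : ∀ (q : ℤ[X]) m, PowerSeries.coeff m (tay (fun w => aeval w q) z) =
          aeval z (hasseDeriv m q) := fun q m => by
        simp only [← eval_map_algebraMap]
        rw [tay_poly, Polynomial.coeff_coe, taylor_coeff]
        congr 1
        ext; simp [hasseDeriv_coeff]
      refine Eq.trans ?_ (((congrArg (((4 ^ k * (4 ^ k * Nat.lcmUpto (2 * k) * 2 ^ (k + n)) : ℤ) : ℂ) *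
        aeval z⁻¹ (hT fz) ^ (k + 2 * n) * ·) d3).symm).trans (by simp only [mul_apply, map_apply]; ring))
      rw [mul_left_comm _ (ρ z), hS, mul_apply]
      simp only [of_apply, sum_mul, mul_sum, d5]
      rw [sum_comm]
      refine sum_congr rfl fun m _ => sum_comm.trans (sum_congr rfl fun p hp => sum_comm.trans
        (sum_congr rfl fun r hr => ?_))
      have d6 := mem_antidiagonal.1 hp
      have d7 := mem_range.1 hr
      have d8 := hN r m z⁻¹ (fun s i => ψ s i j) ⟨by simp [a1, a2, a3, b0], a7.mono fun _ h => h.col j⟩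
      have d9 := congrArg (Rat.cast : ℚ → ℂ) (hw r (p.2 - r))
      rw [hy r (by omega), show k + 2 * n = k - r + (r + 2 * n) by omega,
        show (-1 / 2 - r : ℚ) = (-r : ℤ) - 1 / 2 by push_cast; ring, show (4 : ℤ) ^ k =
          4 ^ (k - (p.2 - r)) * 4 ^ (p.2 - r) by rw [← pow_add, Nat.sub_add_cancel (by omega)]]
      simp only [map_mul, mul_assoc, ← mul_sum, ← d8]
      simp only [eq_intCast, map_pow, aeval_X, map_intCast]
      push_cast at d9 ⊢
      rw [← d9]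
      ring
    have e2 := congrArg (fun W => (W * (ψ z⁻¹)⁻¹ * Gz'.map (aeval z)) i j) e1
    have e3 : G.map (aeval z) * G'.map (aeval z) = z ^ a • 1 := by
      have := congrArg (fun W => (z ^ a)⁻¹ • W.map (aeval (R := ℚ) z).toRingHom) hG
      simp only [Matrix.map_mul, ← smul_mul_assoc] at this
      rw [← inv_smul_eq_iff₀ (pow_ne_zero a a1), ← Matrix.mul_smul, mul_eq_one_comm]
      refine this.trans ?_
      ext i j; by_cases e : i = j <;> simp [e, a1, one_apply]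
    simp only [smul_mul_assoc, mul_nonsing_inv_cancel_right _ _ a6] at e2
    rw [Matrix.mul_assoc, hz', Matrix.mul_smul (G.map _), e3, ← hz', mul_apply] at e2
    have h5 : (k.factorial : ℂ) ≠ 0 := by exact_mod_cast k.factorial_ne_zero
    simp only [map_apply] at e2
    simp only [e2, a3, Matrix.mul_smul, Matrix.smul_apply, Matrix.mul_one, map_apply, smul_eq_mul,
      map_mul, map_pow, aeval_X, aeval_C, eq_ratCast, mul_pow, inv_pow, ← pow_mul]
    push_cast
    field_simp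
    ring
  obtain ⟨A, hA⟩ : ∃ A : ℤ, A = 4 * 4 * 2 ^ (1 + n) * b ^ (1 + 2 * n) * (c1 * c2) * c ^ (g + 2 * n) :=
    ⟨_, rfl⟩
  refine ⟨Real.exp (2 * (Real.log 4 + 4)) * A.natAbs, fun m => ⟨Nat.lcmUpto (2 * m) * A.natAbs ^ (m + 1),
    Nat.mul_pos (Nat.lcmUpto_pos _) (pow_pos (Int.natAbs_pos.2 (by rw [hA]; positivity)) _), ?_,
    fun k hk i j l => ?_⟩⟩
  · rw [mul_pow, Nat.cast_mul, Nat.cast_pow]
    gcongr
    exact (lcm_le m).trans (pow_le_pow_right₀ (Real.one_le_exp (by positivity)) m.le_succ)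
  by_cases e : k * g < l
  · rw [coeff_eq_zero_of_natDegree_lt ((deg_iter g1 g2 k i j).trans_lt e), mul_zero, zero_div]
    exact isIntegral_zero
  obtain ⟨y, hy⟩ := mul_mem (pow_mem hc (2 * n)) (show τ1 0 _ ∈ Dn c from fun l =>
    let ⟨y, hy⟩ := key k i j l
    ⟨c ^ l * y, by rw [τ1_zero, Polynomial.coeff_coe, hy]; simp⟩) l
  rw [map_mul (τ1 0), map_mul (τ1 0), map_pow (τ1 0), mul_pow, mul_assoc (τ1 0 (C _)), mul_left_comm _ (τ1 0 (C _)), mul_assoc _ (u ^ _),
    ← mul_assoc (u ^ _), ← mul_pow, hu, one_pow, one_mul, τ1_zero, τ1_zero, coe_C,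
    ← map_intCast (PowerSeries.C : ℚ →+* _), ← map_pow PowerSeries.C, PowerSeries.coeff_C_mul, PowerSeries.coeff_C_mul,
    Polynomial.coeff_coe] at hy
  have p1 : ∀ (x : ℤ) (e e' s : ℕ), s ≤ k * e + e' → x ^ s ∣ (x ^ (e + e')) ^ (m + 1) := fun x e e' s h =>
    by rw [← pow_mul]; exact pow_dvd_pow _ (by nlinarith [Nat.mul_le_mul_right e hk])
  obtain ⟨y', hy'⟩ : 4 ^ k * (4 ^ k * Nat.lcmUpto (2 * k) * 2 ^ (k + n)) * b ^ (k + 2 * n) * (c1 * c2) *
      c ^ (l + 2 * n) ∣ (Nat.lcmUpto (2 * m) * A.natAbs ^ (m + 1) : ℕ) := by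
    rw [Nat.cast_mul, Nat.cast_pow]
    refine dvd_trans ?_ (mul_dvd_mul_left _ (pow_dvd_pow_of_dvd (Int.dvd_natAbs.2 dvd_rfl) _))
    have p2 := pow_dvd_pow (4 : ℤ) (hk.trans m.le_succ)
    convert mul_dvd_mul (Int.natCast_dvd_natCast.2 (lcm_mono (Nat.mul_le_mul_left 2 hk))) (mul_dvd_mul
      (mul_dvd_mul (mul_dvd_mul (mul_dvd_mul (mul_dvd_mul p2 p2) (p1 2 1 n (k + n) (by omega)))
      (p1 b 1 (2 * n) (k + 2 * n) (by omega))) (dvd_pow_self (c1 * c2) m.succ_ne_zero))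
      (p1 c g (2 * n) (l + 2 * n) (by omega))) using 1
    · ring
    · simp only [hA, mul_pow]
  have := congrArg (Int.cast : ℤ → ℚ) hy'
  rw [Int.cast_natCast] at this
  convert isIntegral_algebraMap (x := y * y') (A := ℚ)
  rw [this, eq_intCast, Int.cast_mul y, ← hy]
  push_cast
  ring

end

end Pool.Agent.Lib.MP_5591bc_ag.R
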