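import Pool.Agent.Lib.MP_5591bc_ag.SGal

/-! The degree `δ` property of `y^2 = f(x)(x - t)` at integers near `S`-units. -/

namespace Pool.Agent.Lib.MP_5591bc_ag.R

open Matrix Finset Filter Topology G Function Metric Polynomial Complex

noncomputable section

variable {f : ℚ[X]} {n : ℕ}

theorem aeval_reflect {p : ℚ[X]} {N : ℕ} (h : p.natDegree ≤ N) {z t : ℂ} (e : z * t = 1) :
    aeval z (reflect N p) * t ^ N = aeval t p := by
  have t0 : t ≠ 0 := right_ne_zero_of_mul_eq_one e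
  letI := invertibleOfNonzero t0
  rw [aeval_def, aeval_def, ← eval₂_reflect_mul_pow _ t N p h, invOf_eq_inv, eq_inv_of_mul_eq_one_left e]

variable (f n) in
/-- the system at infinity before shearing -/
def iB : Matrix (Fin n) (Fin n) ℚ[X] :=
  -(((1 / 2 : ℚ) • reflect n (2 * f)) • 1) - (oB f n).map (reflect (n - 1))

theorem hat_msol (hn : 0 < n) (hf : f.natDegree ≤ n) {g B : Matrix (Fin n) (Fin n) ℚ[X]}
    (hg : Gauge (reflect n (2 * f)) (iB f n) g B) {P A : ℂ → Matrix (Fin n) (Fin n) ℂ}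
    {τ φ ρ : ℂ → ℂ} {s a : ℂ} (e : φ s * τ s = 1) (h0 : aeval (τ s) (2 * f) ≠ 0)
    (hP : MSol (Az (2 * f) (oB f n)) P (τ s)) (hτ : HasDerivAt τ (-a * τ s) s)
    (hφ : HasDerivAt φ (a * φ s) s) (hρ : HasDerivAt ρ (-1 / 2 * a * ρ s) s)
    (hA : A s = a • Az (reflect n (2 * f)) B (φ s)) :
    MSol A (fun s => ρ s • (g.map (aeval (φ s)) * P (τ s))) s := by
  have h1 := aeval_reflect (p := 2 * f) ((natDegree_C_mul_le 2 f).trans hf) e
  have h2 : aeval (φ s) (reflect n (2 * f)) ≠ 0 := fun h => h0 (by rw [← h1, h, zero_mul])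
  simp only [← Matrix.mul_smul]
  refine hg.msol h2 hφ (A := fun s => a • Az (reflect n (2 * f)) (iB f n) (φ s)) rfl hA fun i j => ?_
  refine (hρ.fun_mul ((hP i j).comp s hτ)).congr_deriv ?_
  have h3 : Az (reflect n (2 * f)) (iB f n) (φ s) = -((1 / 2 : ℂ) • 1) - τ s • Az (2 * f) (oB f n) (τ s) := by
    ext i j
    have t0 : τ s ≠ 0 := right_ne_zero_of_mul_eq_one e
    obtain ⟨m, rfl⟩ : ∃ m, n = m + 1 := ⟨n - 1, by omega⟩
    simp only [Az, iB, of_apply, Matrix.sub_apply, Matrix.neg_apply, Matrix.smul_apply, map_apply,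
      map_sub, map_neg, smul_eq_mul, ← aeval_reflect (oB_deg i j).1 e, ← h1, one_apply, map_mul (aeval _)
      (_ • _), map_smul, apply_ite (aeval (φ s)), map_one, map_zero, Rat.smul_def, add_tsub_cancel_right]
    push_cast
    field_simp
    ring
  beta_reduce
  rw [h3, smul_mul_assoc, Matrix.sub_mul, Matrix.neg_mul, smul_mul_assoc, smul_mul_assoc,
    Matrix.one_mul, Matrix.mul_smul]
  simp only [Matrix.smul_apply, Matrix.sub_apply, Matrix.neg_apply, smul_eq_mul, Function.comp]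
  ring

theorem exists_seg {p : ℚ[X]} (h : aeval (0 : ℂ) p ≠ 0) (r : ℝ) (r0 : 0 < r) :
    ∃ t : ℂ, r ≤ ‖t‖ ∧ ∀ a ∈ segment ℝ 0 t, aeval a p ≠ 0 := by
  have p0 : p ≠ 0 := fun e => h (by simp [e])
  obtain ⟨τ, hτ⟩ := ((p.rootSet_finite ℂ).image fun a => a.im / a.re).infinite_compl.nonempty
  refine ⟨⟨r, r * τ⟩, re_le_norm ⟨r, r * τ⟩, ?_⟩
  rintro _ ⟨a, b, -, -, -, rfl⟩ e
  refine hτ ⟨_, mem_rootSet.2 ⟨p0, e⟩, ?_⟩
  have : b ≠ 0 := fun e' => h (by simpa [e'] using e)
  simp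
  field_simp

theorem precon {D : Set ℂ} (hD : Convex ℝ D) {ε : ℝ} (ε0 : 0 < ε) (h : ball 0 ε ⊆ D) :
    IsPreconnected (exp ⁻¹' D) := by
  refine isPreconnected_of_forall ((Real.log ε - 1 : ℝ) : ℂ) fun y hy =>
    ⟨{s | s.re < Real.log ε} ∪ (fun u : ℝ => y - u) '' Set.Ici 0, ?_, Or.inl (by simp),
      Or.inr ⟨0, Set.self_mem_Ici, by simp⟩, (convex_halfSpace_re_lt _).isPreconnected.union
        (y - (|y.re - Real.log ε| + 1 : ℝ)) ?_ ⟨_, Set.mem_Ici.2 (by positivity), rfl⟩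
        (isPreconnected_Ici.image _ (by fun_prop))⟩
  · rintro s (hs | ⟨u, hu, rfl⟩)
    · exact h (by rwa [mem_ball_zero_iff, norm_exp, ← Real.lt_log_iff_exp_lt ε0])
    · have := hD.smul_mem_of_zero_mem (h (mem_ball_self ε0)) hy (t := Real.exp (-u))
        ⟨(Real.exp_pos _).le, Real.exp_le_one_iff.2 (neg_nonpos.2 hu)⟩
      simpa [sub_eq_add_neg, Complex.exp_add, mul_comm] using this
  · have := le_abs_self (y.re - Real.log ε)
    simp only [Set.mem_setOf, sub_re, ofReal_re]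
    linarith

theorem det_gauge {ν : Type*} [Fintype ν] [DecidableEq ν] {g g' : Matrix ν ν ℚ[X]} {a : ℕ}
    (h : g' * g = (X ^ a : ℚ[X]) • 1) {z : ℂ} (z0 : z ≠ 0) : (g.map (aeval z)).det ≠ 0 := by
  have := congrArg (fun W => aeval z W.det) h
  simp only [det_mul, det_smul, det_one, map_mul, map_pow, aeval_X, map_one] at this
  rw [← AlgHom.mapMatrix_apply, ← AlgHom.map_det]
  exact fun e => pow_ne_zero _ (pow_ne_zero _ z0) (by rw [← mul_one (_ ^ _), ← this, e, mul_zero])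

theorem mon (hn : 0 < n) (hf : f.natDegree ≤ n) (h0 : f.eval 0 ≠ 0) {a : ℕ}
    {g g' B : Matrix (Fin n) (Fin n) ℚ[X]} (hg : Gauge (reflect n (2 * f)) (iB f n) g B)
    (h : g' * g = (X ^ a : ℚ[X]) • 1) : Mon (reflect n (2 * f)) B := fun r r0 => by
  obtain ⟨t, t1, t2⟩ := exists_seg (p := 2 * f) (by
    rw [← Rat.cast_zero, aeval_rat]; simpa using h0) (2 / r) (by positivity)
  have t0 : 0 < ‖t‖ := lt_of_lt_of_le (by positivity) t1
  have hK : IsCompact (segment ℝ 0 t) := segment_eq_image ℝ 0 t ▸ isCompact_Icc.image (by fun_prop)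
  obtain ⟨ε, ε0, hε⟩ := hK.exists_cthickening_subset_open (isOpen_ne_fun (2 * f).continuous_aeval
    continuous_const) t2
  obtain ⟨c, hc⟩ := (hK.cthickening (r := ε)).exists_bound_of_continuousOn
    (f := fun t => (fun i j => Az (2 * f) (oB f n) t i j : Fin n → Fin n → ℂ))
    (continuousOn_pi.2 fun i => continuousOn_pi.2 fun j => (Hol.Az hε i j).continuousOn)
  have h1 := thickening_subset_cthickening ε (segment ℝ 0 t)
  have h2 := self_subset_thickening ε0 _ (right_mem_segment ℝ 0 t)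
  obtain ⟨Φ, Φ0, hΦ⟩ := exists_msol ((convex_segment 0 t).thickening ε) isOpen_thickening h2
    ((Hol.Az hε).mono h1) (c := c) (fun t ht i j => ((norm_le_pi_norm _ j).trans
      (norm_le_pi_norm (fun i j => Az (2 * f) (oB f n) t i j) i)).trans (hc t (h1 ht)))
    ((norm_nonneg _).trans (hc t (h1 h2)))
  have h3 : exp (log t) = t := exp_log (norm_pos_iff.1 t0)
  have h4 := isOpen_thickening (δ := ε) (E := segment ℝ 0 t) |>.preimage continuous_exp
  have h5 : ∀ s ∈ exp ⁻¹' thickening ε (segment ℝ 0 t), MSol (fun s => (-1 : ℂ) • Az (reflect n (2 * f))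
      B (exp (-s))) (fun s => exp (s / 2) • (g.map (aeval (exp (-s))) * Φ (exp s))) s := fun s hs =>
    hat_msol hn hf hg (φ := fun s => exp (-s)) (by rw [← Complex.exp_add]; simp) (hε (h1 hs)) (hΦ _ hs).1
      ((hasDerivAt_exp s).congr_deriv (by simp)) ((hasDerivAt_neg s).cexp.congr_deriv (mul_comm _ _))
      (((hasDerivAt_id s).div_const 2).cexp.congr_deriv (by simp; ring)) rfl
  have h6 : log t ∈ exp ⁻¹' thickening ε (segment ℝ 0 t) := by rwa [Set.mem_preimage, h3]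
  refine ⟨_, log t, _, h4, precon ((convex_segment 0 t).thickening ε) ε0
    (ball_subset_thickening (left_mem_segment ℝ 0 t) ε), h6, by
      rwa [Set.mem_preimage, exp_periodic, h3], ?_, hol_of_msol h5, ?_,
    mem_of_superset (h4.mem_nhds h6) h5, fun s => ?_⟩
  · rw [Complex.exp_neg, h3, norm_inv, inv_lt_comm₀ t0 r0]
    exact lt_of_lt_of_le (by rw [div_eq_mul_inv]; linarith [inv_pos.2 r0]) t1
  · rw [h3, Φ0, Matrix.mul_one, det_smul]
    exact (mul_ne_zero (pow_ne_zero _ (exp_ne_zero _)) (det_gauge h (exp_ne_zero _))).isUnit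
  · rw [exp_periodic, Complex.exp_neg, exp_periodic, ← Complex.exp_neg, add_div,
      show 2 * Real.pi * I / 2 = Real.pi * I by ring, exp_add_pi_mul_I, neg_smul]

theorem smooth0 (hn : 0 < n) (he : Even n) (hf : f.natDegree = n) (h0 : f.eval 0 ≠ 0)
    {S : Finset ℕ} (hS : ∀ p ∈ S, p.Prime) (δ : ℕ) {R : ℝ} {P : ℂ → Matrix (Fin n) (Fin n) ℂ}
    (hP : IsPeriodMatrix f {t | R < t.re} P) :
    {t : ℕ | (∃ v : ℕ → ℕ, t = ∏ p ∈ S, p ^ v p) ∧ ¬ AGood P δ t}.Finite := by
  have f0 : f ≠ 0 := fun e => h0 (by simp [e])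
  have f1 : f.coeff n ≠ 0 := hf ▸ leadingCoeff_ne_zero.2 f0
  have f2 : (reflect n (2 * f)).coeff 0 = 2 * f.coeff n := by simp [coeff_reflect]
  have f3 : (2 * f).natDegree ≤ n := (natDegree_C_mul_le 2 f).trans hf.le
  obtain ⟨k, hk⟩ := he
  obtain ⟨g, g', B, a, M, g1, g2, g3, g4⟩ := shear (T := reflect n (2 * f)) (by simp [f2, f1]) k
    (B := iB f n) (N := 1) (R := of fun i j => if (i : ℕ) = n - 1 then
      -(derivative f).coeff j / (2 * f.coeff n) else 0) (by
      ext i j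
      simp only [iB, map_apply, Matrix.sub_apply, Matrix.neg_apply, Matrix.smul_apply, coeff_sub,
        coeff_neg, coeff_reflect, revAt_zero, (oB_deg i j).2, one_apply, of_apply, smul_eq_mul, mul_ite,
        mul_one, mul_zero, apply_ite (coeff · 0), coeff_smul, f2, coeff_zero]
      split_ifs <;> field_simp <;> ring) (by
      rw [pow_one, pow_one, Matrix.mul_add, ← nsmul_eq_mul']
      ext i j
      have : ∀ l : Fin n, (l : ℕ) = n - 1 ↔ l = ⟨n - 1, by omega⟩ := fun l => by rw [Fin.ext_iff]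
      simp only [Matrix.add_apply, mul_apply, of_apply, this,
        mul_ite, mul_zero, sum_ite_eq', mem_univ, if_true, Matrix.smul_apply, coeff_derivative,
        show n - 1 + 1 = n by omega, Nat.cast_pred hn, Matrix.zero_apply]
      split_ifs
      · rw [show (n : ℚ) = k + k by exact_mod_cast hk, nsmul_eq_mul]
        field_simp
        ring
      · simp)
  obtain ⟨b, hb, hfz⟩ := IsLocalization.integerNormalization_spec (nonZeroDivisors ℤ) f
  obtain ⟨fz, hz⟩ : ∃ fz, fz = IsLocalization.integerNormalization (nonZeroDivisors ℤ) f := ⟨_, rfl⟩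
  have b0 : b ≠ 0 := nonZeroDivisors.ne_zero hb
  have b1 : (b : ℂ) ≠ 0 := Int.cast_ne_zero.2 b0
  rw [← hz] at hfz
  have z1 : ∀ t : ℂ, aeval t fz = b * aeval t f := fun t => by
    rw [← aeval_map_algebraMap ℚ t fz, hfz]; simp
  have z2 : fz.natDegree ≤ n := by
    rw [← natDegree_map_eq_of_injective (algebraMap ℤ ℚ).injective_int, hfz, natDegree_smul _ b0, hf]
  obtain ⟨W, hW⟩ : ∃ W : Set ℂ, W = {t | 0 < t.re} ∩ ({t | R < t.re} ∩ {t | aeval t (2 * f) ≠ 0}) :=
    ⟨_, rfl⟩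
  have w1 : IsOpen W := hW ▸ (isOpen_lt continuous_const continuous_re).inter ((isOpen_lt
    continuous_const continuous_re).inter (isOpen_ne_fun (2 * f).continuous_aeval continuous_const))
  have w2 : ∀ t ∈ W, t ≠ 0 ∧ aeval t (hT fz) ≠ 0 := fun t ht => by
    rw [hW] at ht
    have : t ≠ 0 := fun e => by simpa [e] using ht.1
    exact ⟨this, by simpa [hT, z1, this, b0, map_ofNat] using ht.2.2⟩
  obtain ⟨c, hc⟩ : ∃ c, c = (gP n).map (eval 1) := ⟨_, rfl⟩
  have c1 : IsUnit c.det := by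
    have := det_gP n (t := (1 : ℚ)) (by simp)
    simp only [Ne, show (gP n).map (aeval ((1 : ℚ) : ℂ)) = (algebraMap ℚ ℂ).mapMatrix c by
      ext; simp [hc, ← aeval_rat], ← RingHom.map_det, map_eq_zero] at this
    exact Ne.isUnit this
  have c2 : gP n = c.map C * diagonal fun i : Fin n => X ^ (n - 1 - i) := by
    ext1 k i
    simp only [hc, mul_diagonal, map_apply, gP, of_apply, eval_mul, eval_pow, eval_X, eval_neg, one_pow,
      one_mul, eval_natCast, map_mul, map_pow, map_neg, map_one, map_natCast]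
    rcases le_or_gt (i : ℕ) (n - (k + 1)) with e | e
    · rw [show n - 1 - i = k + (n - (k + 1) - i) by omega, neg_pow (X : ℚ[X])]; ring
    · simp [Nat.choose_eq_zero_of_lt e]
  have c3 : c⁻¹.map (C : ℚ →+* ℚ[X]) * c.map C = 1 := by
    rw [← Matrix.map_mul, nonsing_inv_mul _ c1, Matrix.map_one _ (map_zero _) (map_one _)]
  refine core (by simp [f2, f1]) g3 g4 (galK_inf hn z2 (by simp [f2, f1]) (a := a + (n - 1))
    (G := g * (diagonal (fun i : Fin n => X ^ (n - 1 - i)) * c⁻¹.map C))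
    (G' := c.map C * diagonal (fun i : Fin n => X ^ (i : ℕ)) * g') ?_ b0 (V := {z | z⁻¹ ∈ W})
    (isOpen_iff_mem_nhds.2 fun z hz => (continuousAt_inv₀ fun e => (w2 _ hz).1
      (by simp [e])).preimage_mem_nhds (w1.mem_nhds hz)) ?_
    (ρ := fun z => exp (log z⁻¹ / 2)) (ψ := fun t => (gP n).map (aeval t) * P t) fun z hz => ?_)
    (mon hn hf.le h0 g2 g1) g1 hS δ (ρ := R) fun t t1 t2 t3 => ?_
  · rw [Matrix.mul_assoc, ← Matrix.mul_assoc g', g1, smul_mul_assoc, Matrix.one_mul, Matrix.mul_smul,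
      Matrix.mul_assoc, ← Matrix.mul_assoc (diagonal _), diagonal_mul_diagonal, pow_add, mul_smul,
      show (diagonal fun i : Fin n => (X : ℚ[X]) ^ (i : ℕ) * X ^ (n - 1 - i)) = (X ^ (n - 1) : ℚ[X]) • 1 by
        rw [← diagonal_one, ← diagonal_smul]
        exact congrArg _ (funext fun i => by
          simp [← pow_add, show i + (n - 1 - i) = n - 1 by omega]),
      smul_mul_assoc, Matrix.one_mul, Matrix.mul_smul, mul_eq_one_comm.1 c3]
  · obtain ⟨t, ht⟩ := (infinite_of_mem_nhds ((|R| + 1 : ℝ) : ℂ) (((isOpen_lt continuous_const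
      continuous_re).inter (isOpen_lt continuous_const continuous_re)).mem_nhds (show _ ∈ {t : ℂ | 0 < t.re} ∩
        {t | R < t.re} from ⟨by simp; positivity, by simp; linarith [le_abs_self R]⟩))).diff
      ((2 * f).rootSet_finite ℂ) |>.nonempty
    exact ⟨t⁻¹, by rw [Set.mem_setOf, inv_inv]; simpa [hW, mem_rootSet, f0, and_assoc] using ht⟩
  · obtain ⟨a1, a2⟩ := w2 _ hz
    have z0 : z ≠ 0 := fun e => a1 (by simp [e])
    have a3 := aeval_reflect f3 (mul_inv_cancel₀ z0)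
    have a4 := hW ▸ hz
    have a5 : HasDerivAt (fun z => exp (log z⁻¹ / 2)) (-1 / 2 * z⁻¹ * exp (log z⁻¹ / 2)) z :=
      (((hasDerivAt_inv z0).clog (Or.inl a4.1)).div_const 2).cexp.congr_deriv (by field_simp)
    refine ⟨z0, fun e => a4.2.2 (by rw [← a3, e, zero_mul]), ?_, exp_ne_zero _, by simpa using a5, ?_,
      mem_of_superset (w1.mem_nhds hz) fun t ht => hP.msol (inv_ne_zero b1) (fun t => by
        rw [z1, inv_mul_cancel_left₀ b1]) z2 (hW ▸ ht).2.1 (w2 t ht).2, ?_⟩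
    · rw [pow_succ, mul_assoc, mul_right_comm, mul_comm (_ ^ _), a3]
      simp [hT, z1, map_ofNat]
      ring
    · rw [det_mul]
      exact (mul_ne_zero (det_gP n a1) (hP _ a4.2.1).1).isUnit
    · refine (hat_msol hn hf.le g2 (φ := id) (τ := fun z => z⁻¹) (mul_inv_cancel₀ z0) a4.2.2
        (IsPeriodMatrix.om hP hf.le a4.2.1 a4.2.2) ((hasDerivAt_inv z0).congr_deriv (by ring))
        ((hasDerivAt_id z).congr_deriv (by simp [z0])) a5 (by
          ext; simp [Az, div_eq_inv_mul, mul_assoc, mul_left_comm])).congr ?_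
      filter_upwards [eventually_ne_nhds z0] with w hw
      have : (diagonal (fun i : Fin n => X ^ (n - 1 - i)) * c⁻¹.map C).map (aeval (R := ℚ) w) *
          (gP n).map (aeval w⁻¹) = 1 := by
        have e : ∀ (c : Matrix (Fin n) (Fin n) ℚ) (w : ℂ), (c.map C).map (aeval w) =
          c.map (algebraMap ℚ ℂ) := fun _ _ => by ext; simp
        rw [c2, ← AlgHom.mapMatrix_apply, ← AlgHom.mapMatrix_apply, map_mul, map_mul]
        simp only [AlgHom.mapMatrix_apply, e, diagonal_map (map_zero _), map_pow, aeval_X]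
        rw [Matrix.mul_assoc, ← Matrix.mul_assoc (Matrix.map _ _), ← Matrix.map_mul, nonsing_inv_mul _ c1]
        simp [← mul_pow, hw]
      rw [← AlgHom.mapMatrix_apply, map_mul, Matrix.mul_assoc, ← Matrix.mul_assoc _ _ (P _),
        AlgHom.mapMatrix_apply, AlgHom.mapMatrix_apply, this, Matrix.one_mul]
      rfl
  · have t0 : t ≠ 0 := fun e => by simp [e] at t2
    have a3 := aeval_reflect f3 (inv_mul_cancel₀ t0)
    have a4 : aeval t (2 * f) ≠ 0 := a3 ▸ mul_ne_zero t3 (pow_ne_zero _ t0)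
    exact hat_msol hn hf.le g2 (φ := fun z => z⁻¹) (τ := id) (inv_mul_cancel₀ t0) a4
      (IsPeriodMatrix.om hP hf.le t1 a4) ((hasDerivAt_id t).congr_deriv (by simp [t0]))
      ((hasDerivAt_inv t0).congr_deriv (by ring))
      (((hasDerivAt_log (Or.inl t2)).div_const 2).cexp.congr_deriv (by ring)) rfl

theorem shift_loop {U : Set ℂ} {P : ℂ → Matrix (Fin n) (Fin n) ℂ} (hP : IsPeriodMatrix f U P) (c : ℚ)
    {L : Matrix (Fin n) (Fin n) ℚ} (hL : L = of fun i k => ((X - C c) ^ (i : ℕ)).coeff k) :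
    IsUnit L.det ∧ IsPeriodMatrix (taylor c f) {t | t + c ∈ U}
      fun t => L.map (algebraMap ℚ ℂ) * P (t + c) := by
  have h0 : L.det = 1 := by
    rw [det_of_lowerTriangular L fun i j h => by
      rw [hL, of_apply]; exact coeff_eq_zero_of_natDegree_lt (by simpa using h)]
    exact prod_eq_one fun i _ => by
      simpa [hL] using ((monic_X_sub_C c).pow (i : ℕ)).coeff_natDegree
  refine ⟨by simp [h0], fun s hs => ⟨?_, fun j => ?_⟩⟩
  · rw [det_mul, ← RingHom.mapMatrix_apply, ← RingHom.map_det, h0, map_one, one_mul]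
    exact (hP _ hs).1
  obtain ⟨V, hV, x, y, hL', h⟩ := (hP _ hs).2 j
  have h1 := hL'.1.continuous
  have h2 := hL'.1.continuous_deriv le_rfl
  refine ⟨{t | t + c ∈ V}, (continuous_add_right _).continuousAt.preimage_mem_nhds hV,
    fun u => x u - c, fun t => y (t + c), ⟨hL'.1.sub contDiff_const, by simp [hL'.2.1],
      hL'.2.2.1.comp (f := fun p : ℂ × ℝ => (p.1 + c, p.2)) (by fun_prop) fun _ hp => hp,
      fun t ht => ⟨(hL'.2.2.2 _ ht).1, fun u hu => ⟨((hL'.2.2.2 _ ht).2 u hu).1, ?_⟩⟩⟩, fun t ht i => ?_⟩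
  · rw [((hL'.2.2.2 _ ht).2 u hu).2, taylor_apply, aeval_comp]
    simp [sub_sub, add_comm]
  · simp only [mul_apply, h _ ht, ← intervalIntegral.integral_const_mul, deriv_sub_const]
    rw [← intervalIntegral.integral_finsetSum fun i _ => IntervalIntegrable.const_mul
      (ContinuousOn.intervalIntegrable_of_Icc zero_le_one (ContinuousOn.div₀ (by fun_prop)
        (hL'.conty ht) fun u hu => ((hL'.2.2.2 _ ht).2 u hu).1)) _]
    congr 1
    ext u
    have := aeval_eq_sum_range' (x := x u) (p := (X - C c) ^ (i : ℕ)) (n := n) (by simp)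
    simp only [map_pow, map_sub, aeval_X, aeval_C, eq_ratCast, sum_range, Algebra.smul_def] at this
    simp only [this, hL, map_apply, of_apply, sum_mul, sum_div, eq_ratCast, mul_assoc, mul_div_assoc]

theorem shift_good {P : ℂ → Matrix (Fin n) (Fin n) ℂ} {L : Matrix (Fin n) (Fin n) ℚ} (hL : IsUnit L.det)
    {c s : ℤ} {δ : ℕ} (h : AGood (fun t => L.map (algebraMap ℚ ℂ) * P (t + (c : ℚ))) δ s) :
    AGood P δ (s + c) := fun g g1 g2 => by
  have e : ∀ Z, L⁻¹.map (algebraMap ℚ ℂ) * (L.map (algebraMap ℚ ℂ) * Z) = Z := fun Z => by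
    rw [← Matrix.mul_assoc, ← Matrix.map_mul, nonsing_inv_mul _ hL, Matrix.map_one _ (map_zero _)
      (map_one _), Matrix.one_mul]
  obtain ⟨p, h1, h2⟩ := h (fun X => g (ent (L⁻¹.map (algebraMap ℚ ℂ) * of fun i j => X (i, j))))
    (g1.comp fun a => PF.sum univ fun k _ => (PF.var (k, a.2)).cmul (L⁻¹ a.1 k)) (by
      rw [← g2]; exact congrArg (fun Z => g (ent Z)) ((e _).trans (by simp)))
  have h3 : ∀ (t : ℂ) (Z : Matrix (Fin n) (Fin n) ℂ), MvPolynomial.aeval (fun o => o.elim t (ent Z))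
      (MvPolynomial.aeval (fun o : Option (Fin n × Fin n) => o.elim (MvPolynomial.X none -
        MvPolynomial.C (c : ℚ)) fun a => ∑ k, MvPolynomial.C (L a.1 k) * MvPolynomial.X (some (k, a.2))) p :
          MvPolynomial (Option (Fin n × Fin n)) ℚ) =
      MvPolynomial.aeval (fun o => o.elim (t - c) (ent (L.map (algebraMap ℚ ℂ) * Z))) p := fun t Z => by
    rw [← AlgHom.comp_apply, MvPolynomial.comp_aeval]
    congr 2
    ext (_ | a) <;> simp [ent, mul_apply]
  refine ⟨_, ?_, fun Z => (h3 _ (of fun i j => Z (i, j))).trans ?_⟩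
  · have : Tendsto (fun t : ℂ => t - c) (𝓝 (s + c : ℤ)) (𝓝 s) :=
      (continuous_sub_right _).tendsto' _ _ (by simp)
    filter_upwards [this.eventually h1] with t ht
    rw [h3]
    simpa using ht
  · rw [Int.cast_add, add_sub_cancel_right, h2]
    exact congrArg (fun Z => g (ent Z)) (e _)

theorem smooth (hn : 0 < n) (he : Even n) (hf : f.natDegree = n) {c : ℤ} (h0 : f.eval (c : ℚ) ≠ 0)
    (S : Finset ℕ) (δ : ℕ) {R : ℝ} {P : ℂ → Matrix (Fin n) (Fin n) ℂ}
    (hP : IsPeriodMatrix f {t | R < t.re} P) :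
    {t : ℕ | (t - c : ℤ).natAbs.primeFactors ⊆ S ∧ ¬ Good {t | R < t.re} P δ t}.Finite := by
  obtain ⟨h1, h2⟩ := shift_loop hP c rfl
  rw [show {t : ℂ | t + (c : ℚ) ∈ {t : ℂ | R < t.re}} = {t | R - c < t.re} by
    ext; simp [sub_lt_iff_lt_add]] at h2
  refine ((Set.finite_Iic (c.natAbs + ⌈R⌉₊)).union ((smooth0 hn he (by rw [natDegree_taylor, hf])
    (by simpa [taylor_eval] using h0) (S := S.filter Nat.Prime) (fun p hp => (mem_filter.1 hp).2) δ
      h2).image fun u : ℕ => ((u : ℤ) + c).toNat)).subset fun t ht => (le_or_gt t _).imp id fun e => ?_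
  have e1 : ((t - c : ℤ).natAbs : ℤ) + c = t := by omega
  refine ⟨(t - c : ℤ).natAbs, ⟨⟨_, ((Finsupp.prod_of_support_subset _ (fun p hp => mem_filter.2
    ⟨ht.1 hp, Nat.prime_of_mem_primeFactors hp⟩) _ (by simp)).symm.trans
      (Nat.factorization_prod_pow_eq_self (by omega))).symm⟩, fun h => ht.2 (good_of'
        (isOpen_lt continuous_const continuous_re) (convex_halfSpace_re_gt R).isPreconnected hP.hol ?_
        (e1 ▸ shift_good h1 h))⟩, by simp only [e1, Int.toNat_natCast]⟩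
  have : (⌈R⌉₊ : ℝ) < t := by exact_mod_cast (by omega : ⌈R⌉₊ < t)
  simpa using (Nat.le_ceil R).trans_lt this

end

end Pool.Agent.Lib.MP_5591bc_ag.R
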