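import Pool.Agent.Lib.MP_5591bc_ag.ROne

/-! Integer valued polynomials and the operators `binom(θ, k)`. -/

namespace Pool.Agent.Lib.MP_5591bc_ag.R

open Matrix Finset Polynomial

noncomputable section

/-- the binomial polynomials -/
def bp (k : ℕ) : ℚ[X] := (k.factorial : ℚ)⁻¹ • descPochhammer ℚ k

theorem bp_nat (k i : ℕ) : (bp k).eval (i : ℚ) = i.choose k := by
  have : (k.factorial : ℚ) ≠ 0 := by exact_mod_cast k.factorial_ne_zero
  rw [bp, eval_smul, descPochhammer_eval_eq_descFactorial, Nat.descFactorial_eq_factorial_mul_choose,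
    Nat.cast_mul, smul_eq_mul, inv_mul_cancel_left₀ this]

theorem bp_deg (k : ℕ) : (bp k).natDegree ≤ k :=
  (natDegree_smul_le _ _).trans (descPochhammer_natDegree ℚ k).le

theorem newton {R : ℚ[X]} {N : ℕ} (hN : R.natDegree ≤ N) (h : ∀ i : ℕ, ∃ z : ℤ, R.eval (i : ℚ) = z) :
    ∃ l : ℕ → ℤ, R = ∑ k ∈ range (N + 1), (l k : ℚ) • bp k := by
  have key : ∀ m : ℕ, ∃ l : ℕ → ℤ, ∀ i < m,
      R.eval (i : ℚ) = (∑ k ∈ range m, (l k : ℚ) • bp k).eval (i : ℚ) := fun m => by
    induction m with
    | zero => exact ⟨0, by simp⟩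
    | succ m ih =>
      obtain ⟨l, hl⟩ := ih
      obtain ⟨z, hz⟩ := h m
      refine ⟨Function.update l m (z - ∑ k ∈ range m, l k * m.choose k), fun i hi => ?_⟩
      rw [sum_range_succ, Function.update_self, sum_congr rfl fun k hk => by
        rw [Function.update_of_ne (mem_range.1 hk).ne], eval_add, eval_smul, bp_nat]
      rcases (Nat.le_of_lt_succ hi).eq_or_lt with rfl | e
      · simp [hz, eval_finset_sum, bp_nat]
      · simp [hl i e, Nat.choose_eq_zero_of_lt e]
  obtain ⟨l, hl⟩ := key (N + 1)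
  refine ⟨l, eq_of_natDegree_lt_card_of_eval_eq' _ _ ((range (N + 1)).image (Nat.cast : ℕ → ℚ))
    (fun x hx => ?_) ?_⟩
  · obtain ⟨i, hi, rfl⟩ := mem_image.1 hx
    exact hl i (mem_range.1 hi)
  · rw [card_image_of_injective _ Nat.cast_injective, card_range]
    exact Nat.lt_succ_of_le (max_le hN (natDegree_sum_le_of_forall_le _ _ fun k hk =>
      (natDegree_smul_le _ _).trans ((bp_deg k).trans (Nat.le_of_lt_succ (mem_range.1 hk)))))

theorem bp_succ (k : ℕ) (y : ℚ) : (bp (k + 1)).eval y = (bp k).eval y * (y - k) / (k + 1) := by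
  have : (k.factorial : ℚ) ≠ 0 := by exact_mod_cast k.factorial_ne_zero
  simp only [bp, eval_smul, descPochhammer_succ_eval, smul_eq_mul, Nat.factorial_succ]
  push_cast
  field_simp

theorem bp_pascal (k : ℕ) (y : ℚ) :
    (bp (k + 1)).eval (y + 1) = (bp (k + 1)).eval y + (bp k).eval y := by
  have : (k.factorial : ℚ) ≠ 0 := by exact_mod_cast k.factorial_ne_zero
  rw [bp_succ k y]
  simp only [bp, eval_smul, descPochhammer_succ_left, smul_eq_mul, Nat.factorial_succ, eval_mul,
    eval_comp, eval_X, eval_sub, eval_one, add_sub_cancel_right]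
  push_cast
  field_simp
  ring

theorem bp_zero : bp 0 = 1 := by simp [bp]

theorem bp_half (w : ℤ) : ∀ k, ∃ z : ℤ, 4 ^ k * (bp k).eval ((w : ℚ) - 1 / 2) = z := by
  induction w using Int.induction_on with
  | zero =>
    refine fun k => ⟨(-1) ^ k * k.centralBinom, ?_⟩
    induction k with
    | zero => simp [bp_zero]
    | succ k ih =>
      have := congrArg (Nat.cast : ℕ → ℚ) (Nat.succ_mul_centralBinom_succ k)
      have h0 : (k : ℚ) + 1 ≠ 0 := by positivity
      rw [bp_succ]
      push_cast at this ih ⊢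
      generalize eval (0 - 1 / 2) (bp k) = y at ih ⊢
      field_simp
      linear_combination 4 * (-1 - 2 * k) * ih + 2 * (-1) ^ k * this
  | succ w ih =>
    rintro (_ | k)
    · exact ⟨1, by simp [bp_zero]⟩
    · obtain ⟨a, ha⟩ := ih (k + 1)
      obtain ⟨b, hb⟩ := ih k
      refine ⟨a + 4 * b, ?_⟩
      rw [show (((w : ℤ) + 1 : ℤ) : ℚ) - 1 / 2 = ((w : ℤ) : ℚ) - 1 / 2 + 1 by push_cast; ring,
        bp_pascal]
      push_cast at *
      linear_combination ha + 4 * hb
  | pred w ih =>
    intro k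
    induction k with
    | zero => exact ⟨1, by simp [bp_zero]⟩
    | succ k ih2 =>
      obtain ⟨a, ha⟩ := ih (k + 1)
      obtain ⟨b, hb⟩ := ih2
      refine ⟨a - 4 * b, ?_⟩
      rw [show ((-(w : ℤ) : ℤ) : ℚ) - 1 / 2 = ((-(w : ℤ) - 1 : ℤ) : ℚ) - 1 / 2 + 1 by
        push_cast; ring, bp_pascal] at ha
      push_cast at *
      linear_combination ha - 4 * hb

theorem iter_theta {ν R : Type*} [Fintype ν] [DecidableEq ν] [CommRing R] [Algebra ℚ R]
    (θ : Derivation ℚ R R) (τ : ℚ[X] →+* R) (hτ : ∀ p, θ (τ p) = τ (X * derivative p))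
    (Θ : Module.End ℚ (Matrix ν ν R)) (hΘ : ∀ N Z, Θ (N * Z) = N.map θ * Z + N * Θ Z)
    {T : ℚ[X]} {B : Matrix ν ν ℚ[X]} {Z : Matrix ν ν R} (h : τ T • Θ Z = B.map τ * Z) (k : ℕ) :
    τ T ^ k • aeval Θ (descPochhammer ℚ k) Z = (iterK (X * T) B k).map τ * Z := by
  have hs : ∀ (a : R) Z, Θ (a • Z) = θ a • Z + a • Θ Z := fun a Z => by
    have := hΘ (a • 1) Z
    rwa [show (a • (1 : Matrix ν ν R)).map θ = θ a • 1 by
      ext i j; by_cases e : i = j <;> simp [one_apply, e], smul_mul_assoc, smul_mul_assoc,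
      smul_mul_assoc, Matrix.one_mul, Matrix.one_mul] at this
  induction k with
  | zero => simp [iterK]
  | succ k ih =>
    have h1 := congrArg (fun W => τ T • Θ W) ih
    have h2 : τ T * θ (τ T ^ k) = k * θ (τ T) * τ T ^ k := by
      rw [Derivation.leibniz_pow]
      rcases k with _ | k
      · simp
      · simp [pow_succ]; ring
    simp only [hs, hΘ, smul_add, smul_smul, h2, ← Matrix.mul_smul, h] at h1
    rw [mul_smul, ih] at h1
    rw [descPochhammer_succ_right, mul_comm (descPochhammer ℚ k), map_mul, Module.End.mul_apply,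
      map_sub, aeval_X, map_natCast, LinearMap.sub_apply, Module.End.natCast_apply, smul_sub,
      pow_succ', eq_sub_of_add_eq' h1, smul_comm _ k, mul_smul (τ T), ih]
    have e : (iterK (X * T) B (k + 1)).map τ = τ T • ((iterK (X * T) B k).map τ).map θ -
        ((k * θ (τ T)) • (iterK (X * T) B k).map τ + k • τ T • (iterK (X * T) B k).map τ) +
        (iterK (X * T) B k).map τ * B.map τ := by
      rw [← Nat.cast_smul_eq_nsmul R]
      ext i j
      simp only [iterK, Matrix.add_apply, Matrix.sub_apply, Matrix.smul_apply, map_apply, mul_apply,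
        smul_eq_mul, hτ, map_add, map_sub, map_mul, map_sum, map_natCast,
        derivative_mul, derivative_X, map_one]
      ring
    rw [e, Matrix.add_mul, Matrix.sub_mul, Matrix.add_mul, Matrix.mul_assoc]
    simp only [smul_mul_assoc, Matrix.mul_smul]
    abel

end

end Pool.Agent.Lib.MP_5591bc_ag.R
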