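import Pool.Agent.Lib.MP_5591bc_ag.SCore
import Pool.Agent.Lib.MP_5591bc_ag.GOp

/-! The Picard-Fuchs system in the basis `x^i dx / y`, shearing, gauge transformations. -/

namespace Pool.Agent.Lib.MP_5591bc_ag.R

open Matrix Finset Filter Topology G Function Metric Polynomial

noncomputable section

section shear
variable {ν : Type*} [Fintype ν] [DecidableEq ν] {T : ℚ[X]}

/-- `g` transforms the system `T θ Y = B Y` into `T θ Y = B' Y` -/
def Gauge (T : ℚ[X]) (B g B' : Matrix ν ν ℚ[X]) : Prop :=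
  T • (X : ℚ[X]) • g.map derivative + g * B = B' * g

theorem shear (T0 : T.coeff 0 ≠ 0) (k : ℕ) : ∀ {B : Matrix ν ν ℚ[X]} {R : Matrix ν ν ℚ} {N : ℕ},
    B.map (·.coeff 0) = T.coeff 0 • R → R ^ N * (R + k) ^ N = 0 →
    ∃ (g g' B' : Matrix ν ν ℚ[X]) (a : ℕ) (M : Matrix ν ν ℚ), g' * g = (X ^ a : ℚ[X]) • 1 ∧
      Gauge T B g B' ∧ B'.map (·.coeff 0) = T.coeff 0 • M ∧ IsNilpotent M := by
  induction k with
  | zero =>
    intro B R N h1 h2
    refine ⟨1, 1, B, 0, R, by simp, ?_, h1, N + N, by simpa [pow_add] using h2⟩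
    rw [Gauge, show (1 : Matrix ν ν ℚ[X]).map derivative = 0 by
      ext1; simp [one_apply, apply_ite derivative]]
    simp
  | succ k ih =>
    intro B R N h1 h2
    obtain ⟨a, b, hab⟩ : IsCoprime (X ^ N : ℚ[X]) ((X + C (k + 1 : ℚ)) ^ N) := IsCoprime.pow
      ⟨-C (k + 1 : ℚ)⁻¹, C (k + 1 : ℚ)⁻¹, by
        rw [mul_add, ← C_mul, inv_mul_cancel₀ (by positivity)]; simp⟩
    have e0 : ∀ q, aeval R (q * (X ^ N * (X + C (k + 1 : ℚ)) ^ N)) = 0 := fun q => by
      rw [map_mul, map_mul, map_pow, map_pow, map_add, aeval_X, aeval_C, ← Nat.cast_succ, map_natCast,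
        h2, Matrix.mul_zero]
    obtain ⟨p, hp⟩ : ∃ p, p = aeval R (a * X ^ N) := ⟨_, rfl⟩
    obtain ⟨r, hr⟩ : ∃ r, r = aeval R (b * (X + C (k + 1 : ℚ)) ^ N) := ⟨_, rfl⟩
    have e1 : p + r = 1 := by rw [hp, hr, ← map_add, hab, map_one]
    have e2 : p * r = 0 := by rw [hp, hr, ← map_mul, ← e0 (a * b)]; congr 1; ring
    have e3 : r * p = 0 := by rw [hp, hr, ← map_mul, ← e0 (a * b)]; congr 1; ring
    have e4 : p * p = p := by simpa [Matrix.mul_add, e2] using congrArg (p * ·) e1
    have e5 : r * r = r := by simpa [Matrix.mul_add, e3] using congrArg (r * ·) e1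
    have e8 : ∀ q : ℚ[X], R * aeval R q = aeval R q * R := fun q => by
      simpa using ((Commute.all X q).map (aeval R)).eq
    have e6 : R * p = p * R := hp ▸ e8 _
    have e7 : R * r = r * R := hr ▸ e8 _
    obtain ⟨B1, hB1⟩ : ∃ B1 : Matrix ν ν ℚ[X], B = (X : ℚ[X]) • B1 + (T.coeff 0 • R).map C :=
      ⟨B.map divX, by rw [← h1]; ext1; simp [X_mul_divX_add]⟩
    obtain ⟨E, hE⟩ : ∃ E, E = (T.coeff 0)⁻¹ • (r * B1.map (·.coeff 0) * p) := ⟨_, rfl⟩
    have f1 : ∀ m, (p + R + E) ^ m * r = R ^ m * r := fun m => by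
      induction m with
      | zero => simp
      | succ m ih =>
        have : E * r = 0 := by simp [hE, Matrix.mul_assoc, e2]
        rw [pow_succ, pow_succ, Matrix.mul_assoc, Matrix.add_mul, Matrix.add_mul, e2, this, e7,
          zero_add, add_zero, ← Matrix.mul_assoc, ih, Matrix.mul_assoc, Matrix.mul_assoc, e7]
    have f2 : ∀ m, p * (p + R + E + k) ^ m = p * (R + (k + 1 : ℕ)) ^ m := fun m => by
      induction m with
      | zero => simp
      | succ m ih =>
        have : p * (p + R + E + k) = (R + (k + 1 : ℕ)) * p := by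
          rw [hE]
          simp [Matrix.mul_add, Matrix.add_mul, ← Matrix.mul_assoc, e2, e4, e6, (Nat.cast_commute k p).eq]
          abel
        rw [pow_succ', ← Matrix.mul_assoc, this, Matrix.mul_assoc, ih, ← Matrix.mul_assoc, pow_succ',
          ← Matrix.mul_assoc, Matrix.add_mul, Matrix.mul_add, e6, (Nat.cast_commute _ p).eq]
    obtain ⟨g, g', B', c, M, g1, g2, g3⟩ := ih (R := p + R + E) (N := N)
      (B := T • p.map C + p.map C * B * (p.map C + (X : ℚ[X]) • r.map C) +
        r.map C * (B1 * p.map C + B * r.map C)) (by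
        have : ∀ W : Matrix ν ν ℚ[X], W.map (·.coeff 0) = constantCoeff.mapMatrix W := fun _ => rfl
        have c1 : ∀ W : Matrix ν ν ℚ, constantCoeff.mapMatrix (W.map C) = W := fun _ => by ext; simp
        have c2 : ∀ (q : ℚ[X]) (W : Matrix ν ν ℚ[X]), constantCoeff.mapMatrix (q • W) =
          q.coeff 0 • constantCoeff.mapMatrix W := fun q W => by
            ext i j; exact mul_coeff_zero q (W i j)
        rw [this] at h1
        simp only [this, map_add, map_mul, c1, c2, h1, hE, smul_add, smul_inv_smul₀ T0, coeff_X_zero,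
          zero_smul, add_zero, Matrix.mul_add, Matrix.mul_smul, smul_mul_assoc, ← Matrix.mul_assoc]
        rw [← e6, ← e7, Matrix.mul_assoc, e4, Matrix.mul_assoc R, e5]
        conv_rhs => rw [← Matrix.mul_one R, ← e1, Matrix.mul_add, smul_add]
        abel) (by
        rw [← Matrix.mul_one (_ ^ N), ← e1, Matrix.mul_add, Matrix.add_mul, f1, Matrix.mul_assoc, f2]
        have c1 := e0 a
        have c2 := e0 b
        rw [← mul_assoc, map_mul, ← hp, map_pow, map_add, aeval_X, aeval_C, ← Nat.cast_succ,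
          map_natCast] at c1
        rw [mul_left_comm, map_mul, ← hr, map_pow, aeval_X] at c2
        rw [c1, c2, Matrix.mul_zero, Matrix.zero_mul, add_zero])
    have m1 := congrArg (·.map (C : ℚ →+* ℚ[X])) e1
    have m2 := congrArg (·.map (C : ℚ →+* ℚ[X])) e2
    have m3 := congrArg (·.map (C : ℚ →+* ℚ[X])) e3
    have m4 := congrArg (·.map (C : ℚ →+* ℚ[X])) e4
    have m5 := congrArg (·.map (C : ℚ →+* ℚ[X])) e5
    have m6 : r.map C * (T.coeff 0 • R).map C * p.map (C : ℚ →+* ℚ[X]) = 0 := by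
      rw [← Matrix.map_mul, ← Matrix.map_mul, Matrix.mul_smul, smul_mul_assoc, Matrix.mul_assoc, e6,
        ← Matrix.mul_assoc, e3]
      simp
    have m7 : ((X : ℚ[X]) • p.map C + r.map C).map derivative = p.map C := by ext1; simp
    simp only [Matrix.map_mul, Matrix.map_add _ (map_add _), Matrix.map_one _ (map_zero _) (map_one _),
      Matrix.map_zero _ (map_zero _)] at m1 m2 m3 m4 m5
    generalize p.map C = p, r.map C = r, (T.coeff 0 • R).map C = R at *
    have m8 : (p + (X : ℚ[X]) • r) * ((X : ℚ[X]) • p + r) = (X : ℚ[X]) • 1 := by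
      simp [Matrix.mul_add, Matrix.add_mul, m2, m3, m4, m5, ← m1]
    refine ⟨g * ((X : ℚ[X]) • p + r), (p + (X : ℚ[X]) • r) * g', B', c + 1, M, ?_, ?_, g3⟩
    · rw [Matrix.mul_assoc, ← Matrix.mul_assoc g', g1, smul_mul_assoc, Matrix.mul_smul,
        Matrix.one_mul, m8, smul_smul, pow_succ]
    · have : ∀ U V : Matrix ν ν ℚ[X], (U * V).map derivative =
          U.map derivative * V + U * V.map derivative := fun U V => by
        ext1; simp [mul_apply, sum_add_distrib]
      rw [Gauge, this, m7, ← Matrix.mul_assoc B', ← g2, Matrix.add_mul (_ • _), Matrix.mul_assoc g,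
        Matrix.mul_assoc g, Matrix.add_mul _ (r * _), Matrix.add_mul (T • p), Matrix.mul_assoc (p * B),
        m8, smul_add, smul_add, add_assoc, smul_mul_assoc, smul_mul_assoc, ← Matrix.mul_smul g,
        ← Matrix.mul_smul g, ← Matrix.mul_add]
      congr 2
      have m9 : r * B = (X : ℚ[X]) • (r * B1 * p) + r * B * r := by
        conv_lhs => rw [← Matrix.mul_one (r * B), ← m1, Matrix.mul_add]
        congr 1
        rw [hB1, Matrix.mul_add, Matrix.add_mul, m6]
        simp
      simp only [Matrix.mul_add, Matrix.add_mul, smul_mul_assoc, Matrix.mul_smul, Matrix.mul_assoc,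
        m2, m3, m4, m5, Matrix.mul_zero, smul_zero, add_zero, zero_add, Matrix.mul_one] at m9 ⊢
      rw [← m9, smul_comm, add_assoc]

theorem Gauge.msol {B g B' : Matrix ν ν ℚ[X]} (h : Gauge T B g B') {φ : ℂ → ℂ} {s a : ℂ}
    (hT : aeval (φ s) T ≠ 0) (hφ : HasDerivAt φ (a * φ s) s) {A A' Q : ℂ → Matrix ν ν ℂ}
    (e : A s = a • Az T B (φ s)) (e' : A' s = a • Az T B' (φ s)) (hQ : MSol A Q s) :
    MSol A' (fun s => g.map (aeval (φ s)) * Q s) s := fun i j => by
  refine (HasDerivAt.fun_sum fun k _ => (((g i k).hasDerivAt_aeval _).comp s hφ).fun_mul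
    (hQ k j)).congr_deriv ?_
  have e1 : ∀ B : Matrix ν ν ℚ[X], Az T B (φ s) = (aeval (φ s) T)⁻¹ • B.map (aeval (φ s)) :=
    fun B => by ext; simp [Az, div_eq_inv_mul]
  have e2 : B'.map (aeval (φ s)) * g.map (aeval (φ s)) = aeval (φ s) T • φ s •
      (g.map derivative).map (aeval (φ s)) + g.map (aeval (φ s)) * B.map (aeval (φ s)) := by
    have := congrArg (·.map (aeval (R := ℚ) (φ s)).toRingHom) h
    simp only [Matrix.map_mul, Matrix.map_add _ (map_add _)] at this
    refine this.symm.trans (congrArg (· + _) ?_)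
    ext; simp
  rw [e, e', e1, e1, smul_mul_assoc, smul_mul_assoc, smul_mul_assoc, smul_mul_assoc,
    ← Matrix.mul_assoc, e2, Matrix.add_mul, smul_mul_assoc, smul_add, inv_smul_smul₀ hT,
    Matrix.mul_assoc, sum_add_distrib]
  simp only [Matrix.smul_apply, Matrix.add_apply, smul_eq_mul, mul_apply (M := g.map _),
    mul_apply (N := Q s) (M := φ s • _), Function.comp, mul_add, mul_sum, map_apply]
  congr 1 <;> exact sum_congr rfl fun _ _ => by ring

end shear

variable {f : ℚ[X]} {n : ℕ}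

/-- the numerators of the system satisfied by the periods of `x^i dx / y` -/
def oB (f : ℚ[X]) (n : ℕ) : Matrix (Fin n) (Fin n) ℚ[X] := of fun i j =>
  C ((derivative f).coeff j) * X ^ (i : ℕ) + ∑ m ∈ range (n + 1), C (f.coeff m *
    ((if m ≤ j ∧ j < i then 1 else 0) - if i ≤ j ∧ (j : ℕ) < m then 1 else 0)) * X ^ (m + i - 1 - j)

theorem tele (x t : ℂ) {a b : ℕ} (hb : b ≤ n) :
    (x - t) * ∑ j : Fin n, (if a ≤ j ∧ (j : ℕ) < b then t ^ (a + b - 1 - j) * x ^ (j : ℕ) else 0) =
      if a ≤ b then t ^ a * x ^ b - t ^ b * x ^ a else 0 := by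
  split_ifs with h
  · obtain ⟨c, rfl⟩ := Nat.exists_eq_add_of_le h
    rw [Fin.sum_univ_eq_sum_range fun j => if a ≤ j ∧ j < a + c then t ^ (a + (a + c) - 1 - j) * x ^ j
      else 0, ← sum_filter, show {j ∈ range n | a ≤ j ∧ j < a + c} = Ico a (a + c) by
        ext; simp; omega, sum_Ico_eq_sum_range, add_tsub_cancel_left]
    rw [sum_congr rfl fun j hj => show _ = t ^ a * x ^ a * (x ^ j * t ^ (c - 1 - j)) by
      rw [show a + (a + c) - 1 - (a + j) = a + (c - 1 - j) by have := mem_range.1 hj; omega]; ring,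
      ← mul_sum, mul_left_comm, mul_comm (x - t), geom_sum₂_mul]
    ring
  · rw [sum_eq_zero fun j _ => if_neg (by omega), mul_zero]

theorem oB_id (hf : f.natDegree ≤ n) (x t : ℂ) (i : Fin n) :
    (x - t) * ∑ j, aeval t (oB f n i j) * x ^ (j : ℕ) = (x - t) * t ^ (i : ℕ) * aeval x (derivative f) -
      t ^ (i : ℕ) * aeval x f + aeval t f * x ^ (i : ℕ) := by
  have h1 := aeval_eq_sum_range' (x := x) (show (derivative f).natDegree < n by
    have := natDegree_derivative_le f; have := i.2; omega)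
  simp only [oB, of_apply, map_add, map_mul, map_sum, map_sub, aeval_C, map_pow, aeval_X, add_mul,
    sum_add_distrib, mul_add, sum_mul, apply_ite (algebraMap ℚ ℂ), map_one, map_zero]
  rw [h1, aeval_eq_sum_range' (Nat.lt_succ_of_le hf), aeval_eq_sum_range' (Nat.lt_succ_of_le hf),
    sum_range, sum_comm, mul_assoc, mul_sum, mul_sum, mul_sum, mul_sum, mul_sum, sum_mul,
    sub_add, ← sum_sub_distrib, sub_eq_add_neg (∑ _, _), ← sum_neg_distrib]
  congr 1
  · exact sum_congr rfl fun _ _ => by simp only [Algebra.smul_def]; ring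
  refine sum_congr rfl fun m hm => ?_
  have h2 := tele x t (a := m) i.2.le
  have h3 := tele x t (a := i) (Nat.le_of_lt_succ (mem_range.1 hm))
  have : ∑ j : Fin n, algebraMap ℚ ℂ (f.coeff m) * ((if m ≤ j ∧ j < i then 1 else 0) -
      if i ≤ j ∧ (j : ℕ) < m then 1 else 0) * t ^ (m + i - 1 - j) * x ^ (j : ℕ) =
      algebraMap ℚ ℂ (f.coeff m) * (∑ j : Fin n, (if m ≤ j ∧ (j : ℕ) < i then t ^ (m + i - 1 - j) *
        x ^ (j : ℕ) else 0) - ∑ j : Fin n, if (i : ℕ) ≤ j ∧ (j : ℕ) < m then t ^ (i + m - 1 - j) *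
          x ^ (j : ℕ) else 0) := by
    rw [← sum_sub_distrib, mul_sum]
    refine sum_congr rfl fun j _ => ?_
    simp only [Fin.lt_def, Fin.le_def, add_comm (i : ℕ)]
    split_ifs <;> ring
  rw [this, mul_left_comm, mul_sub, h2, h3, Algebra.smul_def, Algebra.smul_def]
  rcases lt_trichotomy m i with h | rfl | h
  · rw [if_pos h.le, if_neg h.not_ge]; ring
  · simp; ring
  · rw [if_pos h.le, if_neg h.not_ge]; ring

theorem oB_deg (i j : Fin n) : (oB f n i j).natDegree ≤ n - 1 ∧ (oB f n i j).coeff (n - 1) =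
    (if (i : ℕ) = n - 1 then (derivative f).coeff j else 0) - if i = j then f.coeff n else 0 := by
  have := i.2
  have := j.2
  constructor
  · rw [oB, of_apply]
    refine (natDegree_add_le _ _).trans (max_le ((natDegree_C_mul_X_pow_le _ _).trans (by omega))
      (natDegree_sum_le_of_forall_le _ _ fun m hm => ?_))
    have := mem_range.1 hm
    simp only [Fin.lt_def, Fin.le_def]
    split_ifs <;> first | exact (natDegree_C_mul_X_pow_le _ _).trans (by omega) | simp
  · simp only [oB, of_apply, coeff_add, finset_sum_coeff, coeff_C_mul_X_pow, sum_range_succ,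
      Fin.lt_def, Fin.le_def, Fin.ext_iff]
    rw [sum_eq_zero fun m hm => by
      have := mem_range.1 hm
      split_ifs <;> first | omega | simp]
    split_ifs <;> first | omega | simp [sub_eq_add_neg]

theorem IsPeriodMatrix.om {U : Set ℂ} {P : ℂ → Matrix (Fin n) (Fin n) ℂ} (h : IsPeriodMatrix f U P)
    (hf : f.natDegree ≤ n) {s : ℂ} (hs : s ∈ U) (h0 : aeval s (2 * f) ≠ 0) :
    MSol (Az (2 * f) (oB f n)) P s := fun i j => by
  obtain ⟨V, hV, x, y, hL, hP⟩ := (h s hs).2 j
  have h1 := hL.1.continuous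
  have h2 := hL.1.continuous_deriv le_rfl
  have ht := mem_of_mem_nhds hV
  have c0 : ∀ k : ℕ, IntervalIntegrable (fun u => x u ^ k * deriv x u / y s u)
      MeasureTheory.volume 0 1 := fun k => ContinuousOn.intervalIntegrable_of_Icc zero_le_one
    (ContinuousOn.div₀ (by fun_prop) (hL.conty ht) fun u hu => ((hL.2.2.2 s ht).2 u hu).1)
  have c1 : IntervalIntegrable (fun u => x u ^ (i : ℕ) / 2 * ig x y 0 s u) MeasureTheory.volume 0 1 :=
    (hL.intg 0 ht).continuousOn_mul (by fun_prop)
  have c2 := IntervalIntegrable.sum univ fun (k : Fin n) _ =>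
    (c0 k).const_mul (aeval s (oB f n i k) / aeval s (2 * f))
  refine ((hasDerivAt_int hV (F' := fun t u => x u ^ (i : ℕ) / 2 * ig x y 0 t u)
    (ContinuousOn.div₀ (by fun_prop) hL.2.2.1 fun p hp => ((hL.2.2.2 _ hp.1).2 _ hp.2).1)
    (ContinuousOn.mul (by fun_prop) (hL.cont 0)) fun t ht u hu => ?_).congr_of_eventuallyEq
      (mem_of_superset hV fun t ht => hP t ht i)).congr_deriv ?_
  · have h3 := ((hL.2.2.2 t (interior_subset ht)).2 u hu).1
    have h4 := hL.ne (interior_subset ht) hu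
    refine ((hasDerivAt_const t _).fun_div (hL.deriv_y ht hu) h3).congr_deriv ?_
    rw [ig]
    field_simp
    ring
  rw [Finset.sum_fn] at c2
  have h3 := intervalIntegral.integral_eq_sub_of_hasDerivAt_of_le zero_le_one
    (f := fun u => s ^ (i : ℕ) / aeval s f * (y s u / (x u - s))) (f' := fun u => ∑ k,
      aeval s (oB f n i k) / aeval s (2 * f) * (x u ^ (k : ℕ) * deriv x u / y s u) -
        x u ^ (i : ℕ) / 2 * ig x y 0 s u)
    (continuousOn_const.mul ((hL.conty ht).div (by fun_prop) fun u hu => hL.ne ht hu)) (fun u hu => by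
      have hu' := Set.Ioo_subset_Icc_self hu
      have hI := Icc_mem_nhds hu.1 hu.2
      obtain ⟨h3, h4⟩ := (hL.2.2.2 s ht).2 u hu'
      have h5 := hL.ne ht hu'
      have h6 := (hL.1.differentiable one_ne_zero u).hasDerivAt
      have h7 := hasDerivAt_sqrt ((hL.conty ht).continuousAt hI) h3
        (mem_of_superset hI fun u hu => ((hL.2.2.2 s ht).2 u hu).2)
        (((f.hasDerivAt_aeval (x u)).comp u h6).fun_mul (h6.sub_const s))
      refine ((h7.fun_div (h6.sub_const s) h5).const_mul _).congr_deriv ?_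
      have h8 := eq_div_of_mul_eq h5 ((mul_comm _ _).trans (oB_id hf (x u) s i))
      have h9 : aeval s f ≠ 0 := fun e => h0 (by simp [e])
      rw [sum_congr rfl fun (k : Fin n) _ => show _ = aeval s (oB f n i k) * x u ^ (k : ℕ) *
        (deriv x u / (y s u * aeval s (2 * f))) by ring, ← sum_mul, h8, ig,
        eq_div_of_mul_eq h5 h4.symm]
      simp only [Function.comp, map_mul, map_ofNat, eq_div_of_mul_eq h5 h4.symm]
      field_simp
      ring) (c2.sub c1)
  rw [← hL.2.1, ← (hL.2.2.2 s ht).1, sub_self, intervalIntegral.integral_sub c2 c1, sub_eq_zero,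
    intervalIntegral.integral_finsetSum fun (k : Fin n) _ => (c0 k).const_mul _] at h3
  simp only [← h3, mul_apply, Az, of_apply, hP s ht, intervalIntegral.integral_const_mul]

end

end Pool.Agent.Lib.MP_5591bc_ag.R
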