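import Pool.Agent.Lib.MP_5591bc_ag.SEx
import Pool.Agent.Lib.MP_5591bc_ag.GRed

/-! The system of monomials at a regular singular point with nilpotent residue. -/

namespace Pool.Agent.Lib.MP_5591bc_ag.R

open Matrix Finset Filter Topology PowerSeries G Function Metric

noncomputable section

theorem exists_ana {F : ℚ⟦X⟧} {a : ℝ} (h : ∀ k, |((coeff k F : ℚ) : ℝ)| ≤ a ^ (k + 1)) :
    ∃ g : ℂ → ℂ, AnalyticAt ℂ g 0 ∧ mp F = tay g 0 := by
  let p := FormalMultilinearSeries.ofScalars ℂ fun k => ((coeff k F : ℚ) : ℂ)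
  have a0 : 0 < |a| + 1 := by positivity
  have hp := p.hasFPowerSeriesOnBall (lt_of_lt_of_le (ENNReal.coe_pos.2 (show (0 : NNReal) <
    .mk (|a| + 1)⁻¹ (by positivity) from inv_pos.2 a0)) (p.le_radius_of_bound |a| fun k => by
      rw [FormalMultilinearSeries.ofScalars_norm, ← Complex.ofReal_ratCast, Complex.norm_real,
        NNReal.coe_mk, inv_pow, mul_inv_le_iff₀ (by positivity)]
      refine (h k).trans ((le_abs_self _).trans ?_)
      rw [abs_pow, pow_succ']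
      gcongr
      linarith))
  refine ⟨p.sum, hp.analyticAt, PowerSeries.ext fun k => ?_⟩
  have h5 : (k.factorial : ℂ) ≠ 0 := by exact_mod_cast k.factorial_ne_zero
  rw [coeff_tay, iteratedDeriv_eq_iteratedFDeriv, ← hp.factorial_smul, eq_div_iff h5]
  simp [p, mul_comm]

/-- the series of `log (1 + h / x)` -/
def Lg (x : ℚ) : ℚ⟦X⟧ := PowerSeries.mk fun k => -(-x⁻¹) ^ k / k

theorem Lg_der {x : ℚ} (hx : x ≠ 0) : τ1 x Polynomial.X * d⁄dX ℚ (Lg x) = 1 := by
  have : τ1 x Polynomial.X = X + C x := by simp [τ1]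
  rw [this, add_mul]
  ext (_ | k)
  · rw [map_add, coeff_C_mul, coeff_derivative]
    simp [Lg, hx]
  · simp only [map_add, coeff_succ_X_mul, coeff_C_mul, coeff_derivative, Lg, coeff_mk, coeff_one,
      k.succ_ne_zero, if_false, pow_succ]
    push_cast
    field_simp
    ring

theorem log_der {x z : ℂ} (hx : x ≠ 0) (h : z / x ∈ Complex.slitPlane) :
    HasDerivAt (fun z => Complex.log (z / x)) z⁻¹ z := by
  refine ((hasDerivAt_id z).div_const x).clog h |>.congr_deriv ?_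
  have : z ≠ 0 := fun e => by simp [e] at h
  simp only [id]
  field_simp

theorem tay_log {x : ℚ} (hx : x ≠ 0) : tay (fun z => Complex.log (z / x)) x = mp (Lg x) := by
  have x0 : (x : ℂ) ≠ 0 := by exact_mod_cast hx
  have h1 : ∀ᶠ z : ℂ in 𝓝 (x : ℂ), z / x ∈ Complex.slitPlane :=
    (continuous_id.div_const (x : ℂ)).continuousAt.eventually_mem
      (Complex.isOpen_slitPlane.mem_nhds (by simp [x0]))
  have ha : AnalyticAt ℂ (fun z => Complex.log (z / x)) x :=
    analyticAt_of_eventually (h1.mono fun z hz => (log_der x0 hz).differentiableAt)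
  refine PowerSeries.derivative.ext (mul_left_cancel₀ (τp_unit x0).ne_zero ?_) ?_
  · rw [← mp_deriv, ← tay_deriv]
    conv_rhs => rw [← mp_τ1, ← map_mul, Lg_der hx, map_one, ← map_one C, ← tay_const (p := x)]
    rw [← tay_aeval, ← tay_mul (analyticAt_aeval _ _) ha.deriv]
    refine tay_congr (h1.mono fun z hz => ?_)
    have : z ≠ 0 := fun e => by simp [e] at hz
    simp [(log_der x0 hz).deriv, this]
  · simp [x0, ← coeff_zero_eq_constantCoeff_apply, Lg]

theorem UF_C {Ω : Type*} {b : Ω → ℕ} {hb : ∀ x, 2 ≤ b x} (q : ℚ) :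
    (fun _ => C q) ∈ UF b hb := by
  obtain ⟨e, he⟩ := pow_unbounded_of_one_lt (|(q : ℝ)| + q.den) one_lt_two
  refine ⟨e, fun x k => ?_⟩
  have h1 : (2 : ℝ) ^ e ≤ ((b x ^ e : ℕ) : ℝ) ^ (k + 1) := by
    have := hb x
    exact_mod_cast (Nat.pow_le_pow_left this e).trans (Nat.le_self_pow (by omega) _)
  refine ⟨fun _ => ?_, q.den, q.den_pos, ?_, fun _ j _ => ⟨if j = 0 then q.num else 0, ?_⟩⟩
  · rw [coeff_C]
    split_ifs
    · linarith [(q.den.cast_nonneg : (0 : ℝ) ≤ _)]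
    · simp
  · exact_mod_cast (show (q.den : ℝ) ≤ _ by linarith [abs_nonneg (q : ℝ)]).trans h1
  · rw [coeff_C]
    split_ifs <;> simp

theorem one_le_den {x : ℚ} (hx : x ≠ 0) : |(x : ℝ)|⁻¹ ≤ x.den := by
  rw [inv_le_iff_one_le_mul₀ (by simpa), mul_comm, ← Nat.abs_cast, ← abs_mul]
  exact_mod_cast (by rw [Rat.mul_den_eq_num]; exact_mod_cast Int.one_le_abs (Rat.num_ne_zero.2 hx) :
    1 ≤ |x * x.den|)

theorem UF_Lg {Ω : Set ℚ} (h : ∀ x ∈ Ω, x ≠ 0 ∧ |(x : ℝ)| ≤ 1) :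
    (fun x : Ω => Lg x) ∈ UF (fun x : Ω => 2 * x.1.den) fun x => two_le x := by
  obtain ⟨e, he⟩ := pow_unbounded_of_one_lt (Real.exp (2 * (Real.log 4 + 4))) one_lt_two
  refine ⟨e + 1, fun ⟨x, hx⟩ k => ?_⟩
  obtain ⟨x0, x1⟩ := h x hx
  have d1 : (1 : ℝ) ≤ x.den := by exact_mod_cast x.den_pos
  have h1 : (2 : ℝ) ^ e * x.den ≤ ((2 * x.den) ^ (e + 1) : ℕ) := by
    rw [Nat.cast_pow, Nat.cast_mul, pow_succ, Nat.cast_ofNat]
    gcongr <;> linarith
  have h2 : (x.den : ℝ) ≤ 2 ^ e * x.den := le_mul_of_one_le_left (by linarith) (one_le_pow₀ one_le_two)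
  have h3 : (x.num.natAbs : ℝ) ≤ x.den := by
    rw [Nat.cast_natAbs, Int.cast_abs, ← Rat.cast_intCast, ← Rat.mul_den_eq_num, Rat.cast_mul,
      abs_mul, Rat.cast_natCast, Nat.abs_cast]
    exact mul_le_of_le_one_left (by linarith) x1
  have h4 : ∀ y : ℝ, 0 ≤ y → y ≤ 2 ^ e * x.den → y ^ k ≤ ((2 * x.den) ^ (e + 1) : ℕ) ^ (k + 1) :=
    fun y y0 y1 => (pow_le_pow_left₀ y0 (y1.trans h1) k).trans
      (pow_le_pow_right₀ (by linarith) k.le_succ)
  refine ⟨fun _ => le_trans ?_ (h4 _ (by positivity) ((one_le_den x0).trans h2)),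
    Nat.lcmUpto (2 * k) * x.num.natAbs ^ k, Nat.mul_pos (Nat.lcmUpto_pos _)
      (pow_pos (Int.natAbs_pos.2 (Rat.num_ne_zero.2 x0)) _), ?_, fun _ j hj => ?_⟩
  · simp only [Lg, coeff_mk]
    push_cast
    rw [abs_div, abs_neg, abs_pow, abs_neg, abs_inv, Nat.abs_cast]
    rcases k with _ | k
    · simp
    · exact div_le_self (by positivity) (by exact_mod_cast k.succ_pos)
  · have := h4 (Real.exp (2 * (Real.log 4 + 4)) * x.num.natAbs) (by positivity) (by gcongr)
    rw [mul_pow] at this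
    exact_mod_cast (mul_le_mul_of_nonneg_right (lcm_le k)
      (pow_nonneg (Nat.cast_nonneg x.num.natAbs) k)).trans this
  · rcases j.eq_zero_or_pos with rfl | j0
    · exact ⟨0, by simp [Lg]⟩
    obtain ⟨a, ha⟩ : j ∣ Nat.lcmUpto (2 * k) := dvd_lcm (f := id) (mem_Icc.2 ⟨j0, by omega⟩)
    obtain ⟨y, hy⟩ : x.num ^ j ∣ (x.num.natAbs : ℤ) ^ k :=
      (pow_dvd_pow _ hj).trans (pow_dvd_pow_of_dvd (Int.dvd_natAbs.2 dvd_rfl) k)
    have c2 := congrArg (Int.cast : ℤ → ℚ) hy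
    simp only [Int.cast_pow, Int.cast_natCast, Int.cast_mul, ← Rat.mul_den_eq_num] at c2
    refine ⟨-(a * y * (-x.den) ^ j), ?_⟩
    have : (j : ℚ) ≠ 0 := by positivity
    simp only [Lg, coeff_mk, ha, Nat.cast_mul, Nat.cast_pow, c2]
    push_cast
    rw [neg_pow x⁻¹, neg_pow (x.den : ℚ), mul_pow, inv_pow]
    field_simp

variable {ν : Type*} [Fintype ν] [DecidableEq ν] {T : Polynomial ℚ} {B : Matrix ν ν (Polynomial ℚ)}
  {M : Matrix ν ν ℚ}

theorem tay_Ex (hM : IsNilpotent M) {g : ℂ → ℂ} {p : ℂ} (hg : AnalyticAt ℂ g p) (i j : ν) :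
    AnalyticAt ℂ (fun z => Ex M (g z) i j) p ∧ tay (fun z => Ex M (g z) i j) p = Ex M (tay g p) i j := by
  obtain ⟨N, hN⟩ := hM
  simp only [Ex_apply hN]
  refine ⟨by fun_prop, (tay_sum _ fun r _ => by fun_prop).trans (sum_congr rfl fun r _ => ?_)⟩
  rw [tay_mul (by fun_prop) analyticAt_const, tay_pow hg, tay_const]
  exact congrArg _ (DFunLike.congr_fun (RingHom.ext_rat (C.comp (algebraMap ℚ ℂ)) _) _)

omit [Fintype ν] [DecidableEq ν] in
theorem ex2_der (U V : Matrix ν ν ℚ⟦X⟧) : (ex2 1 U V).map (d⁄dX ℚ) =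
    ex2 0 (U.map (d⁄dX ℚ)) V + ex2 0 U (V.map (d⁄dX ℚ)) := by
  ext1 (_ | ⟨p, q⟩) (_ | ⟨p', q'⟩) <;> simp [ex2, add_comm, mul_comm]

/-- `Y z * z ^ M` solves `z T P' = B P` near `z` -/
def Sing (T : Polynomial ℚ) (B : Matrix ν ν (Polynomial ℚ)) (M : Matrix ν ν ℚ)
    (Y : ℂ → Matrix ν ν ℂ) (z : ℂ) : Prop :=
  ∃ Y' : Matrix ν ν ℂ, (∀ i j, HasDerivAt (Y · i j) (Y' i j) z) ∧ Polynomial.aeval z T •
    (z • Y' + Y z * M.map (algebraMap ℚ ℂ)) = B.map (Polynomial.aeval z) * Y z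

theorem Sing.msol (hM : IsNilpotent M) {Y : ℂ → Matrix ν ν ℂ} {φ L : ℂ → ℂ} {s a : ℂ}
    (h : Sing T B M Y (φ s)) (hT : Polynomial.aeval (φ s) T ≠ 0) (hφ : HasDerivAt φ (a * φ s) s)
    (hL : HasDerivAt L a s) {A : ℂ → Matrix ν ν ℂ} (e : A s = a • Az T B (φ s)) :
    MSol A (fun s => Y (φ s) * Ex M (L s)) s := fun i j => by
  obtain ⟨Y', h1, h2⟩ := h
  refine (HasDerivAt.fun_sum fun k _ => ((h1 i k).comp s hφ).fun_mul
    ((Ex_hasDeriv hM (L s) k j).comp s hL)).congr_deriv ?_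
  have e1 : Az T B (φ s) = (Polynomial.aeval (φ s) T)⁻¹ • B.map (Polynomial.aeval (φ s)) := by
    ext; simp [Az, div_eq_inv_mul]
  have c : Ex M (L s) * M.map (algebraMap ℚ ℂ) = M.map (algebraMap ℚ ℂ) * Ex M (L s) := by
    obtain ⟨N, hN⟩ := hM
    rw [Ex, IsNilpotent.exp_eq_sum (nil_smul hN _)]
    exact (Commute.sum_left _ _ _ fun r _ =>
      (((Commute.refl _).smul_left _).pow_left _).smul_left _).eq
  rw [e, e1, smul_mul_assoc, smul_mul_assoc, ← Matrix.mul_assoc, ← h2, c, smul_mul_assoc,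
    inv_smul_smul₀ hT, Matrix.add_mul, Matrix.mul_assoc (Y _), smul_mul_assoc, sum_add_distrib]
  simp only [Matrix.smul_apply, Matrix.add_apply, smul_eq_mul, mul_apply (M := Y'),
    mul_apply (M := Y _), Function.comp, mul_add, mul_sum]
  congr 1 <;> exact sum_congr rfl fun _ _ => by ring

theorem exists_sing (T0 : T.coeff 0 ≠ 0) (hB : B.map (·.coeff 0) = T.coeff 0 • M)
    (hM : IsNilpotent M) (h : GalK (Polynomial.X * T) B) (L : Type*) [Fintype L] [DecidableEq L] :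
    ∃ R > 0, ∃ Y : ℂ → Matrix ν ν ℂ, (∀ z ∈ ball (0 : ℂ) R, Polynomial.aeval z T ≠ 0 ∧
      IsUnit (Y z).det ∧ Sing T B M Y z) ∧ ∃ B' G f, One (A := L → Option (ν × ν))
        (Polynomial.X * T) B' {x | x ≠ 0 ∧ |(x : ℝ)| < R / 2} G f (fun x => tens fun _ => hatg (Y x)) ∧
      (∀ μ : L → _, DifferentiableOn ℂ (fun z => tens (fun _ => hatg (Y z)) μ) (ball 0 R)) ∧
      ∀ μ, mp (f μ) = tay (fun z => tens (fun _ => hatg (Y z)) μ) 0 := by
  obtain ⟨Yf, a, Y0, hY, ha⟩ := exists_formal T0 hB hM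
  obtain ⟨a', ha'⟩ := formal_gf T0 hM h Y0 hY ha
  choose y y1 y2 using fun i j => exists_ana (ha i j)
  obtain ⟨Y, hYy⟩ : ∃ Y : ℂ → Matrix ν ν ℂ, ∀ i j, (Y · i j) = y i j :=
    ⟨fun z => of fun i j => y i j z, fun _ _ => rfl⟩
  simp only [← hYy] at y1 y2
  have Y1 : Y 0 = 1 := by
    ext i j
    have := congrFun₂ Y0 i j
    rw [← coeff_zero_tay (g := (Y · i j)), ← y2, coeff_map, show coeff 0 (Yf i j) = _ from this]
    simp [one_apply, apply_ite]
  have cY : ContinuousAt Y 0 := continuousAt_pi.2 fun i => continuousAt_pi.2 fun j =>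
    (y1 i j).continuousAt
  have cd : ContinuousAt (fun z => (Y z).det) 0 := continuous_id.matrix_det.continuousAt.comp cY
  have d0 : (Y 0).det ≠ 0 := by simp [Y1]
  have c3 := (analyticAt_aeval T (0 : ℂ)).continuousAt
  have c4 : ContinuousAt (fun t => ((Polynomial.aeval t (Polynomial.X * T), fun i j => Y t i j,
      fun i j => (Y t)⁻¹ i j) : ℂ × (ν → ν → ℂ) × (ν → ν → ℂ))) 0 := by
    refine (analyticAt_aeval _ _).continuousAt.prodMk (cY.prodMk ?_)
    simp only [Matrix.inv_def, Ring.inverse_eq_inv']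
    exact (cd.inv₀ d0).smul (continuous_id.matrix_adjugate.continuousAt.comp cY)
  obtain ⟨c, hc⟩ := c4.norm.isBoundedUnder_le
  have c5 : ∀ᶠ z in 𝓝 (0 : ℂ), Sing T B M Y z := by
    have : ∀ i j, ∀ᶠ z in 𝓝 (0 : ℂ), Polynomial.aeval z T * (Polynomial.aeval z
        (Polynomial.X : Polynomial ℚ) * deriv (Y · i j) z + ∑ k, Y z i k * (M k j : ℂ)) -
          ∑ k, Polynomial.aeval z (B i k) * Y z k j = 0 := fun i j => by
      have a1 := (analyticAt_aeval (Polynomial.X : Polynomial ℚ) 0).fun_mul (y1 i j).deriv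
      have a2 := fun k => (y1 i k).fun_mul (analyticAt_const (v := (M k j : ℂ)))
      have a3 := analyticAt_fun_sum univ fun k _ => a2 k
      have a4 := fun k => (analyticAt_aeval (B i k) 0).fun_mul (y1 k j)
      have a5 := analyticAt_fun_sum univ fun k _ => a4 k
      have a6 := (analyticAt_aeval T 0).fun_mul (a1.fun_add a3)
      refine eventually_zero_of_tay (a6.fun_sub a5) ?_
      rw [tay_sub a6 a5, tay_mul (analyticAt_aeval _ _) (a1.fun_add a3), tay_add a1 a3,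
        tay_mul (analyticAt_aeval _ _) (y1 i j).deriv, tay_sum _ fun k _ => a2 k,
        tay_sum _ fun k _ => a4 k, sub_eq_zero]
      simp only [tay_mul (analyticAt_aeval _ _) (y1 _ _), tay_mul (y1 _ _) analyticAt_const,
        tay_aeval, tay_const, tay_deriv, ← y2, ← mp_deriv]
      have := congrArg mp (congrFun₂ hY i j)
      simp only [Th, LinearMap.coe_mk, AddHom.coe_mk, Matrix.smul_apply, Matrix.add_apply,
        mul_apply, map_apply, smul_eq_mul, map_mul, map_add, map_sum, mp_τ1, Rat.cast_zero] at this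
      simpa [τp_zero] using this
    filter_upwards [eventually_all.2 fun i => eventually_all.2 (this i),
      eventually_all.2 fun i => eventually_all.2 fun j => (y1 i j).eventually_analyticAt] with z h1 h2
    refine ⟨of fun i j => deriv (Y · i j) z, fun i j => (h2 i j).differentiableAt.hasDerivAt, ?_⟩
    ext i j
    simpa [mul_apply, sub_eq_zero] using h1 i j
  obtain ⟨R, R0, hR⟩ := Metric.eventually_nhds_iff_ball.1 ((c3.eventually_ne (y := 0) (by
    simpa [← Polynomial.coeff_zero_eq_aeval_zero'] using T0)).and ((cd.eventually_ne d0).and (c5.and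
      ((eventually_map.1 hc).and (ball_mem_nhds (0 : ℂ) one_pos)))))
  have c0 : 0 ≤ c := (norm_nonneg _).trans (hR 0 (mem_ball_self R0)).2.2.2.1
  have hol : Hol (ball (0 : ℂ) R) Y := fun i j z hz =>
    let ⟨_, h, _⟩ := (hR z hz).2.2.1; (h i j).differentiableAt.differentiableWithinAt
  have nx : ∀ x : ℚ, ‖(x : ℂ)‖ = |(x : ℝ)| := fun x => by
    rw [← Complex.ofReal_ratCast, Complex.norm_real, Real.norm_eq_abs]
  obtain ⟨Ω, hΩ⟩ : ∃ Ω : Set ℚ, Ω = {x : ℚ | x ≠ 0 ∧ |(x : ℝ)| < R / 2} := ⟨_, rfl⟩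
  have b1 : ∀ x ∈ Ω, (x : ℂ) ≠ 0 ∧ ∀ z ∈ ball (x : ℂ) (‖(x : ℂ)‖ / 2), z ∈ ball (0 : ℂ) R ∧
      z / x ∈ closedBall (1 : ℂ) (1 / 2) := fun x hx => by
    rw [hΩ] at hx
    have x0 : (x : ℂ) ≠ 0 := by exact_mod_cast hx.1
    refine ⟨x0, fun z hz => ⟨ball_subset_ball' (by rw [dist_zero_right, nx]; linarith [hx.2]) hz, ?_⟩⟩
    rw [mem_closedBall_iff_norm, div_sub_one x0, norm_div, div_le_iff₀ (by simpa using hx.1)]
    linarith [mem_ball_iff_norm.1 hz]
  have b2 : closedBall (1 : ℂ) (1 / 2) ⊆ Complex.slitPlane := (closedBall_subset_ball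
    (by norm_num)).trans Complex.ball_one_subset_slitPlane
  obtain ⟨S, hS⟩ := (isCompact_closedBall (1 : ℂ) (1 / 2)).exists_bound_of_continuousOn
    (f := fun w => (fun i j => Ex M (Complex.log w) i j : ν → ν → ℂ)) fun w hw =>
      (continuousAt_pi.2 fun i => continuousAt_pi.2 fun j =>
        (tay_Ex hM (analyticAt_clog (b2 hw)) i j).1.continuousAt).continuousWithinAt
  have S0 : 0 ≤ S := (norm_nonneg _).trans (hS 1 (by simp))
  have b3 : ∀ x ∈ Ω, ∀ z ∈ ball (x : ℂ) (‖(x : ℂ)‖ / 2),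
      MSol (Az (Polynomial.X * T) B) (fun z => Y z * Ex M (Complex.log (z / x))) z := fun x hx z hz =>
    have ⟨h1, h2⟩ := (b1 x hx).2 z hz
    have z0 : z ≠ 0 := fun e => by simpa [e] using b2 h2
    Sing.msol (φ := id) hM (hR z h1).2.2.1 (hR z h1).1 ((hasDerivAt_id z).congr_deriv (by simp [z0]))
      (log_der (b1 x hx).1 (b2 h2)) (by ext; simp [Az, div_eq_inv_mul, mul_assoc, mul_left_comm])
  have b4 : ∀ x ∈ Ω, (x : ℂ) ∈ ball (x : ℂ) (‖(x : ℂ)‖ / 2) := fun x hx =>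
    mem_ball_self (half_pos (norm_pos_iff.2 (b1 x hx).1))
  have b5 : ∀ x ∈ Ω, (x : ℂ) ∈ ball (0 : ℂ) R := fun x hx => ((b1 x hx).2 _ (b4 x hx)).1
  have b6 := fun x hx => mem_of_superset (isOpen_ball.mem_nhds (b4 x hx)) (b3 x hx)
  have b7 : ∀ x ∈ Ω, Polynomial.aeval (x : ℂ) (Polynomial.X * T) ≠ 0 := fun x hx => by
    simpa using ⟨by exact_mod_cast (b1 x hx).1, (hR _ (b5 x hx)).1⟩
  have b8 : ∀ x ∈ Ω, Y x * Ex M (Complex.log (x / x)) = Y x := fun x hx => by
    rw [div_self (b1 x hx).1, Complex.log_one, Ex_zero, Matrix.mul_one]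
  have b9 : ∀ x ∈ Ω, Y x * (Y x)⁻¹ = 1 := fun x hx => mul_nonsing_inv _ (hR _ (b5 x hx)).2.1.isUnit
  have hG := Gb_gf h (S := c + Fintype.card ν * (Fintype.card ν * (c * S) * c) + 4) (Ω := Ω)
    fun x h => by
      obtain ⟨-, -, -, a3, -⟩ := hR _ (b5 x h)
      have a2 := b7 x h
      have a5 : (0 : ℝ) ≤ Fintype.card ν * (Fintype.card ν * (c * S) * c) := by positivity
      have e1 := congrArg (· * (Y x)⁻¹.map C) (tay_P (b6 x h) a2)
      have a4 := (norm_prod_le_iff.1 (norm_prod_le_iff.1 a3).2).2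
      replace a3 := (norm_prod_le_iff.1 a3).1
      rw [aeval_rat] at a2 a3
      refine ⟨by exact_mod_cast a2, (nx _ ▸ a3).trans (by linarith), fun i j k => ?_⟩
      simp only [b8 x h, Matrix.mul_assoc, ← Matrix.map_mul, b9 x h,
        Matrix.map_one _ (map_zero _) (map_one _), Matrix.mul_one] at e1
      have e2 := congrArg (fun M => ‖coeff k (M i j)‖) e1
      simp only [mul_apply (N := (Y x)⁻¹.map C), of_apply, map_apply, map_sum, coeff_mul_C, coeff_map,
        eq_ratCast] at e2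
      have x0 := norm_pos_iff.2 (b1 x h).1
      refine ((nx _).symm.trans e2.symm).trans_le ((norm_sum_le _ _).trans ((sum_le_card_nsmul _ _
        (Fintype.card ν * (c * S) / (‖(x : ℂ)‖ / 4) ^ k * c) fun l _ => ?_).trans ?_))
      · rw [norm_mul]
        refine mul_le_mul (cauchy (hol_of_msol (b3 x h) i l) (by linarith) (by linarith)
          (fun t ht => ?_) k) ((norm_le_pi_norm _ j).trans ((norm_le_pi_norm _ l).trans a4))
          (norm_nonneg _) (by positivity)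
        obtain ⟨t1, t2⟩ := (b1 x h).2 t (sphere_subset_ball (by linarith) ht)
        refine (norm_sum_le _ _).trans ((sum_le_card_nsmul _ _ (c * S) fun m _ => ?_).trans (by simp))
        rw [norm_mul]
        exact mul_le_mul ((norm_le_pi_norm _ m).trans ((norm_le_pi_norm _ i).trans
          (norm_prod_le_iff.1 (norm_prod_le_iff.1 (hR t t1).2.2.2.1).2).1))
          ((norm_le_pi_norm _ l).trans ((norm_le_pi_norm _ m).trans (hS _ t2))) (norm_nonneg _) c0
      · rw [nsmul_eq_mul, card_univ, pow_succ', show Fintype.card ν * (Fintype.card ν * (c * S) /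
          (‖(x : ℂ)‖ / 4) ^ k * c) = Fintype.card ν * (Fintype.card ν * (c * S) * c) *
            (4 * ‖(x : ℂ)‖⁻¹) ^ k by rw [div_pow, mul_pow, inv_pow]; field_simp]
        have d1 : (1 : ℝ) ≤ x.den := by exact_mod_cast x.den_pos
        have := one_le_den (hΩ ▸ h).1
        rw [← nx] at this
        exact mul_le_mul (by nlinarith) (pow_le_pow_left₀ (by positivity) (by nlinarith) k)
          (by positivity) (by positivity)
  refine ⟨R, R0, Y, fun z h => ⟨(hR z h).1, (hR z h).2.1.isUnit, (hR z h).2.2.1⟩, _, _, _, hΩ ▸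
    one_tens (B := ex2 0 B 1 - T • ex2 0 1 (M.map Polynomial.C)) (f := hatg Yf) (a := a')
      (G := fun x => ex2 1 (Gb (Polynomial.X * T) B x) (Ex M (-Lg x))) (y := fun z => hatg (Y z)) R0
      (G0 := ex2 1 Yf 1) (M := ex2 0 M 1 - ex2 0 1 M) (e := hatg 1) (b := τ1 0 T) ?_ (ex2_nil hM) ?_
      ?_ ?_ ?_ ?_ (fun x hx => ?_) (fun x hx => ?_) ?_ ?_ ?_ ?_ fun x hx => ⟨b5 x hx, ?_⟩⟩
  · rw [ex2_map, map_one, ← coeff_zero_eq_constantCoeff, Y0, Matrix.map_one _ (map_zero _) (by simp),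
      ex2_one]
  · exact fun e => T0 (by rw [← Polynomial.coeff_coe, ← τ1_zero, e, map_zero])
  · rw [map_mul, mul_comm, τ1_zero Polynomial.X, Polynomial.coe_X]
  · rw [ex2_der, Matrix.map_sub _ (map_sub _), Matrix.map_sub _ (map_sub _), Matrix.map_smul' _ _ _
      (map_mul _), ex2_map, ex2_map, ex2_map, ex2_map, Matrix.sub_mul, Matrix.mul_sub, smul_mul_assoc]
    simp only [ex2_mul, Matrix.map_one _ (map_zero _) (map_one _), Matrix.mul_one, Matrix.one_mul,
      ← hY, Matrix.map_map]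
    rw [show (1 : Matrix ν ν ℚ⟦X⟧).map (d⁄dX ℚ) = 0 by ext1; simp [one_apply, apply_ite (d⁄dX ℚ)]]
    ext1 (_ | ⟨p, q⟩) (_ | ⟨p', q'⟩) <;> simp [ex2, Th, τ1_zero, Function.comp_def]
    ring
  · rw [sub_mulVec, ex2_mulVec, ex2_mulVec]
    simp
  · rw [show (fun j => C (hatg 1 j)) = hatg (1 : Matrix ν ν ℚ⟦X⟧) from funext fun o => by
      rcases o with _ | o
      exacts [map_one _, (apply_ite C _ _ _).trans (by rw [map_one, map_zero]; rfl)], ex2_mulVec]
    simp only [Matrix.mul_one]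
    rfl
  · rw [ex2_map, map_one, Gb_zero, Ex_map hM, map_neg, ← coeff_zero_eq_constantCoeff_apply,
      show coeff 0 (Lg x) = 0 by simp [Lg], neg_zero, Ex_zero, ex2_one]
  · have h1 := Gb_ode (b6 x hx) (b7 x hx) (by rw [b8 x hx, b9 x hx])
    have h2 := Lg_der (hΩ ▸ hx).1
    rw [ex2_der, Ex_der hM, Matrix.map_sub _ (map_sub _), Matrix.map_smul' _ _ _ (map_mul _), ex2_map,
      ex2_map, Matrix.sub_mul, smul_mul_assoc]
    simp only [ex2_mul, Matrix.map_one _ (map_zero _) (map_one _), Matrix.mul_one, Matrix.one_mul,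
      ← h1, Matrix.map_map]
    rw [show (τ1 x ∘ Polynomial.C : ℚ → _) = algebraMap ℚ ℚ⟦X⟧ from funext fun _ => by simp [τ1]]
    ext1 (_ | ⟨p, q⟩) (_ | ⟨p', q'⟩) <;> simp [ex2]
    linear_combination (-(τ1 x T * Gb (Polynomial.X * T) B x p p' *
      (Ex M (-Lg x) * M.map C) q' q)) * h2
  · rintro (_ | a) (_ | b)
    exacts [one_mem _, zero_mem _, zero_mem _, mul_mem (hG _ _) (by
      obtain ⟨N, hN⟩ := hM
      simp only [Ex_apply hN, ← Finset.sum_fn]
      exact sum_mem fun r _ => mul_mem (pow_mem (neg_mem (UF_Lg fun x hx => ⟨(hΩ ▸ hx).1,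
        nx x ▸ (mem_ball_zero_iff.1 (hR _ (b5 x hx)).2.2.2.2).le⟩)) r) (UF_C _))]
  · intro k
    obtain ⟨h0, d, h1, h2, h3⟩ := ha' k
    refine ⟨?_, d, h1, h2, ?_⟩ <;> rintro (_ | a)
    · exact ((GF.int (fun _ : Unit => 1) (by simp)).mono ha'.pos k).1 () |>.trans_eq' (by simp [hatg])
    · exact h0 a
    · exact fun j _ => ⟨if j = 0 then d else 0, by by_cases e : j = 0 <;> simp [hatg, coeff_one, e]⟩
    · exact h3 a
  · rintro (_ | a)
    exacts [differentiableOn_const _, hol _ _]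
  · rintro (_ | a)
    exacts [(map_one _).trans ((tay_const 1).trans (map_one _)).symm, y2 _ _]
  · rw [ex2_map, map_one, show (fun β => C (hatg (Y x) β)) = hatg ((Y x).map C) from
      funext fun o => by cases o <;> simp [hatg], ex2_mulVec, ← b8 x hx, ← tay_P (b6 x hx) (b7 x hx)]
    rintro (_ | ⟨i, j⟩)
    · exact (tay_const 1).trans (map_one _)
    have n1 := isOpen_ball.mem_nhds (b4 x hx)
    have a1 := (analyticAt_of_eventually (mem_of_superset n1 fun z hz => (log_der (b1 x hx).1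
      (b2 ((b1 x hx).2 z hz).2)).differentiableAt)).fun_neg
    have a2 := fun k => (hol_of_msol (b3 x hx) i k).analyticAt n1
    rw [Ex_map hM, map_neg, ← tay_log (hΩ ▸ hx).1]
    simp only [Option.elim_some]
    rw [mul_apply, show (fun z => hatg (Y z) (some (i, j))) = fun z => ∑ k, (Y z * Ex M (Complex.log (z / x))) i k *
        Ex M (-Complex.log (z / x)) k j from funext fun z => by
          rw [← mul_apply, Matrix.mul_assoc, ← Ex_add hM, add_neg_cancel, Ex_zero, Matrix.mul_one]; rfl,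
      tay_sum _ fun k _ => (a2 k).fun_mul (tay_Ex hM a1 k j).1]
    refine sum_congr rfl fun k _ => ?_
    rw [tay_mul (a2 k) (tay_Ex hM a1 k j).1, (tay_Ex hM a1 k j).2, ← zero_sub (tay _ _), ← map_zero C,
      ← tay_const (p := x), ← tay_sub analyticAt_const (by simpa using a1.fun_neg)]
    simp

end

end Pool.Agent.Lib.MP_5591bc_ag.R
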