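import Pool.Agent.Lib.MP_5591bc_ag.RMain

namespace Pool.Agent.Results.MP_5591bc_ag.SUnit

open Pool.Agent.Lib.MP_5591bc_ag.R

/-- Linear forms in the entries of fundamental matrices of systems `T P' = B P` over a number field
satisfying Galochkin's condition: near an ordinary point `s`, the degree `δ` property holds at all
but finitely many of the points `s + ξ`, `ξ` rational, whose denominator is an `S`-unit up to a
small factor and whose numerator is small. -/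
theorem result (K : Type) [Field K] [NumberField K] [Algebra K ℂ] (n r δ : ℕ) :
    ∃ η : ℝ, 0 < η ∧ ∀ (T : Polynomial K) (B : Matrix (Fin n) (Fin n) (Polynomial K)), GalK T B →
    ∀ s : K, T.eval s ≠ 0 → ∀ U : Set ℂ, IsOpen U → IsPreconnected U → algebraMap K ℂ s ∈ U →
    ∀ P : ℂ → Matrix (Fin n) (Fin n) ℂ, FundK T B U P →
    ∀ ℓ : Fin r → Matrix (Fin n) (Fin n) ℂ →ₗ[ℂ] ℂ, ∀ S : Finset ℕ, (∀ p ∈ S, p.Prime) →
    {ξ : ℚ | (∃ (b : ℕ) (v : ℕ → ℕ), ξ.den = b * ∏ p ∈ S, p ^ v p ∧ (b : ℝ) ≤ (ξ.den : ℝ) ^ η) ∧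
      |(ξ : ℝ)| ≤ (ξ.den : ℝ) ^ (η - 1) ∧ ¬ GoodK U (fun t i => ℓ i (P t)) δ (s + ξ)}.Finite :=
  sunit K n r δ

end Pool.Agent.Results.MP_5591bc_ag.SUnit
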