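import Pool.Agent.Lib.MP_5591bc_ag.SMain

namespace Pool.Agent.Results.MP_5591bc_ag.SmoothIntegers

open Pool.Agent.Lib.MP_5591bc_ag.G

/-- Periods of `y^2 = f(x)(x - t)`, `deg f = 2 g`: the degree `δ` version holds at all but finitely
many natural numbers `t` such that all prime factors of `t - c` lie in a finite set `S`. -/
theorem result (f : Polynomial ℚ) (g : ℕ) (hg : 0 < g) (hf : f.natDegree = 2 * g) (c : ℤ)
    (hc : f.eval (c : ℚ) ≠ 0) (S : Finset ℕ) (δ : ℕ) (R : ℝ)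
    (P : ℂ → Matrix (Fin (2 * g)) (Fin (2 * g)) ℂ) (hP : IsPeriodMatrix f {t | R < t.re} P) :
    {t : ℕ | ((t : ℤ) - c).natAbs.primeFactors ⊆ S ∧ ¬ Good {t | R < t.re} P δ t}.Finite :=
  Pool.Agent.Lib.MP_5591bc_ag.R.smooth (by omega) (even_two_mul g) hf hc S δ hP

end Pool.Agent.Results.MP_5591bc_ag.SmoothIntegers
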